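import Mathlib

namespace BRCL

/-- 2-adic valuation of `l^m + 1` against `l^2 - 1`. -/
theorem v2_aux {l m : ℕ} (hl : Odd l) (hl1 : 1 < l) :
    padicValNat 2 (l ^ m + 1) + 1 ≤ padicValNat 2 (l ^ 2 - 1) := by
  haveI : Fact (Nat.Prime 2) := ⟨Nat.prime_two⟩
  have hsq : l ^ 2 - 1 = (l - 1) * (l + 1) := by
    obtain ⟨a, rfl⟩ : ∃ a, l = a + 1 := ⟨l - 1, by omega⟩
    simp only [Nat.add_sub_cancel]
    have : (a + 1) ^ 2 = a * (a + 1 + 1) + 1 := by ring
    omega
  have h1 : l - 1 ≠ 0 := by omega
  have h2 : l + 1 ≠ 0 := by omega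
  have hv : padicValNat 2 (l ^ 2 - 1) = padicValNat 2 (l - 1) + padicValNat 2 (l + 1) := by
    rw [hsq, padicValNat.mul h1 h2]
  have hev1 : 2 ∣ l - 1 := by obtain ⟨a, ha⟩ := hl; exact ⟨a, by omega⟩
  have hev2 : 2 ∣ l + 1 := by obtain ⟨a, ha⟩ := hl; exact ⟨a + 1, by omega⟩
  have hp1 : 1 ≤ padicValNat 2 (l - 1) := one_le_padicValNat_of_dvd h1 hev1
  have hp2 : 1 ≤ padicValNat 2 (l + 1) := one_le_padicValNat_of_dvd h2 hev2
  have hdvd : 2 * (l + 1) ∣ l ^ 2 - 1 := by
    rw [hsq]; exact Nat.mul_dvd_mul hev1 dvd_rfl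
  have hmod : l ^ 2 ≡ 1 [MOD 2 * (l + 1)] := by
    have h : 1 ≤ l ^ 2 := Nat.one_le_pow _ _ (by omega)
    exact ((Nat.modEq_iff_dvd' h).2 hdvd).symm
  rcases Nat.even_or_odd m with he | ho
  · obtain ⟨j, rfl⟩ := he
    -- l^(2j) = 1 mod 4
    have h4 : l ^ (j + j) ≡ 1 [MOD 4] := by
      have : l ^ (j + j) = (l ^ 2) ^ j := by rw [← pow_mul]; congr 1; ring
      rw [this]
      have hl4 : l ^ 2 ≡ 1 [MOD 4] := by
        have : l % 4 = 1 ∨ l % 4 = 3 := by obtain ⟨a, ha⟩ := hl; omega
        rcases this with h | h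
        · have := Nat.ModEq.pow 2 (show l ≡ 1 [MOD 4] from h)
          simpa using this
        · have := Nat.ModEq.pow 2 (show l ≡ 3 [MOD 4] from h)
          exact this.trans (by decide)
      have := hl4.pow j
      simpa using this
    have h24 : ¬ 2 ^ 2 ∣ l ^ (j + j) + 1 := by
      intro hd
      have : (l ^ (j + j) + 1) % 4 = 0 := Nat.mod_eq_zero_of_dvd (by simpa using hd)
      have h5 : (l ^ (j + j)) % 4 = 1 := h4
      omega
    have hle : padicValNat 2 (l ^ (j + j) + 1) ≤ 1 := by
      by_contra hc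
      push Not at hc
      apply h24
      exact (padicValNat_dvd_iff_le (by positivity)).2 hc
    omega
  · obtain ⟨j, rfl⟩ := ho
    have hm1 : l ^ (2 * j + 1) + 1 ≡ l + 1 [MOD 2 * (l + 1)] := by
      have : l ^ (2 * j + 1) = (l ^ 2) ^ j * l := by rw [← pow_mul, pow_succ]
      rw [this]
      have h := (hmod.pow j).mul_right l
      simp only [one_pow, one_mul] at h
      exact h.add_right 1
    have hle : padicValNat 2 (l ^ (2 * j + 1) + 1) ≤ padicValNat 2 (l + 1) := by
      by_contra hc
      push Not at hc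
      set v := padicValNat 2 (l + 1) with hv0
      have hd : 2 ^ (v + 1) ∣ l ^ (2 * j + 1) + 1 :=
        (padicValNat_dvd_iff_le (by positivity)).2 hc
      have hd2 : 2 ^ (v + 1) ∣ 2 * (l + 1) := by
        rw [pow_succ, mul_comm]
        exact Nat.mul_dvd_mul dvd_rfl pow_padicValNat_dvd
      have hd3 : 2 ^ (v + 1) ∣ l + 1 := (hm1.of_dvd hd2).dvd_iff dvd_rfl |>.1 hd
      have := (padicValNat_dvd_iff_le h2).1 hd3
      omega
    omega

theorem ar {l m n D k : ℕ} (hl : l.Prime) (hm : m ≠ 0) (hn : n ≠ 0) (hD : D ∣ n)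
    (hk0 : k ≠ 0) (hk : n * (l ^ 2 - 1) ∣ k) :
    Nat.gcd ((n / D) * ∑ i ∈ Finset.range D, (l ^ m) ^ i) (k * (l ^ m - 1)) ∣ k := by
  obtain ⟨E, rfl⟩ := hD
  have hD0 : D ≠ 0 := by rintro rfl; simp at hn
  have hE0 : E ≠ 0 := by rintro rfl; simp at hn
  rw [Nat.mul_div_cancel_left E (Nat.pos_of_ne_zero hD0)]
  set q := l ^ m with hq
  have hl2 : 2 ≤ l := hl.two_le
  have hq2 : 2 ≤ q := by
    calc 2 ≤ l := hl2
      _ ≤ l ^ m := Nat.le_self_pow hm l
  set S := ∑ i ∈ Finset.range D, q ^ i with hS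
  have hSq : S * (q - 1) = q ^ D - 1 := by
    have := geom_sum_mul_of_one_le (R := ℕ) (x := q) (by omega) D
    simpa [hS] using this
  have hqD : q ^ D - 1 ≠ 0 := by
    have : 1 < q ^ D := Nat.one_lt_pow hD0 (by omega)
    omega
  have hS0 : S ≠ 0 := by
    intro h; rw [h, zero_mul] at hSq; exact hqD hSq.symm
  have hq10 : q - 1 ≠ 0 := by omega
  have hl21 : l ^ 2 - 1 ≠ 0 := by
    have : 1 < l ^ 2 := Nat.one_lt_pow (by norm_num) (by omega)
    omega
  set g := Nat.gcd (E * S) (k * (q - 1)) with hg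
  have hg0 : g ≠ 0 := by
    intro h
    rw [hg, Nat.gcd_eq_zero_iff] at h
    exact (mul_ne_zero hE0 hS0) h.1
  rw [← Nat.factorization_prime_le_iff_dvd hg0 hk0]
  intro r hr
  haveI : Fact r.Prime := ⟨hr⟩
  rw [Nat.factorization_def _ hr, Nat.factorization_def _ hr]
  -- general facts
  have hgdvd1 : g ∣ E * S := Nat.gcd_dvd_left _ _
  have hgdvd2 : g ∣ k * (q - 1) := Nat.gcd_dvd_right _ _
  have hvnk : padicValNat r (D * E) + padicValNat r (l ^ 2 - 1) ≤ padicValNat r k := by
    rw [← padicValNat.mul hn hl21]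
    exact (padicValNat_dvd_iff_le hk0).1 (dvd_trans pow_padicValNat_dvd hk)
  have hvDE : padicValNat r (D * E) = padicValNat r D + padicValNat r E :=
    padicValNat.mul hD0 hE0
  by_cases hrq : r ∣ q - 1
  · have h1 : padicValNat r g ≤ padicValNat r (E * S) :=
      (padicValNat_dvd_iff_le (mul_ne_zero hE0 hS0)).1 (dvd_trans pow_padicValNat_dvd hgdvd1)
    have h2 : padicValNat r (E * S) = padicValNat r E + padicValNat r S :=
      padicValNat.mul hE0 hS0
    have h3 : padicValNat r S + padicValNat r (q - 1) = padicValNat r (q ^ D - 1) := by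
      rw [← padicValNat.mul hS0 hq10, hSq]
    have hrnq : ¬ r ∣ q := by
      intro h
      have : r ∣ q - (q - 1) := Nat.dvd_sub h hrq
      rw [show q - (q - 1) = 1 by omega] at this
      exact hr.one_lt.ne' (Nat.dvd_one.1 this)
    rcases hr.eq_two_or_odd' with h22 | hodd
    · subst h22
      rcases Nat.even_or_odd D with hDe | hDo
      · have h4 := padicValNat.pow_two_sub_pow (x := q) (y := 1) (by omega) hrq hrnq hD0 hDe
        rw [one_pow] at h4
        have hqodd : Odd l := by
          rcases hl.eq_two_or_odd' with h | h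
          · exfalso; apply hrnq; rw [hq, h]; exact dvd_pow_self 2 hm
          · exact h
        have h5 := v2_aux (m := m) hqodd (by omega)
        rw [← hq] at h5
        omega
      · have hSodd : ¬ 2 ∣ S := by
          have hqm : q ≡ 1 [MOD 2] := by
            have : q % 2 = 1 := by omega
            exact this
          have : S ≡ D [MOD 2] := by
            rw [hS]
            have : ∀ D', ∑ i ∈ Finset.range D', q ^ i ≡ D' [MOD 2] := by
              intro D'
              induction D' with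
              | zero => simp; rfl
              | succ j ih =>
                rw [Finset.sum_range_succ]
                have := hqm.pow j
                rw [one_pow] at this
                exact ih.add this
            exact this D
          intro h
          have h' : 2 ∣ D := (this.dvd_iff dvd_rfl).1 h
          obtain ⟨a, ha⟩ := hDo
          omega
        have h6 : padicValNat 2 S = 0 := padicValNat.eq_zero_of_not_dvd hSodd
        omega
    · have h4 := padicValNat.pow_sub_pow hodd (x := q) (y := 1) (by omega) hrq hrnq hD0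
      rw [one_pow] at h4
      omega
  · -- r does not divide q - 1
    have h7 : padicValNat r (q - 1) = 0 := padicValNat.eq_zero_of_not_dvd hrq
    have h8 : padicValNat r g ≤ padicValNat r (k * (q - 1)) :=
      (padicValNat_dvd_iff_le (mul_ne_zero hk0 hq10)).1 (dvd_trans pow_padicValNat_dvd hgdvd2)
    rw [padicValNat.mul hk0 hq10, h7] at h8
    omega

end BRCL
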