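import Pool.Agent.Lib.MP_defcf3_al.CL.BAlg

/-!
Part (B), block ALG: assembly of the four rows.
-/

open Polynomial

namespace CL

universe u

theorem Good.mono {F : Type u} {K : Type u} [Field F] [Field K] [Algebra F K]
    {I : Type u} {Γ : I → Type u} [∀ i, LinearOrderedCommGroupWithZero (Γ i)] {v : ∀ i, Valuation K (Γ i)}
    {f : F} {k k' : ℕ} {T : Type u} [AddCommGroup T] {S : K → K → T} (h : Good F v f k S) (hk : k' ≤ k)
    (vf : ∀ i, v i (algebraMap F K f) < 1) : Good F v f k' S := by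
  intro u h0 h1 hu h2 h3
  have hp : ∀ i, v i (algebraMap F K f) ^ k ≤ v i (algebraMap F K f) ^ k' := fun i =>
    pow_le_pow_right_of_le_one' (vf i).le hk
  exact h u h0 h1 hu (fun i => (hp i).trans (h2 i)) (fun i => (hp i).trans (h3 i))

theorem alg_proof (h1 : EtoSStatement.{u}) (h3 : IntStStatement.{u}) (h4 : FullStStatement.{u}) : AlgStatement.{u} := by
  intro F K _ _ _ _ I _ Γ _ v c0 r ρ f D C k T _ _ _ m E hF hr h2k hm hE
  obtain ⟨g, S, hg, hgt, hS, hES, hG⟩ := h1 F K I Γ v c0 r ρ f D C k T m E hF hr h2k (by omega) hE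
  refine ⟨g, S, hg, hgt, hS, hES, ?_⟩
  refine h4 F K I Γ v c0 r ρ f D C k T S hF h2k hS ?_
  exact h3 F K I Γ v c0 r ρ f D C k T S hF hr hS (hG.mono (by omega) hF.vf)

end CL
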