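import Pool.Agent.Lib.MP_defcf3_al.CL.Iface

/-!
Project CL (MP_defcf3_al), row Alpha: (7.5) and (7.9) of finding 4293, from the statements Norm, NormPoly, Residue,
Integ and Euler.
-/

open Polynomial

namespace CL

universe u

namespace AlphaAux

section V

variable {F : Type*} [Field F]

theorem vle_add {V : ValuationSubring F} {x y : F} {c : V.ValueGroup} (hx : V.valuation x ≤ c)
    (hy : V.valuation y ≤ c) : V.valuation (x + y) ≤ c :=
  (V.valuation.map_add _ _).trans (max_le hx hy)

theorem vle_sub {V : ValuationSubring F} {x y : F} {c : V.ValueGroup} (hx : V.valuation x ≤ c)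
    (hy : V.valuation y ≤ c) : V.valuation (x - y) ≤ c :=
  (V.valuation.map_sub _ _).trans (max_le hx hy)

/-- A polynomial over V evaluated at two points of V. -/
theorem val_eval_sub {V : ValuationSubring F} {f : F[X]} (hf : CoV V f) {x y : F} (hx : x ∈ V) (hy : y ∈ V) :
    V.valuation (f.eval x - f.eval y) ≤ V.valuation (x - y) := by
  have hl : f ∈ Polynomial.lifts (algebraMap V F) := by
    rw [Polynomial.lifts_iff_coeff_lifts]
    intro i
    exact ⟨⟨f.coeff i, hf i⟩, rfl⟩
  obtain ⟨g, rfl⟩ := (Polynomial.mem_lifts _).1 hl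
  obtain ⟨w, hw⟩ := Polynomial.sub_dvd_eval_sub (⟨x, hx⟩ : V) ⟨y, hy⟩ g
  have hw' := congrArg (algebraMap V F) hw
  rw [map_sub, map_mul, map_sub, ← Polynomial.eval_map_apply, ← Polynomial.eval_map_apply] at hw'
  have ex : algebraMap V F ⟨x, hx⟩ = x := rfl
  have ey : algebraMap V F ⟨y, hy⟩ = y := rfl
  rw [ex, ey] at hw'
  rw [hw', Valuation.map_mul]
  exact mul_le_of_le_one_right' ((V.valuation_le_one_iff _).2 w.2)

theorem eval_mem {V : ValuationSubring F} {f : F[X]} (hf : CoV V f) {x : F} (hx : x ∈ V) : f.eval x ∈ V := by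
  rw [Polynomial.eval_eq_sum_range]
  exact V.toSubring.sum_mem fun i _ => V.mul_mem _ _ (hf i) (V.toSubring.pow_mem hx i)

/-- An integer prime to the characteristic is a unit. -/
theorem val_natCast {V : ValuationSubring F} {l n : ℕ} (hl : l.Prime) (hc : CharP F l) (hn : ¬ l ∣ n) :
    V.valuation (n : F) = 1 := by
  have := Fact.mk hl
  have := hc
  have h1 : ((n : F)) ^ (l - 1) = 1 := by
    have h2 : ((n : ZMod l)) ^ (l - 1) = 1 := by
      apply ZMod.pow_card_sub_one_eq_one
      intro h
      exact hn ((ZMod.natCast_eq_zero_iff _ _).1 h)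
    have h3 := congrArg (ZMod.castHom (dvd_refl l) F) h2
    simpa using h3
  have h2 : V.valuation (n : F) ^ (l - 1) = 1 := by rw [← map_pow, h1, map_one]
  have h3 : l - 1 ≠ 0 := by have := hl.two_le; omega
  rcases lt_trichotomy (V.valuation (n : F)) 1 with h4 | h4 | h4
  · exact absurd h2 (pow_lt_one₀ zero_le h4 h3).ne
  · exact h4
  · exact absurd h2 (one_lt_pow₀ h4 h3).ne'

/-- (1 + T)^n - 1 has the value of T if l does not divide n. -/
theorem val_pow_sub_one {V : ValuationSubring F} {l n : ℕ} (hl : l.Prime) (hc : CharP F l) (hn : ¬ l ∣ n) {T : F}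
    (hT : V.valuation T < 1) : V.valuation ((1 + T) ^ n - 1) = V.valuation T := by
  have h1 : (1 + T) ^ n - 1 = T * ∑ i ∈ Finset.range n, (1 + T) ^ i := by
    have h := geom_sum_mul (1 + T) n
    have h' : (1 + T) - 1 = T := by ring
    rw [h'] at h
    rw [← h, mul_comm]
  have hm : ∀ i : ℕ, V.valuation ((1 + T) ^ i - 1) < 1 := by
    intro i
    have h := geom_sum_mul (1 + T) i
    have h' : (1 + T) - 1 = T := by ring
    rw [h'] at h
    rw [← h]
    apply val_lt_mul _ hT
    apply V.toSubring.sum_mem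
    intro j _
    apply V.toSubring.pow_mem
    exact V.add_mem _ _ V.one_mem ((V.valuation_le_one_iff _).1 hT.le)
  have h2 : V.valuation (∑ i ∈ Finset.range n, (1 + T) ^ i) = 1 := by
    have h3 : ∑ i ∈ Finset.range n, (1 + T) ^ i = (n : F) + ∑ i ∈ Finset.range n, ((1 + T) ^ i - 1) := by
      rw [Finset.sum_sub_distrib]
      simp
    rw [h3, Valuation.map_add_eq_of_lt_left _ _]
    · exact val_natCast hl hc hn
    · rw [val_natCast hl hc hn]
      exact val_lt_sum _ _ fun i _ => hm i
  rw [h1, Valuation.map_mul, h2, mul_one]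

/-- The value of a^n - 1 for a close to 1. -/
theorem val_pow_le {V : ValuationSubring F} {l n : ℕ} (hl : l.Prime) (hc : CharP F l) (hn : n ≠ 0) {t c : F}
    (ht : V.valuation t < 1) (h : V.valuation ((1 + t) ^ n - 1) ≤ V.valuation c) :
    V.valuation (t ^ n) ≤ V.valuation c ∧ (¬ l ∣ n → V.valuation t ≤ V.valuation c) := by
  have := Fact.mk hl
  have := hc
  refine ⟨?_, fun h' => by rwa [val_pow_sub_one hl hc h' ht] at h⟩
  obtain ⟨v, n', hn', hv⟩ := Nat.exists_eq_pow_mul_and_not_dvd hn l hl.ne_one
  have h1 : (1 + t) ^ n = (1 + t ^ l ^ v) ^ n' := by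
    rw [hv, pow_mul, add_pow_char_pow, one_pow]
  have hlv : l ^ v ≠ 0 := pow_ne_zero _ hl.ne_zero
  have h2 : V.valuation (t ^ l ^ v) < 1 := by
    rw [map_pow]
    exact pow_lt_one₀ zero_le ht hlv
  rw [h1, val_pow_sub_one hl hc hn' h2] at h
  refine le_trans ?_ h
  rw [map_pow, map_pow]
  apply pow_le_pow_right_of_le_one' ht.le
  rw [hv]
  exact Nat.le_mul_of_pos_right _ (Nat.pos_of_ne_zero fun h0 => hn' (h0 ▸ dvd_zero l))

/-- nu(b) = 1 + b + b^2 f(b). -/
noncomputable def nu (f : F[X]) (b : F) : F := 1 + b + b ^ 2 * f.eval b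

/-- The sequence b_j of (7.5). -/
noncomputable def bseq (f : F[X]) (t : F) : ℕ → F
  | 0 => 0
  | j + 1 => bseq f t j - (nu f (bseq f t j) - 1 - t)

theorem nu_mem {V : ValuationSubring F} {f : F[X]} (hf : CoV V f) {b : F} (hb : b ∈ V) : nu f b ∈ V :=
  V.add_mem _ _ (V.add_mem _ _ V.one_mem hb) (V.mul_mem _ _ (V.toSubring.pow_mem hb 2) (eval_mem hf hb))

theorem bseq_mem {V : ValuationSubring F} {f : F[X]} (hf : CoV V f) {t : F} (ht : t ∈ V) (j : ℕ) :
    bseq f t j ∈ V := by
  induction j with
  | zero => exact V.zero_mem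
  | succ j ih =>
    rw [bseq]
    exact V.toSubring.sub_mem ih (V.toSubring.sub_mem (V.toSubring.sub_mem (nu_mem hf ih) V.one_mem) ht)

theorem quad_le {V : ValuationSubring F} {f : F[X]} (hf : CoV V f) {t b b' : F} (ht : t ∈ V)
    (hb : V.valuation b ≤ V.valuation t) (hb' : V.valuation b' ≤ V.valuation t) :
    V.valuation (b' ^ 2 * f.eval b' - b ^ 2 * f.eval b) ≤ V.valuation (b' - b) * V.valuation t := by
  have htv : V.valuation t ≤ 1 := (V.valuation_le_one_iff _).2 ht
  have hbV : b ∈ V := (V.valuation_le_one_iff _).1 (hb.trans htv)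
  have hbV' : b' ∈ V := (V.valuation_le_one_iff _).1 (hb'.trans htv)
  have e : b' ^ 2 * f.eval b' - b ^ 2 * f.eval b =
      (b' - b) * ((b' + b) * f.eval b') + (f.eval b' - f.eval b) * (b * b) := by ring
  rw [e]
  apply vle_add
  · rw [Valuation.map_mul, Valuation.map_mul]
    gcongr
    calc V.valuation (b' + b) * V.valuation (f.eval b') ≤ V.valuation t * 1 := by
          gcongr
          · exact vle_add hb' hb
          · exact (V.valuation_le_one_iff _).2 (eval_mem hf hbV')
      _ = V.valuation t := mul_one _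
  · rw [Valuation.map_mul, Valuation.map_mul]
    gcongr
    · exact val_eval_sub hf hbV' hbV
    · calc V.valuation b * V.valuation b ≤ V.valuation t * 1 := by
            gcongr
            exact hb.trans htv
        _ = V.valuation t := mul_one _

theorem bseq_le {V : ValuationSubring F} {f : F[X]} (hf : CoV V f) {t : F} (ht : t ∈ V) (j : ℕ) :
    V.valuation (bseq f t j) ≤ V.valuation t ∧
      V.valuation (nu f (bseq f t j) - 1 - t) ≤ V.valuation (t ^ (j + 1)) := by
  have htv : V.valuation t ≤ 1 := (V.valuation_le_one_iff _).2 ht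
  induction j with
  | zero =>
    refine ⟨by simp [bseq], ?_⟩
    have : nu f (bseq f t 0) - 1 - t = -t := by
      simp [nu, bseq]
    rw [this, Valuation.map_neg, zero_add, pow_one]
  | succ j ih =>
    set b := bseq f t j with hbdef
    have e1 : bseq f t (j + 1) = b - (nu f b - 1 - t) := rfl
    have hpow : V.valuation (t ^ (j + 1)) ≤ V.valuation t := by
      rw [pow_succ, Valuation.map_mul, map_pow]
      calc V.valuation t ^ j * V.valuation t ≤ 1 * V.valuation t := by
            gcongr
            exact pow_le_one₀ zero_le htv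
        _ = V.valuation t := one_mul _
    have hb' : V.valuation (bseq f t (j + 1)) ≤ V.valuation t := by
      rw [e1]
      exact vle_sub ih.1 (ih.2.trans hpow)
    refine ⟨hb', ?_⟩
    set b' := bseq f t (j + 1) with hb'def
    have e2 : nu f b' - 1 - t = b' ^ 2 * f.eval b' - b ^ 2 * f.eval b := by
      have : b' = b - (nu f b - 1 - t) := e1
      have h3 : nu f b' = 1 + b' + b' ^ 2 * f.eval b' := rfl
      have h4 : nu f b = 1 + b + b ^ 2 * f.eval b := rfl
      rw [h3]
      have h5 : b' = b - (1 + b + b ^ 2 * f.eval b - 1 - t) := by rw [this, h4]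
      linear_combination h5
    rw [e2]
    refine (quad_le hf ht ih.1 hb').trans ?_
    have e3 : b' - b = -(nu f b - 1 - t) := by
      have : b' = b - (nu f b - 1 - t) := e1
      rw [this]; ring
    rw [e3, Valuation.map_neg, pow_succ t (j + 1), Valuation.map_mul]
    gcongr
    exact ih.2

end V

/-- The constant coefficient of an element of norm 1 whose other coefficients are small. -/
theorem pow_sub_le (hN : NormStatement.{u}) {F K : Type u} [Field F] [Field K] [Algebra F K]
    [FiniteDimensional F K] {g : K} (hg : Gen F g) {V : ValuationSubring F} (hV : CoV V (minpoly F g)) {A : F[X]}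
    (hA : CoV V A) (h1 : Algebra.norm F (aeval g A) = 1) {c : F} (hc0 : c ≠ 0) (hc : V.valuation c < 1)
    (h : ∀ i, i ≠ 0 → V.valuation (A.coeff i) ≤ V.valuation c) :
    V.valuation (A.coeff 0 ^ nn F g - 1) ≤ V.valuation c := by
  have hcV : c ∈ V := (V.valuation_le_one_iff _).1 hc.le
  have hx : aeval g (X * divX (C c⁻¹ * A)) ∈ BB V g := by
    refine ⟨_, ?_, rfl⟩
    apply CoV.mul CoV.X
    intro i
    rw [coeff_divX, coeff_C_mul]
    apply (V.valuation_le_one_iff _).1
    rw [Valuation.map_mul, map_inv₀]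
    have hvc : V.valuation c ≠ 0 := (Valuation.ne_zero_iff _).2 hc0
    calc (V.valuation c)⁻¹ * V.valuation (A.coeff (i + 1)) ≤ (V.valuation c)⁻¹ * V.valuation c := by
          gcongr
          exact h _ (Nat.succ_ne_zero i)
      _ = 1 := inv_mul_cancel₀ hvc
  obtain ⟨y, hy, e⟩ := (hN F K g hg V hV).2.1 (A.coeff 0) (hA 0) c hcV _ hx
  have e2 : algebraMap F K (A.coeff 0) + algebraMap F K c * aeval g (X * divX (C c⁻¹ * A)) = aeval g A := by
    have h3 : C (A.coeff 0) + C c * (X * divX (C c⁻¹ * A)) = A := by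
      have h4 := divX_mul_X_add (C c⁻¹ * A)
      have h5 : X * divX (C c⁻¹ * A) = C c⁻¹ * A - C ((C c⁻¹ * A).coeff 0) := by
        rw [eq_sub_iff_add_eq, mul_comm]; exact h4
      rw [h5, coeff_C_mul, mul_sub, ← mul_assoc, ← C_mul, mul_inv_cancel₀ hc0, C_1, one_mul, ← C_mul, ← mul_assoc,
        mul_inv_cancel₀ hc0, one_mul]
      ring
    conv_rhs => rw [← h3]
    simp
  rw [e2, h1] at e
  have e3 : A.coeff 0 ^ nn F g - 1 = -(c * y) := by rw [e]; ring
  rw [e3, Valuation.map_neg, Valuation.map_mul]
  exact mul_le_of_le_one_right' ((V.valuation_le_one_iff _).2 hy)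

end AlphaAux

open AlphaAux in
/-- (7.5) and (7.9). -/
theorem alpha_proof (hN : NormStatement.{u}) (hP : NormPolyStatement.{u}) (hR : ResidueStatement.{u})
    (hI : IntegStatement.{u}) (hE : EulerStatement.{u}) : AlphaStatement.{u} := by
  intro F K _ _ _ _ l ρ hg hl hc hperf A hA hNm
  have := Fact.mk hl
  have := hc
  obtain ⟨E1, -, -, -, -, Efr, -⟩ := hE F K ρ hg
  have hn2 : 2 ≤ nn F ρ := hg.two
  have hn0 : nn F ρ ≠ 0 := by omega
  have hadd : ∀ x : F, 1 + (x - 1) = x := fun x => by ring
  by_cases hln : l ∣ nn F ρ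
  · -- l divides n
    have htr : tr F (dl F ρ * ρ ^ (nn F ρ - 1)) = 1 := by
      have h := E1 (X ^ (nn F ρ - 1)) (by rw [natDegree_X_pow]; omega)
      rw [map_pow, aeval_X, coeff_X_pow, if_pos rfl] at h
      exact h
    obtain ⟨f, hf1, hf2⟩ := hP F K ρ hg (dl F ρ * ρ ^ (nn F ρ - 1))
    set θ : K := dl F ρ * ρ ^ (nn F ρ - 1) with hθ
    set t : F := A.coeff 0 - 1 with ht
    set b : F := bseq f t (nn F ρ) with hb
    have hnu : ∀ x : F, Algebra.norm F (1 + algebraMap F K x * θ) = nu f x := by
      intro x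
      rw [hf1 x, htr, mul_one]
      rfl
    have hn00 : ((nn F ρ : ℕ) : F) = 0 := (CharP.cast_eq_zero_iff F l _).2 hln
    have htrF : ∀ x : F, tr F (algebraMap F K x) = 0 := by
      intro x
      show Algebra.trace F K (algebraMap F K x) = 0
      rw [Algebra.trace_algebraMap, Efr, nsmul_eq_mul, hn00, zero_mul]
    refine ⟨nu f b, ?_, ?_⟩
    · rw [← hnu, Algebra.norm_ne_zero_iff]
      intro h0
      have h1 := congrArg (fun x => tr F x) h0
      have h2 : tr F (1 + algebraMap F K b * θ) = b := by
        show Algebra.trace F K _ = b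
        rw [map_add, ← Algebra.smul_def, map_smul]
        have h3 : Algebra.trace F K 1 = 0 := by
          have := htrF 1
          rwa [map_one] at this
        have h4 : Algebra.trace F K θ = 1 := htr
        rw [h3, h4]
        simp
      have h3 : b = 0 := by
        simp only [h2] at h1
        rw [h1]
        show Algebra.trace F K 0 = 0
        exact map_zero _
      rw [h3] at h0
      simp at h0
    · intro W hW hU hAW
      obtain ⟨hd, -, -, h1MB, -⟩ := hR F K 0 l ρ W hg hl hc hperf hW hU
      have hθB : θ ∈ BB W ρ := (BB W ρ).mul_mem hd ((BB W ρ).pow_mem (gen_mem_BB W ρ) _)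
      have hfV : CoV W f := hf2 W hW hθB
      have htV : t ∈ W := W.toSubring.sub_mem (hAW 0) W.one_mem
      have hbV : b ∈ W := bseq_mem hfV htV _
      obtain ⟨-, -, -, -, -, -, -, -, -, -, Imb⟩ := hI F K ρ hg W hW
      have hxB : 1 + algebraMap F K b * θ ∈ BB W ρ :=
        (BB W ρ).add_mem (BB W ρ).one_mem ((BB W ρ).mul_mem (alg_mem_BB hbV) hθB)
      have hxM : 1 + algebraMap F K b * θ ∉ MB W ρ := by
        intro h
        have h2 : tr F (1 + algebraMap F K b * θ) = b := by
          show Algebra.trace F K _ = b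
          rw [map_add, ← Algebra.smul_def, map_smul]
          have h3 : Algebra.trace F K 1 = 0 := by
            have := htrF 1
            rwa [map_one] at this
          have h4 : Algebra.trace F K θ = 1 := htr
          rw [h3, h4]
          simp
        have h3 := Imb _ h
        rw [h2] at h3
        have h4 : algebraMap F K b * θ ∈ MB W ρ := by
          rw [mul_comm]
          exact BB_mul_MB hθB (alg_mem_MB h3)
        have h5 := (MB W ρ).sub_mem h h4
        rw [add_sub_cancel_right] at h5
        exact h1MB h5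
      have hinv := hU _ hxB hxM
      obtain ⟨N1, -, -⟩ := hN F K ρ hg W hW
      have hα : nu f b ∈ W := nu_mem hfV hbV
      have hα' : (nu f b)⁻¹ ∈ W := by
        have h6 := N1 _ hinv
        have hne : 1 + algebraMap F K b * θ ≠ 0 := by
          intro h0
          rw [h0] at hxM
          exact hxM (MB W ρ).zero_mem
        have h7 : Algebra.norm F (1 + algebraMap F K b * θ)⁻¹ * nu f b = 1 := by
          rw [← hnu, ← map_mul, inv_mul_cancel₀ hne, map_one]
        rwa [eq_inv_of_mul_eq_one_left h7] at h6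
      refine ⟨?_, ?_⟩
      · have hne : nu f b ≠ 0 := by
          rw [← hnu, Algebra.norm_ne_zero_iff]
          intro h0
          rw [h0] at hxM
          exact hxM (MB W ρ).zero_mem
        apply le_antisymm ((W.valuation_le_one_iff _).2 hα)
        have h1 := (W.valuation_le_one_iff _).2 hα'
        rw [map_inv₀] at h1
        exact (inv_le_one₀ (zero_lt_iff.2 ((Valuation.ne_zero_iff _).2 hne))).1 h1
      · intro ht1 c hc0 hc1 hci
        have h1 := pow_sub_le hN hg hW hAW hNm hc0 hc1 hci
        have e : A.coeff 0 = 1 + t := by rw [ht]; ring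
        rw [e] at h1
        have h2 := (val_pow_le hl hc hn0 ht1 h1).1
        have h3 := (bseq_le hfV htV (nn F ρ)).2
        have e2 : A.coeff 0 - nu f b = -(nu f b - 1 - t) := by rw [e]; ring
        rw [e2, Valuation.map_neg]
        refine h3.trans (le_trans ?_ h2)
        rw [map_pow, map_pow]
        exact pow_le_pow_right_of_le_one' ht1.le (Nat.le_succ _)
  · refine ⟨1, one_ne_zero, ?_⟩
    intro W hW hU hAW
    refine ⟨Valuation.map_one _, ?_⟩
    intro ht c hc0 hc1 hci
    have h1 := pow_sub_le hN hg hW hAW hNm hc0 hc1 hci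
    rw [← hadd (A.coeff 0)] at h1
    exact (val_pow_le hl hc hn0 ht h1).2 hln

end CL
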