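import Pool.Agent.Lib.MP_defcf3_al.CL.Iface

/-!
Project CL (MP_defcf3_al), row Calc: (1.1) - (1.4), the transvection calculus.
-/

open Polynomial

namespace CL

universe u

namespace H30

section

variable {F : Type*} {K : Type*} [Field F] [Field K] [Algebra F K]

theorem tr_add (x y : K) : tr F (x + y) = tr F x + tr F y := map_add _ _ _

theorem tr_zero : tr F (0 : K) = 0 := map_zero _

theorem tr_neg (x : K) : tr F (-x) = - tr F x := map_neg _ _

theorem tr_smul (c : F) (x : K) : tr F (c • x) = c * tr F x := by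
  unfold tr
  rw [map_smul, smul_eq_mul]

theorem tr_alg_mul (c : F) (x : K) : tr F (algebraMap F K c * x) = c * tr F x := by
  rw [← Algebra.smul_def, tr_smul]

theorem tr_mul_alg (c : F) (x : K) : tr F (x * algebraMap F K c) = c * tr F x := by
  rw [mul_comm, tr_alg_mul]

theorem TT_comp (a b z : K) : TT F a (TT F b z) = TT F (a + (1 + tr F a) • b) z := by
  unfold TT
  have h1 : tr F (a * (z + algebraMap F K (tr F (b * z)))) = tr F (a * z) + tr F (b * z) * tr F a := by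
    rw [mul_add, tr_add, tr_mul_alg]
  have h2 : tr F ((a + (1 + tr F a) • b) * z) = tr F (a * z) + (1 + tr F a) * tr F (b * z) := by
    rw [add_mul, tr_add, smul_mul_assoc, tr_smul]
  rw [h1, h2]
  simp only [map_add, map_mul, map_one]
  ring

theorem TT_zero (z : K) : TT F 0 z = z := by
  unfold TT
  rw [zero_mul, tr_zero, map_zero, add_zero]

theorem TT_zero' (a : K) : TT F a 0 = 0 := by
  unfold TT
  rw [mul_zero, tr_zero, map_zero, add_zero]

variable {N : Subgroup Kˣ}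

theorem zero_mem_Dp : (0 : K) ∈ Dp F N := by
  refine ⟨by rw [tr_zero]; simp, ?_⟩
  intro z hz
  rw [TT_zero]
  exact Sim.refl hz

theorem zero_mem_Dz : (0 : K) ∈ Dz F N := ⟨zero_mem_Dp, tr_zero⟩

theorem comp_mem_Dp {a b : K} (ha : a ∈ Dp F N) (hb : b ∈ Dp F N) : a + (1 + tr F a) • b ∈ Dp F N := by
  refine ⟨?_, ?_⟩
  · have : 1 + tr F (a + (1 + tr F a) • b) = (1 + tr F a) * (1 + tr F b) := by
      rw [tr_add, tr_smul]
      ring
    rw [this]
    exact mul_ne_zero ha.1 hb.1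
  · intro z hz
    rw [← TT_comp]
    have h1 := hb.2 z hz
    exact (ha.2 _ h1.1).trans h1

theorem inv_comp {a : K} (ha : a ∈ Dp F N) (z : K) : TT F a (TT F (-((1 + tr F a)⁻¹ • a)) z) = z := by
  rw [TT_comp, smul_neg, smul_smul, mul_inv_cancel₀ ha.1, one_smul, add_neg_cancel, TT_zero]

theorem one_add_tr_inv {a : K} (ha : 1 + tr F a ≠ 0) :
    1 + tr F (-((1 + tr F a)⁻¹ • a)) = (1 + tr F a)⁻¹ := by
  rw [tr_neg, tr_smul]
  field_simp
  ring

theorem inv_mem_Dp {a : K} (ha : a ∈ Dp F N) : -((1 + tr F a)⁻¹ • a) ∈ Dp F N := by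
  refine ⟨?_, ?_⟩
  · rw [one_add_tr_inv ha.1]
    exact inv_ne_zero ha.1
  · intro z hz
    have h1 := inv_comp ha z
    have h2 : TT F (-((1 + tr F a)⁻¹ • a)) z ≠ 0 := by
      intro h
      rw [h, TT_zero'] at h1
      exact hz h1.symm
    have h3 := ha.2 _ h2
    rw [h1] at h3
    exact h3.symm

theorem add_mem_Dz {a b : K} (ha : a ∈ Dz F N) (hb : b ∈ Dz F N) : a + b ∈ Dz F N := by
  have h := comp_mem_Dp ha.1 hb.1
  rw [ha.2, add_zero, one_smul] at h
  exact ⟨h, by rw [tr_add, ha.2, hb.2, add_zero]⟩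

theorem neg_mem_Dz {a : K} (ha : a ∈ Dz F N) : -a ∈ Dz F N := by
  have h := inv_mem_Dp ha.1
  rw [ha.2, add_zero, inv_one, one_smul] at h
  exact ⟨h, by rw [tr_neg, ha.2, neg_zero]⟩

theorem smul_mem_Dz {b a : K} (hb : b ∈ Dp F N) (ha : a ∈ Dz F N) : (1 + tr F b) • a ∈ Dz F N := by
  have htr : tr F ((1 + tr F b) • a) = 0 := by rw [tr_smul, ha.2, mul_zero]
  refine ⟨⟨by rw [htr]; simp, ?_⟩, htr⟩
  intro z hz
  have h1 := inv_comp hb z
  set w := TT F (-((1 + tr F b)⁻¹ • b)) z with hw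
  have h2 : w ≠ 0 := by
    intro h
    rw [h, TT_zero'] at h1
    exact hz h1.symm
  have h3 : TT F ((1 + tr F b) • a) z = TT F b (TT F a w) := by
    rw [← h1, TT_comp ((1 + tr F b) • a) b w, TT_comp b a w, htr, add_zero, one_smul,
      add_comm ((1 + tr F b) • a) b]
  rw [h3]
  have h4 := ha.1.2 w h2
  have h5 := hb.2 _ h4.1
  have h6 := hb.2 w h2
  rw [h1] at h6
  exact h5.trans (h4.trans h6.symm)

theorem smul_inv_mem_Dz {b a : K} (hb : b ∈ Dp F N) (ha : a ∈ Dz F N) : (1 + tr F b)⁻¹ • a ∈ Dz F N := by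
  have h := smul_mem_Dz (inv_mem_Dp hb) ha
  rwa [one_add_tr_inv hb.1] at h

theorem sim_pow {l p e : ℕ} (hl : l.Prime) (hq : p ∣ l ^ e - 1)
    (tors : ∀ z : K, z ≠ 0 → InN N (z ^ p)) (z : K) (hz : z ≠ 0) : Sim N (z ^ l ^ e) z := by
  obtain ⟨k, hk⟩ := hq
  have h1 : 1 ≤ l ^ e := Nat.one_le_pow _ _ hl.pos
  have h2 : l ^ e = p * k + 1 := by omega
  refine ⟨pow_ne_zero _ hz, hz, ?_⟩
  rw [h2, pow_succ, mul_div_assoc, div_self hz, mul_one, pow_mul]
  exact (tors z hz).pow k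

end

section

variable {F : Type u} {K : Type u} [Field F] [Field K] [Algebra F K] [FiniteDimensional F K]
variable {l p e : ℕ} {N : Subgroup Kˣ} {ρ : K}

theorem frob_add (h : Dat F l p e N ρ) (x y : K) : (x + y) ^ l ^ e = x ^ l ^ e + y ^ l ^ e := by
  have := Fact.mk h.lpr
  have := h.chr
  have : CharP K l := charP_of_injective_algebraMap (algebraMap F K).injective l
  exact add_pow_char_pow x y l e

theorem frob_addF (h : Dat F l p e N ρ) (x y : F) : (x + y) ^ l ^ e = x ^ l ^ e + y ^ l ^ e := by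
  have := Fact.mk h.lpr
  have := h.chr
  exact add_pow_char_pow x y l e

theorem TT_pow (h : Dat F l p e N ρ) (htr : ∀ x : K, tr F (x ^ l ^ e) = (tr F x) ^ l ^ e) (a z : K) :
    TT F (a ^ l ^ e) (z ^ l ^ e) = (TT F a z) ^ l ^ e := by
  unfold TT
  rw [frob_add h, ← mul_pow, htr, map_pow]

theorem one_add_pow (h : Dat F l p e N ρ) (htr : ∀ x : K, tr F (x ^ l ^ e) = (tr F x) ^ l ^ e) (a : K) :
    1 + tr F (a ^ l ^ e) = (1 + tr F a) ^ l ^ e := by
  rw [frob_addF h, one_pow, htr]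

theorem mem_Dp_pow (h : Dat F l p e N ρ) (htr : ∀ x : K, tr F (x ^ l ^ e) = (tr F x) ^ l ^ e)
    (hsur : ∀ x : K, ∃ y : K, y ^ l ^ e = x) (a : K) : a ∈ Dp F N ↔ a ^ l ^ e ∈ Dp F N := by
  have hq : l ^ e ≠ 0 := pow_ne_zero _ h.lpr.ne_zero
  have hs := fun z hz => sim_pow (N := N) (K := K) h.lpr h.qmod h.tors z hz
  constructor
  · intro ha
    refine ⟨by rw [one_add_pow h htr]; exact pow_ne_zero _ ha.1, ?_⟩
    intro w hw
    obtain ⟨z, rfl⟩ := hsur w
    have hz : z ≠ 0 := by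
      intro h0
      rw [h0, zero_pow hq] at hw
      exact hw rfl
    rw [TT_pow h htr]
    have h1 := ha.2 z hz
    exact (hs _ h1.1).trans (h1.trans (hs z hz).symm)
  · intro ha
    refine ⟨?_, ?_⟩
    · intro h0
      apply ha.1
      rw [one_add_pow h htr, h0, zero_pow hq]
    · intro z hz
      have h1 := ha.2 _ (pow_ne_zero (l ^ e) hz)
      rw [TT_pow h htr] at h1
      have h2 : TT F a z ≠ 0 := by
        intro h0
        exact h1.1 (by rw [h0, zero_pow hq])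
      exact (hs _ h2).symm.trans (h1.trans (hs z hz))

theorem mem_Dz_pow (h : Dat F l p e N ρ) (htr : ∀ x : K, tr F (x ^ l ^ e) = (tr F x) ^ l ^ e)
    (hsur : ∀ x : K, ∃ y : K, y ^ l ^ e = x) (a : K) : a ∈ Dz F N ↔ a ^ l ^ e ∈ Dz F N := by
  have hq : l ^ e ≠ 0 := pow_ne_zero _ h.lpr.ne_zero
  constructor
  · intro ha
    exact ⟨(mem_Dp_pow h htr hsur a).1 ha.1, by rw [htr, ha.2, zero_pow hq]⟩
  · intro ha
    refine ⟨(mem_Dp_pow h htr hsur a).2 ha.1, ?_⟩
    have h1 := ha.2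
    rw [htr] at h1
    exact eq_zero_of_pow_eq_zero h1

theorem mem_MM_pow (h : Dat F l p e N ρ) (htr : ∀ x : K, tr F (x ^ l ^ e) = (tr F x) ^ l ^ e)
    (hsur : ∀ x : K, ∃ y : K, y ^ l ^ e = x) (c : F) : c ∈ MM F N ↔ c ^ l ^ e ∈ MM F N := by
  constructor
  · intro hc a ha
    obtain ⟨x, rfl⟩ := hsur a
    rw [← _root_.smul_pow]
    exact (mem_Dz_pow h htr hsur _).1 (hc x ((mem_Dz_pow h htr hsur x).2 ha))
  · intro hc a ha
    have h1 := hc _ ((mem_Dz_pow h htr hsur a).1 ha)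
    rw [← _root_.smul_pow] at h1
    exact (mem_Dz_pow h htr hsur _).2 h1

end

end H30

theorem calc_proof (h1 : TwistStatement.{u}) : CalcStatement.{u} := by
  intro F K _ _ _ _ l p e N ρ h
  obtain ⟨-, -, -, -, -, hsur, -, -, -, -, -, htr⟩ := h1 F K l p e N ρ h
  refine ⟨H30.zero_mem_Dz, fun a ha b hb => H30.add_mem_Dz ha hb, fun a ha => H30.neg_mem_Dz ha,
    fun b hb a ha => ⟨H30.smul_mem_Dz hb ha, H30.smul_inv_mem_Dz hb ha⟩,
    H30.mem_Dp_pow h htr hsur, H30.mem_Dz_pow h htr hsur, ?_, ?_, ?_, ?_, ?_, ?_,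
    H30.mem_MM_pow h htr hsur, fun z hz => H30.sim_pow h.lpr h.qmod h.tors z hz⟩
  · intro a _
    rw [zero_smul]
    exact H30.zero_mem_Dz
  · intro a ha
    rw [one_smul]
    exact ha
  · intro a ha b hb x hx
    rw [add_smul]
    exact H30.add_mem_Dz (ha x hx) (hb x hx)
  · intro a ha b hb x hx
    rw [mul_smul]
    exact ha _ (hb x hx)
  · intro a ha x hx
    rw [neg_smul]
    exact H30.neg_mem_Dz (ha x hx)
  · intro b hb
    exact ⟨fun a ha => H30.smul_mem_Dz hb ha, fun a ha => H30.smul_inv_mem_Dz hb ha⟩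

end CL
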