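import Pool.Agent.Lib.MP_defcf3_al.CL.Iface

/-!
Project CL (MP_defcf3_al), module Coef: the coefficients of P are in V (4.3).
-/

open Polynomial

namespace CL

universe u

namespace H97

theorem exists_root {F : Type*} [Field F] {q : ℕ} (h : ∀ x : F, ∃ y : F, y ^ q = x) (m : ℕ) (x : F) :
    ∃ y : F, y ^ q ^ m = x := by
  induction m generalizing x with
  | zero => exact ⟨x, by simp⟩
  | succ m ih =>
    obtain ⟨z, hz⟩ := ih x
    obtain ⟨y, hy⟩ := h z
    exact ⟨y, by rw [pow_succ', pow_mul, hy, hz]⟩

/-- The value of a monic polynomial at a large element. -/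
theorem val_eval_large {F : Type*} [Field F] (V : ValuationSubring F) {P : F[X]} (hm : P.Monic)
    {c : V.ValueGroup} (hc : ∀ i, V.valuation (P.coeff i) ≤ c) (h1 : 1 ≤ c) {w : F}
    (hw : c < V.valuation w) : V.valuation (P.eval w) = V.valuation w ^ P.natDegree := by
  have hw1 : 1 < V.valuation w := lt_of_le_of_lt h1 hw
  have hw0 : 0 < V.valuation w := lt_trans one_pos hw1
  rw [eval_eq_sum_range, Finset.sum_range_succ, hm.coeff_natDegree, one_mul, ← Valuation.map_pow]
  refine Valuation.map_add_eq_of_lt_right _ (Valuation.map_sum_lt _ ?_ fun i hi => ?_)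
  · rw [Valuation.map_pow]
    exact (pow_pos hw0 _).ne'
  · rw [Valuation.map_mul, Valuation.map_pow, Valuation.map_pow]
    calc V.valuation (P.coeff i) * V.valuation w ^ i ≤ c * V.valuation w ^ i :=
          mul_le_mul_left (hc i) _
      _ < V.valuation w * V.valuation w ^ i := mul_lt_mul_of_pos_right hw (pow_pos hw0 _)
      _ = V.valuation w ^ (i + 1) := by rw [pow_succ']
      _ ≤ V.valuation w ^ P.natDegree :=
          pow_le_pow_right₀ hw1.le (Finset.mem_range.1 hi)

end H97

open H97 in
/-- Module Coef. -/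
theorem coef_proof (h1 : InterpStatement.{u}) : CoefStatement.{u} := by
  intro F _ V q P hq hroot hm hn _ hev hval
  by_contra hno
  set n := P.natDegree with hndef
  -- the largest coefficient
  obtain ⟨j, hj, hjmax⟩ := Finset.exists_max_image (Finset.range (n + 1))
    (fun i => V.valuation (P.coeff i)) ⟨0, Finset.mem_range.2 (Nat.succ_pos _)⟩
  set c := V.valuation (P.coeff j) with hcdef
  have hle : ∀ i, V.valuation (P.coeff i) ≤ c := by
    intro i
    by_cases hi : i < n + 1
    · exact hjmax i (Finset.mem_range.2 hi)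
    · rw [coeff_eq_zero_of_natDegree_lt (by omega), Valuation.map_zero]
      exact zero_le
  have hc1 : 1 < c := by
    unfold CoV at hno
    push Not at hno
    obtain ⟨i, hi⟩ := hno
    have h2 : 1 < V.valuation (P.coeff i) := by
      rw [← not_le]
      intro h3
      exact hi ((V.valuation_le_one_iff _).1 h3)
    exact lt_of_lt_of_le h2 (hle i)
  -- values at the elements x with |x| ^ (q ^ m) large
  have key : ∀ (m : ℕ) (x : F), c < V.valuation x ^ q ^ m →
      V.valuation (P.eval x) = V.valuation x ^ n := by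
    intro m x hx
    have hqm : q ^ m ≠ 0 := pow_ne_zero _ (by omega)
    have h3 : V.valuation (P.eval (x ^ q ^ m)) = V.valuation (x ^ q ^ m) ^ n :=
      val_eval_large V hm hle hc1.le (by rw [Valuation.map_pow]; exact hx)
    have h4 : V.valuation (P.eval x) ^ q ^ m = (V.valuation x ^ n) ^ q ^ m := by
      rw [← Valuation.map_pow, ← hev, hval, h3, Valuation.map_pow, ← pow_mul, ← pow_mul, mul_comm]
    exact (pow_left_inj₀ zero_le zero_le hqm).1 h4
  -- the choice of m and y
  obtain ⟨m, hmm⟩ : ∃ m : ℕ, 2 * n * (n + 2) < q ^ m :=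
    ⟨2 * n * (n + 2), Nat.lt_pow_self (by omega)⟩
  obtain ⟨y, hy⟩ := exists_root hroot m (P.coeff j)
  have hqm : q ^ m ≠ 0 := pow_ne_zero _ (by omega)
  have hyc : V.valuation y ^ q ^ m = c := by rw [← Valuation.map_pow, hy]
  have hy1 : 1 < V.valuation y := by
    rw [← not_le]
    intro h
    have := pow_le_one₀ (n := q ^ m) zero_le h
    rw [hyc] at this
    exact absurd hc1 (not_lt.2 this)
  have hsep : ∀ i k : ℕ, i < k → V.valuation (y ^ (i + 2) - y ^ (k + 2)) = V.valuation y ^ (k + 2) := by
    intro i k hik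
    rw [← Valuation.map_pow]
    refine Valuation.map_sub_eq_of_lt_right _ ?_
    rw [Valuation.map_pow, Valuation.map_pow]
    exact pow_lt_pow_right₀ hy1 (by omega)
  have hres := h1 F V n P (fun i => y ^ (i + 2)) (V.valuation y ^ (n + 2))
    (V.valuation y ^ (n * (n + 2))) le_rfl (by
      intro i _ k _ hik
      rcases lt_or_gt_of_ne hik with h | h
      · rw [hsep i k h]
        exact one_le_pow₀ hy1.le
      · rw [Valuation.map_sub_swap, hsep k i h]
        exact one_le_pow₀ hy1.le) (one_le_pow₀ hy1.le) (by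
      intro i hi
      rw [Valuation.map_pow]
      exact pow_le_pow_right₀ hy1.le (by omega)) (by
      intro i hi
      rw [key m, Valuation.map_pow, ← pow_mul]
      · refine pow_le_pow_right₀ hy1.le ?_
        rw [mul_comm]
        exact Nat.mul_le_mul_left _ (by omega)
      · rw [Valuation.map_pow, ← pow_mul, mul_comm, pow_mul, hyc]
        calc c = c ^ 1 := (pow_one _).symm
          _ < c ^ (i + 2) := pow_lt_pow_right₀ hc1 (by omega)) j
  have h5 : V.valuation y ^ (n * (n + 2)) * (V.valuation y ^ (n + 2)) ^ n < c := by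
    rw [← pow_mul, ← pow_add]
    calc V.valuation y ^ (n * (n + 2) + (n + 2) * n) < V.valuation y ^ q ^ m := by
          refine pow_lt_pow_right₀ hy1 ?_
          calc n * (n + 2) + (n + 2) * n = 2 * n * (n + 2) := by ring
            _ < q ^ m := hmm
      _ = c := hyc
  exact absurd hres (not_le.2 h5)

end CL
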