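import Pool.Agent.Lib.MP_defcf3_al.CL.Iface

/-!
Project CL (MP_defcf3_al), row Cond (helper11): (6.4), the conductor of the ring A in M.
-/

open Polynomial

namespace CL

universe u

namespace H11

variable {F : Type u} {K : Type u} [Field F] [Field K] [Algebra F K]

/-- evaluation of the twist of a polynomial -/
theorem tw_eval {l : ℕ} (hl : l.Prime) (hc : CharP F l) (e m : ℕ) (A : F[X]) (s : F) :
    (tw ((l ^ e) ^ m) A).eval (s ^ (l ^ e) ^ m) = (A.eval s) ^ (l ^ e) ^ m := by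
  have := hc
  have : Fact l.Prime := ⟨hl⟩
  have : ExpChar F l := expChar_prime F l
  unfold tw
  rw [eval_finsetSum, eval_eq_sum_range, ← pow_mul, sum_pow_char_pow]
  apply Finset.sum_congr rfl
  intro i _
  rw [eval_monomial, mul_pow, ← pow_mul, ← pow_mul, mul_comm (l ^ (e * m)) i]

end H11

theorem cond_proof (h1 : CalcStatement.{u}) (h2 : SpecialStatement.{u})
    (h3 : RingAStatement.{u}) : CondStatement.{u} := by
  intro F K _ _ _ _ l p e N ρ V hD hAV ⟨w0, w1, hw0, hw1, hw⟩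
  obtain ⟨_, _, _, _, _, _, m0, m1, madd, mmul, mneg, _, mq, _⟩ := h1 F K l p e N ρ hD
  obtain ⟨hs1, hs2, _⟩ := h2 F K l p e N ρ hD
  obtain ⟨_, hV⟩ := h3 F K l p e N ρ hD
  obtain ⟨_, hPV, _, _⟩ := hV V hAV
  have hMA : ∀ a ∈ MM F N, a ∈ AA F N ρ := fun a ha =>
    Subring.subset_closure (Or.inl (Or.inl ha))
  have hPne : ∀ s : F, (minpoly F ρ).eval s ≠ 0 := by
    intro s h0
    obtain ⟨⟨hne, _⟩, heq⟩ := hs1 s
    apply hne
    rw [heq, h0, zero_div]
  -- powers
  have mpow : ∀ a ∈ MM F N, ∀ k : ℕ, a ^ k ∈ MM F N := by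
    intro a ha k
    induction k with
    | zero => rw [pow_zero]; exact m1
    | succ k ih => rw [pow_succ]; exact mmul _ ih _ ha
  have mqj : ∀ (j : ℕ) (a : F), a ∈ MM F N ↔ a ^ (l ^ e) ^ j ∈ MM F N := by
    intro j
    induction j with
    | zero => intro a; rw [pow_zero, pow_one]
    | succ j ih =>
      intro a
      rw [ih a, mq (a ^ (l ^ e) ^ j), ← pow_mul, ← pow_succ]
  have hval : ∀ {x y : F}, V.valuation x = 1 → V.valuation y = 1 → V.valuation (x * y) = 1 := by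
    intro x y hx hy
    rw [Valuation.map_mul, hx, hy, one_mul]
  have hvinv : ∀ {x : F}, V.valuation x = 1 → V.valuation x⁻¹ = 1 := by
    intro x hx
    rw [map_inv₀, hx, inv_one]
  -- quotients
  have hquot : ∀ t : F, V.valuation t = 1 → ∃ a ∈ MM F N, ∃ b ∈ MM F N,
      V.valuation a = 1 ∧ V.valuation b = 1 ∧ a = t * b := by
    intro t ht
    have htV : t ∈ V := (V.valuation_le_one_iff t).1 ht.le
    have h1V : (1 : F) ∈ V := V.one_mem
    have hPt := hvinv (hPV t htV)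
    have hP1 := hvinv (hPV 1 h1V)
    have hw0n : w0 ≠ 0 := by
      rintro rfl
      rw [map_zero] at hw0
      exact zero_ne_one hw0
    have hw1n : w1 ≠ 0 := by
      rintro rfl
      rw [map_zero] at hw1
      exact zero_ne_one hw1
    refine ⟨w1 * (t * ((minpoly F ρ).eval t)⁻¹) * (w0 * ((minpoly F ρ).eval 1)⁻¹),
      mmul _ (hw t).2 _ (hw 1).1,
      w0 * ((minpoly F ρ).eval t)⁻¹ * (w1 * (1 * ((minpoly F ρ).eval 1)⁻¹)),
      mmul _ (hw t).1 _ (hw 1).2, ?_, ?_, ?_⟩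
    · exact hval (hval hw1 (hval ht hPt)) (hval hw0 hP1)
    · exact hval (hval hw0 hPt) (hval hw1 (hval (map_one _) hP1))
    · ring
  obtain ⟨a, ha, a', ha', hav, hav', haa⟩ := hquot w0 hw0
  obtain ⟨b, hb, b', hb', hbv, hbv', hbb⟩ := hquot w1 hw1
  have hL : a * b ∈ MM F N := mmul _ ha _ hb
  have hL0 : ∀ s : F, a * b * ((minpoly F ρ).eval s)⁻¹ ∈ MM F N := by
    intro s
    have : a * b * ((minpoly F ρ).eval s)⁻¹ = b * (a' * (w0 * ((minpoly F ρ).eval s)⁻¹)) := by
      rw [haa]; ring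
    rw [this]
    exact mmul _ hb _ (mmul _ ha' _ (hw s).1)
  have hL1 : ∀ s : F, a * b * (s * ((minpoly F ρ).eval s)⁻¹) ∈ MM F N := by
    intro s
    have : a * b * (s * ((minpoly F ρ).eval s)⁻¹) =
        a * (b' * (w1 * (s * ((minpoly F ρ).eval s)⁻¹))) := by
      rw [hbb]; ring
    rw [this]
    exact mmul _ ha _ (mmul _ hb' _ (hw s).2)
  refine ⟨a * b, hL, hval hav hbv, ?_⟩
  generalize hLdef : a * b = L at hL hL0 hL1
  -- the products
  have key : ∀ x ∈ Submonoid.closure (MM F N ∪ {c | ∃ s : F, c = ((minpoly F ρ).eval s)⁻¹} ∪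
      {c | ∃ s : F, c = s * ((minpoly F ρ).eval s)⁻¹}),
      ∃ n : ℕ, ∀ j : ℕ, L ^ n * x ^ (l ^ e) ^ j ∈ MM F N := by
    intro x hx
    induction hx using Submonoid.closure_induction with
    | mem x hx =>
      rcases hx with (hx | ⟨s, rfl⟩) | ⟨s, rfl⟩
      · refine ⟨0, fun j => ?_⟩
        rw [pow_zero, one_mul]
        exact mpow x hx _
      · refine ⟨1, fun j => ?_⟩
        have e1 := H11.tw_eval hD.lpr hD.chr e j (minpoly F ρ) s
        obtain ⟨t, ht⟩ : ∃ t, t = s ^ (l ^ e) ^ j := ⟨_, rfl⟩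
        rw [← ht] at e1
        obtain ⟨_, hr, _⟩ := hs2 t j
        have : L ^ 1 * ((minpoly F ρ).eval s)⁻¹ ^ (l ^ e) ^ j =
            (minpoly F ρ).eval t / (tw ((l ^ e) ^ j) (minpoly F ρ)).eval t *
              (L * ((minpoly F ρ).eval t)⁻¹) := by
          rw [inv_pow, ← e1, pow_one]
          field_simp [hPne t]
        rw [this]
        exact mmul _ hr _ (hL0 t)
      · refine ⟨1, fun j => ?_⟩
        have e1 := H11.tw_eval hD.lpr hD.chr e j (minpoly F ρ) s
        obtain ⟨t, ht⟩ : ∃ t, t = s ^ (l ^ e) ^ j := ⟨_, rfl⟩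
        rw [← ht] at e1
        obtain ⟨_, hr, _⟩ := hs2 t j
        have : L ^ 1 * (s * ((minpoly F ρ).eval s)⁻¹) ^ (l ^ e) ^ j =
            (minpoly F ρ).eval t / (tw ((l ^ e) ^ j) (minpoly F ρ)).eval t *
              (L * (t * ((minpoly F ρ).eval t)⁻¹)) := by
          rw [mul_pow, inv_pow, ← e1, ← ht, pow_one]
          field_simp [hPne t]
        rw [this]
        exact mmul _ hr _ (hL1 t)
    | one =>
      refine ⟨0, fun j => ?_⟩
      rw [pow_zero, one_mul, one_pow]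
      exact m1
    | mul x y _ _ hx hy =>
      obtain ⟨n, hn⟩ := hx
      obtain ⟨n', hn'⟩ := hy
      refine ⟨n + n', fun j => ?_⟩
      have : L ^ (n + n') * (x * y) ^ (l ^ e) ^ j =
          L ^ n * x ^ (l ^ e) ^ j * (L ^ n' * y ^ (l ^ e) ^ j) := by
        rw [mul_pow, pow_add]; ring
      rw [this]
      exact mmul _ (hn j) _ (hn' j)
  intro x hx
  unfold AA at hx
  rw [Subring.mem_closure_iff] at hx
  induction hx using AddSubgroup.closure_induction with
  | mem x hx =>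
    obtain ⟨n, hn⟩ := key x hx
    have hq2 : 2 ≤ l ^ e := by
      calc 2 ≤ l := hD.lpr.two_le
        _ = l ^ 1 := (pow_one l).symm
        _ ≤ l ^ e := Nat.pow_le_pow_right hD.lpr.pos hD.epos
    have hnq : n ≤ (l ^ e) ^ n := by
      calc n ≤ 2 ^ n := Nat.lt_two_pow_self.le
        _ ≤ (l ^ e) ^ n := Nat.pow_le_pow_left hq2 n
    rw [mqj n]
    have : (L * x) ^ (l ^ e) ^ n = L ^ ((l ^ e) ^ n - n) * (L ^ n * x ^ (l ^ e) ^ n) := by
      rw [mul_pow, ← mul_assoc, ← pow_add, Nat.sub_add_cancel hnq]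
    rw [this]
    exact mmul _ (mpow L hL _) _ (hn n)
  | zero => rw [mul_zero]; exact m0
  | add x y _ _ hx hy => rw [mul_add]; exact madd _ hx _ hy
  | neg x _ hx => rw [mul_neg]; exact mneg _ hx

end CL
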