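import Pool.Agent.Lib.MP_defcf3_al.CL.Iface

set_option autoImplicit false

open Polynomial

namespace CL

universe u

namespace H70

section

variable {F : Type u} [Field F] (V : ValuationSubring F) (q : ℕ) (b : Set F)

/-- The multiplier ring of b. -/
def mulRing (h0 : (0 : F) ∈ b) (hadd : ∀ x ∈ b, ∀ y ∈ b, x + y ∈ b) (hV : ∀ c ∈ V, ∀ x ∈ b, c * x ∈ b) :
    Subring F where
  carrier := {c | ∀ x ∈ b, c * x ∈ b}
  mul_mem' := by
    intro a c ha hc x hx
    rw [mul_assoc]
    exact ha _ (hc _ hx)
  one_mem' := by
    intro x hx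
    rw [one_mul]
    exact hx
  add_mem' := by
    intro a c ha hc x hx
    rw [add_mul]
    exact hadd _ (ha _ hx) _ (hc _ hx)
  zero_mem' := by
    intro x _
    rw [zero_mul]
    exact h0
  neg_mem' := by
    intro a ha x hx
    have h1 : (-1 : F) ∈ V := V.neg_mem _ V.one_mem
    have h2 := hV _ h1 _ (ha _ hx)
    have : -a * x = -1 * (a * x) := by ring
    rw [this]
    exact h2

theorem val_total (x y : F) : (∃ a ∈ V, x = a * y) ∨ (∃ a ∈ V, y = a * x) := by
  by_cases hy : y = 0
  · exact Or.inr ⟨0, V.zero_mem, by rw [hy, zero_mul]⟩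
  · by_cases hx : x = 0
    · exact Or.inl ⟨0, V.zero_mem, by rw [hx, zero_mul]⟩
    · rcases V.mem_or_inv_mem (x / y) with h | h
      · exact Or.inl ⟨x / y, h, by field_simp⟩
      · exact Or.inr ⟨(x / y)⁻¹, h, by field_simp⟩

end

end H70

open H70

theorem dich_proof : DichStatement.{u} := by
  intro F _ V q b hq hperf h0 hadd hV hb
  have hle : V.toSubring ≤ mulRing V b h0 hadd hV := fun c hc x hx => hV c hc x hx
  let W : ValuationSubring F := ValuationSubring.ofLE V (mulRing V b h0 hadd hV) hle
  have hW : ∀ c : F, c ∈ W ↔ ∀ x ∈ b, c * x ∈ b := fun c => Iff.rfl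
  have hVW : V ≤ W := hle
  -- the maximal ideal
  have hlt : ∀ c : F, W.valuation c < 1 ↔ c = 0 ∨ c⁻¹ ∉ W := fun c => by
    rw [← ValuationSubring.mem_nonunits_iff, ValuationSubring.mem_nonunits_iff_or]
  have hsplit : ∀ k : ℕ, ∃ j, k + 2 = j + 2 := fun k => ⟨k, rfl⟩
  obtain ⟨r, rfl⟩ : ∃ r, q = r + 2 := ⟨q - 2, by omega⟩
  by_cases h1 : (1 : F) ∈ b
  · -- b = W
    have hbW : b = (W : Set F) := by
      apply Set.Subset.antisymm
      · intro x hx
        show x ∈ W
        rw [hW]
        intro y hy
        -- z z in b for z in b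
        have hzz : ∀ z ∈ b, z * z ∈ b := by
          intro z hz
          rcases V.mem_or_inv_mem z with h | h
          · exact hV z h z hz
          · by_cases hz0 : z = 0
            · rw [hz0, zero_mul]; exact h0
            · have h2 : z ^ (r + 2) ∈ b := (hb z).1 hz
              have h3 := hV _ (V.pow_mem h r) _ h2
              have : (z⁻¹) ^ r * z ^ (r + 2) = z * z := by
                rw [pow_add, ← mul_assoc, ← mul_pow, inv_mul_cancel₀ hz0, one_pow, one_mul, pow_two]
              rwa [this] at h3
        rcases val_total V x y with ⟨a, ha, rfl⟩ | ⟨a, ha, rfl⟩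
        · have := hV a ha _ (hzz y hy)
          have h4 : a * y * y = a * (y * y) := by ring
          rw [h4]
          exact this
        · have := hV a ha _ (hzz x hx)
          have h4 : x * (a * x) = a * (x * x) := by ring
          rw [h4]
          exact this
      · intro c hc
        have := (hW c).1 hc 1 h1
        rwa [mul_one] at this
    refine ⟨W, hVW, Or.inl hbW, ?_, ?_⟩
    · intro c hc
      exact ⟨c, hc, 1, h1, by rw [mul_one]⟩
    · intro y hy
      have := hy 1 h1
      rwa [one_mul] at this
  · -- b = m_W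
    have hbV : ∀ x ∈ b, x ∈ V := by
      intro x hx
      rcases V.mem_or_inv_mem x with h | h
      · exact h
      · by_cases hx0 : x = 0
        · rw [hx0]; exact V.zero_mem
        · exfalso
          apply h1
          have := hV _ h x hx
          rwa [inv_mul_cancel₀ hx0] at this
    have hbm : b = {c | W.valuation c < 1} := by
      apply Set.Subset.antisymm
      · intro x hx
        show W.valuation x < 1
        rw [hlt]
        by_cases hx0 : x = 0
        · exact Or.inl hx0
        · right
          intro h
          apply h1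
          have := (hW _).1 h x hx
          rwa [inv_mul_cancel₀ hx0] at this
      · intro x hx
        have hx' : W.valuation x < 1 := hx
        rw [hlt] at hx'
        by_cases hx0 : x = 0
        · rw [hx0]; exact h0
        have hx2 : x⁻¹ ∉ W := hx'.resolve_left hx0
        rw [hW] at hx2
        push Not at hx2
        obtain ⟨y, hy, hy2⟩ := hx2
        obtain ⟨w, rfl⟩ := hperf y
        have hw : w ∈ b := (hb w).2 hy
        have hw0 : w ≠ 0 := by
          rintro rfl
          apply hy2
          rw [zero_pow (by omega), mul_zero]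
          exact h0
        rcases val_total V (x⁻¹ * w ^ (r + 2)) w with ⟨a, ha, h⟩ | ⟨a, ha, h⟩
        · exfalso
          apply hy2
          rw [h]
          exact hV a ha w hw
        · have h5 : x = a * w ^ r * w := by
            have h6 : x * w = a * w ^ (r + 2) := by
              calc x * w = x * (a * (x⁻¹ * w ^ (r + 2))) := by rw [← h]
                _ = (x * x⁻¹) * (a * w ^ (r + 2)) := by ring
                _ = a * w ^ (r + 2) := by rw [mul_inv_cancel₀ hx0, one_mul]
            have h7 : x * w = (a * w ^ r * w) * w := by rw [h6]; ring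
            exact mul_right_cancel₀ hw0 h7
          rw [h5]
          exact hV _ (V.mul_mem _ _ ha (V.pow_mem (hbV w hw) r)) w hw
    refine ⟨W, hVW, Or.inr hbm, ?_, ?_⟩
    · intro c hc
      obtain ⟨w, rfl⟩ := hperf c
      have hw : w ∈ b := (hb w).2 hc
      refine ⟨w, hw, w ^ r * w, hV _ (V.pow_mem (hbV w hw) r) w hw, ?_⟩
      ring
    · intro y hy
      by_contra hyW
      have hy0 : y ≠ 0 := by
        rintro rfl
        exact hyW W.zero_mem
      have hyi : y⁻¹ ∈ b := by
        rw [hbm]
        show W.valuation y⁻¹ < 1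
        rw [hlt]
        right
        rwa [inv_inv]
      obtain ⟨w, hw⟩ := hperf y⁻¹
      have hwb : w ∈ b := (hb w).2 (by rw [hw]; exact hyi)
      have h8 := (hW _).1 (hy w hwb) (w ^ r * w) (hV _ (V.pow_mem (hbV w hwb) r) w hwb)
      apply h1
      have h9 : w * y * (w ^ r * w) = w ^ (r + 2) * y := by ring
      rw [h9, hw, inv_mul_cancel₀ hy0] at h8
      exact h8

end CL
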