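import Pool.Agent.Lib.MP_defcf3_al.CL.Iface

set_option autoImplicit false

open Polynomial

namespace CL

namespace H4

universe u

theorem coeff_iter {F : Type*} [Field F] (P : F[X]) (k j : ℕ) :
    (divX^[k] P).coeff j = P.coeff (j + k) := by
  induction k generalizing j with
  | zero => simp
  | succ k ih =>
    rw [Function.iterate_succ_apply', coeff_divX, ih]
    congr 1
    omega

theorem decomp {F : Type*} [Field F] (P : F[X]) (k : ℕ) :
    P = X ^ k * divX^[k] P + ∑ m ∈ Finset.range k, C (P.coeff m) * X ^ m := by
  ext t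
  rw [coeff_add, coeff_X_pow_mul', finsetSum_coeff]
  simp only [coeff_C_mul, coeff_X_pow]
  by_cases h : k ≤ t
  · rw [if_pos h, coeff_iter, Nat.sub_add_cancel h]
    rw [Finset.sum_eq_zero]
    · simp
    · intro m hm
      rw [Finset.mem_range] at hm
      rw [if_neg (by omega)]
      simp
  · rw [if_neg h, zero_add]
    rw [Finset.sum_eq_single t]
    · simp
    · intro m _ hne
      rw [if_neg (by omega)]
      simp
    · intro ht
      exact absurd (Finset.mem_range.mpr (by omega)) ht

section

variable {F K : Type u} [Field F] [Field K] [Algebra F K]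

theorem bq_coeff (g : K) (i j : ℕ) : (Bq F g i).coeff j = (minpoly F g).coeff (j + (i + 1)) :=
  coeff_iter _ _ _

theorem bq_deg {g : K} (hg : IsIntegral F g) {i : ℕ} (hi : i < nn F g) :
    (Bq F g i).Monic ∧ (Bq F g i).natDegree = nn F g - 1 - i := by
  have hmon : (minpoly F g).Monic := minpoly.monic hg
  have htop : (Bq F g i).coeff (nn F g - 1 - i) = 1 := by
    rw [bq_coeff, show nn F g - 1 - i + (i + 1) = nn F g from by omega]
    exact hmon
  have hle : (Bq F g i).natDegree ≤ nn F g - 1 - i := by
    rw [natDegree_le_iff_coeff_eq_zero]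
    intro N hN
    rw [bq_coeff]
    apply coeff_eq_zero_of_natDegree_lt
    show nn F g < N + (i + 1)
    omega
  have hdeg : (Bq F g i).natDegree = nn F g - 1 - i := by
    apply le_antisymm hle
    apply le_natDegree_of_ne_zero
    rw [htop]
    exact one_ne_zero
  refine ⟨?_, hdeg⟩
  rw [Monic, leadingCoeff, hdeg]
  exact htop

theorem trB [FiniteDimensional F K] {g : K} (hg : Gen F g)
    (E1 : ∀ A : F[X], A.natDegree < nn F g → tr F (dl F g * aeval g A) = A.coeff (nn F g - 1))
    {i j : ℕ} (hi : i < nn F g) (hj : j < nn F g) :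
    tr F (g ^ i * (dl F g * aeval g (Bq F g j))) = if i = j then 1 else 0 := by
  have hmon : (minpoly F g).Monic := minpoly.monic hg.int
  rcases le_or_gt i j with hij | hij
  · have h1 : g ^ i * (dl F g * aeval g (Bq F g j)) = dl F g * aeval g (X ^ i * Bq F g j) := by
      rw [map_mul, aeval_X_pow]
      ring
    have hd : (X ^ i * Bq F g j).natDegree < nn F g := by
      refine lt_of_le_of_lt natDegree_mul_le ?_
      rw [natDegree_X_pow, (bq_deg hg.int hj).2]
      omega
    rw [h1, E1 _ hd, coeff_X_pow_mul', if_pos (by omega), bq_coeff]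
    split_ifs with h
    · subst h
      rw [show nn F g - 1 - i + (i + 1) = nn F g from by omega]
      exact hmon
    · apply coeff_eq_zero_of_natDegree_lt
      show nn F g < _
      omega
  · rw [if_neg (by omega)]
    have h0 : g ^ (j + 1) * aeval g (Bq F g j) =
        - ∑ m ∈ Finset.range (j + 1), algebraMap F K ((minpoly F g).coeff m) * g ^ m := by
      have h := congrArg (aeval g) (decomp (minpoly F g) (j + 1))
      rw [minpoly.aeval, map_add, map_mul, aeval_X_pow, map_sum] at h
      simp only [map_mul, aeval_C, aeval_X_pow] at h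
      have h' : g ^ (j + 1) * aeval g (Bq F g j) +
          ∑ m ∈ Finset.range (j + 1), algebraMap F K ((minpoly F g).coeff m) * g ^ m = 0 := h.symm
      exact eq_neg_of_add_eq_zero_left h'
    set A : F[X] := - ∑ m ∈ Finset.range (j + 1), C ((minpoly F g).coeff m) * X ^ (m + (i - j - 1))
      with hA
    have h1 : g ^ i * (dl F g * aeval g (Bq F g j)) = dl F g * aeval g A := by
      have h2 : g ^ i = g ^ (i - j - 1) * g ^ (j + 1) := by
        rw [← pow_add]
        congr 1
        omega
      have h3 : aeval g A = g ^ (i - j - 1) * (g ^ (j + 1) * aeval g (Bq F g j)) := by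
        rw [h0, hA, map_neg, map_sum, mul_neg, Finset.mul_sum]
        congr 1
        refine Finset.sum_congr rfl fun m _ => ?_
        rw [map_mul, aeval_C, aeval_X_pow, pow_add]
        ring
      rw [h3, h2]
      ring
    have hc : ∀ t, i - 1 < t → A.coeff t = 0 := by
      intro t ht
      rw [hA, coeff_neg, finsetSum_coeff, neg_eq_zero]
      refine Finset.sum_eq_zero fun m hm => ?_
      rw [Finset.mem_range] at hm
      rw [coeff_C_mul, coeff_X_pow, if_neg (by omega), mul_zero]
    have hd : A.natDegree < nn F g := by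
      have hle : A.natDegree ≤ i - 1 := natDegree_le_iff_coeff_eq_zero.mpr hc
      omega
    rw [h1, E1 _ hd]
    exact hc _ (by omega)

end

end H4

universe u

theorem dual_proof (h1 : EulerStatement.{u}) : DualStatement.{u} := by
  intro F K _ _ _ _ g hg
  obtain ⟨E1, E2, E3, hg0, hd0, hfin, hex⟩ := h1 F K g hg
  have h2 := hg.two
  have htr := fun i j hi hj => @H4.trB F K _ _ _ _ g hg E1 i j hi hj
  have trlin : ∀ (c : F) (x : K), tr F (c • x) = c * tr F x := by
    intro c x
    simp [tr]
  have tradd : ∀ (x y : K), tr F (x + y) = tr F x + tr F y := by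
    intro x y
    simp [tr]
  have trsum : ∀ (s : Finset ℕ) (f : ℕ → K), tr F (∑ i ∈ s, f i) = ∑ i ∈ s, tr F (f i) := by
    intro s f
    simp [tr]
  -- coordinates in the power basis
  have hpow : ∀ y : K, y = ∑ j ∈ Finset.range (nn F g), tr F (y * (dl F g * aeval g (Bq F g j))) • g ^ j := by
    intro y
    obtain ⟨A, hA, rfl⟩ := hex y
    have hAs : aeval g A = ∑ i ∈ Finset.range (nn F g), A.coeff i • g ^ i := by
      rw [aeval_eq_sum_range' hA]
    have hco : ∀ j ∈ Finset.range (nn F g),
        tr F (aeval g A * (dl F g * aeval g (Bq F g j))) = A.coeff j := by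
      intro j hj
      rw [Finset.mem_range] at hj
      rw [hAs, Finset.sum_mul, trsum]
      have : ∀ i ∈ Finset.range (nn F g),
          tr F (A.coeff i • g ^ i * (dl F g * aeval g (Bq F g j))) = if i = j then A.coeff i else 0 := by
        intro i hi
        rw [Finset.mem_range] at hi
        rw [smul_mul_assoc, trlin, htr i j hi hj]
        split_ifs <;> simp
      rw [Finset.sum_congr rfl this, Finset.sum_ite_eq' (Finset.range (nn F g)) j,
        if_pos (Finset.mem_range.mpr hj)]
    conv_lhs => rw [hAs]
    exact Finset.sum_congr rfl fun j hj => by rw [hco j hj]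
  refine ⟨?_, ?_, fun i hi j hj => htr i j hi hj, fun i hi => H4.bq_deg hg.int hi, ?_, ?_⟩
  · intro x
    set y := ∑ i ∈ Finset.range (nn F g), tr F (dl F g * g ^ i * x) • aeval g (Bq F g i) with hy
    have hw : ∀ i < nn F g, tr F (dl F g * g ^ i * y) = tr F (dl F g * g ^ i * x) := by
      intro i hi
      rw [hy, Finset.mul_sum, trsum]
      have : ∀ j ∈ Finset.range (nn F g),
          tr F (dl F g * g ^ i * (tr F (dl F g * g ^ j * x) • aeval g (Bq F g j))) =
            if i = j then tr F (dl F g * g ^ j * x) else 0 := by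
        intro j hj
        rw [Finset.mem_range] at hj
        rw [mul_smul_comm, trlin]
        rw [show dl F g * g ^ i * aeval g (Bq F g j) = g ^ i * (dl F g * aeval g (Bq F g j)) from by ring]
        rw [htr i j hi hj]
        split_ifs <;> simp
      rw [Finset.sum_congr rfl this, Finset.sum_ite_eq (Finset.range (nn F g)) i,
        if_pos (Finset.mem_range.mpr hi)]
    by_contra hne
    have hne' : x - y ≠ 0 := sub_ne_zero.mpr hne
    have hz : ∀ u : K, tr F (u * (x - y)) = 0 := by
      intro u
      obtain ⟨A, hA, hAu⟩ := hex (u / dl F g)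
      have hu : u = dl F g * ∑ i ∈ Finset.range (nn F g), A.coeff i • g ^ i := by
        rw [← aeval_eq_sum_range' hA, hAu]
        field_simp
      rw [hu, mul_assoc, Finset.sum_mul, Finset.mul_sum, trsum]
      refine Finset.sum_eq_zero fun i hi => ?_
      rw [Finset.mem_range] at hi
      rw [smul_mul_assoc, mul_smul_comm, trlin]
      have h3 : tr F (dl F g * (g ^ i * (x - y))) = 0 := by
        have h4 : dl F g * g ^ i * x = dl F g * (g ^ i * (x - y)) + dl F g * g ^ i * y := by ring
        have h5 := congrArg (tr F) h4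
        rw [tradd, hw i hi] at h5
        have h6 : tr F (dl F g * g ^ i * x) = 0 + tr F (dl F g * g ^ i * x) := (zero_add _).symm
        exact (add_right_cancel (h6.symm.trans h5)).symm
      rw [h3, mul_zero]
    have h7 := hz (dl F g * g ^ (nn F g - 1) / (x - y))
    rw [div_mul_cancel₀ _ hne'] at h7
    have h8 := E1 (X ^ (nn F g - 1)) (by rw [natDegree_X_pow]; omega)
    rw [aeval_X_pow, coeff_X_pow, if_pos rfl, h7] at h8
    exact zero_ne_one h8
  · intro x
    have h := hpow (x / dl F g)
    have h' : x = dl F g * (x / dl F g) := by field_simp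
    conv_lhs => rw [h', h, Finset.mul_sum]
    refine Finset.sum_congr rfl fun j _ => ?_
    rw [mul_smul_comm]
    congr 2
    field_simp
  · ext t
    rw [H4.bq_coeff, coeff_one]
    split_ifs with ht
    · subst ht
      rw [show 0 + (nn F g - 1 + 1) = nn F g from by omega]
      exact minpoly.monic hg.int
    · apply coeff_eq_zero_of_natDegree_lt
      show nn F g < _
      omega
  · show X * divX^[0 + 1] (minpoly F g) = _
    rw [zero_add, Function.iterate_one, ← coeff_zero_eq_eval_zero]
    rw [eq_sub_iff_add_eq, mul_comm]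
    exact divX_mul_X_add _

end CL
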