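import Pool.Agent.Lib.MP_defcf3_al.CL.Iface

/-!
Project CL (MP_defcf3_al), row End (7.10): the final contradiction.
-/

open Polynomial

namespace CL

universe u

theorem end_proof (h1 : IntegStatement.{u}) : EndStatement.{u} := by
  intro F K _ _ _ _ ρ W hG hP hU A hA hex α hα hAm hc hf
  obtain ⟨_, _, _, hBB, hMB, hcB, hcM, _, _, _, _⟩ := h1 F K ρ hG W hP
  classical
  obtain ⟨j, hj0, hj⟩ := hex
  have hα0 : α ≠ 0 := by
    rintro rfl
    simp at hα
  have hjn : j < nn F ρ := by
    by_contra h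
    exact hj (coeff_eq_zero_of_natDegree_lt (by omega))
  have hjs : j ∈ (Finset.range (nn F ρ)).filter (fun i => i ≠ 0) := by
    rw [Finset.mem_filter, Finset.mem_range]
    exact ⟨hjn, hj0⟩
  obtain ⟨i, his, himax⟩ := ((Finset.range (nn F ρ)).filter (fun i => i ≠ 0)).exists_max_image
    (fun i => W.valuation (A.coeff i)) ⟨j, hjs⟩
  rw [Finset.mem_filter, Finset.mem_range] at his
  obtain ⟨hin, hi0⟩ := his
  have hc0 : A.coeff i ≠ 0 := by
    intro h0
    have := himax j hjs
    simp only [h0, map_zero] at this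
    exact hj (by simpa using le_zero_iff.1 this)
  have hclt : W.valuation (A.coeff i) < 1 := hAm i hi0
  have hmax : ∀ k, k ≠ 0 → W.valuation (A.coeff k) ≤ W.valuation (A.coeff i) := by
    intro k hk
    by_cases hkn : k < nn F ρ
    · exact himax k (by rw [Finset.mem_filter, Finset.mem_range]; exact ⟨hkn, hk⟩)
    · rw [coeff_eq_zero_of_natDegree_lt (n := k) (by omega), map_zero]
      exact zero_le
  have h0 := hc _ hc0 hclt hmax
  generalize hcdef : A.coeff i = c at *
  have hvc : W.valuation c ≠ 0 := (W.valuation.ne_zero_iff).2 hc0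
  have hcv : W.valuation c⁻¹ * W.valuation c = 1 := by
    rw [← Valuation.map_mul, inv_mul_cancel₀ hc0, Valuation.map_one]
  set B : F[X] := C c⁻¹ * (A - C α) with hB
  have hBdeg : B.natDegree < nn F ρ := by
    refine lt_of_le_of_lt (natDegree_C_mul_le _ _) ?_
    rw [natDegree_sub_C]
    exact hA
  have hBcoe : ∀ k, k ≠ 0 → B.coeff k = c⁻¹ * A.coeff k := by
    intro k hk
    rw [hB, coeff_C_mul, coeff_sub, coeff_C_of_ne_zero hk, sub_zero]
  have hBco : CoV W B := by
    intro k
    rw [← W.valuation_le_one_iff]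
    rcases eq_or_ne k 0 with rfl | hk
    · rw [hB, coeff_C_mul, coeff_sub, coeff_C_zero, Valuation.map_mul, ← hcv]
      gcongr
    · rw [hBcoe k hk, Valuation.map_mul, ← hcv]
      gcongr
      exact hmax k hk
  have hBi : B.coeff i = 1 := by
    rw [hBcoe i hi0, hcdef, inv_mul_cancel₀ hc0]
  have hy : aeval ρ B = algebraMap F K c⁻¹ * (aeval ρ A - algebraMap F K α) := by
    rw [hB, map_mul, aeval_C, map_sub, aeval_C]
  have hyB : aeval ρ B ∈ BB W ρ := (hBB B hBdeg).2 hBco
  have hyM : aeval ρ B ∉ MB W ρ := by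
    rw [hMB B hBdeg]
    intro h
    have := h i
    rw [hBi, map_one] at this
    exact lt_irrefl _ this
  have hinv := hU _ hyB hyM
  have hy0 : aeval ρ B ≠ 0 := by
    intro h
    rw [h] at hyM
    exact hyM (MB W ρ).zero_mem
  have hr0 : aeval ρ A - algebraMap F K α ≠ 0 := by
    intro h
    rw [hy, h, mul_zero] at hy0
    exact hy0 rfl
  have hcK : algebraMap F K c ≠ 0 := by
    rw [Ne, map_eq_zero]
    exact hc0
  have hαK : algebraMap F K α ≠ 0 := by
    rw [Ne, map_eq_zero]
    exact hα0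
  obtain ⟨f, hf⟩ := hf
  set z : K := algebraMap F K α / (aeval ρ A - algebraMap F K α) - algebraMap F K f with hz
  have hcα : W.valuation (c / α) < 1 := by
    rw [map_div₀, hα, div_one]
    exact hclt
  have hzM : z * algebraMap F K (c / α) ∈ MB W ρ := BB_mul_MB hf (alg_mem_MB hcα)
  have hu : algebraMap F K (c * f / α) = (aeval ρ B)⁻¹ - z * algebraMap F K (c / α) := by
    rw [hy, hz, map_inv₀, map_div₀, map_div₀, map_mul]
    field_simp
    ring
  have huB : algebraMap F K (c * f / α) ∈ BB W ρ := by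
    rw [hu]
    exact (BB W ρ).sub_mem hinv (MB_le hzM)
  have huW : c * f / α ∈ W := (hcB _).1 huB
  have hdiff : aeval ρ (C (c * f / α) * B - 1) ∈ MB W ρ := by
    have : aeval ρ (C (c * f / α) * B - 1) = -(aeval ρ B * (z * algebraMap F K (c / α))) := by
      rw [map_sub, map_mul, aeval_C, map_one, hu, sub_mul, inv_mul_cancel₀ hy0]
      ring
    rw [this]
    exact (MB W ρ).neg_mem (BB_mul_MB hyB hzM)
  have hdeg2 : (C (c * f / α) * B - 1).natDegree < nn F ρ := by
    rw [← C_1, natDegree_sub_C]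
    exact lt_of_le_of_lt (natDegree_C_mul_le _ _) hBdeg
  have hui : W.valuation (c * f / α) < 1 := by
    have := (hMB _ hdeg2).1 hdiff i
    rwa [coeff_sub, coeff_C_mul, hBi, mul_one, ← C_1, coeff_C_of_ne_zero hi0, sub_zero] at this
  have h1M : (1 : K) ∈ MB W ρ := by
    have h2 : aeval ρ B * algebraMap F K (c * f / α) ∈ MB W ρ := BB_mul_MB hyB (alg_mem_MB hui)
    have h3 := (MB W ρ).sub_mem h2 hdiff
    have h4 : aeval ρ B * algebraMap F K (c * f / α) - aeval ρ (C (c * f / α) * B - 1) = 1 := by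
      have e1 : aeval ρ (C (c * f / α) * B - 1) = algebraMap F K (c * f / α) * aeval ρ B - 1 := by
        rw [map_sub, map_mul, aeval_C, map_one]
      rw [e1, mul_comm, sub_sub_cancel]
    rwa [h4] at h3
  have := (hcM 1).1 (by rwa [map_one])
  rw [map_one] at this
  exact lt_irrefl _ this

end CL
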