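import Pool.Agent.Lib.MP_defcf3_al.CL.Iface

/-!
Project CL (MP_defcf3_al), row Integ: V[g], the ideal m_V V[g], coordinates, (E4), traces.
-/

open Polynomial

namespace CL

universe u

namespace H30I

section

variable {F : Type*} [Field F]

theorem coeff_iter_divX (k : ℕ) (p : F[X]) (i : ℕ) : (divX^[k] p).coeff i = p.coeff (i + k) := by
  induction k generalizing i with
  | zero => rfl
  | succ k ih =>
    rw [Function.iterate_succ_apply', coeff_divX, ih]
    congr 1
    omega

theorem red {K : Type*} [Field K] [Algebra F K] {g : K} {V : ValuationSubring F} (S : AddSubgroup F)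
    (hS : ∀ v ∈ V, ∀ s ∈ S, v * s ∈ S) (P : F[X]) (hP : P.Monic) (hPV : CoV V P) (hg : aeval g P = 0)
    (hn : 1 ≤ P.natDegree) :
    ∀ (m : ℕ) (A : F[X]), A.natDegree ≤ m → (∀ i, A.coeff i ∈ S) →
      ∃ B : F[X], (∀ i, B.coeff i ∈ S) ∧ B.natDegree < P.natDegree ∧ aeval g B = aeval g A := by
  intro m
  induction m with
  | zero =>
    intro A hA hAS
    exact ⟨A, hAS, by omega, rfl⟩
  | succ m ih =>
    intro A hA hAS
    by_cases hmn : m + 1 < P.natDegree
    · exact ⟨A, hAS, by omega, rfl⟩
    · have hle : P.natDegree ≤ m + 1 := by omega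
      set k := m + 1 - P.natDegree with hk
      set a := A.coeff (m + 1) with ha
      obtain ⟨B, hB1, hB2, hB3⟩ := ih (A - C a * (X ^ k * P)) (by
        rw [natDegree_le_iff_coeff_eq_zero]
        intro j hj
        rw [coeff_sub, coeff_C_mul, coeff_X_pow_mul']
        have hkj : k ≤ j := by omega
        rw [if_pos hkj]
        by_cases hj1 : j = m + 1
        · have : j - k = P.natDegree := by omega
          rw [this, hj1, hP.coeff_natDegree, mul_one, ha, sub_self]
        · have h1 : A.coeff j = 0 := coeff_eq_zero_of_natDegree_lt (by omega)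
          have h2 : P.coeff (j - k) = 0 := coeff_eq_zero_of_natDegree_lt (by omega)
          rw [h1, h2, mul_zero, sub_zero]) (by
        intro i
        rw [coeff_sub, coeff_C_mul, coeff_X_pow_mul']
        refine S.sub_mem (hAS i) ?_
        split_ifs
        · rw [mul_comm]
          exact hS _ (hPV _) _ (hAS _)
        · rw [mul_zero]
          exact S.zero_mem)
      refine ⟨B, hB1, hB2, ?_⟩
      rw [hB3]
      simp [hg]

end

section

variable {F : Type u} {K : Type u} [Field F] [Field K] [Algebra F K] [FiniteDimensional F K]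
variable {g : K} {V : ValuationSubring F}

theorem monic (hg : Gen F g) : (minpoly F g).Monic := minpoly.monic hg.int

/-- The additive group of the maximal ideal. -/
def mI (V : ValuationSubring F) : AddSubgroup F where
  carrier := {x | V.valuation x < 1}
  add_mem' := fun hx hy => val_lt_add hx hy
  zero_mem' := by simp
  neg_mem' := by
    intro x hx
    simpa [Valuation.map_neg] using hx

theorem mem_mI {x : F} : x ∈ mI V ↔ V.valuation x < 1 := Iff.rfl

theorem redV (hg : Gen F g) (hP : CoV V (minpoly F g)) {x : K} (hx : x ∈ BB V g) :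
    ∃ B : F[X], CoV V B ∧ B.natDegree < nn F g ∧ aeval g B = x := by
  obtain ⟨A, hA, rfl⟩ := hx
  have h2 := hg.two
  exact red (V := V) V.toSubring.toAddSubgroup (fun v hv s hs => V.mul_mem _ _ hv hs) (minpoly F g) (monic hg) hP
    (minpoly.aeval F g) (by unfold nn at h2; omega) A.natDegree A le_rfl hA

theorem redM (hg : Gen F g) (hP : CoV V (minpoly F g)) {x : K} (hx : x ∈ MB V g) :
    ∃ B : F[X], CoM V B ∧ B.natDegree < nn F g ∧ aeval g B = x := by
  obtain ⟨A, hA, rfl⟩ := hx
  have h2 := hg.two
  exact red (V := V) (mI V) (fun v hv s hs => val_lt_mul hv hs) (minpoly F g) (monic hg) hP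
    (minpoly.aeval F g) (by unfold nn at h2; omega) A.natDegree A le_rfl hA

theorem eq_of_aeval (hg : Gen F g) {A B : F[X]} (hA : A.natDegree < nn F g) (hB : B.natDegree < nn F g)
    (h : aeval g A = aeval g B) : A = B := by
  by_contra hne
  have h0 : A - B ≠ 0 := sub_ne_zero.2 hne
  have h1 : aeval g (A - B) = 0 := by rw [map_sub, h, sub_self]
  have h2 := natDegree_le_of_dvd (minpoly.dvd F g h1) h0
  have h3 : (A - B).natDegree ≤ max A.natDegree B.natDegree := natDegree_sub_le A B
  have h4 : max A.natDegree B.natDegree < nn F g := max_lt hA hB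
  unfold nn at h4
  omega

theorem coV_Bq (hP : CoV V (minpoly F g)) (i : ℕ) : CoV V (Bq F g i) := by
  intro j
  unfold Bq
  rw [coeff_iter_divX]
  exact hP _

theorem aeval_mem_BB {A : F[X]} (hA : CoV V A) : aeval g A ∈ BB V g := ⟨A, hA, rfl⟩

theorem aeval_mem_MB {A : F[X]} (hA : CoM V A) : aeval g A ∈ MB V g := ⟨A, hA, rfl⟩

theorem coV_derivative (hP : CoV V (minpoly F g)) : CoV V (derivative (minpoly F g)) := by
  intro i
  rw [coeff_derivative]
  refine V.mul_mem _ _ (hP _) ?_
  have : ((i : F) + 1) = ((i + 1 : ℕ) : F) := by push_cast; ring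
  rw [this]
  exact natCast_mem V (i + 1)

end

end H30I

theorem integ_proof (h1 : EulerStatement.{u}) (h2 : DualStatement.{u}) : IntegStatement.{u} := by
  intro F K _ _ _ _ g hg V hP
  obtain ⟨E1, E0, E2, hg0, hd0, hfr, hrep⟩ := h1 F K g hg
  obtain ⟨D1, D2, D3, D4, D5, D6⟩ := h2 F K g hg
  have h2n := hg.two
  have hBB : ∀ x : K, x ∈ BB V g ↔ ∀ i < nn F g, tr F (dl F g * g ^ i * x) ∈ V := by
    intro x
    constructor
    · intro hx i _
      have hx' : g ^ i * x ∈ BB V g := (BB V g).mul_mem ((BB V g).pow_mem (gen_mem_BB V g) i) hx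
      obtain ⟨B, hB1, hB2, hB3⟩ := H30I.redV hg hP hx'
      rw [mul_assoc, ← hB3, E1 B hB2]
      exact hB1 _
    · intro h
      rw [D1 x]
      refine (BB V g).sum_mem fun i hi => ?_
      rw [Algebra.smul_def]
      exact (BB V g).mul_mem (alg_mem_BB (h i (Finset.mem_range.1 hi))) (H30I.aeval_mem_BB (H30I.coV_Bq hP i))
  have hMB : ∀ x : K, x ∈ MB V g ↔ ∀ i < nn F g, V.valuation (tr F (dl F g * g ^ i * x)) < 1 := by
    intro x
    constructor
    · intro hx i _
      have hx' : g ^ i * x ∈ MB V g := BB_mul_MB ((BB V g).pow_mem (gen_mem_BB V g) i) hx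
      obtain ⟨B, hB1, hB2, hB3⟩ := H30I.redM hg hP hx'
      rw [mul_assoc, ← hB3, E1 B hB2]
      exact hB1 _
    · intro h
      rw [D1 x]
      refine (MB V g).sum_mem fun i hi => ?_
      rw [Algebra.smul_def, mul_comm]
      exact BB_mul_MB (H30I.aeval_mem_BB (H30I.coV_Bq hP i)) (alg_mem_MB (h i (Finset.mem_range.1 hi)))
  have hcV : ∀ A : F[X], A.natDegree < nn F g → (aeval g A ∈ BB V g ↔ CoV V A) := by
    intro A hA
    constructor
    · intro hx
      obtain ⟨B, hB1, hB2, hB3⟩ := H30I.redV hg hP hx
      rw [← H30I.eq_of_aeval hg hB2 hA hB3]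
      exact hB1
    · intro h
      exact H30I.aeval_mem_BB h
  have hcM : ∀ A : F[X], A.natDegree < nn F g → (aeval g A ∈ MB V g ↔ CoM V A) := by
    intro A hA
    constructor
    · intro hx
      obtain ⟨B, hB1, hB2, hB3⟩ := H30I.redM hg hP hx
      rw [← H30I.eq_of_aeval hg hB2 hA hB3]
      exact hB1
    · intro h
      exact H30I.aeval_mem_MB h
  have hXi : ∀ i < nn F g, ∀ s : F, tr F (dl F g * g ^ i / (g - algebraMap F K s)) =
      - (s ^ i / (minpoly F g).eval s) := by
    intro i hi s
    have h := E2 (X ^ i) (by rw [natDegree_X_pow]; exact hi) s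
    rwa [map_pow, aeval_X, eval_pow, eval_X] at h
  refine ⟨fun i => H30I.coV_Bq hP i, hBB, hMB, hcV, hcM, ?_, ?_, ?_, ?_, ?_, ?_⟩
  · intro c
    constructor
    · intro h
      have h3 := (hcV (C c) (by rw [natDegree_C]; omega)).1 (by rwa [aeval_C])
      have h4 := h3 0
      rwa [coeff_C_zero] at h4
    · exact alg_mem_BB
  · intro c
    constructor
    · intro h
      have h3 := (hcM (C c) (by rw [natDegree_C]; omega)).1 (by rwa [aeval_C])
      have h4 := h3 0
      rwa [coeff_C_zero] at h4
    · exact alg_mem_MB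
  · intro s hs hPs
    rw [hBB]
    intro i hi
    rw [← div_eq_mul_inv, hXi i hi s]
    refine V.neg_mem _ ?_
    rw [← V.valuation_le_one_iff, map_div₀, hPs, div_one, V.valuation_le_one_iff]
    exact V.toSubring.pow_mem hs i
  · intro t ht
    by_cases ht0 : t = 0
    · rw [ht0, map_zero, zero_mul, sub_zero, inv_one]
      exact (BB V g).one_mem
    rw [hBB]
    intro i hi
    have hn : nn F g = (minpoly F g).natDegree := rfl
    have htK : algebraMap F K t ≠ 0 := by
      intro h
      exact ht0 ((map_eq_zero _).1 h)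
    have hsK := (E0 t⁻¹).2
    have e1 : (1 - algebraMap F K t * g)⁻¹ = algebraMap F K (-t⁻¹) * (g - algebraMap F K t⁻¹)⁻¹ := by
      have e2 : 1 - algebraMap F K t * g = - (algebraMap F K t * (g - algebraMap F K t⁻¹)) := by
        rw [mul_sub, ← map_mul, mul_inv_cancel₀ ht0, map_one]
        ring
      rw [e2, map_neg, map_inv₀, inv_neg, mul_inv]
      ring
    have e3 : tr F (dl F g * g ^ i * (1 - algebraMap F K t * g)⁻¹) =
        t⁻¹ * (t⁻¹ ^ i / (minpoly F g).eval t⁻¹) := by
      have e4 : dl F g * g ^ i * (1 - algebraMap F K t * g)⁻¹ =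
          (-t⁻¹) • (dl F g * g ^ i / (g - algebraMap F K t⁻¹)) := by
        rw [e1, Algebra.smul_def, div_eq_mul_inv]
        ring
      rw [e4]
      unfold tr
      rw [map_smul, smul_eq_mul]
      have := hXi i hi t⁻¹
      unfold tr at this
      rw [this]
      ring
    rw [e3]
    -- the unit u
    have e5 : t ^ nn F g * (minpoly F g).eval t⁻¹ =
        1 + ∑ j ∈ Finset.range (nn F g), (minpoly F g).coeff j * t ^ (nn F g - j) := by
      rw [eval_eq_sum_range, ← hn, Finset.sum_range_succ, mul_add, Finset.mul_sum, add_comm]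
      congr 1
      · rw [hn, (H30I.monic hg).coeff_natDegree, one_mul, ← mul_pow, mul_inv_cancel₀ ht0, one_pow]
      · refine Finset.sum_congr rfl fun j hj => ?_
        have hj' := Finset.mem_range.1 hj
        have e6 : t ^ nn F g = t ^ (nn F g - j) * t ^ j := by
          rw [← pow_add]
          congr 1
          omega
        rw [e6, inv_pow]
        have := pow_ne_zero j ht0
        field_simp
    have e7 : V.valuation (t ^ nn F g * (minpoly F g).eval t⁻¹) = 1 := by
      rw [e5]
      have e8 : V.valuation (∑ j ∈ Finset.range (nn F g), (minpoly F g).coeff j * t ^ (nn F g - j)) < 1 := by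
        refine val_lt_sum _ _ fun j hj => val_lt_mul (hP j) ?_
        have hj' := Finset.mem_range.1 hj
        rw [map_pow]
        exact pow_lt_one₀ zero_le' ht (by omega)
      exact V.valuation.map_one_add_of_lt e8
    have e9 : t⁻¹ * (t⁻¹ ^ i / (minpoly F g).eval t⁻¹) =
        t ^ (nn F g - 1 - i) / (t ^ nn F g * (minpoly F g).eval t⁻¹) := by
      have e10 := (E0 t⁻¹).1
      have e11 : t ^ nn F g = t ^ (nn F g - 1 - i) * t ^ i * t := by
        rw [← pow_add, ← pow_succ]
        congr 1
        omega
      rw [e11, inv_pow]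
      have := pow_ne_zero i ht0
      have := pow_ne_zero (nn F g - 1 - i) ht0
      field_simp
    rw [e9, ← V.valuation_le_one_iff, map_div₀, e7, div_one, V.valuation_le_one_iff]
    refine V.toSubring.pow_mem ?_ _
    exact (V.valuation_le_one_iff _).1 ht.le
  · intro x hx
    have e1 : x = dl F g * g ^ 0 * (aeval g (derivative (minpoly F g)) * x) := by
      have : aeval g (derivative (minpoly F g)) ≠ 0 := by
        intro h
        apply hd0
        unfold dl
        rw [h, inv_zero]
      unfold dl
      rw [pow_zero, mul_one, ← mul_assoc, inv_mul_cancel₀ this, one_mul]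
    rw [e1]
    exact (hBB _).1 ((BB V g).mul_mem (H30I.aeval_mem_BB (H30I.coV_derivative hP)) hx) 0 (by omega)
  · intro x hx
    have e1 : x = dl F g * g ^ 0 * (aeval g (derivative (minpoly F g)) * x) := by
      have : aeval g (derivative (minpoly F g)) ≠ 0 := by
        intro h
        apply hd0
        unfold dl
        rw [h, inv_zero]
      unfold dl
      rw [pow_zero, mul_one, ← mul_assoc, inv_mul_cancel₀ this, one_mul]
    rw [e1]
    exact (hMB _).1 (BB_mul_MB (H30I.aeval_mem_BB (H30I.coV_derivative hP)) hx) 0 (by omega)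

end CL
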