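import Pool.Agent.Lib.MP_defcf3_al.CL.Iface

/-! Row Interp of CL: interpolation over a valuation ring, (4.2). -/

open Polynomial

namespace CL

universe u

theorem interp_proof : InterpStatement.{u} := by
  intro F _ V d
  induction d with
  | zero =>
    intro f x b c hf _ _ _ hc i
    have hfC : f = C (f.coeff 0) := eq_C_of_natDegree_le_zero hf
    have h0 := hc 0 le_rfl
    rw [hfC, eval_C] at h0
    rw [pow_zero, mul_one]
    rcases Nat.eq_zero_or_pos i with hi | hi
    · rw [hi]; exact h0
    · rw [coeff_eq_zero_of_natDegree_lt (lt_of_le_of_lt hf hi), map_zero]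
      exact zero_le
  | succ d ih =>
    intro f x b c hf hx hb hxb hc i
    have hb' : (1 : V.ValueGroup) ≤ b := hb
    set f1 := f /ₘ (X - C (x 0)) with hf1
    have hdeg : f1.natDegree ≤ d := by
      rw [hf1, natDegree_divByMonic f (monic_X_sub_C _), natDegree_X_sub_C]
      omega
    have hdec : f = C (f.eval (x 0)) + (X - C (x 0)) * f1 := by
      have := modByMonic_add_div f (X - C (x 0))
      rw [modByMonic_X_sub_C_eq_C_eval] at this
      exact this.symm
    have hev : ∀ t, f.eval t = f.eval (x 0) + (t - x 0) * f1.eval t := by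
      intro t
      conv_lhs => rw [hdec]
      simp
    have hval : ∀ j ≤ d, V.valuation (f1.eval (x (j + 1))) ≤ c := by
      intro j hj
      have h1 := hev (x (j + 1))
      have h2 : (x (j + 1) - x 0) * f1.eval (x (j + 1)) = f.eval (x (j + 1)) - f.eval (x 0) := by
        rw [h1]; ring
      have h3 : V.valuation ((x (j + 1) - x 0) * f1.eval (x (j + 1))) ≤ c := by
        rw [h2]
        exact (V.valuation.map_sub _ _).trans (max_le (hc (j + 1) (by omega)) (hc 0 (by omega)))
      rw [map_mul] at h3
      have h4 := hx (j + 1) (by omega) 0 (by omega) (by omega)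
      calc V.valuation (f1.eval (x (j + 1))) = 1 * V.valuation (f1.eval (x (j + 1))) := by
            rw [one_mul]
        _ ≤ V.valuation (x (j + 1) - x 0) * V.valuation (f1.eval (x (j + 1))) := by gcongr
        _ ≤ c := h3
    have key := ih f1 (fun j => x (j + 1)) b c hdeg
      (fun i hi j hj hij => hx (i + 1) (by omega) (j + 1) (by omega) (by omega)) hb
      (fun i hi => hxb (i + 1) (by omega)) hval
    have hbd : (1 : V.ValueGroup) ≤ b ^ d := one_le_pow₀ hb'
    have hbd1 : (1 : V.ValueGroup) ≤ b ^ (d + 1) := one_le_pow₀ hb'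
    have hc0 : c ≤ c * b ^ (d + 1) := by
      calc c = c * 1 := by rw [mul_one]
        _ ≤ c * b ^ (d + 1) := by gcongr
    have hc1 : c * b ^ d ≤ c * b ^ (d + 1) := by
      gcongr
      exact Nat.le_succ d
    have h5 : V.valuation ((C (f.eval (x 0)) : F[X]).coeff i) ≤ c * b ^ (d + 1) := by
      rw [coeff_C]
      split_ifs
      · exact (hc 0 (by omega)).trans hc0
      · rw [map_zero]; exact zero_le
    have h6 : V.valuation (((X - C (x 0)) * f1).coeff i) ≤ c * b ^ (d + 1) := by
      rw [sub_mul, coeff_sub, coeff_C_mul]
      refine (V.valuation.map_sub _ _).trans (max_le ?_ ?_)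
      · rcases i with _ | i
        · rw [mul_coeff_zero, coeff_X_zero, zero_mul, map_zero]; exact zero_le
        · rw [coeff_X_mul]; exact (key i).trans hc1
      · rw [map_mul]
        calc V.valuation (x 0) * V.valuation (f1.coeff i) ≤ b * (c * b ^ d) := by
              gcongr
              · exact hxb 0 (by omega)
              · exact key i
          _ = c * b ^ (d + 1) := by rw [pow_succ, mul_left_comm, mul_comm b (b ^ d)]
    rw [hdec, coeff_add]
    exact (V.valuation.map_add _ _).trans (max_le h5 h6)

end CL
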