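import Pool.Agent.Lib.MP_defcf3_al.CL.Iface

/-!
Project CL (MP_defcf3_al), module Lattice: (5.3) and (5.4) of the paper.
-/

open Polynomial

namespace CL

universe u

namespace H65L

section

variable {F K : Type u} [Field F] [Field K] [Algebra F K]

theorem tr_smul (c : F) (x : K) : tr F (c • x) = c * tr F x := by
  unfold tr
  rw [map_smul, smul_eq_mul]

theorem tr_sum {ι : Type*} (s : Finset ι) (f : ι → K) : tr F (∑ i ∈ s, f i) = ∑ i ∈ s, tr F (f i) := by
  unfold tr
  rw [map_sum]

variable {q : ℕ} {ρ : K} {W : ValuationSubring F} {D : Set K}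

theorem five_mem (h : Five F q ρ W D) {c : F} (hc : c • dl F ρ ∈ D) : c ∈ W := by
  rcases h.alt with h1 | h1
  · have : c ∈ {c : F | c • dl F ρ ∈ D} := hc
    rw [h1] at this
    exact this
  · have : c ∈ {c : F | c • dl F ρ ∈ D} := hc
    rw [h1] at this
    exact (W.valuation_le_one_iff c).1 (le_of_lt this)

theorem five_mul (h : Five F q ρ W D) {c w : F} (hw : w ∈ W) (hc : c • dl F ρ ∈ D) :
    (w * c) • dl F ρ ∈ D := by
  rcases h.alt with h1 | h1
  · have h2 : c ∈ {c : F | c • dl F ρ ∈ D} := hc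
    have h3 : w * c ∈ {c : F | c • dl F ρ ∈ D} := by
      rw [h1] at h2 ⊢
      exact W.mul_mem _ _ hw h2
    exact h3
  · have h2 : c ∈ {c : F | c • dl F ρ ∈ D} := hc
    have h3 : w * c ∈ {c : F | c • dl F ρ ∈ D} := by
      rw [h1] at h2 ⊢
      exact val_lt_mul hw h2
    exact h3

theorem five_sum (h : Five F q ρ W D) {ι : Type*} (s : Finset ι) (f : ι → K)
    (hf : ∀ i ∈ s, f i ∈ D) : ∑ i ∈ s, f i ∈ D := by
  classical
  induction s using Finset.induction_on with
  | empty => simpa using h.zero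
  | insert j s hj ih =>
    rw [Finset.sum_insert hj]
    exact h.add _ (hf j (Finset.mem_insert_self _ _)) _
      (ih fun i hi => hf i (Finset.mem_insert_of_mem hi))

end

end H65L

open H65L in
theorem lattice_proof (h1 : EulerStatement.{u}) (h2 : DualStatement.{u})
    (h3 : IntegStatement.{u}) : LatticeStatement.{u} := by
  intro F K _ _ _ _ q ρ W D h
  obtain ⟨hE1, hE2, hE3, hρ0, hδ0, -, -⟩ := h1 F K ρ h.gen
  have hn2 := h.gen.two
  have hP0 : W.valuation ((minpoly F ρ).eval 0) = 1 := h.unit 0 W.zero_mem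
  have hP0' : (minpoly F ρ).eval 0 ≠ 0 := (hE2 0).1
  have hP0W : (minpoly F ρ).eval 0 ∈ W := (W.valuation_le_one_iff _).1 hP0.le
  -- traces of delta ρ^k
  have htrk : ∀ k, k ≤ nn F ρ - 2 → tr F (dl F ρ * ρ ^ k) = 0 := by
    intro k hk
    have h := hE1 (X ^ k) (by rw [natDegree_X_pow]; omega)
    rw [map_pow, aeval_X, coeff_X_pow, if_neg (by omega)] at h
    exact h
  have htr0 : tr F (dl F ρ) = 0 := by
    have := htrk 0 (by omega)
    rwa [pow_zero, mul_one] at this
  have htri : ∀ A : F[X], A.natDegree < nn F ρ →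
      tr F (dl F ρ * aeval ρ A / ρ) = - (A.eval 0 / (minpoly F ρ).eval 0) := by
    intro A hA
    have h := hE3 A hA 0
    rwa [map_zero, sub_zero] at h
  -- (5.3)
  have L1 : ∀ k, k ≤ nn F ρ - 2 → ∀ c : F, c • dl F ρ ∈ D → c • (dl F ρ * ρ ^ k) ∈ D := by
    intro k
    induction k with
    | zero => intro _ c hc; simpa using hc
    | succ k ih =>
      intro hk c hc
      have hc' : (-(minpoly F ρ).eval 0 * c) • dl F ρ ∈ D :=
        five_mul h (W.neg_mem _ hP0W) hc
      obtain ⟨x, hx, y, hy, hxy⟩ := h.prod _ hc'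
      have he : dl F ρ * ρ ^ (k + 1) ≠ 0 := mul_ne_zero hδ0 (pow_ne_zero _ hρ0)
      have hs := h.sq _ (ih (by omega) x hx) _ hy _ he (htrk _ hk)
      have e1 : x • (dl F ρ * ρ ^ k) * y • dl F ρ / (dl F ρ * ρ ^ (k + 1)) =
          (x * y) • (dl F ρ * aeval ρ (1 : F[X]) / ρ) := by
        rw [map_one, mul_one, Algebra.smul_def, Algebra.smul_def, Algebra.smul_def, map_mul]
        field_simp
        ring
      rw [e1, tr_smul, htri 1 (by rw [natDegree_one]; omega), eval_one, ← hxy] at hs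
      have e2 : -eval 0 (minpoly F ρ) * c * -(1 / eval 0 (minpoly F ρ)) = c := by
        field_simp
      rw [e2] at hs
      exact hs
  -- linear combinations
  have L2 : ∀ c : F, c • dl F ρ ∈ D → ∀ A : F[X], CoV W A → A.natDegree ≤ nn F ρ - 2 →
      c • (dl F ρ * aeval ρ A) ∈ D := by
    intro c hc A hA hdeg
    have e1 : c • (dl F ρ * aeval ρ A) =
        ∑ i ∈ Finset.range (nn F ρ - 1), (A.coeff i * c) • (dl F ρ * ρ ^ i) := by
      rw [aeval_eq_sum_range' (n := nn F ρ - 1) (by omega), Finset.mul_sum, Finset.smul_sum]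
      refine Finset.sum_congr rfl fun i _ => ?_
      rw [mul_smul_comm, smul_smul, mul_comm c]
    rw [e1]
    refine five_sum h _ _ fun i hi => ?_
    rw [Finset.mem_range] at hi
    exact L1 i (by omega) _ (five_mul h (hA i) hc)
  refine ⟨fun c hc k hk => L1 k hk c hc, L2, ?_⟩
  -- (5.4)
  obtain ⟨hI1, -⟩ := h3 F K ρ h.gen W h.coef
  obtain ⟨-, -, hD3, hD4, -, -⟩ := h2 F K ρ h.gen
  have key : ∀ A : F[X], A.natDegree < nn F ρ → dl F ρ * aeval ρ A ∈ D → ∀ j, 1 ≤ j →
      j < nn F ρ → A.coeff j ∈ W := by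
    intro A hA hx j hj1 hj
    refine h.cut _ fun c hc => ?_
    have hB := L2 c hc (Bq F ρ j) (hI1 j) (by rw [(hD4 j hj).2]; omega)
    have hs := h.sq _ hx _ hB _ hδ0 htr0
    have e1 : dl F ρ * aeval ρ A * c • (dl F ρ * aeval ρ (Bq F ρ j)) / dl F ρ =
        c • ∑ i ∈ Finset.range (nn F ρ), A.coeff i • (ρ ^ i * (dl F ρ * aeval ρ (Bq F ρ j))) := by
      have e2 : dl F ρ * aeval ρ A * c • (dl F ρ * aeval ρ (Bq F ρ j)) / dl F ρ =
          c • (aeval ρ A * (dl F ρ * aeval ρ (Bq F ρ j))) := by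
        rw [Algebra.smul_def, Algebra.smul_def]
        field_simp
      rw [e2, aeval_eq_sum_range' hA, Finset.sum_mul]
      congr 1
      refine Finset.sum_congr rfl fun i _ => ?_
      rw [smul_mul_assoc]
    have e3 : tr F (dl F ρ * aeval ρ A * c • (dl F ρ * aeval ρ (Bq F ρ j)) / dl F ρ) =
        c * A.coeff j := by
      rw [e1, tr_smul, tr_sum]
      congr 1
      rw [Finset.sum_eq_single j]
      · rw [tr_smul, hD3 j hj j hj, if_pos rfl, mul_one]
      · intro i hi hij
        rw [Finset.mem_range] at hi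
        rw [tr_smul, hD3 i hi j hj, if_neg hij, mul_zero]
      · intro hjn
        exact absurd (Finset.mem_range.2 hj) hjn
    rw [e3] at hs
    exact five_mem h hs
  intro A hA hx
  have hlast : A.coeff (nn F ρ - 1) = 0 := by
    rw [← hE1 A hA]
    exact h.trz _ hx
  refine ⟨hlast, fun j => ?_⟩
  rcases Nat.eq_zero_or_pos j with rfl | hj
  · rcases Nat.lt_or_ge (nn F ρ) 3 with h3n | h3n
    · -- degree 2
      have hn : nn F ρ = 2 := by omega
      have e1 : dl F ρ * aeval ρ A = A.coeff 0 • dl F ρ := by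
        rw [aeval_eq_sum_range' hA, hn, Finset.sum_range_succ, Finset.sum_range_one]
        rw [hn] at hlast
        rw [show A.coeff 1 = 0 from hlast, zero_smul, add_zero, pow_zero, mul_smul_comm, mul_one]
      rw [e1] at hx
      exact five_mem h hx
    · refine h.cut _ fun c hc => ?_
      have he : dl F ρ * ρ ^ 1 ≠ 0 := mul_ne_zero hδ0 (pow_ne_zero _ hρ0)
      have hs := h.sq _ hx _ hc _ he (htrk 1 (by omega))
      have e1 : dl F ρ * aeval ρ A * c • dl F ρ / (dl F ρ * ρ ^ 1) =
          c • (dl F ρ * aeval ρ A / ρ) := by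
        rw [Algebra.smul_def, Algebra.smul_def]
        field_simp
      rw [e1, tr_smul, htri A hA, ← coeff_zero_eq_eval_zero A] at hs
      have hk := key (C (c * -(A.coeff 0 / eval 0 (minpoly F ρ))) * X)
        (lt_of_le_of_lt ((natDegree_C_mul_le _ _).trans natDegree_X_le) (by omega)) (by
          rw [map_mul, aeval_C, aeval_X]
          have e2 : (c * -(A.coeff 0 / eval 0 (minpoly F ρ))) • (dl F ρ * ρ ^ 1) =
              dl F ρ * (algebraMap F K (c * -(A.coeff 0 / eval 0 (minpoly F ρ))) * ρ) := by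
            rw [Algebra.smul_def, pow_one]
            ring
          rw [← e2]
          exact hs) 1 le_rfl (by omega)
      rw [coeff_C_mul, coeff_X_one, mul_one] at hk
      have e3 : c * A.coeff 0 = -(eval 0 (minpoly F ρ)) *
          (c * -(A.coeff 0 / eval 0 (minpoly F ρ))) := by
        field_simp
      rw [e3]
      exact W.mul_mem _ _ (W.neg_mem _ hP0W) hk
  · rcases Nat.lt_or_ge j (nn F ρ) with hjn | hjn
    · exact key A hA hx j hj hjn
    · rw [coeff_eq_zero_of_natDegree_lt (lt_of_lt_of_le hA hjn)]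
      exact W.zero_mem

end CL
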