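import Pool.Agent.Lib.MP_defcf3_al.CL.Iface

/-!
Project CL (MP_defcf3_al), row Norm: norms and V[g], by the matrix of the multiplication in the power basis.
-/

open Polynomial

namespace CL

universe u

namespace H74

section

variable {F K : Type u} [Field F] [Field K] [Algebra F K]

/-- the power basis of a generator -/
theorem exists_pb {g : K} (hg : Gen F g) : ∃ pb : PowerBasis F K, pb.gen = g ∧ pb.dim = nn F g :=
  ⟨PowerBasis.ofAdjoinEqTop hg.int hg.top, PowerBasis.ofAdjoinEqTop_gen _ _,
    PowerBasis.ofAdjoinEqTop_dim _ _⟩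

variable {V : ValuationSubring F} (pb : PowerBasis F K)

/-- the entries of the companion matrix -/
theorem gen_entry (h : CoV V (minpoly F pb.gen)) (i j : Fin pb.dim) :
    Algebra.leftMulMatrix pb.basis pb.gen i j ∈ V := by
  rw [pb.leftMulMatrix, Matrix.of_apply]
  split_ifs
  · rw [pb.minpolyGen_eq]
    exact V.neg_mem _ (h _)
  · exact V.one_mem
  · exact V.zero_mem

/-- the entries of the powers of the companion matrix -/
theorem pow_entry (h : CoV V (minpoly F pb.gen)) (k : ℕ) (i j : Fin pb.dim) :
    (Algebra.leftMulMatrix pb.basis pb.gen ^ k) i j ∈ V := by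
  induction k generalizing i j with
  | zero =>
    rw [pow_zero, Matrix.one_apply]
    split_ifs
    · exact V.one_mem
    · exact V.zero_mem
  | succ k ih =>
    rw [pow_succ, Matrix.mul_apply]
    exact V.toSubring.sum_mem fun c _ => V.mul_mem _ _ (ih _ _) (gen_entry pb h _ _)

theorem aeval_entry (A : F[X]) (i j : Fin pb.dim) :
    Algebra.leftMulMatrix pb.basis (aeval pb.gen A) i j =
      ∑ k ∈ Finset.range (A.natDegree + 1),
        A.coeff k * (Algebra.leftMulMatrix pb.basis pb.gen ^ k) i j := by
  rw [aeval_eq_sum_range, map_sum, Matrix.sum_apply]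
  refine Finset.sum_congr rfl fun k _ => ?_
  rw [map_smul, map_pow, Matrix.smul_apply, smul_eq_mul]

theorem entry_mem (h : CoV V (minpoly F pb.gen)) {x : K} (hx : x ∈ BB V pb.gen) (i j : Fin pb.dim) :
    Algebra.leftMulMatrix pb.basis x i j ∈ V := by
  obtain ⟨A, hA, rfl⟩ := hx
  rw [aeval_entry]
  exact V.toSubring.sum_mem fun k _ => V.mul_mem _ _ (hA k) (pow_entry pb h _ _ _)

theorem entry_lt (h : CoV V (minpoly F pb.gen)) {x : K} (hx : x ∈ MB V pb.gen) (i j : Fin pb.dim) :
    V.valuation (Algebra.leftMulMatrix pb.basis x i j) < 1 := by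
  obtain ⟨A, hA, rfl⟩ := hx
  rw [aeval_entry]
  refine val_lt_sum _ _ fun k _ => ?_
  rw [mul_comm]
  exact val_lt_mul (pow_entry pb h _ _ _) (hA k)

/-- the matrix over V -/
theorem exists_mat (h : CoV V (minpoly F pb.gen)) {x : K} (hx : x ∈ BB V pb.gen) :
    ∃ M : Matrix (Fin pb.dim) (Fin pb.dim) V,
      (algebraMap V F).mapMatrix M = Algebra.leftMulMatrix pb.basis x := by
  refine ⟨Matrix.of fun i j => ⟨_, entry_mem pb h hx i j⟩, ?_⟩
  ext i j
  rfl

theorem norm_eq {x : K} (M : Matrix (Fin pb.dim) (Fin pb.dim) V)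
    (hM : (algebraMap V F).mapMatrix M = Algebra.leftMulMatrix pb.basis x) :
    Algebra.norm F x = algebraMap V F M.det := by
  rw [Algebra.norm_eq_matrix_det pb.basis, ← hM, RingHom.map_det]

/-- determinants modulo an ideal -/
theorem det_sub_mem {R : Type*} [CommRing R] {n : Type*} [Fintype n] [DecidableEq n] (I : Ideal R)
    (a : R) (M : Matrix n n R) (hM : ∀ i j, M i j ∈ I) :
    (Matrix.scalar n a + M).det - a ^ Fintype.card n ∈ I := by
  rw [← Ideal.Quotient.eq_zero_iff_mem, map_sub, RingHom.map_det, map_pow]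
  have h0 : (Ideal.Quotient.mk I).mapMatrix M = 0 := by
    ext i j
    exact Ideal.Quotient.eq_zero_iff_mem.2 (hM i j)
  have h1 : (Ideal.Quotient.mk I).mapMatrix (Matrix.scalar n a) =
      Matrix.scalar n (Ideal.Quotient.mk I a) := by
    ext i j
    simp only [RingHom.mapMatrix_apply, Matrix.map_apply, Matrix.scalar_apply, Matrix.diagonal_apply]
    split_ifs
    · rfl
    · exact map_zero _
  rw [map_add, h0, h1, add_zero, Matrix.scalar_apply, Matrix.det_diagonal, Finset.prod_const,
    Finset.card_univ, sub_self]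

end

end H74

open H74 in
theorem norm_proof : NormStatement.{u} := by
  intro F K _ _ _ _ g hg V hV
  obtain ⟨pb, rfl, hdim⟩ := exists_pb hg
  refine ⟨?_, ?_, ?_⟩
  · intro x hx
    obtain ⟨M, hM⟩ := exists_mat pb hV hx
    rw [norm_eq pb M hM]
    exact (M.det).2
  · intro a ha c hc x hx
    obtain ⟨M, hM⟩ := exists_mat pb hV hx
    obtain ⟨a', ha'⟩ : ∃ a' : V, algebraMap V F a' = a := ⟨⟨a, ha⟩, rfl⟩
    obtain ⟨c', hc'⟩ : ∃ c' : V, algebraMap V F c' = c := ⟨⟨c, hc⟩, rfl⟩
    have h1 := det_sub_mem (Ideal.span {c'}) a' (c' • M) fun i j => by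
      rw [Matrix.smul_apply, smul_eq_mul]
      exact Ideal.mul_mem_right _ _ (Ideal.mem_span_singleton_self c')
    rw [Ideal.mem_span_singleton', Fintype.card_fin] at h1
    obtain ⟨y, hy⟩ := h1
    rw [← hdim]
    refine ⟨algebraMap V F y, y.2, ?_⟩
    have h2 : (algebraMap V F).mapMatrix (Matrix.scalar (Fin pb.dim) a' + c' • M) =
        Algebra.leftMulMatrix pb.basis (algebraMap F K a + algebraMap F K c * x) := by
      rw [map_add, map_add, map_mul, ← hM]
      have e1 : Algebra.leftMulMatrix pb.basis (algebraMap F K a) =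
          algebraMap F (Matrix (Fin pb.dim) (Fin pb.dim) F) a := AlgHom.commutes _ a
      have e2 : Algebra.leftMulMatrix pb.basis (algebraMap F K c) =
          algebraMap F (Matrix (Fin pb.dim) (Fin pb.dim) F) c := AlgHom.commutes _ c
      rw [e1, e2, ← Algebra.smul_def]
      congr 1
      · ext i j
        simp only [RingHom.mapMatrix_apply, Matrix.map_apply, Matrix.scalar_apply,
          Matrix.diagonal_apply, Matrix.algebraMap_matrix_apply]
        split_ifs
        · exact ha'
        · exact map_zero _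
      · ext i j
        simp only [RingHom.mapMatrix_apply, Matrix.map_apply, Matrix.smul_apply, smul_eq_mul,
          map_mul, hc']
    rw [norm_eq pb _ h2, sub_eq_iff_eq_add.1 hy.symm, map_add, map_mul, map_pow, ha', hc']
    ring
  · intro x hx
    obtain ⟨M, hM⟩ := exists_mat pb hV (MB_le hx)
    have h1 := det_sub_mem (IsLocalRing.maximalIdeal V) 1 M fun i j => by
      rw [ValuationSubring.valuation_lt_one_iff]
      have h2 := entry_lt pb hV hx i j
      rw [← hM] at h2
      exact h2
    rw [ValuationSubring.valuation_lt_one_iff] at h1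
    have h2 : (algebraMap V F).mapMatrix (Matrix.scalar (Fin pb.dim) 1 + M) =
        Algebra.leftMulMatrix pb.basis (1 + x) := by
      rw [map_add, map_add, hM, map_one, map_one, map_one]
    rw [norm_eq pb _ h2]
    rw [one_pow] at h1
    exact h1

end CL
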