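import Pool.Agent.Lib.MP_defcf3_al.CL.Iface

/-!
Project CL (MP_defcf3_al), row NormPoly: the norm of 1 + b θ as a polynomial in b.
-/

open Polynomial

namespace CL

universe u

namespace NormPoly

section Mat

variable {F : Type*} [Field F] {n : Type*} [Fintype n] [DecidableEq n]

/-- All entries of M are in V. -/
def EM (V : ValuationSubring F) (M : Matrix n n F) : Prop := ∀ i j, M i j ∈ V

theorem EM.one {V : ValuationSubring F} : EM V (1 : Matrix n n F) := by
  intro i j
  rw [Matrix.one_apply]
  split_ifs
  · exact V.one_mem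
  · exact V.zero_mem

theorem EM.mul {V : ValuationSubring F} {M N : Matrix n n F} (hM : EM V M) (hN : EM V N) : EM V (M * N) := by
  intro i j
  rw [Matrix.mul_apply]
  exact V.toSubring.sum_mem fun c _ => V.mul_mem _ _ (hM _ _) (hN _ _)

theorem EM.pow {V : ValuationSubring F} {M : Matrix n n F} (hM : EM V M) (k : ℕ) : EM V (M ^ k) := by
  induction k with
  | zero => rw [pow_zero]; exact EM.one
  | succ k ih => rw [pow_succ]; exact ih.mul hM

theorem EM.aeval {V : ValuationSubring F} {M : Matrix n n F} (hM : EM V M) {A : F[X]} (hA : CoV V A) :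
    EM V (Polynomial.aeval M A) := by
  intro i j
  rw [Polynomial.aeval_eq_sum_range, Matrix.sum_apply]
  refine V.toSubring.sum_mem fun c _ => ?_
  rw [Matrix.smul_apply, smul_eq_mul]
  exact V.mul_mem _ _ (hA _) (hM.pow _ _ _)

theorem CoV.zero {V : ValuationSubring F} : CoV V (0 : F[X]) := by
  intro i
  rw [coeff_zero]
  exact V.zero_mem

theorem CoV.sum {V : ValuationSubring F} {ι : Type*} (s : Finset ι) (f : ι → F[X]) (h : ∀ i ∈ s, CoV V (f i)) :
    CoV V (∑ i ∈ s, f i) := by
  intro k
  rw [Polynomial.finsetSum_coeff]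
  exact V.toSubring.sum_mem fun c hc => h c hc k

theorem CoV.prod {V : ValuationSubring F} {ι : Type*} (s : Finset ι) (f : ι → F[X]) (h : ∀ i ∈ s, CoV V (f i)) :
    CoV V (∏ i ∈ s, f i) := by
  classical
  induction s using Finset.induction_on with
  | empty => rw [Finset.prod_empty, ← C_1]; exact CoV.C V.one_mem
  | insert a s ha ih =>
    rw [Finset.prod_insert ha]
    exact (h _ (Finset.mem_insert_self _ _)).mul (ih fun i hi => h i (Finset.mem_insert_of_mem hi))

theorem CoV.det {V : ValuationSubring F} {M : Matrix n n F[X]} (h : ∀ i j, CoV V (M i j)) : CoV V M.det := by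
  rw [Matrix.det_apply]
  refine CoV.sum _ _ fun σ _ => ?_
  rcases Int.units_eq_one_or (Equiv.Perm.sign σ) with hs | hs
  · rw [hs, one_smul]
    exact CoV.prod _ _ fun i _ => h _ _
  · rw [hs, Units.neg_smul, one_smul]
    exact (CoV.prod _ _ fun i _ => h _ _).neg

theorem CoV.divX {V : ValuationSubring F} {A : F[X]} (h : CoV V A) : CoV V A.divX := by
  intro i
  rw [coeff_divX]
  exact h _

end Mat

end NormPoly

open NormPoly in
theorem normPoly : NormPolyStatement.{u} := by
  intro F K _ _ _ _ g hg θ
  classical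
  set pb := PowerBasis.ofAdjoinEqTop' hg.int hg.top with hpb
  have hgen : pb.gen = g := PowerBasis.ofAdjoinEqTop'_gen _ _
  set M := Algebra.leftMulMatrix pb.basis θ with hM
  refine ⟨(Matrix.det (1 + (X : F[X]) • M.map C)).divX.divX, ?_, ?_⟩
  · intro b
    have h1 : Algebra.leftMulMatrix pb.basis (1 + algebraMap F K b * θ) = 1 + b • M := by
      rw [map_add, map_one, ← Algebra.smul_def, map_smul]
    rw [Algebra.norm_eq_matrix_det pb.basis, h1, Matrix.det_one_add_smul]
    have h2 : tr F θ = Matrix.trace M := by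
      rw [tr, Algebra.trace_eq_matrix_trace pb.basis]
    rw [h2]
    ring
  · intro V hV hθ
    obtain ⟨A, hA, hAθ⟩ := hθ
    have hG : EM V (Algebra.leftMulMatrix pb.basis g) := by
      intro i j
      have := PowerBasis.leftMulMatrix pb
      rw [hgen] at this
      rw [this, Matrix.of_apply]
      split_ifs
      · rw [PowerBasis.minpolyGen_eq, hgen]
        exact V.neg_mem _ (hV _)
      · exact V.one_mem
      · exact V.zero_mem
    have hE : EM V M := by
      rw [hM, ← hAθ, ← Polynomial.aeval_algHom_apply]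
      exact hG.aeval hA
    refine CoV.divX (CoV.divX (CoV.det fun i j => ?_))
    rw [Matrix.add_apply, Matrix.smul_apply, Matrix.map_apply, smul_eq_mul]
    refine CoV.add ?_ (CoV.X.mul (CoV.C (hE _ _)))
    rw [Matrix.one_apply]
    split_ifs
    · rw [← C_1]; exact CoV.C V.one_mem
    · exact CoV.zero

end CL
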