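import Pool.Agent.Lib.MP_defcf3_al.CL.Iface

/-!
Project CL (MP_defcf3_al), row NormRatio: (6.3)(i) of the paper. In degree two the norm ratio
of the transvection T_a multiplies Delta into itself.
-/

open Polynomial

namespace CL

universe u

namespace H96

variable {F K : Type u} [Field F] [Field K] [Algebra F K]

theorem tr_smul (c : F) (x : K) : tr F (c • x) = c * tr F x := by
  rw [tr, tr, map_smul, smul_eq_mul]

theorem tr_add (x y : K) : tr F (x + y) = tr F x + tr F y := by
  rw [tr, tr, tr, map_add]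

theorem tr_alg (c : F) (x : K) : tr F (algebraMap F K c * x) = c * tr F x := by
  rw [← Algebra.smul_def, tr_smul]

/-- the relation of degree two -/
theorem rel {g : K} (hg : Gen F g) (h2 : nn F g = 2) :
    g * g = -(algebraMap F K ((minpoly F g).coeff 1) * g) -
      algebraMap F K ((minpoly F g).coeff 0) := by
  have h1 : aeval g (minpoly F g) = 0 := minpoly.aeval F g
  have h3 : (minpoly F g).natDegree = 2 := h2
  have h4 : (minpoly F g).coeff 2 = 1 := by
    have := (minpoly.monic hg.int).coeff_natDegree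
    rwa [h3] at this
  rw [aeval_eq_sum_range, h3, Finset.sum_range_succ, Finset.sum_range_succ,
    Finset.sum_range_succ, Finset.sum_range_zero, h4, one_smul, pow_zero, pow_one,
    Algebra.smul_def, Algebra.smul_def, mul_one, zero_add] at h1
  linear_combination h1

theorem tr_coord [FiniteDimensional F K] {g : K} (h1 : ∀ A : F[X], A.natDegree < nn F g →
    tr F (dl F g * aeval g A) = A.coeff (nn F g - 1)) (h2 : nn F g = 2) (x₀ x₁ : F) :
    tr F (dl F g * (algebraMap F K x₀ + algebraMap F K x₁ * g)) = x₁ := by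
  have h := h1 (C x₁ * X + C x₀) (by
    rw [h2]
    exact lt_of_le_of_lt (natDegree_linear_le) (by norm_num))
  rw [h2] at h
  simp only [map_add, map_mul, aeval_C, aeval_X, coeff_add, coeff_C_mul, coeff_X, coeff_C] at h
  norm_num at h
  rw [add_comm (algebraMap F K x₀)]
  exact h

theorem exists_coord {g : K} (hs : ∀ x : K, ∃ A : F[X], A.natDegree < nn F g ∧ aeval g A = x)
    (h2 : nn F g = 2) (x : K) :
    ∃ x₀ x₁ : F, x = algebraMap F K x₀ + algebraMap F K x₁ * g := by
  obtain ⟨A, hA, rfl⟩ := hs x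
  rw [h2] at hA
  refine ⟨A.coeff 0, A.coeff 1, ?_⟩
  have h3 := aeval_eq_sum_range' (p := A) (n := 2) hA g
  rw [h3, Finset.sum_range_succ, Finset.sum_range_succ, Finset.sum_range_zero, pow_zero, pow_one,
    Algebra.smul_def, Algebra.smul_def, mul_one, zero_add]

/-- the norm in degree two -/
theorem norm_two [FiniteDimensional F K] {g : K} (hg : Gen F g) (h1 : ∀ A : F[X], A.natDegree < nn F g →
    tr F (dl F g * aeval g A) = A.coeff (nn F g - 1)) (hfin : Module.finrank F K = nn F g)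
    (h2 : nn F g = 2) (x₀ x₁ : F) :
    Algebra.norm F (algebraMap F K x₀ + algebraMap F K x₁ * g) =
      x₀ ^ 2 - (minpoly F g).coeff 1 * x₀ * x₁ + (minpoly F g).coeff 0 * x₁ ^ 2 := by
  have hli : LinearIndependent F ![(1 : K), g] := by
    rw [LinearIndependent.pair_iff]
    intro s t hst
    rw [Algebra.smul_def, Algebra.smul_def, mul_one] at hst
    have e1 := tr_coord h1 h2 s t
    rw [hst, mul_zero, tr, map_zero] at e1
    have e2 : algebraMap F K s = 0 := by
      rw [← e1, map_zero, zero_mul, add_zero] at hst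
      exact hst
    exact ⟨(map_eq_zero _).1 e2, e1.symm⟩
  let b := basisOfLinearIndependentOfCardEqFinrank hli (by rw [hfin, h2]; rfl)
  have hb0 : b 0 = 1 := by
    simp [b]
  have hb1 : b 1 = g := by
    simp [b]
  have hrepr : ∀ (u v : F), b.repr (algebraMap F K u + algebraMap F K v * g) 0 = u ∧
      b.repr (algebraMap F K u + algebraMap F K v * g) 1 = v := by
    intro u v
    have e : algebraMap F K u + algebraMap F K v * g = u • b 0 + v • b 1 := by
      rw [hb0, hb1, Algebra.smul_def, Algebra.smul_def, mul_one]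
    rw [e, map_add, map_smul, map_smul, b.repr_self, b.repr_self]
    constructor
    · simp
    · simp
  rw [Algebra.norm_eq_matrix_det b, Matrix.det_fin_two, Algebra.leftMulMatrix_eq_repr_mul,
    Algebra.leftMulMatrix_eq_repr_mul, Algebra.leftMulMatrix_eq_repr_mul,
    Algebra.leftMulMatrix_eq_repr_mul, hb0, hb1, mul_one, (hrepr x₀ x₁).1, (hrepr x₀ x₁).2]
  have e : (algebraMap F K x₀ + algebraMap F K x₁ * g) * g =
      algebraMap F K (-((minpoly F g).coeff 0 * x₁)) +
        algebraMap F K (x₀ - (minpoly F g).coeff 1 * x₁) * g := by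
    have hr := rel hg h2
    rw [map_neg, map_mul, map_sub, map_mul]
    linear_combination algebraMap F K x₁ * hr
  rw [e, (hrepr _ _).1, (hrepr _ _).2]
  ring

/-- the identity behind (6.3)(i) -/
theorem key [FiniteDimensional F K] {g : K} (hg : Gen F g) (h1 : ∀ A : F[X], A.natDegree < nn F g →
    tr F (dl F g * aeval g A) = A.coeff (nn F g - 1)) (hfin : Module.finrank F K = nn F g)
    (hs : ∀ x : K, ∃ A : F[X], A.natDegree < nn F g ∧ aeval g A = x)
    (h2 : nn F g = 2) (a y z : K) (hy : TT F a y ≠ 0) :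
    Algebra.norm F (TT F a y) * tr F (dl F g * ((TT F a y)⁻¹ * TT F a (y * z))) =
      (1 + tr F a) * Algebra.norm F y * tr F (dl F g * z) := by
  obtain ⟨y₀, y₁, rfl⟩ := exists_coord hs h2 y
  obtain ⟨z₀, z₁, rfl⟩ := exists_coord hs h2 z
  obtain ⟨p₁, hp₁⟩ : ∃ p₁, p₁ = (minpoly F g).coeff 1 := ⟨_, rfl⟩
  obtain ⟨p₀, hp₀⟩ : ∃ p₀, p₀ = (minpoly F g).coeff 0 := ⟨_, rfl⟩
  have hr := rel hg h2
  rw [← hp₁, ← hp₀] at hr
  obtain ⟨s₀, hs₀⟩ : ∃ s₀, s₀ = tr F a := ⟨_, rfl⟩
  obtain ⟨s₁, hs₁⟩ : ∃ s₁, s₁ = tr F (a * g) := ⟨_, rfl⟩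
  have htr : ∀ u v : F, tr F (a * (algebraMap F K u + algebraMap F K v * g)) =
      u * s₀ + v * s₁ := by
    intro u v
    have e : a * (algebraMap F K u + algebraMap F K v * g) =
        algebraMap F K u * a + algebraMap F K v * (a * g) := by ring
    rw [e, tr_add, tr_alg, tr_alg, hs₀, hs₁]
  have hT : ∀ u v : F, TT F a (algebraMap F K u + algebraMap F K v * g) =
      algebraMap F K (u + (u * s₀ + v * s₁)) + algebraMap F K v * g := by
    intro u v
    rw [TT, htr]
    simp only [map_add]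
    ring
  have hyz : (algebraMap F K y₀ + algebraMap F K y₁ * g) *
      (algebraMap F K z₀ + algebraMap F K z₁ * g) =
      algebraMap F K (y₀ * z₀ - y₁ * z₁ * p₀) +
        algebraMap F K (y₀ * z₁ + y₁ * z₀ - y₁ * z₁ * p₁) * g := by
    simp only [map_add, map_mul, map_sub]
    linear_combination algebraMap F K y₁ * algebraMap F K z₁ * hr
  rw [hT] at hy
  rw [hyz, hT, hT, ← hs₀]
  set c₀ := y₀ + (y₀ * s₀ + y₁ * s₁) with hc₀
  set A := y₀ * z₀ - y₁ * z₁ * p₀ with hA
  set B := y₀ * z₁ + y₁ * z₀ - y₁ * z₁ * p₁ with hB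
  have hn := norm_two hg h1 hfin h2 c₀ y₁
  have hn' := norm_two hg h1 hfin h2 y₀ y₁
  rw [← hp₁, ← hp₀] at hn hn'
  have hconj : (algebraMap F K c₀ + algebraMap F K y₁ * g) *
      (algebraMap F K (c₀ - y₁ * p₁) - algebraMap F K y₁ * g) =
      algebraMap F K (c₀ ^ 2 - p₁ * c₀ * y₁ + p₀ * y₁ ^ 2) := by
    simp only [map_add, map_mul, map_sub, map_pow]
    linear_combination -(algebraMap F K y₁) ^ 2 * hr
  have hN : c₀ ^ 2 - p₁ * c₀ * y₁ + p₀ * y₁ ^ 2 ≠ 0 := by
    rw [← hn]
    exact Algebra.norm_ne_zero_iff.2 hy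
  have hinv : algebraMap F K (c₀ ^ 2 - p₁ * c₀ * y₁ + p₀ * y₁ ^ 2) *
      (algebraMap F K c₀ + algebraMap F K y₁ * g)⁻¹ =
      algebraMap F K (c₀ - y₁ * p₁) - algebraMap F K y₁ * g := by
    rw [← hconj, mul_comm, ← mul_assoc, inv_mul_cancel₀ hy, one_mul]
  rw [hn, hn', ← tr_alg]
  have e1 : algebraMap F K (c₀ ^ 2 - p₁ * c₀ * y₁ + p₀ * y₁ ^ 2) *
      (dl F g * ((algebraMap F K c₀ + algebraMap F K y₁ * g)⁻¹ *
        (algebraMap F K (A + (A * s₀ + B * s₁)) + algebraMap F K B * g))) =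
      dl F g * (algebraMap F K ((c₀ - y₁ * p₁) * (A + (A * s₀ + B * s₁)) + y₁ * B * p₀) +
        algebraMap F K (c₀ * B - y₁ * (A + (A * s₀ + B * s₁))) * g) := by
    calc _ = dl F g * ((algebraMap F K (c₀ ^ 2 - p₁ * c₀ * y₁ + p₀ * y₁ ^ 2) *
          (algebraMap F K c₀ + algebraMap F K y₁ * g)⁻¹) *
          (algebraMap F K (A + (A * s₀ + B * s₁)) + algebraMap F K B * g)) := by ring
      _ = _ := by
        rw [hinv]
        simp only [map_add, map_mul, map_sub]
        linear_combination -(dl F g) * (algebraMap F K y₁ * algebraMap F K B) * hr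
  rw [e1, tr_coord h1 h2, tr_coord h1 h2, hc₀, hA, hB]
  ring

end H96

open H96 in
theorem normRatio_proof (hC : CalcStatement.{u}) (hE : EulerStatement.{u}) :
    NormRatioStatement.{u} := by
  intro F K _ _ _ _ l p e N ρ hD h2 a ha y hy
  obtain ⟨h1, -, -, -, hdl, hfin, hs⟩ := hE F K ρ hD.gen
  obtain ⟨-, -, -, hcalc, -⟩ := hC F K l p e N ρ hD
  obtain ⟨ha0, haT⟩ := ha
  have hya := haT y hy
  have hy1 : TT F a y ≠ 0 := hya.1
  obtain ⟨κ, hκ⟩ : ∃ κ, κ = Algebra.norm F (TT F a y) / Algebra.norm F y := ⟨_, rfl⟩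
  show Algebra.norm F (TT F a y) / Algebra.norm F y ∈ MM F N
  rw [← hκ]
  have hny : Algebra.norm F y ≠ 0 := Algebra.norm_ne_zero_iff.2 hy
  have hny1 : Algebra.norm F (TT F a y) ≠ 0 := Algebra.norm_ne_zero_iff.2 hy1
  intro b hb
  -- the linear map W
  let W : K →ₗ[F] K := (LinearMap.mulLeft F (TT F a y)⁻¹) ∘ₗ
    (LinearMap.mulLeft F y + (Algebra.linearMap F K) ∘ₗ (Algebra.trace F K) ∘ₗ
      (LinearMap.mulLeft F (a * y)))
  have hW : ∀ z, W z = (TT F a y)⁻¹ * TT F a (y * z) := by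
    intro z
    simp only [W, TT, tr, LinearMap.comp_apply, LinearMap.add_apply, LinearMap.mulLeft_apply,
      Algebra.linearMap_apply, mul_assoc]
  have hWs : ∀ z, z ≠ 0 → Sim N (W z) z := by
    intro z hz
    rw [hW]
    have e1 := (hya.inv).mul (haT (y * z) (mul_ne_zero hy hz))
    have e2 : y⁻¹ * (y * z) = z := by rw [← mul_assoc, inv_mul_cancel₀ hy, one_mul]
    rwa [e2] at e1
  have hW1 : W 1 = 1 := by
    rw [hW, mul_one, inv_mul_cancel₀ hy1]
  have hinj : Function.Injective W := by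
    rw [← LinearMap.ker_eq_bot, LinearMap.ker_eq_bot']
    intro z hz
    by_contra h
    exact (hWs z h).1 hz
  have hsurj : Function.Surjective W := LinearMap.injective_iff_surjective.1 hinj
  -- b is a multiple of delta
  obtain ⟨⟨-, hbT⟩, hb0⟩ := hb
  obtain ⟨x₀, x₁, hx⟩ := exists_coord hs h2 ((dl F ρ)⁻¹ * b)
  have hb' : b = dl F ρ * (algebraMap F K x₀ + algebraMap F K x₁ * ρ) := by
    rw [← hx, ← mul_assoc, mul_inv_cancel₀ hdl, one_mul]
  have hx1 : x₁ = 0 := by
    have := tr_coord h1 h2 x₀ x₁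
    rw [← hb', hb0] at this
    exact this.symm
  rw [hx1, map_zero, zero_mul, add_zero] at hb'
  have hbz : ∀ z, tr F (b * z) = x₀ * tr F (dl F ρ * z) := by
    intro z
    rw [hb', ← tr_alg]
    congr 1
    ring
  -- the key identity
  have hkey : ∀ z, κ / (1 + tr F a) * tr F (dl F ρ * W z) = tr F (dl F ρ * z) := by
    intro z
    have e := key hD.gen h1 hfin hs h2 a y z hy1
    rw [← hW] at e
    rw [hκ]
    field_simp
    linear_combination e
  obtain ⟨b', hb'def⟩ : ∃ b', b' = (κ / (1 + tr F a)) • b := ⟨_, rfl⟩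
  have htb' : tr F b' = 0 := by rw [hb'def, tr_smul, hb0, mul_zero]
  have hWb : ∀ z, TT F b' (W z) = W (TT F b z) := by
    intro z
    have e1 : tr F (b' * W z) = tr F (b * z) := by
      rw [hb'def, smul_mul_assoc, tr_smul, hbz, hbz, ← hkey z]
      ring
    have e2 : W (algebraMap F K (tr F (b * z))) = algebraMap F K (tr F (b * z)) := by
      have : algebraMap F K (tr F (b * z)) = tr F (b * z) • (1 : K) := by
        rw [Algebra.smul_def, mul_one]
      rw [this, map_smul, hW1]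
    rw [TT, TT, map_add, e1, e2]
  have hb'Dz : b' ∈ Dz F N := by
    refine ⟨⟨by rw [htb', add_zero]; exact one_ne_zero, fun w hw => ?_⟩, htb'⟩
    obtain ⟨z, rfl⟩ := hsurj w
    have hz : z ≠ 0 := by
      rintro rfl
      exact hw (map_zero W)
    have hTz := hbT z hz
    rw [hWb]
    exact ((hWs _ hTz.1).trans hTz).trans (hWs z hz).symm
  have hfin := (hcalc a ⟨ha0, haT⟩ b' hb'Dz).1
  rwa [hb'def, smul_smul, mul_div_cancel₀ _ ha0] at hfin

end CL
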