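import Pool.Agent.Lib.MP_defcf3_al.CL.Calc

/-!
Project CL (MP_defcf3_al), row P2: (1.5) and (1.6).
-/

open Polynomial

namespace CL

universe u

namespace H17

section

variable {F : Type*} {K : Type*} [Field F] [Field K] [Algebra F K] {N : Subgroup Kˣ}

/-- `(1.5)`. -/
theorem mem_Dp_of {x y : K} (hy : y ≠ 0) (h : ∀ z : K, z ≠ 0 → Sim N (z + tr F (x * z) • y) z) :
    x * y ∈ Dp F N := by
  refine ⟨?_, ?_⟩
  · intro h0
    have h1 := (h y hy).1
    apply h1
    have h2 : y + tr F (x * y) • y = (1 + tr F (x * y)) • y := by rw [add_smul, one_smul]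
    rw [h2, h0, zero_smul]
  · intro z hz
    have h1 := h (y * z) (mul_ne_zero hy hz)
    have h2 : y * z + tr F (x * (y * z)) • y = y * TT F (x * y) z := by
      unfold TT
      rw [Algebra.smul_def, ← mul_assoc x y z]
      ring
    rw [h2] at h1
    have h3 := h1.div (Sim.refl (N := N) hy)
    rwa [mul_div_cancel_left₀ _ hy, mul_div_cancel_left₀ _ hy] at h3

/-- `(1.6)`. -/
theorem P2_aux {a b c : K} (ha : a ∈ Dp F N) (hb : b ∈ Dp F N) (hc : c ≠ 0) (htc : tr F c = 0) :
    tr F (a * b / c) • c ∈ Dz F N := by
  by_cases ha0 : a = 0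
  · rw [ha0, zero_mul, zero_div, H30.tr_zero, zero_smul]
    exact H30.zero_mem_Dz
  set κ := tr F (a * b / c) with hκ
  -- the element c' = κ / (1 + tr a) • c
  have key : (κ / (1 + tr F a)) • c ∈ Dz F N := by
    have htr : tr F ((κ / (1 + tr F a)) • c) = 0 := by rw [H30.tr_smul, htc, mul_zero]
    refine ⟨⟨by rw [htr]; simp, ?_⟩, htr⟩
    intro w hw
    -- V (z) = (a / c) * TT a (z c / a), U = TT b
    -- w = V (U z)
    set a' : K := -((1 + tr F a)⁻¹ • a) with ha'
    set b' : K := -((1 + tr F b)⁻¹ • b) with hb'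
    set w1 : K := a / c * TT F a' (w * c / a) with hw1
    set z : K := TT F b' w1 with hz
    have hac : a / c ≠ 0 := div_ne_zero ha0 hc
    have hV : ∀ s : K, a / c * TT F a (s * c / a) = s + tr F (c * s) • (a / c) := by
      intro s
      unfold TT
      rw [Algebra.smul_def, show a * (s * c / a) = c * s by field_simp]
      field_simp
    have hVs : ∀ s : K, s ≠ 0 → Sim N (s + tr F (c * s) • (a / c)) s := by
      intro s hs
      rw [← hV s]
      have h1 := ha.2 (s * c / a) (div_ne_zero (mul_ne_zero hs hc) ha0)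
      have h2 := h1.mul_left hac
      rwa [show a / c * (s * c / a) = s by field_simp] at h2
    have hVw : w1 + tr F (c * w1) • (a / c) = w := by
      rw [← hV w1, hw1, show a / c * TT F a' (w * c / a) * c / a = TT F a' (w * c / a) by field_simp,
        ha', H30.inv_comp ha]
      field_simp
    have hUz : TT F b z = w1 := by rw [hz, hb', H30.inv_comp hb]
    have hw10 : w1 ≠ 0 := by
      intro h0
      rw [h0, mul_zero, H30.tr_zero, zero_smul, add_zero] at hVw
      exact hw hVw.symm
    have hz0 : z ≠ 0 := by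
      intro h0
      rw [h0, H30.TT_zero'] at hUz
      exact hw10 hUz.symm
    -- U (V z)
    have h3 : Sim N (TT F b (z + tr F (c * z) • (a / c))) z := by
      have h4 := hVs z hz0
      exact (hb.2 _ h4.1).trans h4
    have h5 : Sim N z w := by
      have h6 : Sim N w1 z := by
        rw [← hUz]
        exact hb.2 z hz0
      have h7 : Sim N w w1 := by
        rw [← hVw]
        exact hVs w1 hw10
      exact (h7.trans h6).symm
    have h8 : TT F b (z + tr F (c * z) • (a / c)) = TT F ((κ / (1 + tr F a)) • c) w := by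
      have e1 : w1 = z + algebraMap F K (tr F (b * z)) := by rw [← hUz]; rfl
      have e2 : tr F (c * w1) = tr F (c * z) := by
        rw [e1, mul_add, H30.tr_add, H30.tr_mul_alg, htc, mul_zero, add_zero]
      have e3 : tr F (c * w) = (1 + tr F a) * tr F (c * z) := by
        rw [← hVw, mul_add, H30.tr_add, e2, mul_smul_comm, H30.tr_smul,
          show c * (a / c) = a by field_simp]
        ring
      have e4 : tr F ((κ / (1 + tr F a)) • c * w) = κ * tr F (c * z) := by
        rw [smul_mul_assoc, H30.tr_smul, e3]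
        have := ha.1
        field_simp
      have e5 : tr F (b * (z + tr F (c * z) • (a / c))) = tr F (b * z) + tr F (c * z) * κ := by
        rw [mul_add, H30.tr_add, mul_smul_comm, H30.tr_smul, hκ,
          show b * (a / c) = a * b / c by ring]
      unfold TT
      rw [e4, e5, ← hVw, e2, e1]
      simp only [map_add, map_mul, Algebra.smul_def]
      ring
    rw [← h8]
    exact h3.trans h5
  have h9 := H30.smul_mem_Dz ha key
  rwa [smul_smul, mul_div_cancel₀ _ ha.1] at h9

end

end H17

theorem p2_proof : P2Statement.{u} := by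
  intro F K _ _ _ _ l p e N ρ _
  exact ⟨fun x y hy h => H17.mem_Dp_of hy h, fun a ha b hb c hc htc => H17.P2_aux ha hb hc htc⟩

end CL
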