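import Pool.Agent.Lib.MP_defcf3_al.CL.Iface

/-! Row Path of CL: the path lemma (3.1). -/

open Polynomial

namespace CL

universe u

namespace H81

variable {F K : Type u} [Field F] [Field K] [Algebra F K]

/-- a unit multiple of `dl * y` is in `S` -/
def Good (F : Type u) {K : Type u} [Field F] [Field K] [Algebra F K] (V : ValuationSubring F)
    (g : K) (S : Set K) (y : K) : Prop :=
  ∃ w : F, V.valuation w = 1 ∧ w • (dl F g * y) ∈ S

theorem rule {V : ValuationSubring F} {g : K} {S : Set K} (hdl : dl F g ≠ 0)
    (hS : ∀ a ∈ S, ∀ b ∈ S, ∀ c : K, c ≠ 0 → tr F c = 0 → tr F (a * b / c) • c ∈ S)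
    {y y' y'' : K} (h : Good F V g S y) (h' : Good F V g S y') (h0 : y'' ≠ 0)
    (ht : tr F (dl F g * y'') = 0) (t : F) (hv : V.valuation t = 1)
    (htr : tr F (dl F g * (y * y' / y'')) = t) : Good F V g S y'' := by
  obtain ⟨w, hw, hwS⟩ := h
  obtain ⟨w', hw', hwS'⟩ := h'
  have h1 := hS _ hwS _ hwS' (dl F g * y'') (mul_ne_zero hdl h0) ht
  have h2 : w • (dl F g * y) * w' • (dl F g * y') / (dl F g * y'') =
      (w * w') • (dl F g * (y * y' / y'')) := by
    rw [Algebra.smul_def, Algebra.smul_def, Algebra.smul_def, map_mul]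
    field_simp
  have h3 : tr F (w • (dl F g * y) * w' • (dl F g * y') / (dl F g * y'')) = w * w' * t := by
    rw [h2]
    unfold tr at htr ⊢
    rw [map_smul, htr, smul_eq_mul]
  rw [h3] at h1
  exact ⟨w * w' * t, by rw [map_mul, map_mul, hw, hw', hv, mul_one, mul_one], h1⟩

end H81

theorem path_proof (hE : EulerStatement.{u}) : PathStatement.{u} := by
  intro F K _ _ _ _ g hg V hP0 hP1 S hStr hS hex
  obtain ⟨e1, e2, e3, hg0, hdl, -, -⟩ := hE F K g hg
  have hn := hg.two
  set n := nn F g with hnn
  have trpow : ∀ j, j + 2 ≤ n → tr F (dl F g * g ^ j) = 0 := by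
    intro j hj
    have := e1 (X ^ j) (by rw [natDegree_X_pow]; omega)
    rw [map_pow, aeval_X] at this
    rw [this, coeff_X_pow, if_neg (by omega)]
  have trtop : tr F (dl F g * g ^ (n - 1)) = 1 := by
    have := e1 (X ^ (n - 1)) (by rw [natDegree_X_pow]; omega)
    rw [map_pow, aeval_X] at this
    rw [this, coeff_X_pow, if_pos rfl]
  have trone : tr F (dl F g) = 0 := by
    have := trpow 0 (by omega)
    rwa [pow_zero, mul_one] at this
  have hP0' : (minpoly F g).eval 0 ≠ 0 := (e2 0).1
  have hP1' : (minpoly F g).eval 1 ≠ 0 := (e2 1).1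
  have trinv : tr F (dl F g / g) = -((minpoly F g).eval 0)⁻¹ := by
    have := e3 1 (by rw [natDegree_one]; omega) 0
    rw [map_one, mul_one, map_zero, sub_zero, eval_one, one_div] at this
    exact this
  have vP0 : V.valuation (((minpoly F g).eval 0)⁻¹) = 1 := by rw [map_inv₀, hP0, inv_one]
  have vP1 : V.valuation (((minpoly F g).eval 1)⁻¹) = 1 := by rw [map_inv₀, hP1, inv_one]
  have hgp : ∀ j, g ^ j ≠ 0 := fun j => pow_ne_zero j hg0
  have trsub : ∀ a b : K, tr F (a - b) = tr F a - tr F b := by
    intro a b
    unfold tr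
    rw [map_sub]
  classical
  have hex' : ∃ k, k ≤ n - 2 ∧ H81.Good F V g S (g ^ k) := by
    obtain ⟨k, hk, h⟩ := hex
    exact ⟨k, hk, h⟩
  have h0 : H81.Good F V g S (g ^ 0) := by
    by_contra hcon
    set k := Nat.find hex' with hk
    have hkspec := Nat.find_spec hex'
    rw [← hk] at hkspec
    obtain ⟨hk2, hkg⟩ := hkspec
    have hmin : ∀ m, m < k → m ≤ n - 2 → ¬ H81.Good F V g S (g ^ m) := by
      intro m hm hm2 h
      exact Nat.find_min hex' hm ⟨hm2, h⟩
    have hkpos : 1 ≤ k := by
      rcases Nat.eq_zero_or_pos k with h | h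
      · rw [h] at hkg; exact absurd hkg hcon
      · exact h
    by_cases h2k : n ≤ 2 * k + 1
    · -- E'' = X^(2k-n+1)
      refine hmin (2 * k + 1 - n) (by omega) (by omega) ?_
      refine H81.rule hdl hS hkg hkg (hgp _) (trpow _ (by omega)) 1 (by rw [map_one]) ?_
      have : g ^ k * g ^ k / g ^ (2 * k + 1 - n) = g ^ (n - 1) := by
        rw [div_eq_iff (hgp _), ← pow_add, ← pow_add]
        congr 1
        omega
      rw [this, trtop]
    · push Not at h2k
      have hn4 : 4 ≤ n := by omega
      have hg1 : g - 1 ≠ 0 := by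
        have := (e2 1).2
        rwa [map_one] at this
      have htr1 : tr F (dl F g * (g - 1)) = 0 := by
        have h := trpow 1 (by omega)
        rw [pow_one] at h
        rw [mul_sub, mul_one, trsub, h, trone, sub_zero]
      have hG1 : H81.Good F V g S (g - 1) := by
        refine H81.rule hdl hS hkg hkg hg1 htr1 (-((minpoly F g).eval 1)⁻¹)
          (by rw [Valuation.map_neg, vP1]) ?_
        have := e3 (X ^ (2 * k)) (by rw [natDegree_X_pow]; omega) 1
        rw [map_pow, aeval_X, map_one, eval_pow, eval_X, one_pow, one_div] at this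
        rw [← this, ← pow_add, ← two_mul, mul_div_assoc]
      have hup : ∀ j, k ≤ j → j ≤ n - 2 → H81.Good F V g S (g ^ j) := by
        intro j hj
        induction j, hj using Nat.le_induction with
        | base => intro _; exact hkg
        | succ j hj ih =>
          intro hj2
          refine H81.rule hdl hS (ih (by omega)) hG1 (hgp _) (trpow _ (by omega))
            (((minpoly F g).eval 0)⁻¹) vP0 ?_
          have : dl F g * (g ^ j * (g - 1) / g ^ (j + 1)) = dl F g - dl F g / g := by
            rw [pow_succ]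
            have := hgp j
            field_simp
          rw [this, trsub, trone, trinv]
          ring
      have htop := hup (n - 2) (by omega) le_rfl
      refine hcon ?_
      refine H81.rule hdl hS htop hG1 (hgp 0) (trpow 0 (by omega)) 1 (by rw [map_one]) ?_
      have : dl F g * (g ^ (n - 2) * (g - 1) / g ^ 0) =
          dl F g * g ^ (n - 1) - dl F g * g ^ (n - 2) := by
        have hh : n - 1 = (n - 2) + 1 := by omega
        rw [hh, pow_zero, div_one, pow_succ]
        ring
      rw [this, trsub, trtop, trpow (n - 2) (by omega), sub_zero]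
  have hall : ∀ k, k ≤ n - 2 → H81.Good F V g S (g ^ k) := by
    intro k
    induction k with
    | zero => intro _; exact h0
    | succ k ih =>
      intro hk
      refine H81.rule hdl hS h0 (ih (by omega)) (hgp _) (trpow _ (by omega))
        (-((minpoly F g).eval 0)⁻¹) (by rw [Valuation.map_neg, vP0]) ?_
      have : dl F g * (g ^ 0 * g ^ k / g ^ (k + 1)) = dl F g / g := by
        rw [pow_zero, one_mul, pow_succ]
        have := hgp k
        field_simp
      rw [this, trinv]
  intro k hk
  exact hall k hk

end CL
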