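import Pool.Agent.Lib.MP_defcf3_al.CL.Iface

/-!
Project CL (MP_defcf3_al), module Place: (4.4) of finding 4292, a valuation ring dominating the ring A at a
proper ideal, all of whose elements are fractions of elements of A.
-/

open Polynomial

namespace CL

universe u

namespace H82

variable {F : Type u} {K : Type u} [Field F] [Field K] [Algebra F K]

/-- The ideal of the ring A attached to a subset closed under sums and multiples. -/
def idl (A : Subring F) (I : Set F) (h0 : (0 : F) ∈ I) (hadd : ∀ a ∈ I, ∀ b ∈ I, a + b ∈ I)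
    (hmul : ∀ a ∈ A, ∀ b ∈ I, a * b ∈ I) : Ideal A where
  carrier := {x | (x : F) ∈ I}
  zero_mem' := by simpa using h0
  add_mem' := by
    intro a b ha hb
    exact hadd _ ha _ hb
  smul_mem' := by
    intro c x hx
    exact hmul _ c.2 _ hx

theorem exists_place (A : Subring F) (I : Set F) (h0 : (0 : F) ∈ I) (hI : I ⊆ A)
    (hadd : ∀ a ∈ I, ∀ b ∈ I, a + b ∈ I) (hmul : ∀ a ∈ A, ∀ b ∈ I, a * b ∈ I) (h1 : (1 : F) ∉ I) :
    ∃ V : ValuationSubring F, A ≤ V.toSubring ∧ ∀ a ∈ I, V.valuation a < 1 := by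
  have hne : idl A I h0 hadd hmul ≠ ⊤ := by
    intro h
    have : (1 : A) ∈ idl A I h0 hadd hmul := by
      rw [h]
      exact Submodule.mem_top
    exact h1 this
  obtain ⟨V, hV, hVI⟩ := Ideal.image_subset_nonunits_valuationSubring _ hne
  refine ⟨V, hV, fun a ha => ?_⟩
  have h2 : a ∈ V.nonunits := hVI ⟨⟨a, hI ha⟩, ha, rfl⟩
  exact (ValuationSubring.mem_nonunits_iff V).1 h2

end H82

theorem place_proof (h1 : RingAStatement.{u}) : PlaceStatement.{u} := by
  intro F K _ _ _ _ l p e N ρ hD I h0 hI hadd hmul hone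
  obtain ⟨V, hV, hVI⟩ := H82.exists_place (AA F N ρ) I h0 hI hadd hmul hone
  refine ⟨V, hV, hVI, fun v hv => ?_⟩
  obtain ⟨-, hval, -, -⟩ := (h1 F K l p e N ρ hD).2 V hV
  have hu : V.valuation ((minpoly F ρ).eval v) = 1 := hval v hv
  have hne : (minpoly F ρ).eval v ≠ 0 := by
    intro h
    rw [h, map_zero] at hu
    exact zero_ne_one hu
  refine ⟨v * ((minpoly F ρ).eval v)⁻¹, ?_, ((minpoly F ρ).eval v)⁻¹, ?_, ?_, ?_⟩
  · exact Subring.subset_closure (Or.inr ⟨v, rfl⟩)
  · exact Subring.subset_closure (Or.inl (Or.inr ⟨v, rfl⟩))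
  · rw [map_inv₀, hu, inv_one]
  · rw [mul_div_assoc, div_self (inv_ne_zero hne), mul_one]

end CL
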