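import Pool.Agent.Lib.MP_defcf3_al.CL.Iface

/-!
Project CL (MP_defcf3_al), module ResRoot: elements of norm one with a power in the base field (7.2).
-/

open Polynomial

namespace CL

universe u

namespace H97

/-- Finitely many algebraic elements lie in a finite subfield, in characteristic l. -/
theorem finite_subfield {k : Type*} [Field k] {l : ℕ} (hl : l.Prime) [CharP k l] (T : Set k) (hT : T.Finite)
    (hint : ∀ x ∈ T, ∃ f : (ZMod l)[X], f.Monic ∧ f.eval₂ (ZMod.castHom dvd_rfl k) x = 0) :
    ∃ (s : ℕ) (E : Subfield k), 1 ≤ s ∧ Finite E ∧ Nat.card E = l ^ s ∧ (∀ x ∈ T, x ∈ E) ∧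
      ∀ x ∈ E, x ^ l ^ s = x := by
  have : Fact l.Prime := ⟨hl⟩
  let : Algebra (ZMod l) k := ZMod.algebra k l
  have : Finite T := hT
  have : FiniteDimensional (ZMod l) (IntermediateField.adjoin (ZMod l) T) := by
    refine IntermediateField.finiteDimensional_adjoin fun x hx => ?_
    obtain ⟨f, hf, hf0⟩ := hint x hx
    exact ⟨f, hf, hf0⟩
  set E' := IntermediateField.adjoin (ZMod l) T with hE'
  have : Finite E' := Module.finite_of_finite (ZMod l)
  have : Fintype E' := Fintype.ofFinite _
  have : CharP E' l := charP_of_injective_algebraMap (algebraMap (ZMod l) E').injective l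
  obtain ⟨s, _, hs⟩ := FiniteField.card E' l
  refine ⟨s, E'.toSubfield, s.2, ‹Finite E'›, ?_, ?_, ?_⟩
  · have : Nat.card E'.toSubfield = Nat.card E' := rfl
    rw [this, Nat.card_eq_fintype_card, hs]
  · intro x hx
    exact IntermediateField.subset_adjoin _ _ hx
  · intro x hx
    have h := FiniteField.pow_card (⟨x, hx⟩ : E')
    rw [hs] at h
    have := congrArg (fun z : E' => (z : k)) h
    simpa using this

/-- Frobenius permutes the roots. -/
theorem root_pow {k C : Type*} [Field k] [Field C] [Algebra k C] {l s : ℕ} [Fact l.Prime] [CharP C l]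
    (P : k[X]) (hP : ∀ i, P.coeff i ^ l ^ s = P.coeff i) {z : C} (hz : aeval z P = 0) :
    aeval (z ^ l ^ s) P = 0 := by
  rw [aeval_eq_sum_range] at hz ⊢
  have h : (∑ i ∈ Finset.range (P.natDegree + 1), P.coeff i • z ^ i) ^ l ^ s = 0 := by
    rw [hz, zero_pow (pow_ne_zero _ (Fact.out : l.Prime).ne_zero)]
  rw [sum_pow_char_pow] at h
  rw [← h]
  refine Finset.sum_congr rfl fun i _ => ?_
  rw [Algebra.smul_def, Algebra.smul_def, mul_pow, ← map_pow, hP, pow_right_comm]

theorem pow_inj {C : Type*} [Field C] {l : ℕ} [Fact l.Prime] [CharP C l] (r : ℕ) {a b : C}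
    (h : a ^ l ^ r = b ^ l ^ r) : a = b := iterateFrobenius_inj C l r h

/-- The Frobenius orbit of y has at least deg P elements. -/
theorem orbit_ne {k C : Type*} [Field k] [Field C] [Algebra k C] {l s : ℕ} [Fact l.Prime] [CharP C l]
    (hs : 1 ≤ s) (E : Subfield k) [Finite E] (hE : Nat.card E = l ^ s) (hE' : ∀ x ∈ E, x ^ l ^ s = x) (y : C)
    {e : ℕ} (he : e < (minpoly k y).natDegree) (he1 : 1 ≤ e) : y ^ (l ^ s) ^ e ≠ y := by
  classical
  intro hy
  have hl : 2 ≤ l := (Fact.out : l.Prime).two_le
  have hli := linearIndependent_pow (K := k) y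
  have hq : 1 < l ^ s := Nat.one_lt_pow (by omega) hl
  have hfix : ∀ x ∈ E, x ^ (l ^ s) ^ e = x := by
    intro x hx
    induction e with
    | zero => simp
    | succ e ih =>
      clear ih hy he he1
      induction e with
      | zero => rw [zero_add, pow_one, hE' x hx]
      | succ e ih => rw [pow_succ, pow_mul, ih, hE' x hx]
  let φ : (Fin (minpoly k y).natDegree → E) → C := fun v => ∑ i, (v i : k) • y ^ (i : ℕ)
  have hφ : Function.Injective φ := by
    intro v w hvw
    have h0 : ∑ i, ((v i : k) - (w i : k)) • y ^ (i : ℕ) = 0 := by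
      have : φ v - φ w = 0 := by rw [hvw, sub_self]
      simpa only [φ, ← Finset.sum_sub_distrib, ← sub_smul] using this
    have h1 := Fintype.linearIndependent_iff.1 hli _ h0
    funext i
    exact Subtype.ext (sub_eq_zero.1 (h1 i))
  have hroot : ∀ v, φ v ∈ ((X ^ (l ^ s) ^ e - X : C[X]).roots).toFinset := by
    intro v
    have hne : (X ^ (l ^ s) ^ e - X : C[X]) ≠ 0 :=
      FiniteField.X_pow_card_pow_sub_X_ne_zero C (by omega) hq
    rw [Multiset.mem_toFinset, mem_roots hne, IsRoot.def, eval_sub, eval_pow, eval_X, sub_eq_zero]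
    simp only [φ]
    rw [← pow_mul, sum_pow_char_pow]
    refine Finset.sum_congr rfl fun i _ => ?_
    rw [Algebra.smul_def, mul_pow, ← map_pow, pow_mul, hfix _ (v i).2, pow_right_comm, hy]
  have hcard : Nat.card (Fin (minpoly k y).natDegree → E) ≤ (l ^ s) ^ e := by
    have h1 : Nat.card (Fin (minpoly k y).natDegree → E) ≤
        ((X ^ (l ^ s) ^ e - X : C[X]).roots).toFinset.card := by
      have := Nat.card_le_card_of_injective
        (fun v => (⟨φ v, hroot v⟩ : ((X ^ (l ^ s) ^ e - X : C[X]).roots).toFinset))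
        (fun v w h => hφ (congrArg Subtype.val h))
      have h9 : ∀ S : Finset C, Nat.card S = S.card := fun S => by
        rw [Nat.card_eq_fintype_card, Fintype.card_coe]
      rwa [h9] at this
    refine h1.trans ((Multiset.toFinset_card_le _).trans ((card_roots' _).trans ?_))
    rw [FiniteField.X_pow_card_pow_sub_X_natDegree_eq C (by omega) hq]
  rw [Nat.card_fun, hE, Nat.card_fin] at hcard
  exact absurd hcard (not_le.2 (Nat.pow_lt_pow_right hq he))

end H97

open H97 in
/-- Module ResRoot. -/
theorem resroot_proof (h1 : ArithStatement) : ResRootStatement.{u} := by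
  classical
  intro k C _ _ _ _ l m hl hchar _ hm0 hdvd y hny ⟨c, hc⟩
  have : Fact l.Prime := ⟨hl⟩
  have : CharP C l := charP_of_injective_algebraMap (algebraMap k C).injective l
  set n := Module.finrank k C with hn
  have hn0 : 0 < n := Module.finrank_pos
  have hcn : c ^ n = 1 := by
    rw [hn, ← Algebra.norm_algebraMap (S := C), ← hc, map_pow, hny, one_pow]
  have hc0 : c ≠ 0 := by
    rintro rfl
    rw [zero_pow hn0.ne'] at hcn
    exact zero_ne_one hcn
  have hyN : y ^ (m * n) = 1 := by rw [pow_mul, hc, ← map_pow, hcn, map_one]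
  have hyint : IsIntegral k y := IsIntegral.of_finite k y
  set P := minpoly k y with hP
  have hPm : P.Monic := minpoly.monic hyint
  let alg : Algebra (ZMod l) k := ZMod.algebra k l
  have hmn : m * n ≠ 0 := mul_ne_zero hm0 hn0.ne'
  have hcoef : ∀ i, IsIntegral (ZMod l) (P.coeff i) := by
    have hd : P ∣ (X ^ (m * n) - 1 : (ZMod l)[X]).map (algebraMap (ZMod l) k) := by
      refine minpoly.dvd k y ?_
      simp [hyN]
    have h2 := integralClosure.mem_lifts_of_monic_of_dvd_map k (monic_X_pow_sub_C (1 : ZMod l) hmn) hPm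
      (by simpa using hd)
    intro i
    obtain ⟨x, hx⟩ := (lifts_iff_coeff_lifts _).1 h2 i
    rw [← hx]
    exact x.2
  obtain ⟨s, E, hs, hEf, hEc, hTE, hEx⟩ := finite_subfield hl
    (insert c (P.coeff '' (Set.Iic P.natDegree))) ((Set.finite_Iic _).image _ |>.insert c) (by
      rintro x (rfl | ⟨i, _, rfl⟩)
      · exact ⟨X ^ n - 1, monic_X_pow_sub_C (1 : ZMod l) hn0.ne', by simp [hcn]⟩
      · exact hcoef i)
  set q := l ^ s with hq
  have hPE : ∀ i, P.coeff i ^ q = P.coeff i := by
    intro i
    by_cases hi : i ≤ P.natDegree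
    · exact hEx _ (hTE _ (Or.inr ⟨i, hi, rfl⟩))
    · rw [coeff_eq_zero_of_natDegree_lt (by omega), zero_pow (pow_ne_zero _ hl.ne_zero)]
  have hcE : c ^ q = c := hEx _ (hTE _ (Or.inl rfl))
  have hroot : ∀ i : ℕ, aeval (y ^ q ^ i) P = 0 := by
    intro i
    induction i with
    | zero => rw [pow_zero, pow_one]; exact minpoly.aeval k y
    | succ i ih => rw [pow_succ, pow_mul]; exact root_pow P hPE ih
  set d := P.natDegree with hd
  have hinj : Set.InjOn (fun i : ℕ => y ^ q ^ i) (Finset.range d : Set ℕ) := by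
    have hlt : ∀ i j : ℕ, i < j → j < d → y ^ q ^ i ≠ y ^ q ^ j := by
      intro i j hij hj heq
      have h3 : (y ^ q ^ (j - i)) ^ q ^ i = y ^ q ^ i := by
        rw [← pow_mul, ← pow_add, Nat.sub_add_cancel hij.le, heq]
      rw [hq, ← pow_mul l s i] at h3
      have h4 : j - i < (minpoly k y).natDegree := by
        rw [← hP, ← hd]
        omega
      exact orbit_ne hs E hEc hEx y h4 (by omega) (pow_inj (s * i) h3)
    intro i hi j hj hij
    rcases lt_trichotomy i j with h | h | h
    · exact absurd hij (hlt i j h (by simpa using hj))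
    · exact h
    · exact absurd hij.symm (hlt j i h (by simpa using hi))
  set R := (Finset.range d).image (fun i : ℕ => y ^ q ^ i) with hR
  have hRc : R.card = d := by rw [hR, Finset.card_image_of_injOn hinj, Finset.card_range]
  have hRroots : R.val = P.aroots C := by
    refine Multiset.eq_of_le_of_card_le (Finset.val_le_iff_val_subset.2 ?_) ?_
    · intro x hx
      rw [hR, Finset.mem_val, Finset.mem_image] at hx
      obtain ⟨i, _, rfl⟩ := hx
      exact (mem_aroots.2 ⟨hPm.ne_zero, hroot i⟩)
    · rw [Finset.card_val, hRc]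
      refine (card_roots' _).trans ?_
      rw [natDegree_map]
  have hsplit : (P.map (algebraMap k C)).Splits := by
    rw [splits_iff_card_roots, natDegree_map]
    change (P.aroots C).card = _
    rw [← hRroots, Finset.card_val, hRc]
  have hnorm := Algebra.norm_eq_prod_roots (K := k) (L := C) C (x := y) hsplit
  rw [hny, map_one, ← hP, ← hRroots] at hnorm
  have hprod : R.val.prod = y ^ ∑ i ∈ Finset.range d, q ^ i := by
    rw [← Finset.prod_pow_eq_pow_sum, Finset.prod_val, hR, Finset.prod_image hinj]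
    simp only [id_eq]
  rw [hprod, ← pow_mul] at hnorm
  have hfin : d * Module.finrank (IntermediateField.adjoin k {y}) C = n := by
    rw [hn, hd, hP, ← IntermediateField.adjoin.finrank hyint]
    exact Module.finrank_mul_finrank _ _ _
  have hdpos : 0 < d := minpoly.natDegree_pos hyint
  have hdiv : n / d = Module.finrank (IntermediateField.adjoin k {y}) C := by
    rw [← hfin, Nat.mul_div_cancel_left _ hdpos]
  have hgcd := h1 l s n d m hl hs hn0 ⟨_, hfin.symm⟩ hdvd
  have ho1 : orderOf y ∣ n / d * ∑ i ∈ Finset.range d, (l ^ s) ^ i := by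
    refine orderOf_dvd_of_pow_eq_one ?_
    rw [hdiv, mul_comm]
    exact hnorm.symm
  have ho2 : orderOf y ∣ m * (l ^ s - 1) := by
    refine orderOf_dvd_of_pow_eq_one ?_
    rw [pow_mul, hc, ← map_pow]
    have h4 : c ^ (l ^ s - 1) = 1 := by
      have h5 : c ^ (l ^ s - 1) * c = c := by
        rw [← pow_succ, Nat.sub_add_cancel (Nat.one_le_pow _ _ hl.pos)]
        exact hcE
      exact mul_right_cancel₀ hc0 (by rw [h5, one_mul])
    rw [h4, map_one]
  exact orderOf_dvd_iff_pow_eq_one.1 ((Nat.dvd_gcd ho1 ho2).trans hgcd)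

end CL
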