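import Pool.Agent.Lib.MP_defcf3_al.CL.Iface

/-!
Project CL (MP_defcf3_al), row Residue, (5.6): consequences of the unit property: irreducible and
separable reduction, delta is a unit, contents.
-/

open Polynomial

namespace CL

universe u

namespace Resid

variable {F : Type u} [Field F] {V : ValuationSubring F}

theorem res_zero_iff (a : V) : IsLocalRing.residue V a = 0 ↔ V.valuation (a : F) < 1 := by
  rw [IsLocalRing.residue_eq_zero_iff, V.valuation_lt_one_iff]

theorem coV_map (B : Polynomial V) : CoV V (B.map (algebraMap V F)) := by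
  intro i
  rw [coeff_map]
  exact (B.coeff i).2

theorem coM_map_iff (B : Polynomial V) :
    CoM V (B.map (algebraMap V F)) ↔ B.map (IsLocalRing.residue V) = 0 := by
  constructor
  · intro h
    ext i
    rw [coeff_map, coeff_zero, res_zero_iff]
    have := h i
    rw [coeff_map] at this
    exact this
  · intro h i
    rw [coeff_map]
    have := congrArg (fun Q => Q.coeff i) h
    simp only [coeff_map, coeff_zero] at this
    exact (res_zero_iff _).1 this

theorem exists_lift {A : F[X]} (hA : CoV V A) (hm : A.Monic) :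
    ∃ B : Polynomial V, B.map (algebraMap V F) = A ∧ B.natDegree = A.natDegree ∧ B.Monic := by
  refine lifts_and_natDegree_eq_and_monic ?_ hm
  rw [lifts_iff_coeff_lifts]
  intro i
  exact ⟨⟨A.coeff i, hA i⟩, rfl⟩

theorem perfect (l : ℕ) (hl : l.Prime) (hc : CharP F l) (hp : ∀ x : F, ∃ y : F, y ^ l = x) :
    PerfectField (IsLocalRing.ResidueField V) := by
  have : Fact l.Prime := ⟨hl⟩
  have h0 : ((l : ℕ) : IsLocalRing.ResidueField V) = 0 := by
    have h1 : ((l : ℕ) : V) = 0 := by
      apply Subtype.ext
      have h2 : ((l : ℕ) : F) = 0 := CharP.cast_eq_zero F l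
      simpa using h2
    have h2 := congrArg (IsLocalRing.residue V) h1
    rwa [map_natCast, map_zero] at h2
  have hc' : CharP (IsLocalRing.ResidueField V) l := (CharP.charP_iff_prime_eq_zero hl).2 h0
  have : ExpChar (IsLocalRing.ResidueField V) l := ExpChar.prime hl
  have hs : Function.Surjective (frobenius (IsLocalRing.ResidueField V) l) := by
    intro x
    obtain ⟨a, rfl⟩ := IsLocalRing.residue_surjective x
    obtain ⟨y, hy⟩ := hp (a : F)
    have hyV : y ∈ V := by
      rw [← V.valuation_le_one_iff]
      by_contra h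
      push Not at h
      have h1 : 1 < V.valuation (y ^ l) := by
        rw [map_pow]
        exact one_lt_pow' h hl.ne_zero
      rw [hy] at h1
      exact absurd ((V.valuation_le_one_iff _).2 a.2) (not_le.2 h1)
    refine ⟨IsLocalRing.residue V ⟨y, hyV⟩, ?_⟩
    rw [frobenius_def, ← map_pow]
    congr 1
    exact Subtype.ext hy
  have : PerfectRing (IsLocalRing.ResidueField V) l := PerfectRing.ofSurjective _ l hs
  exact PerfectRing.toPerfectField _ l

end Resid

open Resid

theorem residue_proof (h1 : IntegStatement.{u}) (h2 : EulerStatement.{u}) :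
    ResidueStatement.{u} := by
  intro F K _ _ _ _ q l ρ W hg hl hc hp hP hU
  obtain ⟨-, -, -, i4, i5, -, i7, -⟩ := h1 F K ρ hg W hP
  obtain ⟨-, -, -, e4, e5, -, e7⟩ := h2 F K ρ hg
  have hn2 := hg.two
  have hmon : (minpoly F ρ).Monic := minpoly.monic hg.int
  have hone : (1 : K) ∉ MB W ρ := by
    intro h
    rw [← map_one (algebraMap F K), i7] at h
    rw [map_one] at h
    exact lt_irrefl _ h
  have hprime : ∀ x ∈ BB W ρ, ∀ y ∈ BB W ρ, x * y ∈ MB W ρ → x ∈ MB W ρ ∨ y ∈ MB W ρ := by
    intro x hx y hy hxy
    by_cases h : x ∈ MB W ρ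
    · exact Or.inl h
    · right
      have hx0 : x ≠ 0 := by
        rintro rfl
        exact h (MB W ρ).zero_mem
      have h3 := BB_mul_MB (hU x hx h) hxy
      rwa [← mul_assoc, inv_mul_cancel₀ hx0, one_mul] at h3
  obtain ⟨P, hPm, hPd, hPmon⟩ := exists_lift hP hmon
  have hnd : (P.map (IsLocalRing.residue W)).natDegree = nn F ρ := by
    rw [hPmon.natDegree_map, hPd]; rfl
  have hPbm : (P.map (IsLocalRing.residue W)).Monic := hPmon.map _
  have hirr : Irreducible (P.map (IsLocalRing.residue W)) := by
    rw [hPbm.irreducible_iff_natDegree]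
    refine ⟨?_, ?_⟩
    · intro h
      rw [h, natDegree_one] at hnd
      omega
    · intro f g hf hg' hfg
      by_contra hcon
      push Not at hcon
      obtain ⟨hf0, hg0⟩ := hcon
      have hdeg : f.natDegree + g.natDegree = nn F ρ := by
        rw [← hnd, ← hfg, hf.natDegree_mul hg']
      obtain ⟨f', hf1, hf2, hf3⟩ := lifts_and_natDegree_eq_and_monic
        (mem_lifts_of_surjective IsLocalRing.residue_surjective f) hf
      obtain ⟨g', hg1, hg2, hg3⟩ := lifts_and_natDegree_eq_and_monic
        (mem_lifts_of_surjective IsLocalRing.residue_surjective g) hg'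
      have key : ∀ B : Polynomial W, B.Monic → B.natDegree < nn F ρ →
          aeval ρ (B.map (algebraMap W F)) ∉ MB W ρ := by
        intro B hB hBd hmem
        rw [i5 _ (by rw [hB.natDegree_map]; exact hBd)] at hmem
        have h3 := hmem B.natDegree
        rw [coeff_map, hB.coeff_natDegree, map_one, map_one] at h3
        exact lt_irrefl _ h3
      have hx : aeval ρ (f'.map (algebraMap W F)) ∈ BB W ρ := ⟨_, coV_map f', rfl⟩
      have hy : aeval ρ (g'.map (algebraMap W F)) ∈ BB W ρ := ⟨_, coV_map g', rfl⟩
      have hxy : aeval ρ (f'.map (algebraMap W F)) * aeval ρ (g'.map (algebraMap W F)) ∈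
          MB W ρ := by
        refine ⟨(f' * g' - P).map (algebraMap W F), ?_, ?_⟩
        · rw [coM_map_iff, Polynomial.map_sub, Polynomial.map_mul, hf1, hg1, hfg, sub_self]
        · rw [Polynomial.map_sub, Polynomial.map_mul, hPm, map_sub, minpoly.aeval, sub_zero,
            map_mul]
      rcases hprime _ hx _ hy hxy with h | h
      · exact key f' hf3 (by omega) h
      · exact key g' hg3 (by omega) h
  have hpf : PerfectField (IsLocalRing.ResidueField W) := perfect l hl hc hp
  have hsep : (P.map (IsLocalRing.residue W)).Separable :=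
    PerfectField.separable_of_irreducible hirr
  -- the derivative
  have hD : aeval ρ (derivative (minpoly F ρ)) ∈ BB W ρ := by
    refine ⟨derivative (minpoly F ρ), ?_, rfl⟩
    rw [← hPm, derivative_map]
    exact coV_map _
  have hD2 : aeval ρ (derivative (minpoly F ρ)) ∉ MB W ρ := by
    intro hmem
    have hlt : (derivative (minpoly F ρ)).natDegree < nn F ρ :=
      natDegree_derivative_lt (by
        have : (minpoly F ρ).natDegree = nn F ρ := rfl
        omega)
    rw [i5 _ hlt, ← hPm, derivative_map, coM_map_iff, ← derivative_map] at hmem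
    exact (separable_iff_derivative_ne_zero hirr).1 hsep hmem
  have hD0 : aeval ρ (derivative (minpoly F ρ)) ≠ 0 := by
    intro h
    rw [h] at hD2
    exact hD2 (MB W ρ).zero_mem
  have hdB : dl F ρ ∈ BB W ρ := hU _ hD hD2
  refine ⟨hdB, ?_, ?_, hone, hprime, ⟨P, hPm, hirr, hsep⟩, ?_⟩
  · intro h
    apply hone
    have h3 := BB_mul_MB hD h
    unfold dl at h3
    rwa [mul_inv_cancel₀ hD0] at h3
  · intro x hx
    obtain ⟨A, hA, rfl⟩ := e7 x
    have hA0 : A ≠ 0 := by
      rintro rfl
      exact hx (by simp)
    obtain ⟨i, hi, hmax⟩ := Finset.exists_max_image A.support (fun i => W.valuation (A.coeff i))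
      (Polynomial.nonempty_support_iff.2 hA0)
    have hc0 : A.coeff i ≠ 0 := mem_support_iff.1 hi
    refine ⟨A.coeff i, hc0, aeval ρ (C (A.coeff i)⁻¹ * A), ⟨_, ?_, rfl⟩, ?_, ?_⟩
    · intro j
      rw [coeff_C_mul, ← W.valuation_le_one_iff, map_mul, map_inv₀]
      by_cases hj : A.coeff j = 0
      · rw [hj, map_zero, mul_zero]; exact zero_le_one
      · have h3 := hmax j (mem_support_iff.2 hj)
        have h4 : W.valuation (A.coeff i) ≠ 0 := by
          rw [Ne, map_eq_zero]; exact hc0
        calc (W.valuation (A.coeff i))⁻¹ * W.valuation (A.coeff j)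
            ≤ (W.valuation (A.coeff i))⁻¹ * W.valuation (A.coeff i) := by gcongr
          _ = 1 := inv_mul_cancel₀ h4
    · intro hmem
      have hlt : (C (A.coeff i)⁻¹ * A).natDegree < nn F ρ :=
        lt_of_le_of_lt (natDegree_C_mul_le _ _) hA
      rw [i5 _ hlt] at hmem
      have h3 := hmem i
      rw [coeff_C_mul, inv_mul_cancel₀ hc0, map_one] at h3
      exact lt_irrefl _ h3
    · rw [map_mul, aeval_C, Algebra.smul_def, ← mul_assoc, ← map_mul, mul_inv_cancel₀ hc0,
        map_one, one_mul]
  · intro hq
    refine ⟨P, hPm, hirr, ?_⟩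
    intro i
    rw [← sub_eq_zero, ← map_pow, ← map_sub, res_zero_iff]
    have h3 := hq i
    rw [← hPm, coeff_map] at h3
    exact h3

end CL
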