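import Pool.Agent.Lib.MP_defcf3_al.CL.Iface

/-!
Project CL (MP_defcf3_al), module RingA: (4.1) and (4.3) for the valuation rings which contain the ring A.
-/

open Polynomial

namespace CL

universe u

namespace H42

variable {F : Type*} [Field F]

theorem coV_eval {V : ValuationSubring F} {A : F[X]} (hA : CoV V A) {v : F} (hv : v ∈ V) : A.eval v ∈ V := by
  rw [eval_eq_sum_range]
  exact V.toSubring.sum_mem fun i _ => V.mul_mem _ _ (hA i) (pow_mem hv i)

theorem val_le_of_mul_inv {V : ValuationSubring F} {x y : F} (hy : y ≠ 0) (h : x * y⁻¹ ∈ V) :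
    V.valuation x ≤ V.valuation y := by
  have h1 : V.valuation (x * y⁻¹) ≤ 1 := (V.valuation_le_one_iff _).2 h
  have h2 : x = (x * y⁻¹) * y := by
    rw [mul_assoc, inv_mul_cancel₀ hy, mul_one]
  calc V.valuation x = V.valuation (x * y⁻¹) * V.valuation y := by rw [← Valuation.map_mul, ← h2]
    _ ≤ 1 * V.valuation y := by gcongr
    _ = V.valuation y := one_mul _

end H42

theorem ringa_proof (h1 : CalcStatement.{u}) (h2 : TwistStatement.{u}) (h3 : SpecialStatement.{u})
    (h4 : CoefStatement.{u}) (h5 : EulerStatement.{u}) : RingAStatement.{u} := by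
  intro F K _ _ _ _ l p e N ρ hd
  obtain ⟨-, -, -, -, -, -, -, -, -, -, -, -, hMq, -⟩ := h1 F K l p e N ρ hd
  obtain ⟨-, hT2, -, -, -, -, hT7, hT8, hT9, -, -, -⟩ := h2 F K l p e N ρ hd
  obtain ⟨-, hS2, -⟩ := h3 F K l p e N ρ hd
  obtain ⟨-, hE2, -⟩ := h5 F K ρ hd.gen
  have : Fact l.Prime := ⟨hd.lpr⟩
  have : CharP F l := hd.chr
  have hM : MM F N ⊆ (AA F N ρ : Set F) := fun x hx => Subring.subset_closure (Or.inl (Or.inl hx))
  have hi : ∀ s : F, ((minpoly F ρ).eval s)⁻¹ ∈ AA F N ρ := fun s =>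
    Subring.subset_closure (Or.inl (Or.inr ⟨s, rfl⟩))
  have hs : ∀ s : F, s * ((minpoly F ρ).eval s)⁻¹ ∈ AA F N ρ := fun s =>
    Subring.subset_closure (Or.inr ⟨s, rfl⟩)
  have hP0 : ∀ s : F, (minpoly F ρ).eval s ≠ 0 := fun s => (hE2 s).1
  have hev : ∀ s : F, (tw (l ^ e) (minpoly F ρ)).eval (s ^ l ^ e) = ((minpoly F ρ).eval s) ^ l ^ e := by
    intro s
    have := hT9 (minpoly F ρ) s 1
    simpa only [pow_one] using this
  have hS1 : ∀ s : F, (tw (l ^ e) (minpoly F ρ)).eval s ≠ 0 ∧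
      (minpoly F ρ).eval s / (tw (l ^ e) (minpoly F ρ)).eval s ∈ MM F N ∧
      (tw (l ^ e) (minpoly F ρ)).eval s / (minpoly F ρ).eval s ∈ MM F N := by
    intro s
    have := hS2 s 1
    simpa only [pow_one] using this
  have hfwd : AA F N ρ ≤ (AA F N ρ).comap (iterateFrobenius F l e) := by
    refine Subring.closure_le.2 ?_
    rintro x ((hx | ⟨s, rfl⟩) | ⟨s, rfl⟩)
    · change iterateFrobenius F l e x ∈ AA F N ρ
      rw [iterateFrobenius_def]
      exact hM ((hMq x).1 hx)
    · change iterateFrobenius F l e _ ∈ AA F N ρ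
      rw [iterateFrobenius_def, inv_pow, ← hev s]
      have e1 : ((tw (l ^ e) (minpoly F ρ)).eval (s ^ l ^ e))⁻¹ =
          (minpoly F ρ).eval (s ^ l ^ e) / (tw (l ^ e) (minpoly F ρ)).eval (s ^ l ^ e) *
            ((minpoly F ρ).eval (s ^ l ^ e))⁻¹ := by
        have a1 := hP0 (s ^ l ^ e)
        have a2 := (hS1 (s ^ l ^ e)).1
        field_simp
      rw [e1]
      exact Subring.mul_mem _ (hM (hS1 _).2.1) (hi _)
    · change iterateFrobenius F l e _ ∈ AA F N ρ
      rw [iterateFrobenius_def, mul_pow, inv_pow, ← hev s]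
      have e1 : s ^ l ^ e * ((tw (l ^ e) (minpoly F ρ)).eval (s ^ l ^ e))⁻¹ =
          (minpoly F ρ).eval (s ^ l ^ e) / (tw (l ^ e) (minpoly F ρ)).eval (s ^ l ^ e) *
            (s ^ l ^ e * ((minpoly F ρ).eval (s ^ l ^ e))⁻¹) := by
        have a1 := hP0 (s ^ l ^ e)
        have a2 := (hS1 (s ^ l ^ e)).1
        field_simp
      rw [e1]
      exact Subring.mul_mem _ (hM (hS1 _).2.1) (hs _)
  have hkey : ∀ s : F, ∃ t m : F, m ∈ MM F N ∧ t ^ l ^ e = s ∧
      ((minpoly F ρ).eval s)⁻¹ = (m * ((minpoly F ρ).eval t)⁻¹) ^ l ^ e := by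
    intro s
    obtain ⟨t, ht⟩ := hT7 s
    obtain ⟨m, hm⟩ := hT7 ((tw (l ^ e) (minpoly F ρ)).eval s / (minpoly F ρ).eval s)
    refine ⟨t, m, (hMq m).2 (by rw [hm]; exact (hS1 s).2.2), ht, ?_⟩
    rw [mul_pow, hm, inv_pow, ← hev t, ht]
    have a1 := hP0 s
    have a2 := (hS1 s).1
    field_simp
  have hbwd : AA F N ρ ≤ (AA F N ρ).map (iterateFrobenius F l e) := by
    refine Subring.closure_le.2 ?_
    rintro x ((hx | ⟨s, rfl⟩) | ⟨s, rfl⟩)
    · obtain ⟨y, rfl⟩ := hT7 x
      refine ⟨y, hM ((hMq y).2 hx), ?_⟩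
      exact iterateFrobenius_def ..
    · obtain ⟨t, m, hm, -, hst⟩ := hkey s
      refine ⟨m * ((minpoly F ρ).eval t)⁻¹, Subring.mul_mem _ (hM hm) (hi t), ?_⟩
      exact (iterateFrobenius_def ..).trans hst.symm
    · obtain ⟨t, m, hm, hts, hst⟩ := hkey s
      refine ⟨m * (t * ((minpoly F ρ).eval t)⁻¹), Subring.mul_mem _ (hM hm) (hs t), ?_⟩
      refine (iterateFrobenius_def ..).trans ?_
      rw [hst, ← hts]
      ring
  refine ⟨fun a => ⟨fun ha => ?_, fun ha => ?_⟩, fun V hV => ?_⟩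
  · have := hfwd ha
    rw [Subring.mem_comap, iterateFrobenius_def] at this
    exact this
  · obtain ⟨y, hy, hya⟩ := hbwd ha
    have hya' : iterateFrobenius F l e y = iterateFrobenius F l e a := by
      rw [iterateFrobenius_def l e a]
      exact hya
    have := (iterateFrobenius F l e).injective hya'
    rw [← this]
    exact hy
  · have hMV : ∀ x ∈ MM F N, x ∈ V := fun x hx => hV (hM hx)
    have hge : ∀ s : F, 1 ≤ V.valuation ((minpoly F ρ).eval s) ∧
        V.valuation s ≤ V.valuation ((minpoly F ρ).eval s) := by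
      intro s
      refine ⟨?_, H42.val_le_of_mul_inv (hP0 s) (hV (hs s))⟩
      have := H42.val_le_of_mul_inv (V := V) (x := 1) (hP0 s) (by rw [one_mul]; exact hV (hi s))
      rwa [Valuation.map_one] at this
    have heq : ∀ (m : ℕ) (s : F), V.valuation ((tw ((l ^ e) ^ m) (minpoly F ρ)).eval s) =
        V.valuation ((minpoly F ρ).eval s) := by
      intro m s
      obtain ⟨b0, b1, b2⟩ := hS2 s m
      refine le_antisymm (H42.val_le_of_mul_inv (hP0 s) ?_) (H42.val_le_of_mul_inv b0 ?_)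
      · rw [← div_eq_mul_inv]
        exact hMV _ b2
      · rw [← div_eq_mul_inv]
        exact hMV _ b1
    have hq2 : 2 ≤ l ^ e := by
      calc 2 ≤ l := hd.lpr.two_le
        _ = l ^ 1 := (pow_one l).symm
        _ ≤ l ^ e := Nat.pow_le_pow_right hd.lpr.pos hd.epos
    have hco : CoV V (minpoly F ρ) := by
      refine h4 F V (l ^ e) (minpoly F ρ) hq2 hT7 (minpoly.monic hd.gen.int) ?_ hge ?_ heq
      · exact le_trans (by norm_num) hd.gen.two
      · intro m s
        exact hT9 (minpoly F ρ) s m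
    have hone : ∀ v ∈ V, V.valuation ((minpoly F ρ).eval v) = 1 := by
      intro v hv
      exact le_antisymm ((V.valuation_le_one_iff _).2 (H42.coV_eval hco hv)) (hge v).1
    refine ⟨hco, hone, ?_, ?_⟩
    · intro i
      rw [hT2]
      have h8 := hT8 (minpoly F ρ) i 1
      rw [pow_one] at h8
      rw [h8]
      exact pow_mem (hco i) _
    · intro v hv
      rw [hT2]
      have h9 := heq 1 v
      rw [pow_one] at h9
      rw [h9]
      exact hone v hv

end CL
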