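import Pool.Agent.Lib.MP_defcf3_al.CL.Iface

/-!
Project CL (MP_defcf3_al): (7.2) in V[rho], by reduction of the norm modulo the maximal ideal.
-/

open Polynomial

namespace CL

namespace Rt

universe u

/-- The matrix of multiplication by A modulo P. -/
noncomputable def mat {R : Type*} [CommRing R] (n : ℕ) (P A : R[X]) : Matrix (Fin n) (Fin n) R :=
  Matrix.of fun i j => ((A * X ^ (j : ℕ)) %ₘ P).coeff i

theorem mat_map {R S : Type*} [CommRing R] [CommRing S] (f : R →+* S) (n : ℕ) {P : R[X]} (hP : P.Monic)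
    (A : R[X]) : (mat n P A).map f = mat n (P.map f) (A.map f) := by
  ext i j
  simp only [mat, Matrix.map_apply, Matrix.of_apply]
  rw [← Polynomial.coeff_map, Polynomial.map_modByMonic _ hP]
  simp

theorem det_map {R S : Type*} [CommRing R] [CommRing S] (f : R →+* S) (n : ℕ) {P : R[X]} (hP : P.Monic)
    (A : R[X]) : f (mat n P A).det = (mat n (P.map f) (A.map f)).det := by
  rw [← mat_map f n hP A, RingHom.map_det]
  rfl

theorem norm_pb {F K : Type*} [Field F] [Field K] [Algebra F K] (pb : PowerBasis F K) (A : F[X]) :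
    Algebra.norm F (aeval pb.gen A) = (mat pb.dim (minpoly F pb.gen) A).det := by
  rw [Algebra.norm_eq_matrix_det pb.basis]
  congr 1
  ext i j
  have hm : (minpoly F pb.gen).Monic := minpoly.monic pb.isIntegral_gen
  rw [Algebra.leftMulMatrix_eq_repr_mul, mat, Matrix.of_apply, pb.basis_eq_pow]
  have h1 : aeval pb.gen A * pb.gen ^ (j : ℕ) =
      ∑ k : Fin pb.dim, ((A * X ^ (j : ℕ)) %ₘ minpoly F pb.gen).coeff k • pb.basis k := by
    have h2 : aeval pb.gen ((A * X ^ (j : ℕ)) %ₘ minpoly F pb.gen) = aeval pb.gen A * pb.gen ^ (j : ℕ) := by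
      rw [Polynomial.aeval_modByMonic_eq_self_of_root (minpoly.aeval F pb.gen)]
      simp
    have h3 : ((A * X ^ (j : ℕ)) %ₘ minpoly F pb.gen).natDegree < pb.dim := by
      have h4 := Polynomial.natDegree_modByMonic_lt (A * X ^ (j : ℕ)) hm
        (fun h => by
          have := pb.natDegree_minpoly
          rw [h, natDegree_one] at this
          have hj := j.2
          omega)
      rwa [pb.natDegree_minpoly] at h4
    rw [← h2, Polynomial.aeval_eq_sum_range' h3, Finset.sum_range]
    simp [pb.basis_eq_pow]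
  rw [h1, Module.Basis.repr_sum_self]

/-- lift a polynomial with coefficients in W -/
theorem exists_lift {F : Type*} [Field F] {W : ValuationSubring F} {A : F[X]} (hA : CoV W A) :
    ∃ B : W[X], B.map (algebraMap W F) = A := by
  have h : A ∈ Polynomial.lifts (algebraMap W F) := by
    rw [Polynomial.lifts_iff_coeff_lifts]
    intro i
    exact ⟨⟨A.coeff i, hA i⟩, rfl⟩
  exact (Polynomial.mem_lifts A).1 h

theorem map_inj {F : Type*} [Field F] {W : ValuationSubring F} {A B : W[X]}
    (h : A.map (algebraMap W F) = B.map (algebraMap W F)) : A = B :=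
  Polynomial.map_injective _ (IsFractionRing.injective W F) h

/-- coefficients in the maximal ideal reduce to zero -/
theorem com_iff {F : Type*} [Field F] {W : ValuationSubring F} (B : W[X]) :
    CoM W (B.map (algebraMap W F)) ↔ B.map (IsLocalRing.residue W) = 0 := by
  constructor
  · intro h
    ext i
    rw [coeff_map, coeff_zero, IsLocalRing.residue_eq_zero_iff]
    have h1 := h i
    rw [coeff_map] at h1
    exact (W.valuation_lt_one_iff _).2 h1
  · intro h i
    have h1 : (B.map (IsLocalRing.residue W)).coeff i = 0 := by rw [h, coeff_zero]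
    rw [coeff_map, IsLocalRing.residue_eq_zero_iff] at h1
    rw [coeff_map]
    exact (W.valuation_lt_one_iff _).1 h1

theorem root_proof (hRR : ResRootStatement.{u}) (hRes : ResidueStatement.{u}) : RootStatement.{u} := by
  intro F K _ _ _ _ l m ρ W hG hl hchar hperf hP hU hm hdvd y hy hnorm hc
  obtain ⟨-, -, -, -, -, ⟨P, hPm, hPirr, -⟩, -⟩ := hRes F K 0 l ρ W hG hl hchar hperf hP hU
  have hmon : P.Monic := by
    have h1 := minpoly.monic hG.int
    rw [← hPm] at h1
    exact Polynomial.monic_of_injective (IsFractionRing.injective W F) h1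
  have hdeg : P.natDegree = nn F ρ := by
    rw [nn, ← hPm, hmon.natDegree_map]
  -- the residue field and its extension
  set k := IsLocalRing.ResidueField W with hk
  set Pb : k[X] := P.map (IsLocalRing.residue W) with hPb
  have hmonb : Pb.Monic := hmon.map _
  haveI : Fact (Irreducible Pb) := ⟨hPirr⟩
  have hdegb : Pb.natDegree = nn F ρ := by rw [hPb, hmon.natDegree_map, hdeg]
  have hPb0 : Pb ≠ 0 := hPirr.ne_zero
  let pbC : PowerBasis k (AdjoinRoot Pb) := AdjoinRoot.powerBasis hPb0
  have hgenC : pbC.gen = AdjoinRoot.root Pb := AdjoinRoot.powerBasis_gen hPb0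
  have hdimC : pbC.dim = nn F ρ := by rw [AdjoinRoot.powerBasis_dim, hdegb]
  have hminC : minpoly k pbC.gen = Pb := by
    rw [hgenC, AdjoinRoot.minpoly_root hPb0, hmonb.leadingCoeff, inv_one, map_one, mul_one]
  haveI : FiniteDimensional k (AdjoinRoot Pb) := pbC.finite
  -- lift of y
  obtain ⟨A, hA, rfl⟩ := hy
  obtain ⟨B, rfl⟩ := exists_lift hA
  -- norm
  let pbK : PowerBasis F K := PowerBasis.ofAdjoinEqTop hG.int hG.top
  have hgenK : pbK.gen = ρ := PowerBasis.ofAdjoinEqTop_gen _ _
  have hdimK : pbK.dim = nn F ρ := PowerBasis.ofAdjoinEqTop_dim _ _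
  have hn1 : (mat (nn F ρ) P B).det = 1 := by
    apply IsFractionRing.injective W F
    rw [map_one, det_map (algebraMap W F) _ hmon, hPm]
    have h1 := norm_pb pbK (B.map (algebraMap W F))
    rw [hgenK, hdimK, hnorm] at h1
    exact h1.symm
  set yb : AdjoinRoot Pb := aeval (AdjoinRoot.root Pb) (B.map (IsLocalRing.residue W)) with hyb
  have hn2 : Algebra.norm k yb = 1 := by
    have h1 := norm_pb pbC (B.map (IsLocalRing.residue W))
    rw [hminC, hdimC, hgenC] at h1
    have h2 := det_map (IsLocalRing.residue W) (nn F ρ) hmon B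
    rw [hn1, map_one] at h2
    exact h1.trans h2.symm
  -- the power of y
  obtain ⟨c, hcW, hcm⟩ := hc
  obtain ⟨D, hD, hDe⟩ := hcm
  obtain ⟨D', rfl⟩ := exists_lift hD.coV
  rw [com_iff] at hD
  have hrel : P ∣ B ^ m - C (⟨c, hcW⟩ : W) - D' := by
    rw [← Polynomial.map_dvd_map (algebraMap W F) (IsFractionRing.injective W F) hmon, hPm]
    apply minpoly.dvd
    simp only [Polynomial.map_sub, Polynomial.map_pow, Polynomial.map_C, map_sub, map_pow, aeval_C]
    rw [hDe]
    exact sub_self _
  have hpow : yb ^ m = algebraMap k (AdjoinRoot Pb) (IsLocalRing.residue W ⟨c, hcW⟩) := by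
    have h1 := Polynomial.map_dvd (IsLocalRing.residue W) hrel
    rw [← hPb, Polynomial.map_sub, Polynomial.map_sub, hD, sub_zero, Polynomial.map_pow,
      Polynomial.map_C] at h1
    rw [← AdjoinRoot.mk_eq_zero] at h1
    rw [map_sub, map_pow, AdjoinRoot.mk_C, sub_eq_zero] at h1
    rw [hyb, AdjoinRoot.aeval_eq, h1]
    rfl
  -- the residue field is perfect of characteristic l
  have hchark : CharP k l := by
    rw [CharP.charP_iff_prime_eq_zero hl]
    have := hchar
    have h2 : (l : W) = 0 := by
      apply IsFractionRing.injective W F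
      rw [map_zero, map_natCast]
      exact CharP.cast_eq_zero F l
    have h3 : (IsLocalRing.residue W) (l : W) = 0 := by rw [h2, map_zero]
    rwa [map_natCast] at h3
  have hperfk : ∀ x : k, ∃ z : k, z ^ l = x := by
    intro x
    obtain ⟨w, rfl⟩ := IsLocalRing.residue_surjective x
    obtain ⟨v, hv⟩ := hperf (w : F)
    have hvW : v ∈ W := by
      rw [← W.valuation_le_one_iff]
      have h1 : W.valuation v ^ l ≤ 1 := by
        rw [← map_pow, hv]
        exact (W.valuation_le_one_iff _).2 w.2
      exact (pow_le_one_iff_of_nonneg (zero_le) hl.ne_zero).1 h1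
    refine ⟨IsLocalRing.residue W ⟨v, hvW⟩, ?_⟩
    rw [← map_pow]
    congr 1
    apply Subtype.ext
    simpa using hv
  have hfin : Module.finrank k (AdjoinRoot Pb) = nn F ρ := by rw [pbC.finrank, hdimC]
  have hone : yb ^ m = 1 := hRR k (AdjoinRoot Pb) l m hl hchark hperfk hm (by rwa [hfin]) yb hn2
    ⟨_, hpow⟩
  -- back to V[rho]
  have hdv : Pb ∣ (B.map (IsLocalRing.residue W)) ^ m - 1 := by
    rw [← AdjoinRoot.mk_eq_zero, map_sub, map_pow, map_one, sub_eq_zero, ← AdjoinRoot.aeval_eq]
    exact hone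
  obtain ⟨Q, hQ⟩ := hdv
  obtain ⟨Q', rfl⟩ := Polynomial.map_surjective _ IsLocalRing.residue_surjective Q
  refine ⟨(B ^ m - 1 - P * Q').map (algebraMap W F), ?_, ?_⟩
  · rw [com_iff]
    simp only [Polynomial.map_sub, Polynomial.map_pow, Polynomial.map_mul, Polynomial.map_one]
    rw [← hPb, hQ, sub_self]
  · simp only [Polynomial.map_sub, Polynomial.map_pow, Polynomial.map_mul, Polynomial.map_one, hPm,
      map_sub, map_pow, map_mul, map_one, minpoly.aeval, zero_mul, sub_zero]

end Rt

end CL
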