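import Pool.Agent.Lib.MP_defcf3_al.CL.Iface

/-!
Project CL (MP_defcf3_al), row SixOne: (6.1).
-/

open Polynomial

namespace CL

universe u

theorem sixone_proof (h1 : SpecialStatement.{u}) (h2 : PathStatement.{u}) (h3 : P2Statement.{u})
    (h4 : IntegStatement.{u}) (_h5 : DualStatement.{u}) (h6 : EulerStatement.{u})
    (h7 : TwistStatement.{u}) (h8 : RingAStatement.{u}) (_h9 : CalcStatement.{u}) :
    SixOneStatement.{u} := by
  intro F K _ _ _ _ l p e N ρ V hS
  have hD := hS.dat
  obtain ⟨hSp, -, h23⟩ := h1 F K l p e N ρ hD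
  obtain ⟨-, hP2⟩ := h3 F K l p e N ρ hD
  obtain ⟨hGR, hminR, hnR, -, hGdeg, -⟩ := h7 F K l p e N ρ hD
  obtain ⟨-, hRA⟩ := h8 F K l p e N ρ hD
  obtain ⟨hco, -, hcoR, hunR⟩ := hRA V hS.le
  have hunit := hS.unitR
  have hGM := hS.g
  have htwo := hGR.two
  set R := ρ ^ l ^ e with hRdef
  set G := GG F (l ^ e) ρ with hGdef
  obtain ⟨E1, E0, E2, hR0, hδ, -, -⟩ := h6 F K R hGR
  obtain ⟨-, I2, I3, -, I5, -, -, I8, -, -, -⟩ := h4 F K R hGR V hcoR
  rw [← hnR] at hGdeg
  set n := nn F R with hndef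
  set δ := dl F R with hδdef
  set P := minpoly F R with hPdef
  have hP0 : V.valuation (P.eval 0) = 1 := hunR 0 V.zero_mem
  have hP1 : V.valuation (P.eval 1) = 1 := hunR 1 V.one_mem
  have trpow : ∀ k < n - 1, tr F (δ * R ^ k) = 0 := by
    intro k hk
    have := E1 (X ^ k) (by rw [natDegree_X_pow]; omega)
    rw [map_pow, aeval_X, coeff_X_pow, if_neg (by omega)] at this
    exact this
  have trtop : tr F (δ * R ^ (n - 1)) = 1 := by
    have := E1 (X ^ (n - 1)) (by rw [natDegree_X_pow]; omega)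
    rw [map_pow, aeval_X, coeff_X_pow, if_pos rfl] at this
    exact this
  have hRinv : R⁻¹ ∈ BB V R := by
    have := I8 0 V.zero_mem hP0
    rwa [map_zero, sub_zero] at this
  have hR1 : R - algebraMap F K 1 ≠ 0 := (E0 1).2
  have hR1inv : (R - algebraMap F K 1)⁻¹ ∈ BB V R := I8 1 V.one_mem hP1
  -- G(R)
  set γ := aeval R G with hγdef
  have hGco : CoV V G := by
    rw [hGdef, GG, ← hminR]
    exact hcoR.sub hco
  have hγB : γ ∈ BB V R := ⟨G, hGco, rfl⟩
  have hγM : γ ∉ MB V R := fun h => hGM ((I5 G hGdeg).1 h)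
  have hγinv : γ⁻¹ ∈ BB V R := hunit γ hγB hγM
  have hγ0 : γ ≠ 0 := by
    intro h
    apply hγM
    rw [h]
    exact (MB V R).zero_mem
  -- the special elements
  have ha0 : δ * γ / (R - algebraMap F K 0) ∈ Dp F N := (hSp 0).1
  have ha1 : δ * γ / (R - algebraMap F K 1) ∈ Dp F N := (hSp 1).1
  rw [map_zero, sub_zero] at ha0
  -- w
  set w := γ ^ 2 * (R⁻¹) ^ n with hwdef
  have hwB : w ∈ BB V R := (BB V R).mul_mem ((BB V R).pow_mem hγB 2) ((BB V R).pow_mem hRinv n)
  have hwM : w ∉ MB V R := by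
    intro h
    apply hγM
    have h1 : (γ⁻¹ * R ^ n) * w ∈ MB V R :=
      BB_mul_MB ((BB V R).mul_mem hγinv ((BB V R).pow_mem (gen_mem_BB V R) n)) h
    have h2 : (γ⁻¹ * R ^ n) * w = γ := by
      rw [hwdef, inv_pow]
      field_simp
    rwa [h2] at h1
  -- it is enough to work with R
  suffices hsuff : ∃ u : F, V.valuation u = 1 ∧ u • δ ∈ Dz F N by
    obtain ⟨u, hu, hud⟩ := hsuff
    exact ⟨u, hu, (h23 u).1.2 hud⟩
  by_cases hcase : ∃ i ≤ n - 2, V.valuation (tr F (δ * R ^ (n - 2 - i) * w)) = 1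
  · obtain ⟨i, hi, hval⟩ := hcase
    have hst : tr F (δ * R ^ (n - 2 - i) * w) • (δ * R ^ i) ∈ Dz F N := by
      have := hP2 _ ha0 _ ha0 (δ * R ^ i) (mul_ne_zero hδ (pow_ne_zero _ hR0))
        (trpow i (by omega))
      have e : δ * γ / R * (δ * γ / R) / (δ * R ^ i) = δ * R ^ (n - 2 - i) * w := by
        have hn : R ^ n = R ^ (n - 2 - i) * R ^ i * R ^ 2 := by
          rw [← pow_add, ← pow_add]; congr 1; omega
        rw [hwdef, inv_pow, hn]
        field_simp
      rw [e] at this
      exact this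
    obtain ⟨u, hu, hud⟩ := h2 F K R hGR V hP0 hP1 (Dz F N) (fun a ha => ha.2)
      (fun a ha b hb c hc htc => hP2 a ha.1 b hb.1 c hc htc)
      ⟨i, hi, tr F (δ * R ^ (n - 2 - i) * w), hval, hst⟩ 0 (by omega)
    rw [pow_zero, mul_one] at hud
    exact ⟨u, hu, hud⟩
  · push Not at hcase
    have hlt : ∀ j < n - 1, V.valuation (tr F (δ * R ^ j * w)) < 1 := by
      intro j hj
      have h1 : tr F (δ * R ^ j * w) ∈ V := (I2 w).1 hwB j (by omega)
      have h2 := hcase (n - 2 - j) (by omega)
      rw [show n - 2 - (n - 2 - j) = j by omega] at h2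
      exact lt_of_le_of_ne ((V.valuation_le_one_iff _).2 h1) h2
    set c := tr F (δ * R ^ (n - 1) * w) with hcdef
    have hcV : c ∈ V := (I2 w).1 hwB (n - 1) (by omega)
    have hc1 : V.valuation c = 1 := by
      by_contra hne
      apply hwM
      rw [I3]
      intro j hj
      rcases Nat.lt_or_ge j (n - 1) with h | h
      · exact hlt j h
      · rw [show j = n - 1 by omega]
        exact lt_of_le_of_ne ((V.valuation_le_one_iff _).2 hcV) hne
    have hwc : w - algebraMap F K c ∈ MB V R := by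
      rw [I3]
      intro j hj
      have e : tr F (δ * R ^ j * (w - algebraMap F K c)) =
          tr F (δ * R ^ j * w) - c * tr F (δ * R ^ j) := by
        have : δ * R ^ j * (w - algebraMap F K c) = δ * R ^ j * w - c • (δ * R ^ j) := by
          rw [Algebra.smul_def]; ring
        rw [this]
        simp [tr]
      rw [e]
      rcases Nat.lt_or_ge j (n - 1) with h | h
      · rw [trpow j h, mul_zero, sub_zero]
        exact hlt j h
      · rw [show j = n - 1 by omega, trtop, mul_one, ← hcdef, sub_self, map_zero]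
        exact zero_lt_one
    -- the trace
    set y := (R - algebraMap F K 1)⁻¹ * R ^ (n - 1) with hydef
    have hyB : y ∈ BB V R :=
      (BB V R).mul_mem hR1inv ((BB V R).pow_mem (gen_mem_BB V R) (n - 1))
    have hy1 : tr F (δ * y) = -(P.eval 1)⁻¹ := by
      have := E2 (X ^ (n - 1)) (by rw [natDegree_X_pow]; omega) 1
      rw [map_pow, aeval_X, eval_pow, eval_X, one_pow, one_div] at this
      rw [← this, hydef]
      congr 1
      rw [div_eq_mul_inv]
      ring
    have hsplit : tr F (δ * γ / R * (δ * γ / (R - algebraMap F K 1)) / δ) =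
        -c * (P.eval 1)⁻¹ + tr F (δ * (y * (w - algebraMap F K c))) := by
      have e : δ * γ / R * (δ * γ / (R - algebraMap F K 1)) / δ =
          c • (δ * y) + δ * (y * (w - algebraMap F K c)) := by
        have hn : R ^ n = R ^ (n - 1) * R := by rw [← pow_succ]; congr 1; omega
        rw [Algebra.smul_def, hydef, hwdef, inv_pow, hn]
        field_simp
        ring
      rw [e]
      have : tr F (c • (δ * y) + δ * (y * (w - algebraMap F K c))) =
          c * tr F (δ * y) + tr F (δ * (y * (w - algebraMap F K c))) := by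
        simp [tr]
      rw [this, hy1]
      ring
    have hsmall : V.valuation (tr F (δ * (y * (w - algebraMap F K c)))) < 1 := by
      have := (I3 _).1 (BB_mul_MB hyB hwc) 0 (by omega)
      rwa [pow_zero, mul_one] at this
    have hbig : V.valuation (-c * (P.eval 1)⁻¹) = 1 := by
      rw [map_mul, Valuation.map_neg, hc1, map_inv₀, hP1, inv_one, mul_one]
    have hval : V.valuation (tr F (δ * γ / R * (δ * γ / (R - algebraMap F K 1)) / δ)) = 1 := by
      rw [hsplit, Valuation.map_add_eq_of_lt_left _ (by rw [hbig]; exact hsmall), hbig]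
    have htδ : tr F δ = 0 := by
      have := trpow 0 (by omega)
      rwa [pow_zero, mul_one] at this
    exact ⟨_, hval, hP2 _ ha0 _ ha1 δ hδ htδ⟩

theorem sixOne_proof (h1 : SpecialStatement.{u}) (h2 : PathStatement.{u}) (h3 : P2Statement.{u})
    (h4 : IntegStatement.{u}) (h5 : DualStatement.{u}) (h6 : EulerStatement.{u})
    (h7 : TwistStatement.{u}) (h8 : RingAStatement.{u}) (h9 : CalcStatement.{u}) :
    SixOneStatement.{u} :=
  sixone_proof h1 h2 h3 h4 h5 h6 h7 h8 h9

end CL
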