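import Pool.Agent.Lib.MP_defcf3_al.CL.IfaceZ

/-!
Project CL (MP_defcf3_al), module SixThree: (6.3) from the version without G.
-/

open Polynomial

namespace CL

universe u

theorem sixthree_proof (h1 : SixThreeZStatement.{u}) (h2 : SpecialStatement.{u})
    (h3 : CalcStatement.{u}) (h4 : RingAStatement.{u}) (h5 : TwistStatement.{u}) :
    SixThreeStatement.{u} := by
  intro F K _ _ _ _ l p e N ρ V h6 hn hw
  have hD := h6.dat
  refine h1 F K l p e N ρ V ⟨hD, h6.le, h6.unit⟩ hn hw ?_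
  intro _
  obtain ⟨hsp, -, -⟩ := h2 F K l p e N ρ hD
  obtain ⟨-, -, -, hDzc, -⟩ := h3 F K l p e N ρ hD
  obtain ⟨-, hA⟩ := h4 F K l p e N ρ hD
  obtain ⟨hPV, hPu, hRV, hRu⟩ := hA V h6.le
  obtain ⟨-, htmin, -, -, hGdeg, -⟩ := h5 F K l p e N ρ hD
  obtain ⟨G, hG⟩ : ∃ G, G = GG F (l ^ e) ρ := ⟨_, rfl⟩
  have hGV : CoV V G := by
    rw [hG, GG, ← htmin]
    exact hRV.sub hPV
  have hGe : ∀ s : F, G.eval s = G.coeff 0 + G.coeff 1 * s := by
    intro s
    have hd : G.natDegree < 2 := by rw [hG, ← hn]; exact hGdeg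
    rw [eval_eq_sum_range' hd, Finset.sum_range_succ, Finset.sum_range_succ, Finset.sum_range_zero]
    ring
  have hGsub : ∀ s : F, G.eval s = (minpoly F (ρ ^ l ^ e)).eval s - (minpoly F ρ).eval s := by
    intro s
    rw [hG, GG, eval_sub, htmin]
  -- a point with unit value of G
  obtain ⟨t, htV, ht⟩ : ∃ t ∈ V, V.valuation (G.eval t) = 1 := by
    have hle : ∀ s ∈ V, V.valuation (G.eval s) ≤ 1 := by
      intro s hs
      rw [hGe, V.valuation_le_one_iff]
      exact V.add_mem _ _ (hGV 0) (V.mul_mem _ _ (hGV 1) hs)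
    by_contra hcon
    push Not at hcon
    have a0 : V.valuation (G.eval 0) < 1 := lt_of_le_of_ne (hle 0 V.zero_mem) (hcon 0 V.zero_mem)
    have a1 : V.valuation (G.eval 1) < 1 := lt_of_le_of_ne (hle 1 V.one_mem) (hcon 1 V.one_mem)
    apply h6.g
    rw [← hG]
    have b0 : V.valuation (G.coeff 0) < 1 := by
      rw [hGe, mul_zero, add_zero] at a0
      exact a0
    have b1 : V.valuation (G.coeff 1) < 1 := by
      have e : G.coeff 1 = G.eval 1 + -(G.coeff 0) := by rw [hGe]; ring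
      rw [e]
      exact val_lt_add a1 (by rw [Valuation.map_neg]; exact b0)
    intro i
    match i with
    | 0 => exact b0
    | 1 => exact b1
    | (k + 2) =>
      have hd : G.natDegree < k + 2 := by
        have : G.natDegree < nn F ρ := by
          rw [hG]
          exact hGdeg
        omega
      rw [coeff_eq_zero_of_natDegree_lt hd, map_zero]
      exact zero_lt_one
  obtain ⟨ha, hat⟩ := hsp t
  obtain ⟨a, hadef⟩ : ∃ a, a = dl F (ρ ^ l ^ e) * aeval (ρ ^ l ^ e) (GG F (l ^ e) ρ) /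
    (ρ ^ l ^ e - algebraMap F K t) := ⟨_, rfl⟩
  rw [← hadef] at ha hat
  have hPt := hPu t htV
  have hRt := hRu t htV
  have hR0 : (minpoly F (ρ ^ l ^ e)).eval t ≠ 0 := by
    intro h0
    rw [h0, map_zero] at hRt
    exact zero_ne_one hRt
  have htr : tr F a = -(G.eval t / (minpoly F (ρ ^ l ^ e)).eval t) := by
    rw [hGsub, sub_div, div_self hR0, ← hat]
    ring
  have htru : V.valuation (tr F a) = 1 := by
    rw [htr, Valuation.map_neg, map_div₀, ht, hRt, div_one]
  refine ⟨?_, a, ha, htru⟩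
  obtain ⟨x, hx, hxD⟩ := hw
  by_cases hxp : V.valuation (x + (minpoly F ρ).coeff 1) = 1
  · exact ⟨x, hx, hxD, hxp⟩
  · have hxV : x ∈ V := (V.valuation_le_one_iff _).1 hx.le
    have hlt : V.valuation (x + (minpoly F ρ).coeff 1) < 1 :=
      lt_of_le_of_ne ((V.valuation_le_one_iff _).2 (V.add_mem _ _ hxV (hPV 1))) hxp
    have hmu : V.valuation (1 + tr F a) = 1 := by
      rw [hat, map_div₀, hPt, hRt, div_one]
    refine ⟨(1 + tr F a) * x, ?_, ?_, ?_⟩
    · rw [map_mul, hmu, hx, one_mul]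
    · rw [mul_smul]
      exact (hDzc a ha _ hxD).1
    · have e1 : (1 + tr F a) * x + (minpoly F ρ).coeff 1 =
          (x + (minpoly F ρ).coeff 1) + tr F a * x := by ring
      have e2 : V.valuation (tr F a * x) = 1 := by rw [map_mul, htru, hx, one_mul]
      rw [e1, Valuation.map_add_eq_of_lt_right _ (by rw [e2]; exact hlt), e2]

end CL
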