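import Pool.Agent.Lib.MP_defcf3_al.CL.IfaceZ
import Pool.Agent.Lib.MP_defcf3_al.CL.NormRatio

/-!
Project CL (MP_defcf3_al), module SixThreeZ: (6.3) (ii) - (v) of the paper without G.
-/

open Polynomial

namespace CL

universe u

namespace H65T

section

variable {F K : Type u} [Field F] [Field K] [Algebra F K]

/-- the values of the minimal polynomial in degree two -/
theorem eval_two {g : K} (hg : Gen F g) (h2 : nn F g = 2) (s : F) :
    (minpoly F g).eval s = s ^ 2 + (minpoly F g).coeff 1 * s + (minpoly F g).coeff 0 := by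
  have h3 : (minpoly F g).natDegree = 2 := h2
  have h4 : (minpoly F g).coeff 2 = 1 := by
    have := (minpoly.monic hg.int).coeff_natDegree
    rwa [h3] at this
  rw [eval_eq_sum_range, h3, Finset.sum_range_succ, Finset.sum_range_succ, Finset.sum_range_succ,
    Finset.sum_range_zero, h4]
  ring

/-- the norm ratio of the transvection at 1 / (g - s) -/
theorem ratio [FiniteDimensional F K] (hE : EulerStatement.{u}) {g : K} (hg : Gen F g)
    (h2 : nn F g = 2) (y₀ y₁ s : F) :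
    Algebra.norm F ((g - algebraMap F K s)⁻¹ + algebraMap F K (tr F
      (dl F g * (algebraMap F K y₀ + algebraMap F K y₁ * g) * (g - algebraMap F K s)⁻¹))) /
      Algebra.norm F ((g - algebraMap F K s)⁻¹) =
    1 + (y₁ * s + y₀) * ((y₁ * s + y₀) + (minpoly F g).coeff 1 + 2 * s) *
      ((minpoly F g).eval s)⁻¹ := by
  obtain ⟨h1, hne, htr, -, -, hfin, -⟩ := hE F K g hg
  obtain ⟨hPs, hgs⟩ := hne s
  have hA : (C y₁ * X + C y₀ : F[X]).natDegree < nn F g := by
    rw [h2]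
    exact lt_of_le_of_lt (natDegree_linear_le) (by norm_num)
  have e0 : tr F (dl F g * (algebraMap F K y₀ + algebraMap F K y₁ * g) * (g - algebraMap F K s)⁻¹) =
      -((y₁ * s + y₀) / (minpoly F g).eval s) := by
    have := htr _ hA s
    simp only [map_add, map_mul, aeval_C, aeval_X, eval_add, eval_mul, eval_C, eval_X] at this
    rw [← this, ← div_eq_mul_inv, add_comm (algebraMap F K y₀)]
  obtain ⟨w, hw⟩ : ∃ w, w = y₁ * s + y₀ := ⟨_, rfl⟩
  rw [e0, ← hw]
  have e1 : (g - algebraMap F K s)⁻¹ + algebraMap F K (-(w / (minpoly F g).eval s)) =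
      (g - algebraMap F K s)⁻¹ * (algebraMap F K (1 + w / (minpoly F g).eval s * s) +
        algebraMap F K (-(w / (minpoly F g).eval s)) * g) := by
    simp only [map_add, map_neg, map_mul, map_one]
    field_simp
    ring
  rw [e1, map_mul, mul_div_cancel_left₀]
  · rw [H96.norm_two hg h1 hfin h2]
    have e5 : (minpoly F g).eval s * ((minpoly F g).eval s)⁻¹ = 1 := mul_inv_cancel₀ hPs
    have e6 := eval_two hg h2 s
    rw [div_eq_mul_inv]
    linear_combination (w ^ 2 * ((minpoly F g).eval s)⁻¹) * e5 -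
      (w ^ 2 * ((minpoly F g).eval s)⁻¹ ^ 2) * e6
  · exact Algebra.norm_ne_zero_iff.2 (inv_ne_zero hgs)

end

end H65T

open H65T in
theorem sixthreeZ_proof (h1 : NormRatioStatement.{u}) (h2 : EulerStatement.{u})
    (h3 : CalcStatement.{u}) (h4 : RingAStatement.{u}) (h5 : IntegStatement.{u}) :
    SixThreeZStatement.{u} := by
  intro F K _ _ _ _ l p e N ρ V h6 hn hw hl2
  have hD := h6.dat
  have hg := hD.gen
  obtain ⟨hE1, hEne, hEtr, hρ0, hδ0, hfin, hsurj⟩ := h2 F K ρ hg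
  obtain ⟨hDz0, hDzadd, hDzneg, hDzc, -, -, hM0, hM1, hMadd, hMmul, hMneg, hMtr, -, -⟩ :=
    h3 F K l p e N ρ hD
  obtain ⟨-, hA⟩ := h4 F K l p e N ρ hD
  obtain ⟨hPV, hPu, -, -⟩ := hA V h6.le
  have hNR := h1 F K l p e N ρ hD hn
  obtain ⟨p₁, hp₁⟩ : ∃ p₁, p₁ = (minpoly F ρ).coeff 1 := ⟨_, rfl⟩
  obtain ⟨p₀, hp₀⟩ : ∃ p₀, p₀ = (minpoly F ρ).coeff 0 := ⟨_, rfl⟩
  have hev : ∀ s, (minpoly F ρ).eval s = s ^ 2 + p₁ * s + p₀ := by
    intro s
    rw [eval_two hg hn s, hp₁, hp₀]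
  have hMV : ∀ c ∈ MM F N, c ∈ V := fun c hc =>
    h6.le (Subring.subset_closure (Or.inl (Or.inl hc)))
  have hchar : CharP F l := hD.chr
  -- (6.3)(i) for an element of Dp
  have key : ∀ y₀ y₁ : F, dl F ρ * (algebraMap F K y₀ + algebraMap F K y₁ * ρ) ∈ Dp F N → ∀ s : F,
      (y₁ * s + y₀) * ((y₁ * s + y₀) + p₁ + 2 * s) * ((minpoly F ρ).eval s)⁻¹ ∈ MM F N := by
    intro y₀ y₁ ha s
    have e := hNR _ ha ((ρ - algebraMap F K s)⁻¹) (inv_ne_zero (hEne s).2)
    rw [ratio h2 hg hn y₀ y₁ s, ← hp₁] at e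
    have e' := hMadd _ e _ (hMneg _ hM1)
    have e2 : 1 + (y₁ * s + y₀) * (y₁ * s + y₀ + p₁ + 2 * s) * ((minpoly F ρ).eval s)⁻¹ + -1 =
      (y₁ * s + y₀) * (y₁ * s + y₀ + p₁ + 2 * s) * ((minpoly F ρ).eval s)⁻¹ := by ring
    rwa [e2] at e'
  have keyz : ∀ x : F, x • dl F ρ ∈ Dz F N → ∀ s : F,
      x * (x + p₁ + 2 * s) * ((minpoly F ρ).eval s)⁻¹ ∈ MM F N := by
    intro x hx s
    have e := key x 0 (by
      have : dl F ρ * (algebraMap F K x + algebraMap F K 0 * ρ) = x • dl F ρ := by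
        rw [map_zero, zero_mul, add_zero, Algebra.smul_def, mul_comm]
      rw [this]
      exact hx.1) s
    simpa using e
  -- the end of the proof, (v)
  have fin : ∀ l0 k μ : F, V.valuation l0 = 1 → V.valuation k = 1 →
      (∀ s : F, l0 * ((minpoly F ρ).eval s)⁻¹ ∈ MM F N) →
      (∀ s : F, (k * s + μ) * ((minpoly F ρ).eval s)⁻¹ ∈ MM F N) →
      ∃ w0 w1 : F, V.valuation w0 = 1 ∧ V.valuation w1 = 1 ∧
      ∀ s : F, w0 * ((minpoly F ρ).eval s)⁻¹ ∈ MM F N ∧ w1 * (s * ((minpoly F ρ).eval s)⁻¹) ∈ MM F N := by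
    intro l0 k μ hl0 hk ha hb
    have hP0 : V.valuation ((minpoly F ρ).eval 0) = 1 := hPu 0 V.zero_mem
    refine ⟨l0, l0 * k * ((minpoly F ρ).eval 0)⁻¹, hl0, ?_, fun s => ⟨ha s, ?_⟩⟩
    · rw [map_mul, map_mul, map_inv₀, hl0, hk, hP0]
      simp
    · have e1 := hb 0
      rw [mul_zero, zero_add] at e1
      have e2 := hMmul _ e1 _ (ha s)
      have e3 := hMmul _ (ha 0) _ (hb s)
      have e4 := hMadd _ e3 _ (hMneg _ e2)
      have e5 : l0 * ((minpoly F ρ).eval 0)⁻¹ * ((k * s + μ) * ((minpoly F ρ).eval s)⁻¹) +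
          -(μ * ((minpoly F ρ).eval 0)⁻¹ * (l0 * ((minpoly F ρ).eval s)⁻¹)) =
          l0 * k * ((minpoly F ρ).eval 0)⁻¹ * (s * ((minpoly F ρ).eval s)⁻¹) := by ring
      rwa [e5] at e4
  by_cases hl : l = 2
  · -- characteristic two
    obtain ⟨⟨x, hx, hxD, hxp⟩, a, ha, hta⟩ := hl2 hl
    subst hl
    have h20 : (2 : F) = 0 := CharP.cast_eq_zero F 2
    obtain ⟨y₀, y₁, hy⟩ := H96.exists_coord hsurj hn ((dl F ρ)⁻¹ * a)
    have hay : a = dl F ρ * (algebraMap F K y₀ + algebraMap F K y₁ * ρ) := by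
      rw [← hy, ← mul_assoc, mul_inv_cancel₀ hδ0, one_mul]
    have hy1 : y₁ = tr F a := by
      rw [hay, H96.tr_coord hE1 hn]
    have hay' : dl F ρ * (algebraMap F K y₀ + algebraMap F K y₁ * ρ) ∈ Dp F N := by
      rw [← hay]; exact ha
    -- p1 is a unit
    have hp1V : p₁ ∈ V := by rw [hp₁]; exact hPV 1
    have hp0V : p₀ ∈ V := by rw [hp₀]; exact hPV 0
    have hp1 : V.valuation p₁ = 1 := by
      by_contra hne
      have hlt : V.valuation p₁ < 1 := lt_of_le_of_ne ((V.valuation_le_one_iff _).2 hp1V) hne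
      obtain ⟨hI1, -, -, -, hI5, -, hI7, -⟩ := h5 F K ρ hg V hPV
      obtain ⟨c, hc⟩ := hD.perf p₀
      have hcV : c ∈ V := by
        rw [← V.valuation_le_one_iff] at hp0V ⊢
        rw [← hc, map_pow] at hp0V
        by_contra hcon
        exact absurd hp0V (not_le.2 (one_lt_pow₀ (not_le.1 hcon) (by norm_num)))
      have hXc : aeval ρ (X + C c : F[X]) ∈ BB V ρ := ⟨X + C c, CoV.X.add (CoV.C hcV), rfl⟩
      have hXn : aeval ρ (X + C c : F[X]) ∉ MB V ρ := by
        intro hm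
        have := (hI5 (X + C c) (by rw [hn, natDegree_X_add_C]; norm_num)).1 hm 1
        rw [coeff_add, coeff_X_one, coeff_C_succ, add_zero, map_one] at this
        exact lt_irrefl _ this
      have hinv := h6.unit _ hXc hXn
      have hsq : (aeval ρ (X + C c : F[X])) ^ 2 = algebraMap F K (-p₁) * ρ := by
        have hr := H96.rel hg hn
        rw [← hp₁, ← hp₀] at hr
        have hc' : algebraMap F K c ^ 2 = algebraMap F K p₀ := by rw [← hc, map_pow]
        have h2K : (2 : K) = 0 := by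
          rw [← map_ofNat (algebraMap F K) 2, h20, map_zero]
        simp only [map_add, aeval_X, aeval_C, map_neg]
        linear_combination hr + hc' + (ρ * algebraMap F K c) * h2K
      have hMBsq : (aeval ρ (X + C c : F[X])) ^ 2 ∈ MB V ρ := by
        rw [hsq, mul_comm]
        exact BB_mul_MB (gen_mem_BB V ρ) (alg_mem_MB (by rw [Valuation.map_neg]; exact hlt))
      have hne0 : aeval ρ (X + C c : F[X]) ≠ 0 := by
        intro h0
        apply hXn
        rw [h0]
        exact (MB V ρ).zero_mem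
      have h1MB : (1 : K) ∈ MB V ρ := by
        have := BB_mul_MB (BB V ρ |>.mul_mem hinv hinv) hMBsq
        have e : (aeval ρ (X + C c : F[X]))⁻¹ * (aeval ρ (X + C c : F[X]))⁻¹ *
            (aeval ρ (X + C c : F[X])) ^ 2 = 1 := by
          field_simp
        rwa [e] at this
      have := (hI7 1).1 (by rw [map_one]; exact h1MB)
      rw [map_one] at this
      exact lt_irrefl _ this
    have hMt := hMtr a ha
    rw [← hy1] at hMt hta
    have hy1u : V.valuation (1 + y₁) = 1 := by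
      have a1 := (V.valuation_le_one_iff _).2 (hMV _ hMt.1)
      have a2 := (V.valuation_le_one_iff _).2 (hMV _ hMt.2)
      rw [map_inv₀] at a2
      have hne : V.valuation (1 + y₁) ≠ 0 := by
        rw [Valuation.ne_zero_iff]
        have := ha.1
        rwa [← hy1] at this
      refine le_antisymm a1 ?_
      have := mul_le_mul_right a2 (V.valuation (1 + y₁))
      rwa [mul_inv_cancel₀ hne, mul_one] at this
    refine fin (x * (x + p₁)) (p₁ * y₁ * (1 + y₁)) (y₀ ^ 2 + p₁ * y₀ - y₁ ^ 2 * p₀) ?_ ?_ ?_ ?_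
    · rw [map_mul, hx, hp₁, hxp, one_mul]
    · rw [map_mul, map_mul, hp1, hta, hy1u, one_mul, one_mul]
    · intro s
      have := keyz x hxD s
      rwa [h20, zero_mul, add_zero] at this
    · intro s
      have e1 := key y₀ y₁ hay' s
      have e2 := hMmul _ hMt.1 _ hMt.1
      have e3 := hMadd _ e1 _ (hMadd _ hM1 _ (hMneg _ e2))
      have hPs := (hEne s).1
      have e4 : (y₁ * s + y₀) * (y₁ * s + y₀ + p₁ + 2 * s) * ((minpoly F ρ).eval s)⁻¹ +
          (1 + -((1 + y₁) * (1 + y₁))) = (p₁ * y₁ * (1 + y₁) * s + (y₀ ^ 2 + p₁ * y₀ - y₁ ^ 2 * p₀)) *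
          ((minpoly F ρ).eval s)⁻¹ := by
        have e5 : ((minpoly F ρ).eval s) * ((minpoly F ρ).eval s)⁻¹ = 1 := mul_inv_cancel₀ hPs
        have e6 := hev s
        linear_combination (1 - (1 + y₁) * (1 + y₁)) * (-e5) +
          (1 - (1 + y₁) * (1 + y₁)) * ((minpoly F ρ).eval s)⁻¹ * e6 +
          ((minpoly F ρ).eval s)⁻¹ * (y₁ * y₀ * s + s * y₀ - y₁ * p₁ * s - y₁ * p₀ - y₁ ^ 2 * p₁ * s) * h20
      rwa [e4] at e3
  · -- odd characteristic
    have h2u : V.valuation (2 : F) = 1 := by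
      have hodd : Odd l := hD.lpr.odd_of_ne_two hl
      obtain ⟨m, hm⟩ := hodd
      have e1 : (2 : F) * (m + 1 : ℕ) = 1 := by
        have e2 : ((2 * m + 1 : ℕ) : F) = 0 := by rw [← hm]; exact CharP.cast_eq_zero F l
        push_cast at e2 ⊢
        linear_combination e2
      have a1 : V.valuation (2 : F) ≤ 1 := by
        rw [V.valuation_le_one_iff]
        have : (2 : F) = ((2 : ℕ) : F) := by norm_num
        rw [this]
        exact natCast_mem V 2
      have a2 : V.valuation ((m + 1 : ℕ) : F) ≤ 1 := by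
        rw [V.valuation_le_one_iff]
        exact natCast_mem V (m + 1)
      have e3 : V.valuation (2 : F) * V.valuation ((m + 1 : ℕ) : F) = 1 := by
        rw [← map_mul, e1, map_one]
      refine le_antisymm a1 ?_
      calc (1 : V.ValueGroup) = V.valuation (2 : F) * V.valuation ((m + 1 : ℕ) : F) := e3.symm
        _ ≤ V.valuation (2 : F) * 1 := by gcongr
        _ = V.valuation (2 : F) := mul_one _
    obtain ⟨x, hx, hxD⟩ := hw
    have hxD' : (-x) • dl F ρ ∈ Dz F N := by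
      rw [neg_smul]
      exact hDzneg _ hxD
    refine fin (2 * x ^ 2) (2 * 2 * x) (2 * x * p₁) ?_ ?_ ?_ ?_
    · rw [map_mul, map_pow, hx, h2u]
      simp
    · rw [map_mul, map_mul, hx, h2u]
      simp
    · intro s
      have e := hMadd _ (keyz x hxD s) _ (keyz (-x) hxD' s)
      have e' : x * (x + p₁ + 2 * s) * ((minpoly F ρ).eval s)⁻¹ +
          -x * (-x + p₁ + 2 * s) * ((minpoly F ρ).eval s)⁻¹ =
          2 * x ^ 2 * ((minpoly F ρ).eval s)⁻¹ := by ring
      rwa [e'] at e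
    · intro s
      have e := hMadd _ (keyz x hxD s) _ (hMneg _ (keyz (-x) hxD' s))
      have e' : x * (x + p₁ + 2 * s) * ((minpoly F ρ).eval s)⁻¹ +
          -(-x * (-x + p₁ + 2 * s) * ((minpoly F ρ).eval s)⁻¹) =
          (2 * 2 * x * s + 2 * x * p₁) * ((minpoly F ρ).eval s)⁻¹ := by ring
      rwa [e'] at e

end CL
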