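import Pool.Agent.Lib.MP_defcf3_al.CL.IfaceZ

/-!
Project CL (MP_defcf3_al), module SixTwo: (6.2) (iv) and (v) of the paper.
-/

open Polynomial

namespace CL

universe u

namespace H65Z

section

variable {F K : Type u} [Field F] [Field K] [Algebra F K]

/-- the functional a ↦ tr (a ρ^i / ρ) -/
noncomputable def psi (F : Type u) {K : Type u} [Field F] [Field K] [Algebra F K] (ρ : K) (i : ℕ)
    (a : K) : F := tr F (a * (ρ ^ i / ρ))

/-- the element e_i -/
noncomputable def ee (F : Type u) {K : Type u} [Field F] [Field K] [Algebra F K] (ρ : K) (i : ℕ) :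
    K := dl F ρ * ρ * aeval ρ (Bq F ρ i)

theorem tr_smul (c : F) (x : K) : tr F (c • x) = c * tr F x := by
  unfold tr
  rw [map_smul, smul_eq_mul]

theorem psi_smul (ρ : K) (i : ℕ) (c : F) (x : K) : psi F ρ i (c • x) = c * psi F ρ i x := by
  unfold psi
  rw [smul_mul_assoc, tr_smul]

theorem psi_ee [FiniteDimensional F K] (hD : DualStatement.{u}) (hE : EulerStatement.{u}) {ρ : K}
    (hg : Gen F ρ) {i j : ℕ} (hi : i < nn F ρ) (hj : j < nn F ρ) :
    psi F ρ i (ee F ρ j) = if i = j then 1 else 0 := by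
  have hρ : ρ ≠ 0 := (hE F K ρ hg).2.2.2.1
  rw [← (hD F K ρ hg).2.2.1 i hi j hj]
  unfold psi ee
  congr 1
  field_simp

theorem expand [FiniteDimensional F K] (hD : DualStatement.{u}) (hE : EulerStatement.{u}) {ρ : K}
    (hg : Gen F ρ) {a : K} (ha : tr F a = 0) :
    a = ∑ i ∈ (Finset.range (nn F ρ)).erase 1, psi F ρ i a • ee F ρ i := by
  have hρ : ρ ≠ 0 := (hE F K ρ hg).2.2.2.1
  have hδ : dl F ρ ≠ 0 := (hE F K ρ hg).2.2.2.2.1
  have h1 : (1 : ℕ) ∈ Finset.range (nn F ρ) := Finset.mem_range.2 hg.two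
  have h := (hD F K ρ hg).1 (a / (dl F ρ * ρ))
  have h2 : a = ∑ i ∈ Finset.range (nn F ρ), psi F ρ i a • ee F ρ i := by
    calc a = (dl F ρ * ρ) * (a / (dl F ρ * ρ)) := by field_simp
      _ = _ := by
        conv_lhs => rw [h]
        rw [Finset.mul_sum]
        refine Finset.sum_congr rfl ?_
        intro i _
        have e1 : tr F (dl F ρ * ρ ^ i * (a / (dl F ρ * ρ))) = psi F ρ i a := by
          unfold psi
          congr 1
          field_simp
        rw [e1, mul_smul_comm]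
        rfl
  rw [← Finset.add_sum_erase _ _ h1] at h2
  have h3 : psi F ρ 1 a = 0 := by
    unfold psi
    rw [pow_one, div_self hρ, mul_one, ha]
  rw [h3, zero_smul, zero_add] at h2
  exact h2

end

end H65Z

open H65Z in
theorem sixtwoZ_proof (h1 : UnitsZStatement.{u}) (h2 : DualStatement.{u}) (h3 : EulerStatement.{u})
    (h4 : CalcStatement.{u}) (h5 : RingAStatement.{u}) : SixTwoZStatement.{u} := by
  intro F K _ _ _ _ l p e N ρ V h6 hn hw
  obtain ⟨hU1, hU2, wS, hwS, hU3⟩ := h1 F K l p e N ρ V h6 hn hw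
  have hg := h6.dat.gen
  obtain ⟨-, hE2, hE3, hρ0, hδ0, -, -⟩ := h3 F K ρ hg
  have hD6 := (h2 F K ρ hg).2.2.2.2.2
  obtain ⟨hz0, hzadd, -⟩ := h4 F K l p e N ρ h6.dat
  have hP0 : V.valuation ((minpoly F ρ).eval 0) = 1 :=
    ((h5 F K l p e N ρ h6.dat).2 V h6.le).2.1 0 V.zero_mem
  have hP0' : (minpoly F ρ).eval 0 ≠ 0 := (hE2 0).1
  have hn0 : 0 < nn F ρ := by omega
  -- the units
  have hA : ∀ i, (i < nn F ρ ∧ i ≠ 1) → ∃ w : F, V.valuation w = 1 ∧
      Op F N (ρ ^ 0 / ρ) (w • ee F ρ i) := fun i hi => hU1 i hi.1 hi.2 0 hn0 (by omega)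
  have hB : ∀ j, (j < nn F ρ ∧ j ≠ 1) → ∃ w : F, V.valuation w = 1 ∧
      Op F N (ρ ^ j / ρ) (w • ee F ρ 0) := fun j hj => hU1 0 hn0 (by omega) j hj.1 hj.2
  choose! u hu using hA
  choose! v hv using hB
  have mI : ∀ {i : ℕ}, i ∈ (Finset.range (nn F ρ)).erase 1 → i < nn F ρ ∧ i ≠ 1 := by
    intro i hi
    rw [Finset.mem_erase, Finset.mem_range] at hi
    exact ⟨hi.2, hi.1⟩
  have stepA : ∀ i ∈ (Finset.range (nn F ρ)).erase 1, ∀ c : F, c • ee F ρ 0 ∈ Dz F N →
      (u i * c) • ee F ρ i ∈ Dz F N := by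
    intro i hi c hc
    have h := (hu i (mI hi)).2 _ hc
    have e1 : tr F (c • ee F ρ 0 * (ρ ^ 0 / ρ)) = c := by
      have := psi_smul ρ 0 c (ee F ρ 0)
      rw [psi_ee h2 h3 hg hn0 hn0, if_pos rfl, mul_one] at this
      exact this
    rw [e1, smul_smul, mul_comm] at h
    exact h
  have stepB : ∀ j ∈ (Finset.range (nn F ρ)).erase 1, ∀ c : F, c • ee F ρ j ∈ Dz F N →
      (v j * c) • ee F ρ 0 ∈ Dz F N := by
    intro j hj c hc
    have h := (hv j (mI hj)).2 _ hc
    have e1 : tr F (c • ee F ρ j * (ρ ^ j / ρ)) = c := by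
      have := psi_smul ρ j c (ee F ρ j)
      rw [psi_ee h2 h3 hg (mI hj).1 (mI hj).1, if_pos rfl, mul_one] at this
      exact this
    rw [e1, smul_smul, mul_comm] at h
    exact h
  have stepP : ∀ s : Finset ℕ, s ⊆ (Finset.range (nn F ρ)).erase 1 → ∀ c : F,
      c • ee F ρ 0 ∈ Dz F N → ((∏ j ∈ s, (v j * u j)) * c) • ee F ρ 0 ∈ Dz F N := by
    intro s
    induction s using Finset.induction_on with
    | empty => intro _ c hc; simpa using hc
    | insert j s hj ih =>
      intro hs c hc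
      rw [Finset.insert_subset_iff] at hs
      have h := stepB j hs.1 _ (stepA j hs.1 _ (ih hs.2 c hc))
      rw [Finset.prod_insert hj]
      have e2 : (v j * u j * (∏ j ∈ s, (v j * u j))) * c =
          v j * (u j * ((∏ j ∈ s, (v j * u j)) * c)) := by ring
      rw [e2]
      exact h
  -- the sum in Dz
  have hsum : ∀ (s : Finset ℕ) (f : ℕ → K), (∀ i ∈ s, f i ∈ Dz F N) → ∑ i ∈ s, f i ∈ Dz F N := by
    intro s f
    induction s using Finset.induction_on with
    | empty => intro _; simpa using hz0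
    | insert j s hj ih =>
      intro hf
      rw [Finset.sum_insert hj]
      exact hzadd _ (hf j (Finset.mem_insert_self _ _)) _
        (ih fun i hi => hf i (Finset.mem_insert_of_mem hi))
  set L : F := ∏ j ∈ (Finset.range (nn F ρ)).erase 1, (v j * u j) with hL
  have hLval : V.valuation L = 1 := by
    rw [hL, map_prod]
    refine Finset.prod_eq_one ?_
    intro j hj
    rw [map_mul, (hv j (mI hj)).1, (hu j (mI hj)).1, mul_one]
  -- (iv)
  have key : ∀ x : F, (∀ a ∈ Dz F N, (x * psi F ρ 0 a) • ee F ρ 0 ∈ Dz F N) →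
      L * x ∈ MM F N := by
    intro x hx a ha
    have hexp := expand h2 h3 hg ha.2
    have e1 : (L * x) • a = ∑ i ∈ (Finset.range (nn F ρ)).erase 1,
        (L * x * psi F ρ i a) • ee F ρ i := by
      conv_lhs => rw [hexp]
      rw [Finset.smul_sum]
      refine Finset.sum_congr rfl ?_
      intro i _
      rw [smul_smul]
    rw [e1]
    refine hsum _ _ ?_
    intro i hi
    have s1 : (v i * psi F ρ i a) • ee F ρ 0 ∈ Dz F N := by
      have h := (hv i (mI hi)).2 a ha
      rw [smul_smul, mul_comm] at h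
      exact h
    have s2 := stepP (((Finset.range (nn F ρ)).erase 1).erase i) (Finset.erase_subset _ _) _ s1
    have s3 := hx _ s2
    rw [psi_smul, psi_ee h2 h3 hg hn0 hn0, if_pos rfl, mul_one] at s3
    have s4 := stepA i hi _ s3
    have e2 : u i * (x * ((∏ j ∈ ((Finset.range (nn F ρ)).erase 1).erase i, (v j * u j)) *
        (v i * psi F ρ i a))) = L * x * psi F ρ i a := by
      rw [hL, ← Finset.mul_prod_erase _ _ hi]
      ring
    rw [e2] at s4
    exact s4
  -- (v)
  have hd0 : dl F ρ = (-((minpoly F ρ).eval 0)⁻¹) • ee F ρ 0 := by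
    have h := congrArg (aeval ρ) hD6
    rw [map_mul, aeval_X, map_sub, minpoly.aeval, aeval_C, zero_sub] at h
    unfold ee
    rw [mul_assoc, h, Algebra.smul_def, map_neg, map_inv₀]
    have : algebraMap F K ((minpoly F ρ).eval 0) ≠ 0 := by
      rw [Ne, map_eq_zero]
      exact hP0'
    field_simp
  have fin : ∀ j, j ≤ 1 → ∃ w : F, V.valuation w = 1 ∧
      ∀ s : F, w * (s ^ j * ((minpoly F ρ).eval s)⁻¹) ∈ MM F N := by
    intro j hj
    obtain ⟨w, hw1, hw2⟩ := hU2 j (by omega)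
    refine ⟨L * (w * wS * ((minpoly F ρ).eval 0)⁻¹), ?_, ?_⟩
    · rw [map_mul, map_mul, map_mul, map_inv₀, hLval, hw1, hwS, hP0]
      simp
    · intro s
      have h := key (w * wS * ((minpoly F ρ).eval 0)⁻¹ * (s ^ j * ((minpoly F ρ).eval s)⁻¹)) ?_
      · rwa [← mul_assoc] at h
      · intro a ha
        have t1 := hU3 s _ (hw2 a ha)
        have e1 : tr F (tr F (a * ρ⁻¹) • w • (dl F ρ * ρ ^ j) * (ρ - algebraMap F K s)⁻¹) =
            tr F (a * ρ⁻¹) * w * (-(s ^ j / (minpoly F ρ).eval s)) := by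
          have hX : ((X : F[X]) ^ j).natDegree < nn F ρ := by
            rw [natDegree_X_pow]
            omega
          have h := hE3 (X ^ j) hX s
          rw [eval_pow, eval_X, map_pow, aeval_X] at h
          rw [← h, smul_smul, smul_mul_assoc, tr_smul, div_eq_mul_inv]
        rw [e1, hd0, smul_smul, smul_smul] at t1
        have e2 : tr F (a * ρ⁻¹) = psi F ρ 0 a := by
          unfold psi
          rw [pow_zero, one_div]
        rw [e2] at t1
        have e3 : psi F ρ 0 a * w * -(s ^ j / eval s (minpoly F ρ)) * wS *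
            -(eval 0 (minpoly F ρ))⁻¹ =
            w * wS * ((minpoly F ρ).eval 0)⁻¹ * (s ^ j * ((minpoly F ρ).eval s)⁻¹) *
              psi F ρ 0 a := by
          rw [div_eq_mul_inv]
          ring
        rw [e3] at t1
        exact t1
  obtain ⟨w0, hw0, hw0'⟩ := fin 0 (by omega)
  obtain ⟨w1, hw1, hw1'⟩ := fin 1 (by omega)
  refine ⟨w0, w1, hw0, hw1, ?_⟩
  intro s
  have a0 := hw0' s
  have a1 := hw1' s
  rw [pow_zero, one_mul] at a0
  rw [pow_one] at a1
  exact ⟨a0, a1⟩

theorem sixTwoZ_proof (h1 : UnitsZStatement.{u}) (h2 : DualStatement.{u}) (h3 : EulerStatement.{u})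
    (h4 : CalcStatement.{u}) (h5 : RingAStatement.{u}) : SixTwoZStatement.{u} :=
  sixtwoZ_proof h1 h2 h3 h4 h5

end CL
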