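import Pool.Agent.Lib.MP_defcf3_al.CL.Calc

/-!
Project CL (MP_defcf3_al), row Special: (2.1) - (2.3).
-/

open Polynomial

namespace CL

universe u

theorem special_proof (h1 : EulerStatement.{u}) (h2 : TwistStatement.{u}) (h3 : CalcStatement.{u})
    (h4 : P2Statement.{u}) : SpecialStatement.{u} := by
  intro F K _ _ _ _ l p e N ρ hD
  obtain ⟨hz0, hzadd, hzneg, hzsmul, hppow, hzpow, hM0, hM1, hMadd, hMmul, hMneg, hMtr, hMpow, hsim⟩ :=
    h3 F K l p e N ρ hD
  obtain ⟨hm1, hm2⟩ := h4 F K l p e N ρ hD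
  obtain ⟨tg, tmin, tnn, tdl, tG, tsK, tsF, tcoef, teval, taev, tcomp, ttr⟩ := h2 F K l p e N ρ hD
  obtain ⟨eρ1, eρ2, eρ3, eρ0, eρd, eρf, eρs⟩ := h1 F K ρ hD.gen
  obtain ⟨eR1, eR2, eR3, eR0, eRd, eRf, eRs⟩ := h1 F K (ρ ^ l ^ e) tg
  rw [tnn] at eR1 eR3 eRs
  have hn2 := hD.gen.two
  set R : K := ρ ^ l ^ e with hR
  set P : F[X] := minpoly F ρ with hP
  set P1 : F[X] := minpoly F R with hP1
  have hPR : aeval R P = - aeval R (GG F (l ^ e) ρ) := by
    have e1 : aeval R P1 = 0 := minpoly.aeval F R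
    unfold GG
    rw [← tmin, map_sub, e1, zero_sub, neg_neg]
  have hPρ : aeval ρ P = 0 := minpoly.aeval F ρ
  have hPm : P.Monic := minpoly.monic hD.gen.int
  have hPn : P.natDegree = nn F ρ := rfl
  have hlin : ∀ s : F, (X - C s : F[X]) ≠ 0 ∧ (X - C s : F[X]).natDegree < nn F ρ := by
    intro s
    exact ⟨X_sub_C_ne_zero s, by rw [natDegree_X_sub_C]; omega⟩
  have hRs : ∀ s : F, Sim N (R - algebraMap F K s) (ρ - algebraMap F K s) := by
    intro s
    have h := hD.tau _ (hlin s).1 (hlin s).2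
    simpa using h
  -- (2.1), first part
  have h21 : ∀ s : F, dl F R * aeval R (GG F (l ^ e) ρ) / (R - algebraMap F K s) ∈ Dp F N := by
    intro s
    by_cases hG0 : aeval R (GG F (l ^ e) ρ) = 0
    · rw [hG0, mul_zero, zero_div]
      exact hz0.1
    have hs0 : R - algebraMap F K s ≠ 0 := (eR2 s).2
    have hy : aeval R (GG F (l ^ e) ρ) / (R - algebraMap F K s) ≠ 0 := div_ne_zero hG0 hs0
    rw [mul_div_assoc]
    apply hm1 _ _ hy
    intro z hz
    obtain ⟨A, hA, rfl⟩ := eRs z
    have hA0 : A ≠ 0 := by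
      rintro rfl
      exact hz (by simp)
    set c : F := A.coeff (nn F ρ - 1) with hc
    have hc' : tr F (dl F R * aeval R A) = c := eR1 A hA
    set B : F[X] := (X - C s) * A - C c * P with hB
    have hBdeg : B.natDegree < nn F ρ := by
      have hle : B.natDegree ≤ nn F ρ := by
        refine (natDegree_sub_le _ _).trans (max_le ?_ ?_)
        · refine (natDegree_mul_le).trans ?_
          rw [natDegree_X_sub_C]; omega
        · exact (natDegree_C_mul_le _ _).trans hPn.le
      refine lt_of_le_of_ne hle ?_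
      intro heq
      have hco : B.coeff (nn F ρ) = 0 := by
        have hn1 : nn F ρ = nn F ρ - 1 + 1 := by omega
        have e1 : ((X - C s) * A).coeff (nn F ρ) = c := by
          rw [sub_mul, coeff_sub, coeff_C_mul, coeff_eq_zero_of_natDegree_lt (n := nn F ρ) hA, mul_zero, sub_zero]
          have e3 := coeff_X_mul A (nn F ρ - 1)
          rwa [← hn1] at e3
        have e2 : (C c * P).coeff (nn F ρ) = c := by
          rw [coeff_C_mul, ← hPn, hPm.coeff_natDegree, mul_one]
        rw [hB, coeff_sub, e1, e2, sub_self]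
      have hB0 : B = 0 := by
        rw [← leadingCoeff_eq_zero, leadingCoeff, heq, hco]
      rw [hB0, natDegree_zero] at heq
      omega
    have hBρ : aeval ρ B = (ρ - algebraMap F K s) * aeval ρ A := by
      rw [hB]
      simp only [map_sub, map_mul, aeval_X, aeval_C, hPρ, mul_zero, sub_zero]
    have hBR : aeval R B = (R - algebraMap F K s) *
        (aeval R A + c • (aeval R (GG F (l ^ e) ρ) / (R - algebraMap F K s))) := by
      rw [hB, Algebra.smul_def]
      simp only [map_sub, map_mul, aeval_X, aeval_C, hPR]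
      field_simp
      ring
    have hAρ0 : aeval ρ A ≠ 0 := (hD.tau A hA0 hA).2.1
    have hB0 : B ≠ 0 := by
      intro h0
      rw [h0, map_zero] at hBρ
      exact mul_ne_zero (hRs s).2.1 hAρ0 hBρ.symm
    have s1 := hD.tau B hB0 hBdeg
    rw [hBρ, hBR] at s1
    have s2 : Sim N ((ρ - algebraMap F K s) * aeval ρ A) ((R - algebraMap F K s) * aeval R A) :=
      ((hRs s).mul (hD.tau A hA0 hA)).symm
    have s3 := (s1.trans s2).div (Sim.refl (N := N) hs0)
    rw [mul_div_cancel_left₀ _ hs0, mul_div_cancel_left₀ _ hs0] at s3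
    rw [hc']
    exact s3
  have h21' : ∀ s : F, 1 + tr F (dl F R * aeval R (GG F (l ^ e) ρ) / (R - algebraMap F K s)) =
      P.eval s / P1.eval s := by
    intro s
    rw [eR3 _ tG s]
    have e0 := (eR2 s).1
    have e1 : (GG F (l ^ e) ρ).eval s = P1.eval s - P.eval s := by
      unfold GG
      rw [← tmin, eval_sub]
    rw [e1]
    field_simp
    ring
  have hone : ∀ s : F, P.eval s / P1.eval s ∈ MM F N ∧ P1.eval s / P.eval s ∈ MM F N := by
    intro s
    have h := hMtr _ (h21 s)
    rw [h21' s] at h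
    exact ⟨h.1, by rw [← inv_div]; exact h.2⟩
  have h22 : ∀ (m : ℕ) (s : F), (tw ((l ^ e) ^ m) P).eval s ≠ 0 ∧
      P.eval s / (tw ((l ^ e) ^ m) P).eval s ∈ MM F N ∧
      (tw ((l ^ e) ^ m) P).eval s / P.eval s ∈ MM F N := by
    intro m
    induction m with
    | zero =>
      intro s
      have e1 : tw ((l ^ e) ^ 0) P = P := by
        ext i
        rw [tcoef]
        simp
      have e2 := (eρ2 s).1
      rw [e1]
      refine ⟨e2, ?_, ?_⟩
      · rw [div_self e2]; exact hM1
      · rw [div_self e2]; exact hM1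
    | succ m ih =>
      intro s
      obtain ⟨t, rfl⟩ := tsF s
      have e1 : (tw ((l ^ e) ^ (m + 1)) P).eval (t ^ l ^ e) = ((tw ((l ^ e) ^ m) P).eval t) ^ l ^ e := by
        have e2 := tcomp P 1 m
        have e3 := teval (tw ((l ^ e) ^ m) P) t 1
        rw [e2, add_comm 1 m, pow_one] at e3
        exact e3
      have e4 : P1.eval (t ^ l ^ e) = (P.eval t) ^ l ^ e := by
        have e3 := teval P t 1
        rw [pow_one] at e3
        rw [tmin]
        exact e3
      obtain ⟨i1, i2, i3⟩ := ih t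
      have e5 := (eρ2 (t ^ l ^ e)).1
      have e6 := (eR2 (t ^ l ^ e)).1
      have e7 := (eρ2 t).1
      refine ⟨by rw [e1]; exact pow_ne_zero _ i1, ?_, ?_⟩
      · have e8 : P.eval (t ^ l ^ e) / (tw ((l ^ e) ^ (m + 1)) P).eval (t ^ l ^ e) =
            P.eval (t ^ l ^ e) / P1.eval (t ^ l ^ e) * (P.eval t / (tw ((l ^ e) ^ m) P).eval t) ^ l ^ e := by
          rw [e1, e4, div_pow]
          have := pow_ne_zero (l ^ e) e7
          field_simp
        rw [e8]
        exact hMmul _ (hone _).1 _ ((hMpow _).1 i2)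
      · have e8 : (tw ((l ^ e) ^ (m + 1)) P).eval (t ^ l ^ e) / P.eval (t ^ l ^ e) =
            P1.eval (t ^ l ^ e) / P.eval (t ^ l ^ e) * ((tw ((l ^ e) ^ m) P).eval t / P.eval t) ^ l ^ e := by
          rw [e1, e4, div_pow]
          have := pow_ne_zero (l ^ e) e7
          field_simp
        rw [e8]
        exact hMmul _ (hone _).2 _ ((hMpow _).1 i3)
  -- (2.3)
  have htr0 : ∀ c : F, tr F (c • dl F ρ) = 0 ∧ tr F (c • dl F R) = 0 := by
    intro c
    have hc : (C c : F[X]).natDegree < nn F ρ := by rw [natDegree_C]; omega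
    have e1 := eρ1 (C c) hc
    have e2 := eR1 (C c) hc
    have e3 : (C c : F[X]).coeff (nn F ρ - 1) = 0 := by
      rw [coeff_C_of_ne_zero (by omega)]
    rw [e3, aeval_C, mul_comm, ← Algebra.smul_def] at e1 e2
    exact ⟨e1, e2⟩
  have hTT : ∀ (c : F) (A : F[X]), A.natDegree < nn F ρ → ∃ B : F[X], B.natDegree < nn F ρ ∧
      TT F (c • dl F ρ) (aeval ρ A) = aeval ρ B ∧ TT F (c • dl F R) (aeval R A) = aeval R B := by
    intro c A hA
    refine ⟨A + C (c * A.coeff (nn F ρ - 1)), ?_, ?_, ?_⟩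
    · refine lt_of_le_of_lt (natDegree_add_le _ _) (max_lt hA ?_)
      rw [natDegree_C]; omega
    · unfold TT
      rw [smul_mul_assoc, H30.tr_smul, eρ1 A hA, map_add, aeval_C]
    · unfold TT
      rw [smul_mul_assoc, H30.tr_smul, eR1 A hA, map_add, aeval_C]
  have h23 : ∀ c : F, c • dl F ρ ∈ Dz F N ↔ c • dl F R ∈ Dz F N := by
    intro c
    constructor
    · intro hc
      refine ⟨⟨by rw [(htr0 c).2]; simp, ?_⟩, (htr0 c).2⟩
      intro z hz
      obtain ⟨A, hA, rfl⟩ := eRs z
      have hA0 : A ≠ 0 := by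
        rintro rfl
        exact hz (by simp)
      obtain ⟨B, hB, b1, b2⟩ := hTT c A hA
      have sA := hD.tau A hA0 hA
      have s1 := hc.1.2 _ sA.2.1
      rw [b1] at s1
      have hB0 : B ≠ 0 := by
        rintro rfl
        exact s1.1 (by simp)
      rw [b2]
      exact (hD.tau B hB0 hB).trans (s1.trans sA.symm)
    · intro hc
      refine ⟨⟨by rw [(htr0 c).1]; simp, ?_⟩, (htr0 c).1⟩
      intro z hz
      obtain ⟨A, hA, rfl⟩ := eρs z
      have hA0 : A ≠ 0 := by
        rintro rfl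
        exact hz (by simp)
      obtain ⟨B, hB, b1, b2⟩ := hTT c A hA
      have sA := hD.tau A hA0 hA
      have s1 := hc.1.2 _ sA.1
      rw [b2] at s1
      have hB0 : B ≠ 0 := by
        rintro rfl
        exact s1.1 (by simp)
      rw [b1]
      exact (hD.tau B hB0 hB).symm.trans (s1.trans sA)
  refine ⟨fun s => ⟨h21 s, h21' s⟩, fun s m => h22 m s, fun c => ⟨h23 c, ?_⟩⟩
  rw [hzpow (c • dl F ρ), _root_.smul_pow, ← tdl]
  exact (h23 (c ^ l ^ e)).symm

end CL
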