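import Pool.Agent.Lib.MP_defcf3_al.CL.IfaceZ

/-!
Theorem (S) without G; the support of a bad place.
-/

open Polynomial

namespace CL

universe u

theorem thmsZ_proof (h2 : SixTwoZStatement.{u}) (h3 : SixThreeZStatement.{u})
    (h4 : CondStatement.{u}) : ThmSZStatement.{u} := by
  intro F K _ _ _ _ l p e N ρ V hS hw hx
  have hww : ∃ w0 w1 : F, V.valuation w0 = 1 ∧ V.valuation w1 = 1 ∧
      ∀ s : F, w0 * ((minpoly F ρ).eval s)⁻¹ ∈ MM F N ∧ w1 * (s * ((minpoly F ρ).eval s)⁻¹) ∈ MM F N := by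
    rcases Nat.lt_or_ge (nn F ρ) 3 with h | h
    · have hn2 : nn F ρ = 2 := by have := hS.dat.gen.two; omega
      exact h3 F K l p e N ρ V hS hn2 hw (hx hn2)
    · exact h2 F K l p e N ρ V hS h hw
  obtain ⟨w, hwM, hw1, hwA⟩ := h4 F K l p e N ρ V hS.dat hS.le hww
  obtain ⟨c, hc1, hc⟩ := hw
  refine ⟨w * c, by rw [Valuation.map_mul, hw1, hc1, one_mul], ?_⟩
  intro a ha
  have := hwA a ha _ hc
  rw [smul_smul] at this ⊢
  rwa [show a * (w * c) = w * a * c by ring]

namespace H3Z

variable {F K : Type u} [Field F] [Field K] [Algebra F K]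

/-- A non-zero polynomial has a coefficient of maximal value. -/
theorem exists_max (V : ValuationSubring F) {A : F[X]} (hA : A ≠ 0) :
    ∃ i, A.coeff i ≠ 0 ∧ ∀ j, V.valuation (A.coeff j) ≤ V.valuation (A.coeff i) := by
  obtain ⟨i, hi, hmax⟩ := Finset.exists_max_image A.support (fun i => V.valuation (A.coeff i))
    (Polynomial.support_nonempty.2 hA)
  refine ⟨i, Polynomial.mem_support_iff.1 hi, fun j => ?_⟩
  by_cases hj : A.coeff j = 0
  · rw [hj, map_zero]
    exact zero_le
  · exact hmax j (Polynomial.mem_support_iff.2 hj)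

theorem small_const (V : ValuationSubring F) {A : F[X]} (hA : A ≠ 0) {b : F}
    (hb : ∀ i, A.coeff i ≠ 0 → (∀ j, V.valuation (A.coeff j) ≤ V.valuation (A.coeff i)) →
      V.valuation b < V.valuation (A.coeff i)) :
    ∃ i, ∀ j, V.valuation ((C b : F[X]).coeff j) < V.valuation (A.coeff i) := by
  obtain ⟨i, hi, hmax⟩ := exists_max V hA
  refine ⟨i, fun j => ?_⟩
  rw [coeff_C]
  split_ifs
  · exact hb i hi hmax
  · rw [map_zero]
    exact lt_of_le_of_ne zero_le (Ne.symm (by rw [Ne, map_eq_zero]; exact hi))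

theorem J_dl (hEu : EulerStatement.{u}) [FiniteDimensional F K] {q : ℕ} {N : Subgroup Kˣ} {ρ : K} (hG : Gen F ρ)
    {Z : Set (ValuationSubring F)} {D : ℕ} {f : F[X]} (hZ : Supp F q N ρ Z D f) {c : F}
    (hc : ∀ V ∈ Z, V.valuation c < 1) : c • dl F ρ ∈ Dz F N := by
  obtain ⟨E1, -, -, -, -, -, E7⟩ := hEu F K ρ hG
  have hn := hG.two
  have key : ∀ z : K, z ≠ 0 → Sim N (TT F (c • dl F ρ) z) z := by
    intro z hz
    obtain ⟨A, hAd, rfl⟩ := E7 z
    have hA0 : A ≠ 0 := by rintro rfl; simp at hz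
    have e1 : TT F (c • dl F ρ) (aeval ρ A) = aeval ρ (A + C (c * A.coeff (nn F ρ - 1))) := by
      unfold TT
      rw [map_add, aeval_C, smul_mul_assoc]
      congr 2
      rw [← E1 A hAd]
      exact map_smul (Algebra.trace F K) c _
    rw [e1]
    refine hZ.stab A _ hAd (by rw [natDegree_C]; omega) fun V hV => small_const V hA0 fun i hi hmax => ?_
    rw [map_mul]
    have h0 : 0 < V.valuation (A.coeff i) := lt_of_le_of_ne zero_le (Ne.symm (by rw [Ne, map_eq_zero]; exact hi))
    calc V.valuation c * V.valuation (A.coeff (nn F ρ - 1)) ≤ V.valuation c * V.valuation (A.coeff i) := by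
          gcongr
          exact hmax _
      _ < 1 * V.valuation (A.coeff i) := by
          exact mul_lt_mul_of_pos_right (hc V hV) h0
      _ = V.valuation (A.coeff i) := one_mul _
  have htr : tr F (c • dl F ρ) = 0 := by
    have h1 := E1 (C c) (by rw [natDegree_C]; omega)
    rw [aeval_C, coeff_C, if_neg (by omega)] at h1
    rw [Algebra.smul_def, mul_comm]
    exact h1
  exact ⟨⟨by rw [htr, add_zero]; exact one_ne_zero, key⟩, htr⟩

/-- degree two: c δ ρ is in Dp if c and c p1 are small on Z. -/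
theorem J_dlrho (hEu : EulerStatement.{u}) [FiniteDimensional F K] {q : ℕ} {N : Subgroup Kˣ} {ρ : K}
    (hG : Gen F ρ) (hn2 : nn F ρ = 2)
    {Z : Set (ValuationSubring F)} {D : ℕ} {f : F[X]} (hZ : Supp F q N ρ Z D f) {c : F}
    (hc : ∀ V ∈ Z, V.valuation c < 1) (hc1 : ∀ V ∈ Z, V.valuation (c * (minpoly F ρ).coeff 1) < 1) :
    c • (dl F ρ * ρ) ∈ Dp F N ∧ tr F (c • (dl F ρ * ρ)) = c := by
  obtain ⟨E1, -, -, -, -, -, E7⟩ := hEu F K ρ hG
  set p1 := (minpoly F ρ).coeff 1 with hp1
  have hmon : (minpoly F ρ).Monic := minpoly.monic hG.int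
  have hdeg : (minpoly F ρ).natDegree = 2 := hn2
  have trX : ∀ A : F[X], A.natDegree < nn F ρ → tr F (dl F ρ * ρ * aeval ρ A) = A.coeff 0 - p1 * A.coeff 1 := by
    intro A hA
    have e1 : ρ * aeval ρ A = aeval ρ (X * A - C (A.coeff 1) * minpoly F ρ) := by
      rw [map_sub, map_mul, map_mul, minpoly.aeval, aeval_X, mul_zero, sub_zero]
    have hAd : A.natDegree ≤ 1 := by omega
    have e2 : (X * A - C (A.coeff 1) * minpoly F ρ).natDegree < nn F ρ := by
      rw [hn2]
      have : (X * A - C (A.coeff 1) * minpoly F ρ).natDegree ≤ 1 := by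
        rw [natDegree_le_iff_coeff_eq_zero]
        intro N hN
        rw [coeff_sub, coeff_C_mul]
        obtain ⟨m, rfl⟩ : ∃ m, N = m + 1 := ⟨N - 1, by omega⟩
        rw [coeff_X_mul]
        rcases Nat.lt_or_ge m 2 with h | h
        · have hm : m = 1 := by omega
          subst hm
          have : (minpoly F ρ).coeff (1 + 1) = 1 := by
            have := hmon.coeff_natDegree
            rwa [hdeg] at this
          rw [this, mul_one, sub_self]
        · rw [coeff_eq_zero_of_natDegree_lt (show A.natDegree < m by omega),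
            coeff_eq_zero_of_natDegree_lt (show (minpoly F ρ).natDegree < m + 1 by omega), mul_zero, sub_zero]
      omega
    rw [mul_assoc, e1, E1 _ e2, hn2]
    show (X * A - C (A.coeff 1) * minpoly F ρ).coeff (0 + 1) = _
    rw [coeff_sub, coeff_C_mul, coeff_X_mul, mul_comm]
  have key : ∀ z : K, z ≠ 0 → Sim N (TT F (c • (dl F ρ * ρ)) z) z := by
    intro z hz
    obtain ⟨A, hAd, rfl⟩ := E7 z
    have hA0 : A ≠ 0 := by rintro rfl; simp at hz
    have e1 : TT F (c • (dl F ρ * ρ)) (aeval ρ A) = aeval ρ (A + C (c * (A.coeff 0 - p1 * A.coeff 1))) := by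
      unfold TT
      rw [map_add, aeval_C, smul_mul_assoc]
      congr 2
      rw [← trX A hAd]
      exact map_smul (Algebra.trace F K) c _
    rw [e1]
    refine hZ.stab A _ hAd (by rw [natDegree_C]; omega) fun V hV => small_const V hA0 fun i hi hmax => ?_
    have h0 : 0 < V.valuation (A.coeff i) := lt_of_le_of_ne zero_le (Ne.symm (by rw [Ne, map_eq_zero]; exact hi))
    have e2 : c * (A.coeff 0 - p1 * A.coeff 1) = c * A.coeff 0 - c * p1 * A.coeff 1 := by ring
    rw [e2]
    refine lt_of_le_of_lt (V.valuation.map_sub _ _) (max_lt ?_ ?_)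
    · rw [map_mul]
      calc V.valuation c * V.valuation (A.coeff 0) ≤ V.valuation c * V.valuation (A.coeff i) := by
            gcongr
            exact hmax _
        _ < 1 * V.valuation (A.coeff i) := mul_lt_mul_of_pos_right (hc V hV) h0
        _ = V.valuation (A.coeff i) := one_mul _
    · rw [map_mul]
      calc V.valuation (c * p1) * V.valuation (A.coeff 1) ≤ V.valuation (c * p1) * V.valuation (A.coeff i) := by
            gcongr
            exact hmax _
        _ < 1 * V.valuation (A.coeff i) := mul_lt_mul_of_pos_right (hc1 V hV) h0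
        _ = V.valuation (A.coeff i) := one_mul _
  have htr : tr F (c • (dl F ρ * ρ)) = c := by
    have h1 := trX 1 (by rw [natDegree_one]; omega)
    rw [map_one, mul_one, coeff_one_zero, coeff_one, if_neg one_ne_zero, mul_zero, sub_zero] at h1
    have h2 : tr F (c • (dl F ρ * ρ)) = c * tr F (dl F ρ * ρ) := map_smul (Algebra.trace F K) c _
    rw [h2, h1, mul_one]
  refine ⟨⟨?_, key⟩, htr⟩
  intro h
  have h1 := (key 1 one_ne_zero).1
  apply h1
  unfold TT
  rw [mul_one, ← map_one (algebraMap F K), ← map_add, h, map_zero]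

theorem val_lt_of_ne {V : ValuationSubring F} {x : F} (hx : x ∈ V) (h : V.valuation x ≠ 1) :
    V.valuation x < 1 := lt_of_le_of_ne ((V.valuation_le_one_iff _).2 hx) h

/-- The support of a bad place. -/
theorem J_of (hEu : EulerStatement.{u}) (hCa : CalcStatement.{u}) (hSZ : ThmSZStatement.{u})
    [FiniteDimensional F K] {l p e : ℕ} {N : Subgroup Kˣ} {ρ : K} (hD : Dat F l p e N ρ)
    {Z : Set (ValuationSubring F)} {D : ℕ} {f : F[X]} (hZ : Supp F (l ^ e) N ρ Z D f)
    {W : ValuationSubring F} (hAW : AA F N ρ ≤ W.toSubring) (hU : UnitProp W ρ) (hcoef : CoV W (minpoly F ρ))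
    (hB : Bad (l ^ e) ρ W) (hno : ∀ w : F, W.valuation w = 1 → w • dl F ρ ∉ DA F N ρ) :
    ∀ j : F, (∀ V' ∈ Z, V'.valuation j < 1) → W.valuation j < 1 := by
  intro j hj
  by_contra hjW
  rw [not_lt] at hjW
  have hG := hD.gen
  have hCal := hCa F K l p e N ρ hD
  -- the unit c
  set c : F := j ^ D * (f.eval j)⁻¹ with hc
  have hcW : W.valuation c = 1 := by
    rw [hc, map_mul, map_pow, map_inv₀, hZ.anis W (Or.inr hB) j, max_eq_right hjW]
    refine mul_inv_cancel₀ (pow_ne_zero _ ?_)
    intro h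
    rw [h] at hjW
    exact absurd hjW (not_le.2 zero_lt_one)
  have hcZ : ∀ V ∈ Z, V.valuation c < 1 := by
    intro V hV
    rw [hc, map_mul, map_pow, map_inv₀, hZ.anis V (Or.inl hV) j, max_eq_left (hj V hV).le, one_pow, inv_one,
      mul_one]
    exact pow_lt_one₀ zero_le (hj V hV) (by have := hZ.pos; omega)
  obtain ⟨w, hw1, hw⟩ := hSZ F K l p e N ρ W ⟨hD, hAW, hU⟩ ⟨c, hcW, J_dl hEu hG hZ hcZ⟩ (by
    intro hn2 hl2
    set p1 := (minpoly F ρ).coeff 1 with hp1
    have hp1W : p1 ∈ W := hcoef 1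
    set c' : F := c * (f.eval p1)⁻¹ with hc'
    have hc'W : W.valuation c' = 1 := by
      rw [hc', map_mul, map_inv₀, hcW, hZ.anis W (Or.inr hB) p1,
        max_eq_left ((W.valuation_le_one_iff _).2 hp1W), one_pow, inv_one, mul_one]
    have hmax : ∀ V ∈ Z, V.valuation (f.eval p1) = (max 1 (V.valuation p1)) ^ D := fun V hV =>
      hZ.anis V (Or.inl hV) p1
    have hge : ∀ V ∈ Z, 1 ≤ V.valuation (f.eval p1) := by
      intro V hV
      rw [hmax V hV]
      exact one_le_pow₀ (le_max_left _ _)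
    have hge' : ∀ V ∈ Z, V.valuation p1 ≤ V.valuation (f.eval p1) := by
      intro V hV
      rw [hmax V hV]
      calc V.valuation p1 ≤ max 1 (V.valuation p1) := le_max_right _ _
        _ = (max 1 (V.valuation p1)) ^ 1 := (pow_one _).symm
        _ ≤ _ := pow_le_pow_right₀ (le_max_left _ _) hZ.pos
    have hc'Z : ∀ V ∈ Z, V.valuation c' < 1 := by
      intro V hV
      rw [hc', map_mul, map_inv₀]
      calc V.valuation c * (V.valuation (f.eval p1))⁻¹ ≤ V.valuation c * 1 := by
            gcongr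
            exact inv_le_one_of_one_le₀ (hge V hV)
        _ < 1 := by rw [mul_one]; exact hcZ V hV
    have hc'Z1 : ∀ V ∈ Z, V.valuation (c' * p1) < 1 := by
      intro V hV
      have h1 : 0 < V.valuation (f.eval p1) := lt_of_lt_of_le zero_lt_one (hge V hV)
      have e1 : V.valuation (c' * p1) = V.valuation c * ((V.valuation (f.eval p1))⁻¹ * V.valuation p1) := by
        rw [hc', map_mul, map_mul, map_inv₀, mul_assoc]
      rw [e1]
      calc V.valuation c * ((V.valuation (f.eval p1))⁻¹ * V.valuation p1)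
          ≤ V.valuation c * ((V.valuation (f.eval p1))⁻¹ * V.valuation (f.eval p1)) := by
            gcongr
            exact hge' V hV
        _ = V.valuation c := by rw [inv_mul_cancel₀ h1.ne', mul_one]
        _ < 1 := hcZ V hV
    obtain ⟨haD, hatr⟩ := J_dlrho hEu hG hn2 hZ hc'Z hc'Z1
    refine ⟨?_, _, haD, by rw [hatr]; exact hc'W⟩
    by_contra hcon
    push Not at hcon
    have hc'mem : c' ∈ W := (W.valuation_le_one_iff _).1 hc'W.le
    have h1 : W.valuation (c' + p1) < 1 :=
      val_lt_of_ne (W.add_mem _ _ hc'mem hp1W) (hcon c' hc'W (J_dl hEu hG hZ hc'Z))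
    have h2 : W.valuation (c' ^ 2 + p1) < 1 := by
      refine val_lt_of_ne (W.add_mem _ _ (W.toSubring.pow_mem hc'mem 2) hp1W)
        (hcon (c' ^ 2) (by rw [map_pow, hc'W, one_pow]) (J_dl hEu hG hZ fun V hV => ?_))
      rw [map_pow]
      exact pow_lt_one₀ zero_le (hc'Z V hV) (by norm_num)
    have h3 : W.valuation (c' * (c' - 1)) < 1 := by
      have e1 : c' * (c' - 1) = (c' ^ 2 + p1) + -(c' + p1) := by ring
      rw [e1]
      exact val_lt_add h2 (by rw [Valuation.map_neg]; exact h1)
    rw [map_mul, hc'W, one_mul] at h3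
    have : CharP F 2 := by
      have := hD.chr
      rwa [hl2] at this
    have h4 : c' - 1 = 1 + c' := by
      have h2' : (2 : F) = 0 := by
        have := CharP.cast_eq_zero F 2
        exact_mod_cast this
      linear_combination (-1 : F) * h2'
    rw [h4] at h3
    -- 1 + tr a is a unit of W
    have h5 := (hCal.2.2.2.2.2.2.2.2.2.2.2.1 _ haD).2
    rw [hatr] at h5
    have h6 : (1 + c')⁻¹ ∈ W := hAW (Subring.subset_closure (Or.inl (Or.inl h5)))
    have h7 : W.valuation (1 + c')⁻¹ ≤ 1 := (W.valuation_le_one_iff _).2 h6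
    have h8 : 1 + c' ≠ 0 := by
      have := haD.1
      rwa [hatr] at this
    have h9 : W.valuation ((1 + c') * (1 + c')⁻¹) < 1 := by
      rw [map_mul]
      calc W.valuation (1 + c') * W.valuation (1 + c')⁻¹ ≤ W.valuation (1 + c') * 1 := by gcongr
        _ < 1 := by rw [mul_one]; exact h3
    rw [mul_inv_cancel₀ h8, map_one] at h9
    exact lt_irrefl _ h9)
  exact hno w hw1 hw

end H3Z

end CL
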