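import Pool.Agent.Lib.MP_defcf3_al.CL.IfaceZ

/-!
Theorem (M_Z) from its final step.
-/

open Polynomial

namespace CL

universe u

theorem thmmZ_proof (hF : FinalZStatement.{u}) : ThmMZStatement.{u} := by
  intro F K _ _ _ _ l p e N ρ hD hp Z D f hZ x hx hbad
  set n := nn F ρ with hn
  set k := n * (l ^ 2 - 1) with hk
  set r : K := (x ^ n / algebraMap F K (Algebra.norm F x)) ^ k with hr
  have hn0 : n ≠ 0 := by have := hD.gen.two; omega
  have hl := hD.lpr.two_le
  have hl1 : l ^ 2 - 1 ≠ 0 := by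
    have : 2 ^ 2 ≤ l ^ 2 := Nat.pow_le_pow_left hl 2
    omega
  have hk0 : k ≠ 0 := mul_ne_zero hn0 hl1
  have hnx : Algebra.norm F x ≠ 0 := by
    rw [Ne, Algebra.norm_eq_zero_iff]
    exact hx
  have hnx' : algebraMap F K (Algebra.norm F x) ≠ 0 := by
    rw [Ne, map_eq_zero]
    exact hnx
  have hr0 : r ≠ 0 := pow_ne_zero _ (div_ne_zero (pow_ne_zero _ hx) hnx')
  -- r in N
  have hrN : InN N r := by
    by_cases hrF : ∃ c : F, r = algebraMap F K c
    · obtain ⟨c, hc⟩ := hrF
      rw [hc]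
      exact hD.base c (by rintro rfl; rw [map_zero] at hc; exact hr0 hc)
    · push Not at hrF
      obtain ⟨α, hα, a, ha, htr⟩ := hF F K l p e N ρ hD Z D f hZ x hx hbad r hr hrF
      have haD : a ∈ Dz F N := by
        have := ha 1 (AA F N ρ).one_mem
        rwa [one_smul] at this
      have hαK : algebraMap F K α ≠ 0 := by rw [Ne, map_eq_zero]; exact hα
      have hrα : r - algebraMap F K α ≠ 0 := sub_ne_zero.2 (hrF α)
      have hz : algebraMap F K α / (r - algebraMap F K α) ≠ 0 := div_ne_zero hαK hrα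
      have h1 := haD.1.2 _ hz
      unfold TT at h1
      rw [htr, map_one] at h1
      have e1 : algebraMap F K α / (r - algebraMap F K α) + 1 = r / (r - algebraMap F K α) := by
        field_simp
        ring
      rw [e1] at h1
      have h2 := h1.mul (Sim.refl (N := N) hrα)
      rw [div_mul_cancel₀ _ hrα, div_mul_cancel₀ _ hrα] at h2
      exact h2.inN (hD.base α hα)
  -- x^(nk) in N
  have h1 : InN N (x ^ (n * k)) := by
    have e1 : x ^ (n * k) = r * algebraMap F K (Algebra.norm F x) ^ k := by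
      rw [hr, div_pow, pow_mul, div_mul_cancel₀]
      exact pow_ne_zero _ hnx'
    rw [e1]
    exact hrN.mul ((hD.base _ hnx).pow k)
  have hcop : Nat.Coprime p (n * k) := by
    rw [hD.ppr.coprime_iff_not_dvd]
    intro h
    rcases (Nat.Prime.dvd_mul hD.ppr).1 h with h' | h'
    · exact hp (dvd_mul_of_dvd_left h' _)
    · exact hp h'
  -- Bezout
  obtain ⟨a, b, hab⟩ : ∃ a b : ℕ, a * (n * k) = 1 + b * p := by
    have hp2 := hD.ppr.two_le
    obtain ⟨m, -, hm⟩ := Nat.exists_mul_mod_eq_one_of_coprime hcop.symm (by omega)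
    refine ⟨m, (n * k * m) / p, ?_⟩
    have := Nat.mod_add_div (n * k * m) p
    rw [hm] at this
    rw [mul_comm m (n * k), mul_comm (n * k * m / p) p]
    exact this.symm
  have h2 : InN N ((x ^ (n * k)) ^ a / (x ^ p) ^ b) := (h1.pow a).div ((hD.tors x hx).pow b)
  have e2 : (x ^ (n * k)) ^ a / (x ^ p) ^ b = x := by
    rw [← pow_mul, ← pow_mul, mul_comm (n * k) a, hab, mul_comm p b, pow_add, pow_one, mul_div_assoc,
      div_self (pow_ne_zero _ hx), mul_one]
  rwa [e2] at h2

end CL
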