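import Pool.Agent.Lib.MP_defcf3_al.CL.Iface

/-!
(5.7): the transfer from ρ to R = ρ ^ q.
-/

open Polynomial

namespace CL

namespace Transfer

universe u

section

variable {F K : Type*} [Field F] [Field K] [Algebra F K]

/-- the q-th power of a valuation ring element -/
theorem val_pow_le (W : ValuationSubring F) {c : F} {q : ℕ} (hq : q ≠ 0) :
    c ^ q ∈ W ↔ c ∈ W := by
  rw [← W.valuation_le_one_iff, ← W.valuation_le_one_iff, map_pow]
  exact pow_le_one_iff hq

theorem val_pow_lt (W : ValuationSubring F) {c : F} {q : ℕ} (hq : q ≠ 0) :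
    W.valuation (c ^ q) < 1 ↔ W.valuation c < 1 := by
  rw [map_pow]
  exact pow_lt_one_iff hq

/-- a polynomial all of whose coefficients are q-th powers -/
theorem exists_root (q : ℕ) (hq : q ≠ 0) (hF : ∀ x : F, ∃ y : F, y ^ q = x) (B : F[X]) :
    ∃ A : F[X], ∀ i, A.coeff i ^ q = B.coeff i := by
  choose r hr using hF
  refine ⟨∑ i ∈ Finset.range (B.natDegree + 1), monomial i (r (B.coeff i)), ?_⟩
  intro i
  rw [finsetSum_coeff]
  simp only [coeff_monomial]
  rw [Finset.sum_ite_eq']
  split_ifs with h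
  · exact hr _
  · rw [zero_pow hq, coeff_eq_zero_of_natDegree_lt]
    rw [Finset.mem_range, not_lt] at h
    omega

end

theorem transfer_proof (h1 : TwistStatement.{u}) : TransferStatement.{u} := by
  intro F K _ _ _ _ l p e N ρ hD W _
  obtain ⟨-, -, -, -, -, hK, hF, hco, -, hae, -, -⟩ := h1 F K l p e N ρ hD
  have hl := hD.lpr
  have hchF : CharP F l := hD.chr
  have : CharP K l := charP_of_injective_algebraMap (algebraMap F K).injective l
  have : Fact l.Prime := ⟨hl⟩
  obtain ⟨q, hq⟩ : ∃ q, q = l ^ e := ⟨_, rfl⟩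
  have hq0 : q ≠ 0 := by rw [hq]; exact pow_ne_zero _ hl.ne_zero
  have hinj : ∀ x y : K, x ^ q = y ^ q → x = y := by
    intro x y h
    rw [hq] at h
    exact iterateFrobenius_inj K l e (by simpa [iterateFrobenius_def] using h)
  have hco1 : ∀ (A : F[X]) (i : ℕ), (tw q A).coeff i = A.coeff i ^ q := by
    intro A i
    have := hco A i 1
    rwa [pow_one, ← hq] at this
  have hae1 : ∀ (A : F[X]) (x : K), aeval (x ^ q) (tw q A) = (aeval x A) ^ q := by
    intro A x
    have := hae A x 1
    rwa [pow_one, ← hq] at this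
  -- every polynomial is a twist
  have htw : ∀ B : F[X], ∃ A : F[X], tw q A = B := by
    intro B
    obtain ⟨A, hA⟩ := exists_root q hq0 (by rw [hq]; exact hF) B
    refine ⟨A, ?_⟩
    ext i
    rw [hco1, hA]
  rw [← hq]
  have hB : ∀ x : K, x ∈ BB W ρ ↔ x ^ q ∈ BB W (ρ ^ q) := by
    intro x
    constructor
    · rintro ⟨A, hA, rfl⟩
      refine ⟨tw q A, ?_, hae1 A ρ⟩
      intro i
      rw [hco1]
      exact (val_pow_le W hq0).2 (hA i)
    · rintro ⟨B, hB, hx⟩
      obtain ⟨A, rfl⟩ := htw B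
      refine ⟨A, ?_, ?_⟩
      · intro i
        have := hB i
        rw [hco1] at this
        exact (val_pow_le W hq0).1 this
      · rw [hae1] at hx
        exact hinj _ _ hx
  have hM : ∀ x : K, x ∈ MB W ρ ↔ x ^ q ∈ MB W (ρ ^ q) := by
    intro x
    constructor
    · rintro ⟨A, hA, rfl⟩
      refine ⟨tw q A, ?_, hae1 A ρ⟩
      intro i
      rw [hco1]
      exact (val_pow_lt W hq0).2 (hA i)
    · rintro ⟨B, hB, hx⟩
      obtain ⟨A, rfl⟩ := htw B
      refine ⟨A, ?_, ?_⟩
      · intro i
        have := hB i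
        rw [hco1] at this
        exact (val_pow_lt W hq0).1 this
      · rw [hae1] at hx
        exact hinj _ _ hx
  refine ⟨hB, hM, ?_, ?_⟩
  · intro hU y hy hyM
    obtain ⟨x, rfl⟩ := hK y
    rw [← hq] at hy hyM ⊢
    have h2 := hU x ((hB x).2 hy) (fun h => hyM ((hM x).1 h))
    have h3 := (hB _).1 h2
    rwa [inv_pow] at h3
  · intro hU x hx hxM
    have h2 := hU (x ^ q) ((hB x).1 hx) (fun h => hxM ((hM x).2 h))
    rw [hB, inv_pow]
    exact h2

end Transfer

universe u

theorem transfer_proof (h1 : TwistStatement.{u}) : TransferStatement.{u} := Transfer.transfer_proof h1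

end CL
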