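import Pool.Agent.Lib.MP_defcf3_al.CL.Iface

/-!
Project CL (MP_defcf3_al), row Twist: Frobenius facts.
-/

open Polynomial

namespace CL.Tws

universe u

section Frob

variable {F K : Type u} [Field F] [Field K] [Algebra F K]

theorem tw_coeff (A : F[X]) (Q : ℕ) (hQ : Q ≠ 0) (i : ℕ) : (tw Q A).coeff i = A.coeff i ^ Q := by
  unfold tw
  rw [finsetSum_coeff]
  simp only [coeff_monomial]
  rw [Finset.sum_ite_eq' (Finset.range (A.natDegree + 1)) i (fun i => A.coeff i ^ Q)]
  split_ifs with h
  · rfl
  · rw [Finset.mem_range, not_lt] at h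
    rw [coeff_eq_zero_of_natDegree_lt (by omega), zero_pow hQ]

theorem tw_map (l m : ℕ) [hl : Fact l.Prime] [CharP F l] (A : F[X]) :
    tw (l ^ m) A = A.map (iterateFrobenius F l m) := by
  ext i
  rw [tw_coeff A _ (pow_ne_zero _ hl.out.ne_zero), coeff_map, iterateFrobenius_def]

theorem eval_tw (l m : ℕ) [hl : Fact l.Prime] [CharP F l] (A : F[X]) (s : F) :
    (tw (l ^ m) A).eval (s ^ l ^ m) = (A.eval s) ^ l ^ m := by
  rw [tw_map, ← iterateFrobenius_def, ← iterateFrobenius_def, eval_map, eval₂_at_apply]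

theorem aeval_tw (l m : ℕ) [hl : Fact l.Prime] [CharP F l] [CharP K l] (A : F[X]) (x : K) :
    aeval (x ^ l ^ m) (tw (l ^ m) A) = (aeval x A) ^ l ^ m := by
  rw [tw_map, ← iterateFrobenius_def, ← iterateFrobenius_def, aeval_def, aeval_def, eval₂_map, hom_eval₂]
  congr 1
  ext c
  simp [iterateFrobenius_def]

theorem exists_root (l : ℕ) (hF : ∀ x : F, ∃ y : F, y ^ l = x) (m : ℕ) : ∀ x : F, ∃ y : F, y ^ l ^ m = x := by
  induction m with
  | zero => intro x; exact ⟨x, by simp⟩
  | succ m ih =>
    intro x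
    obtain ⟨y, hy⟩ := hF x
    obtain ⟨z, hz⟩ := ih y
    exact ⟨z, by rw [pow_succ, pow_mul, hz, hy]⟩

end Frob

end CL.Tws

namespace CL

universe u

open Tws

theorem twist_proof : TwistStatement.{u} := by
  intro F K _ _ _ _ l p e N ρ hD
  have hlp : Fact l.Prime := ⟨hD.lpr⟩
  have : CharP F l := hD.chr
  have : CharP K l := charP_of_injective_algebraMap (algebraMap F K).injective l
  have hsurj : Function.Surjective (frobenius F l) := fun x => by
    obtain ⟨y, hy⟩ := hD.perf x
    exact ⟨y, by rw [frobenius_def, hy]⟩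
  have : PerfectRing F l := PerfectRing.ofSurjective F l hsurj
  have : PerfectField F := PerfectRing.toPerfectField F l
  have : PerfectField K := Algebra.IsAlgebraic.perfectField (K := F)
  have : PerfectRing K l := PerfectField.toPerfectRing l
  have hq : l ^ e ≠ 0 := pow_ne_zero _ hD.lpr.ne_zero
  have hFr : ∀ x : F, ∃ y : F, y ^ l ^ e = x := exists_root l hD.perf e
  have hKr : ∀ x : K, ∃ y : K, y ^ l ^ e = x := by
    refine exists_root l ?_ e
    intro x
    obtain ⟨y, hy⟩ := surjective_frobenius K l x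
    exact ⟨y, by rw [← frobenius_def, hy]⟩
  -- the minimal polynomial
  set P := minpoly F ρ with hP
  have hmon : P.Monic := minpoly.monic hD.gen.int
  have hirr : Irreducible P := minpoly.irreducible hD.gen.int
  have hmap : tw (l ^ e) P = P.map (iterateFrobenius F l e) := tw_map l e P
  have hmon1 : (tw (l ^ e) P).Monic := by
    rw [hmap]
    exact hmon.map _
  have hdeg1 : (tw (l ^ e) P).natDegree = P.natDegree := by
    rw [hmap]
    exact natDegree_map_eq_of_injective (iterateFrobenius F l e).injective _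
  have hirr1 : Irreducible (tw (l ^ e) P) := by
    rw [hmap]
    have h1 : P.map (iterateFrobenius F l e) = Polynomial.mapEquiv (iterateFrobeniusEquiv F l e) P := by
      rw [Polynomial.mapEquiv_apply]
      congr 1
    rw [h1]
    exact (MulEquiv.irreducible_iff (Polynomial.mapEquiv (iterateFrobeniusEquiv F l e))).2 hirr
  have hroot : aeval (ρ ^ l ^ e) (tw (l ^ e) P) = 0 := by
    rw [aeval_tw, hP, minpoly.aeval, zero_pow hq]
  have hmin : minpoly F (ρ ^ l ^ e) = tw (l ^ e) P :=
    (minpoly.eq_of_irreducible_of_monic hirr1 hroot hmon1).symm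
  have hnn : nn F (ρ ^ l ^ e) = nn F ρ := by
    unfold nn
    rw [hmin, hdeg1]
  have hint : IsIntegral F (ρ ^ l ^ e) := hD.gen.int.pow _
  have htopρ : IntermediateField.adjoin F {ρ} = ⊤ := by
    rw [← IntermediateField.toSubalgebra_inj, IntermediateField.adjoin_simple_toSubalgebra_of_isAlgebraic
      hD.gen.int.isAlgebraic, hD.gen.top, IntermediateField.top_toSubalgebra]
  have hfin : (minpoly F ρ).natDegree = Module.finrank F K :=
    (Field.primitive_element_iff_minpoly_natDegree_eq F ρ).1 htopρ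
  have htopR : IntermediateField.adjoin F {ρ ^ l ^ e} = ⊤ := by
    refine (Field.primitive_element_iff_minpoly_natDegree_eq F (ρ ^ l ^ e)).2 ?_
    rw [hmin, hdeg1, hP, hfin]
  have hgen : Gen F (ρ ^ l ^ e) := by
    refine ⟨?_, hint, ?_, ?_⟩
    · rw [← IntermediateField.adjoin_simple_toSubalgebra_of_isAlgebraic hint.isAlgebraic, htopR,
        IntermediateField.top_toSubalgebra]
    · rw [hmin, hmap]
      exact hD.gen.sep.map
    · rw [hnn]
      exact hD.gen.two
  refine ⟨hgen, hmin, hnn, ?_, ?_, hKr, hFr, ?_, ?_, ?_, ?_, ?_⟩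
  · unfold dl
    rw [hmin, hmap, derivative_map, ← tw_map, aeval_tw, inv_pow]
  · have h2 := hD.gen.two
    unfold nn at h2 ⊢
    have hlt : (GG F (l ^ e) ρ).degree < (tw (l ^ e) P).degree := by
      unfold GG
      refine degree_sub_lt_left ?_ hmon1.ne_zero ?_
      · rw [degree_eq_natDegree hmon1.ne_zero, ← hP, degree_eq_natDegree hmon.ne_zero, hdeg1]
      · rw [hmon1.leadingCoeff, ← hP, hmon.leadingCoeff]
    by_cases h0 : GG F (l ^ e) ρ = 0
    · rw [h0, natDegree_zero]
      omega
    · rw [← hP, ← hdeg1]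
      exact natDegree_lt_natDegree h0 hlt
  · intro A i m
    exact tw_coeff A _ (pow_ne_zero _ hq) i
  · intro A s m
    rw [← pow_mul]
    exact eval_tw l (e * m) A s
  · intro A x m
    rw [← pow_mul]
    exact aeval_tw l (e * m) A x
  · intro A k m
    ext i
    rw [tw_coeff _ _ (pow_ne_zero _ hq), tw_coeff _ _ (pow_ne_zero _ hq), tw_coeff _ _ (pow_ne_zero _ hq),
      ← pow_mul, ← pow_add, add_comm m k]
  · intro x
    have h := Algebra.trace_eq_of_equiv_equiv (iterateFrobeniusEquiv F l e) (iterateFrobeniusEquiv K l e)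
      (by
        ext c
        simp [iterateFrobenius_def]) x
    have h2 := congrArg (iterateFrobeniusEquiv F l e) h
    rw [RingEquiv.apply_symm_apply] at h2
    unfold tr
    rw [iterateFrobeniusEquiv_apply, iterateFrobenius_def, iterateFrobeniusEquiv_apply, iterateFrobenius_def] at h2
    exact h2.symm

end CL
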