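import Pool.Agent.Lib.MP_defcf3_al.CL.Iface

/-!
Project CL (MP_defcf3_al), part (M), row Unit: (5.5). Every element of V0[ρ] outside m0 V0[ρ] is a unit.
-/

open Polynomial

namespace CL

universe u

namespace Unit61

variable {F K : Type u} [Field F] [Field K] [Algebra F K]

theorem tr_smul (c : F) (x : K) : tr F (c • x) = c * tr F x := by
  unfold tr
  rw [map_smul, smul_eq_mul]

variable [FiniteDimensional F K]

theorem unit_low (h1 : EulerStatement.{u}) (h3 : IntegStatement.{u}) (h4 : LatticeStatement.{u})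
    {q : ℕ} {ρ : K} {W : ValuationSubring F} {D : Set K} (h : Five F q ρ W D) (E : F[X])
    (hdeg : E.natDegree ≤ nn F ρ - 2) (hE : CoV W E) (hM : ¬ CoM W E) : (aeval ρ E)⁻¹ ∈ BB W ρ := by
  have hgen := h.gen
  have htwo : 2 ≤ nn F ρ := hgen.two
  obtain ⟨euler1, -, -, hρ0, hδ0, -, -⟩ := h1 F K ρ hgen
  obtain ⟨-, bb, -, aBB, aMB, -, -, -, -, -, -⟩ := h3 F K ρ hgen W h.coef
  obtain ⟨lat1, -, lat3⟩ := h4 F K q ρ W D h
  -- a coefficient which is a unit
  obtain ⟨j, hj⟩ : ∃ j, W.valuation (E.coeff j) = 1 := by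
    unfold CoM at hM
    push Not at hM
    obtain ⟨j, hj⟩ := hM
    exact ⟨j, le_antisymm ((W.valuation_le_one_iff _).2 (hE j)) hj⟩
  have hy0 : aeval ρ E ≠ 0 := by
    intro h0
    apply hM
    rw [← aMB E (by omega), h0]
    exact (MB W ρ).zero_mem
  rcases Nat.lt_or_ge 2 (nn F ρ) with hn | hn
  · -- n at least 3
    rw [bb]
    intro m hm
    have key : ∀ c c' : F, c • dl F ρ ∈ D → c' • dl F ρ ∈ D →
        c * c' * tr F (dl F ρ * ρ ^ m * (aeval ρ E)⁻¹) ∈ W := by
      intro c c' hc hc'
      obtain ⟨i, k, hi, hk, hik⟩ : ∃ i k, i ≤ nn F ρ - 2 ∧ k ≤ nn F ρ - 2 ∧ i + k = m := by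
        rcases Nat.le_total m (nn F ρ - 2) with hm2 | hm2
        · exact ⟨m, 0, hm2, by omega, by omega⟩
        · exact ⟨nn F ρ - 2, m - (nn F ρ - 2), le_rfl, by omega, by omega⟩
      have d1 := lat1 c hc i hi
      have d2 := lat1 c' hc' k hk
      have hz0 : dl F ρ * aeval ρ E ≠ 0 := mul_ne_zero hδ0 hy0
      have htr : tr F (dl F ρ * aeval ρ E) = 0 := by
        rw [euler1 E (by omega)]
        exact coeff_eq_zero_of_natDegree_lt (by omega)
      have d3 := h.sq _ d1 _ d2 _ hz0 htr
      set t : F := c * c' * tr F (dl F ρ * ρ ^ m * (aeval ρ E)⁻¹) with ht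
      have e1 : tr F (c • (dl F ρ * ρ ^ i) * c' • (dl F ρ * ρ ^ k) / (dl F ρ * aeval ρ E)) = t := by
        rw [ht, mul_assoc c c', ← tr_smul, ← tr_smul]
        congr 1
        rw [Algebra.smul_def, Algebra.smul_def, Algebra.smul_def, Algebra.smul_def, ← hik, pow_add]
        field_simp
      rw [e1] at d3
      have e2 : t • (dl F ρ * aeval ρ E) = dl F ρ * aeval ρ (C t * E) := by
        rw [map_mul, aeval_C, Algebra.smul_def]
        ring
      rw [e2] at d3
      have hd : (C t * E).natDegree < nn F ρ := lt_of_le_of_lt (natDegree_C_mul_le _ _) (by omega)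
      have d4 := (lat3 _ hd d3).2 j
      rw [coeff_C_mul, ← W.valuation_le_one_iff, map_mul, hj, mul_one, W.valuation_le_one_iff] at d4
      exact d4
    refine h.cut _ fun c hc => ?_
    obtain ⟨x, hx, y, hy, hxy⟩ := h.prod c hc
    rw [hxy]
    exact key x y hx hy
  · -- n = 2
    have hE0 : E = C (E.coeff 0) := eq_C_of_natDegree_le_zero (by omega)
    have hj0 : j = 0 := by
      by_contra hne
      rw [hE0, coeff_C_of_ne_zero hne, map_zero] at hj
      exact zero_ne_one hj
    rw [hj0] at hj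
    rw [hE0, aeval_C, ← map_inv₀]
    refine alg_mem_BB ?_
    rw [← W.valuation_le_one_iff, map_inv₀, hj, inv_one]

end Unit61

open Unit61 in
/-- Row Unit: (5.5). -/
theorem unit_proof (h1 : EulerStatement.{u}) (h3 : IntegStatement.{u}) (h4 : LatticeStatement.{u}) :
    UnitStatement.{u} := by
  intro F K _ _ _ _ q ρ W D h x hx hxM
  have hgen := h.gen
  have htwo : 2 ≤ nn F ρ := hgen.two
  obtain ⟨-, -, -, -, -, -, hrep⟩ := h1 F K ρ hgen
  obtain ⟨-, -, -, aBB, aMB, -, -, inv1, inv2, -, -⟩ := h3 F K ρ hgen W h.coef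
  obtain ⟨E, hEd, hEx⟩ := hrep x
  have hE : CoV W E := (aBB E hEd).1 (by rw [hEx]; exact hx)
  have hEM : ¬ CoM W E := by
    intro hc
    apply hxM
    rw [← hEx]
    exact (aMB E hEd).2 hc
  rcases Nat.lt_or_ge E.natDegree (nn F ρ - 1) with hlow | hhigh
  · rw [← hEx]
    exact unit_low h1 h3 h4 h E (by omega) hE hEM
  set e : F := E.coeff (nn F ρ - 1) with he
  set e' : F := E.coeff (nn F ρ - 2) with he'
  set p' : F := (minpoly F ρ).coeff (nn F ρ - 1) with hp'
  have hdeg : E.natDegree = nn F ρ - 1 := by omega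
  have he0 : e ≠ 0 := by
    have hne : E ≠ 0 := by
      intro h0
      rw [h0, natDegree_zero] at hdeg
      omega
    have h5 : E.leadingCoeff ≠ 0 := leadingCoeff_ne_zero.2 hne
    rw [leadingCoeff, hdeg] at h5
    exact h5
  have hp'W : p' ∈ W := h.coef _
  have hmonic : (minpoly F ρ).Monic := minpoly.monic hgen.int
  have hPn : (minpoly F ρ).coeff (nn F ρ) = 1 := hmonic.coeff_natDegree
  -- reduction step: u y of lower degree, u a unit of B
  have step : ∀ (u : K) (E' : F[X]), u ≠ 0 → u ∈ BB W ρ → u⁻¹ ∈ BB W ρ → u * x = aeval ρ E' →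
      E'.natDegree ≤ nn F ρ - 2 → x⁻¹ ∈ BB W ρ := by
    intro u E' hu0 huB huI hux hd
    have m1 : aeval ρ E' ∈ BB W ρ := by
      rw [← hux]
      exact (BB W ρ).mul_mem huB hx
    have m2 : aeval ρ E' ∉ MB W ρ := by
      intro hm
      apply hxM
      have := BB_mul_MB huI hm
      rwa [← hux, inv_mul_cancel_left₀ hu0] at this
    have m3 : (aeval ρ E')⁻¹ ∈ BB W ρ := by
      refine unit_low h1 h3 h4 h E' hd ((aBB E' (by omega)).1 m1) ?_
      intro hc
      exact m2 ((aMB E' (by omega)).2 hc)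
    have m4 := (BB W ρ).mul_mem huB m3
    rwa [← hux, mul_inv, mul_inv_cancel_left₀ hu0] at m4
  have haeval0 : aeval ρ (minpoly F ρ) = 0 := minpoly.aeval F ρ
  -- degrees
  have hPdeg : (minpoly F ρ).natDegree = nn F ρ := rfl
  have cE : ∀ N, nn F ρ - 1 < N → E.coeff N = 0 := fun N hN => coeff_eq_zero_of_natDegree_lt (by omega)
  have cP : ∀ N, nn F ρ < N → (minpoly F ρ).coeff N = 0 := fun N hN => coeff_eq_zero_of_natDegree_lt (by omega)
  by_cases hcase : e' / e ∈ W
  · set s : F := e' / e - p' with hs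
    have hsW : s ∈ W := W.sub_mem hcase hp'W
    have hinv := inv1 s hsW (h.unit s hsW)
    have hu0 : ρ - algebraMap F K s ≠ 0 := ((h1 F K ρ hgen).2.1 s).2
    refine step (ρ - algebraMap F K s) ((X - C s) * E - C e * minpoly F ρ) hu0
      ((BB W ρ).sub_mem (gen_mem_BB W ρ) (alg_mem_BB hsW)) hinv ?_ ?_
    · have h5 : aeval ρ ((X - C s) * E - C e * minpoly F ρ)
          = (aeval ρ (X : F[X]) - aeval ρ (C s)) * aeval ρ E - aeval ρ (C e) * aeval ρ (minpoly F ρ) := by
        simp only [map_sub, map_mul]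
      rw [h5, haeval0, mul_zero, sub_zero, aeval_X, aeval_C, hEx]
    · rw [natDegree_le_iff_coeff_eq_zero]
      intro N hN
      obtain ⟨M, rfl⟩ : ∃ M, N = M + 1 := ⟨N - 1, by omega⟩
      rw [coeff_sub, coeff_X_sub_C_mul, coeff_C_mul]
      rcases Nat.lt_trichotomy (M + 1) (nn F ρ) with hlt | heq | hgt
      · have hM1 : M + 1 = nn F ρ - 1 := by omega
        have hM2 : M = nn F ρ - 2 := by omega
        rw [hM1, ← he, ← hp', hM2, ← he', hs]
        field_simp
        ring
      · have hM2 : M = nn F ρ - 1 := by omega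
        rw [cE (M + 1) (by omega), heq, hPn, hM2, ← he]
        ring
      · rw [cE (M + 1) (by omega), cE M (by omega), cP (M + 1) (by omega)]
        ring
  · set w : F := e' / e - p' with hw
    have hwW : w ∉ W := by
      intro hc
      apply hcase
      have := W.add_mem _ _ hc hp'W
      rwa [hw, sub_add_cancel] at this
    have hw0 : w ≠ 0 := by
      intro h0
      rw [h0] at hwW
      exact hwW W.zero_mem
    have hw1 : 1 < W.valuation w := by
      rw [← not_le, W.valuation_le_one_iff]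
      exact hwW
    set t : F := w⁻¹ with ht
    have ht1 : W.valuation t < 1 := by
      rw [ht, map_inv₀]
      exact inv_lt_one_of_one_lt₀ hw1
    have ht0 : t ≠ 0 := inv_ne_zero hw0
    have htW : t ∈ W := (W.valuation_le_one_iff _).1 ht1.le
    have hinv := inv2 t ht1
    have hu0 : 1 - algebraMap F K t * ρ ≠ 0 := by
      intro h0
      have h5 : algebraMap F K t * (ρ - algebraMap F K w) = 0 := by
        have h6 : algebraMap F K t * algebraMap F K w = 1 := by
          rw [← map_mul, ht, inv_mul_cancel₀ hw0, map_one]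
        rw [mul_sub, h6]
        linear_combination -h0
      rcases mul_eq_zero.1 h5 with h6 | h6
      · exact ht0 ((_root_.map_eq_zero _).1 h6)
      · exact ((h1 F K ρ hgen).2.1 w).2 h6
    refine step (1 - algebraMap F K t * ρ) (E - C t * (X * E) + C (t * e) * minpoly F ρ) hu0
      ((BB W ρ).sub_mem (BB W ρ).one_mem ((BB W ρ).mul_mem (alg_mem_BB htW) (gen_mem_BB W ρ))) hinv ?_ ?_
    · rw [map_add, map_sub, map_mul, map_mul, map_mul, haeval0, mul_zero, add_zero, aeval_X, aeval_C, hEx]
      ring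
    · rw [natDegree_le_iff_coeff_eq_zero]
      intro N hN
      obtain ⟨M, rfl⟩ : ∃ M, N = M + 1 := ⟨N - 1, by omega⟩
      rw [coeff_add, coeff_sub, coeff_C_mul, coeff_C_mul, coeff_X_mul]
      have hte : t * (e' - p' * e) = e := by
        have h6 : e' - p' * e = w * e := by
          rw [hw]
          field_simp
        rw [h6, ht, inv_mul_cancel_left₀ hw0]
      rcases Nat.lt_trichotomy (M + 1) (nn F ρ) with hlt | heq | hgt
      · have hM1 : M + 1 = nn F ρ - 1 := by omega
        have hM2 : M = nn F ρ - 2 := by omega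
        rw [hM1, ← he, ← hp', hM2, ← he']
        linear_combination -hte
      · have hM2 : M = nn F ρ - 1 := by omega
        rw [cE (M + 1) (by omega), heq, hPn, hM2, ← he]
        ring
      · rw [cE (M + 1) (by omega), cE M (by omega), cP (M + 1) (by omega)]
        ring

end CL
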