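import Pool.Agent.Lib.MP_defcf3_al.CL.Iface

/-!
Project CL (MP_defcf3_al), row Units: (6.2) (i) - (iii) and the operators of (v).
-/

open Polynomial

namespace CL

universe u

namespace H6

variable {F K : Type u} [Field F] [Field K] [Algebra F K]

theorem tr_smul (c : F) (x : K) : tr F (c • x) = c * tr F x := by
  simp [tr]

/-- composition of two operators -/
theorem op_comp {N : Subgroup Kˣ} {x d y d' : K} (h : Op F N x d) (h' : Op F N y d') :
    Op F N x (tr F (d * y) • d') := by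
  intro a ha
  have h1 := h' _ (h a ha)
  rw [smul_mul_assoc, tr_smul, mul_smul] at h1
  exact h1

/-- P2 gives operators -/
theorem op_P2 {N : Subgroup Kˣ}
    (hP2 : ∀ a ∈ Dp F N, ∀ b ∈ Dp F N, ∀ c : K, c ≠ 0 → tr F c = 0 → tr F (a * b / c) • c ∈ Dz F N)
    {b c : K} (hb : b ∈ Dz F N) (hc : c ≠ 0) (htc : tr F c = 0) : Op F N (b / c) c := by
  intro a ha
  have := hP2 a ha.1 b hb.1 c hc htc
  rwa [mul_div_assoc] at this

theorem op_smul {N : Subgroup Kˣ} {x d : K} {c : F} (h : Op F N (c • x) d) : Op F N x (c • d) := by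
  intro a ha
  have h1 := h a ha
  rw [mul_smul_comm, tr_smul] at h1
  rw [smul_smul, mul_comm]
  exact h1

end H6

open H6 in
theorem units_proof (h1 : PathStatement.{u}) (h2 : P2Statement.{u}) (h3 : EulerStatement.{u})
    (h4 : DualStatement.{u}) (h5 : IntegStatement.{u}) (h6 : RingAStatement.{u})
    (_h7 : CalcStatement.{u}) : UnitsStatement.{u} := by
  intro F K _ _ _ _ l p e N ρ V hS hn ⟨w, hw, hwd⟩
  have hD := hS.dat
  have hG := hD.gen
  obtain ⟨-, hP2⟩ := h2 F K l p e N ρ hD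
  obtain ⟨E1, E0, E2, hρ, hδ, -, -⟩ := h3 F K ρ hG
  obtain ⟨-, -, D3, D4, -, -⟩ := h4 F K ρ hG
  obtain ⟨-, hRA⟩ := h6 F K l p e N ρ hD
  obtain ⟨hco, hun, -, -⟩ := hRA V hS.le
  obtain ⟨I1, I2, I3, I4, I5, I6, I7, I8, -, -, -⟩ := h5 F K ρ hG V hco
  set n := nn F ρ with hndef
  set δ := dl F ρ with hδdef
  set P := minpoly F ρ with hPdef
  have hP0 : V.valuation (P.eval 0) = 1 := hun 0 V.zero_mem
  have hP1 : V.valuation (P.eval 1) = 1 := hun 1 V.one_mem
  -- traces of delta times powers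
  have trpow : ∀ k ≤ n - 2, tr F (δ * ρ ^ k) = 0 := by
    intro k hk
    have := E1 (X ^ k) (by rw [natDegree_X_pow]; omega)
    rw [map_pow, aeval_X, coeff_X_pow, if_neg (by omega)] at this
    exact this
  have trtop : tr F (δ * ρ ^ (n - 1)) = 1 := by
    have := E1 (X ^ (n - 1)) (by rw [natDegree_X_pow]; omega)
    rw [map_pow, aeval_X, coeff_X_pow, if_pos rfl] at this
    exact this
  have trinv : tr F (δ / ρ) = - (P.eval 0)⁻¹ := by
    have := E2 (C 1) (by rw [natDegree_C]; omega) 0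
    rw [aeval_C, map_one, mul_one, map_zero, sub_zero, eval_C, one_div] at this
    exact this
  have dne : ∀ k, δ * ρ ^ k ≠ 0 := fun k => mul_ne_zero hδ (pow_ne_zero _ hρ)
  -- the path lemma
  have path : ∀ k ≤ n - 2, ∃ c : F, V.valuation c = 1 ∧ c • (δ * ρ ^ k) ∈ Dz F N := by
    refine h1 F K ρ hG V hP0 hP1 (Dz F N) (fun a ha => ha.2)
      (fun a ha b hb c hc htc => hP2 a ha.1 b hb.1 c hc htc) ⟨0, by omega, w, hw, ?_⟩
    rw [pow_zero, mul_one]
    exact hwd
  choose! c hc1 hcD using path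
  have valne : ∀ x : F, V.valuation x = 1 → x ≠ 0 := by
    intro x hx h0
    rw [h0, map_zero] at hx
    exact zero_ne_one hx
  -- (i)
  have op1 : ∀ j ≤ n - 2, ∀ k ≤ n - 2, Op F N (ρ ^ j / ρ ^ k) (c j • (δ * ρ ^ k)) := by
    intro j hj k hk
    apply op_smul
    have := op_P2 hP2 (hcD j hj) (dne k) (trpow k hk)
    rwa [smul_div_assoc, mul_div_mul_left _ _ hδ] at this
  -- (ii)
  have op2 : ∀ j ≤ n - 1, ∀ k ≤ n - 2, ∃ u : F, V.valuation u = 1 ∧
      Op F N (ρ ^ j / ρ) (u • (δ * ρ ^ k)) := by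
    intro j hj k hk
    have vinv : V.valuation (-(P.eval 0)⁻¹) = 1 := by
      rw [Valuation.map_neg, map_inv₀, hP0, inv_one]
    rcases Nat.eq_zero_or_pos j with rfl | hj0
    · -- m = -1, start at k = 1
      have st : Op F N (ρ ^ 0 / ρ) (c 0 • (δ * ρ ^ 1)) := by
        have := op1 0 (by omega) 1 (by omega)
        rwa [pow_one] at this ⊢
      rcases Nat.lt_trichotomy k 1 with hk1 | hk1 | hk1
      · have hk0 : k = 0 := by omega
        subst hk0
        refine ⟨c 0 * c (n - 2), by rw [map_mul, hc1 0 (by omega), hc1 _ le_rfl, one_mul], ?_⟩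
        have := op_comp st (op1 (n - 2) le_rfl 0 (by omega))
        rw [smul_mul_assoc, tr_smul] at this
        have e : δ * ρ ^ 1 * (ρ ^ (n - 2) / ρ ^ 0) = δ * ρ ^ (n - 1) := by
          rw [pow_zero, div_one, mul_assoc, ← pow_add]
          congr 2
          omega
        rw [e, trtop, mul_one, smul_smul] at this
        exact this
      · subst hk1
        exact ⟨c 0, hc1 0 (by omega), st⟩
      · refine ⟨c 0 * (-(P.eval 0)⁻¹) * c (k - 2), by
          rw [map_mul, map_mul, hc1 0 (by omega), vinv, hc1 (k - 2) (by omega), one_mul, one_mul], ?_⟩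
        have := op_comp st (op1 (k - 2) (by omega) k hk)
        rw [smul_mul_assoc, tr_smul] at this
        have e : δ * ρ ^ 1 * (ρ ^ (k - 2) / ρ ^ k) = δ / ρ := by
          have hk' : ρ ^ k = ρ ^ (k - 2) * ρ ^ 2 := by rw [← pow_add]; congr 1; omega
          rw [hk']
          field_simp
        rw [e, trinv, smul_smul] at this
        exact this
    · have ej : ρ ^ j / ρ = ρ ^ (j - 1) / ρ ^ 0 := by
        have hj' : ρ ^ j = ρ ^ (j - 1) * ρ := by rw [← pow_succ]; congr 1; omega
        rw [hj', mul_div_assoc, div_self hρ, pow_zero, div_one, mul_one]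
      have st : Op F N (ρ ^ j / ρ) (c (j - 1) • (δ * ρ ^ 0)) := by
        rw [ej]
        exact op1 (j - 1) (by omega) 0 (by omega)
      rcases Nat.eq_zero_or_pos k with rfl | hk0
      · exact ⟨c (j - 1), hc1 _ (by omega), st⟩
      · refine ⟨c (j - 1) * (-(P.eval 0)⁻¹) * c (k - 1), by
          rw [map_mul, map_mul, hc1 (j - 1) (by omega), vinv, hc1 (k - 1) (by omega), one_mul,
            one_mul], ?_⟩
        have := op_comp st (op1 (k - 1) (by omega) k hk)
        rw [smul_mul_assoc, tr_smul] at this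
        have e : δ * ρ ^ 0 * (ρ ^ (k - 1) / ρ ^ k) = δ / ρ := by
          have hk' : ρ ^ k = ρ ^ (k - 1) * ρ := by rw [← pow_succ]; congr 1; omega
          rw [hk']
          field_simp
        rw [e, trinv, smul_smul] at this
        exact this
  refine ⟨?_, ?_, ?_⟩
  · -- (iii)
    intro i hi hi1 j hj hj1
    obtain ⟨hmon, hdeg⟩ := D4 i hi
    set β := aeval ρ (Bq F ρ i) with hβdef
    have hβB : β ∈ BB V ρ := ⟨Bq F ρ i, I1 i, rfl⟩
    have hβM : β ∉ MB V ρ := by
      intro h
      have := (I5 (Bq F ρ i) (by rw [hdeg]; omega)).1 h (Bq F ρ i).natDegree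
      rw [hmon.coeff_natDegree, map_one] at this
      exact lt_irrefl _ this
    have hβ0 : β ≠ 0 := by
      intro h
      apply hβM
      rw [h]
      exact (MB V ρ).zero_mem
    have hβinv : β⁻¹ ∈ BB V ρ := hS.unit β hβB hβM
    have hρinv : ρ⁻¹ ∈ BB V ρ := by
      have := I8 0 V.zero_mem hP0
      rwa [map_zero, sub_zero] at this
    set θ := ρ⁻¹ * β⁻¹ with hθdef
    have hθB : θ ∈ BB V ρ := (BB V ρ).mul_mem hρinv hβinv
    have hθM : θ ∉ MB V ρ := by
      intro h
      have h1 : (ρ * β) * θ ∈ MB V ρ := BB_mul_MB ((BB V ρ).mul_mem (gen_mem_BB V ρ) hβB) h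
      have h2 : (ρ * β) * θ = algebraMap F K 1 := by
        rw [hθdef, map_one]
        field_simp
      rw [h2, I7] at h1
      rw [map_one] at h1
      exact lt_irrefl _ h1
    -- some coordinate is a unit
    obtain ⟨m, hmn, hm⟩ : ∃ m < n, V.valuation (tr F (δ * ρ ^ m * θ)) = 1 := by
      by_contra hcon
      push Not at hcon
      apply hθM
      rw [I3]
      intro m hm
      have h1 : tr F (δ * ρ ^ m * θ) ∈ V := (I2 θ).1 hθB m hm
      exact lt_of_le_of_ne ((V.valuation_le_one_iff _).2 h1) (hcon m hm)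
    have hei : δ * ρ * β ≠ 0 := mul_ne_zero (mul_ne_zero hδ hρ) hβ0
    have htei : tr F (δ * ρ * β) = 0 := by
      have := D3 1 (by omega) i hi
      rw [if_neg (fun h => hi1 h.symm), pow_one] at this
      rw [← this]
      congr 1
      ring
    obtain ⟨k, j', hk, hj', hkj⟩ : ∃ k j', k ≤ n - 2 ∧ j' ≤ n - 2 ∧ k + j' = m := by
      rcases Nat.lt_or_ge (n - 2) m with h | h
      · exact ⟨n - 2, 1, le_rfl, by omega, by omega⟩
      · exact ⟨m, 0, h, by omega, by omega⟩
    obtain ⟨u, hu, hop⟩ := op2 j (by omega) k hk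
    refine ⟨u * (c j' * tr F (δ * ρ ^ m * θ)), by
      rw [map_mul, map_mul, hu, hc1 j' hj', hm, one_mul, one_mul], ?_⟩
    have h1 := op_comp hop (op_P2 hP2 (hcD j' hj') hei htei)
    rw [smul_mul_assoc, tr_smul, smul_div_assoc, mul_smul_comm, tr_smul] at h1
    have e : δ * ρ ^ k * (δ * ρ ^ j' / (δ * ρ * β)) = δ * ρ ^ m * θ := by
      rw [← hkj, pow_add, hθdef]
      field_simp
    rw [e] at h1
    exact h1
  · intro k hk
    obtain ⟨u, hu, hop⟩ := op2 0 (by omega) k hk
    refine ⟨u, hu, ?_⟩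
    rwa [pow_zero, one_div] at hop
  · -- (v)
    refine ⟨c 0 * c (n - 2), by rw [map_mul, hc1 0 (by omega), hc1 _ le_rfl, one_mul], ?_⟩
    intro s
    have hrs := (E0 s).2
    set z := ρ - algebraMap F K s with hzdef
    have hne : δ * z ≠ 0 := mul_ne_zero hδ hrs
    have htr : tr F (δ * z) = 0 := by
      have := E1 (X - C s) (by rw [natDegree_X_sub_C]; omega)
      rw [map_sub, aeval_X, aeval_C, coeff_sub, coeff_X, coeff_C, if_neg (by omega),
        if_neg (by omega), sub_zero] at this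
      exact this
    have htr2 : tr F (δ * z * (ρ ^ (n - 2) / ρ ^ 0)) = 1 := by
      have hmon : ((X - C s) * X ^ (n - 2) : F[X]).Monic := (monic_X_sub_C s).mul (monic_X_pow _)
      have hdeg : ((X - C s) * X ^ (n - 2) : F[X]).natDegree = n - 1 := by
        rw [(monic_X_sub_C s).natDegree_mul (monic_X_pow _), natDegree_X_sub_C, natDegree_X_pow]
        omega
      have := E1 ((X - C s) * X ^ (n - 2)) (by rw [hdeg]; omega)
      rw [← hdeg, hmon.coeff_natDegree, map_mul, map_sub, aeval_X, aeval_C, map_pow, aeval_X] at this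
      rw [← this, pow_zero, div_one, mul_assoc]
    have hc0 := hcD 0 (by omega)
    have h1 : Op F N z⁻¹ (c 0 • (δ * z)) := by
      apply op_smul
      have := op_P2 hP2 hc0 hne htr
      rwa [smul_div_assoc, mul_div_mul_left _ _ hδ, pow_zero, one_div] at this
    have h2 := op_comp h1 (op1 (n - 2) le_rfl 0 (by omega))
    rw [smul_mul_assoc, tr_smul, htr2, mul_one, smul_smul, pow_zero, mul_one] at h2
    exact h2

end CL
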