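import Pool.Agent.Lib.MP_defcf3_al.CL.Euler
import Pool.Agent.Lib.MP_defcf3_al.CL.Dual
import Pool.Agent.Lib.MP_defcf3_al.CL.Integ
import Pool.Agent.Lib.MP_defcf3_al.CL.Twist
import Pool.Agent.Lib.MP_defcf3_al.CL.Calc
import Pool.Agent.Lib.MP_defcf3_al.CL.P2
import Pool.Agent.Lib.MP_defcf3_al.CL.Special
import Pool.Agent.Lib.MP_defcf3_al.CL.Path
import Pool.Agent.Lib.MP_defcf3_al.CL.Interp
import Pool.Agent.Lib.MP_defcf3_al.CL.Coef
import Pool.Agent.Lib.MP_defcf3_al.CL.RingA
import Pool.Agent.Lib.MP_defcf3_al.CL.Place
import Pool.Agent.Lib.MP_defcf3_al.CL.Local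
import Pool.Agent.Lib.MP_defcf3_al.CL.Dich
import Pool.Agent.Lib.MP_defcf3_al.CL.Lattice
import Pool.Agent.Lib.MP_defcf3_al.CL.Unit
import Pool.Agent.Lib.MP_defcf3_al.CL.Residue
import Pool.Agent.Lib.MP_defcf3_al.CL.Transfer
import Pool.Agent.Lib.MP_defcf3_al.CL.SixOne
import Pool.Agent.Lib.MP_defcf3_al.CL.Units
import Pool.Agent.Lib.MP_defcf3_al.CL.SixTwo
import Pool.Agent.Lib.MP_defcf3_al.CL.NormRatio
import Pool.Agent.Lib.MP_defcf3_al.CL.SixThree
import Pool.Agent.Lib.MP_defcf3_al.CL.Cond
import Pool.Agent.Lib.MP_defcf3_al.CL.Arith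
import Pool.Agent.Lib.MP_defcf3_al.CL.ResRoot
import Pool.Agent.Lib.MP_defcf3_al.CL.Norm
import Pool.Agent.Lib.MP_defcf3_al.CL.NormPoly
import Pool.Agent.Lib.MP_defcf3_al.CL.Root
import Pool.Agent.Lib.MP_defcf3_al.CL.Alpha
import Pool.Agent.Lib.MP_defcf3_al.CL.End
import Pool.Agent.Lib.MP_defcf3_al.CL.ThmM
import Pool.Agent.Lib.MP_defcf3_al.CL.UnitsZ
import Pool.Agent.Lib.MP_defcf3_al.CL.SixTwoZ
import Pool.Agent.Lib.MP_defcf3_al.CL.SixThreeZ
import Pool.Agent.Lib.MP_defcf3_al.CL.SuppZ
import Pool.Agent.Lib.MP_defcf3_al.CL.FinalZ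
import Pool.Agent.Lib.MP_defcf3_al.CL.ThmMZ

/-!
Theorem (M_Z), all modules put together.
-/

namespace CL

universe u

theorem allM_dual : DualStatement.{u} := dual_proof euler_proof

theorem allM_integ : IntegStatement.{u} := integ_proof euler_proof allM_dual

theorem allM_calc : CalcStatement.{u} := calc_proof twist_proof

theorem allM_special : SpecialStatement.{u} := special_proof euler_proof twist_proof allM_calc p2_proof

theorem allM_coef : CoefStatement.{u} := coef_proof interp_proof

theorem allM_ringa : RingAStatement.{u} := ringa_proof allM_calc twist_proof allM_special allM_coef euler_proof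

theorem allM_local : LocalStatement.{u} :=
  local_proof allM_ringa (place_proof allM_ringa) allM_calc p2_proof allM_special

theorem allM_lattice : LatticeStatement.{u} := lattice_proof euler_proof allM_dual allM_integ

theorem allM_residue : ResidueStatement.{u} := residue_proof allM_integ euler_proof

theorem allM_sixone : SixOneStatement.{u} :=
  sixone_proof allM_special (path_proof euler_proof) p2_proof allM_integ allM_dual euler_proof twist_proof allM_ringa
    allM_calc

theorem allM_units : UnitsStatement.{u} :=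
  units_proof (path_proof euler_proof) p2_proof euler_proof allM_dual allM_integ allM_ringa allM_calc

theorem allM_unitsZ : UnitsZStatement.{u} :=
  unitsZ_proof (path_proof euler_proof) p2_proof euler_proof allM_dual allM_integ allM_ringa allM_calc

theorem allM_sixtwo : SixTwoStatement.{u} := sixtwo_proof allM_units allM_dual euler_proof allM_calc allM_ringa

theorem allM_sixtwoZ : SixTwoZStatement.{u} := sixtwoZ_proof allM_unitsZ allM_dual euler_proof allM_calc allM_ringa

theorem allM_sixthreeZ : SixThreeZStatement.{u} :=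
  sixthreeZ_proof (normRatio_proof allM_calc euler_proof) euler_proof allM_calc allM_ringa allM_integ

theorem allM_sixthree : SixThreeStatement.{u} :=
  sixthree_proof allM_sixthreeZ allM_special allM_calc allM_ringa twist_proof

theorem allM_cond : CondStatement.{u} := cond_proof allM_calc allM_special allM_ringa

theorem allM_thmS : ThmSStatement.{u} := thms_proof allM_sixone allM_sixtwo allM_sixthree allM_cond

theorem allM_thmSZ : ThmSZStatement.{u} := thmsZ_proof allM_sixtwoZ allM_sixthreeZ allM_cond

theorem allM_root : RootStatement.{u} := Rt.root_proof (resroot_proof arith_proof) allM_residue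

theorem allM_alpha : AlphaStatement.{u} :=
  alpha_proof norm_proof normPoly allM_residue allM_integ euler_proof

theorem allM_unit : UnitStatement.{u} := unit_proof euler_proof allM_integ allM_lattice

/-- Theorem (M_Z). -/
theorem allM_thmMZ : ThmMZStatement.{u} :=
  thmmZ_proof (finalZ_proof allM_calc allM_thmSZ euler_proof allM_dual allM_integ twist_proof allM_ringa allM_local
    dich_proof allM_lattice allM_unit allM_residue (transfer_proof twist_proof) allM_thmS norm_proof allM_root allM_alpha
    (end_proof allM_integ))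

end CL
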