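import Pool.Agent.Lib.MP_defcf3_al.CL.Cyc

/-!
Project CL (MP_defcf3_al), part (B), section (4.8) of findings 4324: the content form.
-/

open Polynomial

namespace CL.H58

section Form

variable {F : Type*} [Field F]

/-- The form H. -/
noncomputable def HH (P : F[X]) (s t : F) : F :=
  ∑ i ∈ Finset.range (P.natDegree + 1), P.coeff i * s ^ i * t ^ (P.natDegree - i)

/-- The content of a sequence. -/
noncomputable def cn (P : F[X]) (a : ℕ → F) : ℕ → F
  | 0 => a 0
  | k + 1 => HH P (cn P a k) (a (k + 1) ^ P.natDegree ^ k)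

theorem HH_zero {P : F[X]} (hP : P.Monic) (s : F) : HH P s 0 = s ^ P.natDegree := by
  unfold HH
  rw [Finset.sum_range_succ, Finset.sum_eq_zero]
  · rw [Nat.sub_self, pow_zero, mul_one, zero_add]
    have : P.coeff P.natDegree = 1 := hP
    rw [this, one_mul]
  · intro i hi
    rw [Finset.mem_range] at hi
    rw [zero_pow (by omega), mul_zero]

theorem HH_ne {P : F[X]} {s t : F} (ht : t ≠ 0) : HH P s t = t ^ P.natDegree * P.eval (s / t) := by
  unfold HH
  rw [eval_eq_sum_range, Finset.mul_sum]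
  refine Finset.sum_congr rfl fun i hi => ?_
  rw [Finset.mem_range] at hi
  have : t ^ P.natDegree = t ^ (P.natDegree - i) * t ^ i := by
    rw [← pow_add]
    congr 1
    omega
  rw [this, div_pow]
  field_simp

theorem HH_val {P : F[X]} (hP : P.Monic) {V : ValuationSubring F}
    (h : ∀ s : F, V.valuation (P.eval s) = max 1 (V.valuation s) ^ P.natDegree) (s t : F) :
    V.valuation (HH P s t) = max (V.valuation s) (V.valuation t) ^ P.natDegree := by
  rcases eq_or_ne t 0 with rfl | ht
  · rw [HH_zero hP, map_pow, map_zero, max_eq_left zero_le']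
  · have ht' : 0 < V.valuation t := zero_lt_iff.2 ((Valuation.ne_zero_iff _).2 ht)
    rw [HH_ne ht, map_mul, map_pow, h, ← mul_pow, map_div₀]
    congr 1
    rcases le_total (V.valuation s) (V.valuation t) with h1 | h1
    · rw [max_eq_right h1, max_eq_left, mul_one]
      exact (div_le_one₀ ht').2 h1
    · rw [max_eq_left h1, max_eq_right, mul_div_cancel₀ _ ht'.ne']
      exact (one_le_div₀ ht').2 h1

/-- Congruence modulo an ideal of V. -/
structure Rel (V : ValuationSubring F) (c : V.ValueGroup) (a b : F) : Prop where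
  left : V.valuation a ≤ 1
  right : V.valuation b ≤ 1
  sub : V.valuation (a - b) ≤ c

variable {V : ValuationSubring F} {c : V.ValueGroup} {a b a' b' : F}

theorem Rel.mul (h : Rel V c a b) (h' : Rel V c a' b') : Rel V c (a * a') (b * b') := by
  refine ⟨?_, ?_, ?_⟩
  · rw [map_mul]
    exact mul_le_one' h.left h'.left
  · rw [map_mul]
    exact mul_le_one' h.right h'.right
  · have : a * a' - b * b' = a * (a' - b') + (a - b) * b' := by ring
    rw [this]
    refine (V.valuation.map_add _ _).trans (max_le ?_ ?_)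
    · rw [map_mul]
      calc V.valuation a * V.valuation (a' - b') ≤ 1 * c := mul_le_mul' h.left h'.sub
        _ = c := one_mul c
    · rw [map_mul]
      calc V.valuation (a - b) * V.valuation b' ≤ c * 1 := mul_le_mul' h.sub h'.right
        _ = c := mul_one c

theorem Rel.pow (h : Rel V c a b) (n : ℕ) : Rel V c (a ^ n) (b ^ n) := by
  induction n with
  | zero => exact ⟨by simp, by simp, by simp⟩
  | succ n ih =>
    rw [pow_succ, pow_succ]
    exact ih.mul h

theorem Rel.refl (h : V.valuation a ≤ 1) : Rel V c a a := ⟨h, h, by simp⟩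

theorem Rel.sum {s : Finset ℕ} {f g : ℕ → F} (h : ∀ i ∈ s, Rel V c (f i) (g i)) :
    Rel V c (∑ i ∈ s, f i) (∑ i ∈ s, g i) := by
  refine ⟨V.valuation.map_sum_le fun i hi => (h i hi).left, V.valuation.map_sum_le fun i hi => (h i hi).right, ?_⟩
  rw [← Finset.sum_sub_distrib]
  exact V.valuation.map_sum_le fun i hi => (h i hi).sub

theorem Rel.HH {P : F[X]} (hP : ∀ i, V.valuation (P.coeff i) ≤ 1) (h : Rel V c a b) (h' : Rel V c a' b') :
    Rel V c (HH P a a') (HH P b b') :=
  Rel.sum fun i _ => ((Rel.refl (hP i)).mul (h.pow i)).mul (h'.pow _)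

theorem Rel.cn {P : F[X]} (hP : ∀ i, V.valuation (P.coeff i) ≤ 1) {f g : ℕ → F} (k : ℕ)
    (h : ∀ i ≤ k, Rel V c (f i) (g i)) : Rel V c (cn P f k) (cn P g k) := by
  induction k with
  | zero => exact h 0 le_rfl
  | succ k ih => exact Rel.HH hP (ih fun i hi => h i (hi.trans k.le_succ)) ((h _ le_rfl).pow _)

theorem cn_zero {P : F[X]} (hP : P.Monic) (hd : 1 ≤ P.natDegree) (k : ℕ) : cn P (fun _ => (0 : F)) k = 0 := by
  induction k with
  | zero => rfl
  | succ k ih =>
    have h1 : (0 : F) ^ P.natDegree ^ k = 0 := zero_pow (pow_ne_zero _ (by omega))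
    rw [cn, ih, h1, HH_zero hP, zero_pow (by omega)]

theorem HH_pow {l j : ℕ} (hl : l.Prime) [CharP F l] {P : F[X]} (hP : ∀ i, ∃ m : ℤ, P.coeff i = (m : F)) (s t : F) :
    HH P (s ^ l ^ j) (t ^ l ^ j) = HH P s t ^ l ^ j := by
  have : Fact l.Prime := ⟨hl⟩
  unfold HH
  rw [sum_pow_char_pow]
  refine Finset.sum_congr rfl fun i _ => ?_
  obtain ⟨m, hm⟩ := hP i
  have h1 : P.coeff i ^ l ^ j = P.coeff i := by
    rw [hm]
    have := map_intCast (iterateFrobenius F l j) m
    rwa [iterateFrobenius_def] at this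
  rw [mul_pow, mul_pow, h1, ← pow_mul, ← pow_mul, ← pow_mul, ← pow_mul, mul_comm i, mul_comm (P.natDegree - i)]

theorem cn_pow {l j : ℕ} (hl : l.Prime) [CharP F l] {P : F[X]} (hP : ∀ i, ∃ m : ℤ, P.coeff i = (m : F))
    (f : ℕ → F) (k : ℕ) : cn P (fun i => f i ^ l ^ j) k = cn P f k ^ l ^ j := by
  induction k with
  | zero => rfl
  | succ k ih => rw [cn, cn, ih, ← HH_pow hl hP, ← pow_mul, ← pow_mul, mul_comm (l ^ j)]

theorem cn_val {P : F[X]} (hP : P.Monic) {V : ValuationSubring F}
    (h : ∀ s : F, V.valuation (P.eval s) = max 1 (V.valuation s) ^ P.natDegree) (f : ℕ → F) (k : ℕ)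
    {M : V.ValueGroup} (h1 : ∀ i ≤ k, V.valuation (f i) ≤ M) (h2 : ∃ i ≤ k, V.valuation (f i) = M) :
    V.valuation (cn P f k) = M ^ P.natDegree ^ k := by
  induction k generalizing M with
  | zero =>
    obtain ⟨i, hi, rfl⟩ := h2
    have : i = 0 := by omega
    subst this
    rw [cn, pow_zero, pow_one]
  | succ k ih =>
    have h3 : ∃ N, (∀ i ≤ k, V.valuation (f i) ≤ N) ∧ ∃ i ≤ k, V.valuation (f i) = N := by
      obtain ⟨i, hi, hm⟩ := Finset.exists_max_image (Finset.range (k + 1)) (fun i => V.valuation (f i)) ⟨0, by simp⟩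
      rw [Finset.mem_range] at hi
      exact ⟨V.valuation (f i), fun j hj => hm j (by rw [Finset.mem_range]; omega), i, by omega, rfl⟩
    obtain ⟨N, hN1, hN2⟩ := h3
    have hmax : max N (V.valuation (f (k + 1))) = M := by
      refine le_antisymm (max_le ?_ (h1 _ le_rfl)) ?_
      · obtain ⟨i, hi, rfl⟩ := hN2
        exact h1 i (by omega)
      · obtain ⟨i, hi, rfl⟩ := h2
        rcases Nat.lt_or_ge k i with h4 | h4
        · have : i = k + 1 := by omega
          subst this
          exact le_max_right _ _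
        · exact (hN1 i h4).trans (le_max_left _ _)
    rw [cn, HH_val hP h, ih hN1 hN2, map_pow, ← hmax, pow_succ, pow_mul]
    congr 1
    rcases le_total N (V.valuation (f (k + 1))) with h4 | h4
    · rw [max_eq_right h4, max_eq_right (pow_le_pow_left₀ zero_le' h4 _)]
    · rw [max_eq_left h4, max_eq_left (pow_le_pow_left₀ zero_le' h4 _)]

end Form

end CL.H58

namespace CL

open H58

universe u

theorem cont_proof (hpn : PnStatement.{u}) : ContStatement.{u} := by
  intro F _ l e n r D Cp hl hc hr hA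
  obtain ⟨k, rfl⟩ : ∃ k, r = k + 1 := ⟨r - 1, by omega⟩
  have hd := hA.deg
  have hD := hA.Dpos
  have hcf : ∀ (V : ValuationSubring F) i, V.valuation (Cp.coeff i) ≤ 1 := by
    intro V i
    obtain ⟨m, hm⟩ := hA.pf i
    rw [hm]
    exact val_int_le V m
  refine ⟨D ^ k, fun A => cn Cp A.coeff k, HH Cp, Nat.one_le_pow _ _ hD, ?_, ?_, ?_, ?_, ?_⟩
  · intro V hV A hdeg
    obtain ⟨-, hle, hex, -⟩ := hpn F V
    subst hd
    refine cn_val hA.mon hV _ k (fun i _ => hle A i) ?_
    rcases eq_or_ne A 0 with rfl | h0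
    · refine ⟨0, Nat.zero_le _, ?_⟩
      rw [((hpn F V).1 0).2 rfl, coeff_zero, map_zero]
    · obtain ⟨i, hi⟩ := hex A h0
      refine ⟨i, ?_, hi⟩
      by_contra hlt
      rw [coeff_eq_zero_of_natDegree_lt (by omega), map_zero] at hi
      exact h0 (((hpn F V).1 A).1 hi.symm)
  · intro V A B _ _ h1 h2
    obtain ⟨-, hle, -, -⟩ := hpn F V
    refine (Rel.cn (hcf V) k fun i _ => ?_).sub
    refine ⟨(hle A i).trans h1, (hle B i).trans h2, ?_⟩
    rw [← coeff_sub]
    exact hle _ i
  · have : (0 : F[X]).coeff = fun _ => (0 : F) := by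
      funext i
      exact coeff_zero i
    change cn Cp (0 : F[X]).coeff k = 0
    rw [this]
    exact cn_zero hA.mon (by omega) k
  · intro j A _
    have : (tw (l ^ j) A).coeff = fun i => A.coeff i ^ l ^ j := by
      funext i
      exact tw_coeff' A _ (pow_ne_zero _ hl.ne_zero) i
    change cn Cp (tw (l ^ j) A).coeff k = cn Cp A.coeff k ^ l ^ j
    rw [this]
    exact cn_pow hl hA.pf A.coeff k
  · intro V hV s t
    subst hd
    exact HH_val hA.mon hV s t

end CL
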