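import Pool.Agent.Lib.MP_defcf3_al.CL.Pn

/-!
Project CL (MP_defcf3_al), part (B), row Cut: (4.9) and (4.10).
-/

open Polynomial

namespace CL.H88

universe u

variable {F : Type u} [Field F]

section Tw

variable (l : ℕ)

theorem pow_ne (hl : l.Prime) (j : ℕ) : l ^ j ≠ 0 := pow_ne_zero _ hl.ne_zero

theorem tw_sub (hl : l.Prime) (hc : CharP F l) (j : ℕ) (A B : F[X]) :
    tw (l ^ j) (A - B) = tw (l ^ j) A - tw (l ^ j) B := by
  have : Fact l.Prime := ⟨hl⟩
  have := hc
  rw [Tws.tw_map, Tws.tw_map, Tws.tw_map, Polynomial.map_sub]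

theorem tw_add (hl : l.Prime) (hc : CharP F l) (j : ℕ) (A B : F[X]) :
    tw (l ^ j) (A + B) = tw (l ^ j) A + tw (l ^ j) B := by
  have : Fact l.Prime := ⟨hl⟩
  have := hc
  rw [Tws.tw_map, Tws.tw_map, Tws.tw_map, Polynomial.map_add]

theorem tw_mul (hl : l.Prime) (hc : CharP F l) (j : ℕ) (A B : F[X]) :
    tw (l ^ j) (A * B) = tw (l ^ j) A * tw (l ^ j) B := by
  have : Fact l.Prime := ⟨hl⟩
  have := hc
  rw [Tws.tw_map, Tws.tw_map, Tws.tw_map, Polynomial.map_mul]

theorem tw_tw (hl : l.Prime) (j k : ℕ) (A : F[X]) : tw (l ^ j) (tw (l ^ k) A) = tw (l ^ (j + k)) A := by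
  ext i
  rw [Tws.tw_coeff _ _ (pow_ne l hl _), Tws.tw_coeff _ _ (pow_ne l hl _), Tws.tw_coeff _ _ (pow_ne l hl _),
    ← pow_mul, ← pow_add, add_comm]

theorem tw_one (A : F[X]) : tw 1 A = A := by
  ext i
  rw [Tws.tw_coeff A 1 one_ne_zero, pow_one]

theorem tw_natDegree (hl : l.Prime) (hc : CharP F l) (j : ℕ) (A : F[X]) :
    (tw (l ^ j) A).natDegree = A.natDegree := by
  have : Fact l.Prime := ⟨hl⟩
  have := hc
  rw [Tws.tw_map, natDegree_map]

theorem tw_monic (hl : l.Prime) (hc : CharP F l) (j : ℕ) {A : F[X]} (hA : A.Monic) : (tw (l ^ j) A).Monic := by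
  have : Fact l.Prime := ⟨hl⟩
  have := hc
  rw [Tws.tw_map]; exact hA.map _

end Tw

section Main

variable {l : ℕ} (V : ValuationSubring F)

theorem coM_tw (hl : l.Prime) {j : ℕ} {A : F[X]} (h : CoM V A) : CoM V (tw (l ^ j) A) := by
  rw [coM_iff] at h ⊢
  rw [pn_tw V A (pow_ne l hl j)]
  exact pow_lt_one₀ zero_le h (pow_ne l hl j)

/-- The set of the i with P^(q^i) = P mod the maximal ideal is closed under addition and subtraction. -/
theorem coM_add (hl : l.Prime) (hc : CharP F l) {i j : ℕ} {P : F[X]} (hi : CoM V (tw (l ^ i) P - P))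
    (hj : CoM V (tw (l ^ j) P - P)) : CoM V (tw (l ^ (i + j)) P - P) := by
  have h := (coM_tw V hl (j := i) hj).add hi
  rw [tw_sub l hl hc, tw_tw l hl] at h
  rwa [sub_add_sub_cancel] at h

theorem coM_sub (hl : l.Prime) (hc : CharP F l) {i j : ℕ} {P : F[X]} (hi : CoM V (tw (l ^ (i + j)) P - P))
    (hj : CoM V (tw (l ^ j) P - P)) : CoM V (tw (l ^ i) P - P) := by
  have h := hi.add (coM_tw V hl (j := i) hj).neg
  rw [tw_sub l hl hc, tw_tw l hl] at h
  have h2 : tw (l ^ (i + j)) P - P + -(tw (l ^ (i + j)) P - tw (l ^ i) P) = tw (l ^ i) P - P := by ring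
  rwa [h2] at h

theorem coM_mul (hl : l.Prime) (hc : CharP F l) {i : ℕ} {P : F[X]} (hi : CoM V (tw (l ^ i) P - P)) (k : ℕ) :
    CoM V (tw (l ^ (k * i)) P - P) := by
  induction k with
  | zero => rw [zero_mul, pow_zero, tw_one, sub_self]; intro i; simp
  | succ k ih => rw [Nat.succ_mul]; exact coM_add V hl hc ih hi

/-- a is the least: a divides every period. -/
theorem typeA_dvd (hl : l.Prime) (hc : CharP F l) {e a N : ℕ} (ha : 1 ≤ a) {P : F[X]}
    (hT : TypeA (l ^ e) a P V) (hN : CoM V (tw (l ^ (e * N)) P - P)) : a ∣ N := by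
  obtain ⟨h1, h2⟩ := hT
  by_contra hd
  have hlt : N % a < a := Nat.mod_lt _ (by omega)
  have hpos : 1 ≤ N % a := Nat.one_le_iff_ne_zero.2 fun h => hd (Nat.dvd_of_mod_eq_zero h)
  apply h2 (N % a) hpos hlt
  rw [← pow_mul] at h1 ⊢
  have h3 := coM_mul V hl hc h1 (N / a)
  apply coM_sub V hl hc (j := N / a * (e * a)) _ h3
  have : e * (N % a) + N / a * (e * a) = e * N := by
    calc e * (N % a) + N / a * (e * a) = e * (N % a + a * (N / a)) := by ring
      _ = e * N := by rw [Nat.mod_add_div]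
  rwa [this]

/-- (4.10). -/
theorem pn_tw_sub (hl : l.Prime) (hc : CharP F l) {s : ℕ} (hs : 1 ≤ s) {P : F[X]}
    (hP : CoM V (tw (l ^ s) P - P)) (h0 : tw (l ^ s) P ≠ P) {k : ℕ} (hk : 1 ≤ k) :
    pn V (tw (l ^ (s * k)) P - P) = pn V (tw (l ^ s) P - P) := by
  induction k, hk using Nat.le_induction with
  | base => rw [mul_one]
  | succ k _ ih =>
    have e1 : tw (l ^ (s * (k + 1))) P - P = (tw (l ^ s) P - P) + tw (l ^ s) (tw (l ^ (s * k)) P - P) := by
      rw [tw_sub l hl hc, tw_tw l hl, show s * (k + 1) = s + s * k by ring]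
      ring
    rw [e1]
    apply pn_add_eq
    rw [pn_tw V _ (pow_ne l hl s), ih]
    have h1 : pn V (tw (l ^ s) P - P) < 1 := (coM_iff V _).1 hP
    have h2 : pn V (tw (l ^ s) P - P) ≠ 0 := pn_ne_zero V (sub_ne_zero.2 h0)
    exact pow_lt_self_of_lt_one₀ (zero_lt_iff.2 h2) h1 (Nat.one_lt_pow (by omega) hl.one_lt)

end Main

end CL.H88

namespace CL.H88

universe u

variable {F : Type u} [Field F]

theorem monic_sub_natDegree {r : ℕ} (hr : 1 ≤ r) {A B : F[X]} (hA : A.Monic) (hB : B.Monic) (dA : A.natDegree = r)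
    (dB : B.natDegree = r) : (A - B).natDegree < r := by
  by_cases h : A - B = 0
  · rw [h, natDegree_zero]; omega
  · have h1 : (A - B).degree < A.degree := by
      apply degree_sub_lt_left
      · rw [degree_eq_natDegree hA.ne_zero, degree_eq_natDegree hB.ne_zero, dA, dB]
      · exact hA.ne_zero
      · rw [hA.leadingCoeff, hB.leadingCoeff]
    have := natDegree_lt_natDegree h h1
    rwa [dA] at this

theorem val_prod_sub_le (V : ValuationSubring F) {ι : Type*} (s : Finset ι) (x y : ι → F) (c : V.ValueGroup)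
    (hx : ∀ i ∈ s, V.valuation (x i) ≤ 1) (hy : ∀ i ∈ s, V.valuation (y i) ≤ 1)
    (h : ∀ i ∈ s, V.valuation (x i - y i) ≤ c) :
    V.valuation (∏ i ∈ s, x i - ∏ i ∈ s, y i) ≤ c ∧ V.valuation (∏ i ∈ s, x i) ≤ 1 ∧
      V.valuation (∏ i ∈ s, y i) ≤ 1 := by
  classical
  induction s using Finset.induction_on with
  | empty => simp
  | insert a s ha ih =>
    obtain ⟨h1, h2, h3⟩ := ih (fun i hi => hx i (Finset.mem_insert_of_mem hi))
      (fun i hi => hy i (Finset.mem_insert_of_mem hi)) (fun i hi => h i (Finset.mem_insert_of_mem hi))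
    have ax := hx a (Finset.mem_insert_self _ _)
    have ay := hy a (Finset.mem_insert_self _ _)
    have ac := h a (Finset.mem_insert_self _ _)
    rw [Finset.prod_insert ha, Finset.prod_insert ha]
    refine ⟨?_, ?_, ?_⟩
    · have e : x a * ∏ i ∈ s, x i - y a * ∏ i ∈ s, y i =
          x a * (∏ i ∈ s, x i - ∏ i ∈ s, y i) + (x a - y a) * ∏ i ∈ s, y i := by ring
      rw [e]
      refine (V.valuation.map_add _ _).trans (max_le ?_ ?_)
      · rw [map_mul]
        exact (mul_le_mul' ax h1).trans (by rw [one_mul])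
      · rw [map_mul]
        exact (mul_le_mul' ac h3).trans (by rw [mul_one])
    · rw [map_mul]; exact mul_le_one' ax h2
    · rw [map_mul]; exact mul_le_one' ay h3

/-- (4.9) at one place. -/
theorem cut_local {l p e n r : ℕ} {Z : Set (ValuationSubring F)} {P : F[X]} {a : ℕ}
    {D : ℕ} {Cp : F[X]} {E : ℕ} {cont : F[X] → F} {H : F → F → F} (hN : Num F l p e n r Z) (hA : Ani F l e n D Cp)
    (hC : Cnt F l r D Cp E cont H) (hP : P.Monic) (hd : P.natDegree = r) (ha : 1 ≤ a)
    (w ε f0 f : F) (hw : w = ∏ i ∈ Finset.Ico 1 a, cont (tw (l ^ (e * i)) P - P))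
    (hε : ε = 1 - w ^ (l ^ (e * a) - 1)) (hf0 : f0 = H (cont (tw (l ^ (e * a)) P - P)) (ε ^ E))
    (hf : f = f0 ^ D / Cp.eval f0) (V : ValuationSubring F) (hV : Anis V D Cp) :
    (V.valuation f = 1 ∧ ¬ TypeA (l ^ e) a P V) ∨
      (V.valuation f = pn V (tw (l ^ (e * a)) P - P) ^ (E * D * D) ∧ pn V (tw (l ^ (e * a)) P - P) < 1 ∧
        TypeA (l ^ e) a P V) := by
  have hl := hN.lpr
  have hc := hN.chr
  have hr : 1 ≤ r := by have := hN.r2; omega
  have hq : 1 < l ^ (e * a) := Nat.one_lt_pow (Nat.mul_ne_zero (by have := hN.epos; omega) (by omega)) hl.one_lt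
  set G := tw (l ^ (e * a)) P - P with hG
  have hdeg : ∀ j, (tw (l ^ j) P - P).natDegree < r := fun j =>
    monic_sub_natDegree hr (tw_monic l hl hc j hP) hP ((tw_natDegree l hl hc j P).trans hd) hd
  have vg : V.valuation (cont G) = pn V G ^ E := hC.val V hV G (hdeg _)
  have vf0 : V.valuation f0 = max (pn V G ^ E) (V.valuation ε ^ E) ^ D := by
    rw [hf0, hC.form V hV, vg, map_pow]
  have vf : V.valuation f = V.valuation f0 ^ D / max 1 (V.valuation f0) ^ D := by
    rw [hf, map_div₀, map_pow, hV]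
  have big : 1 ≤ V.valuation f0 → V.valuation f = 1 := by
    intro h
    rw [vf, max_eq_right h, div_self]
    exact pow_ne_zero _ (ne_of_gt (lt_of_lt_of_le zero_lt_one h))
  have small : V.valuation f0 ≤ 1 → V.valuation f = V.valuation f0 ^ D := by
    intro h
    rw [vf, max_eq_left h, one_pow, div_one]
  have tA : TypeA (l ^ e) a P V ↔ CoM V G ∧ ∀ i, 1 ≤ i → i < a → ¬ CoM V (tw (l ^ (e * i)) P - P) := by
    unfold TypeA
    rw [← pow_mul, ← hG]
    simp only [← pow_mul]
  by_cases h1 : pn V G < 1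
  · -- P is integral
    have hP1 : pn V P ≤ 1 := by
      by_contra hlt
      push Not at hlt
      have h2 : pn V P < pn V P ^ l ^ (e * a) := by
        calc pn V P = pn V P ^ 1 := (pow_one _).symm
          _ < pn V P ^ l ^ (e * a) := pow_lt_pow_right₀ hlt hq
      have h3 : pn V G = pn V P ^ l ^ (e * a) := by
        rw [hG, sub_eq_add_neg, pn_add_eq, pn_tw V P (pow_ne l hl _)]
        rw [pn_neg, pn_tw V P (pow_ne l hl _)]
        exact h2
      rw [h3] at h1
      exact absurd (h1.trans hlt) (not_lt.2 h2.le)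
    have hle : ∀ j, pn V (tw (l ^ j) P - P) ≤ 1 := by
      intro j
      refine (pn_sub_le V _ _).trans (max_le ?_ hP1)
      rw [pn_tw V P (pow_ne l hl _)]
      exact pow_le_one₀ zero_le hP1
    have vW : ∀ i, V.valuation (cont (tw (l ^ (e * i)) P - P)) = pn V (tw (l ^ (e * i)) P - P) ^ E :=
      fun i => hC.val V hV _ (hdeg _)
    have vWle : ∀ i, V.valuation (cont (tw (l ^ (e * i)) P - P)) ≤ 1 := by
      intro i; rw [vW]; exact pow_le_one₀ zero_le (hle _)
    have hlip : V.valuation (w ^ l ^ (e * a) - w) ≤ pn V G ∧ V.valuation (w ^ l ^ (e * a)) ≤ 1 ∧ V.valuation w ≤ 1 := by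
      rw [hw, ← Finset.prod_pow]
      apply val_prod_sub_le
      · intro i _; rw [map_pow]; exact pow_le_one₀ zero_le (vWle i)
      · intro i _; exact vWle i
      · intro i _
        rw [← hC.tw _ _ (hdeg _)]
        have e1 : tw (l ^ (e * a)) (tw (l ^ (e * i)) P - P) - (tw (l ^ (e * i)) P - P) = tw (l ^ (e * i)) G - G := by
          rw [hG, tw_sub l hl hc, tw_sub l hl hc, tw_tw l hl, tw_tw l hl, add_comm (e * a)]
          ring
        refine (hC.lip V _ _ ?_ (hdeg _) ?_ (hle _)).trans ?_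
        · rw [tw_natDegree l hl hc]; exact hdeg _
        · rw [pn_tw V _ (pow_ne l hl _)]; exact pow_le_one₀ zero_le (hle _)
        · rw [e1]
          refine (pn_sub_le V _ _).trans (max_le ?_ le_rfl)
          rw [pn_tw V _ (pow_ne l hl _)]
          exact pow_le_of_le_one zero_le h1.le (pow_ne l hl _)
    obtain ⟨hl1, -, hw1⟩ := hlip
    by_cases h2 : V.valuation w < 1
    · left
      have hε1 : V.valuation ε = 1 := by
        rw [hε]
        apply Valuation.map_one_sub_of_lt
        rw [map_pow]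
        exact pow_lt_one₀ zero_le h2 (by omega)
      refine ⟨big ?_, ?_⟩
      · rw [vf0, hε1, one_pow]
        exact one_le_pow₀ (le_max_right _ _)
      · intro hT
        rw [tA] at hT
        have : V.valuation w = 1 := by
          rw [hw, map_prod]
          apply Finset.prod_eq_one
          intro i hi
          rw [Finset.mem_Ico] at hi
          have h3 := hT.2 i hi.1 hi.2
          rw [coM_iff, not_lt] at h3
          rw [vW, le_antisymm (hle _) h3, one_pow]
        exact absurd this h2.ne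
    · right
      have hw2 : V.valuation w = 1 := le_antisymm hw1 (not_lt.1 h2)
      have hε1 : V.valuation ε ≤ pn V G := by
        have e1 : ε * w = -(w ^ l ^ (e * a) - w) := by
          rw [hε, sub_mul, one_mul, ← pow_succ, Nat.sub_add_cancel hq.le]
          ring
        calc V.valuation ε = V.valuation (ε * w) := by rw [map_mul, hw2, mul_one]
          _ = V.valuation (w ^ l ^ (e * a) - w) := by rw [e1, Valuation.map_neg]
          _ ≤ _ := hl1
      have vf1 : V.valuation f0 = (pn V G ^ E) ^ D := by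
        rw [vf0, max_eq_left]
        exact pow_le_pow_left₀ zero_le hε1 E
      refine ⟨?_, h1, ?_⟩
      · have h5 : V.valuation f0 ≤ 1 := by
          rw [vf1]
          exact pow_le_one₀ zero_le (pow_le_one₀ zero_le h1.le)
        rw [small h5, vf1, ← pow_mul, ← pow_mul, mul_assoc]
      · rw [tA]
        refine ⟨(coM_iff V _).2 h1, ?_⟩
        intro i hi1 hi2 hM
        rw [coM_iff] at hM
        apply h2
        rw [hw, map_prod, ← Finset.mul_prod_erase _ _ (Finset.mem_Ico.2 ⟨hi1, hi2⟩)]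
        have h3 : V.valuation (cont (tw (l ^ (e * i)) P - P)) < 1 := by
          rw [vW]
          exact pow_lt_one₀ zero_le hM (by have := hC.Epos; omega)
        have h4 : ∏ x ∈ (Finset.Ico 1 a).erase i, V.valuation (cont (tw (l ^ (e * x)) P - P)) ≤ 1 :=
          Finset.prod_le_one' fun x _ => vWle x
        calc _ ≤ V.valuation (cont (tw (l ^ (e * i)) P - P)) * 1 := mul_le_mul' le_rfl h4
          _ < 1 := by rw [mul_one]; exact h3
  · left
    refine ⟨big ?_, ?_⟩
    · rw [vf0]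
      refine one_le_pow₀ (le_max_of_le_left ?_)
      exact one_le_pow₀ (not_lt.1 h1)
    · intro hT
      exact h1 ((coM_iff V _).1 hT.1 |> fun h => by rwa [← pow_mul] at h)

end CL.H88

namespace CL

universe u

open H88

theorem cut_proof : CutStatement.{u} := by
  intro F _ l p e n r Z P a D Cp E cont H hN hA hC hP hd ha h0 hne
  have hl := hN.lpr
  have hc := hN.chr
  have hea : 1 ≤ e * a := Nat.mul_pos (by have := hN.epos; omega) (by omega)
  rw [← pow_mul] at h0
  set w : F := ∏ i ∈ Finset.Ico 1 a, cont (tw (l ^ (e * i)) P - P) with hw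
  set ε : F := 1 - w ^ (l ^ (e * a) - 1) with hε
  set f0 : F := H (cont (tw (l ^ (e * a)) P - P)) (ε ^ E) with hf0
  set f : F := f0 ^ D / Cp.eval f0 with hf
  have key := cut_local hN hA hC hP hd ha w ε f0 f hw hε hf0 hf
  have hZX : ∀ V ∈ Za Z l e n a P, Anis V D Cp := fun V hV =>
    hA.an P V hP (by rw [hd]; exact hN.r2) (by rw [hd]; exact hN.rn.le) hV.1.2.1 hV.1.2.2
  have hc1 : 1 ≤ E * D * D := Nat.mul_pos (Nat.mul_pos hC.Epos hA.Dpos) hA.Dpos
  have lt1 : ∀ V : ValuationSubring F, pn V (tw (l ^ (e * a)) P - P) < 1 →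
      pn V (tw (l ^ (e * a)) P - P) ^ (E * D * D) < 1 := fun V h => pow_lt_one₀ zero_le h (by omega)
  refine ⟨f, E * D * D, ?_, hc1, ?_, ?_⟩
  · obtain ⟨V, hV⟩ := hne
    intro hf0'
    rcases key V (hZX V hV) with h | h
    · exact h.2 hV.2
    · have h1 := h.1
      rw [hf0', map_zero] at h1
      exact pow_ne_zero _ (pn_ne_zero V (sub_ne_zero.2 h0)) h1.symm
  · intro V hV
    rw [← pow_mul]
    rcases key V hV.2 with h | h
    · exact ⟨h.1.le, ⟨fun h' => absurd h.1 h'.ne, fun h' => absurd h' h.2⟩, fun h' => absurd h.1 h'.ne⟩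
    · have h3 : V.valuation f < 1 := by rw [h.1]; exact lt1 V h.2.1
      exact ⟨h3.le, ⟨fun _ => h.2.2, fun _ => h3⟩, fun _ => h.1⟩
  · intro V hV i hi
    rw [← pow_mul]
    obtain ⟨hB, hT⟩ := hV
    have hdv : a ∣ n.factorial := typeA_dvd V hl hc ha hT hB.2.2
    obtain ⟨b, hb⟩ := hdv
    have hb1 : 1 ≤ b := by
      rcases Nat.eq_zero_or_pos b with h | h
      · rw [h, mul_zero] at hb; exact absurd hb (Nat.factorial_ne_zero n)
      · exact h
    have e1 : QQ l e n ^ i = l ^ (e * a * (b * i)) := by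
      rw [QQ, hb, ← pow_mul]; congr 1; ring
    rw [e1]
    have hT1 := hT.1
    rw [← pow_mul] at hT1
    exact pn_tw_sub V hl hc hea hT1 h0 (Nat.mul_pos hb1 hi)

end CL
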