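import Pool.Agent.Lib.MP_defcf3_al.CL.IfaceB

/-!
Project CL (MP_defcf3_al), part (B), sections (4.7) and (4.8) of findings 4324: the anisotropic polynomial C and the content.
-/

open Polynomial

namespace CL.H58

section Field

variable {κ : Type*} [Field κ]

/-- A root of the cyclotomic polynomial makes X^M - X split. -/
theorem splits_of_root {M : ℕ} (hM : 2 ≤ M) (hne : ((M - 1 : ℕ) : κ) ≠ 0) {c : κ}
    (hc : (cyclotomic (M - 1) κ).eval c = 0) : ((X : κ[X]) ^ M - X).Splits := by
  haveI : NeZero ((M - 1 : ℕ) : κ) := ⟨hne⟩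
  have h1 : IsPrimitiveRoot c (M - 1) := isRoot_cyclotomic_iff.1 hc
  have h2 := X_pow_sub_one_splits h1
  have h3 : (X : κ[X]) ^ M - X = X * (X ^ (M - 1) - C 1) := by
    have : (X : κ[X]) ^ M = X ^ (M - 1) * X := by
      rw [← pow_succ]
      congr 1
      omega
    rw [this, C_1]
    ring
  rw [h3]
  exact Splits.X.mul h2

/-- If X^M - X splits in κ, every solution of x^M = x in an extension lies in κ. -/
theorem mem_of_splits {L : Type*} [Field L] [Algebra κ L] {M : ℕ} (hM : 2 ≤ M)
    (h : ((X : κ[X]) ^ M - X).Splits) {x : L} (hx : x ^ M = x) : ∃ c : κ, algebraMap κ L c = x := by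
  have h0 : ((X : κ[X]) ^ M - X) ≠ 0 := by
    intro h
    have := congrArg (fun f => f.coeff M) h
    simp only [coeff_sub, coeff_X_pow, if_true, coeff_X, coeff_zero] at this
    rw [if_neg (by omega), sub_zero] at this
    exact one_ne_zero this
  have h1 : ((X : κ[X]) ^ M - X).map (algebraMap κ L) ≠ 0 := by
    rwa [Ne, Polynomial.map_eq_zero]
  have h2 : x ∈ (((X : κ[X]) ^ M - X).map (algebraMap κ L)).roots := by
    rw [mem_roots h1]
    simp [IsRoot, hx]
  rw [h.roots_map (algebraMap κ L)] at h2
  obtain ⟨c, _, hc⟩ := Multiset.mem_map.1 h2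
  exact ⟨c, hc⟩

theorem cast_sub_one_ne {l : ℕ} (hl : l.Prime) [CharP κ l] {k : ℕ} (hk : 1 ≤ k) :
    ((l ^ k - 1 : ℕ) : κ) ≠ 0 := by
  have h1 : 1 ≤ l ^ k := Nat.one_le_pow _ _ hl.pos
  rw [Nat.cast_sub h1, Nat.cast_pow, CharP.cast_eq_zero κ l, zero_pow (by omega), Nat.cast_one, zero_sub]
  exact neg_ne_zero.2 one_ne_zero

/-- Frobenius permutes the roots of a polynomial with fixed coefficients: every root is fixed by a power. -/
theorem exists_iter {L : Type*} [Field L] {l : ℕ} (hl : l.Prime) [CharP L l] {e : ℕ} {P : L[X]} (h0 : P ≠ 0)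
    (hfix : ∀ i, P.coeff i ^ l ^ e = P.coeff i) {c : L} (hc : P.eval c = 0) :
    ∃ k, 1 ≤ k ∧ k ≤ P.natDegree ∧ c ^ (l ^ e) ^ k = c := by
  classical
  haveI : Fact l.Prime := ⟨hl⟩
  have hroot : ∀ x, P.eval x = 0 → P.eval (x ^ l ^ e) = 0 := by
    intro x hx
    have h1 : (P.eval x) ^ l ^ e = P.eval (x ^ l ^ e) := by
      rw [eval_eq_sum_range, eval_eq_sum_range, sum_pow_char_pow]
      refine Finset.sum_congr rfl fun i _ => ?_
      rw [mul_pow, hfix, ← pow_mul, ← pow_mul, mul_comm i]
    rw [← h1, hx, zero_pow (pow_ne_zero _ hl.ne_zero)]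
  have hall : ∀ j, P.eval (c ^ (l ^ e) ^ j) = 0 := by
    intro j
    induction j with
    | zero => simpa using hc
    | succ j ih =>
      have := hroot _ ih
      rwa [← pow_mul, ← pow_succ] at this
  have hinj : ∀ (n : ℕ) (a b : L), a ^ l ^ n = b ^ l ^ n → a = b := by
    intro n a b h
    exact (iterateFrobenius L l n).injective (by simpa [iterateFrobenius_def] using h)
  have hmaps : ∀ a ∈ Finset.range (P.natDegree + 1), c ^ (l ^ e) ^ a ∈ P.roots.toFinset := by
    intro a _
    rw [Multiset.mem_toFinset, mem_roots h0]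
    exact hall a
  have hcard : P.roots.toFinset.card < (Finset.range (P.natDegree + 1)).card := by
    rw [Finset.card_range]
    have := (Multiset.toFinset_card_le P.roots).trans (card_roots' P)
    omega
  obtain ⟨x, hx, y, hy, hxy, he⟩ := Finset.exists_ne_map_eq_of_card_lt_of_maps_to hcard hmaps
  have key : ∀ x y, x < y → y ≤ P.natDegree → c ^ (l ^ e) ^ x = c ^ (l ^ e) ^ y →
      ∃ k, 1 ≤ k ∧ k ≤ P.natDegree ∧ c ^ (l ^ e) ^ k = c := by
    intro x y h1 h2 h3
    refine ⟨y - x, by omega, by omega, ?_⟩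
    refine (hinj (e * x) _ _ ?_).symm
    rw [pow_mul l e x, h3, ← pow_mul c, ← pow_add]
    congr 2
    omega
  rw [Finset.mem_range] at hx hy
  rcases lt_or_gt_of_ne hxy with h | h
  · exact key x y h (by omega) he
  · exact key y x h (by omega) he.symm

theorem iter_dvd {L : Type*} [Monoid L] {Q k m : ℕ} {c : L} (h : c ^ Q ^ k = c) (hk : k ∣ m) : c ^ Q ^ m = c := by
  obtain ⟨j, rfl⟩ := hk
  induction j with
  | zero => simp
  | succ j ih => rw [mul_add, mul_one, pow_add, pow_mul c, ih, h]

/-- LEMMA C: no root of C in κ if there is an irreducible polynomial of degree at least 2 fixed by Frobenius. -/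
theorem noRoot {l : ℕ} (hl : l.Prime) [CharP κ l] {e n : ℕ} (he : 1 ≤ e) {P : κ[X]} (hP : Irreducible P)
    (hfix : ∀ i, P.coeff i ^ l ^ e = P.coeff i) (h2 : 2 ≤ P.natDegree) (hn : P.natDegree ≤ n) (c : κ) :
    (cyclotomic ((l ^ e) ^ n.factorial - 1) κ).eval c ≠ 0 := by
  intro hc
  have hM : 2 ≤ (l ^ e) ^ n.factorial := by
    rw [← pow_mul]
    have h1 : 1 ≤ e * n.factorial := Nat.mul_pos he n.factorial_pos
    calc 2 ≤ l := hl.two_le
      _ = l ^ 1 := (pow_one l).symm
      _ ≤ l ^ (e * n.factorial) := Nat.pow_le_pow_right hl.pos h1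
  have hsp : ((X : κ[X]) ^ (l ^ e) ^ n.factorial - X).Splits := by
    refine splits_of_root hM ?_ hc
    rw [← pow_mul]
    exact cast_sub_one_ne hl (Nat.mul_pos he n.factorial_pos)
  let L := AlgebraicClosure κ
  haveI : CharP L l := charP_of_injective_algebraMap (algebraMap κ L).injective l
  have hdeg : P.degree ≠ 0 := by
    rw [degree_eq_natDegree hP.ne_zero]
    intro h
    have h' : P.natDegree = 0 := by exact_mod_cast h
    omega
  obtain ⟨x, hx⟩ := IsAlgClosed.exists_aeval_eq_zero L P hdeg
  have hx' : (P.map (algebraMap κ L)).eval x = 0 := by rwa [eval_map_algebraMap]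
  obtain ⟨k, hk1, hk2, hk⟩ := exists_iter hl (e := e) (P := P.map (algebraMap κ L))
    (by rw [Ne, Polynomial.map_eq_zero]; exact hP.ne_zero)
    (by intro i; rw [coeff_map, ← map_pow, hfix]) hx'
  rw [natDegree_map] at hk2
  have h3 : x ^ (l ^ e) ^ n.factorial = x := iter_dvd hk (Nat.dvd_factorial hk1 (hk2.trans hn))
  obtain ⟨d, hd⟩ := mem_of_splits hM hsp h3
  have hroot : IsRoot P d := by
    rw [← hd, aeval_algebraMap_apply] at hx
    exact (map_eq_zero (algebraMap κ L)).1 hx
  have := degree_eq_one_of_irreducible_of_root hP hroot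
  rw [degree_eq_natDegree hP.ne_zero] at this
  have h' : P.natDegree = 1 := by exact_mod_cast this
  omega

end Field

section Val

variable {F : Type*} [Field F]

theorem int_mem (V : ValuationSubring F) (m : ℤ) : (m : F) ∈ V := by
  have := V.toSubring.zsmul_mem V.one_mem m
  simpa using this

theorem val_int_le (V : ValuationSubring F) (m : ℤ) : V.valuation (m : F) ≤ 1 :=
  (V.valuation_le_one_iff _).2 (int_mem V m)

/-- Integral monic polynomials at large s. -/
theorem val_eval_big {V : ValuationSubring F} {P : F[X]} (hm : P.Monic) (hc : ∀ i, V.valuation (P.coeff i) ≤ 1)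
    {s : F} (hs : 1 < V.valuation s) : V.valuation (P.eval s) = V.valuation s ^ P.natDegree := by
  have h0 : V.valuation s ≠ 0 := (zero_lt_one.trans hs).ne'
  conv_lhs => rw [hm.as_sum]
  rw [eval_add, eval_pow, eval_X, eval_finset_sum]
  have hlt : V.valuation (∑ i ∈ Finset.range P.natDegree, (C (P.coeff i) * X ^ i).eval s) <
      V.valuation (s ^ P.natDegree) := by
    refine Valuation.map_sum_lt _ (by rw [map_pow]; exact pow_ne_zero _ h0) fun i hi => ?_
    rw [Finset.mem_range] at hi
    rw [eval_mul, eval_C, eval_pow, eval_X, map_mul, map_pow, map_pow]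
    calc V.valuation (P.coeff i) * V.valuation s ^ i ≤ 1 * V.valuation s ^ i := by
          gcongr
          exact hc i
      _ = V.valuation s ^ i := one_mul _
      _ < V.valuation s ^ P.natDegree := pow_lt_pow_right₀ hs hi
  rw [Valuation.map_add_eq_of_lt_left _ hlt, map_pow]

/-- Anisotropy from the absence of a root in the residue field. -/
theorem anis_of {V : ValuationSubring F} {M : ℕ}
    (h : ∀ c : IsLocalRing.ResidueField V, (cyclotomic M (IsLocalRing.ResidueField V)).eval c ≠ 0) (s : F) :
    V.valuation ((cyclotomic M F).eval s) = max 1 (V.valuation s) ^ (cyclotomic M F).natDegree := by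
  rcases le_or_gt (V.valuation s) 1 with hs | hs
  · rw [max_eq_left hs, one_pow]
    have hsV : s ∈ V := (V.valuation_le_one_iff s).1 hs
    have h1 : (cyclotomic M F).eval s = algebraMap V F ((cyclotomic M V).eval (⟨s, hsV⟩ : V)) := by
      rw [← map_cyclotomic M (algebraMap V F), eval_map]
      exact eval₂_at_apply (algebraMap V F) (⟨s, hsV⟩ : V)
    rw [h1]
    refine (V.valuation_eq_one_iff _).1 ?_
    by_contra hu
    have h2 : IsLocalRing.residue V ((cyclotomic M V).eval (⟨s, hsV⟩ : V)) = 0 := by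
      rw [IsLocalRing.residue_eq_zero_iff]
      exact (IsLocalRing.mem_maximalIdeal _).2 hu
    refine h (IsLocalRing.residue V ⟨s, hsV⟩) ?_
    rw [← map_cyclotomic M (IsLocalRing.residue V), eval_map, ← h2]
    exact eval₂_at_apply (IsLocalRing.residue V) (⟨s, hsV⟩ : V)
  · rw [max_eq_right hs.le]
    refine val_eval_big (cyclotomic.monic M F) (fun i => ?_) hs
    rw [← map_cyclotomic_int M F, coeff_map, eq_intCast]
    exact val_int_le V _

end Val

end CL.H58

namespace CL

open H58

universe u

theorem H58.tw_coeff' {F : Type*} [Field F] (A : F[X]) (Q : ℕ) (hQ : Q ≠ 0) (i : ℕ) :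
    (tw Q A).coeff i = A.coeff i ^ Q := by
  simp only [tw, finset_sum_coeff, coeff_monomial]
  rw [Finset.sum_ite_eq' (Finset.range (A.natDegree + 1)) i]
  split_ifs with h
  · rfl
  · rw [Finset.mem_range, not_lt] at h
    rw [coeff_eq_zero_of_natDegree_lt (by omega), zero_pow hQ]

theorem cyc_proof : CycStatement.{u} := by
  intro F _ l e n hl hc hperf he hn
  refine ⟨(cyclotomic ((l ^ (e * n.factorial)) ^ n.factorial - 1) F).natDegree,
    cyclotomic ((l ^ (e * n.factorial)) ^ n.factorial - 1) F, ?_⟩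
  have hef : 1 ≤ e * n.factorial := Nat.mul_pos he n.factorial_pos
  have hM : 3 ≤ (l ^ (e * n.factorial)) ^ n.factorial := by
    rw [← pow_mul]
    have h1 : 2 ≤ e * n.factorial * n.factorial := by
      calc 2 ≤ n := hn
        _ ≤ n.factorial := Nat.self_le_factorial n
        _ = 1 * n.factorial := (one_mul _).symm
        _ ≤ e * n.factorial * n.factorial := Nat.mul_le_mul_right _ hef
    calc 3 ≤ 2 ^ 2 := by norm_num
      _ ≤ l ^ 2 := Nat.pow_le_pow_left hl.two_le 2
      _ ≤ l ^ (e * n.factorial * n.factorial) := Nat.pow_le_pow_right hl.pos h1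
  refine ⟨?_, cyclotomic.monic _ F, rfl, cyclotomic_coeff_zero F (by omega), ?_, ?_⟩
  · rw [natDegree_cyclotomic]
    exact Nat.totient_pos.2 (by omega)
  · intro i
    refine ⟨(cyclotomic ((l ^ (e * n.factorial)) ^ n.factorial - 1) ℤ).coeff i, ?_⟩
    rw [← map_cyclotomic_int _ F, coeff_map, eq_intCast]
  · intro P V hPm h2 hPn hin hco s
    refine anis_of (fun c => ?_) s
    obtain ⟨P', hP', hirr⟩ := hin
    have hc' : CharP (IsLocalRing.ResidueField V) l := by
      refine (CharP.charP_iff_prime_eq_zero hl).2 ?_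
      have h1 : ((l : ℕ) : V) = 0 := by
        apply Subtype.val_injective
        have h2 : ((l : ℕ) : F) = 0 := CharP.cast_eq_zero F l
        simpa using h2
      have := congrArg (IsLocalRing.residue V) h1
      simpa using this
    have hPm' : P'.Monic := by
      have h1 : P'.natDegree = P.natDegree := by
        rw [← hP']
        exact (natDegree_map_eq_of_injective (Subtype.val_injective) P').symm
      have h2 : algebraMap V F P'.leadingCoeff = 1 := by
        rw [leadingCoeff, ← coeff_map, hP', h1]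
        exact hPm
      exact Subtype.val_injective h2
    have hdeg : (P'.map (IsLocalRing.residue V)).natDegree = P.natDegree := by
      rw [hPm'.natDegree_map, ← hP', hPm'.natDegree_map]
    refine noRoot hl (e := e * n.factorial) (n := n) hef hirr ?_ (by rw [hdeg]; exact h2) (by rw [hdeg]; exact hPn) c
    intro i
    rw [coeff_map, ← map_pow, ← sub_eq_zero, ← map_sub, IsLocalRing.residue_eq_zero_iff]
    refine (V.valuation_lt_one_iff _).2 ?_
    have h3 := hco i
    rw [coeff_sub, tw_coeff' P (QQ l e n) (pow_ne_zero _ hl.ne_zero), ← hP', coeff_map] at h3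
    simpa [QQ] using h3

end CL
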