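import Pool.Agent.Lib.MP_defcf3_al.CL.BAlg

/-!
Project CL (MP_defcf3_al), part (B), row AlgB: disjoint supports, (2.1) of finding 4323.
-/

open Polynomial

namespace CL

universe u

namespace DJ

section Sym

variable {F K : Type u} [Field F] [Field K] [Algebra F K] {I : Type u} {Γ : I → Type u}
  [∀ i, LinearOrderedCommGroupWithZero (Γ i)] {v : ∀ i, Valuation K (Γ i)} {T : Type u} [AddCommGroup T]
  {S : K → K → T} (h : Sym F v S)

include h

theorem one_left {z : K} (hz : z ≠ 0) : S 1 z = 0 := by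
  have := h.mull 1 1 z one_ne_zero one_ne_zero hz
  rw [one_mul] at this
  exact left_eq_add.1 this

theorem congr_left {z z' w : K} (hz : z ≠ 0) (hz' : z' ≠ 0) (hw : w ≠ 0)
    (hh : ∀ i, v i (z - z') < v i z') : S z w = S z' w := by
  have e : z = z' * (z / z') := by field_simp
  have h1 : z / z' ≠ 0 := div_ne_zero hz hz'
  have ht : S (z / z') w = 0 := by
    refine h.trivl _ _ h1 hw fun i => ⟨1, one_ne_zero, ?_⟩
    have e2 : z / z' - 1 = (z - z') / z' := by field_simp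
    rw [map_one, map_one, e2, map_div₀]
    exact (div_lt_one₀ (zero_lt_iff.2 ((Valuation.ne_zero_iff _).2 hz'))).2 (hh i)
  rw [e, h.mull _ _ _ hz' h1 hw, ht, add_zero]

theorem congr_right {z z' w : K} (hz : z ≠ 0) (hz' : z' ≠ 0) (hw : w ≠ 0)
    (hh : ∀ i, v i (z - z') < v i z') : S w z = S w z' := by
  have e : z = z' * (z / z') := by field_simp
  have h1 : z / z' ≠ 0 := div_ne_zero hz hz'
  have ht : S w (z / z') = 0 := by
    refine h.trivr _ _ hw h1 fun i => ⟨1, one_ne_zero, ?_⟩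
    have e2 : z / z' - 1 = (z - z') / z' := by field_simp
    rw [map_one, map_one, e2, map_div₀]
    exact (div_lt_one₀ (zero_lt_iff.2 ((Valuation.ne_zero_iff _).2 hz'))).2 (hh i)
  rw [e, h.mulr _ _ _ hw hz' h1, ht, add_zero]

end Sym

section Val

variable {K : Type u} [Field K] {G : Type u} [LinearOrderedCommGroupWithZero G] (w : Valuation K G)

/-- The elements u. -/
def uu (f e ρ X Y : K) : K := e * (1 - f * Y) + (1 - e) * (f * X) + f ^ 2 * ρ

theorem one_sub_uu (f e ρ X Y : K) : 1 - uu f e ρ X Y = e * f * Y + (1 - e) * (1 - f * X) - f ^ 2 * ρ := by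
  unfold uu
  ring

/-- One of the three regions. -/
def Reg (t : G) (e α β : K) : Prop :=
  (w α ≤ t ^ 9 ∧ w (1 - e) ≤ t ^ 3) ∨ (w e ≤ t ^ 3 ∧ w β ≤ t ^ 9) ∨ (w α ≤ t ^ 3 ∧ w β ≤ t ^ 9)

variable {w}

theorem pw {t : G} (ht0 : 0 < t) (ht1 : t < 1) {m n : ℕ} (h : m < n) : t ^ n < t ^ m :=
  pow_lt_pow_right_of_lt_one₀ ht0 ht1 h

theorem regA {t : G} {f e ρ X Y : K} (ht0 : 0 < t) (ht1 : t < 1) (hf : w f = t) (hρ : w ρ = 1)
    (hX : w X = 1) (hY : w Y = 1) (he : w (1 - e) ≤ t ^ 3) :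
    w (uu f e ρ X Y) = 1 ∧ w (1 - uu f e ρ X Y) = t := by
  have he1 : w e = 1 := by
    have : e = 1 - (1 - e) := by ring
    rw [this, Valuation.map_sub_eq_of_lt_left, map_one]
    rw [map_one]
    exact he.trans_lt (by simpa using pw ht0 ht1 (show 0 < 3 by norm_num))
  have h2 : w (1 - f * X) ≤ 1 := by
    refine (w.map_sub _ _).trans (max_le (by rw [map_one]) ?_)
    rw [map_mul, hf, hX, mul_one]
    exact ht1.le
  have h1 : w (1 - uu f e ρ X Y) = t := by
    rw [one_sub_uu]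
    have e1 : w (e * f * Y) = t := by rw [map_mul, map_mul, he1, hf, hY, one_mul, mul_one]
    have e2 : w ((1 - e) * (1 - f * X)) ≤ t ^ 3 := by
      rw [map_mul]
      calc w (1 - e) * w (1 - f * X) ≤ t ^ 3 * 1 := by gcongr
        _ = t ^ 3 := mul_one _
    have e3 : w (f ^ 2 * ρ) = t ^ 2 := by rw [map_mul, map_pow, hf, hρ, mul_one]
    have e4 : t ^ 3 < t := by simpa using pw ht0 ht1 (show 1 < 3 by norm_num)
    have e5 : t ^ 2 < t := by simpa using pw ht0 ht1 (show 1 < 2 by norm_num)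
    have e6 : w (e * f * Y + (1 - e) * (1 - f * X)) = t := by
      rw [Valuation.map_add_eq_of_lt_left _ (by rw [e1]; exact e2.trans_lt e4), e1]
    rw [Valuation.map_sub_eq_of_lt_left _ (by rw [e6, e3]; exact e5), e6]
  refine ⟨?_, h1⟩
  have : uu f e ρ X Y = 1 - (1 - uu f e ρ X Y) := by ring
  rw [this, Valuation.map_sub_eq_of_lt_left, map_one]
  rw [map_one, h1]
  exact ht1

theorem regB {t : G} {f e ρ X Y : K} (ht0 : 0 < t) (ht1 : t < 1) (hf : w f = t) (hρ : w ρ = 1)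
    (hX : w X = 1) (hY : w Y = 1) (he : w e ≤ t ^ 3) :
    w (uu f e ρ X Y) = t ∧ w (1 - uu f e ρ X Y) = 1 := by
  have h0 : w (1 - (1 - e)) ≤ t ^ 3 := by rwa [sub_sub_cancel]
  have h1 := regA (ρ := -ρ) ht0 ht1 hf (by rwa [Valuation.map_neg]) hY hX h0
  have e1 : uu f (1 - e) (-ρ) Y X = 1 - uu f e ρ X Y := by
    unfold uu
    ring
  rw [e1, sub_sub_cancel] at h1
  exact ⟨h1.2, h1.1⟩

theorem upper {t : G} {f e ρ X Y : K} (ht1 : t < 1) (hf : w f = t) (hρ : w ρ = 1)
    (hX : w X = 1) (hY : w Y = 1) (he : w e ≤ 1) (he1 : w (1 - e) ≤ 1) : w (uu f e ρ X Y) ≤ 1 := by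
  unfold uu
  have h2 : w (1 - f * Y) ≤ 1 := by
    refine (w.map_sub _ _).trans (max_le (by rw [map_one]) ?_)
    rw [map_mul, hf, hY, mul_one]
    exact ht1.le
  refine (w.map_add _ _).trans (max_le ((w.map_add _ _).trans (max_le ?_ ?_)) ?_)
  · rw [map_mul]
    exact mul_le_one' he h2
  · rw [map_mul, map_mul, hf, hX, mul_one]
    exact mul_le_one' he1 ht1.le
  · rw [map_mul, map_pow, hf, hρ, mul_one]
    exact pow_le_one' ht1.le 2

/-- Region C: u and 1 - u are at least t^2. -/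
theorem regC {t : G} {f e ρ X Y : K} (ht0 : 0 < t) (ht1 : t < 1) (hf : w f = t)
    (he : w e ≤ 1) (he1 : w (1 - e) ≤ 1)
    (hlow : t ^ 2 ≤ w ((e * (1 - f) + (1 - e) * f) + f ^ 2 * ρ))
    (hlow' : t ^ 2 ≤ w ((1 - (e * (1 - f) + (1 - e) * f)) - f ^ 2 * ρ))
    (hX : w (X - 1) ≤ t ^ 3) (hY : w (Y - 1) ≤ t ^ 9) :
    t ^ 2 ≤ w (uu f e ρ X Y) ∧ t ^ 2 ≤ w (1 - uu f e ρ X Y) := by
  have hd : w ((1 - e) * f * (X - 1) - e * f * (Y - 1)) < t ^ 2 := by
    have e1 : w ((1 - e) * f * (X - 1)) ≤ t ^ 3 := by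
      rw [map_mul, map_mul, hf]
      calc w (1 - e) * t * w (X - 1) ≤ 1 * 1 * t ^ 3 := by gcongr
        _ = t ^ 3 := by simp
    have e2 : w (e * f * (Y - 1)) ≤ t ^ 9 := by
      rw [map_mul, map_mul, hf]
      calc w e * t * w (Y - 1) ≤ 1 * 1 * t ^ 9 := by gcongr
        _ = t ^ 9 := by simp
    refine (w.map_sub _ _).trans_lt (max_lt (e1.trans_lt ?_) (e2.trans_lt ?_))
    · exact pw ht0 ht1 (by norm_num)
    · exact pw ht0 ht1 (by norm_num)
  constructor
  · have e1 : uu f e ρ X Y = ((e * (1 - f) + (1 - e) * f) + f ^ 2 * ρ) +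
        ((1 - e) * f * (X - 1) - e * f * (Y - 1)) := by
      unfold uu
      ring
    rw [e1, Valuation.map_add_eq_of_lt_left _ (hd.trans_le hlow)]
    exact hlow
  · have e1 : 1 - uu f e ρ X Y = ((1 - (e * (1 - f) + (1 - e) * f)) - f ^ 2 * ρ) -
        ((1 - e) * f * (X - 1) - e * f * (Y - 1)) := by
      unfold uu
      ring
    rw [e1, Valuation.map_sub_eq_of_lt_left _ (hd.trans_le hlow')]
    exact hlow'

end Val

section Main

variable {F K : Type u} [Field F] [Field K] [Algebra F K] {I : Type u} {Γ : I → Type u}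
  [∀ i, LinearOrderedCommGroupWithZero (Γ i)] {v : ∀ i, Valuation K (Γ i)} {c0 : K →ₗ[F] F} {r : ℕ} {ρ : K}
  {f : F} {D : ℕ} {C : F[X]} (h : Fam F v c0 r ρ f D C)

include h

theorem c0_alg (s : F) : c0 (algebraMap F K s) = s := by
  rw [Algebra.algebraMap_eq_smul_one, map_smul, h.c1, smul_eq_mul, mul_one]

/-- |s + f^2 ρ| is at least |f|^2. -/
theorem low (i : I) (s : F) :
    v i (algebraMap F K f) ^ 2 ≤ v i (algebraMap F K s + algebraMap F K f ^ 2 * ρ) := by
  have hc : c0 (algebraMap F K s + algebraMap F K f ^ 2 * ρ) = s := by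
    rw [map_add, c0_alg h, ← map_pow, ← Algebra.smul_def, map_smul, h.crho, smul_zero, add_zero]
  rw [h.vmax i (algebraMap F K s + algebraMap F K f ^ 2 * ρ), hc]
  refine le_trans (le_of_eq ?_) (le_max_right _ _)
  rw [add_sub_cancel_left, map_mul, map_pow, h.vrho, mul_one]

theorem low' (i : I) (s : F) :
    v i (algebraMap F K f) ^ 2 ≤ v i (algebraMap F K s - algebraMap F K f ^ 2 * ρ) := by
  have h1 := low h i (-s)
  have h2 : algebraMap F K s - algebraMap F K f ^ 2 * ρ =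
      -(algebraMap F K (-s) + algebraMap F K f ^ 2 * ρ) := by
    rw [map_neg]
    ring
  rw [h2, Valuation.map_neg]
  exact h1

/-- The norm of a scalar. -/
theorem norm_alg (a : F) : Algebra.norm F (algebraMap F K a) = a ^ r := by
  rw [Algebra.norm_algebraMap, h.fin]

theorem norm_ne (i : I) {x : K} (hx : x ≠ 0) : Algebra.norm F x ≠ 0 := by
  intro h0
  have := h.vnm i x
  rw [h0, map_zero, map_zero] at this
  exact hx ((Valuation.zero_iff _).1 (pow_eq_zero_iff (by have := h.two; omega) |>.1 this.symm))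

/-- The normalisation of x. -/
theorem near (i : I) {x : K} (hx : x ≠ 0) {k : ℕ} (hk : 1 ≤ k)
    (ht : TrivK F (v i) (v i (algebraMap F K f) ^ k) x) :
    v i (x ^ r / algebraMap F K (Algebra.norm F x) - 1) ≤ v i (algebraMap F K f) ^ k := by
  obtain ⟨a, ha, hh⟩ := ht
  set t := v i (algebraMap F K f) with htt
  have ht1 : t ^ k ≤ 1 := pow_le_one' (h.vf i).le k
  have hA : algebraMap F K a ≠ 0 := (_root_.map_ne_zero _).2 ha
  have hvA : v i (algebraMap F K a) ≠ 0 := (Valuation.ne_zero_iff _).2 hA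
  set y := x / algebraMap F K a with hy
  have hy1 : v i (y - 1) ≤ t ^ k := by
    have : y - 1 = (x - algebraMap F K a) / algebraMap F K a := by rw [hy]; field_simp
    rw [this, map_div₀]
    exact (div_le_iff₀ (zero_lt_iff.2 hvA)).2 hh
  have hyv : v i y = 1 := by
    have : y = 1 + (y - 1) := by ring
    rw [this, Valuation.map_add_eq_of_lt_left, map_one]
    rw [map_one]
    exact hy1.trans_lt (pow_lt_one₀ zero_le (h.vf i) (by omega))
  have hyn : v i (algebraMap F K (Algebra.norm F y) - 1) ≤ t ^ k := h.vn1 i y k hk hy1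
  have hnv : v i (algebraMap F K (Algebra.norm F y)) = 1 := by rw [h.vnm, hyv, one_pow]
  have hny : algebraMap F K (Algebra.norm F y) ≠ 0 := by
    intro h0
    rw [h0, map_zero] at hnv
    exact zero_ne_one hnv
  have hpw : v i (y ^ r - 1) ≤ t ^ k := by
    have hg : y ^ r - 1 = (∑ j ∈ Finset.range r, y ^ j) * (y - 1) := (geom_sum_mul y r).symm
    rw [hg, map_mul]
    have h3 : v i (∑ j ∈ Finset.range r, y ^ j) ≤ 1 := by
      refine Valuation.map_sum_le _ fun j _ => ?_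
      rw [map_pow, hyv, one_pow]
    calc v i (∑ j ∈ Finset.range r, y ^ j) * v i (y - 1) ≤ 1 * t ^ k := by gcongr
      _ = t ^ k := one_mul _
  have hx' : x = algebraMap F K a * y := by rw [hy]; field_simp
  have e1 : x ^ r / algebraMap F K (Algebra.norm F x) = y ^ r / algebraMap F K (Algebra.norm F y) := by
    rw [hx', map_mul, norm_alg h, map_mul, map_pow, mul_pow]
    field_simp
  have e2 : y ^ r / algebraMap F K (Algebra.norm F y) - 1 =
      ((y ^ r - 1) - (algebraMap F K (Algebra.norm F y) - 1)) / algebraMap F K (Algebra.norm F y) := by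
    field_simp
    ring
  rw [e1, e2, map_div₀, hnv, div_one]
  exact (Valuation.map_sub _ _ _).trans (max_le hpw hyn)

theorem nval (i : I) {x : K} (hx : x ≠ 0) :
    v i (x ^ r / algebraMap F K (Algebra.norm F x)) = 1 := by
  rw [map_div₀, map_pow, h.vnm, div_self]
  exact pow_ne_zero _ ((Valuation.ne_zero_iff _).2 hx)

/-- The values of 1 - 1/C(s) and 1/C(s). -/
theorem eval_near (i : I) {s : F} (hs : v i (algebraMap F K s) ≤ 1) :
    v i (1 - algebraMap F K (C.eval s)⁻¹) ≤ v i (algebraMap F K s) := by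
  have hC : v i (algebraMap F K (C.eval s)) = 1 := by
    rw [h.anis, max_eq_left hs, one_pow]
  have hC0 : algebraMap F K (C.eval s) ≠ 0 := by
    intro h0
    rw [h0, map_zero] at hC
    exact zero_ne_one hC
  have e1 : C.eval s - 1 = C.divX.eval s * s := by
    conv_lhs => rw [← divX_mul_X_add C]
    rw [h.Czero]
    simp
  have e2 : v i (algebraMap F K (C.divX.eval s)) ≤ 1 := by
    rw [eval_eq_sum_range, map_sum]
    refine Valuation.map_sum_le _ fun j _ => ?_
    rw [map_mul, map_mul, map_pow, map_pow, coeff_divX]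
    exact mul_le_one' (h.Cint i _) (pow_le_one' hs _)
  have e3 : 1 - algebraMap F K (C.eval s)⁻¹ = algebraMap F K (C.divX.eval s * s) / algebraMap F K (C.eval s) := by
    rw [← e1, map_sub, map_one, map_inv₀]
    field_simp
  rw [e3, map_div₀, hC, div_one, map_mul, map_mul]
  calc v i (algebraMap F K (C.divX.eval s)) * v i (algebraMap F K s) ≤ 1 * v i (algebraMap F K s) := by gcongr
    _ = _ := one_mul _

theorem eval_le (i : I) (s : F) : v i (algebraMap F K (C.eval s)⁻¹) ≤ 1 := by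
  rw [map_inv₀, map_inv₀, h.anis]
  exact inv_le_one_of_one_le₀ (one_le_pow₀ (le_max_left _ _))

theorem eval_far (i : I) {s : F} (hs : 1 ≤ v i (algebraMap F K s)) :
    v i (algebraMap F K (C.eval s)⁻¹) ≤ (v i (algebraMap F K s))⁻¹ := by
  rw [map_inv₀, map_inv₀, h.anis, max_eq_right hs]
  exact inv_anti₀ (zero_lt_one.trans_le hs) (le_self_pow₀ hs (by have := h.Dpos; omega))

end Main

section Final

variable {F K : Type u} [Field F] [Field K] [Algebra F K] {I : Type u} {Γ : I → Type u}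
  [∀ i, LinearOrderedCommGroupWithZero (Γ i)] {v : ∀ i, Valuation K (Γ i)} {c0 : K →ₗ[F] F} {r : ℕ} {ρ : K}
  {f : F} {D : ℕ} {C : F[X]} {T : Type u} [AddCommGroup T] {S : K → K → T}

/-- (2.1) for normalised elements. -/
theorem main [Nonempty I] (h : Fam F v c0 r ρ f D C) (hS : Sym F v S) (hG : Good F v f 2 S) {x y : K}
    (hx : ∀ i, v i x = 1) (hy : ∀ i, v i y = 1)
    (hxy : ∀ i, v i (x - 1) ≤ v i (algebraMap F K f) ^ 9 ∨ v i (y - 1) ≤ v i (algebraMap F K f) ^ 9) :
    S x y = 0 := by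
  obtain ⟨i0⟩ := ‹Nonempty I›
  have hx0 : x ≠ 0 := by
    intro h0
    have := hx i0
    rw [h0, map_zero] at this
    exact zero_ne_one this
  have hy0 : y ≠ 0 := by
    intro h0
    have := hy i0
    rw [h0, map_zero] at this
    exact zero_ne_one this
  by_cases hα : x - 1 = 0
  · rw [sub_eq_zero.1 hα]
    exact one_left hS hy0
  have hK : algebraMap F K f ≠ 0 := (_root_.map_ne_zero _).2 h.f0
  set s : F := Algebra.norm F (x - 1) / f ^ (6 * r) with hs
  set e : K := algebraMap F K (C.eval s)⁻¹ with he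
  set φ : K := algebraMap F K f with hφ
  have ht0 : ∀ i, 0 < v i φ := fun i => zero_lt_iff.2 ((Valuation.ne_zero_iff _).2 hK)
  have hvs : ∀ i, v i (algebraMap F K s) = (v i (x - 1) / v i φ ^ 6) ^ r := by
    intro i
    rw [hs, map_div₀, map_div₀, h.vnm, map_pow, map_pow, ← hφ, div_pow, ← pow_mul]
  have r1 : r ≠ 0 := by have := h.two; omega
  have hreg : ∀ i, Reg (v i) (v i φ) e (x - 1) (y - 1) := by
    intro i
    have hd6 : 0 < v i φ ^ 6 := pow_pos (ht0 i) 6
    by_cases c1 : v i (x - 1) ≤ v i φ ^ 9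
    · left
      refine ⟨c1, ?_⟩
      have c2 : v i (algebraMap F K s) ≤ v i φ ^ 3 := by
        rw [hvs]
        have c3 : v i (x - 1) / v i φ ^ 6 ≤ v i φ ^ 3 := by
          rw [div_le_iff₀ hd6, ← pow_add]
          exact c1
        calc (v i (x - 1) / v i φ ^ 6) ^ r ≤ (v i φ ^ 3) ^ r := by gcongr
          _ ≤ v i φ ^ 3 := pow_le_of_le_one (zero_le) (pow_le_one' (h.vf i).le 3) r1
      exact (eval_near h i (c2.trans (pow_le_one' (h.vf i).le 3))).trans c2
    · have c4 : v i (y - 1) ≤ v i φ ^ 9 := (hxy i).resolve_left c1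
      by_cases c5 : v i (x - 1) ≤ v i φ ^ 3
      · exact Or.inr (Or.inr ⟨c5, c4⟩)
      · refine Or.inr (Or.inl ⟨?_, c4⟩)
        push Not at c5
        have c6 : (v i φ ^ 3)⁻¹ ≤ v i (algebraMap F K s) := by
          rw [hvs]
          have c7 : (v i φ ^ 3)⁻¹ ≤ v i (x - 1) / v i φ ^ 6 := by
            rw [le_div_iff₀ hd6, inv_mul_le_iff₀ (pow_pos (ht0 i) 3)]
            rw [show (6 : ℕ) = 3 + 3 by norm_num, pow_add]
            gcongr
          have c8 : 1 ≤ v i (x - 1) / v i φ ^ 6 :=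
            le_trans ((one_le_inv₀ (pow_pos (ht0 i) 3)).2 (pow_le_one' (h.vf i).le 3)) c7
          exact c7.trans (le_self_pow₀ c8 r1)
        have c9 : 1 ≤ v i (algebraMap F K s) :=
          le_trans ((one_le_inv₀ (pow_pos (ht0 i) 3)).2 (pow_le_one' (h.vf i).le 3)) c6
        calc v i e ≤ (v i (algebraMap F K s))⁻¹ := eval_far h i c9
          _ ≤ ((v i φ ^ 3)⁻¹)⁻¹ := inv_anti₀ (inv_pos.2 (pow_pos (ht0 i) 3)) c6
          _ = v i φ ^ 3 := inv_inv _
  have hele : ∀ i, v i e ≤ 1 := fun i => eval_le h i s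
  have hele' : ∀ i, v i (1 - e) ≤ 1 := fun i =>
    (Valuation.map_sub _ _ _).trans (max_le (by rw [map_one]) (hele i))
  have hxle : ∀ i, v i (x - 1) ≤ 1 := fun i =>
    (Valuation.map_sub _ _ _).trans (max_le (hx i).le (by rw [map_one]))
  have hyle : ∀ i, v i (y - 1) ≤ 1 := fun i =>
    (Valuation.map_sub _ _ _).trans (max_le (hy i).le (by rw [map_one]))
  -- lower bounds of u and 1 - u
  have hlow : ∀ X Y : K, (X = 1 ∨ X = x) → (Y = 1 ∨ Y = y) → ∀ i,
      v i φ ^ 2 ≤ v i (uu φ e ρ X Y) ∧ v i φ ^ 2 ≤ v i (1 - uu φ e ρ X Y) := by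
    intro X Y hX hY i
    have hX1 : v i X = 1 := by rcases hX with rfl | rfl; exacts [map_one _, hx i]
    have hY1 : v i Y = 1 := by rcases hY with rfl | rfl; exacts [map_one _, hy i]
    have hX2 : v i (X - 1) ≤ v i (x - 1) := by
      rcases hX with rfl | rfl
      · rw [sub_self, map_zero]; exact zero_le
      · exact le_rfl
    have hY2 : v i (Y - 1) ≤ v i (y - 1) := by
      rcases hY with rfl | rfl
      · rw [sub_self, map_zero]; exact zero_le
      · exact le_rfl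
    have q1 : v i φ ^ 2 ≤ 1 := pow_le_one' (h.vf i).le 2
    have q2 : v i φ ^ 2 ≤ v i φ := by
      simpa using (pw (ht0 i) (h.vf i) (show 1 < 2 by norm_num)).le
    rcases hreg i with ⟨_, c2⟩ | ⟨c1, _⟩ | ⟨c1, c2⟩
    · obtain ⟨a1, a2⟩ := regA (X := X) (Y := Y) (ht0 i) (h.vf i) rfl (h.vrho i) hX1 hY1 c2
      rw [a1, a2]
      exact ⟨q1, q2⟩
    · obtain ⟨a1, a2⟩ := regB (X := X) (Y := Y) (ht0 i) (h.vf i) rfl (h.vrho i) hX1 hY1 c1
      rw [a1, a2]
      exact ⟨q2, q1⟩
    · refine regC (ht0 i) (h.vf i) rfl (hele i) (hele' i) ?_ ?_ (hX2.trans c1) (hY2.trans c2)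
      · have := low h i ((C.eval s)⁻¹ * (1 - f) + (1 - (C.eval s)⁻¹) * f)
        simpa only [map_add, map_sub, map_mul, map_one] using this
      · have := low' h i (1 - ((C.eval s)⁻¹ * (1 - f) + (1 - (C.eval s)⁻¹) * f))
        simpa only [map_add, map_sub, map_mul, map_one] using this
  have hu0 : ∀ X Y : K, (X = 1 ∨ X = x) → (Y = 1 ∨ Y = y) → uu φ e ρ X Y ≠ 0 := by
    intro X Y hX hY h0
    have := (hlow X Y hX hY i0).1
    rw [h0, map_zero] at this
    exact absurd this (not_le.2 (pow_pos (ht0 i0) 2))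
  have hu1 : ∀ X Y : K, (X = 1 ∨ X = x) → (Y = 1 ∨ Y = y) → 1 - uu φ e ρ X Y ≠ 0 := by
    intro X Y hX hY h0
    have := (hlow X Y hX hY i0).2
    rw [h0, map_zero] at this
    exact absurd this (not_le.2 (pow_pos (ht0 i0) 2))
  have hst : ∀ X Y : K, (X = 1 ∨ X = x) → (Y = 1 ∨ Y = y) →
      S (uu φ e ρ X Y) (1 - uu φ e ρ X Y) = 0 := by
    intro X Y hX hY
    have hX1 : ∀ i, v i X = 1 := fun i => by rcases hX with rfl | rfl; exacts [map_one _, hx i]
    have hY1 : ∀ i, v i Y = 1 := fun i => by rcases hY with rfl | rfl; exacts [map_one _, hy i]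
    exact hG _ (hu0 X Y hX hY) (fun h0 => hu1 X Y hX hY (sub_eq_zero.2 h0.symm))
      (fun i => upper (h.vf i) rfl (h.vrho i) (hX1 i) (hY1 i) (hele i) (hele' i))
      (fun i => (hlow X Y hX hY i).1) (fun i => (hlow X Y hX hY i).2)
  -- the classes
  have key : ∀ Y : K, (Y = 1 ∨ Y = y) → S x (1 - uu φ e ρ 1 Y) = 0 := by
    intro Y hY
    have hY1 : ∀ i, v i Y = 1 := fun i => by rcases hY with rfl | rfl; exacts [map_one _, hy i]
    have n1 := hu0 x Y (Or.inr rfl) hY
    have n2 := hu0 1 Y (Or.inl rfl) hY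
    have n3 := hu1 x Y (Or.inr rfl) hY
    have n4 := hu1 1 Y (Or.inl rfl) hY
    have s1 := hst x Y (Or.inr rfl) hY
    have s2 := hst 1 Y (Or.inl rfl) hY
    have k1 : S (uu φ e ρ x Y) (1 - uu φ e ρ x Y) = S (x * uu φ e ρ 1 Y) (1 - uu φ e ρ x Y) := by
      refine congr_left hS n1 (mul_ne_zero hx0 n2) n3 fun i => ?_
      have e1 : uu φ e ρ x Y - x * uu φ e ρ 1 Y = (1 - x) * (e * (1 - φ * Y) + φ ^ 2 * ρ) := by
        unfold uu
        ring
      rw [e1, map_mul, map_mul, hx i, one_mul, Valuation.map_sub_swap]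
      have f1 : v i (1 - φ * Y) ≤ 1 := by
        refine (Valuation.map_sub _ _ _).trans (max_le (by rw [map_one]) ?_)
        rw [map_mul, hY1 i, mul_one]
        exact (h.vf i).le
      have f2 : v i (φ ^ 2 * ρ) = v i φ ^ 2 := by rw [map_mul, map_pow, h.vrho, mul_one]
      have f3 : v i (e * (1 - φ * Y) + φ ^ 2 * ρ) ≤ max (v i e) (v i φ ^ 2) := by
        refine (Valuation.map_add _ _ _).trans (max_le_max ?_ f2.le)
        rw [map_mul]
        calc v i e * v i (1 - φ * Y) ≤ v i e * 1 := by gcongr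
          _ = v i e := mul_one _
      have f4 : v i (e * (1 - φ * Y) + φ ^ 2 * ρ) ≤ 1 := f3.trans (max_le (hele i) (pow_le_one' (h.vf i).le 2))
      rcases hreg i with ⟨c1, c2⟩ | ⟨c1, _⟩ | ⟨c1, c2⟩
      · rw [(regA (X := 1) (Y := Y) (ht0 i) (h.vf i) rfl (h.vrho i) (map_one _) (hY1 i) c2).1]
        calc v i (x - 1) * v i (e * (1 - φ * Y) + φ ^ 2 * ρ) ≤ v i φ ^ 9 * 1 := by gcongr
          _ < 1 := by rw [mul_one]; exact pow_lt_one₀ zero_le (h.vf i) (by norm_num)
      · rw [(regB (X := 1) (Y := Y) (ht0 i) (h.vf i) rfl (h.vrho i) (map_one _) (hY1 i) c1).1]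
        have g1 : v i e ≤ v i φ ^ 2 := c1.trans (pw (ht0 i) (h.vf i) (by norm_num)).le
        calc v i (x - 1) * v i (e * (1 - φ * Y) + φ ^ 2 * ρ) ≤ 1 * v i φ ^ 2 := by
              gcongr
              · exact hxle i
              · exact f3.trans (max_le g1 le_rfl)
          _ < v i φ := by rw [one_mul]; simpa using pw (ht0 i) (h.vf i) (show 1 < 2 by norm_num)
      · refine lt_of_lt_of_le ?_ (hlow 1 Y (Or.inl rfl) hY i).1
        calc v i (x - 1) * v i (e * (1 - φ * Y) + φ ^ 2 * ρ) ≤ v i φ ^ 3 * 1 := by gcongr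
          _ < v i φ ^ 2 := by rw [mul_one]; exact pw (ht0 i) (h.vf i) (by norm_num)
    have k2 : S (x * uu φ e ρ 1 Y) (1 - uu φ e ρ x Y) = S (x * uu φ e ρ 1 Y) (1 - uu φ e ρ 1 Y) := by
      refine congr_right hS n3 n4 (mul_ne_zero hx0 n2) fun i => ?_
      have e1 : (1 - uu φ e ρ x Y) - (1 - uu φ e ρ 1 Y) = (1 - e) * φ * (1 - x) := by
        unfold uu
        ring
      rw [e1, map_mul, map_mul, Valuation.map_sub_swap _ 1 x]
      rcases hreg i with ⟨c1, c2⟩ | ⟨c1, _⟩ | ⟨c1, c2⟩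
      · rw [(regA (X := 1) (Y := Y) (ht0 i) (h.vf i) rfl (h.vrho i) (map_one _) (hY1 i) c2).2]
        calc v i (1 - e) * v i φ * v i (x - 1) ≤ 1 * v i φ * v i φ ^ 9 := by
              gcongr
              exact hele' i
          _ = v i φ ^ 10 := by rw [one_mul]; exact (pow_succ' _ _).symm
          _ < v i φ := by simpa using pw (ht0 i) (h.vf i) (show 1 < 10 by norm_num)
      · rw [(regB (X := 1) (Y := Y) (ht0 i) (h.vf i) rfl (h.vrho i) (map_one _) (hY1 i) c1).2]
        calc v i (1 - e) * v i φ * v i (x - 1) ≤ 1 * v i φ * 1 := by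
              gcongr
              · exact hele' i
              · exact hxle i
          _ = v i φ := by rw [one_mul, mul_one]
          _ < 1 := h.vf i
      · refine lt_of_lt_of_le ?_ (hlow 1 Y (Or.inl rfl) hY i).2
        calc v i (1 - e) * v i φ * v i (x - 1) ≤ 1 * 1 * v i φ ^ 3 := by
              gcongr
              · exact hele' i
              · exact (h.vf i).le
          _ < v i φ ^ 2 := by rw [one_mul, one_mul]; exact pw (ht0 i) (h.vf i) (by norm_num)
    rw [k1, k2, hS.mull _ _ _ hx0 n2 n4, s2, add_zero] at s1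
    exact s1
  have k3 : S x (1 - uu φ e ρ 1 y) = S x (y * (1 - uu φ e ρ 1 1)) := by
    refine congr_right hS (hu1 1 y (Or.inl rfl) (Or.inr rfl))
      (mul_ne_zero hy0 (hu1 1 1 (Or.inl rfl) (Or.inl rfl))) hx0 fun i => ?_
    have e1 : (1 - uu φ e ρ 1 y) - y * (1 - uu φ e ρ 1 1) =
        (1 - y) * ((1 - e) * (1 - φ) - φ ^ 2 * ρ) := by
      unfold uu
      ring
    rw [e1, map_mul, map_mul, hy i, one_mul, Valuation.map_sub_swap]
    have f1 : v i (1 - φ) ≤ 1 :=
      (Valuation.map_sub _ _ _).trans (max_le (by rw [map_one]) (h.vf i).le)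
    have f2 : v i (φ ^ 2 * ρ) = v i φ ^ 2 := by rw [map_mul, map_pow, h.vrho, mul_one]
    have f3 : v i ((1 - e) * (1 - φ) - φ ^ 2 * ρ) ≤ max (v i (1 - e)) (v i φ ^ 2) := by
      refine (Valuation.map_sub _ _ _).trans (max_le_max ?_ f2.le)
      rw [map_mul]
      calc v i (1 - e) * v i (1 - φ) ≤ v i (1 - e) * 1 := by gcongr
        _ = v i (1 - e) := mul_one _
    have f4 : v i ((1 - e) * (1 - φ) - φ ^ 2 * ρ) ≤ 1 := f3.trans (max_le (hele' i) (pow_le_one' (h.vf i).le 2))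
    rcases hreg i with ⟨c1, c2⟩ | ⟨c1, c2⟩ | ⟨c1, c2⟩
    · rw [(regA (X := 1) (Y := 1) (ht0 i) (h.vf i) rfl (h.vrho i) (map_one _) (map_one _) c2).2]
      have g1 : v i (1 - e) ≤ v i φ ^ 2 := c2.trans (pw (ht0 i) (h.vf i) (by norm_num)).le
      calc v i (y - 1) * v i ((1 - e) * (1 - φ) - φ ^ 2 * ρ) ≤ 1 * v i φ ^ 2 := by
            gcongr
            · exact hyle i
            · exact f3.trans (max_le g1 le_rfl)
        _ < v i φ := by rw [one_mul]; simpa using pw (ht0 i) (h.vf i) (show 1 < 2 by norm_num)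
    · rw [(regB (X := 1) (Y := 1) (ht0 i) (h.vf i) rfl (h.vrho i) (map_one _) (map_one _) c1).2]
      calc v i (y - 1) * v i ((1 - e) * (1 - φ) - φ ^ 2 * ρ) ≤ v i φ ^ 9 * 1 := by gcongr
        _ < 1 := by rw [mul_one]; exact pow_lt_one₀ zero_le (h.vf i) (by norm_num)
    · refine lt_of_lt_of_le ?_ (hlow 1 1 (Or.inl rfl) (Or.inl rfl) i).2
      calc v i (y - 1) * v i ((1 - e) * (1 - φ) - φ ^ 2 * ρ) ≤ v i φ ^ 9 * 1 := by gcongr
        _ < v i φ ^ 2 := by rw [mul_one]; exact pw (ht0 i) (h.vf i) (by norm_num)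
  have k4 := key y (Or.inr rfl)
  rw [k3, hS.mulr _ _ _ hx0 hy0 (hu1 1 1 (Or.inl rfl) (Or.inl rfl)), key 1 (Or.inl rfl), add_zero] at k4
  exact k4

end Final

end DJ

open DJ in
theorem disj_proof : DisjStatement.{u} := by
  intro F K _ _ _ _ I _ Γ _ v c0 r ρ f D C k T _ _ _ S h hr hS hG x y hx hy hxy
  obtain ⟨i0⟩ := ‹Nonempty I›
  have hr0 : ∀ t : T, r • t = 0 → t = 0 := by
    intro t ht
    have h1 : (r : k) • t = 0 := by rw [Nat.cast_smul_eq_nsmul]; exact ht
    exact (smul_eq_zero.1 h1).resolve_left hr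
  have hNx : algebraMap F K (Algebra.norm F x) ≠ 0 := (_root_.map_ne_zero _).2 (norm_ne h i0 hx)
  have hNy : algebraMap F K (Algebra.norm F y) ≠ 0 := (_root_.map_ne_zero _).2 (norm_ne h i0 hy)
  have hx1 : x ^ r / algebraMap F K (Algebra.norm F x) ≠ 0 := div_ne_zero (pow_ne_zero _ hx) hNx
  have hy1 : y ^ r / algebraMap F K (Algebra.norm F y) ≠ 0 := div_ne_zero (pow_ne_zero _ hy) hNy
  have h0 : S (x ^ r / algebraMap F K (Algebra.norm F x)) (y ^ r / algebraMap F K (Algebra.norm F y)) = 0 := by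
    refine main h hS hG (fun i => nval h i hx) (fun i => nval h i hy) fun i => ?_
    rcases hxy i with h1 | h1
    · exact Or.inl (near h i hx (by norm_num) h1)
    · exact Or.inr (near h i hy (by norm_num) h1)
  have pl : ∀ (n : ℕ) (z : K), z ≠ 0 → S (x ^ n) z = n • S x z := by
    intro n z hz
    induction n with
    | zero => rw [pow_zero, one_left hS hz, zero_smul]
    | succ n ih => rw [pow_succ, hS.mull _ _ _ (pow_ne_zero _ hx) hx hz, ih, succ_nsmul]
  have one_right : ∀ z : K, z ≠ 0 → S z 1 = 0 := by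
    intro z hz
    have := hS.mulr z 1 1 hz one_ne_zero one_ne_zero
    rw [one_mul] at this
    exact left_eq_add.1 this
  have pr : ∀ (n : ℕ) (z : K), z ≠ 0 → S z (y ^ n) = n • S z y := by
    intro n z hz
    induction n with
    | zero => rw [pow_zero, one_right z hz, zero_smul]
    | succ n ih => rw [pow_succ, hS.mulr _ _ _ hz (pow_ne_zero _ hy) hy, ih, succ_nsmul]
  have tr : ∀ (a : F), a ≠ 0 → ∀ i, Triv F (v i) (algebraMap F K a) := by
    intro a ha i
    refine ⟨a, ha, ?_⟩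
    rw [sub_self, map_zero]
    exact zero_lt_iff.2 ((Valuation.ne_zero_iff _).2 ((_root_.map_ne_zero _).2 ha))
  have e1 : S (x ^ r / algebraMap F K (Algebra.norm F x)) (y ^ r / algebraMap F K (Algebra.norm F y))
      = S (x ^ r) (y ^ r / algebraMap F K (Algebra.norm F y)) := by
    rw [div_eq_mul_inv, hS.mull _ _ _ (pow_ne_zero _ hx) (inv_ne_zero hNx) hy1, ← map_inv₀,
      hS.trivl _ _ ((_root_.map_ne_zero _).2 (inv_ne_zero (norm_ne h i0 hx))) hy1
        (tr _ (inv_ne_zero (norm_ne h i0 hx))), add_zero]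
  have e2 : S (x ^ r) (y ^ r / algebraMap F K (Algebra.norm F y)) = S (x ^ r) (y ^ r) := by
    rw [div_eq_mul_inv, hS.mulr _ _ _ (pow_ne_zero _ hx) (pow_ne_zero _ hy) (inv_ne_zero hNy), ← map_inv₀,
      hS.trivr _ _ (pow_ne_zero _ hx) ((_root_.map_ne_zero _).2 (inv_ne_zero (norm_ne h i0 hy)))
        (tr _ (inv_ne_zero (norm_ne h i0 hy))), add_zero]
  rw [e1, e2, pl r _ (pow_ne_zero _ hy), pr r x hx] at h0
  exact hr0 _ (hr0 _ h0)

end CL
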