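import Pool.Agent.Lib.MP_defcf3_al.CL.IfaceB

/-!
Project CL (MP_defcf3_al), part (B), row E3: (6.1) of findings 4324.
-/

set_option autoImplicit false

open Polynomial

namespace CL

universe u

section e3

variable {F : Type u} [Field F]

theorem e3_pow_succ {P : F[X]} (hP : P.Monic) (x : F[X]) (k : ℕ) :
    (x ^ (k + 1)) %ₘ P = (((x ^ k) %ₘ P) * x) %ₘ P := by
  apply modByMonic_eq_of_dvd_sub hP
  have h := modByMonic_add_div (x ^ k) P
  refine ⟨(x ^ k /ₘ P) * x, ?_⟩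
  rw [pow_succ]
  nth_rewrite 1 [← h]
  ring

theorem e3_pow_ne {P x : F[X]} (hP : P.Monic) (hi : Irreducible P) (hx : x ≠ 0)
    (hd : x.natDegree < P.natDegree) (k : ℕ) : (x ^ k) %ₘ P ≠ 0 := by
  intro h
  rw [modByMonic_eq_zero_iff_dvd hP] at h
  have h1 := hi.prime.dvd_of_dvd_pow h
  have h2 := natDegree_le_of_dvd h1 hx
  omega

theorem e3_deg {P : F[X]} (hP : P.Monic) (h1 : 1 ≤ P.natDegree) (A : F[X]) :
    (A %ₘ P).natDegree < P.natDegree :=
  natDegree_modByMonic_lt A hP (by rintro rfl; simp at h1)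

theorem e3_one {P : F[X]} (hP : P.Monic) (h1 : 1 ≤ P.natDegree) : (1 : F[X]) %ₘ P = 1 := by
  rw [modByMonic_eq_self_iff hP]
  rw [degree_one]
  exact natDegree_pos_iff_degree_pos.1 h1

/-- Powers modulo `P'` and modulo `P`. -/
theorem e3_sim_pow (h3 : InrStatement.{u}) (h4 : SimStatement.{u}) {V : ValuationSubring F} {P P' x : F[X]}
    (hP : P.Monic) (hi : Irreducible P) (h2 : 2 ≤ P.natDegree) (hin : Inert V P) (hP' : P'.Monic)
    (hd' : P'.natDegree = P.natDegree) (hc : CoM V (P' - P)) (hx : x ≠ 0) (hd : x.natDegree < P.natDegree)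
    (k : ℕ) : PSim V ((x ^ k) %ₘ P') ((x ^ k) %ₘ P) := by
  obtain ⟨s1, s2, s3, s4, s5, s6, s7, s8, s9⟩ := h4 F V
  obtain ⟨-, i2, -⟩ := h3 F V P hP (by omega) hin
  obtain ⟨hin', -⟩ := i2 P' hP' hd' hc
  induction k with
  | zero =>
    rw [pow_zero, e3_one hP (by omega), e3_one hP' (by omega)]
    exact s1 1 one_ne_zero
  | succ k ih =>
    rw [e3_pow_succ hP', e3_pow_succ hP]
    have e1 := s6 P' ((x ^ k) %ₘ P') ((x ^ k) %ₘ P) x x hP' (by omega) hin' (e3_deg hP' (by omega) _)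
      (by rw [hd']; exact e3_deg hP (by omega) _) (by omega) (by omega) ih (s1 x hx)
    have e2 := s8 P P' ((x ^ k) %ₘ P) x hP (by omega) hin hP' hd' hc (e3_pow_ne hP hi hx hd k) hx
      (e3_deg hP (by omega) _) hd
    exact s3 _ _ _ e1 e2

theorem e3_E_pow {l e n r : ℕ} {Z : Set (ValuationSubring F)} {P : F[X]} {a : ℕ} {f : F} {K mm : ℕ} {T : Type u}
    [AddCommGroup T] {h E : F[X] → F[X] → T} (hE : EP F l e n r Z P a f K mm h E) (hP : P.Monic)
    (hi : Irreducible P) (hr : P.natDegree = r) (h2 : 2 ≤ r) {X x : F[X]} (hX : PA Z l e n a r P f mm X)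
    (hx : x ≠ 0) (hd : x.natDegree < r) (k : ℕ) : E ((x ^ k) %ₘ P) X = k • E x X := by
  subst hr
  induction k with
  | zero =>
    have h1 := hE.mul X hX 1 1 one_ne_zero (by rw [natDegree_one]; omega) one_ne_zero (by rw [natDegree_one]; omega)
    rw [mul_one, e3_one hP (by omega)] at h1
    rw [pow_zero, e3_one hP (by omega), zero_smul]
    exact left_eq_add.1 h1
  | succ k ih =>
    rw [e3_pow_succ hP, hE.mul X hX _ _ (e3_pow_ne hP hi hx hd k) (e3_deg hP (by omega) _) hx hd, ih, add_smul,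
      one_smul]

theorem e3_tw_one (h2 : TwpStatement.{u}) {l : ℕ} (hl : l.Prime) (hc : CharP F l)
    (hp : ∀ x : F, ∃ y : F, y ^ l = x) (j : ℕ) : tw (l ^ j) (1 : F[X]) = 1 := by
  obtain ⟨-, -, t3, -⟩ := h2 F l hl hc hp
  obtain ⟨h1, -, h3⟩ := t3 j 1
  rw [natDegree_one] at h1
  exact eq_one_of_monic_natDegree_zero (h3 monic_one) h1

theorem e3_tw_pow (h2 : TwpStatement.{u}) {l : ℕ} (hl : l.Prime) (hc : CharP F l)
    (hp : ∀ x : F, ∃ y : F, y ^ l = x) (j : ℕ) (x : F[X]) (k : ℕ) : tw (l ^ j) (x ^ k) = tw (l ^ j) x ^ k := by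
  obtain ⟨t1, -⟩ := h2 F l hl hc hp
  induction k with
  | zero => rw [pow_zero, pow_zero, e3_tw_one h2 hl hc hp]
  | succ k ih => rw [pow_succ, pow_succ, (t1 j _ _).2.2, ih]

theorem e3_wt (h2 : TwpStatement.{u}) {l p e n r : ℕ} {Z : Set (ValuationSubring F)} {T : Type u}
    [AddCommGroup T] {h : F[X] → F[X] → T} (hl : l.Prime) (hc : CharP F l)
    (hp : ∀ x : F, ∃ y : F, y ^ l = x) (hF : HF F l p e n r Z h) (i : ℕ) (P A : F[X]) (hP : P.Monic)
    (hr : P.natDegree = r) (hA : A ≠ 0) (hd : A.natDegree < r) :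
    h (tw ((l ^ e) ^ i) P) (tw ((l ^ e) ^ i) A) = ((l ^ e) ^ i) • h P A := by
  obtain ⟨-, tc, t3, t4, -⟩ := h2 F l hl hc hp
  induction i with
  | zero =>
    have h0 : ∀ B : F[X], tw ((l ^ e) ^ 0) B = B := by
      intro B
      ext i
      have := tc 0 B i
      rw [pow_zero, pow_one] at this
      rw [pow_zero]
      exact this
    rw [h0, h0, pow_zero, one_smul]
  | succ i ih =>
    have h1 : ∀ B : F[X], tw ((l ^ e) ^ (i + 1)) B = tw (l ^ e) (tw ((l ^ e) ^ i) B) := by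
      intro B
      rw [← pow_mul l e i, t4, ← pow_mul]
      congr 2
      ring
    have hP1 : (tw ((l ^ e) ^ i) P).Monic := by rw [← pow_mul]; exact (t3 _ P).2.2 hP
    have hP2 : (tw ((l ^ e) ^ i) P).natDegree = r := by rw [← pow_mul, (t3 _ P).1, hr]
    have hA1 : tw ((l ^ e) ^ i) A ≠ 0 := by rw [← pow_mul, Ne, (t3 _ A).2.1]; exact hA
    have hA2 : (tw ((l ^ e) ^ i) A).natDegree < r := by rw [← pow_mul, (t3 _ A).1]; exact hd
    rw [h1, h1, hF.wt _ _ hP1 hP2 hA1 hA2, ih, ← mul_smul, pow_succ']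

end e3

/-- (6.1) = (E3). -/
theorem e3_proof (h1 : PnStatement.{u}) (h2 : TwpStatement.{u}) (h3 : InrStatement.{u}) (h4 : SimStatement.{u})
    (h5 : XpStatement.{u}) (h6 : PxStatement.{u}) (h7 : SepStatement.{u}) (h8 : LocStatement.{u}) :
    E3Statement.{u} := by
  intro F _ l p e n r Z P a f D Cp E cont H K mm T _ h Ef hC hF hE X x hX hX' hx hxd
  obtain ⟨px1, px2, px3, px4⟩ := h6 F l p e n r Z P a f D Cp E cont H K mm hC
  obtain ⟨hPXm, hPXd, hPXb, hPXi⟩ := px4 X hX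
  obtain ⟨s, hs1, hs2⟩ := h7 F l p e n r Z P a f D Cp E cont H K mm hC X hX
  have hl := hC.num.lpr
  have hch := hC.num.chr
  have hpf := hC.num.perf
  have hr2 := hC.num.r2
  have hm3 := hC.m3
  obtain ⟨t1, tc, t3, t4, t5, t6, t7⟩ := h2 F l hl hch hpf
  -- the auxiliary element
  have hcv : ∀ V : ValuationSubring F, CoV V Cp := by
    intro V i
    obtain ⟨m, hm⟩ := hC.ani.pf i
    rw [hm]
    exact intCast_mem V m
  have hfV : ∀ V ∈ Za Z l e n a P, V.valuation f < 1 ∧ 0 < V.valuation f := fun V hV => (px3 V hV).2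
  obtain ⟨y, hy0, hyd, hy1, hy2⟩ := h5 F (PX l e n K P X) D Cp (Bd Z (QQ l e n) (PX l e n K P X)) (Za Z l e n a P) s
    hPXm hPXi (by rw [hPXd]; exact hr2) hC.ani.zero (fun V _ => hcv V) hC.ani.Dpos
    (fun V hV => ⟨hV.2.1, (px1 _ hPXm hPXd V hV).2⟩) (fun V hV => (hPXb V hV).2) hC.ne
    (fun V hV => lt_of_le_of_lt (hs1 V hV) (pow_lt_one₀ zero_le (hfV V hV).1 (by omega)))
    hs2 x hx (by rw [hPXd]; exact hxd)
  rw [hPXd] at hyd hy1
  -- the class of `y` on `Z_a`, modulo `P`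
  have hInP : ∀ V ∈ Za Z l e n a P, Inert V P := fun V hV => (px3 V hV).1.2.1
  have hy1' : ∀ V ∈ Za Z l e n a P, PSim V y ((x ^ r) %ₘ P) := by
    intro V hV
    obtain ⟨-, -, s3, -⟩ := h4 F V
    exact s3 _ _ _ (hy1 V hV) (e3_sim_pow h3 h4 hC.mon hC.irr (by rw [hC.deg]; exact hr2) (hInP V hV) hPXm
      (by rw [hPXd, hC.deg]) (hPXb V hV).1 hx (by rw [hC.deg]; exact hxd) r)
  have hxr0 : (x ^ r) %ₘ P ≠ 0 := e3_pow_ne hC.mon hC.irr hx (by rw [hC.deg]; exact hxd) r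
  have hxrd : ((x ^ r) %ₘ P).natDegree < r := by
    have := e3_deg hC.mon (by rw [hC.deg]; omega) (x ^ r)
    rwa [hC.deg] at this
  have hEy : Ef y X = r • Ef x X := by
    rw [hE.cls X hX y _ hy0 hyd hxr0 hxrd hy1', e3_E_pow hE hC.mon hC.irr hC.deg hr2 hX hx hxd]
  have hhy : h (PX l e n K P X) y = Ef y X := hE.e0 X hX y hy0 hyd hy2
  -- the twisted polynomial
  obtain ⟨j, hj⟩ : ∃ j, (l ^ e) ^ a = l ^ j := ⟨e * a, (pow_mul _ _ _).symm⟩
  obtain ⟨jK, hjK⟩ : ∃ j, QQ l e n ^ K = l ^ j := ⟨e * n.factorial * K, (pow_mul _ _ _).symm⟩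
  have hdeepq : ∀ V ∈ Za Z l e n a P, pn V (tw (l ^ jK) (tw (l ^ j) P - P)) ≤ V.valuation f ^ (mm + 2) := by
    intro V hV
    rw [← hj, ← hjK]
    exact hC.deepq V hV
  rw [hj] at hX' ⊢
  set X'' : F[X] := tw (l ^ jK) (tw (l ^ j) P - P) + tw (l ^ j) X with hX''
  have hPXe : PX l e n K P X'' = tw (l ^ j) (PX l e n K P X) := by
    show tw (QQ l e n ^ K) P + X'' = tw (l ^ j) (tw (QQ l e n ^ K) P + X)
    rw [hjK, hX'', (t1 j _ _).1, (t1 jK _ _).2.1, t4, t4, Nat.add_comm jK j]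
    ring
  have hdiff : ∀ V ∈ Za Z l e n a P, pn V (tw (l ^ jK) (tw (l ^ j) P - P)) < pn V (tw (l ^ j) X) := by
    intro V hV
    refine lt_of_le_of_lt (hdeepq V hV) (lt_of_lt_of_le ?_ (hX'.2.2 V hV).1)
    exact pow_lt_pow_right_of_lt_one₀ (hfV V hV).2 (hfV V hV).1 (by omega)
  have hpnX : ∀ V ∈ Za Z l e n a P, pn V X'' = pn V (tw (l ^ j) X) := by
    intro V hV
    obtain ⟨-, -, -, -, -, p6, -⟩ := h1 F V
    exact p6 _ _ (hdiff V hV)
  have hX''d : X''.natDegree < r := by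
    refine lt_of_le_of_lt (natDegree_add_le _ _) (max_lt ?_ hX'.2.1)
    rw [(t3 jK _).1]
    by_cases h0 : tw (l ^ j) P - P = 0
    · rw [h0, natDegree_zero]; omega
    · have hm1 : (tw (l ^ j) P).Monic := (t3 j P).2.2 hC.mon
      have hd1 : (tw (l ^ j) P).natDegree = P.natDegree := (t3 j P).1
      have hdg : (tw (l ^ j) P).degree = P.degree := by
        rw [degree_eq_natDegree hm1.ne_zero, degree_eq_natDegree hC.mon.ne_zero, hd1]
      have h5 : (tw (l ^ j) P - P).degree < P.degree := by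
        have := degree_sub_lt hdg hm1.ne_zero (by rw [hm1.leadingCoeff, hC.mon.leadingCoeff])
        rwa [hdg] at this
      have h6' := natDegree_lt_natDegree h0 h5
      rw [hC.deg] at h6'
      exact h6'
  have hX''0 : X'' ≠ 0 := by
    obtain ⟨V, hV⟩ := hC.ne
    obtain ⟨p1, -⟩ := h1 F V
    intro h0
    have h5' := hpnX V hV
    rw [(p1 X'').2 h0] at h5'
    have h6' := (p1 (tw (l ^ j) X)).1 h5'.symm
    exact hX'.1 h6'
  have hPA1 : PA Z l e n a r P f (mm - 1) X'' :=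
    ⟨hX''0, hX''d, fun V hV => by rw [hpnX V hV]; exact hX'.2.2 V hV⟩
  have hPA : PA Z l e n a r P f mm X'' :=
    ⟨hX''0, hX''d, fun V hV => ⟨(pow_le_pow_right_of_le_one' (hfV V hV).1.le (by omega)).trans (hPA1.2.2 V hV).1,
      (hPA1.2.2 V hV).2⟩⟩
  -- (5.6)
  have hx'0 : tw (l ^ j) x ≠ 0 := by rw [Ne, (t3 j x).2.1]; exact hx
  have hx'd : (tw (l ^ j) x).natDegree < r := by rw [(t3 j x).1]; exact hxd
  have hloc : Ef (tw (l ^ j) x) (tw (l ^ j) X) = Ef (tw (l ^ j) x) X'' := by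
    refine (h8 F l p e n r Z P a f D Cp E cont H K mm T h Ef hC hF hE).1 _ _ _ hX' hPA ?_ hx'0 hx'd
    intro V hV
    obtain ⟨-, -, -, -, p5, -⟩ := h1 F V
    have h5' : tw (l ^ j) X - X'' = -(tw (l ^ jK) (tw (l ^ j) P - P)) := by rw [hX'']; ring
    rw [h5', p5]
    exact hdiff V hV
  -- the twisted auxiliary element
  have hy'0 : tw (l ^ j) y ≠ 0 := by rw [Ne, (t3 j y).2.1]; exact hy0
  have hy'd : (tw (l ^ j) y).natDegree < r := by rw [(t3 j y).1]; exact hyd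
  have hhy' : h (PX l e n K P X'') (tw (l ^ j) y) = Ef (tw (l ^ j) y) X'' := by
    refine hE.e0 X'' hPA _ hy'0 hy'd ?_
    intro V hV hVn
    rw [hPXe, px2 _ j hPXm hPXd] at hV
    obtain ⟨-, -, -, -, -, -, -, -, s9⟩ := h4 F V
    have h5' := s9 l j y 1 hl hch (hy2 V hV hVn)
    rwa [e3_tw_one h2 hl hch hpf] at h5'
  have hwt : h (PX l e n K P X'') (tw (l ^ j) y) = (l ^ j) • h (PX l e n K P X) y := by
    rw [hPXe, ← hj]
    exact e3_wt h2 hl hch hpf hF a _ _ hPXm hPXd hy0 hyd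
  -- the class of the twisted element
  have hPt : (tw (l ^ j) P).Monic := (t3 j P).2.2 hC.mon
  have hPtd : (tw (l ^ j) P).natDegree = P.natDegree := (t3 j P).1
  have hyt : ∀ V ∈ Za Z l e n a P, PSim V (tw (l ^ j) y) ((tw (l ^ j) x ^ r) %ₘ P) := by
    intro V hV
    obtain ⟨-, -, s3, -, -, -, -, -, s9⟩ := h4 F V
    have h5' := s9 l j _ _ hl hch (hy1' V hV)
    have h6' : tw (l ^ j) ((x ^ r) %ₘ P) = (tw (l ^ j) x ^ r) %ₘ tw (l ^ j) P := by
      have h7' := t6 j (x ^ r) 1 P hC.mon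
      rwa [mul_one, e3_tw_one h2 hl hch hpf, mul_one, e3_tw_pow h2 hl hch hpf] at h7'
    rw [h6'] at h5'
    have hco : CoM V (tw (l ^ j) P - P) := by
      have := hV.2.1
      rwa [hj] at this
    exact s3 _ _ _ h5' (e3_sim_pow h3 h4 hC.mon hC.irr (by rw [hC.deg]; exact hr2) (hInP V hV) hPt hPtd hco hx'0
      (by rw [hC.deg]; exact hx'd) r)
  have hEy' : Ef (tw (l ^ j) y) X'' = r • Ef (tw (l ^ j) x) X'' := by
    have hxr0' : (tw (l ^ j) x ^ r) %ₘ P ≠ 0 := e3_pow_ne hC.mon hC.irr hx'0 (by rw [hC.deg]; exact hx'd) r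
    have hxrd' : ((tw (l ^ j) x ^ r) %ₘ P).natDegree < r := by
      have := e3_deg hC.mon (by rw [hC.deg]; omega) (tw (l ^ j) x ^ r)
      rwa [hC.deg] at this
    rw [hE.cls X'' hPA _ _ hy'0 hy'd hxr0' hxrd' hyt, e3_E_pow hE hC.mon hC.irr hC.deg hr2 hPA hx'0 hx'd]
  -- conclusion: `r` is invertible in `T`
  rw [hloc]
  have hfin : r • Ef (tw (l ^ j) x) X'' = r • ((l ^ j) • Ef x X) := by
    rw [← hEy', ← hhy', hwt, hhy, hEy, ← mul_smul, ← mul_smul, mul_comm]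
  have hz : r • (Ef (tw (l ^ j) x) X'' - (l ^ j) • Ef x X) = 0 := by rw [smul_sub, hfin, sub_self]
  have hp0 := hF.tors (Ef (tw (l ^ j) x) X'' - (l ^ j) • Ef x X)
  have hcop : Nat.Coprime r p := by
    have h5' := hC.num.rn
    have h6' := hC.num.np
    exact (Nat.coprime_of_lt_prime (by omega) (by omega) hC.num.ppr).symm
  have hord : addOrderOf (Ef (tw (l ^ j) x) X'' - (l ^ j) • Ef x X) ∣ Nat.gcd r p :=
    Nat.dvd_gcd (addOrderOf_dvd_of_nsmul_eq_zero hz) (addOrderOf_dvd_of_nsmul_eq_zero hp0)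
  rw [Nat.Coprime] at hcop
  rw [hcop, Nat.dvd_one, AddMonoid.addOrderOf_eq_one_iff] at hord
  exact sub_eq_zero.1 hord

end CL
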