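import Pool.Agent.Lib.MP_defcf3_al.CL.IfaceB

/-!
Project CL (MP_defcf3_al), part (B), row E4: (6.2) = (E4), (E5).
-/

open Polynomial

namespace CL

universe u

theorem e4_proof (hTwp : TwpStatement.{u}) (hXp : XpStatement.{u}) (hPx : PxStatement.{u}) (hSep : SepStatement.{u}) :
    E4Statement.{u} := by
  intro F _ l p e n r Z P a f D Cp E cont H K mm k T _ h Ef hC hH hE hk hX0
  have hl : l.Prime := hC.num.lpr
  obtain ⟨-, -, htd, hcomp, -⟩ := hTwp F l hl hC.num.chr hC.num.perf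
  obtain ⟨hBX, hBt, hZf, hPX⟩ := hPx F l p e n r Z P a f D Cp E cont H K mm hC
  -- the powers of Q
  have hQ : ∀ j : ℕ, QQ l e n ^ j = l ^ (e * n.factorial * j) := fun j => by
    rw [QQ, ← pow_mul]
  have hmon : ∀ j : ℕ, (tw (QQ l e n ^ j) P).Monic ∧ (tw (QQ l e n ^ j) P).natDegree = r := fun j => by
    rw [hQ]
    exact ⟨(htd _ P).2.2 hC.mon, (htd _ P).1.trans hC.deg⟩
  have hBd : ∀ j : ℕ, Bd Z (QQ l e n) (tw (QQ l e n ^ j) P) = Bd Z (QQ l e n) P := fun j => by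
    rw [hQ]
    exact hBt P _ hC.mon hC.deg
  have hh : ∀ (j : ℕ) (y : F[X]), y ≠ 0 → y.natDegree < r → h (tw (QQ l e n ^ j) P) y = h P y := by
    intro j y hy hyd
    induction j with
    | zero =>
      have h0 : tw (QQ l e n ^ 0) P = P := by
        rw [hQ, Nat.mul_zero]
        ext i
        have h1 := (hTwp F l hl hC.num.chr hC.num.perf).2.1 0 P i
        simpa using h1
      rw [h0]
    | succ j ih =>
      have h1 : tw (QQ l e n ^ (j + 1)) P = tw (QQ l e n) (tw (QQ l e n ^ j) P) := by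
        rw [hQ, hQ, show QQ l e n = l ^ (e * n.factorial) from rfl, hcomp]
        congr 2
        ring
      rw [h1, hH.twP _ _ (hmon j).1 (hmon j).2 hy hyd, ih]
  -- the element X_0
  set X0 : F[X] := tw (QQ l e n ^ k) P - tw (QQ l e n ^ K) P with hX0d
  have hP0 : PX l e n K P X0 = tw (QQ l e n ^ k) P := by
    rw [PX, hX0d]
    ring
  have hXX : PA Z l e n a r P f mm X0 := by
    refine ⟨hX0.1, hX0.2.1, fun V hV => ⟨?_, (hX0.2.2 V hV).2⟩⟩
    exact (pow_le_pow_right_of_le_one' (hZf V hV).2.1.le (Nat.sub_le _ _)).trans (hX0.2.2 V hV).1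
  refine ⟨?_, ?_⟩
  · intro y hy hyd hyt
    rw [← hE.e0 X0 hXX y hy hyd, hP0, hh k y hy hyd]
    intro V hV hVa
    rw [hP0, hBd] at hV
    exact hyt V hV hVa
  · intro A hA hAd
    obtain ⟨s, hs1, hs2⟩ := hSep F l p e n r Z P a f D Cp E cont H K mm hC X0 hXX
    rw [hP0, hBd] at hs2
    have hdeg := hC.deg
    have hco : ∀ V ∈ Bd Z (QQ l e n) P, CoV V Cp := by
      intro V _ i
      obtain ⟨m, hm⟩ := hC.ani.pf i
      rw [hm]
      exact intCast_mem V m
    have hs3 : ∀ V ∈ Za Z l e n a P, V.valuation s < 1 := fun V hV =>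
      (hs1 V hV).trans_lt (pow_lt_one' (hZf V hV).2.1 (by omega))
    obtain ⟨A', hA1, hA2, hA3, hA4⟩ := hXp F P D Cp (Bd Z (QQ l e n) P) (Za Z l e n a P) s hC.mon hC.irr
      (by rw [hdeg]; exact hC.num.r2) hC.ani.zero hco hC.ani.Dpos
      (fun V hV => ⟨hV.2.1, (hBX P hC.mon hC.deg V hV).2⟩) (fun V hV => (hZf V hV).1) hC.ne hs3
      (fun V hV hVa => hs2 V hV hVa) A hA (by rw [hdeg]; exact hAd)
    rw [hdeg] at hA2 hA3
    exact ⟨A', hA1, hA2, hA3, hA4⟩

end CL
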