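import Pool.Agent.Lib.MP_defcf3_al.CL.Cut

/-!
Project CL (MP_defcf3_al), part (B), row E6: (6.3).
-/

open Polynomial

namespace CL.H88

universe u

/-- If X^q - X has q roots and there are coefficients generating degree a, then X^(q^a) - X splits. -/
theorem card_fix {k : Type u} [Field k] {l e a : ℕ} (hl : l.Prime) [CharP k l] (he : 1 ≤ e) (ha : 1 ≤ a)
    (h1 : Nat.card {x : k // x ^ l ^ e = x} = l ^ e) (S : Set k)
    (hS : ∀ x ∈ S, x ^ (l ^ e) ^ a = x) (hmin : ∀ i, 1 ≤ i → i < a → ∃ x ∈ S, x ^ (l ^ e) ^ i ≠ x) :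
    Nat.card {x : k // x ^ (l ^ e) ^ a = x} = (l ^ e) ^ a := by
  classical
  have : Fact l.Prime := ⟨hl⟩
  set E0 : Subfield k := RingHom.eqLocusField (iterateFrobenius k l e) (RingHom.id k) with hE0
  set E : Subfield k := RingHom.eqLocusField (iterateFrobenius k l (e * a)) (RingHom.id k) with hE
  have m0 : ∀ x : k, x ∈ E0 ↔ x ^ l ^ e = x := by
    intro x
    change iterateFrobenius k l e x = x ↔ _
    rw [iterateFrobenius_def]
  have m1 : ∀ x : k, x ∈ E ↔ x ^ (l ^ e) ^ a = x := by
    intro x
    change iterateFrobenius k l (e * a) x = x ↔ _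
    rw [iterateFrobenius_def, pow_mul]
  have hq : 1 < l ^ e := Nat.one_lt_pow (by omega) hl.one_lt
  have hqa : 1 < (l ^ e) ^ a := Nat.one_lt_pow (by omega) hq
  have hle : E0 ≤ E := by
    intro x hx
    rw [m0] at hx
    rw [m1]
    clear m1 hqa hmin hS hE E
    clear ha
    induction a with
    | zero => simp
    | succ a ih => rw [pow_succ, pow_mul, ih, hx]
  -- E is finite with at most q^a elements
  have hroots : ∀ x : k, x ∈ E ↔ x ∈ (X ^ (l ^ e) ^ a - X : k[X]).roots.toFinset := by
    intro x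
    rw [m1, Multiset.mem_toFinset, mem_roots (FiniteField.X_pow_card_sub_X_ne_zero k hqa)]
    simp [sub_eq_zero]
  have hfin : (E : Set k) = ((X ^ (l ^ e) ^ a - X : k[X]).roots.toFinset : Set k) := by
    ext x; exact hroots x
  have hEf : Finite E := by
    have : (E : Set k).Finite := by rw [hfin]; exact Finset.finite_toSet _
    exact this
  have hcard : Nat.card E ≤ (l ^ e) ^ a := by
    have h2 : Nat.card E = (X ^ (l ^ e) ^ a - X : k[X]).roots.toFinset.card := by
      have h3 : Nat.card E = (E : Set k).ncard := rfl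
      rw [h3, hfin, Set.ncard_coe_finset]
    rw [h2]
    calc _ ≤ Multiset.card (X ^ (l ^ e) ^ a - X : k[X]).roots := Multiset.toFinset_card_le _
      _ ≤ (X ^ (l ^ e) ^ a - X : k[X]).natDegree := card_roots' _
      _ = _ := FiniteField.X_pow_card_sub_X_natDegree_eq k hqa
  have hcE0 : Nat.card E0 = l ^ e := by
    rw [← h1]
    exact Nat.card_congr (Equiv.subtypeEquivRight m0)
  let _ : Algebra E0 E := (Subfield.inclusion hle).toAlgebra
  have hmf : Module.Finite E0 E := Module.Finite.of_finite
  have hpow : Nat.card E = (l ^ e) ^ Module.finrank E0 E := by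
    rw [Module.natCard_eq_pow_finrank (K := E0), hcE0]
  set d := Module.finrank E0 E with hd
  have hd1 : 1 ≤ d := Module.finrank_pos
  have hda : ¬ d < a := by
    intro hlt
    obtain ⟨x, hx, hx2⟩ := hmin d hd1 hlt
    have hxE : x ∈ E := (m1 x).2 (hS x hx)
    apply hx2
    have : Fintype E := Fintype.ofFinite E
    have h4 := FiniteField.pow_card (⟨x, hxE⟩ : E)
    rw [← Nat.card_eq_fintype_card, hpow] at h4
    exact congrArg Subtype.val h4
  have hE2 : Nat.card E = (l ^ e) ^ a := by
    apply le_antisymm hcard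
    rw [hpow]
    exact Nat.pow_le_pow_right (by omega) (not_lt.1 hda)
  refine Eq.trans ?_ hE2
  exact Nat.card_congr (Equiv.subtypeEquivRight fun x => (m1 x).symm)

variable {F : Type u} [Field F]

theorem charP_residue (V : ValuationSubring F) {l : ℕ} (hl : l.Prime) (hc : CharP F l) :
    CharP (IsLocalRing.ResidueField V) l := by
  rw [CharP.charP_iff_prime_eq_zero hl]
  have h1 : ((l : ℕ) : V) = 0 := by
    apply Subtype.ext
    have : ((l : ℕ) : F) = 0 := CharP.cast_eq_zero F l
    exact this
  have h2 := congrArg (IsLocalRing.residue V) h1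
  simpa using h2

/-- The residue of x vanishes iff |x| < 1. -/
theorem res_zero (V : ValuationSubring F) (x : V) : IsLocalRing.residue V x = 0 ↔ V.valuation (x : F) < 1 := by
  rw [IsLocalRing.residue_eq_zero_iff, ValuationSubring.valuation_lt_one_iff]

theorem pn_le_one_of (V : ValuationSubring F) {l : ℕ} (hl : l.Prime) {s : ℕ} (hs : 1 ≤ s) {P : F[X]}
    (h : CoM V (tw (l ^ s) P - P)) : pn V P ≤ 1 := by
  by_contra hlt
  push Not at hlt
  have hq : 1 < l ^ s := Nat.one_lt_pow (by omega) hl.one_lt
  have h2 : pn V P < pn V P ^ l ^ s := by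
    calc pn V P = pn V P ^ 1 := (pow_one _).symm
      _ < pn V P ^ l ^ s := pow_lt_pow_right₀ hlt hq
  have h3 : pn V (tw (l ^ s) P - P) = pn V P ^ l ^ s := by
    rw [sub_eq_add_neg, pn_add_eq, pn_tw V P (pow_ne l hl _)]
    rw [pn_neg, pn_tw V P (pow_ne l hl _)]
    exact h2
  rw [coM_iff, h3] at h
  exact absurd (h.trans hlt) (not_lt.2 h2.le)

/-- The end of (6.3). -/
theorem fq_of_type {V : ValuationSubring F} {l e a : ℕ} (hl : l.Prime) (hc : CharP F l) (he : 1 ≤ e) (ha : 1 ≤ a)
    (hfq : FQ (l ^ e) V) {P : F[X]} (hT : TypeA (l ^ e) a P V) : FQ ((l ^ e) ^ a) V := by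
  have := charP_residue V hl hc
  have hT1 := hT.1
  rw [← pow_mul] at hT1
  have hP : CoV V P := (coV_iff V P).2 (pn_le_one_of V hl (Nat.mul_pos (by omega) (by omega)) hT1)
  -- the residues of the coefficients
  have hres : ∀ (i s : ℕ), (IsLocalRing.residue V ⟨P.coeff i, hP i⟩) ^ l ^ s = IsLocalRing.residue V ⟨P.coeff i, hP i⟩ ↔
      V.valuation ((tw (l ^ s) P - P).coeff i) < 1 := by
    intro i s
    rw [← sub_eq_zero, ← map_pow, ← map_sub, res_zero, coeff_sub, Tws.tw_coeff _ _ (pow_ne l hl _)]
    rfl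
  refine card_fix hl he ha hfq (Set.range fun i => IsLocalRing.residue V ⟨P.coeff i, hP i⟩) ?_ ?_
  · rintro _ ⟨i, rfl⟩
    rw [← pow_mul]
    exact (hres i _).2 (hT1 i)
  · intro i hi1 hi2
    have h2 := hT.2 i hi1 hi2
    unfold CoM at h2
    push Not at h2
    obtain ⟨j, hj⟩ := h2
    refine ⟨_, ⟨j, rfl⟩, ?_⟩
    rw [← pow_mul] at hj ⊢
    intro h3
    exact absurd ((hres j _).1 h3) (not_lt.2 hj)

end CL.H88

namespace CL

universe u

open H88

theorem e6_proof : E6Statement.{u} := by
  intro F _ l p e n r Z P a D Cp E cont H hN hA hC hP hd ha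
  have hl := hN.lpr
  have hc := hN.chr
  have he := hN.epos
  have hr : 1 ≤ r := by have := hN.r2; omega
  have hea : 1 ≤ e * a := Nat.mul_pos (by omega) (by omega)
  have hZX : ∀ V ∈ Za Z l e n a P, Anis V D Cp := fun V hV =>
    hA.an P V hP (by rw [hd]; exact hN.r2) (by rw [hd]; exact hN.rn.le) hV.1.2.1 hV.1.2.2
  have hdeg : ∀ j, (tw (l ^ j) P - P).natDegree < r := fun j =>
    monic_sub_natDegree hr (tw_monic l hl hc j hP) hP ((tw_natDegree l hl hc j P).trans hd) hd
  constructor
  · intro V hV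
    have hJZ : Jle Z V := fun j hj => hV j fun V' hV' => hV'.1.1 j hj
    have hle : ∀ W : ValuationSubring F, pn W P ≤ 1 → ∀ j, pn W (tw (l ^ j) P - P) ≤ 1 := by
      intro W hW j
      refine (pn_sub_le W _ _).trans (max_le ?_ hW)
      rw [pn_tw W P (pow_ne l hl _)]
      exact pow_le_one₀ zero_le hW
    refine fq_of_type hl hc he ha (hN.fq V hJZ) (P := P) ⟨?_, ?_⟩
    · intro i
      exact hV _ fun V' hV' => hV'.2.1 i
    · intro i hi1 hi2 hM
      -- the element g
      set A : F[X] := tw ((l ^ e) ^ i) P - P with hAdef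
      have hAd : A.natDegree < r := by rw [hAdef, ← pow_mul]; exact hdeg _
      have hg1 : ∀ W ∈ Za Z l e n a P, pn W P ≤ 1 := by
        intro W hW
        have h1 := hW.2.1
        rw [← pow_mul] at h1
        exact pn_le_one_of W hl hea h1
      have hgA : ∀ W ∈ Za Z l e n a P, pn W A = 1 := by
        intro W hW
        have h2 := hW.2.2 i hi1 hi2
        rw [coM_iff, not_lt] at h2
        refine le_antisymm ?_ h2
        rw [hAdef, ← pow_mul]
        exact hle W (hg1 W hW) _
      have hgv : ∀ W ∈ Za Z l e n a P, W.valuation (cont A) = 1 := by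
        intro W hW
        rw [hC.val W (hZX W hW) A hAd, hgA W hW, one_pow]
      have hne : ∀ W ∈ Za Z l e n a P, cont A ≠ 0 := by
        intro W hW h
        have h1 := hgv W hW
        rw [h, map_zero] at h1
        exact zero_ne_one h1
      have hJ1 : ∀ W ∈ Za Z l e n a P, W.valuation (cont A ^ (l ^ (e * a) - 1) - 1) < 1 := by
        intro W hW
        have hq : 1 < l ^ (e * a) := Nat.one_lt_pow (by omega) hl.one_lt
        have e1 : cont A ^ (l ^ (e * a) - 1) - 1 = (cont A ^ l ^ (e * a) - cont A) / cont A := by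
          rw [eq_div_iff (hne W hW), sub_mul, one_mul, ← pow_succ, Nat.sub_add_cancel hq.le]
        rw [e1, map_div₀, hgv W hW, div_one, ← hC.tw _ _ hAd]
        refine lt_of_le_of_lt (hC.lip W _ _ ?_ hAd ?_ (hgA W hW).le) ?_
        · rw [tw_natDegree l hl hc]; exact hAd
        · rw [pn_tw W _ (pow_ne l hl _), hgA W hW, one_pow]
        · have e2 : tw (l ^ (e * a)) A - A = tw (l ^ (e * i)) (tw (l ^ (e * a)) P - P) - (tw (l ^ (e * a)) P - P) := by
            rw [hAdef, ← pow_mul, tw_sub l hl hc, tw_sub l hl hc, tw_tw l hl, tw_tw l hl, add_comm (e * a)]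
            ring
          have h3 : CoM W (tw (l ^ (e * a)) P - P) := by
            have h4 := hW.2.1
            rwa [← pow_mul] at h4
          rw [e2, ← coM_iff, sub_eq_add_neg]
          exact (coM_tw W hl h3).add h3.neg
      have h5 : V.valuation (cont A ^ (l ^ (e * a) - 1) - 1) < 1 := hV _ hJ1
      have h6 : V.valuation (cont A) < 1 := by
        have hM' : pn V A < 1 := (coM_iff V _).1 hM
        have h7 := hC.lip V A 0 hAd (by rw [natDegree_zero]; omega) hM'.le (by rw [pn_zero]; exact zero_le)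
        rw [hC.zero, sub_zero, sub_zero] at h7
        exact h7.trans_lt hM'
      have hq : 1 < l ^ (e * a) := Nat.one_lt_pow (by omega) hl.one_lt
      have h8 : V.valuation (cont A ^ (l ^ (e * a) - 1)) < 1 := by
        rw [map_pow]; exact pow_lt_one₀ zero_le h6 (by omega)
      have h9 : V.valuation (1 : F) < 1 := by
        have e3 : (1 : F) = cont A ^ (l ^ (e * a) - 1) - (cont A ^ (l ^ (e * a) - 1) - 1) := by ring
        rw [e3]
        exact lt_of_le_of_lt (V.valuation.map_sub _ _) (max_lt h8 h5)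
      rw [map_one] at h9
      exact lt_irrefl _ h9
  · intro h0 hmin V hV
    have hT : TypeA (l ^ e) a P V := by
      refine ⟨?_, ?_⟩
      · rw [h0, sub_self]; intro i; simp
      · intro i hi1 hi2 hM
        apply hmin i hi1 hi2
        rw [← pow_mul] at h0
        rw [← sub_eq_zero]
        ext j
        rw [coeff_zero]
        by_contra hne
        have h1 := hM j
        set x := (tw ((l ^ e) ^ i) P - P).coeff j with hx
        have hxq : x ^ l ^ (e * a) = x := by
          rw [hx, ← Tws.tw_coeff _ _ (pow_ne l hl _), ← pow_mul, tw_sub l hl hc, tw_tw l hl, add_comm (e * a),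
            ← tw_tw l hl, h0]
        have hq : 1 < l ^ (e * a) := Nat.one_lt_pow (by omega) hl.one_lt
        have hx1 : x ^ (l ^ (e * a) - 1) = 1 := by
          have : x ^ (l ^ (e * a) - 1) * x = 1 * x := by
            rw [← pow_succ, Nat.sub_add_cancel hq.le, hxq, one_mul]
          exact mul_right_cancel₀ hne this
        have h2 := congrArg V.valuation hx1
        rw [map_pow, map_one] at h2
        exact absurd h2 (pow_lt_one₀ zero_le h1 (by omega)).ne
    exact ⟨⟨hV, hT⟩, fq_of_type hl hc he ha (hN.fq V hV.1) hT⟩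

end CL
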