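import Pool.Agent.Lib.MP_defcf3_al.CL.IfaceB

/-!
Project CL (MP_defcf3_al), part (B), sections (5.2), (5.3) of finding 4324: the function E.
-/

open Polynomial

namespace CL

universe u

namespace H21e

variable {F : Type u} [Field F]

theorem mlt {P : F[X]} (hP : P.Monic) (hd : 1 ≤ P.natDegree) (A : F[X]) : (A %ₘ P).natDegree < P.natDegree :=
  natDegree_modByMonic_lt A hP (by
    rintro rfl
    simp at hd)

theorem mself {P : F[X]} (hP : P.Monic) {A : F[X]} (hA : A.natDegree < P.natDegree) : A %ₘ P = A :=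
  (modByMonic_eq_self_iff hP).2 (degree_lt_degree hA)

theorem mmod {P : F[X]} (hP : P.Monic) (A B : F[X]) : (A * (B %ₘ P)) %ₘ P = (A * B) %ₘ P := by
  apply modByMonic_eq_of_dvd_sub hP
  rw [← mul_sub]
  exact (dvd_modByMonic_sub B P).mul_left A

theorem mmod' {P : F[X]} (hP : P.Monic) (A B : F[X]) : ((A %ₘ P) * B) %ₘ P = (A * B) %ₘ P := by
  rw [mul_comm, mmod hP, mul_comm]

theorem mone {P : F[X]} (hP : P.Monic) (hd : 1 ≤ P.natDegree) : (1 : F[X]) %ₘ P = 1 :=
  mself hP (by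
    rw [natDegree_one]
    exact hd)

theorem mne {P : F[X]} (hP : P.Monic) (hi : Irreducible P) {A B : F[X]} (hA : A ≠ 0)
    (hAd : A.natDegree < P.natDegree) (hB : B ≠ 0) (hBd : B.natDegree < P.natDegree) : (A * B) %ₘ P ≠ 0 := by
  intro h
  rw [modByMonic_eq_zero_iff_dvd hP] at h
  rcases hi.prime.dvd_or_dvd h with h | h
  · exact absurd (natDegree_le_of_dvd h hA) (not_le.2 hAd)
  · exact absurd (natDegree_le_of_dvd h hB) (not_le.2 hBd)

theorem mpne {P : F[X]} (hP : P.Monic) (hi : Irreducible P) {A : F[X]} (hA : A ≠ 0)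
    (hAd : A.natDegree < P.natDegree) (j : ℕ) : (A ^ j) %ₘ P ≠ 0 := by
  intro h
  rw [modByMonic_eq_zero_iff_dvd hP] at h
  exact absurd (natDegree_le_of_dvd (hi.prime.dvd_of_dvd_pow h) hA) (not_le.2 hAd)

theorem mpow {P : F[X]} (hP : P.Monic) (A : F[X]) (j : ℕ) : (A * ((A ^ j) %ₘ P)) %ₘ P = (A ^ (j + 1)) %ₘ P := by
  rw [mmod hP, pow_succ']

theorem minv {P : F[X]} (hP : P.Monic) (hi : Irreducible P) (hd : 1 ≤ P.natDegree) {y : F[X]} (hy : y ≠ 0)
    (hyd : y.natDegree < P.natDegree) : ∃ z : F[X], z ≠ 0 ∧ z.natDegree < P.natDegree ∧ (z * y) %ₘ P = 1 := by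
  have hc : IsCoprime P y :=
    (hi.coprime_iff_not_dvd).2 (fun h => absurd (natDegree_le_of_dvd h hy) (not_le.2 hyd))
  obtain ⟨a, b, hab⟩ := hc
  have h1 : ((b %ₘ P) * y) %ₘ P = 1 := by
    rw [mmod' hP, ← mone hP hd]
    apply modByMonic_eq_of_dvd_sub hP
    rw [← hab]
    exact ⟨-a, by ring⟩
  refine ⟨b %ₘ P, ?_, mlt hP hd b, h1⟩
  intro h0
  rw [h0, zero_mul, zero_modByMonic] at h1
  exact zero_ne_one h1

section Sim

variable (hS : SimStatement.{u}) {V : ValuationSubring F}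

include hS

theorem ps_refl {A : F[X]} (hA : A ≠ 0) : PSim V A A := (hS F V).1 A hA

theorem ps_symm {A B : F[X]} (h : PSim V A B) : PSim V B A := ((hS F V).2.1 A B h).2.2

theorem ps_trans {A B D : F[X]} (h : PSim V A B) (h' : PSim V B D) : PSim V A D := (hS F V).2.2.1 A B D h h'

theorem ps_mul {P A A' B B' : F[X]} (hP : P.Monic) (hd : 1 ≤ P.natDegree) (hV : Inert V P)
    (hA : A.natDegree < P.natDegree) (hA' : A'.natDegree < P.natDegree) (hB : B.natDegree < P.natDegree)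
    (hB' : B'.natDegree < P.natDegree) (h : PSim V A A') (h' : PSim V B B') :
    PSim V ((A * B) %ₘ P) ((A' * B') %ₘ P) := by
  obtain ⟨_, _, _, _, _, s6, _⟩ := hS F V
  exact s6 P A A' B B' hP hd hV hA hA' hB hB' h h'

theorem ps_chg {P P' A B : F[X]} (hP : P.Monic) (hd : 1 ≤ P.natDegree) (hV : Inert V P) (hP' : P'.Monic)
    (hdd : P'.natDegree = P.natDegree) (hc : CoM V (P' - P)) (hA : A ≠ 0) (hB : B ≠ 0)
    (hAd : A.natDegree < P.natDegree) (hBd : B.natDegree < P.natDegree) :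
    PSim V ((A * B) %ₘ P') ((A * B) %ₘ P) := by
  obtain ⟨_, _, _, _, _, _, _, s8, _⟩ := hS F V
  exact s8 P P' A B hP hd hV hP' hdd hc hA hB hAd hBd

theorem ps_tw {l : ℕ} (hl : l.Prime) [hc : CharP F l] (j : ℕ) {A B : F[X]} (h : PSim V A B) :
    PSim V (tw (l ^ j) A) (tw (l ^ j) B) := by
  obtain ⟨_, _, _, _, _, _, _, _, s9⟩ := hS F V
  exact s9 l j A B hl hc h

theorem ps_pow {P A B : F[X]} (hP : P.Monic) (hd : 1 ≤ P.natDegree) (hV : Inert V P)
    (hA : A.natDegree < P.natDegree) (hB : B.natDegree < P.natDegree) (h : PSim V A B) (j : ℕ) :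
    PSim V ((A ^ j) %ₘ P) ((B ^ j) %ₘ P) := by
  induction j with
  | zero =>
    rw [pow_zero, pow_zero, mone hP hd]
    exact ps_refl hS one_ne_zero
  | succ j ih =>
    rw [← mpow hP, ← mpow hP]
    exact ps_mul hS hP hd hV hA hB (mlt hP hd _) (mlt hP hd _) h ih

theorem ps_chgpow {P P' A : F[X]} (hP : P.Monic) (hd : 1 ≤ P.natDegree) (hV : Inert V P) (hi' : Irreducible P')
    (hP' : P'.Monic) (hdd : P'.natDegree = P.natDegree) (hc : CoM V (P' - P)) (hA : A ≠ 0)
    (hAd : A.natDegree < P.natDegree) (j : ℕ) : PSim V ((A ^ j) %ₘ P') ((A ^ j) %ₘ P) := by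
  have hd' : 1 ≤ P'.natDegree := by rw [hdd]; exact hd
  induction j with
  | zero =>
    rw [pow_zero, mone hP hd, mone hP' hd']
    exact ps_refl hS one_ne_zero
  | succ j ih =>
    rw [← mpow hP, ← mpow hP']
    have hAd' : A.natDegree < P'.natDegree := by rw [hdd]; exact hAd
    have hlt : ((A ^ j) %ₘ P').natDegree < P.natDegree := by
      rw [← hdd]
      exact mlt hP' hd' _
    refine ps_trans hS (ps_chg hS hP hd hV hP' hdd hc hA (mpne hP' hi' hA hAd' j) hAd hlt) ?_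
    exact ps_mul hS hP hd hV hAd hAd hlt (mlt hP hd _) (ps_refl hS hA) ih

end Sim

section Key

variable {l p e n r : ℕ} {Z : Set (ValuationSubring F)} {T : Type u} [AddCommGroup T] {h : F[X] → F[X] → T}

theorem h_pow (hF : HF F l p e n r Z h) {P : F[X]} (hP : P.Monic) (hd : P.natDegree = r) (hr : 1 ≤ r)
    (hi : Irreducible P) {A : F[X]} (hA : A ≠ 0) (hAd : A.natDegree < r) (j : ℕ) :
    h P ((A ^ j) %ₘ P) = j • h P A := by
  have hd1 : 1 ≤ P.natDegree := by rw [hd]; exact hr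
  induction j with
  | zero =>
    rw [pow_zero, mone hP hd1, zero_smul]
    exact hF.one P hP hd
  | succ j ih =>
    have hAd' : A.natDegree < P.natDegree := by rw [hd]; exact hAd
    have hlt := mlt hP hd1 (A ^ j)
    rw [hd] at hlt
    rw [← mpow hP, hF.mul P A _ hP hd hi hA hAd (mpne hP hi hA hAd' j) hlt, ih, succ_nsmul']

theorem keyK (hS : SimStatement.{u}) (hF : HF F l p e n r Z h) {P : F[X]} (hP : P.Monic) (hd : P.natDegree = r)
    (hr : 1 ≤ r) (hi : Irreducible P) {ZZ : Set (ValuationSubring F)} {y1 y2 : F[X]} (h1 : y1 ≠ 0)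
    (h1d : y1.natDegree < r) (h2 : y2 ≠ 0) (h2d : y2.natDegree < r)
    (hz : ∀ V ∈ Bd Z (QQ l e n) P, V ∈ ZZ → PSim V y1 y2)
    (hz1 : ∀ V ∈ Bd Z (QQ l e n) P, V ∉ ZZ → PSim V y1 1)
    (hz2 : ∀ V ∈ Bd Z (QQ l e n) P, V ∉ ZZ → PSim V y2 1) : h P y1 = h P y2 := by
  have hd1 : 1 ≤ P.natDegree := by rw [hd]; exact hr
  have h1d' : y1.natDegree < P.natDegree := by rw [hd]; exact h1d
  have h2d' : y2.natDegree < P.natDegree := by rw [hd]; exact h2d
  have h0d : (1 : F[X]).natDegree < P.natDegree := by rw [natDegree_one]; exact hd1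
  obtain ⟨z, z0, zd, hzy⟩ := minv hP hi hd1 h2 h2d'
  have zd' : z.natDegree < r := by rw [← hd]; exact zd
  have e1 : h P z + h P y2 = 0 := by
    rw [← hF.mul P z y2 hP hd hi z0 zd' h2 h2d, hzy]
    exact hF.one P hP hd
  have hw0 : (y1 * z) %ₘ P ≠ 0 := mne hP hi h1 h1d' z0 zd
  have hwd : ((y1 * z) %ₘ P).natDegree < r := by
    rw [← hd]
    exact mlt hP hd1 _
  have e2 : h P ((y1 * z) %ₘ P) = 0 := by
    apply hF.mz P _ hP hd hi hw0 hwd
    intro V hV
    have hVi : Inert V P := hV.2.1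
    by_cases hVZ : V ∈ ZZ
    · have := ps_mul hS hP hd1 hVi h1d' h2d' zd zd (hz V hV hVZ) (ps_refl hS z0)
      rwa [mul_comm y2 z, hzy] at this
    · have q1 : PSim V ((z * y2) %ₘ P) ((z * 1) %ₘ P) :=
        ps_mul hS hP hd1 hVi zd zd h2d' h0d (ps_refl hS z0) (hz2 V hV hVZ)
      rw [hzy, mul_one, mself hP zd] at q1
      have q2 := ps_mul hS hP hd1 hVi h1d' h0d zd h0d (hz1 V hV hVZ) (ps_symm hS q1)
      rwa [mul_one, mone hP hd1] at q2
  rw [hF.mul P y1 z hP hd hi h1 h1d z0 zd'] at e2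
  have e3 : h P y1 = h P y1 + h P z - (h P z + h P y2) + h P y2 := by abel
  rw [e3, e1, e2, sub_zero, zero_add]

end Key

end H21e

theorem ed_proof (h1 : PnStatement.{u}) (h2 : TwpStatement.{u}) (h3 : InrStatement.{u}) (h4 : SimStatement.{u})
    (h5 : XpStatement.{u}) (h6 : PxStatement.{u}) (h7 : SepStatement.{u}) : EdStatement.{u} := by
  intro F _ l p e n r Z P a f D Cp E cont H K mm T _ h hC hF
  obtain ⟨hXX, hBtw, hZa, hPX⟩ := h6 F l p e n r Z P a f D Cp E cont H K mm hC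
  have hr2 := hC.num.r2
  have hr1 : 1 ≤ r := by omega
  have hlp := hC.num.lpr
  have := hC.num.chr
  -- the inverse of r modulo p
  obtain ⟨s, hs⟩ : ∃ s : ℕ, ∀ t : T, s • (r • t) = t := by
    have hco : Nat.Coprime r p := by
      apply Nat.Coprime.symm
      rw [Nat.Prime.coprime_iff_not_dvd hC.num.ppr]
      intro hdvd
      have := Nat.le_of_dvd (by omega) hdvd
      have h8 := hC.num.rn
      have h9 := hC.num.np
      omega
    obtain ⟨s, hs⟩ := Nat.exists_mul_mod_eq_one_of_coprime hco hC.num.ppr.one_lt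
    refine ⟨s, fun t => ?_⟩
    have h8 : r * s = p * (r * s / p) + 1 := by
      conv_lhs => rw [← Nat.div_add_mod (r * s) p, hs.2]
    rw [smul_smul, mul_comm s r, h8, add_smul, one_smul, mul_comm p, mul_smul, hF.tors, smul_zero, zero_add]
  have hCpV : ∀ V : ValuationSubring F, CoV V Cp := by
    intro V i
    obtain ⟨m, hm⟩ := hC.ani.pf i
    rw [hm]
    exact intCast_mem V m
  -- existence of A'
  have hex : ∀ X : F[X], PA Z l e n a r P f mm X → ∀ A : F[X], A ≠ 0 → A.natDegree < r →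
      ∃ A' : F[X], A' ≠ 0 ∧ A'.natDegree < r ∧
        (∀ V ∈ Za Z l e n a P, PSim V A' ((A ^ r) %ₘ PX l e n K P X)) ∧
        (∀ V ∈ Bd Z (QQ l e n) (PX l e n K P X), V ∉ Za Z l e n a P → PSim V A' 1) := by
    intro X hX A hA hAd
    obtain ⟨hm, hd, hZX, hi⟩ := hPX X hX
    obtain ⟨s', hs1, hs2⟩ := h7 F l p e n r Z P a f D Cp E cont H K mm hC X hX
    have hlt : ∀ V ∈ Za Z l e n a P, V.valuation s' < 1 := by
      intro V hV
      refine lt_of_le_of_lt (hs1 V hV) ?_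
      exact pow_lt_one₀ (zero_le) (hZa V hV).2.1 (by omega)
    have := h5 F (PX l e n K P X) D Cp (Bd Z (QQ l e n) (PX l e n K P X)) (Za Z l e n a P) s' hm hi
      (by rw [hd]; exact hr2) hC.ani.zero (fun V _ => hCpV V) hC.ani.Dpos
      (fun V hV => ⟨hV.2.1, (hXX _ hm hd V hV).2⟩) (fun V hV => (hZX V hV).2) hC.ne hlt hs2 A hA
      (by rw [hd]; exact hAd)
    obtain ⟨A', a1, a2, a3, a4⟩ := this
    rw [hd] at a2 a3
    exact ⟨A', a1, a2, a3, a4⟩
  classical
  choose! fA hfA using hex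
  refine ⟨fun A X => s • h (PX l e n K P X) (fA X A), ?_, ?_, ?_, ?_⟩
  · -- e0
    intro X hX y hy0 hyd hy
    obtain ⟨hm, hd, hZX, hi⟩ := hPX X hX
    obtain ⟨b1, b2, b3, b4⟩ := hfA X hX y hy0 hyd
    have hd1 : 1 ≤ (PX l e n K P X).natDegree := by rw [hd]; exact hr1
    have hyd' : y.natDegree < (PX l e n K P X).natDegree := by rw [hd]; exact hyd
    have hlt : ((y ^ r) %ₘ PX l e n K P X).natDegree < r := by
      have := H21e.mlt hm hd1 (y ^ r)
      rwa [hd] at this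
    have k1 := H21e.keyK h4 hF hm hd hr1 hi (ZZ := Za Z l e n a P) b1 b2 (H21e.mpne hm hi hy0 hyd' r) hlt
      (fun V _ hVZ => b3 V hVZ) b4 (fun V hV hVZ => by
        have := H21e.ps_pow h4 hm hd1 hV.2.1 hyd' (by rw [natDegree_one]; exact hd1) (hy V hV hVZ) r
        rwa [one_pow, H21e.mone hm hd1] at this)
    rw [k1, H21e.h_pow hF hm hd hr1 hi hy0 hyd r, hs]
  · -- cls
    intro X hX A B hA hAd hB hBd hAB
    obtain ⟨hm, hd, hZX, hi⟩ := hPX X hX
    obtain ⟨b1, b2, b3, b4⟩ := hfA X hX A hA hAd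
    obtain ⟨c1, c2, c3, c4⟩ := hfA X hX B hB hBd
    have hd1 : 1 ≤ (PX l e n K P X).natDegree := by rw [hd]; exact hr1
    have k1 := H21e.keyK h4 hF hm hd hr1 hi (ZZ := Za Z l e n a P) b1 b2 c1 c2 (fun V hV hVZ => by
      refine H21e.ps_trans h4 (b3 V hVZ) (H21e.ps_trans h4 ?_ (H21e.ps_symm h4 (c3 V hVZ)))
      exact H21e.ps_pow h4 hm hd1 hV.2.1 (by rw [hd]; exact hAd) (by rw [hd]; exact hBd) (hAB V hVZ) r) b4 c4
    rw [k1]
  · -- mul
    intro X hX A B hA hAd hB hBd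
    obtain ⟨hm, hd, hZX, hi⟩ := hPX X hX
    have hdP : P.natDegree = r := hC.deg
    have hPd1 : 1 ≤ P.natDegree := by rw [hdP]; exact hr1
    have hAP : A.natDegree < P.natDegree := by rw [hdP]; exact hAd
    have hBP : B.natDegree < P.natDegree := by rw [hdP]; exact hBd
    have hM0 : (A * B) %ₘ P ≠ 0 := H21e.mne hC.mon hC.irr hA hAP hB hBP
    have hMd : ((A * B) %ₘ P).natDegree < r := by
      have := H21e.mlt hC.mon hPd1 (A * B)
      rwa [hdP] at this
    obtain ⟨a1, a2, a3, a4⟩ := hfA X hX _ hM0 hMd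
    obtain ⟨b1, b2, b3, b4⟩ := hfA X hX A hA hAd
    obtain ⟨c1, c2, c3, c4⟩ := hfA X hX B hB hBd
    have hd1 : 1 ≤ (PX l e n K P X).natDegree := by rw [hd]; exact hr1
    have b2' : (fA X A).natDegree < (PX l e n K P X).natDegree := by rw [hd]; exact b2
    have c2' : (fA X B).natDegree < (PX l e n K P X).natDegree := by rw [hd]; exact c2
    have hN0 : (fA X A * fA X B) %ₘ PX l e n K P X ≠ 0 := H21e.mne hm hi b1 b2' c1 c2'
    have hNd : ((fA X A * fA X B) %ₘ PX l e n K P X).natDegree < r := by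
      have := H21e.mlt hm hd1 (fA X A * fA X B)
      rwa [hd] at this
    have k1 := H21e.keyK h4 hF hm hd hr1 hi (ZZ := Za Z l e n a P) a1 a2 hN0 hNd (fun V hV hVZ => by
      refine H21e.ps_trans h4 (a3 V hVZ) ?_
      have q1 : PSim V ((A * B) %ₘ P) ((A * B) %ₘ PX l e n K P X) := by
        apply H21e.ps_symm h4
        exact H21e.ps_chg h4 hC.mon hPd1 (hZa V hVZ).1.2.1 hm (by rw [hd, hdP]) (hZX V hVZ).1 hA hB hAP hBP
      have q2 := H21e.ps_pow h4 hm hd1 hV.2.1 (by rw [hd]; exact hMd) (H21e.mlt hm hd1 (A * B)) q1 r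
      refine H21e.ps_trans h4 q2 ?_
      have q3 : (((A * B) %ₘ PX l e n K P X) ^ r) %ₘ PX l e n K P X =
          (((A ^ r) %ₘ PX l e n K P X) * ((B ^ r) %ₘ PX l e n K P X)) %ₘ PX l e n K P X := by
        rw [H21e.mmod hm, H21e.mmod' hm, ← mul_pow]
        apply modByMonic_eq_of_dvd_sub hm
        exact dvd_trans (dvd_modByMonic_sub (A * B) _) (sub_dvd_pow_sub_pow _ _ r)
      rw [q3]
      exact H21e.ps_mul h4 hm hd1 hV.2.1 (H21e.mlt hm hd1 _) b2' (H21e.mlt hm hd1 _) c2'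
        (H21e.ps_symm h4 (b3 V hVZ)) (H21e.ps_symm h4 (c3 V hVZ))) a4 (fun V hV hVZ => by
      have := H21e.ps_mul h4 hm hd1 hV.2.1 b2' (by rw [natDegree_one]; exact hd1) c2'
        (by rw [natDegree_one]; exact hd1) (b4 V hV hVZ) (c4 V hV hVZ)
      rwa [mul_one, H21e.mone hm hd1] at this)
    rw [k1, hF.mul _ _ _ hm hd hi b1 b2 c1 c2, smul_add]
  · -- tw
    intro X hX A hA hAd
    obtain ⟨hm, hd, hZX, hi⟩ := hPX X hX
    obtain ⟨t1, t2, t3, t4, t5, t6, t7⟩ := h2 F l hlp hC.num.chr hC.num.perf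
    have hQ : QQ l e n = l ^ (e * n.factorial) := rfl
    have hd1 : 1 ≤ (PX l e n K P X).natDegree := by rw [hd]; exact hr1
    have hAP : A.natDegree < (PX l e n K P X).natDegree := by rw [hd]; exact hAd
    have hA' : tw (QQ l e n) A ≠ 0 := by
      rw [hQ, Ne, (t3 _ A).2.1]
      exact hA
    have hA'd : (tw (QQ l e n) A).natDegree < r := by
      rw [hQ, (t3 _ A).1]
      exact hAd
    obtain ⟨b1, b2, b3, b4⟩ := hfA X hX A hA hAd
    obtain ⟨c1, c2, c3, c4⟩ := hfA X hX _ hA' hA'd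
    have hB0 : tw (QQ l e n) (fA X A) ≠ 0 := by
      rw [hQ, Ne, (t3 _ _).2.1]
      exact b1
    have hBd : (tw (QQ l e n) (fA X A)).natDegree < r := by
      rw [hQ, (t3 _ _).1]
      exact b2
    have htw1 : tw (QQ l e n) (1 : F[X]) = 1 := by
      rw [hQ]
      ext i
      rw [t2, coeff_one]
      split_ifs with hi0
      · exact one_pow _
      · exact zero_pow (pow_ne_zero _ hlp.ne_zero)
    have htwpow : ∀ j : ℕ, tw (QQ l e n) ((A ^ j) %ₘ PX l e n K P X) =
        ((tw (QQ l e n) A) ^ j) %ₘ tw (QQ l e n) (PX l e n K P X) := by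
      intro j
      have hpw : tw (QQ l e n) (A ^ j) = (tw (QQ l e n) A) ^ j := by
        induction j with
        | zero => rw [pow_zero, pow_zero, htw1]
        | succ j ih =>
          rw [pow_succ, pow_succ, ← ih, hQ]
          exact (t1 _ _ _).2.2
      have := t6 (e * n.factorial) (A ^ j) 1 (PX l e n K P X) hm
      rw [← hQ, mul_one, htw1, mul_one, hpw] at this
      exact this
    have k1 := H21e.keyK h4 hF hm hd hr1 hi (ZZ := Za Z l e n a P) c1 c2 hB0 hBd (fun V hV hVZ => by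
      refine H21e.ps_trans h4 (c3 V hVZ) (H21e.ps_symm h4 ?_)
      have q1 : PSim V (tw (QQ l e n) (fA X A)) (tw (QQ l e n) ((A ^ r) %ₘ PX l e n K P X)) := by
        rw [hQ]
        exact H21e.ps_tw h4 hlp _ (b3 V hVZ)
      refine H21e.ps_trans h4 q1 ?_
      rw [htwpow r]
      have hmt : (tw (QQ l e n) (PX l e n K P X)).Monic := by
        rw [hQ]
        exact (t3 _ _).2.2 hm
      have hdt : (tw (QQ l e n) (PX l e n K P X)).natDegree = (PX l e n K P X).natDegree := by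
        rw [hQ]
        exact (t3 _ _).1
      have hVt : V ∈ Bd Z (QQ l e n) (PX l e n K P X) := hV
      have hit : Irreducible (tw (QQ l e n) (PX l e n K P X)) := by
        obtain ⟨_, _, g3⟩ := h3 F V (tw (QQ l e n) (PX l e n K P X)) hmt (by rw [hdt]; exact hd1) (by
          rw [hQ, t7 _ V _ hm]
          exact hV.2.1)
        exact g3
      exact H21e.ps_chgpow h4 hm hd1 hV.2.1 hit hmt hdt hV.2.2 hA' (by rw [hd]; exact hA'd) r) c4
      (fun V hV hVZ => by
        have q1 : PSim V (tw (QQ l e n) (fA X A)) (tw (QQ l e n) 1) := by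
          rw [hQ]
          exact H21e.ps_tw h4 hlp _ (b4 V hV hVZ)
        rwa [htw1] at q1)
    rw [k1, hF.twA _ _ hm hd b1 b2]

end CL
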