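import Pool.Agent.Lib.MP_defcf3_al.CL.BAlg

/-!
Project CL (MP_defcf3_al), part (B), block ALG, section 1 of finding 4323: from E to g and S.
-/

open Polynomial

namespace CL

universe u

namespace H21

section

variable {F K : Type u} [Field F] [Field K] [Algebra F K]
variable {I : Type u} {Γ : I → Type u} [∀ i, LinearOrderedCommGroupWithZero (Γ i)]
variable {v : ∀ i, Valuation K (Γ i)} {T : Type u} [AddCommGroup T] {E : K → K → T} {f : F} {m : ℕ}

theorem triv_scal {a : F} (ha : a ≠ 0) (i : I) : Triv F (v i) (algebraMap F K a) := by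
  refine ⟨a, ha, ?_⟩
  rw [sub_self, map_zero, zero_lt_iff, Valuation.ne_zero_iff, Ne, map_eq_zero]
  exact ha

theorem e_scal (h : EFun F v f m E) {a : F} (ha : a ≠ 0) {X : K} (hX : InA F v f m X) :
    E (algebraMap F K a) X = 0 :=
  h.triv _ _ (by rw [Ne, map_eq_zero]; exact ha) hX (fun i => triv_scal ha i)

theorem e_one (h : EFun F v f m E) {X : K} (hX : InA F v f m X) : E 1 X = 0 := by
  have := e_scal h (one_ne_zero (α := F)) hX
  rwa [map_one] at this

theorem e_smul (h : EFun F v f m E) {a : F} (ha : a ≠ 0) {x X : K} (hx : x ≠ 0) (hX : InA F v f m X) :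
    E (algebraMap F K a * x) X = E x X := by
  rw [h.mul _ _ _ (by rw [Ne, map_eq_zero]; exact ha) hx hX, e_scal h ha hX, zero_add]

theorem e_neg (h : EFun F v f m E) {x X : K} (hx : x ≠ 0) (hX : InA F v f m X) : E (-x) X = E x X := by
  have := e_smul h (a := (-1 : F)) (by simp) hx hX
  rwa [map_neg, map_one, neg_one_mul] at this

theorem e_inv (h : EFun F v f m E) {x X : K} (hx : x ≠ 0) (hX : InA F v f m X) : E x⁻¹ X = - E x X := by
  have := h.mul x⁻¹ x X (inv_ne_zero hx) hx hX
  rw [inv_mul_cancel₀ hx, e_one h hX] at this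
  exact eq_neg_of_add_eq_zero_left this.symm

theorem e_pow (h : EFun F v f m E) {x X : K} (hx : x ≠ 0) (hX : InA F v f m X) (s : ℕ) :
    E (x ^ s) X = s • E x X := by
  induction s with
  | zero => rw [pow_zero, e_one h hX, zero_smul]
  | succ s ih => rw [pow_succ, h.mul _ _ _ (pow_ne_zero _ hx) hx hX, ih, succ_nsmul]

/-- (1.1) -/
theorem e11 [Nonempty I] (h : EFun F v f m E) {X Y : K} (hX : InA F v f m X) (hY : InA F v f m Y)
    (hlt : ∀ i, v i Y < v i X) : E X Y + E Y X = E X X + E Y Y := by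
  have hne : X ≠ Y := by
    obtain ⟨i⟩ := ‹Nonempty I›
    intro he
    have := hlt i
    rw [he] at this
    exact lt_irrefl _ this
  have hv' : ∀ i, v i (Y - X) = v i X := fun i => Valuation.map_sub_eq_of_lt_right _ (hlt i)
  have hv : ∀ i, v i (X - Y) = v i X := fun i => by rw [← neg_sub, Valuation.map_neg, hv' i]
  have h1 := h.rel X Y hX hY hne (fun i => by rw [hv i]; exact (hX.2 i).1)
  have h2 := h.rel Y X hY hX (Ne.symm hne) (fun i => by rw [hv' i]; exact (hX.2 i).1)
  have h3 : X - Y ≠ 0 := sub_ne_zero.2 hne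
  rw [← neg_sub X Y, e_neg h h3 hY, e_neg h h3 hX] at h2
  have h4 : (E X X - E X Y) + (E Y Y - E Y X) = 0 := by
    rw [← h1, ← h2]
    abel
  have h5 : E X X + E Y Y - (E X Y + E Y X) = 0 := by
    rw [← h4]
    abel
  exact (sub_eq_zero.1 h5).symm

variable (f0 : f ≠ 0) (vf : ∀ i, v i (algebraMap F K f) < 1)

include f0 in
theorem phi_ne : algebraMap F K f ≠ 0 := by
  rw [Ne, map_eq_zero]
  exact f0

include f0 vf in
theorem inA_pow {j : ℕ} (hj : 1 ≤ j) (hjm : j ≤ m) {y : K} (hy : ∀ i, v i y = 1) (hy0 : y ≠ 0) :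
    InA F v f m (algebraMap F K f ^ j * y) := by
  refine ⟨mul_ne_zero (pow_ne_zero _ (phi_ne f0)) hy0, fun i => ?_⟩
  rw [map_mul, map_pow, hy i, mul_one]
  refine ⟨pow_le_pow_right_of_le_one' (vf i).le hjm, ?_⟩
  calc v i (algebraMap F K f) ^ j ≤ v i (algebraMap F K f) ^ 1 := pow_le_pow_right_of_le_one' (vf i).le hj
    _ = v i (algebraMap F K f) := pow_one _

theorem unit_ne [Nonempty I] {y : K} (hy : ∀ i, v i y = 1) : y ≠ 0 := by
  obtain ⟨i⟩ := ‹Nonempty I›
  intro h0
  have := hy i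
  rw [h0, map_zero] at this
  exact zero_ne_one this

include f0 vf in
/-- (1.2), the basic identity. -/
theorem e12 [Nonempty I] (h : EFun F v f m E) {a b : ℕ} (ha : 1 ≤ a) (hab : a < b) (hb : b ≤ m) {x y : K}
    (hx : ∀ i, v i x = 1) (hy : ∀ i, v i y = 1) :
    E x (algebraMap F K f ^ b * y) + E y (algebraMap F K f ^ a * x) =
      E x (algebraMap F K f ^ a * x) + E y (algebraMap F K f ^ b * y) := by
  have hx0 : x ≠ 0 := unit_ne hx
  have hy0 : y ≠ 0 := unit_ne hy
  have hX := inA_pow (m := m) f0 vf ha (hab.le.trans hb) hx hx0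
  have hY := inA_pow (m := m) f0 vf (ha.trans hab.le) hb hy hy0
  have h1 := e11 h hX hY (fun i => by
    rw [map_mul, map_mul, map_pow, map_pow, hx i, hy i, mul_one, mul_one]
    exact pow_lt_pow_right_of_lt_one₀ (zero_lt_iff.2 ((Valuation.ne_zero_iff _).2 (phi_ne f0))) (vf i) hab)
  have hp : ∀ s : ℕ, algebraMap F K f ^ s = algebraMap F K (f ^ s) := fun s => (map_pow _ _ _).symm
  rw [hp a] at hX
  rw [hp b] at hY
  rw [hp a, hp b] at h1
  rw [hp a, hp b]
  rw [e_smul h (pow_ne_zero _ f0) hx0 hY, e_smul h (pow_ne_zero _ f0) hy0 hX,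
    e_smul h (pow_ne_zero _ f0) hx0 hX, e_smul h (pow_ne_zero _ f0) hy0 hY] at h1
  exact h1

include f0 vf in
theorem e_j1 [Nonempty I] (h : EFun F v f m E) (hm : 5 ≤ m) {j : ℕ} (hj : 1 ≤ j) (hjm : j ≤ m) {x : K}
    (hx : ∀ i, v i x = 1) :
    E x (algebraMap F K f ^ j * 1) = E x (algebraMap F K f ^ 1 * 1) ∧
      E x (algebraMap F K f ^ j * x) = E x (algebraMap F K f ^ 1 * 1) := by
  have h1v : ∀ i, v i (1 : K) = 1 := fun i => map_one _
  have p1 : ∀ a b : ℕ, 1 ≤ a → a < b → b ≤ m →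
      E x (algebraMap F K f ^ b * 1) = E x (algebraMap F K f ^ a * x) := by
    intro a b ha hab hb
    have := e12 f0 vf h ha hab hb hx h1v
    rw [e_one h (inA_pow f0 vf ha (hab.le.trans hb) hx (unit_ne hx)),
      e_one h (inA_pow f0 vf (ha.trans hab.le) hb h1v one_ne_zero), add_zero, add_zero] at this
    exact this
  have p2 : ∀ a b : ℕ, 1 ≤ a → a < b → b ≤ m →
      E x (algebraMap F K f ^ a * 1) = E x (algebraMap F K f ^ b * x) := by
    intro a b ha hab hb
    have := e12 f0 vf h ha hab hb h1v hx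
    rw [e_one h (inA_pow f0 vf (ha.trans hab.le) hb hx (unit_ne hx)),
      e_one h (inA_pow f0 vf ha (hab.le.trans hb) h1v one_ne_zero), zero_add, zero_add] at this
    exact this
  have q1 : E x (algebraMap F K f ^ 1 * 1) = E x (algebraMap F K f ^ 2 * x) := p2 1 2 (by omega) (by omega) (by omega)
  have q2 : E x (algebraMap F K f ^ 3 * 1) = E x (algebraMap F K f ^ 2 * x) := p1 2 3 (by omega) (by omega) (by omega)
  have q3 : E x (algebraMap F K f ^ 3 * 1) = E x (algebraMap F K f ^ 1 * x) := p1 1 3 (by omega) (by omega) (by omega)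
  have q4 : E x (algebraMap F K f ^ 1 * x) = E x (algebraMap F K f ^ 1 * 1) := by rw [← q3, q2, ← q1]
  rcases Nat.lt_or_ge 1 j with h2 | h2
  · refine ⟨?_, ?_⟩
    · rw [p1 1 j le_rfl h2 hjm, q4]
    · rw [← p2 1 j le_rfl h2 hjm]
  · have : j = 1 := by omega
    subst this
    exact ⟨rfl, q4⟩

include f0 vf in
theorem s_rel [Nonempty I] (h : EFun F v f m E) (hm : 5 ≤ m) {a b : ℕ} (ha : 1 ≤ a) (hab : a < b) (hb : b ≤ m)
    {x y : K} (hx : ∀ i, v i x = 1) (hy : ∀ i, v i y = 1) :
    (E x (algebraMap F K f ^ b * y) - E x (algebraMap F K f ^ 1 * 1)) =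
      - (E y (algebraMap F K f ^ a * x) - E y (algebraMap F K f ^ 1 * 1)) := by
  have h1 := e12 f0 vf h ha hab hb hx hy
  rw [(e_j1 f0 vf h hm ha (hab.le.trans hb) hx).2, (e_j1 f0 vf h hm (ha.trans hab.le) hb hy).2] at h1
  have h2 : E x (algebraMap F K f ^ b * y) = E x (algebraMap F K f ^ 1 * 1) + E y (algebraMap F K f ^ 1 * 1) -
      E y (algebraMap F K f ^ a * x) := by
    rw [← h1]
    abel
  rw [h2]
  abel

/-- S on units. -/
def SU (F : Type u) [Field F] [Algebra F K] (f : F) (E : K → K → T) (x y : K) : T :=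
  E x (algebraMap F K f ^ 1 * y) - E x (algebraMap F K f ^ 1 * 1)

include f0 vf in
theorem su_anti [Nonempty I] (h : EFun F v f m E) (hm : 5 ≤ m) {x y : K} (hx : ∀ i, v i x = 1)
    (hy : ∀ i, v i y = 1) : SU F f E x y = - SU F f E y x := by
  unfold SU
  have a1 := s_rel f0 vf h hm (a := 1) (b := 2) (by omega) (by omega) (by omega) hx hy
  have a2 := s_rel f0 vf h hm (a := 2) (b := 3) (by omega) (by omega) (by omega) hy hx
  have a3 := s_rel f0 vf h hm (a := 1) (b := 3) (by omega) (by omega) (by omega) hy hx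
  rw [a1, neg_neg] at a2
  rw [← a2, a3, neg_neg]

include f0 vf in
theorem su_j [Nonempty I] (h : EFun F v f m E) (hm : 5 ≤ m) {j : ℕ} (hj : 1 ≤ j) (hjm : j ≤ m) {x y : K}
    (hx : ∀ i, v i x = 1) (hy : ∀ i, v i y = 1) :
    E x (algebraMap F K f ^ j * y) = E x (algebraMap F K f ^ 1 * 1) + SU F f E x y := by
  rcases Nat.lt_or_ge 1 j with h2 | h2
  · have a1 := s_rel f0 vf h hm le_rfl h2 hjm hx hy
    have a2 := su_anti f0 vf h hm hx hy
    unfold SU at a2
    rw [← a2] at a1
    unfold SU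
    rw [← a1]
    abel
  · have : j = 1 := by omega
    subst this
    unfold SU
    abel

include f0 vf in
theorem su_mul [Nonempty I] (h : EFun F v f m E) (hm : 5 ≤ m) {x y z : K} (hx : x ≠ 0) (hy : y ≠ 0)
    (hz : ∀ i, v i z = 1) : SU F f E (x * y) z = SU F f E x z + SU F f E y z := by
  unfold SU
  have h1v : ∀ i, v i (1 : K) = 1 := fun i => map_one _
  rw [h.mul x y _ hx hy (inA_pow f0 vf le_rfl (by omega) hz (unit_ne hz)),
    h.mul x y _ hx hy (inA_pow f0 vf le_rfl (by omega) h1v one_ne_zero)]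
  abel

include f0 vf in
theorem su_mulr [Nonempty I] (h : EFun F v f m E) (hm : 5 ≤ m) {x y z : K} (hx : ∀ i, v i x = 1)
    (hy : ∀ i, v i y = 1) (hz : ∀ i, v i z = 1) : SU F f E x (y * z) = SU F f E x y + SU F f E x z := by
  have hyz : ∀ i, v i (y * z) = 1 := fun i => by rw [map_mul, hy i, hz i, mul_one]
  rw [su_anti f0 vf h hm hx hyz, su_mul f0 vf h hm (unit_ne hy) (unit_ne hz) hx, su_anti f0 vf h hm hx hy,
    su_anti f0 vf h hm hx hz, neg_add]

include f0 vf in
theorem su_self [Nonempty I] (h : EFun F v f m E) (hm : 5 ≤ m) {x : K} (hx : ∀ i, v i x = 1) :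
    SU F f E x x = 0 := by
  unfold SU
  rw [(e_j1 f0 vf h hm le_rfl (by omega) hx).2, sub_self]

/-- The unit x_1. -/
noncomputable def x1 (F : Type u) [Field F] [Algebra F K] (r : ℕ) (x : K) : K :=
  algebraMap F K (Algebra.norm F x)⁻¹ * x ^ r

variable {r : ℕ} (vnm : ∀ i x, v i (algebraMap F K (Algebra.norm F x)) = v i x ^ r)

theorem norm_ne [FiniteDimensional F K] {x : K} (hx : x ≠ 0) : Algebra.norm F x ≠ 0 := by
  rw [Ne, Algebra.norm_eq_zero_iff]
  exact hx

include vnm in
theorem x1_v {x : K} (hx : x ≠ 0) (i : I) : v i (x1 F r x) = 1 := by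
  unfold x1
  rw [map_mul, map_inv₀, map_inv₀, vnm i x, map_pow]
  exact inv_mul_cancel₀ (pow_ne_zero _ ((Valuation.ne_zero_iff _).2 hx))

theorem x1_mul (x y : K) : x1 F r (x * y) = x1 F r x * x1 F r y := by
  unfold x1
  rw [map_mul, mul_inv, map_mul, mul_pow]
  ring

theorem e_x1 [FiniteDimensional F K] (h : EFun F v f m E) {x X : K} (hx : x ≠ 0) (hX : InA F v f m X) :
    E (x1 F r x) X = r • E x X := by
  unfold x1
  rw [e_smul h (inv_ne_zero (norm_ne hx)) (pow_ne_zero _ hx) hX, e_pow h hx hX]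

end

end H21

theorem etoS_proof : EtoSStatement.{u} := by
  intro F K _ _ _ _ I _ Γ _ v c0 r ρ f D C k T _ _ _ m E hF hr h2 hm hE
  have f0 := hF.f0
  have vf := hF.vf
  have vnm := hF.vnm
  have h1v : ∀ i, v i (1 : K) = 1 := fun i => map_one _
  have hf0 : algebraMap F K f ≠ 0 := H21.phi_ne f0
  have hm1 : 1 ≤ m := by omega
  have hr' : ∀ t : T, (r : k) • t = r • t := fun t => Nat.cast_smul_eq_nsmul k r t
  have hcancel : ∀ t t' : T, r • t = r • t' → t = t' := by
    intro t t' h
    rw [← hr', ← hr'] at h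
    exact (smul_right_injective T hr) h
  have hIf : InA F v f m (algebraMap F K f ^ 1 * 1) := H21.inA_pow f0 vf le_rfl hm1 h1v one_ne_zero
  set g : K → T := fun x => E x (algebraMap F K f ^ 1 * 1) with hg
  set S : K → K → T := fun x y => ((r : k)⁻¹ * (r : k)⁻¹) • H21.SU F f E (H21.x1 F r x) (H21.x1 F r y) with hS
  have xv : ∀ x : K, x ≠ 0 → ∀ i, v i (H21.x1 F r x) = 1 := fun x hx i => H21.x1_v vnm hx i
  have xn : ∀ x : K, x ≠ 0 → H21.x1 F r x ≠ 0 := fun x hx => H21.unit_ne (xv x hx)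
  -- S for a unit in the second variable
  have hSu : ∀ x y : K, x ≠ 0 → (∀ i, v i y = 1) → r • S x y = H21.SU F f E (H21.x1 F r x) y := by
    intro x y hx hy
    have hy0 : y ≠ 0 := H21.unit_ne hy
    have e1 : H21.SU F f E (H21.x1 F r x) (H21.x1 F r y) = r • H21.SU F f E (H21.x1 F r x) y := by
      rw [H21.su_anti f0 vf hE hm (xv x hx) (xv y hy0), H21.su_anti f0 vf hE hm (xv x hx) hy, smul_neg]
      congr 1
      unfold H21.SU
      rw [H21.e_x1 hE hy0 (H21.inA_pow f0 vf le_rfl hm1 (xv x hx) (xn x hx)), H21.e_x1 hE hy0 hIf, smul_sub]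
    simp only [hS]
    rw [e1, ← hr', ← hr', smul_smul, smul_smul]
    have : (r : k) * ((r : k)⁻¹ * (r : k)⁻¹) * (r : k) = 1 := by field_simp
    rw [← mul_assoc] at this ⊢
    rw [this, one_smul]
  have hgj : ∀ (x y : K) (j : ℕ), x ≠ 0 → (∀ i, v i y = 1) → 1 ≤ j → j ≤ m →
      E x (algebraMap F K f ^ j * y) = g x + S x y := by
    intro x y j hx hy hj hjm
    have hy0 : y ≠ 0 := H21.unit_ne hy
    apply hcancel
    rw [smul_add, hSu x y hx hy, ← H21.e_x1 hE hx (H21.inA_pow f0 vf hj hjm hy hy0), ← H21.e_x1 hE hx hIf,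
      H21.su_j f0 vf hE hm hj hjm (xv x hx) hy]
  have hmull : ∀ x y z, x ≠ 0 → y ≠ 0 → z ≠ 0 → S (x * y) z = S x z + S y z := by
    intro x y z hx hy hz
    simp only [hS]
    rw [H21.x1_mul, H21.su_mul f0 vf hE hm (xn x hx) (xn y hy) (xv z hz), smul_add]
  have hmulr : ∀ x y z, x ≠ 0 → y ≠ 0 → z ≠ 0 → S x (y * z) = S x y + S x z := by
    intro x y z hx hy hz
    simp only [hS]
    rw [H21.x1_mul, H21.su_mulr f0 vf hE hm (xv x hx) (xv y hy) (xv z hz), smul_add]
  have hself : ∀ x, x ≠ 0 → S x x = 0 := by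
    intro x hx
    simp only [hS]
    rw [H21.su_self f0 vf hE hm (xv x hx), smul_zero]
  have hanti : ∀ x y, x ≠ 0 → y ≠ 0 → S x y = - S y x := by
    intro x y hx hy
    simp only [hS]
    rw [H21.su_anti f0 vf hE hm (xv x hx) (xv y hy), smul_neg]
  have htrivl : ∀ x y, x ≠ 0 → y ≠ 0 → (∀ i, Triv F (v i) x) → S x y = 0 := by
    intro x y hx hy ht
    simp only [hS]
    have hX := H21.inA_pow (m := m) f0 vf le_rfl hm1 (xv y hy) (xn y hy)
    unfold H21.SU
    rw [H21.e_x1 hE hx hX, H21.e_x1 hE hx hIf, hE.triv x _ hx hX ht, hE.triv x _ hx hIf ht, smul_zero, sub_zero,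
      smul_zero]
  have hsym : Sym F v S :=
    ⟨hmull, hmulr, hself, htrivl, fun x y hx hy ht => by rw [hanti x y hx hy, htrivl y x hy hx ht, neg_zero]⟩
  have hg1 : g 1 = 0 := H21.e_one hE hIf
  have hInA : ∀ X, InA F v f (m - 1) X → InA F v f m X := by
    intro X hX
    refine ⟨hX.1, fun i => ⟨?_, (hX.2 i).2⟩⟩
    exact (pow_le_pow_right_of_le_one' (vf i).le (by omega)).trans (hX.2 i).1
  have hA1u : ∀ y X, (∀ i, v i y = 1) → InA F v f (m - 1) X → E y X = g y + S y X := by
    intro y X hy hX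
    have hy0 : y ≠ 0 := H21.unit_ne hy
    have hXm := hInA X hX
    have hlt : ∀ (z : K), (∀ i, v i z = 1) → ∀ i, v i (algebraMap F K f ^ m * z) < v i X := by
      intro z hz i
      rw [map_mul, map_pow, hz i, mul_one]
      refine lt_of_lt_of_le ?_ (hX.2 i).1
      exact pow_lt_pow_right_of_lt_one₀ (zero_lt_iff.2 ((Valuation.ne_zero_iff _).2 hf0)) (vf i) (by omega)
    have key : ∀ (z : K), (∀ i, v i z = 1) → g X + S X z + E z X = E X X + g z := by
      intro z hz
      have hz0 : z ≠ 0 := H21.unit_ne hz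
      have hZ := H21.inA_pow (m := m) f0 vf hm1 le_rfl hz hz0
      have e1 := H21.e11 hE hXm hZ (hlt z hz)
      rw [hgj X z m hX.1 hz hm1 le_rfl] at e1
      have hp : algebraMap F K f ^ m = algebraMap F K (f ^ m) := (map_pow _ _ _).symm
      have e2 : E (algebraMap F K f ^ m * z) X = E z X := by
        rw [hp]
        exact H21.e_smul hE (pow_ne_zero _ f0) hz0 hXm
      have e3 : E (algebraMap F K f ^ m * z) (algebraMap F K f ^ m * z) = g z := by
        have q := H21.e_smul hE (pow_ne_zero m f0) hz0 hZ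
        rw [← hp] at q
        rw [q]
        exact (H21.e_j1 f0 vf hE hm hm1 le_rfl hz).2
      rw [e2, e3] at e1
      exact e1
    have k1 := key 1 h1v
    have hS1 : S X 1 = 0 := by
      have := hmulr X 1 1 hX.1 one_ne_zero one_ne_zero
      rw [mul_one] at this
      have h3 : S X 1 + S X 1 = S X 1 + 0 := by rw [← this, add_zero]
      exact add_left_cancel h3
    rw [hS1, add_zero, H21.e_one hE hXm, add_zero, hg1, add_zero] at k1
    have k2 := key y hy
    rw [← k1, hanti X y hX.1 hy0] at k2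
    have : E y X = g y + S y X + (g X + -S y X + E y X - (g X + g y)) := by abel
    rw [this, k2]
    abel
  have hA1 : ∀ x X, x ≠ 0 → InA F v f (m - 1) X → E x X = g x + S x X := by
    intro x X hx hX
    apply hcancel
    have hXm := hInA X hX
    rw [← H21.e_x1 hE hx hXm, hA1u _ X (xv x hx) hX, smul_add]
    congr 1
    · simp only [hg]
      rw [H21.e_x1 hE hx hIf]
    · have hν := H21.norm_ne (F := F) hx
      have hν' : algebraMap F K (Algebra.norm F x)⁻¹ ≠ 0 := by
        rw [Ne, map_eq_zero]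
        exact inv_ne_zero hν
      unfold H21.x1
      rw [hmull _ _ X hν' (pow_ne_zero _ hx) hX.1, htrivl _ X hν' hX.1 (fun i => H21.triv_scal (inv_ne_zero hν) i),
        zero_add]
      have hpow : ∀ s : ℕ, S (x ^ s) X = s • S x X := by
        intro s
        induction s with
        | zero =>
          rw [pow_zero, zero_smul]
          have := hmull 1 1 X one_ne_zero one_ne_zero hX.1
          rw [mul_one] at this
          have h3 : S 1 X + S 1 X = S 1 X + 0 := by rw [← this, add_zero]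
          exact add_left_cancel h3
        | succ s ih => rw [pow_succ, hmull _ _ X (pow_ne_zero _ hx) hx hX.1, ih, succ_nsmul]
      exact hpow r
  refine ⟨g, S, ?_, ?_, hsym, hA1, ?_⟩
  · intro x y hx hy
    exact hE.mul x y _ hx hy hIf
  · intro x hx ht
    exact hE.triv x _ hx hIf ht
  · intro u hu0 hu1 hu hfu hf1u
    have h1u : (1 : K) - u ≠ 0 := sub_ne_zero.2 (Ne.symm hu1)
    have hfm : ∀ i, v i (algebraMap F K f) * v i (algebraMap F K f) ^ (m - 2) = v i (algebraMap F K f) ^ (m - 1) := by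
      intro i
      rw [← pow_succ']
      congr 1
      omega
    have hY : InA F v f (m - 1) (algebraMap F K f * u) := by
      refine ⟨mul_ne_zero hf0 hu0, fun i => ?_⟩
      rw [map_mul]
      refine ⟨?_, ?_⟩
      · rw [← hfm i]
        exact mul_le_mul_right (hfu i) _
      · calc v i (algebraMap F K f) * v i u ≤ v i (algebraMap F K f) * 1 := mul_le_mul_right (hu i) _
          _ = v i (algebraMap F K f) := mul_one _
    have hYm := hInA _ hY
    have hXf : InA F v f m (algebraMap F K f) := by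
      have := hIf
      rwa [pow_one, mul_one] at this
    have hne : algebraMap F K f ≠ algebraMap F K f * u := by
      intro he
      apply hu1
      have h3 : algebraMap F K f * u = algebraMap F K f * 1 := by rw [mul_one]; exact he.symm
      exact mul_left_cancel₀ hf0 h3
    have hsub : algebraMap F K f - algebraMap F K f * u = algebraMap F K f * (1 - u) := by ring
    have e1 := hE.rel _ _ hXf hYm hne (fun i => by
      rw [hsub, map_mul]
      calc v i (algebraMap F K f) ^ m ≤ v i (algebraMap F K f) ^ (m - 1) :=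
            pow_le_pow_right_of_le_one' (vf i).le (by omega)
        _ = v i (algebraMap F K f) * v i (algebraMap F K f) ^ (m - 2) := (hfm i).symm
        _ ≤ v i (algebraMap F K f) * v i (1 - u) := mul_le_mul_right (hf1u i) _)
    rw [hsub, H21.e_smul hE f0 h1u hXf, H21.e_smul hE f0 h1u hYm, H21.e_scal hE f0 hXf, H21.e_scal hE f0 hYm,
      sub_self, sub_eq_zero, hA1 (1 - u) _ h1u hY] at e1
    have e2 : E (1 - u) (algebraMap F K f) = g (1 - u) := by
      simp only [hg]
      rw [pow_one, mul_one]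
    rw [e2, hmulr _ _ _ h1u hf0 hu0, hsym.trivr (1 - u) _ h1u hf0 (fun i => H21.triv_scal f0 i), zero_add] at e1
    have e3 : S (1 - u) u = 0 := by
      have h3 : g (1 - u) + S (1 - u) u = g (1 - u) + 0 := by rw [← e1, add_zero]
      exact add_left_cancel h3
    rw [hanti u (1 - u) hu0 h1u, e3, neg_zero]

end CL
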