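import Pool.Agent.Lib.MP_defcf3_al.CL.IfaceB

/-!
Project CL (MP_defcf3_al), part (B), row Rep: representatives of AdjoinRoot P.
-/

open Polynomial

namespace CL

universe u

namespace H50R

variable {F : Type u} [Field F] {P : F[X]}

theorem ne_one (h2 : 2 ≤ P.natDegree) : P ≠ 1 := by
  rintro rfl
  rw [natDegree_one] at h2
  omega

theorem deg_lt (hP : P.Monic) (h2 : 2 ≤ P.natDegree) (A : F[X]) : (A %ₘ P).natDegree < P.natDegree :=
  natDegree_modByMonic_lt A hP (ne_one h2)

theorem mod_self (hP : P.Monic) {A : F[X]} (hA : A.natDegree < P.natDegree) : A %ₘ P = A := by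
  rw [modByMonic_eq_self_iff hP]
  exact degree_lt_degree hA

end H50R

theorem rep_proof : RepStatement.{u} := by
  intro F _ P hirr hP h2
  refine ⟨⟨AdjoinRoot.modByMonicHom hP, ?_, ?_, ?_, ?_, ?_, ?_, ?_⟩, ?_, ?_, ?_, ?_, ?_⟩
  · intro x
    refine ⟨AdjoinRoot.mk_leftInverse hP x, ?_⟩
    obtain ⟨A, rfl⟩ := AdjoinRoot.mk_surjective x
    rw [AdjoinRoot.modByMonicHom_mk]
    exact H50R.deg_lt hP h2 A
  · intro A hA
    rw [AdjoinRoot.modByMonicHom_mk, H50R.mod_self hP hA]
  · intro x y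
    obtain ⟨A, rfl⟩ := AdjoinRoot.mk_surjective x
    obtain ⟨B, rfl⟩ := AdjoinRoot.mk_surjective y
    rw [← map_mul, AdjoinRoot.modByMonicHom_mk, AdjoinRoot.modByMonicHom_mk, AdjoinRoot.modByMonicHom_mk,
      mul_modByMonic]
  · intro x y
    exact map_sub _ x y
  · intro x
    constructor
    · intro h
      rw [← AdjoinRoot.mk_leftInverse hP x, h, map_zero]
    · rintro rfl
      exact map_zero _
  · rw [← map_one (AdjoinRoot.mk P), AdjoinRoot.modByMonicHom_mk]
    exact H50R.mod_self hP (by rw [natDegree_one]; omega)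
  · intro c
    have : algebraMap F (AdjoinRoot P) c = AdjoinRoot.mk P (C c) := rfl
    rw [this, AdjoinRoot.modByMonicHom_mk]
    exact H50R.mod_self hP (by rw [natDegree_C]; omega)
  · intro V v hv A hA
    have key : ∀ a : F, (v (AdjoinRoot.mk P A - algebraMap F (AdjoinRoot P) a) < v (algebraMap F (AdjoinRoot P) a) ↔
        pn V (A - C a * 1) < pn V (C a * 1)) := by
      intro a
      have e1 : algebraMap F (AdjoinRoot P) a = AdjoinRoot.mk P (C a) := rfl
      rw [e1, ← map_sub, mul_one, hv (A - C a) ?_, hv (C a) (by rw [natDegree_C]; omega)]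
      refine lt_of_le_of_lt (natDegree_sub_le _ _) ?_
      rw [natDegree_C]
      exact max_lt hA (by omega)
    constructor
    · rintro ⟨a, ha, h⟩
      exact ⟨a, ha, (key a).1 h⟩
    · rintro ⟨a, ha, h⟩
      exact ⟨a, ha, (key a).2 h⟩
  · intro A
    exact AdjoinRoot.aeval_eq A
  · rw [AdjoinRoot.minpoly_root hP.ne_zero, hP.leadingCoeff, inv_one, C_1, mul_one]
  · exact AdjoinRoot.adjoinRoot_eq_top
  · exact AdjoinRoot.isIntegral_root hP.ne_zero

end CL
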