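import Pool.Agent.Lib.MP_defcf3_al.CL.IfaceB
import Pool.Agent.Lib.MP_defcf3_al.CL.Norm
import Pool.Agent.Lib.MP_defcf3_al.CL.Rep

/-!
Project CL (MP_defcf3_al), part (B), row Fam: content norms as valuations of AdjoinRoot P.
-/

open Polynomial

namespace CL

universe u

namespace H50F

section Pb

variable {F K : Type u} [Field F] [Field K] [Algebra F K] {V : ValuationSubring F} (pb : PowerBasis F K)

/-- Norms of integral elements. -/
theorem norm_mem (h : CoV V (minpoly F pb.gen)) {x : K} (hx : x ∈ BB V pb.gen) : Algebra.norm F x ∈ V := by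
  obtain ⟨M, hM⟩ := H74.exists_mat pb h hx
  rw [H74.norm_eq pb M hM]
  exact (M.det).2

/-- Norms of 1 + c x. -/
theorem norm_one_add (h : CoV V (minpoly F pb.gen)) {x : K} (hx : x ∈ BB V pb.gen) {c : F} (hc : c ∈ V) :
    ∃ y ∈ V, Algebra.norm F (1 + algebraMap F K c * x) = 1 + c * y := by
  obtain ⟨M, hM⟩ := H74.exists_mat pb h hx
  obtain ⟨c', hc'⟩ : ∃ c' : V, algebraMap V F c' = c := ⟨⟨c, hc⟩, rfl⟩
  have h1 := H74.det_sub_mem (Ideal.span {c'}) (1 : V) (c' • M) fun i j => by
    rw [Matrix.smul_apply, smul_eq_mul]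
    exact Ideal.mul_mem_right _ _ (Ideal.mem_span_singleton_self c')
  rw [Ideal.mem_span_singleton', one_pow] at h1
  obtain ⟨y, hy⟩ := h1
  refine ⟨algebraMap V F y, y.2, ?_⟩
  have h2 : (algebraMap V F).mapMatrix (Matrix.scalar (Fin pb.dim) (1 : V) + c' • M) =
      Algebra.leftMulMatrix pb.basis (1 + algebraMap F K c * x) := by
    rw [map_add, map_add, map_mul, ← hM, map_one, map_one]
    have e2 : Algebra.leftMulMatrix pb.basis (algebraMap F K c) =
        algebraMap F (Matrix (Fin pb.dim) (Fin pb.dim) F) c := AlgHom.commutes _ c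
    rw [e2, ← Algebra.smul_def, map_one]
    congr 1
    ext i j
    simp only [RingHom.mapMatrix_apply, Matrix.map_apply, Matrix.smul_apply, smul_eq_mul, map_mul, hc']
  rw [H74.norm_eq pb _ h2]
  have h3 : (Matrix.scalar (Fin pb.dim) (1 : V) + c' • M).det = 1 + c' * y := by
    rw [mul_comm c' y, hy]
    ring
  rw [h3, map_add, map_one, map_mul, hc']

end Pb

end H50F

theorem fam_proof (h1 : PnStatement.{u}) (h2 : InrStatement.{u}) : FamStatement.{u} := by
  intro F _ P hirr D Cp ZZ f hP hd hf hZ hD hC1 hC2 hC3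
  obtain ⟨⟨rp, rp1, rp2, rp3, rp4, rp5, rp6, rp7⟩, -, r2, r3, r4, r5⟩ := rep_proof F P hP hd
  have hadd : ∀ x y, rp (x + y) = rp x + rp y := by
    intro x y
    have h3 := rp4 (x + y) y
    rw [add_sub_cancel_right] at h3
    rw [h3, sub_add_cancel]
  have hone : rp 1 = 1 := rp6
  let v : ∀ V : ZZ, Valuation (AdjoinRoot P) V.1.ValueGroup := fun V =>
    { toFun := fun x => pn V.1 (rp x)
      map_zero' := by
        have h3 : rp 0 = 0 := (rp5 0).2 rfl
        rw [h3]
        exact ((h1 F V.1).1 0).2 rfl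
      map_one' := by
        rw [rp6, ← C_1, (h1 F V.1).2.2.2.2.2.2.2.1, map_one]
      map_mul' := fun x y => by
        rw [rp3]
        exact (h2 F V.1 P hP (by omega) (hZ V.1 V.2).1).1 _ _ (rp1 x).2 (rp1 y).2
      map_add_le_max' := fun x y => by
        rw [hadd]
        exact (h1 F V.1).2.2.2.1 _ _ }
  have hv : ∀ V x, v V x = pn V.1 (rp x) := fun V x => rfl
  have hvA : ∀ (V : ZZ) (A : F[X]), A.natDegree < P.natDegree → v V (AdjoinRoot.mk P A) = pn V.1 A := by
    intro V A hA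
    rw [hv, rp2 A hA]
  have halg : ∀ (V : ZZ) (c : F), v V (algebraMap F (AdjoinRoot P) c) = V.1.valuation c := by
    intro V c
    rw [hv, rp7, (h1 F V.1).2.2.2.2.2.2.2.1]
  have hroot : AdjoinRoot.root P = AdjoinRoot.mk P X := rfl
  have : FiniteDimensional F (AdjoinRoot P) := (AdjoinRoot.powerBasis' hP).finite
  -- the power basis
  obtain ⟨pb, hpb, hdim⟩ : ∃ pb : PowerBasis F (AdjoinRoot P), pb.gen = AdjoinRoot.root P ∧ pb.dim = P.natDegree :=
    ⟨AdjoinRoot.powerBasis' hP, AdjoinRoot.powerBasis'_gen hP, AdjoinRoot.powerBasis'_dim hP⟩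
  have hfr : Module.finrank F (AdjoinRoot P) = P.natDegree := by rw [pb.finrank, hdim]
  have hcoV : ∀ V : ZZ, CoV V.1 (minpoly F pb.gen) := by
    intro V
    rw [hpb, r3]
    obtain ⟨P', hP', -⟩ := (hZ V.1 V.2).1
    rw [← hP']
    intro i
    rw [coeff_map]
    exact (P'.coeff i).2
  have hBB : ∀ (V : ZZ) (x : AdjoinRoot P), v V x ≤ 1 → x ∈ BB V.1 pb.gen := by
    intro V x hx
    rw [hv, (h1 F V.1).2.2.2.2.2.2.2.2.1] at hx
    refine ⟨rp x, hx, ?_⟩
    rw [hpb, r2, (rp1 x).1]
  let c0 : AdjoinRoot P →ₗ[F] F := (lcoeff F 0).comp (AdjoinRoot.modByMonicHom hP)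
  have hc0 : ∀ A : F[X], A.natDegree < P.natDegree → c0 (AdjoinRoot.mk P A) = A.coeff 0 := by
    intro A hA
    change (lcoeff F 0) (AdjoinRoot.modByMonicHom hP (AdjoinRoot.mk P A)) = _
    rw [AdjoinRoot.modByMonicHom_mk, H50R.mod_self hP hA, lcoeff_apply]
  refine ⟨v, c0, ⟨hd, hfr, ?_, ?_, ?_, ?_, ?_, ?_, hf, ?_, hD, hC1, hC2, hC3, ?_, ?_⟩, hvA⟩
  · rw [← map_one (AdjoinRoot.mk P), hc0 1 (by rw [natDegree_one]; omega), coeff_one_zero]
  · rw [hroot, hc0 X (by rw [natDegree_X]; omega), coeff_X_zero]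
  · intro V
    rw [hroot, hvA V X (by rw [natDegree_X]; omega)]
    apply le_antisymm
    · rw [(h1 F V.1).2.2.2.2.2.2.2.2.1]
      exact CoV.X
    · exact (h1 F V.1).2.2.2.2.2.2.2.2.2.2 X monic_X
  · intro V x
    obtain ⟨A, hA, rfl⟩ : ∃ A : F[X], A.natDegree < P.natDegree ∧ AdjoinRoot.mk P A = x := ⟨rp x, (rp1 x).2, (rp1 x).1⟩
    rw [hc0 A hA, halg]
    have e1 : AdjoinRoot.mk P A - algebraMap F (AdjoinRoot P) (A.coeff 0) =
        AdjoinRoot.mk P (A - C (A.coeff 0)) := by
      rw [map_sub]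
      rfl
    have hA' : (A - C (A.coeff 0)).natDegree < P.natDegree := by
      refine lt_of_le_of_lt (natDegree_sub_le _ _) ?_
      rw [natDegree_C]
      exact max_lt hA (by omega)
    rw [e1, hvA V A hA, hvA V _ hA']
    obtain ⟨p1, p2, p3, p4, p5, p6, p7, p8, p9, p10, p11⟩ := h1 F V.1
    apply le_antisymm
    · by_cases hA0 : A = 0
      · rw [hA0, (p1 0).2 rfl]
        exact zero_le
      obtain ⟨j, hj⟩ := p3 A hA0
      rw [← hj]
      rcases Nat.eq_zero_or_pos j with h | h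
      · rw [h]
        exact le_max_left _ _
      · refine le_trans ?_ (le_max_right _ _)
        have := p2 (A - C (A.coeff 0)) j
        rwa [coeff_sub, coeff_C, if_neg h.ne', sub_zero] at this
    · refine max_le (p2 A 0) ?_
      by_cases hA0 : A - C (A.coeff 0) = 0
      · rw [hA0, (p1 0).2 rfl]
        exact zero_le
      obtain ⟨j, hj⟩ := p3 _ hA0
      rw [← hj]
      rcases Nat.eq_zero_or_pos j with h | h
      · rw [h, coeff_sub, coeff_C_zero, sub_self, map_zero]
        exact zero_le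
      · have := p2 A j
        rwa [coeff_sub, coeff_C, if_neg h.ne', sub_zero]
  · -- norms
    intro V x
    rw [halg]
    by_cases hx : x = 0
    · rw [hx, Algebra.norm_zero, map_zero, map_zero, zero_pow (by omega)]
    -- scale
    have hrx : rp x ≠ 0 := fun h => hx ((rp5 x).1 h)
    obtain ⟨p1, p2, p3, p4, p5, p6, p7, p8, p9, p10, p11⟩ := h1 F V.1
    obtain ⟨i, hi⟩ := p3 _ hrx
    have hpx : v V x ≠ 0 := by rw [Ne, map_eq_zero]; exact hx
    set c : F := (rp x).coeff i with hc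
    have hvc : V.1.valuation c = v V x := hi
    have hc0' : c ≠ 0 := by
      intro h
      rw [h, map_zero] at hvc
      exact hpx hvc.symm
    have hcK : algebraMap F (AdjoinRoot P) c ≠ 0 := by rw [Ne, map_eq_zero]; exact hc0'
    set y := x / algebraMap F (AdjoinRoot P) c with hy
    have hxy : x = algebraMap F (AdjoinRoot P) c * y := by
      rw [hy, mul_div_cancel₀ _ hcK]
    have hvy : v V y = 1 := by
      rw [hy, map_div₀, halg, hvc, div_self hpx]
    have hvy' : v V y⁻¹ = 1 := by rw [map_inv₀, hvy, inv_one]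
    have hy0 : y ≠ 0 := by
      intro h
      rw [h, map_zero] at hvy
      exact zero_ne_one hvy
    have hn1 := H50F.norm_mem pb (hcoV V) (hBB V y hvy.le)
    have hn2 := H50F.norm_mem pb (hcoV V) (hBB V y⁻¹ hvy'.le)
    rw [← V.1.valuation_le_one_iff] at hn1 hn2
    have hn3 : V.1.valuation (Algebra.norm F y) * V.1.valuation (Algebra.norm F y⁻¹) = 1 := by
      rw [← map_mul, ← map_mul, mul_inv_cancel₀ hy0, map_one, map_one]
    have hn4 : V.1.valuation (Algebra.norm F y) = 1 := by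
      refine le_antisymm hn1 ?_
      calc (1 : V.1.ValueGroup) = V.1.valuation (Algebra.norm F y) * V.1.valuation (Algebra.norm F y⁻¹) := hn3.symm
        _ ≤ V.1.valuation (Algebra.norm F y) * 1 := by gcongr
        _ = _ := mul_one _
    rw [← hvc, hxy, map_mul, map_mul, hn4, mul_one, Algebra.norm_algebraMap, hfr, map_pow]
  · intro V x k hk hx
    rw [halg, ← map_pow] at hx
    have hfk : f ^ k ≠ 0 := pow_ne_zero _ hf
    have hvfk : V.1.valuation (f ^ k) ≠ 0 := by rw [Ne, map_eq_zero]; exact hfk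
    have hfK : algebraMap F (AdjoinRoot P) (f ^ k) ≠ 0 := by rw [Ne, map_eq_zero]; exact hfk
    have hfV : f ^ k ∈ V.1 := by
      rw [← V.1.valuation_le_one_iff, map_pow]
      exact pow_le_one₀ zero_le (hZ V.1 V.2).2.2.2.le
    have h3 : v V ((x - 1) / algebraMap F (AdjoinRoot P) (f ^ k)) ≤ 1 := by
      rw [map_div₀, halg]
      exact (div_le_one₀ (zero_lt_iff.2 hvfk)).2 hx
    obtain ⟨y, hy, hy2⟩ := H50F.norm_one_add pb (hcoV V) (hBB V _ h3) hfV
    rw [mul_div_cancel₀ _ hfK, add_sub_cancel] at hy2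
    rw [← map_one (algebraMap F (AdjoinRoot P)), ← map_sub, halg, halg, hy2, add_sub_cancel_left, map_mul, map_pow]
    calc V.1.valuation f ^ k * V.1.valuation y ≤ V.1.valuation f ^ k * 1 := by
          gcongr
          exact (V.1.valuation_le_one_iff y).2 hy
      _ = _ := mul_one _
  · intro V
    rw [halg]
    exact (hZ V.1 V.2).2.2.2
  · intro V j
    rw [halg, V.1.valuation_le_one_iff]
    exact (hZ V.1 V.2).2.2.1 j
  · intro V s
    rw [halg, halg]
    exact (hZ V.1 V.2).2.1 s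

end CL
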