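import Pool.Agent.Lib.MP_defcf3_al.CL.IfaceB

/-!
Part (B), FinB: induction on n.
-/

open Polynomial

namespace CL

universe u

section FinBAux

variable {F L : Type u} [Field F] [Field L] [Algebra F L]

theorem finB_rep {θ : L} (htop : Algebra.adjoin F {θ} = ⊤) (hint : IsIntegral F θ) (x : L) (hx : x ≠ 0) :
    ∃ A : F[X], A ≠ 0 ∧ A.natDegree < nn F θ ∧ aeval θ A = x := by
  have hmem : x ∈ Algebra.adjoin F {θ} := by rw [htop]; exact Algebra.mem_top
  rw [Algebra.adjoin_singleton_eq_range_aeval] at hmem
  obtain ⟨B, hB⟩ := hmem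
  have hB' : aeval θ B = x := hB
  have hmon : (minpoly F θ).Monic := minpoly.monic hint
  have e1 : aeval θ (B %ₘ minpoly F θ) = x := by
    have := congrArg (aeval θ) (modByMonic_add_div B (minpoly F θ))
    rw [map_add, map_mul, minpoly.aeval, zero_mul, add_zero] at this
    rw [this, hB']
  refine ⟨B %ₘ minpoly F θ, ?_, ?_, e1⟩
  · intro h0
    rw [h0, map_zero] at e1
    exact hx e1.symm
  · refine natDegree_modByMonic_lt B hmon ?_
    intro h1
    have := minpoly.aeval F θ
    rw [h1, map_one] at this
    exact one_ne_zero this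

end FinBAux

theorem finB_proof (hSim : SimStatement.{u}) (hMilQ : MilQStatement.{u}) (hMil : MilStatement.{u})
    (hHf : HfStatement.{u}) (hHp : HpStatement.{u}) : FinBStatement.{u} := by
  intro n
  induction n using Nat.strong_induction_on with
  | _ n ih =>
    intro hn F L _ _ _ _ l p e Z θ T _ b hD
    have hconst : ∀ (x : L) (A : F[X]), x ≠ 0 → A ≠ 0 → A.natDegree < 1 →
        b x (aeval θ A) = 0 ∧ b (aeval θ A) x = 0 := by
      intro x A hx hA hdeg
      have hAc : A = C (A.coeff 0) := eq_C_of_natDegree_eq_zero (by omega)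
      have hc : A.coeff 0 ≠ 0 := by
        intro h0
        rw [h0, C_0] at hAc
        exact hA hAc
      refine hD.supp x A hx hA (by omega) ?_
      intro V _
      have := (hSim F V).2.2.2.2.1 1 (A.coeff 0) hc one_ne_zero
      rw [mul_one, ← hAc] at this
      exact this
    obtain ⟨-, hQ⟩ := hMilQ F L l p e n Z θ T b hD hn
    by_cases hq : p ∣ QQ l e n - 1
    swap
    · exact hQ hq
    have hst : ∀ r : ℕ, 1 ≤ r → r ≤ n → Stage F θ b r := by
      intro r hr
      induction r, hr using Nat.le_induction with
      | base =>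
        intro _ A B hA hB hdA hdB
        have hA0 : aeval θ A ≠ 0 := by
          intro h0
          have hAc : A = C (A.coeff 0) := eq_C_of_natDegree_eq_zero (by omega)
          rw [hAc, aeval_C, map_eq_zero] at h0
          rw [h0, C_0] at hAc
          exact hA hAc
        exact (hconst _ B hA0 hB hdB).1
      | succ r hr ihr =>
        intro hrn
        have hS : Stage F θ b r := ihr (by omega)
        obtain ⟨-, -, -, -, -, -, -, -, hnext⟩ := hMil F L l p e n r Z θ T b hD hr (by omega) hq hS
        refine hnext ?_
        intro P A hP hdeg hirr hA hdA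
        have hP0 : aeval θ P ≠ 0 := by
          intro h0
          have hdvd : minpoly F θ ∣ P := minpoly.dvd F θ h0
          have hle := natDegree_le_of_dvd hdvd hP.ne_zero
          have hdg : (minpoly F θ).natDegree = n := hD.deg
          omega
        rcases Nat.lt_or_ge r 2 with h2 | h2
        · exact (hconst _ A hP0 hA (by omega)).2
        · have hNum : Num F l p e n r Z := ⟨hD.lpr, hD.ppr, hD.two, hD.lp, hD.chr, hD.perf, hD.epos, h2, by omega,
            hD.np, hD.l2, hq, hD.fq⟩
          have hHF := hHf F L l p e n r Z θ T b hD h2 (by omega) hq hS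
          exact hHp F l p e n r Z P T (fun P A => b (aeval θ A) (aeval θ P)) (ih r (by omega) (by omega)) hNum hHF
            hP hdeg hirr A hA hdA
    intro x y hx hy
    obtain ⟨A, hA, hdA, rfl⟩ := finB_rep hD.top hD.int x hx
    obtain ⟨B, hB, hdB, rfl⟩ := finB_rep hD.top hD.int y hy
    have hdg : nn F θ = n := hD.deg
    exact hst n hn le_rfl A B hA hB (by omega) (by omega)

end CL
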