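import Pool.Agent.Lib.MP_defcf3_al.CL.BAlg

/-!
Project CL (MP_defcf3_al), part (B), row (3.2) of finding 4323: the Steinberg relation for all elements from the Steinberg
relation for the integral ones.
-/

namespace CL

namespace BSt

section abs

variable {K A : Type*} [Field K] [AddCommGroup A]

/-- A bimultiplicative antisymmetric symbol with values in a group without 2-torsion. -/
structure Sym (B : K → K → A) : Prop where
  tf : ∀ a : A, a + a = 0 → a = 0
  mul : ∀ x y z : K, x ≠ 0 → y ≠ 0 → z ≠ 0 → B (x * y) z = B x z + B y z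
  anti : ∀ x y : K, x ≠ 0 → y ≠ 0 → B x y = - B y x

/-- t is non-zero and in the radical of B. -/
def Rad (B : K → K → A) (t : K) : Prop := t ≠ 0 ∧ ∀ x : K, x ≠ 0 → B t x = 0

variable {B : K → K → A} (hB : Sym B)
include hB

theorem Sym.mul' {x y z : K} (hx : x ≠ 0) (hy : y ≠ 0) (hz : z ≠ 0) : B z (x * y) = B z x + B z y := by
  rw [hB.anti z (x * y) hz (mul_ne_zero hx hy), hB.mul x y z hx hy hz, hB.anti z x hz hx, hB.anti z y hz hy]
  abel

theorem Sym.one {x : K} (hx : x ≠ 0) : B 1 x = 0 := by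
  have := hB.mul 1 1 x one_ne_zero one_ne_zero hx
  rw [mul_one] at this
  exact left_eq_add.1 this

theorem Sym.one' {x : K} (hx : x ≠ 0) : B x 1 = 0 := by
  rw [hB.anti x 1 hx one_ne_zero, hB.one hx, neg_zero]

theorem Sym.inv {x y : K} (hx : x ≠ 0) (hy : y ≠ 0) : B x⁻¹ y = - B x y := by
  have := hB.mul x⁻¹ x y (inv_ne_zero hx) hx hy
  rw [inv_mul_cancel₀ hx, hB.one hy] at this
  exact eq_neg_of_add_eq_zero_left this.symm

theorem Sym.inv' {x y : K} (hx : x ≠ 0) (hy : y ≠ 0) : B y x⁻¹ = - B y x := by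
  rw [hB.anti y x⁻¹ hy (inv_ne_zero hx), hB.inv hx hy, hB.anti y x hy hx]

theorem Sym.div {x y z : K} (hx : x ≠ 0) (hy : y ≠ 0) (hz : z ≠ 0) : B (x / y) z = B x z - B y z := by
  rw [div_eq_mul_inv, hB.mul x y⁻¹ z hx (inv_ne_zero hy) hz, hB.inv hy hz, sub_eq_add_neg]

theorem Sym.div' {x y z : K} (hx : x ≠ 0) (hy : y ≠ 0) (hz : z ≠ 0) : B z (x / y) = B z x - B z y := by
  rw [div_eq_mul_inv, hB.mul' hx (inv_ne_zero hy) hz, hB.inv' hy hz, sub_eq_add_neg]

theorem Sym.self {x : K} (hx : x ≠ 0) : B x x = 0 := by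
  apply hB.tf
  nth_rw 1 [hB.anti x x hx hx]
  simp

theorem Rad.right {t : K} (ht : Rad B t) {x : K} (hx : x ≠ 0) : B x t = 0 := by
  rw [hB.anti x t hx ht.1, ht.2 x hx, neg_zero]

theorem Rad.mul {s t : K} (hs : Rad B s) (ht : Rad B t) : Rad B (s * t) :=
  ⟨mul_ne_zero hs.1 ht.1, fun x hx => by rw [hB.mul s t x hs.1 ht.1 hx, hs.2 x hx, ht.2 x hx, add_zero]⟩

theorem Rad.inv {t : K} (ht : Rad B t) : Rad B t⁻¹ :=
  ⟨inv_ne_zero ht.1, fun x hx => by rw [hB.inv ht.1 hx, ht.2 x hx, neg_zero]⟩

theorem Rad.div {s t : K} (hs : Rad B s) (ht : Rad B t) : Rad B (s / t) := by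
  rw [div_eq_mul_inv]
  exact hs.mul hB (ht.inv hB)

theorem Rad.neg_one : Rad B (-1 : K) := by
  refine ⟨neg_ne_zero.2 one_ne_zero, fun x hx => ?_⟩
  apply hB.tf
  have := hB.mul (-1) (-1) x (neg_ne_zero.2 one_ne_zero) (neg_ne_zero.2 one_ne_zero) hx
  rw [neg_mul_neg, mul_one, hB.one hx] at this
  exact this.symm

theorem Rad.mul_right {t : K} (ht : Rad B t) {x y : K} (hx : x ≠ 0) (hy : y ≠ 0) : B x (t * y) = B x y := by
  rw [hB.mul' ht.1 hy hx, ht.right hB hx, zero_add]

theorem Rad.mul_left {t : K} (ht : Rad B t) {x y : K} (hx : x ≠ 0) (hy : y ≠ 0) : B (t * x) y = B x y := by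
  rw [hB.mul t x y ht.1 hx hy, ht.2 y hy, zero_add]

end abs

section abs2

variable {K A : Type*} [Field K] [AddCommGroup A]

open Classical in
/-- d(x) = S(x, 1 - x), and 0 at x = 0, 1. -/
noncomputable def dd (B : K → K → A) (x : K) : A := if x = 0 ∨ x = 1 then 0 else B x (1 - x)

variable {B : K → K → A}

theorem dd_zero : dd B 0 = 0 := by simp [dd]

theorem dd_one : dd B 1 = 0 := by simp [dd]

theorem dd_eq {x : K} (h0 : x ≠ 0) (h1 : x ≠ 1) : dd B x = B x (1 - x) := by
  unfold dd
  rw [if_neg]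
  rintro (h | h)
  · exact h0 h
  · exact h1 h

variable (hB : Sym B)
include hB

theorem dd_one_sub (x : K) : dd B (1 - x) = - dd B x := by
  by_cases h0 : x = 0
  · rw [h0, sub_zero, dd_one, dd_zero, neg_zero]
  by_cases h1 : x = 1
  · rw [h1, sub_self, dd_one, dd_zero, neg_zero]
  have hX : 1 - x ≠ 0 := sub_ne_zero.2 (Ne.symm h1)
  have hX1 : 1 - x ≠ 1 := by
    intro h
    exact h0 (by linear_combination -h)
  rw [dd_eq hX hX1, dd_eq h0 h1, sub_sub_cancel, hB.anti _ _ hX h0]

theorem dd_inv {x : K} (h0 : x ≠ 0) : dd B x⁻¹ = - dd B x := by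
  by_cases h1 : x = 1
  · rw [h1, inv_one, dd_one, neg_zero]
  have hX : 1 - x ≠ 0 := sub_ne_zero.2 (Ne.symm h1)
  have h0' : x⁻¹ ≠ 0 := inv_ne_zero h0
  have h1' : x⁻¹ ≠ 1 := by
    intro h
    apply h1
    rw [← inv_inv x, h, inv_one]
  have e : 1 - x⁻¹ = (-1) * ((1 - x) / x) := by
    field_simp
    ring
  rw [dd_eq h0' h1', dd_eq h0 h1, e, (Rad.neg_one hB).mul_right hB h0' (div_ne_zero hX h0),
    hB.inv h0 (div_ne_zero hX h0), hB.div' hX h0 h0, hB.self h0, sub_zero]

/-- The five term relation. -/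
theorem dd_five {a t : K} (ha0 : a ≠ 0) (ha1 : a ≠ 1) (ht0 : t ≠ 0) (ht1 : t ≠ 1) (hat : a ≠ t) :
    dd B a - dd B t + dd B (t / a) - dd B ((1 - a) * t / (a * (1 - t))) + dd B ((1 - a) / (1 - t)) = 0 := by
  have hX : 1 - a ≠ 0 := sub_ne_zero.2 (Ne.symm ha1)
  have hY : 1 - t ≠ 0 := sub_ne_zero.2 (Ne.symm ht1)
  have hD : a - t ≠ 0 := sub_ne_zero.2 hat
  have e1 : 1 - t / a = (a - t) / a := by field_simp
  have e4 : 1 - (1 - a) * t / (a * (1 - t)) = (a - t) / (a * (1 - t)) := by
    rw [eq_div_iff (mul_ne_zero ha0 hY), sub_mul, div_mul_cancel₀ _ (mul_ne_zero ha0 hY)]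
    ring
  have e5 : 1 - (1 - a) / (1 - t) = (a - t) / (1 - t) := by
    rw [eq_div_iff hY, sub_mul, div_mul_cancel₀ _ hY]
    ring
  have n1 : t / a ≠ 1 := by
    intro h
    rw [h, sub_self] at e1
    exact div_ne_zero hD ha0 e1.symm
  have n4 : (1 - a) * t / (a * (1 - t)) ≠ 1 := by
    intro h
    rw [h, sub_self] at e4
    exact div_ne_zero hD (mul_ne_zero ha0 hY) e4.symm
  have n5 : (1 - a) / (1 - t) ≠ 1 := by
    intro h
    rw [h, sub_self] at e5
    exact div_ne_zero hD hY e5.symm
  have m4 : (1 - a) * t / (a * (1 - t)) ≠ 0 := div_ne_zero (mul_ne_zero hX ht0) (mul_ne_zero ha0 hY)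
  rw [dd_eq ha0 ha1, dd_eq ht0 ht1, dd_eq (div_ne_zero ht0 ha0) n1, dd_eq m4 n4, dd_eq (div_ne_zero hX hY) n5,
    e1, e4, e5]
  have haY := mul_ne_zero ha0 hY
  rw [hB.div ht0 ha0 (div_ne_zero hD ha0), hB.div' hD ha0 ht0, hB.div' hD ha0 ha0,
    hB.div (mul_ne_zero hX ht0) haY (div_ne_zero hD haY), hB.mul _ _ _ hX ht0 (div_ne_zero hD haY),
    hB.mul _ _ _ ha0 hY (div_ne_zero hD haY), hB.div' hD haY hX, hB.div' hD haY ht0, hB.div' hD haY ha0,
    hB.div' hD haY hY, hB.mul' ha0 hY hX, hB.mul' ha0 hY ht0, hB.mul' ha0 hY ha0, hB.mul' ha0 hY hY,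
    hB.div hX hY (div_ne_zero hD hY), hB.div' hD hY hX, hB.div' hD hY hY, hB.self ha0, hB.self hY,
    hB.anti (1 - a) a hX ha0, hB.anti (1 - t) a hY ha0]
  abel

end abs2

theorem aux_max {Γ : Type*} [LinearOrderedCommGroupWithZero Γ] {x c d : Γ} (hd : 0 < d) (h : x ≤ max d c) :
    x ≤ max 1 (c / d) * d := by
  rcases le_max_iff.1 h with h | h
  · calc x ≤ 1 * d := by rwa [one_mul]
      _ ≤ max 1 (c / d) * d := by
        gcongr
        exact le_max_left _ _
  · calc x ≤ c / d * d := by rwa [div_mul_cancel₀ _ hd.ne']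
      _ ≤ max 1 (c / d) * d := by
        gcongr
        exact le_max_right _ _

/-- Full Steinberg relation, (3.2) of finding 4323. -/
theorem steinberg_full {K F A ι : Type*} [Field K] [Field F] [Algebra F K] [AddCommGroup A]
    {Γ : ι → Type*} [∀ i, LinearOrderedCommGroupWithZero (Γ i)] (v : ∀ i, Valuation K (Γ i))
    (B : K → K → A) (hB : Sym B) (r : ℕ) (hr : 2 ≤ r) (N : K → F) (hN0 : ∀ x, x ≠ 0 → N x ≠ 0)
    (hN : ∀ i x, v i (algebraMap F K (N x)) = v i x ^ r) (ρ : K)
    (hρ : ∀ i (c d : F), v i (algebraMap F K c + algebraMap F K d * ρ) =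
      max (v i (algebraMap F K c)) (v i (algebraMap F K d)))
    (hK : ∀ w : K, w ≠ 0 → w ≠ 1 → (∀ i, v i w ≤ 1) → B w (1 - w) = 0) :
    ∀ w : K, w ≠ 0 → w ≠ 1 → B w (1 - w) = 0 := by
  classical
  rcases isEmpty_or_nonempty ι with hι | hι
  · intro w h0 h1
    exact hK w h0 h1 fun i => (hι.false i).elim
  obtain ⟨i0⟩ := hι
  -- AVOID
  have avoid : ∀ z : K, (∀ i, v i (1 - z) = max 1 (v i z)) → dd B z = 0 := by
    intro z hz
    have hz1 : 1 - z ≠ 0 := by
      intro h
      have := hz i0
      rw [h, map_zero] at this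
      have h1 : (1 : Γ i0) ≤ 0 := by
        rw [this]
        exact le_max_left _ _
      exact absurd h1 (not_le.2 zero_lt_one)
    by_cases h0 : z = 0
    · rw [h0, dd_zero]
    have hu0 : (1 - z)⁻¹ ≠ 0 := inv_ne_zero hz1
    have hu1 : (1 - z)⁻¹ ≠ 1 := by
      intro h
      have h2 : 1 - z = 1 := by rw [← inv_inv (1 - z), h, inv_one]
      exact h0 (by linear_combination -h2)
    have h1 := hK _ hu0 hu1 fun i => by
      rw [map_inv₀]
      apply inv_le_one_of_one_le₀
      rw [hz i]
      exact le_max_left _ _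
    rw [← dd_eq (B := B) hu0 hu1, dd_inv hB hz1, dd_one_sub hB, neg_neg] at h1
    exact h1
  -- nonscalar units
  let NSU : K → Prop := fun μ => ∀ i (s : F), v i (μ - algebraMap F K s) = max 1 (v i (algebraMap F K s))
  have nsu1 : ∀ μ, NSU μ → ∀ i, v i μ = 1 := by
    intro μ hμ i
    have := hμ i 0
    simpa using this
  have nsu0 : ∀ μ, NSU μ → μ ≠ 0 := by
    rintro μ hμ rfl
    have := nsu1 0 hμ i0
    rw [map_zero] at this
    exact zero_ne_one this
  have nsuz : ∀ μ, NSU μ → ∀ i (z : F), v i (1 - algebraMap F K z * μ) = max 1 (v i (algebraMap F K z)) := by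
    intro μ hμ i z
    by_cases hz : z = 0
    · rw [hz]
      simp
    have hzK : algebraMap F K z ≠ 0 := by
      rw [Ne, map_eq_zero]
      exact hz
    have e : 1 - algebraMap F K z * μ = -(algebraMap F K z * (μ - algebraMap F K z⁻¹)) := by
      rw [map_inv₀]
      field_simp
      ring
    have hvz : v i (algebraMap F K z) ≠ 0 := (Valuation.ne_zero_iff _).2 hzK
    rw [e, Valuation.map_neg, map_mul, hμ i, map_inv₀, map_inv₀]
    rcases le_total 1 (v i (algebraMap F K z)) with h | h
    · rw [max_eq_left (inv_le_one_of_one_le₀ h), mul_one, max_eq_right h]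
    · rw [max_eq_right ((one_le_inv₀ (zero_lt_iff.2 hvz)).2 h), mul_inv_cancel₀ hvz, max_eq_left h]
  -- STEP
  have step : ∀ (a : K) (z : F) (μ : K), a ≠ 0 → z ≠ 0 → NSU μ →
      (∀ i, 1 < v i a → v i (algebraMap F K z) ≤ (v i a)⁻¹) →
      (∀ i, v i a < 1 → (v i a)⁻¹ ≤ v i (algebraMap F K z)) → dd B a = dd B (algebraMap F K z * μ * a) := by
    intro a z μ ha hz hμ h1 h2
    have hzK : algebraMap F K z ≠ 0 := by
      rw [Ne, map_eq_zero]
      exact hz
    have hμ0 := nsu0 μ hμ
    have hzμ : dd B (algebraMap F K z * μ) = 0 := by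
      apply avoid
      intro i
      rw [nsuz μ hμ i z, map_mul, nsu1 μ hμ i, mul_one]
    by_cases ha1 : a = 1
    · rw [ha1, dd_one, mul_one, hzμ]
    by_cases ht1 : algebraMap F K z * μ * a = 1
    · rw [ht1, dd_one]
      have : a = (algebraMap F K z * μ)⁻¹ := eq_inv_of_mul_eq_one_right ht1
      rw [this, dd_inv hB (mul_ne_zero hzK hμ0), hzμ, neg_zero]
    set t := algebraMap F K z * μ * a with ht
    have ht0 : t ≠ 0 := mul_ne_zero (mul_ne_zero hzK hμ0) ha
    have hX : 1 - a ≠ 0 := sub_ne_zero.2 (Ne.symm ha1)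
    have hY : 1 - t ≠ 0 := sub_ne_zero.2 (Ne.symm ht1)
    have hta : t / a = algebraMap F K z * μ := by
      rw [ht]
      field_simp
    have hone : algebraMap F K z * μ ≠ 1 := by
      intro h
      have := nsuz μ hμ i0 z
      rw [h, sub_self, map_zero] at this
      have h3 : (1 : Γ i0) ≤ 0 := by
        rw [this]
        exact le_max_left _ _
      exact absurd h3 (not_le.2 zero_lt_one)
    have hat : a ≠ t := by
      intro h
      apply hone
      rw [← hta, ← h, div_self ha]
    -- sizes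
    have key : ∀ i, v i (algebraMap F K z) * v i (1 - a) ≤ max 1 (v i (algebraMap F K z)) ∧
        v i (1 - a) ≤ v i a * max 1 (v i (algebraMap F K z)) := by
      intro i
      have hva : v i a ≠ 0 := (Valuation.ne_zero_iff _).2 ha
      have hvap : 0 < v i a := zero_lt_iff.2 hva
      have hle : v i (1 - a) ≤ max 1 (v i a) := by
        refine (Valuation.map_sub _ _ _).trans ?_
        rw [map_one]
      rcases lt_trichotomy (v i a) 1 with h | h | h
      · rw [max_eq_left h.le] at hle
        refine ⟨?_, ?_⟩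
        · calc v i (algebraMap F K z) * v i (1 - a) ≤ v i (algebraMap F K z) * 1 := by gcongr
            _ = v i (algebraMap F K z) := mul_one _
            _ ≤ _ := le_max_right _ _
        · calc v i (1 - a) ≤ 1 := hle
            _ = v i a * (v i a)⁻¹ := (mul_inv_cancel₀ hva).symm
            _ ≤ v i a * max 1 (v i (algebraMap F K z)) := by
              gcongr
              exact (h2 i h).trans (le_max_right _ _)
      · rw [h, max_self] at hle
        refine ⟨?_, ?_⟩
        · calc v i (algebraMap F K z) * v i (1 - a) ≤ v i (algebraMap F K z) * 1 := by gcongr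
            _ = v i (algebraMap F K z) := mul_one _
            _ ≤ _ := le_max_right _ _
        · rw [h, one_mul]
          exact hle.trans (le_max_left _ _)
      · rw [max_eq_right h.le] at hle
        refine ⟨?_, ?_⟩
        · calc v i (algebraMap F K z) * v i (1 - a) ≤ (v i a)⁻¹ * v i a := by
                gcongr
                exact h1 i h
            _ = 1 := inv_mul_cancel₀ hva
            _ ≤ _ := le_max_left _ _
        · calc v i (1 - a) ≤ v i a := hle
            _ = v i a * 1 := (mul_one _).symm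
            _ ≤ _ := by
              gcongr
              exact le_max_left _ _
    -- x4 avoids 1
    have e4' : (1 - a) * t / (a * (1 - t)) = algebraMap F K z * μ * (1 - a) / (1 - t) := by
      rw [ht]
      rw [ht] at hY
      field_simp
    have e4 : 1 - (1 - a) * t / (a * (1 - t)) = (1 - algebraMap F K z * μ) / (1 - t) := by
      rw [e4', eq_div_iff hY, sub_mul, div_mul_cancel₀ _ hY, ht]
      ring
    have v4 : ∀ i, v i (1 - (1 - a) * t / (a * (1 - t))) = max 1 (v i ((1 - a) * t / (a * (1 - t)))) := by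
      intro i
      have hvY : v i (1 - t) ≠ 0 := (Valuation.ne_zero_iff _).2 hY
      have hvYp : 0 < v i (1 - t) := zero_lt_iff.2 hvY
      rw [e4, e4', map_div₀, map_div₀, map_mul, map_mul, nsu1 μ hμ i, mul_one, nsuz μ hμ i z]
      apply le_antisymm
      · rw [div_le_iff₀ hvYp]
        have h3 : v i (1 - algebraMap F K z * μ) ≤ max (v i (1 - t)) (v i (algebraMap F K z) * v i (1 - a)) := by
          have e : 1 - algebraMap F K z * μ = (1 - t) - algebraMap F K z * μ * (1 - a) := by
            rw [ht]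
            ring
          rw [e]
          refine (Valuation.map_sub _ _ _).trans ?_
          rw [map_mul, map_mul, nsu1 μ hμ i, mul_one]
        rw [nsuz μ hμ i z] at h3
        exact aux_max hvYp h3
      · refine max_le ?_ ?_
        · rw [le_div_iff₀ hvYp, one_mul]
          have e : 1 - t = (1 - algebraMap F K z * μ) + algebraMap F K z * μ * (1 - a) := by
            rw [ht]
            ring
          rw [e]
          refine (Valuation.map_add _ _ _).trans (max_le ?_ ?_)
          · rw [nsuz μ hμ i z]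
          · rw [map_mul, map_mul, nsu1 μ hμ i, mul_one]
            exact (key i).1
        · rw [div_le_div_iff_of_pos_right hvYp]
          exact (key i).1
    -- x5 avoids 1
    have e5 : 1 - (1 - a) / (1 - t) = a * (1 - algebraMap F K z * μ) / (1 - t) := by
      rw [eq_div_iff hY, sub_mul, div_mul_cancel₀ _ hY, ht]
      ring
    have v5 : ∀ i, v i (1 - (1 - a) / (1 - t)) = max 1 (v i ((1 - a) / (1 - t))) := by
      intro i
      have hvY : v i (1 - t) ≠ 0 := (Valuation.ne_zero_iff _).2 hY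
      have hvYp : 0 < v i (1 - t) := zero_lt_iff.2 hvY
      rw [e5, map_div₀, map_div₀, map_mul, nsuz μ hμ i z]
      have e : a * (1 - algebraMap F K z * μ) = (1 - t) - (1 - a) := by
        rw [ht]
        ring
      apply le_antisymm
      · rw [div_le_iff₀ hvYp]
        have h3 : v i (a * (1 - algebraMap F K z * μ)) ≤ max (v i (1 - t)) (v i (1 - a)) := by
          rw [e]
          exact Valuation.map_sub _ _ _
        rw [map_mul, nsuz μ hμ i z] at h3
        exact aux_max hvYp h3
      · refine max_le ?_ ?_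
        · rw [le_div_iff₀ hvYp, one_mul]
          have e' : 1 - t = a * (1 - algebraMap F K z * μ) + (1 - a) := by
            rw [e]
            ring
          rw [e']
          refine (Valuation.map_add _ _ _).trans (max_le ?_ (key i).2)
          rw [map_mul, nsuz μ hμ i z]
        · rw [div_le_div_iff_of_pos_right hvYp]
          exact (key i).2
    have h5 := dd_five hB ha ha1 ht0 ht1 hat
    rw [hta, hzμ, avoid _ v4, avoid _ v5, add_zero, sub_zero, add_zero] at h5
    exact sub_eq_zero.1 h5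
  -- two steps
  have two : ∀ (a μ μ' : K), a ≠ 0 → NSU μ → NSU μ' → dd B a = dd B (μ * μ' * a) := by
    intro a μ μ' ha hμ hμ'
    have hNa : N a ≠ 0 := hN0 a ha
    have hNaK : algebraMap F K (N a) ≠ 0 := by
      rw [Ne, map_eq_zero]
      exact hNa
    have hμ0 := nsu0 μ hμ
    have s1 := step a (N a)⁻¹ μ ha (inv_ne_zero hNa) hμ
      (by
        intro i h
        rw [map_inv₀, map_inv₀, hN i a]
        have hp : 0 < v i a := zero_lt_one.trans h
        rw [inv_le_inv₀ (pow_pos hp _) hp]
        calc v i a = v i a ^ 1 := (pow_one _).symm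
          _ ≤ v i a ^ r := pow_le_pow_right₀ h.le (by omega))
      (by
        intro i h
        rw [map_inv₀, map_inv₀, hN i a]
        have hp : 0 < v i a := zero_lt_iff.2 ((Valuation.ne_zero_iff _).2 ha)
        rw [inv_le_inv₀ hp (pow_pos hp _)]
        calc v i a ^ r ≤ v i a ^ 1 := pow_le_pow_right_of_le_one' h.le (by omega)
          _ = v i a := pow_one _)
    have hva' : ∀ i, v i (algebraMap F K (N a)⁻¹ * μ * a) = (v i a ^ (r - 1))⁻¹ := by
      intro i
      have hva : v i a ≠ 0 := (Valuation.ne_zero_iff _).2 ha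
      rw [map_mul, map_mul, nsu1 μ hμ i, mul_one, map_inv₀, map_inv₀, hN i a]
      have : v i a ^ r = v i a ^ (r - 1) * v i a := by
        rw [← pow_succ]
        congr 1
        omega
      rw [this, mul_inv, mul_assoc, inv_mul_cancel₀ hva, mul_one]
    have s2 := step (algebraMap F K (N a)⁻¹ * μ * a) (N a) μ'
      (mul_ne_zero (mul_ne_zero (by rw [map_inv₀]; exact inv_ne_zero hNaK) hμ0) ha) hNa hμ'
      (by
        intro i h
        rw [hva' i] at h ⊢
        rw [hN i a, inv_inv]
        have hp : 0 < v i a := zero_lt_iff.2 ((Valuation.ne_zero_iff _).2 ha)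
        have hlt : v i a < 1 := by
          by_contra hcon
          have := one_le_pow₀ (n := r - 1) (not_lt.1 hcon)
          exact absurd h (not_lt.2 (inv_le_one_of_one_le₀ this))
        exact pow_le_pow_right_of_le_one' hlt.le (by omega))
      (by
        intro i h
        rw [hva' i] at h ⊢
        rw [hN i a, inv_inv]
        have hp : 0 < v i a := zero_lt_iff.2 ((Valuation.ne_zero_iff _).2 ha)
        have hlt : 1 < v i a := by
          by_contra hcon
          have h3 : v i a ^ (r - 1) ≤ 1 := pow_le_one' (not_lt.1 hcon) _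
          exact absurd h (not_lt.2 ((one_le_inv₀ (pow_pos hp _)).2 h3))
        exact pow_le_pow_right₀ hlt.le (by omega))
    rw [s1, s2]
    congr 1
    rw [map_inv₀]
    field_simp
  -- special nonscalar units
  have hmaxadd : ∀ i (s : F), max (v i (algebraMap F K (1 - s))) 1 = max 1 (v i (algebraMap F K s)) := by
    intro i s
    rw [map_sub, map_one]
    apply le_antisymm
    · exact max_le (by simpa using Valuation.map_sub (v i) 1 (algebraMap F K s)) (le_max_left _ _)
    · refine max_le (le_max_right _ _) ?_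
      have := Valuation.map_sub (v i) 1 (1 - algebraMap F K s)
      rwa [sub_sub_cancel, map_one, max_comm] at this
  have n1 : NSU ρ := by
    intro i s
    have e : ρ - algebraMap F K s = algebraMap F K (-s) + algebraMap F K 1 * ρ := by
      rw [map_neg, map_one]
      ring
    rw [e, hρ i, map_neg, Valuation.map_neg, map_one, map_one, max_comm]
  have n2 : NSU (1 + ρ) := by
    intro i s
    have e : 1 + ρ - algebraMap F K s = algebraMap F K (1 - s) + algebraMap F K 1 * ρ := by
      rw [map_sub, map_one]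
      ring
    rw [e, hρ i, map_one, map_one, hmaxadd i s]
  have hρ0 := nsu0 ρ n1
  have hρ1 := nsu0 (1 + ρ) n2
  have hvρ := nsu1 ρ n1
  have hvρ1 := nsu1 (1 + ρ) n2
  have n3 : NSU (-ρ⁻¹) := by
    intro i s
    have e : -ρ⁻¹ - algebraMap F K s = -((algebraMap F K 1 + algebraMap F K s * ρ) / ρ) := by
      rw [map_one]
      field_simp
      ring
    rw [e, Valuation.map_neg, map_div₀, hvρ i, div_one, hρ i, map_one, map_one]
  have n4 : NSU (ρ / (1 + ρ)) := by
    intro i s
    have e : ρ / (1 + ρ) - algebraMap F K s = (algebraMap F K (-s) + algebraMap F K (1 - s) * ρ) / (1 + ρ) := by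
      rw [map_neg, map_sub, map_one]
      field_simp
      ring
    rw [e, map_div₀, hvρ1 i, div_one, hρ i, map_neg, Valuation.map_neg]
    have h := hmaxadd i s
    rw [max_comm] at h
    apply le_antisymm
    · refine max_le (le_max_right _ _) ?_
      rw [← h]
      exact le_max_right _ _
    · refine max_le ?_ (le_max_left _ _)
      have h2 := Valuation.map_add (v i) (algebraMap F K s) (algebraMap F K (1 - s))
      rwa [map_sub, map_one, add_sub_cancel, map_one, ← map_one (algebraMap F K), ← map_sub] at h2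
  have n5 : NSU ((1 + ρ) / ρ) := by
    intro i s
    have e : (1 + ρ) / ρ - algebraMap F K s = (algebraMap F K 1 + algebraMap F K (1 - s) * ρ) / ρ := by
      rw [map_sub, map_one]
      field_simp
      ring
    rw [e, map_div₀, hvρ i, div_one, hρ i, map_one, map_one, ← hmaxadd i s, max_comm]
  have d1 : ∀ a : K, dd B (-a) = dd B a := by
    intro a
    by_cases ha : a = 0
    · rw [ha, neg_zero]
    rw [two a ρ (-ρ⁻¹) ha n1 n3]
    congr 1
    field_simp
  have d2 : ∀ a : K, dd B (ρ * a) = dd B a := by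
    intro a
    by_cases ha : a = 0
    · rw [ha, mul_zero]
    rw [two a (1 + ρ) (ρ / (1 + ρ)) ha n2 n4]
    congr 1
    field_simp
  have d3 : ∀ a : K, dd B ((1 + ρ) * a) = dd B a := by
    intro a
    by_cases ha : a = 0
    · rw [ha, mul_zero]
    rw [two a ρ ((1 + ρ) / ρ) ha n1 n5]
    congr 1
    field_simp
  have f1 : ∀ y : K, dd B (1 + y) = - dd B y := by
    intro y
    have := dd_one_sub hB (-y)
    rw [sub_neg_eq_add, d1] at this
    exact this
  have f2 : ∀ y : K, dd B (ρ + y) = - dd B y := by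
    intro y
    have e : ρ + y = ρ * (1 + ρ⁻¹ * y) := by
      field_simp
    rw [e, d2, f1, ← d2 (ρ⁻¹ * y), mul_inv_cancel_left₀ hρ0]
  have f3 : ∀ y : K, dd B ((1 + ρ) + y) = - dd B y := by
    intro y
    have e : (1 + ρ) + y = (1 + ρ) * (1 + (1 + ρ)⁻¹ * y) := by
      field_simp
    rw [e, d3, f1, ← d3 ((1 + ρ)⁻¹ * y), mul_inv_cancel_left₀ hρ1]
  intro w h0 h1
  rw [← dd_eq (B := B) h0 h1]
  apply hB.tf
  have h3 := f3 w
  rw [add_assoc, f1, f2, neg_neg] at h3
  nth_rw 1 [h3]
  simp

end BSt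

universe u

theorem fullSt_proof : FullStStatement.{u} := by
  intro F K _ _ _ _ I _ Γ _ v c0 r ρ f D C k T _ _ _ S hFam h2 hS hK
  have hB : BSt.Sym S := by
    refine ⟨fun a ha => ?_, hS.mull, fun x y hx hy => ?_⟩
    · have h : (2 : k) • a = 0 := by rw [two_smul, ha]
      rcases smul_eq_zero.1 h with h | h
      · exact absurd h h2
      · exact h
    · have h := hS.self (x * y) (mul_ne_zero hx hy)
      rw [hS.mull x y _ hx hy (mul_ne_zero hx hy), hS.mulr x x y hx hx hy, hS.mulr y x y hy hx hy, hS.self x hx,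
        hS.self y hy, zero_add, add_zero] at h
      exact eq_neg_of_add_eq_zero_left h
  refine BSt.steinberg_full v S hB r hFam.two (fun x => Algebra.norm F x) (fun x hx => Algebra.norm_ne_zero_iff.2 hx)
    hFam.vnm ρ ?_ hK
  intro i c d
  have hc : c0 (algebraMap F K c + algebraMap F K d * ρ) = c := by
    rw [map_add, ← Algebra.smul_def, map_smul, hFam.crho, smul_zero, add_zero, Algebra.algebraMap_eq_smul_one,
      map_smul, hFam.c1, smul_eq_mul, mul_one]
  have h := hFam.vmax i (algebraMap F K c + algebraMap F K d * ρ)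
  rw [hc, add_sub_cancel_left, map_mul (v i), hFam.vrho i, mul_one] at h
  exact h

end CL
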