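import Pool.Agent.Lib.MP_defcf3_al.CL.Mzp

/-!
Project CL (MP_defcf3_al), part (B), row Gen: (5.4) of finding 4324, the pair relation on Z_a.
-/

open Polynomial

namespace CL

universe u

namespace GenH

theorem qk (l e n K : ℕ) : QQ l e n ^ K = l ^ (e * n.factorial * K) := by
  rw [QQ, ← pow_mul]

section Quot

variable {F : Type u} [Field F] {l p e n r : ℕ} {Z : Set (ValuationSubring F)} {P : F[X]} {a : ℕ}
  {f : F} {D : ℕ} {Cp : F[X]} {E : ℕ} {cont : F[X] → F} {H : F → F → F} {K mm : ℕ} {T : Type u} [AddCommGroup T]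
  {h Ef : F[X] → F[X] → T}

/-- The quotient lemma: if W and T agree at the bad places of P_X outside Z_a, then h and E agree on W/T. -/
theorem quot (hSim : SimStatement.{u}) (hPx : PxStatement.{u}) (hC : Ctx F l p e n r Z P a f D Cp E cont H K mm)
    (hH : HF F l p e n r Z h) (hE : EP F l e n r Z P a f K mm h Ef) {X : F[X]}
    (hX : PA Z l e n a r P f mm X) {W S : F[X]} (hW : W ≠ 0) (hWd : W.natDegree < r) (hS : S ≠ 0)
    (hSd : S.natDegree < r)
    (hs : ∀ V ∈ Bd Z (QQ l e n) (PX l e n K P X), V ∉ Za Z l e n a P → PSim V W S) :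
    h (PX l e n K P X) W - h (PX l e n K P X) S = Ef W X - Ef S X := by
  obtain ⟨-, -, x3, x4⟩ := hPx F l p e n r Z P a f D Cp E cont H K mm hC
  obtain ⟨y1, y2, y3, y4⟩ := x4 X hX
  have hr2 := hC.num.r2
  have hI : Fact (Irreducible (PX l e n K P X)) := ⟨y4⟩
  set R := AdjoinRoot.modByMonicHom y1 (AdjoinRoot.mk _ W / AdjoinRoot.mk _ S) with hR
  have hWK : AdjoinRoot.mk (PX l e n K P X) W ≠ 0 := MzpH.mk_ne hW (by omega)
  have hSK : AdjoinRoot.mk (PX l e n K P X) S ≠ 0 := MzpH.mk_ne hS (by omega)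
  have hR0 : R ≠ 0 := MzpH.rep_ne y1 (div_ne_zero hWK hSK)
  have hRd : R.natDegree < r := by
    rw [← y2]
    exact MzpH.rep_lt y1 _
  have hRS : (R * S) %ₘ (PX l e n K P X) = W := by
    have h1 := MzpH.rep_mul y1 (AdjoinRoot.mk _ W / AdjoinRoot.mk _ S) (AdjoinRoot.mk _ S)
    rw [div_mul_cancel₀ _ hSK, MzpH.rep_mk y1 (by omega), MzpH.rep_mk y1 (by omega)] at h1
    exact h1.symm
  have h1S : (1 * S) %ₘ (PX l e n K P X) = S := by
    rw [one_mul, modByMonic_eq_self_iff y1]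
    exact degree_lt_degree (by omega)
  have hR1 : ∀ V ∈ Bd Z (QQ l e n) (PX l e n K P X), V ∉ Za Z l e n a P → PSim V R 1 := by
    intro V hV hV2
    obtain ⟨s1, s2, s3, s4, s5, s6, s7, s8, s9⟩ := hSim F V
    refine s7 (PX l e n K P X) R 1 S y1 (by omega) hV.2.1 (by omega) (by rw [natDegree_one]; omega) (by omega) hS ?_
    rw [hRS, h1S]
    exact hs V hV hV2
  have e1 := hE.e0 X hX R hR0 hRd hR1
  have e2 := hH.mul (PX l e n K P X) R S y1 y2 y4 hR0 hRd hS hSd
  rw [hRS] at e2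
  have hmc : (R * S) %ₘ P ≠ 0 := by
    intro h0
    have hI2 : Fact (Irreducible P) := ⟨hC.irr⟩
    have hd := hC.deg
    have n1 : AdjoinRoot.mk P R ≠ 0 := MzpH.mk_ne hR0 (by omega)
    have n2 : AdjoinRoot.mk P S ≠ 0 := MzpH.mk_ne hS (by omega)
    apply mul_ne_zero n1 n2
    rw [← map_mul, AdjoinRoot.mk_eq_zero]
    exact (modByMonic_eq_zero_iff_dvd hC.mon).1 h0
  have hmd : ((R * S) %ₘ P).natDegree < r := by
    rw [← hC.deg]
    refine natDegree_modByMonic_lt _ hC.mon ?_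
    intro h1
    exact hC.irr.not_isUnit (by rw [h1]; exact isUnit_one)
  have e3 : Ef W X = Ef ((R * S) %ₘ P) X := by
    refine hE.cls X hX W ((R * S) %ₘ P) hW hWd hmc hmd fun V hV => ?_
    obtain ⟨s1, s2, s3, s4, s5, s6, s7, s8, s9⟩ := hSim F V
    have hd := hC.deg
    have := s8 P (PX l e n K P X) R S hC.mon (by omega) (x3 V hV).1.2.1 y1 (by omega) (y3 V hV).1 hR0 hS
      (by omega) (by omega)
    rwa [hRS] at this
  rw [e3, hE.mul X hX R S hR0 hRd hS hSd, e2, ← e1]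
  abel

end Quot

end GenH

open GenH in
/-- (5.4). -/
theorem gen_proof (hPn : PnStatement.{u}) (hTw : TwpStatement.{u}) (hSim : SimStatement.{u})
    (hPx : PxStatement.{u}) : GenStatement.{u} := by
  intro F _ l p e n r Z P a f D Cp E cont H K mm T _ h Ef hC hH hE X Y hX hY hXY h1 h2
  have hl := hC.num.lpr
  have hc := hC.num.chr
  have hp := hC.num.perf
  obtain ⟨t1, t2, t3, t4, t5, t6, t7⟩ := hTw F l hl hc hp
  obtain ⟨-, -, x3, x4⟩ := hPx F l p e n r Z P a f D Cp E cont H K mm hC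
  obtain ⟨y1, y2, y3, y4⟩ := x4 X hX
  obtain ⟨z1, z2, z3, z4⟩ := x4 Y hY
  have hr2 := hC.num.r2
  -- the exponent i
  have hQ2 : 2 ≤ QQ l e n := by
    have h3 : 1 ≤ e * n.factorial := Nat.mul_pos hC.num.epos (Nat.factorial_pos n)
    calc 2 ≤ l := hl.two_le
      _ ≤ l ^ (e * n.factorial) := Nat.le_self_pow (by omega) l
  set i := mm + 1 with hi
  have hQi : mm + 1 < QQ l e n ^ i := by
    calc mm + 1 < 2 ^ (mm + 1) := Nat.lt_two_pow_self
      _ ≤ QQ l e n ^ i := Nat.pow_le_pow_left hQ2 _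
  set PXX := PX l e n K P X with hPXX
  set PXY := PX l e n K P Y with hPXY
  set W := PXX - tw (QQ l e n ^ i) PXY with hW
  have hWX : W - X = (tw (QQ l e n ^ K) P - tw (QQ l e n ^ (K + i)) P) - tw (QQ l e n ^ i) Y := by
    rw [hW, hPXX, hPXY, PX, PX, qk, qk, qk, (t1 _ _ _).1, t4]
    rw [show e * n.factorial * i + e * n.factorial * K = e * n.factorial * (K + i) by ring]
    ring
  have hWXn : ∀ V ∈ Za Z l e n a P, pn V (W - X) < pn V X := by
    intro V hV
    obtain ⟨q1, q2, q3, q4, q5, -⟩ := hPn F V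
    obtain ⟨-, f1, f2⟩ := x3 V hV
    have b1 := hC.deep V hV i
    have b2 : pn V (tw (QQ l e n ^ i) Y) ≤ V.valuation f ^ (mm + 1) := by
      rw [qk, t5, ← qk]
      calc pn V Y ^ QQ l e n ^ i ≤ V.valuation f ^ QQ l e n ^ i := by
            gcongr
            exact (hY.2.2 V hV).2
        _ ≤ V.valuation f ^ (mm + 1) := pow_le_pow_right_of_le_one' f1.le hQi.le
    have b3 : pn V (W - X) ≤ V.valuation f ^ (mm + 1) := by
      rw [hWX, sub_eq_add_neg]
      refine (q4 _ _).trans (max_le ?_ (by rw [q5]; exact b2))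
      exact b1.trans (pow_le_pow_right_of_le_one' f1.le (by omega))
    refine b3.trans_lt (lt_of_lt_of_le ?_ (hX.2.2 V hV).1)
    exact pow_lt_pow_right_of_lt_one₀ f2 f1 (by omega)
  obtain ⟨V0, hV0⟩ := hC.ne
  have hW0 : W ≠ 0 := by
    intro h0
    have := hWXn V0 hV0
    obtain ⟨q1, q2, q3, q4, q5, -⟩ := hPn F V0
    rw [h0, zero_sub, q5] at this
    exact lt_irrefl _ this
  have hWd : W.natDegree < r := by
    have e1 : W = X + (W - X) := by ring
    have e2 : (tw (QQ l e n ^ K) P - tw (QQ l e n ^ (K + i)) P).natDegree < r := by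
      have m1 : (tw (QQ l e n ^ K) P).Monic := by rw [qk]; exact (t3 _ P).2.2 hC.mon
      have m2 : (tw (QQ l e n ^ (K + i)) P).Monic := by rw [qk]; exact (t3 _ P).2.2 hC.mon
      have d1 : (tw (QQ l e n ^ K) P).natDegree = r := by rw [qk, (t3 _ P).1, hC.deg]
      have d2 : (tw (QQ l e n ^ (K + i)) P).natDegree = r := by rw [qk, (t3 _ P).1, hC.deg]
      by_cases h0 : tw (QQ l e n ^ K) P - tw (QQ l e n ^ (K + i)) P = 0
      · rw [h0, natDegree_zero]; omega
      · have g1 : (tw (QQ l e n ^ K) P).degree = (tw (QQ l e n ^ (K + i)) P).degree := by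
          rw [degree_eq_natDegree m1.ne_zero, degree_eq_natDegree m2.ne_zero, d1, d2]
        have g2 : (tw (QQ l e n ^ K) P).leadingCoeff = (tw (QQ l e n ^ (K + i)) P).leadingCoeff := by
          rw [m1.leadingCoeff, m2.leadingCoeff]
        have hdd := degree_sub_lt_left g1 m1.ne_zero g2
        rw [← d1]
        exact natDegree_lt_natDegree h0 hdd
    have e3 : (tw (QQ l e n ^ i) Y).natDegree < r := by
      rw [qk, (t3 _ Y).1]
      exact hY.2.1
    rw [e1, hWX]
    exact lt_of_le_of_lt (natDegree_add_le _ _) (max_lt hX.2.1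
      (lt_of_le_of_lt (natDegree_sub_le _ _) (max_lt e2 e3)))
  have hXY0 : X - Y ≠ 0 := sub_ne_zero.2 hXY
  have hXYd : (X - Y).natDegree < r := lt_of_le_of_lt (natDegree_sub_le _ _) (max_lt hX.2.1 hY.2.1)
  have hPP : PXX - PXY = X - Y := by
    rw [hPXX, hPXY, PX, PX]
    ring
  -- the pair relation
  have hpair := hH.pair PXX PXY i y1 y2 z1 z2 (by
    intro h0
    exact hXY0 (by rw [← hPP, h0, sub_self])) (by
    intro h0
    exact hW0 (by rw [hW, ← h0, sub_self]))
  rw [hPP, ← hW] at hpair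
  -- the twists
  have htw0 : tw (QQ l e n ^ i) (X - Y) ≠ 0 := by
    rw [qk, Ne, (t3 _ (X - Y)).2.1]
    exact hXY0
  have htwd : (tw (QQ l e n ^ i) (X - Y)).natDegree < r := by
    rw [qk, (t3 _ (X - Y)).1]
    exact hXYd
  have hitH : ∀ j : ℕ, h PXX (tw (QQ l e n ^ j) (X - Y)) = h PXX (X - Y) := by
    intro j
    induction j with
    | zero =>
      congr 1
      rw [qk]
      ext k
      rw [t2]
      simp
    | succ j ih =>
      have e1 : tw (QQ l e n ^ (j + 1)) (X - Y) = tw (QQ l e n) (tw (QQ l e n ^ j) (X - Y)) := by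
        rw [qk, qk, QQ, t4]
        congr 2
        ring
      rw [e1, hH.twA PXX _ y1 y2, ih]
      · rw [qk, Ne, (t3 _ (X - Y)).2.1]; exact hXY0
      · rw [qk, (t3 _ (X - Y)).1]; exact hXYd
  have hitE : ∀ j : ℕ, Ef (tw (QQ l e n ^ j) (X - Y)) X = Ef (X - Y) X := by
    intro j
    induction j with
    | zero =>
      congr 1
      rw [qk]
      ext k
      rw [t2]
      simp
    | succ j ih =>
      have e1 : tw (QQ l e n ^ (j + 1)) (X - Y) = tw (QQ l e n) (tw (QQ l e n ^ j) (X - Y)) := by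
        rw [qk, qk, QQ, t4]
        congr 2
        ring
      rw [e1, hE.tw X hX, ih]
      · rw [qk, Ne, (t3 _ (X - Y)).2.1]; exact hXY0
      · rw [qk, (t3 _ (X - Y)).1]; exact hXYd
  -- first quotient
  have hq1 := quot hSim hPx hC hH hE hX hW0 hWd htw0 htwd (by
    intro V hV hV2
    obtain ⟨s1, s2, s3, s4, -⟩ := hSim F V
    obtain ⟨q1, q2, q3, q4, q5, q6, q7, q8, q9, q10, q11⟩ := hPn F V
    refine s4 _ _ ?_
    have e1 : W - tw (QQ l e n ^ i) (X - Y) = -(tw (QQ l e n ^ i) PXX - PXX) := by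
      rw [hW, ← hPP, qk, (t1 _ _ _).2.1]
      ring
    have e2 : CoM V (tw (QQ l e n ^ i) PXX - PXX) := by
      have := MzpH.com_iter hTw hl hc hp (e := e * n.factorial) hV.2.2 i
      rwa [← qk] at this
    rw [e1, q5]
    refine lt_of_lt_of_le ((q10 _).2 e2) ?_
    rw [qk, t5]
    exact one_le_pow₀ (h1 V hV hV2))
  have hq2 := quot hSim hPx hC hH hE hY hW0 hWd hXY0 hXYd (by
    intro V hV hV2
    obtain ⟨s1, s2, s3, s4, -⟩ := hSim F V
    obtain ⟨q1, q2, q3, q4, q5, q6, q7, q8, q9, q10, q11⟩ := hPn F V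
    refine s4 _ _ ?_
    have e1 : W - (X - Y) = -(tw (QQ l e n ^ i) PXY - PXY) := by
      rw [hW, ← hPP]
      ring
    have e2 : CoM V (tw (QQ l e n ^ i) PXY - PXY) := by
      have := MzpH.com_iter hTw hl hc hp (e := e * n.factorial) hV.2.2 i
      rwa [← qk] at this
    rw [e1, q5]
    exact lt_of_lt_of_le ((q10 _).2 e2) (h2 V hV hV2))
  rw [hitH, hitE] at hq1
  -- W and X agree on Z_a
  have hcl : ∀ X' : F[X], PA Z l e n a r P f mm X' → Ef W X' = Ef X X' := by
    intro X' hX'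
    refine hE.cls X' hX' W X hW0 hWd hX.1 hX.2.1 fun V hV => ?_
    obtain ⟨s1, s2, s3, s4, -⟩ := hSim F V
    exact s4 _ _ (hWXn V hV)
  rw [hcl X hX] at hq1
  rw [hcl Y hY] at hq2
  have e5 : h PXX W - h PXX (X - Y) = h PXY W - h PXY (X - Y) := by
    have := hpair
    have h3 : h PXX W = h PXX (X - Y) - h PXY (X - Y) + h PXY W := by
      rw [this]; abel
    rw [h3]; abel
  rw [hq1, hq2] at e5
  have e6 : Ef X X = Ef X Y - Ef (X - Y) Y + Ef (X - Y) X := by
    rw [← e5]; abel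
  rw [e6]; abel

end CL
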