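import Pool.Agent.Lib.MP_defcf3_al.CL.IfaceB

/-!
Project CL (MP_defcf3_al), part (B), row Gnr: (5.5) of findings 4324, genericity.
-/

open Polynomial

namespace CL

universe u

/-- Congruent polynomials have the same places. -/
theorem gnr_bd (hPn : PnStatement.{u}) (hTw : TwpStatement.{u}) (hInr : InrStatement.{u}) (F : Type u) [Field F]
    (l e n : ℕ) (hl : l.Prime) (hch : CharP F l) (hperf : ∀ x : F, ∃ y : F, y ^ l = x)
    (Z : Set (ValuationSubring F)) (V : ValuationSubring F) (P P' : F[X]) (hP : P.Monic) (hd : 1 ≤ P.natDegree)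
    (hP' : P'.Monic) (hd' : P'.natDegree = P.natDegree) (hc : pn V (P' - P) < 1)
    (hV : V ∈ Bd Z (QQ l e n) P) : V ∈ Bd Z (QQ l e n) P' := by
  obtain ⟨-, -, -, nadd, nneg, -, -, -, -, nM, -⟩ := hPn F V
  obtain ⟨tadd, -, -, -, tpn, -⟩ := hTw F l hl hch hperf
  obtain ⟨hJ, hI, hM⟩ := hV
  refine ⟨hJ, ?_, ?_⟩
  · exact ((hInr F V P hP hd hI).2.1 P' hP' hd' ((nM _).1 hc)).1
  · rw [← nM] at hM ⊢
    have e1 : tw (QQ l e n) P' - P' = (tw (QQ l e n) P - P) + (tw (QQ l e n) (P' - P) + -(P' - P)) := by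
      have h1 := (tadd (e * n.factorial) P' P).2.1
      have h2 : tw (QQ l e n) (P' - P) = tw (QQ l e n) P' - tw (QQ l e n) P := h1
      rw [h2]
      ring
    rw [e1]
    refine lt_of_le_of_lt (nadd _ _) (max_lt hM (lt_of_le_of_lt (nadd _ _) (max_lt ?_ ?_)))
    · have h3 : pn V (tw (QQ l e n) (P' - P)) = pn V (P' - P) ^ l ^ (e * n.factorial) := tpn _ V _
      rw [h3]
      exact pow_lt_one₀ zero_le' hc (pow_ne_zero _ hl.ne_zero)
    · rw [nneg]
      exact hc

/-- Row Gnr: (5.5). -/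
theorem gnr_proof (hPn : PnStatement.{u}) (hTw : TwpStatement.{u}) (hInr : InrStatement.{u}) (hPx : PxStatement.{u})
    (hSep : SepStatement.{u}) : GnrStatement.{u} := by
  intro F _ l p e n r Z P a f D Cp E cont H K mm hc X1 X2 Y hX1 hX2 hY
  obtain ⟨hXX, -, hZa, hPX⟩ := hPx F l p e n r Z P a f D Cp E cont H K mm hc
  obtain ⟨s1, hs1, hs1'⟩ := hSep F l p e n r Z P a f D Cp E cont H K mm hc X1 hX1
  obtain ⟨s2, hs2, hs2'⟩ := hSep F l p e n r Z P a f D Cp E cont H K mm hc X2 hX2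
  have hr : 2 ≤ r := hc.num.r2
  have hD : 1 ≤ D := hc.ani.Dpos
  have hE : 1 ≤ E := hc.cnt.Epos
  set e1 : F := s1 * Cp.eval (cont (X1 - Y)) with he1
  set e2 : F := s2 * Cp.eval (cont (X2 - Y)) with he2
  set s : F := H e1 e2 with hs
  -- anisotropic places
  have anB : ∀ X : F[X], PA Z l e n a r P f mm X → ∀ V ∈ Bd Z (QQ l e n) (PX l e n K P X), Anis V D Cp := by
    intro X hX V hV
    obtain ⟨h1, h2, -, -⟩ := hPX X hX
    exact (hXX _ h1 h2 V hV).2
  have anZ : ∀ V ∈ Za Z l e n a P, Anis V D Cp := by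
    intro V hV
    exact anB X1 hX1 V ((hPX X1 hX1).2.2.1 V hV).2
  -- degrees
  have degsub : ∀ X : F[X], X.natDegree < r → (X - Y).natDegree < r := by
    intro X hX
    exact lt_of_le_of_lt (natDegree_sub_le _ _) (max_lt hX hY.2.1)
  -- on Z_a
  have onZ : ∀ (X : F[X]) (s' : F), PA Z l e n a r P f mm X → ∀ V ∈ Za Z l e n a P,
      V.valuation (s' * Cp.eval (cont (X - Y))) = V.valuation s' := by
    intro X s' hX V hV
    obtain ⟨-, -, -, nadd, nneg, -, -, -, -, -, -⟩ := hPn F V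
    have h1 : pn V (X - Y) ≤ V.valuation f := by
      rw [sub_eq_add_neg]
      refine (nadd _ _).trans (max_le (hX.2.2 V hV).2 ?_)
      rw [nneg]
      exact (hY.2.2 V hV).2
    have h2 : pn V (X - Y) ^ E ≤ 1 := pow_le_one' (h1.trans (hZa V hV).2.1.le) _
    rw [map_mul, anZ V hV, hc.cnt.val V (anZ V hV) _ (degsub X hX.2.1), max_eq_left h2, one_pow, mul_one]
  -- on B(P_X) minus Z_a
  have offZ : ∀ (X : F[X]) (s' : F), PA Z l e n a r P f mm X → ∀ V ∈ Bd Z (QQ l e n) (PX l e n K P X),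
      1 < V.valuation s' → max 1 (pn V (X - Y)) < V.valuation (s' * Cp.eval (cont (X - Y))) := by
    intro X s' hX V hV hs'
    have h1 : max 1 (pn V (X - Y)) ≤ V.valuation (Cp.eval (cont (X - Y))) := by
      rw [anB X hX V hV, hc.cnt.val V (anB X hX V hV) _ (degsub X hX.2.1)]
      have h2 : max 1 (pn V (X - Y)) ≤ max 1 (pn V (X - Y) ^ E) := by
        rcases le_total (pn V (X - Y)) 1 with hle | hle
        · rw [max_eq_left hle]
          exact le_max_left _ _
        · rw [max_eq_right hle]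
          refine le_trans ?_ (le_max_right _ _)
          calc pn V (X - Y) = pn V (X - Y) ^ 1 := (pow_one _).symm
            _ ≤ _ := pow_le_pow_right' hle hE
      refine h2.trans ?_
      calc max 1 (pn V (X - Y) ^ E) = max 1 (pn V (X - Y) ^ E) ^ 1 := (pow_one _).symm
        _ ≤ _ := pow_le_pow_right' (le_max_left _ _) hD
    have h3 : 0 < V.valuation (Cp.eval (cont (X - Y))) :=
      lt_of_lt_of_le (lt_of_lt_of_le zero_lt_one (le_max_left _ _)) h1
    rw [map_mul]
    calc max 1 (pn V (X - Y)) ≤ V.valuation (Cp.eval (cont (X - Y))) := h1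
      _ = 1 * V.valuation (Cp.eval (cont (X - Y))) := (one_mul _).symm
      _ < _ := mul_lt_mul_of_pos_right hs' h3
  -- the size of s
  have sZ : ∀ V ∈ Za Z l e n a P, V.valuation s ≤ V.valuation f ^ (mm + 1) := by
    intro V hV
    have h1 : V.valuation e1 ≤ V.valuation f ^ (mm + 1) := by
      rw [he1, onZ X1 s1 hX1 V hV]
      exact hs1 V hV
    have h2 : V.valuation e2 ≤ V.valuation f ^ (mm + 1) := by
      rw [he2, onZ X2 s2 hX2 V hV]
      exact hs2 V hV
    have hf1 : V.valuation f ^ (mm + 1) ≤ 1 := pow_le_one' (hZa V hV).2.1.le _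
    rw [hs, hc.cnt.form V (anZ V hV)]
    calc max (V.valuation e1) (V.valuation e2) ^ D ≤ (V.valuation f ^ (mm + 1)) ^ D := pow_le_pow_left' (max_le h1 h2) _
      _ ≤ (V.valuation f ^ (mm + 1)) ^ 1 := pow_le_pow_right_of_le_one' hf1 hD
      _ = _ := pow_one _
  have sB : ∀ X : F[X], (X = X1 ∨ X = X2) → ∀ V ∈ Bd Z (QQ l e n) (PX l e n K P X), V ∉ Za Z l e n a P →
      max 1 (pn V (X - Y)) < V.valuation s := by
    intro X hX V hV hVZ
    have key : ∀ t : F, max 1 (pn V (X - Y)) < V.valuation t →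
        V.valuation t ≤ max (V.valuation e1) (V.valuation e2) → Anis V D Cp → max 1 (pn V (X - Y)) < V.valuation s := by
      intro t h1 h2 hA
      rw [hs, hc.cnt.form V hA]
      have h3 : 1 ≤ max (V.valuation e1) (V.valuation e2) :=
        ((le_max_left _ _).trans_lt (h1.trans_le h2)).le
      calc max 1 (pn V (X - Y)) < V.valuation t := h1
        _ ≤ max (V.valuation e1) (V.valuation e2) := h2
        _ = max (V.valuation e1) (V.valuation e2) ^ 1 := (pow_one _).symm
        _ ≤ _ := pow_le_pow_right' h3 hD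
    rcases hX with hX | hX
    · subst hX
      exact key e1 (offZ X s1 hX1 V hV (hs1' V hV hVZ)) (le_max_left _ _) (anB X hX1 V hV)
    · subst hX
      exact key e2 (offZ X s2 hX2 V hV (hs2' V hV hVZ)) (le_max_right _ _) (anB X hX2 V hV)
  -- first part of genericity
  have first : ∀ X : F[X], (X = X1 ∨ X = X2) → ∀ V ∈ Bd Z (QQ l e n) (PX l e n K P X), V ∉ Za Z l e n a P →
      1 ≤ pn V (X - (Y + C s)) := by
    intro X hX V hV hVZ
    obtain ⟨-, -, -, -, nneg, nlt, -, nC, -, -, -⟩ := hPn F V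
    have h1 := sB X hX V hV hVZ
    have e3 : X - (Y + C s) = (X - Y) + -(C s) := by ring
    have h2 : pn V (X - Y) < pn V (-(C s)) := by
      rw [nneg, nC]
      exact (le_max_right _ _).trans_lt h1
    rw [e3, nlt _ _ h2, nneg, nC]
    exact ((le_max_left _ _).trans_lt h1).le
  -- Y + s in AA
  have hPA : PA Z l e n a r P f mm (Y + C s) := by
    have hn : ∀ V ∈ Za Z l e n a P, pn V (Y + C s) = pn V Y := by
      intro V hV
      obtain ⟨-, -, -, -, -, nlt, -, nC, -, -, -⟩ := hPn F V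
      rw [add_comm]
      refine nlt _ _ ?_
      rw [nC]
      refine lt_of_le_of_lt (sZ V hV) (lt_of_lt_of_le ?_ (hY.2.2 V hV).1)
      rw [pow_succ]
      calc V.valuation f ^ mm * V.valuation f < V.valuation f ^ mm * 1 :=
            mul_lt_mul_of_pos_left (hZa V hV).2.1 (pow_pos (hZa V hV).2.2 _)
        _ = _ := mul_one _
    refine ⟨?_, ?_, ?_⟩
    · intro h0
      obtain ⟨V, hV⟩ := hc.ne
      have h1 := hn V hV
      have h2 := (hPn F V).1
      rw [(h2 _).2 h0] at h1
      exact hY.1 ((h2 _).1 h1.symm)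
    · refine lt_of_le_of_lt (natDegree_add_le _ _) (max_lt hY.2.1 ?_)
      rw [natDegree_C]
      omega
    · intro V hV
      rw [hn V hV]
      exact hY.2.2 V hV
  refine ⟨s, sZ, hPA, fun X hX => ⟨first X hX, ?_⟩⟩
  intro V hV hVZ
  by_contra hlt
  rw [not_le] at hlt
  have hXA : PA Z l e n a r P f mm X := by
    rcases hX with hX | hX
    · rw [hX]; exact hX1
    · rw [hX]; exact hX2
  obtain ⟨hm1, hd1, -, -⟩ := hPX X hXA
  obtain ⟨hm2, hd2, -, -⟩ := hPX (Y + C s) hPA
  have hsub : PX l e n K P X - PX l e n K P (Y + C s) = X - (Y + C s) := by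
    unfold PX
    ring
  have hmem : V ∈ Bd Z (QQ l e n) (PX l e n K P X) :=
    gnr_bd hPn hTw hInr F l e n hc.num.lpr hc.num.chr hc.num.perf Z V _ _ hm2 (by omega) hm1 (by omega)
      (by rw [hsub]; exact hlt) hV
  exact absurd (first X hX V hmem hVZ) (not_le.2 hlt)

end CL
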