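import Pool.Agent.Lib.MP_defcf3_al.CL.IfaceB

/-!
Part (B): HfStatement, assembly of (4.1) - (4.6).
-/

open Polynomial

namespace CL

universe u

theorem hf_proof (hMil : MilStatement.{u}) (hMzp : MzpStatement.{u}) : HfStatement.{u} := by
  intro F L _ _ _ _ l p e n r Z θ T _ b hD hr hrn hq hSt
  obtain ⟨m1, m2, m3, m4, m5, m6, m7, m8, m9⟩ := hMil F L l p e n r Z θ T b hD (by omega) hrn hq hSt
  exact
  { tors := hD.tors
    one := m1
    mul := m2
    sc := m3
    twP := m4
    twA := m5
    pair := m6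
    wt := m7
    mz := hMzp F L l p e n r Z θ T b hD hr hrn hq hSt }

end CL
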