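import Pool.Agent.Lib.MP_defcf3_al.CL.IfaceB

/-!
Part (B), Hp: (8.1) and the end of (8.2).
-/

open Polynomial

namespace CL

universe u

section HpAux

variable {F : Type u} [Field F]

theorem hp_mod_ne {P A B : F[X]} (hP : P.Monic) (hirr : Irreducible P) (hA : A ≠ 0)
    (hdA : A.natDegree < P.natDegree) (hB : B ≠ 0) (hdB : B.natDegree < P.natDegree) : (A * B) %ₘ P ≠ 0 := by
  intro h0
  have hdvd : P ∣ A * B := (modByMonic_eq_zero_iff_dvd hP).1 h0
  rcases hirr.prime.dvd_or_dvd hdvd with h | h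
  · exact absurd (natDegree_le_of_dvd h hA) (by omega)
  · exact absurd (natDegree_le_of_dvd h hB) (by omega)

theorem hp_mod_lt {P : F[X]} (hP : P.Monic) (h2 : 2 ≤ P.natDegree) (A : F[X]) :
    (A %ₘ P).natDegree < P.natDegree := by
  refine natDegree_modByMonic_lt A hP ?_
  intro h1
  rw [h1, natDegree_one] at h2
  omega

theorem hp_mod_self {P A : F[X]} (hP : P.Monic) (hdA : A.natDegree < P.natDegree) : A %ₘ P = A := by
  rw [modByMonic_eq_self_iff hP]
  exact degree_lt_degree hdA

theorem hp_mod_mul_left {P : F[X]} (A B : F[X]) : ((A %ₘ P) * B) %ₘ P = (A * B) %ₘ P := by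
  by_cases hP : P.Monic
  · rw [← sub_eq_zero, ← sub_modByMonic, modByMonic_eq_zero_iff_dvd hP, ← sub_mul]
    refine Dvd.dvd.mul_right ?_ B
    have := modByMonic_add_div A P
    refine ⟨-(A /ₘ P), ?_⟩
    linear_combination this
  · rw [modByMonic_eq_of_not_monic A hP]

theorem hp_inv {P A : F[X]} (hP : P.Monic) (h2 : 2 ≤ P.natDegree) (hirr : Irreducible P) (hA : A ≠ 0)
    (hdA : A.natDegree < P.natDegree) : ∃ w : F[X], w ≠ 0 ∧ w.natDegree < P.natDegree ∧ (A * w) %ₘ P = 1 := by
  have hcop : IsCoprime P A := by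
    rw [Irreducible.coprime_iff_not_dvd hirr]
    intro h
    exact absurd (natDegree_le_of_dvd h hA) (by omega)
  obtain ⟨u, v, huv⟩ := hcop
  have h1 : (1 : F[X]) %ₘ P = 1 := hp_mod_self hP (by rw [natDegree_one]; omega)
  have e : (A * (v %ₘ P)) %ₘ P = 1 := by
    rw [mul_comm, hp_mod_mul_left, ← h1, ← sub_eq_zero, ← sub_modByMonic, modByMonic_eq_zero_iff_dvd hP]
    exact ⟨-u, by linear_combination huv⟩
  refine ⟨v %ₘ P, ?_, hp_mod_lt hP h2 v, e⟩
  intro h0
  rw [h0, mul_zero, zero_modByMonic] at e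
  exact one_ne_zero e.symm

variable {l p e n r : ℕ} {Z : Set (ValuationSubring F)} {T : Type u} [AddCommGroup T] {h : F[X] → F[X] → T}

theorem hp_pow (hH : HF F l p e n r Z h) {P A : F[X]} (hP : P.Monic) (hdeg : P.natDegree = r) (h2 : 2 ≤ r)
    (hirr : Irreducible P) (hA : A ≠ 0) (hdA : A.natDegree < r) (k : ℕ) :
    (A ^ k) %ₘ P ≠ 0 ∧ h P ((A ^ k) %ₘ P) = k • h P A := by
  induction k with
  | zero =>
    have h1 : (1 : F[X]) %ₘ P = 1 := hp_mod_self hP (by rw [natDegree_one]; omega)
    rw [pow_zero, h1, zero_smul]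
    exact ⟨one_ne_zero, hH.one P hP hdeg⟩
  | succ k ih =>
    have hlt : ((A ^ k) %ₘ P).natDegree < P.natDegree := hp_mod_lt hP (by omega) _
    have e : (A ^ (k + 1)) %ₘ P = (((A ^ k) %ₘ P) * A) %ₘ P := by
      rw [hp_mod_mul_left, pow_succ]
    rw [e]
    refine ⟨hp_mod_ne hP hirr ih.1 hlt hA (by omega), ?_⟩
    rw [hH.mul P _ A hP hdeg hirr ih.1 (by omega) hA hdA, ih.2, succ_nsmul]

theorem hp_class (hSim : SimStatement.{u}) (hH : HF F l p e n r Z h) {P A B : F[X]} (hP : P.Monic)
    (hdeg : P.natDegree = r) (h2 : 2 ≤ r) (hirr : Irreducible P) (hA : A ≠ 0) (hdA : A.natDegree < r) (hB : B ≠ 0)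
    (hdB : B.natDegree < r) (hs : ∀ V ∈ Bd Z (QQ l e n) P, PSim V A B) : h P A = h P B := by
  obtain ⟨w, hw, hdw, hBw⟩ := hp_inv hP (by omega) hirr hB (by omega)
  have e1 := hH.mul P A w hP hdeg hirr hA hdA hw (by omega)
  have e2 := hH.mul P B w hP hdeg hirr hB hdB hw (by omega)
  rw [hBw, hH.one P hP hdeg] at e2
  have e3 : h P ((A * w) %ₘ P) = 0 := by
    refine hH.mz P _ hP hdeg hirr (hp_mod_ne hP hirr hA (by omega) hw hdw) ?_ ?_
    · rw [← hdeg]
      exact hp_mod_lt hP (by omega) _
    · intro V hV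
      have := (hSim F V).2.2.2.2.2.1 P A B w w hP (by omega) hV.2.1 (by omega) (by omega) hdw hdw (hs V hV)
        ((hSim F V).1 w hw)
      rwa [hBw] at this
  rw [e3] at e1
  have : h P A + h P w = h P B + h P w := by rw [← e1, ← e2]
  exact add_right_cancel this

end HpAux

theorem hp_proof (hSim : SimStatement.{u}) (hTwp : TwpStatement.{u}) (hCyc : CycStatement.{u})
    (hCont : ContStatement.{u}) (hType : TypeStatement.{u}) (hE6 : E6Statement.{u}) (hNk : NkStatement.{u}) :
    HpStatement.{u} := by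
  intro F _ l p e n r Z P T _ h hS hN hH hP hdeg hirr A hA hdA
  obtain ⟨hl, hpp, hp2, hlp, hchr, hperf, hepos, h2, hrn, hnp, hl2, hqmod, hfq⟩ := id hN
  obtain ⟨D, Cp, hAni⟩ := hCyc F l e n hl hchr hperf hepos (by omega)
  obtain ⟨E, cont, H, hCnt⟩ := hCont F l e n r D Cp hl hchr (by omega) hAni
  obtain ⟨tadd, tcoeff, tdeg, tcomp, tpn, tmod, tin⟩ := hTwp F l hl hchr hperf
  by_cases hex : ∃ a : ℕ, 1 ≤ a ∧ tw ((l ^ e) ^ a) P = P
  · classical
    obtain ⟨ha1, haP⟩ := Nat.find_spec hex
    set a := Nat.find hex with ha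
    have hmin : ∀ i, 1 ≤ i → i < a → tw ((l ^ e) ^ i) P ≠ P := by
      intro i hi hia hEq
      exact Nat.find_min hex hia ⟨hi, hEq⟩
    obtain ⟨-, h6⟩ := hE6 F l p e n r Z P a D Cp E cont H hN hAni hCnt hP hdeg ha1
    have h6' := h6 haP hmin
    have hpw : l ^ (e * a) = (l ^ e) ^ a := by rw [pow_mul]
    have hwt : ∀ (k : ℕ) (B : F[X]), B ≠ 0 → B.natDegree < r →
        h (tw ((l ^ e) ^ k) P) (tw ((l ^ e) ^ k) B) = ((l ^ e) ^ k) • h P B := by
      intro k
      induction k with
      | zero =>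
        intro B hB hdB
        have e1 : ∀ Q : F[X], tw ((l ^ e) ^ 0) Q = Q := by
          intro Q
          ext i
          have := tcoeff 0 Q i
          rw [pow_zero] at this ⊢
          rw [this, pow_one]
        rw [e1, e1, pow_zero, one_smul]
      | succ k ih =>
        intro B hB hdB
        have e1 : ∀ Q : F[X], tw ((l ^ e) ^ (k + 1)) Q = tw (l ^ e) (tw ((l ^ e) ^ k) Q) := by
          intro Q
          rw [← pow_mul, ← pow_mul, tcomp, Nat.mul_succ, add_comm]
        have e2 : (l ^ e) ^ k = l ^ (e * k) := by rw [pow_mul]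
        have hPk : (tw ((l ^ e) ^ k) P).Monic := by rw [e2]; exact (tdeg _ P).2.2 hP
        have hPd : (tw ((l ^ e) ^ k) P).natDegree = r := by rw [e2, (tdeg _ P).1, hdeg]
        have hBk : tw ((l ^ e) ^ k) B ≠ 0 := by
          rw [e2]
          intro h0
          exact hB ((tdeg _ B).2.1.1 h0)
        have hBd : (tw ((l ^ e) ^ k) B).natDegree < r := by rw [e2, (tdeg _ B).1]; exact hdB
        rw [e1, e1, hH.wt _ _ hPk hPd hBk hBd, ih B hB hdB, smul_smul, pow_succ']
    refine hNk F l p r (e * a) (Bd Z (QQ l e n) P) P T (h P) hl hpp hlp hchr hperf h2 (by omega) hH.tors hP hdeg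
      hirr (Nat.mul_pos hepos ha1) ?_ ?_ ?_ ?_ A hA hdA
    · intro V hV
      refine ⟨hV.2.1, ?_, ?_⟩
      · rw [hpw, haP, sub_self]
        intro i
        simp
      · rw [hpw]
        exact (h6' V hV).2
    · intro A B hA hdA hB hdB
      exact hH.mul P A B hP hdeg hirr hA hdA hB hdB
    · intro A hA hdA hV
      exact hH.mz P A hP hdeg hirr hA hdA hV
    · intro B hB hdB
      have := hwt a B hB hdB
      rw [haP] at this
      rw [hpw]
      exact this
  · have hno : ∀ a : ℕ, 1 ≤ a → tw ((l ^ e) ^ a) P ≠ P := fun a ha hEq => hex ⟨a, ha, hEq⟩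
    obtain ⟨hpow0, hpow⟩ := hp_pow hH hP hdeg h2 hirr hA hdA r
    have hone : (1 : F[X]).natDegree < r := by rw [natDegree_one]; omega
    have hPr : (A ^ r %ₘ P).natDegree < r := by
      rw [← hdeg]
      exact hp_mod_lt hP (by omega) _
    have key : ∀ k : ℕ, ∃ y : F[X], y ≠ 0 ∧ y.natDegree < r ∧ h P y = 0 ∧
        ∀ V ∈ Bd Z (QQ l e n) P, ((∃ a, 1 ≤ a ∧ a ≤ k ∧ V ∈ Za Z l e n a P) → PSim V y ((A ^ r) %ₘ P)) ∧
          ((∀ a, 1 ≤ a → a ≤ k → V ∉ Za Z l e n a P) → PSim V y 1) := by
      intro k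
      induction k with
      | zero =>
        refine ⟨1, one_ne_zero, hone, hH.one P hP hdeg, ?_⟩
        intro V hV
        refine ⟨?_, fun _ => (hSim F V).1 1 one_ne_zero⟩
        rintro ⟨a, h1, h0, -⟩
        omega
      | succ k ih =>
        obtain ⟨y, hy, hdy, hy0, hyV⟩ := ih
        by_cases hne : (Za Z l e n (k + 1) P).Nonempty
        · obtain ⟨t1, t2⟩ := hType F l p e n r Z P (k + 1) T h hS hN hH hP hdeg hirr (by omega)
            (hno (k + 1) (by omega)) hne
          obtain ⟨z, hz, hdz, hz1, hz2⟩ := t2 A hA hdA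
          have hz0 : h P z = 0 := t1 z hz hdz hz2
          refine ⟨(y * z) %ₘ P, hp_mod_ne hP hirr hy (by omega) hz (by omega), ?_, ?_, ?_⟩
          · rw [← hdeg]
            exact hp_mod_lt hP (by omega) _
          · rw [hH.mul P y z hP hdeg hirr hy hdy hz hdz, hy0, hz0, add_zero]
          · intro V hV
            have hmul := (hSim F V).2.2.2.2.2.1 P
            have huniq : ∀ a b : ℕ, 1 ≤ a → a < b → V ∈ Za Z l e n a P → V ∉ Za Z l e n b P := by
              intro a b h1 hab hVa hVb
              exact hVb.2.2 a h1 hab hVa.2.1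
            constructor
            · rintro ⟨a, h1, hak, hVa⟩
              rcases Nat.lt_or_ge a (k + 1) with hlt | hge
              · have hyA := (hyV V hV).1 ⟨a, h1, by omega, hVa⟩
                have hzA := hz2 V hV (huniq a (k + 1) h1 hlt hVa)
                have := hmul y _ z 1 hP (by omega) hV.2.1 (by omega) (by omega) (by omega) (by omega) hyA hzA
                rw [mul_one, hp_mod_self (A := (A ^ r) %ₘ P) hP (by omega)] at this
                exact this
              · have hak1 : a = k + 1 := by omega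
                subst hak1
                have hyA := (hyV V hV).2 (fun b hb1 hbk hVb => huniq b (k + 1) hb1 (by omega) hVb hVa)
                have hzA := hz1 V hVa
                have := hmul y 1 z _ hP (by omega) hV.2.1 (by omega) (by omega) (by omega) (by omega) hyA hzA
                rw [one_mul, hp_mod_self (A := (A ^ r) %ₘ P) hP (by omega)] at this
                exact this
            · intro hall
              have hyA := (hyV V hV).2 (fun b hb1 hbk => hall b hb1 (by omega))
              have hzA := hz2 V hV (hall (k + 1) (by omega) le_rfl)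
              have := hmul y 1 z 1 hP (by omega) hV.2.1 (by omega) (by omega) (by omega) (by omega) hyA hzA
              rw [one_mul, hp_mod_self (A := 1) hP (by omega)] at this
              exact this
        · refine ⟨y, hy, hdy, hy0, ?_⟩
          intro V hV
          have hV' : V ∉ Za Z l e n (k + 1) P := fun hVa => hne ⟨V, hVa⟩
          constructor
          · rintro ⟨a, h1, hak, hVa⟩
            refine (hyV V hV).1 ⟨a, h1, ?_, hVa⟩
            rcases Nat.lt_or_ge a (k + 1) with hlt | hge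
            · omega
            · have hak1 : a = k + 1 := by omega
              subst hak1
              exact absurd hVa hV'
          · intro hall
            exact (hyV V hV).2 (fun b hb1 hbk => hall b hb1 (by omega))
    obtain ⟨y, hy, hdy, hy0, hyV⟩ := key n.factorial
    have hall : ∀ V ∈ Bd Z (QQ l e n) P, PSim V y ((A ^ r) %ₘ P) := by
      intro V hV
      refine (hyV V hV).1 ?_
      classical
      have hexa : ∃ a : ℕ, 1 ≤ a ∧ CoM V (tw ((l ^ e) ^ a) P - P) := by
        refine ⟨n.factorial, Nat.succ_le_of_lt (Nat.factorial_pos n), ?_⟩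
        rw [← pow_mul]
        exact hV.2.2
      obtain ⟨ha1, haC⟩ := Nat.find_spec hexa
      refine ⟨Nat.find hexa, ha1, ?_, hV, haC, ?_⟩
      · refine Nat.find_min' hexa ⟨Nat.succ_le_of_lt (Nat.factorial_pos n), ?_⟩
        rw [← pow_mul]
        exact hV.2.2
      · intro i hi hia hC
        exact Nat.find_min hexa hia ⟨hi, hC⟩
    have e1 : h P y = h P ((A ^ r) %ₘ P) := hp_class hSim hH hP hdeg h2 hirr hy hdy hpow0 hPr hall
    rw [hy0, hpow] at e1
    have hcop : Nat.Coprime r p := by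
      rw [Nat.coprime_comm, Nat.Prime.coprime_iff_not_dvd hpp]
      intro hd
      exact absurd (Nat.le_of_dvd (by omega) hd) (by omega)
    have hgcd := Nat.gcd_eq_gcd_ab r p
    rw [hcop] at hgcd
    have e2 : (1 : ℤ) • h P A = 0 := by
      have h3 : ((1 : ℕ) : ℤ) = (r : ℤ) * Nat.gcdA r p + (p : ℤ) * Nat.gcdB r p := hgcd
      rw [Nat.cast_one] at h3
      rw [h3, add_smul, mul_comm (r : ℤ), mul_comm (p : ℤ), mul_smul, mul_smul, natCast_zsmul, natCast_zsmul,
        ← e1, hH.tors, smul_zero, smul_zero, add_zero]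
    rwa [one_smul] at e2

end CL
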