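import Pool.Agent.Lib.MP_defcf3_al.CL.IfaceB

/-!
Project CL (MP_defcf3_al), part (B), row Inr: inert places, the content norm is multiplicative modulo P.
-/

open Polynomial

namespace CL

universe u

namespace H50I

variable {F : Type u} [Field F] {V : ValuationSubring F}

theorem res_zero_iff (a : V) : IsLocalRing.residue V a = 0 ↔ V.valuation (a : F) < 1 := by
  rw [IsLocalRing.residue_eq_zero_iff, V.valuation_lt_one_iff]

theorem coM_map_iff (B : Polynomial V) :
    CoM V (B.map (algebraMap V F)) ↔ B.map (IsLocalRing.residue V) = 0 := by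
  constructor
  · intro h
    ext i
    rw [coeff_map, coeff_zero, res_zero_iff]
    have := h i
    rw [coeff_map] at this
    exact this
  · intro h i
    rw [coeff_map]
    have := congrArg (fun Q => Q.coeff i) h
    simp only [coeff_map, coeff_zero] at this
    exact (res_zero_iff _).1 this

theorem coV_map (B : Polynomial V) : CoV V (B.map (algebraMap V F)) := by
  intro i
  rw [coeff_map]
  exact (B.coeff i).2

theorem inj : Function.Injective (algebraMap V F) := Subtype.coe_injective

theorem exists_lift {A : F[X]} (hA : CoV V A) :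
    ∃ B : Polynomial V, B.map (algebraMap V F) = A ∧ B.natDegree = A.natDegree := by
  have : A ∈ lifts (algebraMap V F) := by
    rw [lifts_iff_coeff_lifts]
    intro i
    exact ⟨⟨A.coeff i, hA i⟩, rfl⟩
  obtain ⟨B, hB⟩ := (mem_lifts _).1 this
  exact ⟨B, hB, by rw [← hB, natDegree_map_eq_of_injective inj]⟩

theorem monic_of_map {B : Polynomial V} (h : (B.map (algebraMap V F)).Monic) : B.Monic :=
  monic_of_injective inj h

/-- A non-zero A is a scalar times a polynomial of content norm 1. -/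
theorem exists_scale (h1 : PnStatement.{u}) {A : F[X]} (hA : A ≠ 0) :
    ∃ (a : F) (A1 : F[X]), a ≠ 0 ∧ A = a • A1 ∧ A1.natDegree = A.natDegree ∧ V.valuation a = pn V A ∧ CoV V A1 ∧
      ¬ CoM V A1 := by
  obtain ⟨p1, p2, p3, p4, p5, p6, p7, p8, p9, p10, p11⟩ := h1 F V
  obtain ⟨i, hi⟩ := p3 A hA
  have hp : pn V A ≠ 0 := fun h => hA ((p1 A).1 h)
  have ha : A.coeff i ≠ 0 := by
    intro h
    rw [h, map_zero] at hi
    exact hp hi.symm
  have h2 : pn V (C (A.coeff i)⁻¹ * A) = 1 := by
    rw [p7, map_inv₀, hi, inv_mul_cancel₀ hp]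
  refine ⟨A.coeff i, C (A.coeff i)⁻¹ * A, ha, ?_, natDegree_C_mul (inv_ne_zero ha), hi, (p9 _).1 h2.le, ?_⟩
  · rw [smul_eq_C_mul, ← mul_assoc, ← C_mul, mul_inv_cancel₀ ha, C_1, one_mul]
  · intro h
    exact absurd ((p10 _).2 h) (by rw [h2]; exact lt_irrefl _)

/-- The key: products of primitive polynomials are primitive modulo P. -/
theorem key {P' A' B' : Polynomial V} (hm : P'.Monic) (hirr : Irreducible (P'.map (IsLocalRing.residue V)))
    (hA : A'.natDegree < P'.natDegree) (hB : B'.natDegree < P'.natDegree)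
    (hA0 : A'.map (IsLocalRing.residue V) ≠ 0) (hB0 : B'.map (IsLocalRing.residue V) ≠ 0) :
    ((A' * B') %ₘ P').map (IsLocalRing.residue V) ≠ 0 := by
  rw [map_modByMonic _ hm, Ne, modByMonic_eq_zero_iff_dvd (hm.map _), Polynomial.map_mul]
  intro h
  have hn : ∀ D' : Polynomial V, D'.natDegree < P'.natDegree → D'.map (IsLocalRing.residue V) ≠ 0 →
      ¬ P'.map (IsLocalRing.residue V) ∣ D'.map (IsLocalRing.residue V) := by
    intro D' hD hD0 hdvd
    have h3 := natDegree_le_of_dvd hdvd hD0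
    rw [hm.natDegree_map] at h3
    have h4 : (D'.map (IsLocalRing.residue V)).natDegree ≤ D'.natDegree := natDegree_map_le
    omega
  rcases hirr.prime.dvd_or_dvd h with h | h
  · exact hn A' hA hA0 h
  · exact hn B' hB hB0 h

end H50I

open H50I

theorem inr_proof (h1 : PnStatement.{u}) : InrStatement.{u} := by
  intro F _ V P hP hd ⟨P', hP', hirr⟩
  obtain ⟨p1, p2, p3, p4, p5, p6, p7, p8, p9, p10, p11⟩ := h1 F V
  have hm : P'.Monic := monic_of_map (by rw [hP']; exact hP)
  have hdeg : P'.natDegree = P.natDegree := by rw [← hP', hm.natDegree_map]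
  have hpn1 : ∀ D' : Polynomial V, D'.map (IsLocalRing.residue V) ≠ 0 → pn V (D'.map (algebraMap V F)) = 1 := by
    intro D' hD
    apply le_antisymm ((p9 _).2 (coV_map D'))
    by_contra h
    push Not at h
    exact hD ((coM_map_iff D').1 ((p10 _).1 h))
  have hmul : ∀ A B : F[X], A.natDegree < P.natDegree → B.natDegree < P.natDegree → A ≠ 0 → B ≠ 0 →
      ∃ (a b : F) (A' B' : Polynomial V), V.valuation a = pn V A ∧ V.valuation b = pn V B ∧
        A * B = (a * b) • (A' * B').map (algebraMap V F) ∧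
        A'.natDegree < P'.natDegree ∧ B'.natDegree < P'.natDegree ∧ A'.map (IsLocalRing.residue V) ≠ 0 ∧
        B'.map (IsLocalRing.residue V) ≠ 0 := by
    intro A B hA hB hA0 hB0
    obtain ⟨a, A1, ha, hA1, hA2, hA3, hA4, hA5⟩ := exists_scale (V := V) h1 hA0
    obtain ⟨b, B1, hb, hB1, hB2, hB3, hB4, hB5⟩ := exists_scale (V := V) h1 hB0
    obtain ⟨A', hA6, hA7⟩ := exists_lift hA4
    obtain ⟨B', hB6, hB7⟩ := exists_lift hB4
    refine ⟨a, b, A', B', hA3, hB3, ?_, by omega, by omega, ?_, ?_⟩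
    · rw [Polynomial.map_mul, hA6, hB6, hA1, hB1, smul_mul_smul_comm]
    · intro h
      rw [← coM_map_iff, hA6] at h
      exact hA5 h
    · intro h
      rw [← coM_map_iff, hB6] at h
      exact hB5 h
  refine ⟨?_, ?_, ?_⟩
  · intro A B hA hB
    by_cases hA0 : A = 0
    · rw [hA0, zero_mul, zero_modByMonic, (p1 0).2 rfl, zero_mul]
    by_cases hB0 : B = 0
    · rw [hB0, mul_zero, zero_modByMonic, (p1 0).2 rfl, mul_zero]
    obtain ⟨a, b, A', B', ha, hb, hAB, hA1, hB1, hA2, hB2⟩ := hmul A B hA hB hA0 hB0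
    have h3 := hpn1 _ (key hm hirr hA1 hB1 hA2 hB2)
    rw [map_modByMonic _ hm, hP'] at h3
    rw [hAB, smul_modByMonic, smul_eq_C_mul, p7, h3, mul_one, map_mul, ha, hb]
  · intro Q hQ hQd hQP
    have hQV : CoV V Q := by
      have h3 : Q = (Q - P) + P := by ring
      rw [h3, ← hP']
      rw [← hP'] at hQP
      exact hQP.coV.add (coV_map P')
    obtain ⟨Q', hQ', hQd'⟩ := exists_lift hQV
    have hQm : Q'.Monic := monic_of_map (by rw [hQ']; exact hQ)
    have hred : Q'.map (IsLocalRing.residue V) = P'.map (IsLocalRing.residue V) := by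
      have h3 : (Q' - P').map (IsLocalRing.residue V) = 0 := by
        rw [← coM_map_iff, Polynomial.map_sub, hQ', hP']
        exact hQP
      rw [Polynomial.map_sub, sub_eq_zero] at h3
      exact h3
    refine ⟨⟨Q', hQ', by rw [hred]; exact hirr⟩, ?_⟩
    intro A B hA hB hA0 hB0
    obtain ⟨a, b, A', B', ha, hb, hAB, hA1, hB1, hA2, hB2⟩ := hmul A B hA hB hA0 hB0
    have h3 : pn V ((((A' * B') %ₘ P') - ((A' * B') %ₘ Q')).map (algebraMap V F)) < 1 := by
      rw [p10, coM_map_iff, Polynomial.map_sub, map_modByMonic _ hm, map_modByMonic _ hQm, hred, sub_self]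
    rw [Polynomial.map_sub, map_modByMonic _ hm, map_modByMonic _ hQm, hP', hQ'] at h3
    have hpA : pn V A ≠ 0 := fun h => hA0 ((p1 A).1 h)
    have hpB : pn V B ≠ 0 := fun h => hB0 ((p1 B).1 h)
    have hpos : 0 < pn V A * pn V B := zero_lt_iff.2 (mul_ne_zero hpA hpB)
    rw [hAB, smul_modByMonic, smul_modByMonic, ← smul_sub, smul_eq_C_mul, p7, map_mul, ha, hb]
    calc pn V A * pn V B * _ < pn V A * pn V B * 1 := by
          exact (mul_lt_mul_iff_right₀ hpos).2 h3
      _ = pn V A * pn V B := mul_one _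
  · have h3 : Irreducible P' := hm.irreducible_of_irreducible_map (IsLocalRing.residue V) P' hirr
    rw [hm.irreducible_iff_irreducible_map_fraction_map (K := F), hP'] at h3
    exact h3

end CL
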