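import Pool.Agent.Lib.MP_defcf3_al.CL.BAlg

/-!
Project CL (MP_defcf3_al), part (B), row AlgC: section 3.1 of findings 4323, the Steinberg relation for integral elements,
from disjoint supports (2.1) and the Steinberg relation for good elements.
-/

open Polynomial

namespace CL

universe u

namespace IntSt61

section Quot

variable {F : Type u} {K : Type u} [Field F] [Field K] [Algebra F K]
variable {G : Type u} [LinearOrderedCommGroupWithZero G]

theorem trivK_div {w : Valuation K G} {t : G} (ht : t < 1) {x y : K}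
    (hx : TrivK F w t x) (hy : TrivK F w t y) : TrivK F w t (x / y) := by
  obtain ⟨a, ha, hxa⟩ := hx
  obtain ⟨b, hb, hyb⟩ := hy
  have hB : algebraMap F K b ≠ 0 := (_root_.map_ne_zero _).2 hb
  have hwb : w (algebraMap F K b) ≠ 0 := (Valuation.ne_zero_iff w).2 hB
  have hwb0 : 0 < w (algebraMap F K b) := zero_lt_iff.2 hwb
  have hyb' : w (y - algebraMap F K b) < w (algebraMap F K b) := by
    refine lt_of_le_of_lt hyb ?_
    calc t * w (algebraMap F K b) < 1 * w (algebraMap F K b) := mul_lt_mul_of_pos_right ht hwb0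
      _ = w (algebraMap F K b) := one_mul _
  have hwy : w y = w (algebraMap F K b) := by
    have h := w.map_add_eq_of_lt_left hyb'
    rwa [add_sub_cancel] at h
  have hy0 : y ≠ 0 := by
    intro h0
    rw [h0, map_zero] at hwy
    exact hwb hwy.symm
  refine ⟨a / b, div_ne_zero ha hb, ?_⟩
  have key : x / y - algebraMap F K (a / b)
      = ((x - algebraMap F K a) * algebraMap F K b - (y - algebraMap F K b) * algebraMap F K a)
        / (y * algebraMap F K b) := by
    rw [map_div₀]
    field_simp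
    ring
  rw [key, map_div₀ w, map_mul w, hwy, map_div₀ (algebraMap F K), map_div₀ w,
    div_le_iff₀ (mul_pos hwb0 hwb0)]
  have e : t * (w (algebraMap F K a) / w (algebraMap F K b)) * (w (algebraMap F K b) * w (algebraMap F K b))
      = t * w (algebraMap F K a) * w (algebraMap F K b) := by
    field_simp
  rw [e]
  refine (w.map_sub _ _).trans (max_le ?_ ?_)
  · rw [map_mul]
    exact mul_le_mul_left hxa _
  · rw [map_mul]
    calc w (y - algebraMap F K b) * w (algebraMap F K a)
        ≤ t * w (algebraMap F K b) * w (algebraMap F K a) := mul_le_mul_left hyb _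
      _ = t * w (algebraMap F K a) * w (algebraMap F K b) := by
          rw [mul_assoc, mul_comm (w (algebraMap F K b)), ← mul_assoc]

end Quot

section Num

variable {F : Type u} [Field F] {G : Type u} [LinearOrderedCommGroupWithZero G] (w : Valuation F G)
  {C : F[X]} {D : ℕ}

/-- |C(s) - s^D| is at most |s|^(D-1) for |s| at least 1. -/
theorem eval_sub_pow_le (hC : C.Monic) (hD : C.natDegree = D) (hint : ∀ j, w (C.coeff j) ≤ 1) (s : F) (hs : 1 ≤ w s) :
    w (C.eval s - s ^ D) ≤ w s ^ (D - 1) := by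
  have e : C.eval s - s ^ D = ∑ j ∈ Finset.range D, C.coeff j * s ^ j := by
    rw [Polynomial.eval_eq_sum_range, hD, Finset.sum_range_succ, ← hD, hC.coeff_natDegree, one_mul, add_sub_cancel_right]
  rw [e]
  refine w.map_sum_le ?_
  intro j hj
  rw [Finset.mem_range] at hj
  rw [map_mul, map_pow]
  calc w (C.coeff j) * w s ^ j ≤ 1 * w s ^ j := mul_le_mul_left (hint j) _
    _ = w s ^ j := one_mul _
    _ ≤ w s ^ (D - 1) := pow_le_pow_right' hs (by omega)

/-- the new scalar coefficient -/
noncomputable def newA (C : F[X]) (D : ℕ) (f h a : F) : F := (f ^ D * C.eval (h / f) - (1 - a) * h ^ D) / C.eval h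

variable (hD1 : 1 ≤ D) (anis : ∀ s, w (C.eval s) = max 1 (w s) ^ D)
include anis

theorem evalne (s : F) : C.eval s ≠ 0 := by
  intro h0
  have h := anis s
  rw [h0, map_zero] at h
  have h1 : (1 : G) ≤ max 1 (w s) ^ D := one_le_pow_of_one_le' (le_max_left _ _) _
  rw [← h] at h1
  exact absurd h1 (not_le.2 zero_lt_one)

theorem wH (f h : F) (hf : f ≠ 0) : w (f ^ D * C.eval (h / f)) = max (w f) (w h) ^ D := by
  have hwf : w f ≠ 0 := (Valuation.ne_zero_iff w).2 hf
  have hwf0 : 0 < w f := zero_lt_iff.2 hwf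
  rw [map_mul, map_pow, anis, ← mul_pow, map_div₀]
  congr 1
  rcases le_total (w h) (w f) with hle | hle
  · rw [max_eq_left hle, max_eq_left ((div_le_one₀ hwf0).2 hle), mul_one]
  · rw [max_eq_right hle, max_eq_right ((one_le_div₀ hwf0).2 hle), mul_div_cancel₀ _ hwf]

theorem newA_le_one (f h a : F) (hf : f ≠ 0) (hf1 : w f ≤ 1) (ha : w a ≤ 1) : w (newA C D f h a) ≤ 1 := by
  have hc := evalne w anis h
  have hc0 : 0 < w (C.eval h) := zero_lt_iff.2 ((Valuation.ne_zero_iff w).2 hc)
  unfold newA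
  rw [map_div₀, div_le_one₀ hc0, anis]
  refine (w.map_sub _ _).trans (max_le ?_ ?_)
  · rw [wH w anis f h hf]
    exact pow_le_pow_left' (max_le_max hf1 le_rfl) _
  · rw [map_mul, map_pow]
    have h1 : w (1 - a) ≤ 1 := by
      refine (w.map_sub _ _).trans (max_le ?_ ha)
      rw [map_one]
    calc w (1 - a) * w h ^ D ≤ 1 * w h ^ D := mul_le_mul_left h1 _
      _ = w h ^ D := one_mul _
      _ ≤ _ := pow_le_pow_left' (le_max_right _ _) _

include hD1

theorem newA_core (hC : C.Monic) (hD : C.natDegree = D) (hint : ∀ j, w (C.coeff j) ≤ 1) (f h a : F) (hf : f ≠ 0)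
    (hf1 : w f ≤ 1) (ha : w a ≤ 1) (hh : 1 ≤ w h) : w (newA C D f h a - a) ≤ (w h)⁻¹ := by
  have hc := evalne w anis h
  have hh0 : w h ≠ 0 := ne_of_gt (lt_of_lt_of_le zero_lt_one hh)
  have hh00 : 0 < w h := zero_lt_iff.2 hh0
  have hwf : w f ≠ 0 := (Valuation.ne_zero_iff w).2 hf
  have hwf0 : 0 < w f := zero_lt_iff.2 hwf
  have e : newA C D f h a - a
      = (f ^ D * (C.eval (h / f) - (h / f) ^ D) - a * (C.eval h - h ^ D)) / C.eval h := by
    unfold newA
    rw [div_sub' hc]
    congr 1
    rw [div_pow]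
    field_simp
    ring
  rw [e, map_div₀, anis, max_eq_right hh]
  have hp : 0 < w h ^ D := pow_pos hh00 _
  have hDD : D = (D - 1) + 1 := by omega
  rw [div_le_iff₀ hp]
  have e2 : (w h)⁻¹ * w h ^ D = w h ^ (D - 1) := by
    rw [hDD, pow_succ', Nat.add_sub_cancel, ← mul_assoc, inv_mul_cancel₀ hh0, one_mul]
  rw [e2]
  refine (w.map_sub _ _).trans (max_le ?_ ?_)
  · have hs : 1 ≤ w (h / f) := by
      rw [map_div₀, one_le_div₀ hwf0]
      exact hf1.trans hh
    rw [map_mul, map_pow]
    calc w f ^ D * w (C.eval (h / f) - (h / f) ^ D) ≤ w f ^ D * w (h / f) ^ (D - 1) :=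
          mul_le_mul_right (eval_sub_pow_le w hC hD hint _ hs) _
      _ = w f * w h ^ (D - 1) := by
          rw [map_div₀, div_pow]
          nth_rewrite 1 [hDD]
          rw [pow_succ']
          field_simp
      _ ≤ 1 * w h ^ (D - 1) := mul_le_mul_left hf1 _
      _ = _ := one_mul _
  · rw [map_mul]
    calc w a * w (C.eval h - h ^ D) ≤ 1 * w h ^ (D - 1) :=
          mul_le_mul' ha (eval_sub_pow_le w hC hD hint _ hh)
      _ = _ := one_mul _

theorem newA_deep (f h a : F) (hf : f ≠ 0) (hf1 : w f < 1) (ha : w a ≤ 1) (hh : w h < w f) :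
    w (newA C D f h a) = w f ^ D := by
  have hwf0 : 0 < w f := zero_lt_iff.2 ((Valuation.ne_zero_iff w).2 hf)
  unfold newA
  rw [map_div₀, anis, max_eq_left (hh.le.trans hf1.le), one_pow, div_one]
  have hH := wH w anis f h hf
  rw [max_eq_left hh.le] at hH
  rw [← hH]
  refine w.map_sub_eq_of_lt_left ?_
  rw [hH, map_mul, map_pow]
  have h1 : w (1 - a) ≤ 1 := by
    refine (w.map_sub _ _).trans (max_le ?_ ha)
    rw [map_one]
  calc w (1 - a) * w h ^ D ≤ 1 * w h ^ D := mul_le_mul_left h1 _
    _ = w h ^ D := one_mul _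
    _ < w f ^ D := pow_lt_pow_left₀ hh zero_le' (by omega)

theorem newA_ge (f h a : F) (hf : f ≠ 0) (hf1 : w f < 1) (hh : h ≠ 0) (h1a : w (1 - a) < w f ^ D) :
    w f ^ D ≤ w (newA C D f h a) := by
  have hwf0 : 0 < w f := zero_lt_iff.2 ((Valuation.ne_zero_iff w).2 hf)
  have hwh0 : 0 < w h := zero_lt_iff.2 ((Valuation.ne_zero_iff w).2 hh)
  have hc := evalne w anis h
  have hc0 : 0 < w (C.eval h) := zero_lt_iff.2 ((Valuation.ne_zero_iff w).2 hc)
  have hH := wH w anis f h hf
  have hnum : w (f ^ D * C.eval (h / f) - (1 - a) * h ^ D) = max (w f) (w h) ^ D := by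
    rw [← hH]
    refine w.map_sub_eq_of_lt_left ?_
    rw [hH, map_mul, map_pow]
    calc w (1 - a) * w h ^ D < w f ^ D * w h ^ D := mul_lt_mul_of_pos_right h1a (pow_pos hwh0 _)
      _ ≤ 1 * w h ^ D := mul_le_mul_left (pow_le_one' hf1.le _) _
      _ = w h ^ D := one_mul _
      _ ≤ _ := pow_le_pow_left' (le_max_right _ _) _
  unfold newA
  rw [map_div₀, le_div_iff₀ hc0, hnum, anis, ← mul_pow]
  refine pow_le_pow_left' ?_ _
  rcases le_total 1 (w h) with hle | hle
  · rw [max_eq_right hle]
    calc w f * w h ≤ 1 * w h := mul_le_mul_left hf1.le _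
      _ = w h := one_mul _
      _ ≤ _ := le_max_right _ _
  · rw [max_eq_left hle, mul_one]
    exact le_max_left _ _

end Num

end IntSt61

open IntSt61 in
/-- Row AlgC: section 3.1. -/
theorem intSt_proof (hdisj : DisjStatement.{u}) : IntStStatement.{u} := by
  intro F K _ _ _ _ I _ Γ _ v c0 r ρ f D C k T _ _ _ S hF hrk hS hG u hu0 hu1 hint
  have hgood2 : Good F v f 2 S := by
    intro x hx0 hx1 hxi hx2 hx3
    refine hG x hx0 hx1 hxi (fun i => ?_) (fun i => ?_)
    · exact (pow_le_pow_right_of_le_one' (hF.vf i).le (by omega)).trans (hx2 i)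
    · exact (pow_le_pow_right_of_le_one' (hF.vf i).le (by omega)).trans (hx3 i)
  have hdis := hdisj F K I Γ v c0 r ρ f D C k T S hF hrk hS hgood2
  have h1u : (1 : K) - u ≠ 0 := sub_ne_zero.2 (Ne.symm hu1)
  set a : F := c0 u with ha
  set ν : K := u - algebraMap F K a with hν
  by_cases hν0 : ν = 0
  · -- u is a scalar
    have hua : u = algebraMap F K a := sub_eq_zero.1 hν0
    have ha0 : a ≠ 0 := by
      intro h0
      rw [hua, h0, map_zero] at hu0
      exact hu0 rfl
    refine hS.trivl u (1 - u) hu0 h1u (fun i => ⟨a, ha0, ?_⟩)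
    have hz : u - algebraMap F K a = 0 := hν0
    rw [hz, map_zero]
    exact zero_lt_iff.2 ((Valuation.ne_zero_iff _).2 ((_root_.map_ne_zero _).2 ha0))
  -- basic facts
  have c0ν : c0 ν = 0 := by
    rw [hν, map_sub, Algebra.algebraMap_eq_smul_one, map_smul, hF.c1, smul_eq_mul, mul_one, ← ha, sub_self]
  have c0add : ∀ s : F, c0 (ν + algebraMap F K s) = s := by
    intro s
    rw [map_add, c0ν, zero_add, Algebra.algebraMap_eq_smul_one, map_smul, hF.c1, smul_eq_mul, mul_one]
  have c0sub : ∀ s : F, c0 (algebraMap F K s - ν) = s := by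
    intro s
    rw [map_sub, c0ν, sub_zero, Algebra.algebraMap_eq_smul_one, map_smul, hF.c1, smul_eq_mul, mul_one]
  have vadd : ∀ i (s : F), v i (ν + algebraMap F K s) = max (v i (algebraMap F K s)) (v i ν) := by
    intro i s
    rw [hF.vmax i (ν + algebraMap F K s), c0add, add_sub_cancel_right]
  have vsub : ∀ i (s : F), v i (algebraMap F K s - ν) = max (v i (algebraMap F K s)) (v i ν) := by
    intro i s
    rw [hF.vmax i (algebraMap F K s - ν), c0sub, sub_sub_cancel_left, Valuation.map_neg]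
  have uν : u = ν + algebraMap F K a := by rw [hν, sub_add_cancel]
  have u1ν : 1 - u = algebraMap F K (1 - a) - ν := by
    rw [uν, map_sub, map_one]
    ring
  -- the new element
  set k1 : ℕ := 2 * D + 27 with hk1
  set h : F := Algebra.norm F ν / f ^ (r * k1) with hh
  set a' : F := newA C D f h a with ha'
  set u' : K := ν + algebraMap F K a' with hu'
  have u1ν' : 1 - u' = algebraMap F K (1 - a') - ν := by
    rw [hu', map_sub, map_one]
    ring
  have vν0 : ∀ i, 0 < v i ν := fun i => zero_lt_iff.2 ((Valuation.ne_zero_iff _).2 hν0)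
  have u'0 : u' ≠ 0 := by
    intro h0
    obtain ⟨i⟩ := (inferInstance : Nonempty I)
    have h1 := vadd i a'
    rw [← hu', h0, map_zero] at h1
    have h2 := (vν0 i).trans_le (le_max_right (v i (algebraMap F K a')) (v i ν))
    rw [← h1] at h2
    exact lt_irrefl _ h2
  have u1'0 : 1 - u' ≠ 0 := by
    intro h0
    obtain ⟨i⟩ := (inferInstance : Nonempty I)
    have h1 := vsub i (1 - a')
    rw [← u1ν', h0, map_zero] at h1
    have h2 := (vν0 i).trans_le (le_max_right (v i (algebraMap F K (1 - a'))) (v i ν))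
    rw [← h1] at h2
    exact lt_irrefl _ h2
  -- per place: valuation on F
  let w : ∀ i, Valuation F (Γ i) := fun i => (v i).comap (algebraMap F K)
  have hw : ∀ i (s : F), w i s = v i (algebraMap F K s) := fun i s => Valuation.comap_apply _ _ _
  have wf1 : ∀ i, w i f < 1 := fun i => hF.vf i
  have wf0 : ∀ i, 0 < w i f := fun i => zero_lt_iff.2 ((Valuation.ne_zero_iff _).2 hF.f0)
  have anis : ∀ i s, w i (C.eval s) = max 1 (w i s) ^ D := fun i s => hF.anis i s
  have cint : ∀ i j, w i (C.coeff j) ≤ 1 := fun i j => hF.Cint i j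
  have wa : ∀ i, w i a ≤ 1 := by
    intro i
    refine le_trans ?_ (hint i)
    rw [hF.vmax i u, ← ha]
    exact le_max_left _ _
  have vν1 : ∀ i, v i ν ≤ 1 := by
    intro i
    refine le_trans ?_ (hint i)
    rw [hF.vmax i u, ← ha]
    exact le_max_right _ _
  have w1a : ∀ i, w i (1 - a) ≤ 1 := by
    intro i
    refine ((w i).map_sub _ _).trans (max_le ?_ (wa i))
    rw [map_one]
  have wa' : ∀ i, w i a' ≤ 1 := fun i => newA_le_one (w i) (anis i) f h a hF.f0 (wf1 i).le (wa i)
  have hnm : ∀ i, w i h = (v i ν / w i f ^ k1) ^ r := by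
    intro i
    rw [hh, map_div₀, map_pow, hw i (Algebra.norm F ν), hF.vnm i ν, div_pow, ← pow_mul, mul_comm r k1]
  have h0 : h ≠ 0 := by
    obtain ⟨i⟩ := (inferInstance : Nonempty I)
    rw [← Valuation.ne_zero_iff (w i), hnm i]
    exact pow_ne_zero _ (div_ne_zero (vν0 i).ne' (pow_ne_zero _ (wf0 i).ne'))
  have hr : 2 ≤ r := hF.two
  -- the core
  have core : ∀ i, w i f ^ (D + 9) ≤ v i ν → w i (a' - a) ≤ w i f ^ (D + 18) := by
    intro i hi
    have hk : w i f ^ k1 = w i f ^ (D + 18) * w i f ^ (D + 9) := by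
      rw [← pow_add]
      congr 1
      omega
    have hq : w i f ^ k1 / v i ν ≤ w i f ^ (D + 18) := by
      rw [div_le_iff₀ (vν0 i), hk]
      exact mul_le_mul_right hi _
    have hinv : (w i h)⁻¹ ≤ w i f ^ (D + 18) := by
      rw [hnm i, ← inv_pow, inv_div]
      calc (w i f ^ k1 / v i ν) ^ r ≤ (w i f ^ k1 / v i ν) ^ 1 :=
            pow_le_pow_right_of_le_one' (hq.trans (pow_le_one' (wf1 i).le _)) (by omega)
        _ = w i f ^ k1 / v i ν := pow_one _
        _ ≤ _ := hq
    have hw0 : 0 < w i h := zero_lt_iff.2 ((Valuation.ne_zero_iff _).2 h0)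
    have h1 : 1 ≤ w i h := by
      have := hinv.trans (pow_le_one' (wf1 i).le (D + 18))
      exact (inv_le_one₀ hw0).1 this
    exact (newA_core (w i) hF.Dpos (anis i) hF.Cmon hF.Cdeg (cint i) f h a hF.f0 (wf1 i).le (wa i) h1).trans hinv
  -- deep places
  have deep : ∀ i, v i ν ≤ w i f ^ (k1 + 1) → w i a' = w i f ^ D := by
    intro i hi
    refine newA_deep (w i) hF.Dpos (anis i) f h a hF.f0 (wf1 i) (wa i) ?_
    rw [hnm i]
    have hq : v i ν / w i f ^ k1 ≤ w i f := by
      rw [div_le_iff₀ (pow_pos (wf0 i) _), ← pow_succ']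
      exact hi
    calc (v i ν / w i f ^ k1) ^ r ≤ w i f ^ r := pow_le_pow_left' hq _
      _ ≤ w i f ^ 2 := pow_le_pow_right_of_le_one' (wf1 i).le hr
      _ = w i f * w i f := pow_two _
      _ < 1 * w i f := mul_lt_mul_of_pos_right (wf1 i) (wf0 i)
      _ = w i f := one_mul _
  -- u' is good
  have hD1 : 1 ≤ D := hF.Dpos
  have hgood : S u' (1 - u') = 0 := by
    refine hG u' u'0 (fun h1 => u1'0 (by rw [h1, sub_self])) (fun i => ?_) (fun i => ?_) (fun i => ?_)
    · rw [hu', vadd]
      exact max_le (wa' i) (vν1 i)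
    · rw [hu', vadd]
      rcases le_total (v i ν) (w i f ^ (k1 + 1)) with hi | hi
      · refine le_trans ?_ (le_max_left _ _)
        have := deep i hi
        rw [← hw i a', this]
        exact pow_le_pow_right_of_le_one' (wf1 i).le (by omega)
      · refine le_trans ?_ (le_max_right _ _)
        exact (pow_le_pow_right_of_le_one' (wf1 i).le (by omega)).trans hi
    · rw [u1ν', vsub]
      rcases le_total (v i ν) (w i f ^ (k1 + 1)) with hi | hi
      · refine le_trans ?_ (le_max_left _ _)
        have h2 := deep i hi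
        have h3 : w i (1 - a') = w i 1 := by
          refine (w i).map_sub_eq_of_lt_left ?_
          rw [h2, map_one]
          exact pow_lt_one₀ zero_le' (wf1 i) (by omega)
        rw [← hw i (1 - a'), h3, map_one]
        exact pow_le_one' (wf1 i).le _
      · refine le_trans ?_ (le_max_right _ _)
        exact (pow_le_pow_right_of_le_one' (wf1 i).le (by omega)).trans hi
  -- triviality criteria
  have ht1 : ∀ i, w i f ^ 9 < 1 := fun i => pow_lt_one₀ zero_le' (wf1 i) (by omega)
  have triv_add : ∀ i (s : F), v i ν ≤ w i f ^ 9 * w i s → TrivK F (v i) (w i f ^ 9) (ν + algebraMap F K s) := by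
    intro i s hs
    have hs0 : s ≠ 0 := by
      intro h1
      rw [h1, map_zero, mul_zero] at hs
      exact absurd hs (not_le.2 (vν0 i))
    refine ⟨s, hs0, ?_⟩
    rw [add_sub_cancel_right]
    exact hs
  have triv_sub : ∀ i (s : F), v i ν ≤ w i f ^ 9 * w i s → TrivK F (v i) (w i f ^ 9) (algebraMap F K s - ν) := by
    intro i s hs
    have hs0 : s ≠ 0 := by
      intro h1
      rw [h1, map_zero, mul_zero] at hs
      exact absurd hs (not_le.2 (vν0 i))
    refine ⟨s, hs0, ?_⟩
    rw [sub_sub_cancel_left, Valuation.map_neg]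
    exact hs
  -- bounds outside the core
  have lt_of_lt : ∀ i (s : F), v i ν < w i f ^ (D + 9) → w i f ^ 9 * w i s < v i ν → w i s < w i f ^ D := by
    intro i s h1 h2
    have h3 : w i f ^ 9 * w i s < w i f ^ 9 * w i f ^ D := by
      rw [← pow_add, Nat.add_comm 9 D]
      exact h2.trans h1
    exact lt_of_mul_lt_mul_left' h3
  have outI : ∀ i, v i ν < w i f ^ (D + 9) → ¬ v i ν ≤ w i f ^ 9 * w i (1 - a) →
      v i ν ≤ w i f ^ 9 * w i a ∧ v i ν ≤ w i f ^ 9 * w i a' ∧ w i f ^ D ≤ w i a' := by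
    intro i h1 h2
    have h3 : w i (1 - a) < w i f ^ D := lt_of_lt i _ h1 (not_le.1 h2)
    have h4 : w i a = 1 := by
      have h5 : w i (1 - (1 - a)) = w i 1 := by
        refine (w i).map_sub_eq_of_lt_left ?_
        rw [map_one]
        exact h3.trans_le (pow_le_one' (wf1 i).le _)
      rwa [sub_sub_cancel, map_one] at h5
    have h6 : w i f ^ D ≤ w i a' := newA_ge (w i) hF.Dpos (anis i) f h a hF.f0 (wf1 i) h0 h3
    refine ⟨?_, ?_, h6⟩
    · rw [h4, mul_one]
      exact h1.le.trans (pow_le_pow_right_of_le_one' (wf1 i).le (by omega))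
    · refine h1.le.trans ?_
      rw [Nat.add_comm D 9, pow_add]
      exact mul_le_mul_right h6 _
  have outII : ∀ i, v i ν < w i f ^ (D + 9) → ¬ v i ν ≤ w i f ^ 9 * w i a' →
      v i ν ≤ w i f ^ 9 * w i (1 - a) ∧ v i ν ≤ w i f ^ 9 * w i (1 - a') := by
    intro i h1 h2
    have h3 : w i a' < w i f ^ D := lt_of_lt i _ h1 (not_le.1 h2)
    constructor
    · by_contra h4
      exact absurd h3 (not_lt.2 (outI i h1 h4).2.2)
    · have h5 : w i (1 - a') = w i 1 := by
        refine (w i).map_sub_eq_of_lt_left ?_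
        rw [map_one]
        exact h3.trans_le (pow_le_one' (wf1 i).le _)
      rw [h5, map_one, mul_one]
      exact h1.le.trans (pow_le_pow_right_of_le_one' (wf1 i).le (by omega))
  -- core quotients
  have hdiff : u - u' = algebraMap F K (a - a') := by
    rw [hu', uν, map_sub]
    ring
  have coreQ : ∀ i, w i f ^ (D + 9) ≤ v i ν →
      TrivK F (v i) (w i f ^ 9) (u / u') ∧ TrivK F (v i) (w i f ^ 9) ((1 - u) / (1 - u')) := by
    intro i hi
    have h1 := core i hi
    have h1' : v i (algebraMap F K (a - a')) ≤ w i f ^ (D + 18) := by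
      rw [← hw, Valuation.map_sub_swap]
      exact h1
    have hu'v : w i f ^ (D + 9) ≤ v i u' := by
      rw [hu', vadd]
      exact hi.trans (le_max_right _ _)
    have h1u'v : w i f ^ (D + 9) ≤ v i (1 - u') := by
      rw [u1ν', vsub]
      exact hi.trans (le_max_right _ _)
    have hk : w i f ^ (D + 18) = w i f ^ 9 * w i f ^ (D + 9) := by
      rw [← pow_add]
      congr 1
      omega
    constructor
    · refine ⟨1, one_ne_zero, ?_⟩
      rw [map_one, map_one, mul_one]
      have e : u / u' - 1 = (u - u') / u' := by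
        field_simp
      rw [e, map_div₀, hdiff, div_le_iff₀ (zero_lt_iff.2 ((Valuation.ne_zero_iff _).2 u'0))]
      refine h1'.trans ?_
      rw [hk]
      exact mul_le_mul_right hu'v _
    · refine ⟨1, one_ne_zero, ?_⟩
      rw [map_one, map_one, mul_one]
      have e : (1 - u) / (1 - u') - 1 = -(u - u') / (1 - u') := by
        rw [div_sub_one u1'0]
        congr 1
        ring
      rw [e, map_div₀, Valuation.map_neg, hdiff, div_le_iff₀ (zero_lt_iff.2 ((Valuation.ne_zero_iff _).2 u1'0))]
      refine h1'.trans ?_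
      rw [hk]
      exact mul_le_mul_right h1u'v _
  -- the two applications of (2.1)
  have A1 : S (u / u') (1 - u) = 0 := by
    refine hdis (u / u') (1 - u) (div_ne_zero hu0 u'0) h1u (fun i => ?_)
    change TrivK F (v i) (w i f ^ 9) (u / u') ∨ TrivK F (v i) (w i f ^ 9) (1 - u)
    rcases le_or_gt (w i f ^ (D + 9)) (v i ν) with hi | hi
    · exact Or.inl (coreQ i hi).1
    · by_cases h2 : v i ν ≤ w i f ^ 9 * w i (1 - a)
      · right
        rw [u1ν]
        exact triv_sub i _ h2
      · left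
        obtain ⟨h3, h4, -⟩ := outI i hi h2
        refine trivK_div (ht1 i) ?_ (triv_add i _ h4)
        rw [uν]
        exact triv_add i _ h3
  have A2 : S u' ((1 - u) / (1 - u')) = 0 := by
    refine hdis u' ((1 - u) / (1 - u')) u'0 (div_ne_zero h1u u1'0) (fun i => ?_)
    change TrivK F (v i) (w i f ^ 9) u' ∨ TrivK F (v i) (w i f ^ 9) ((1 - u) / (1 - u'))
    rcases le_or_gt (w i f ^ (D + 9)) (v i ν) with hi | hi
    · exact Or.inr (coreQ i hi).2
    · by_cases h2 : v i ν ≤ w i f ^ 9 * w i a'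
      · left
        exact triv_add i _ h2
      · right
        obtain ⟨h3, h4⟩ := outII i hi h2
        refine trivK_div (ht1 i) ?_ ?_
        · rw [u1ν]
          exact triv_sub i _ h3
        · rw [u1ν']
          exact triv_sub i _ h4
  calc S u (1 - u) = S (u / u' * u') (1 - u) := by rw [div_mul_cancel₀ _ u'0]
    _ = S (u / u') (1 - u) + S u' (1 - u) := hS.mull _ _ _ (div_ne_zero hu0 u'0) u'0 h1u
    _ = S u' ((1 - u) / (1 - u') * (1 - u')) := by rw [A1, zero_add, div_mul_cancel₀ _ u1'0]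
    _ = S u' ((1 - u) / (1 - u')) + S u' (1 - u') := hS.mulr _ _ _ u'0 (div_ne_zero h1u u1'0) u1'0
    _ = 0 := by rw [A2, hgood, zero_add]

end CL
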