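import Pool.Agent.Lib.MP_defcf3_al.CL.Nk

/-!
Project CL (MP_defcf3_al), part (B), row Loc: (5.6) and (5.7) of finding 4324.
-/

open Polynomial

namespace CL

universe u

namespace Lo

theorem tors_zero {T : Type u} [AddCommGroup T] {p r : ℕ} (hp : p.Prime) (hr : 1 ≤ r) (hrp : r < p)
    (htors : ∀ t : T, p • t = 0) {t : T} (h : r • t = 0) : t = 0 := by
  have hcop : Nat.Coprime p r := by
    rw [hp.coprime_iff_not_dvd]
    intro h
    have := Nat.le_of_dvd (by omega) h
    omega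
  have h4 : addOrderOf t ∣ Nat.gcd p r :=
    Nat.dvd_gcd (addOrderOf_dvd_of_nsmul_eq_zero (htors t)) (addOrderOf_dvd_of_nsmul_eq_zero h)
  rw [hcop.gcd_eq_one, Nat.dvd_one, AddMonoid.addOrderOf_eq_one_iff] at h4
  exact h4

theorem aux_ab {T : Type u} [AddCommGroup T] {a b c d : T} (h : a - b = c - (d + b)) : d = c - a := by
  have h1 : d = c - (a - b) - b := by
    rw [h]
    abel
  rw [h1]
  abel

/-- Unitisation: a scalar times A^r has norm 1 at all V in ZZ. -/
theorem unitise (hPn : PnStatement.{u}) (hFam : FamStatement.{u}) (F : Type u) [Field F] (P : F[X])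
    (hirr : Irreducible P) (D : ℕ) (Cp : F[X]) (ZZ : Set (ValuationSubring F)) (f : F) (hm : P.Monic)
    (h2 : 2 ≤ P.natDegree) (hf : f ≠ 0)
    (hZ : ∀ V ∈ ZZ, Inert V P ∧ Anis V D Cp ∧ CoV V Cp ∧ V.valuation f < 1) (hD : 1 ≤ D) (hCm : Cp.Monic)
    (hCd : Cp.natDegree = D) (hC0 : Cp.coeff 0 = 1) (A : F[X]) (hA : A ≠ 0) (hAr : A.natDegree < P.natDegree) :
    ∃ c : F, c ≠ 0 ∧ ∀ V ∈ ZZ, pn V (C c * ((A ^ P.natDegree) %ₘ P)) = 1 := by
  have : Fact (Irreducible P) := ⟨hirr⟩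
  have hfd : FiniteDimensional F (AdjoinRoot P) := (AdjoinRoot.powerBasis hirr.ne_zero).finite
  obtain ⟨v, c0, hF, hv⟩ := hFam F P D Cp ZZ f hm h2 hf hZ hD hCm hCd hC0
  have hP1 : P ≠ 1 := by
    intro h
    rw [h, natDegree_one] at h2
    omega
  have hmk : AdjoinRoot.mk P A ≠ 0 := by
    rw [Ne, AdjoinRoot.mk_eq_zero]
    intro h
    have := natDegree_le_of_dvd h hA
    omega
  refine ⟨(Algebra.norm F (AdjoinRoot.mk P A))⁻¹, inv_ne_zero (Algebra.norm_ne_zero_iff.2 hmk), ?_⟩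
  intro V hV
  obtain ⟨p1, p2, p3, p4, p5, p6, p7, p8, p9, p10, p11⟩ := hPn F V
  have h1 : pn V ((A ^ P.natDegree) %ₘ P) = v ⟨V, hV⟩ (AdjoinRoot.mk P A) ^ P.natDegree := by
    rw [← hv ⟨V, hV⟩ _ (natDegree_modByMonic_lt _ hm hP1), ← map_pow, ← map_pow]
    congr 1
    rw [AdjoinRoot.mk_eq_mk]
    have := modByMonic_add_div (A ^ P.natDegree) P
    refine ⟨-((A ^ P.natDegree) /ₘ P), ?_⟩
    linear_combination this
  have h3 : v ⟨V, hV⟩ (algebraMap F (AdjoinRoot P) (Algebra.norm F (AdjoinRoot.mk P A))) =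
      V.valuation (Algebra.norm F (AdjoinRoot.mk P A)) := by
    rw [← p8, ← hv ⟨V, hV⟩ (C (Algebra.norm F (AdjoinRoot.mk P A))) (by rw [natDegree_C]; omega)]
    rfl
  have h4 := hF.vnm ⟨V, hV⟩ (AdjoinRoot.mk P A)
  rw [h3] at h4
  rw [p7, h1, ← h4, map_inv₀, inv_mul_cancel₀]
  rw [Ne, map_eq_zero]
  exact Algebra.norm_ne_zero_iff.2 hmk

end Lo

theorem loc_proof (hPn : PnStatement.{u}) (hInr : InrStatement.{u}) (hSim : SimStatement.{u})
    (hPx : PxStatement.{u}) (hGen : GenStatement.{u}) (hGnr : GnrStatement.{u}) (hFam : FamStatement.{u}) :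
    LocStatement.{u} := by
  intro F _ l p e n r Z P a f D Cp E cont H K mm T _ h Ef hC hH hE
  obtain ⟨x1, x2, x3, x4⟩ := hPx F l p e n r Z P a f D Cp E cont H K mm hC
  have hr2 := hC.num.r2
  have hdeg := hC.deg
  have hmon := hC.mon
  have hm3 := hC.m3
  have hin : ∀ V ∈ Za Z l e n a P, Inert V P := fun V hV => (x3 V hV).1.2.1
  have hf1 : ∀ V ∈ Za Z l e n a P, V.valuation f < 1 := fun V hV => (x3 V hV).2.1
  have hf0 : ∀ V ∈ Za Z l e n a P, 0 < V.valuation f := fun V hV => (x3 V hV).2.2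
  obtain ⟨V0, hV0⟩ := hC.ne
  have hunit := Lo.unitise hPn hFam F P hC.irr D Cp (Za Z l e n a P) f hmon (by omega) hC.f0 (by
    intro V hV
    refine ⟨hin V hV, (x1 P hmon hdeg V (x3 V hV).1).2, ?_, hf1 V hV⟩
    intro i
    obtain ⟨m, hm⟩ := hC.ani.pf i
    rw [hm]
    exact intCast_mem V m) hC.ani.Dpos hC.ani.mon hC.ani.deg hC.ani.zero
  -- PA for smaller exponents
  have hPA1 : ∀ X : F[X], PA Z l e n a r P f (mm - 1) X → PA Z l e n a r P f mm X := by
    rintro X ⟨h1, h2, h3⟩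
    refine ⟨h1, h2, fun V hV => ⟨?_, (h3 V hV).2⟩⟩
    refine le_trans ?_ (h3 V hV).1
    exact pow_le_pow_right_of_le_one' (hf1 V hV).le (by omega)
  have hpowlt : ∀ V ∈ Za Z l e n a P, ∀ i j : ℕ, i < j → V.valuation f ^ j < V.valuation f ^ i := by
    intro V hV i j hij
    exact pow_lt_pow_right_of_lt_one₀ (hf0 V hV) (hf1 V hV) hij
  have hsub : ∀ A B : F[X], A.natDegree < r → B.natDegree < r → (A - B).natDegree < r := fun A B hA hB =>
    lt_of_le_of_lt (natDegree_sub_le A B) (max_lt hA hB)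
  -- a polynomial smaller than X does not change the class
  have hsimsub : ∀ V ∈ Za Z l e n a P, ∀ A B : F[X], pn V B < pn V A → PSim V (A - B) A := by
    intro V hV A B h
    obtain ⟨s1, s2, s3, s4, s5, s6, s7, s8, s9⟩ := hSim F V
    obtain ⟨p1, p2, p3, p4, p5, p6, p7, p8, p9, p10, p11⟩ := hPn F V
    apply s4
    rw [sub_sub_cancel_left, p5]
    exact h
  -- main identity: (1.1) for (X, Y')
  have hmain : ∀ X Y' : F[X], PA Z l e n a r P f mm X → PA Z l e n a r P f mm Y' →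
      (∀ V ∈ Za Z l e n a P, pn V Y' < pn V X) →
      (∀ V ∈ Bd Z (QQ l e n) (PX l e n K P X), V ∉ Za Z l e n a P → 1 ≤ pn V (X - Y')) →
      (∀ V ∈ Bd Z (QQ l e n) (PX l e n K P Y'), V ∉ Za Z l e n a P → 1 ≤ pn V (X - Y')) →
      Ef X Y' - Ef X X = Ef Y' Y' - Ef Y' X := by
    intro X Y' hX hY' hlt h1 h2
    have hne : Y' ≠ X := by
      rintro rfl
      exact lt_irrefl _ (hlt V0 hV0)
    have hpnsym : ∀ V : ValuationSubring F, pn V (Y' - X) = pn V (X - Y') := by
      intro V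
      obtain ⟨p1, p2, p3, p4, p5, p6, p7, p8, p9, p10, p11⟩ := hPn F V
      rw [← p5, neg_sub]
    have hg := hGen F l p e n r Z P a f D Cp E cont H K mm T h Ef hC hH hE Y' X hY' hX hne
      (fun V hV hV' => by rw [hpnsym]; exact h2 V hV hV') (fun V hV hV' => by rw [hpnsym]; exact h1 V hV hV')
    have hcl : ∀ W : F[X], PA Z l e n a r P f mm W → Ef (Y' - X) W = Ef X W := by
      intro W hW
      apply hE.cls W hW _ _ (sub_ne_zero.2 hne) (hsub _ _ hY'.2.1 hX.2.1) hX.1 hX.2.1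
      intro V hV
      obtain ⟨s1, s2, s3, s4, s5, s6, s7, s8, s9⟩ := hSim F V
      have h3 : Y' - X = C (-1) * (X - Y') := by
        rw [C_neg, C_1]
        ring
      rw [h3]
      exact s3 _ _ _ (s5 (X - Y') (-1) (neg_ne_zero.2 one_ne_zero) (sub_ne_zero.2 hne.symm))
        (hsimsub V hV X Y' (hlt V hV))
    rw [hcl Y' hY', hcl X hX] at hg
    exact hg
  -- (5.6)
  have h56 : ∀ X X' x : F[X], PA Z l e n a r P f (mm - 1) X → PA Z l e n a r P f mm X' →
      (∀ V ∈ Za Z l e n a P, pn V (X - X') < pn V X) → x ≠ 0 → x.natDegree < r → Ef x X = Ef x X' := by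
    intro X X' x hX1 hX' hXX' hx hxr
    have hX := hPA1 X hX1
    -- unitise x
    obtain ⟨c, hc0, hc⟩ := hunit x hx (by omega)
    have hP1 : P ≠ 1 := by
      rintro rfl
      rw [natDegree_one] at hdeg
      omega
    set x0 := (x ^ P.natDegree) %ₘ P with hx0
    have hnd : ¬ P ∣ x := by
      intro h
      have := natDegree_le_of_dvd h hx
      omega
    have hx00 : x0 ≠ 0 := Nk.mod_ne hmon fun h => hnd (hC.irr.prime.dvd_of_dvd_pow h)
    have hx0r : x0.natDegree < r := by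
      rw [← hdeg]
      exact natDegree_modByMonic_lt _ hmon hP1
    set x1 := C c * x0 with hx1
    have hx10 : x1 ≠ 0 := mul_ne_zero (C_ne_zero.2 hc0) hx00
    have hx1r : x1.natDegree < r := by
      rw [hx1, natDegree_C_mul hc0]
      exact hx0r
    have hEx : ∀ W : F[X], PA Z l e n a r P f mm W → Ef x1 W = r • Ef x W := by
      intro W hW
      have e1 : Ef x1 W = Ef x0 W := by
        apply hE.cls W hW _ _ hx10 hx1r hx00 hx0r
        intro V hV
        obtain ⟨s1, s2, s3, s4, s5, s6, s7, s8, s9⟩ := hSim F V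
        exact s5 x0 c hc0 hx00
      have e2 := Nk.G_pow (g := fun B => Ef B W) hmon hC.irr (fun A B hA hAr hB hBr => hE.mul W hW A B hA
        (by omega) hB (by omega)) hnd P.natDegree
      have e3 : x %ₘ P = x := by
        rw [modByMonic_eq_self_iff hmon]
        apply degree_lt_degree
        omega
      rw [e3] at e2
      rw [e1, hx0, ← hdeg]
      exact e2
    have key : Ef x1 X = Ef x1 X' := by
      set Y := C f * ((x1 * X) %ₘ P) with hY
      have hpY : ∀ V ∈ Za Z l e n a P, pn V Y = V.valuation f * pn V X := by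
        intro V hV
        obtain ⟨p1, p2, p3, p4, p5, p6, p7, p8, p9, p10, p11⟩ := hPn F V
        obtain ⟨i1, i2, i3⟩ := hInr F V P hmon (by omega) (hin V hV)
        rw [hY, p7, i1 x1 X (by omega) (by have := hX.2.1; omega), hc V hV, one_mul]
      have hYr : Y.natDegree < r := by
        rw [hY, natDegree_C_mul hC.f0, ← hdeg]
        exact natDegree_modByMonic_lt _ hmon hP1
      have hxX0 : (x1 * X) %ₘ P ≠ 0 := by
        apply Nk.mod_ne hmon
        intro h
        rcases hC.irr.prime.dvd_or_dvd h with h | h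
        · have := natDegree_le_of_dvd h hx10
          omega
        · have := natDegree_le_of_dvd h hX.1
          have := hX.2.1
          omega
      have hY0 : Y ≠ 0 := mul_ne_zero (C_ne_zero.2 hC.f0) hxX0
      have hYA : PA Z l e n a r P f mm Y := by
        refine ⟨hY0, hYr, fun V hV => ?_⟩
        rw [hpY V hV]
        refine ⟨?_, ?_⟩
        · obtain ⟨t, ht⟩ : ∃ t, mm = t + 1 := ⟨mm - 1, by omega⟩
          have h1 := (hX1.2.2 V hV).1
          rw [ht, Nat.add_sub_cancel] at h1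
          rw [ht, pow_succ']
          gcongr
        · calc V.valuation f * pn V X ≤ V.valuation f * 1 := by
                gcongr
                exact ((hX.2.2 V hV).2).trans (hf1 V hV).le
            _ = V.valuation f := mul_one _
      obtain ⟨s, hs1, hs2, hs3⟩ := hGnr F l p e n r Z P a f D Cp E cont H K mm hC X X' Y hX hX' hYA
      have hYs : ∀ V ∈ Za Z l e n a P, pn V (C s) < pn V Y := by
        intro V hV
        obtain ⟨p1, p2, p3, p4, p5, p6, p7, p8, p9, p10, p11⟩ := hPn F V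
        rw [p8]
        exact lt_of_lt_of_le (lt_of_le_of_lt (hs1 V hV) (hpowlt V hV mm (mm + 1) (by omega))) (hYA.2.2 V hV).1
      have hY's : ∀ V ∈ Za Z l e n a P, pn V (Y + C s) = pn V Y := by
        intro V hV
        obtain ⟨p1, p2, p3, p4, p5, p6, p7, p8, p9, p10, p11⟩ := hPn F V
        rw [add_comm]
        exact p6 _ _ (hYs V hV)
      have hYX : ∀ V ∈ Za Z l e n a P, pn V (Y + C s) < pn V X := by
        intro V hV
        have hX0' : 0 < pn V X := lt_of_lt_of_le (pow_pos (hf0 V hV) _) (hX.2.2 V hV).1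
        rw [hY's V hV, hpY V hV]
        calc V.valuation f * pn V X < 1 * pn V X := mul_lt_mul_of_pos_right (hf1 V hV) hX0'
          _ = pn V X := one_mul _
      have hXeq : ∀ V ∈ Za Z l e n a P, pn V X' = pn V X := by
        intro V hV
        obtain ⟨p1, p2, p3, p4, p5, p6, p7, p8, p9, p10, p11⟩ := hPn F V
        have h1 : X' = -(X - X') + X := by ring
        rw [h1]
        apply p6
        rw [p5]
        exact hXX' V hV
      have m1 := hmain X (Y + C s) hX hs2 hYX (hs3 X (Or.inl rfl)).1 (hs3 X (Or.inl rfl)).2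
      have m2 := hmain X' (Y + C s) hX' hs2 (fun V hV => by rw [hXeq V hV]; exact hYX V hV)
        (hs3 X' (Or.inr rfl)).1 (hs3 X' (Or.inr rfl)).2
      have hXX : ∀ W : F[X], PA Z l e n a r P f mm W → Ef X' W = Ef X W := by
        intro W hW
        apply hE.cls W hW _ _ hX'.1 hX'.2.1 hX.1 hX.2.1
        intro V hV
        obtain ⟨s1, s2, s3, s4, s5, s6, s7, s8, s9⟩ := hSim F V
        obtain ⟨p1, p2, p3, p4, p5, p6, p7, p8, p9, p10, p11⟩ := hPn F V
        apply s4
        rw [← p5, neg_sub]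
        exact hXX' V hV
      rw [hXX _ hs2, hXX _ hX'] at m2
      have hYcl : ∀ W : F[X], PA Z l e n a r P f mm W → Ef (Y + C s) W = Ef x1 W + Ef X W := by
        intro W hW
        rw [← hE.mul W hW x1 X hx10 hx1r hX.1 hX.2.1]
        apply hE.cls W hW _ _ hs2.1 hs2.2.1 hxX0
          (by rw [← hdeg]; exact natDegree_modByMonic_lt _ hmon hP1)
        intro V hV
        obtain ⟨s1, s2, s3, s4, s5, s6, s7, s8, s9⟩ := hSim F V
        apply s3 _ Y _
        · apply s4
          rw [add_sub_cancel_left]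
          exact hYs V hV
        · exact s5 _ f hC.f0 hxX0
      rw [hYcl X hX] at m1
      rw [hYcl X' hX'] at m2
      rw [Lo.aux_ab m1, Lo.aux_ab m2]
    rw [hEx X hX, hEx X' hX'] at key
    have h7 : r • (Ef x X - Ef x X') = 0 := by rw [smul_sub, key, sub_self]
    exact sub_eq_zero.1 (Lo.tors_zero hC.num.ppr (by omega) (lt_trans hC.num.rn hC.num.np) hH.tors h7)
  refine ⟨h56, ?_⟩
  -- (5.7)
  intro X Y hX1 hY1 hne hXY
  have hX := hPA1 X hX1
  have hY := hPA1 Y hY1
  obtain ⟨s, hs1, hs2, hs3⟩ := hGnr F l p e n r Z P a f D Cp E cont H K mm hC X X Y hX hX hY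
  have hs3 := hs3 X (Or.inl rfl)
  have hYs : ∀ V ∈ Za Z l e n a P, pn V (Y - (Y + C s)) < pn V Y := by
    intro V hV
    obtain ⟨p1, p2, p3, p4, p5, p6, p7, p8, p9, p10, p11⟩ := hPn F V
    rw [sub_add_cancel_left, p5, p8]
    exact lt_of_lt_of_le (lt_of_le_of_lt (hs1 V hV) (hpowlt V hV (mm - 1) (mm + 1) (by omega))) (hY1.2.2 V hV).1
  have hsXY : ∀ V ∈ Za Z l e n a P, pn V (C s) < pn V (X - Y) := by
    intro V hV
    obtain ⟨p1, p2, p3, p4, p5, p6, p7, p8, p9, p10, p11⟩ := hPn F V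
    rw [p8]
    exact lt_of_lt_of_le (lt_of_le_of_lt (hs1 V hV) (hpowlt V hV (mm - 1) (mm + 1) (by omega))) (hXY V hV)
  have hXY' : X ≠ Y + C s := by
    intro h
    have h1 : X - Y = C s := by rw [h, add_sub_cancel_left]
    have := hsXY V0 hV0
    rw [h1] at this
    exact lt_irrefl _ this
  have hg := hGen F l p e n r Z P a f D Cp E cont H K mm T h Ef hC hH hE X (Y + C s) hX hs2 hXY' hs3.1 hs3.2
  have hcl : ∀ W : F[X], PA Z l e n a r P f mm W → Ef (X - (Y + C s)) W = Ef (X - Y) W := by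
    intro W hW
    apply hE.cls W hW _ _ (sub_ne_zero.2 hXY') (hsub _ _ hX.2.1 hs2.2.1) (sub_ne_zero.2 hne)
      (hsub _ _ hX.2.1 hY.2.1)
    intro V hV
    rw [← sub_sub]
    exact hsimsub V hV (X - Y) (C s) (hsXY V hV)
  rw [hcl X hX, hcl _ hs2] at hg
  rw [h56 Y (Y + C s) (X - Y) hY1 hs2 hYs (sub_ne_zero.2 hne) (hsub _ _ hX.2.1 hY.2.1),
    h56 Y (Y + C s) X hY1 hs2 hYs hX.1 hX.2.1]
  exact hg

end CL
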