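import Pool.Agent.Lib.MP_defcf3_al.CL.IfaceB

/-!
Project CL, part (B), row MilQ: (4.2) of finding 4324.
-/

open Polynomial

namespace CL

universe u

theorem milQ_aeval_pow {k k' : Type*} [Field k] [Field k'] [Algebra k k'] {l : ℕ} [Fact l.Prime] [CharP k' l]
    (m : ℕ) (P T : k[X]) (hT : ∀ i, T.coeff i = P.coeff i ^ l ^ m) (c : k') :
    aeval (c ^ l ^ m) T = (aeval c P) ^ l ^ m := by
  have hTd : T.natDegree ≤ P.natDegree := by
    rw [natDegree_le_iff_coeff_eq_zero]
    intro i hi
    rw [hT, coeff_eq_zero_of_natDegree_lt hi, zero_pow]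
    exact (pow_pos (Nat.Prime.pos Fact.out) _).ne'
  rw [aeval_eq_sum_range (p := P), sum_pow_char_pow, aeval_eq_sum_range' (Nat.lt_succ_of_le hTd)]
  refine Finset.sum_congr rfl fun i _ => ?_
  rw [hT, Algebra.smul_def, Algebra.smul_def, mul_pow, map_pow, ← pow_mul, ← pow_mul, mul_comm (l ^ m) i]

theorem milQ_period {k k' : Type*} [Field k] [Field k'] [Algebra k k'] {l : ℕ} [Fact l.Prime] [CharP k' l]
    (e n : ℕ) (P : k[X]) (hP : P ≠ 0) (hdeg : P.natDegree ≤ n) (hfix : ∀ i, P.coeff i ^ l ^ e = P.coeff i)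
    (c : k') (hc : aeval c P = 0) : c ^ l ^ (e * n.factorial) = c := by
  classical
  have hroot : ∀ i : ℕ, aeval (c ^ l ^ (e * i)) P = 0 := by
    intro i
    induction i with
    | zero => simpa using hc
    | succ i ih =>
      have h := milQ_aeval_pow e P P (fun j => (hfix j).symm) (c ^ l ^ (e * i))
      rw [ih, zero_pow (pow_pos (Nat.Prime.pos Fact.out) _).ne', ← pow_mul, ← pow_add] at h
      rw [mul_add, mul_one]
      exact h
  let S : Finset k' := (P.map (algebraMap k k')).roots.toFinset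
  have hP' : P.map (algebraMap k k') ≠ 0 := (Polynomial.map_ne_zero_iff (algebraMap k k').injective).2 hP
  have hS : S.card ≤ n := by
    calc S.card ≤ Multiset.card (P.map (algebraMap k k')).roots := Multiset.toFinset_card_le _
      _ ≤ (P.map (algebraMap k k')).natDegree := card_roots' _
      _ = P.natDegree := natDegree_map _
      _ ≤ n := hdeg
  have hmaps : ∀ i ∈ Finset.range (n + 1), c ^ l ^ (e * i) ∈ S := by
    intro i _
    rw [Multiset.mem_toFinset, mem_roots hP', IsRoot.def, eval_map_algebraMap]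
    exact hroot i
  have hcard : S.card < (Finset.range (n + 1)).card := by
    rw [Finset.card_range]; omega
  obtain ⟨i, hi, j, hj, hij, hEq⟩ := Finset.exists_ne_map_eq_of_card_lt_of_maps_to hcard hmaps
  have key : ∀ i j : ℕ, i < j → j < n + 1 → c ^ l ^ (e * i) = c ^ l ^ (e * j) → c ^ l ^ (e * n.factorial) = c := by
    intro i j hij hj h
    have h1 : (c ^ l ^ (e * (j - i))) ^ l ^ (e * i) = c ^ l ^ (e * i) := by
      rw [← pow_mul, ← pow_add, h]
      congr 2
      rw [← mul_add]
      congr 1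
      omega
    have h2 : c ^ l ^ (e * (j - i)) = c := by
      have := (iterateFrobenius k' l (e * i)).injective
      apply this
      rw [iterateFrobenius_def, iterateFrobenius_def]
      exact h1
    obtain ⟨m, hm⟩ : (j - i) ∣ n.factorial := Nat.dvd_factorial (by omega) (by omega)
    rw [hm]
    clear hm
    induction m with
    | zero => simp
    | succ m ih =>
      have : l ^ (e * ((j - i) * (m + 1))) = l ^ (e * ((j - i) * m)) * l ^ (e * (j - i)) := by
        rw [← pow_add]; congr 1; ring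
      rw [this, pow_mul, ih, h2]
  rw [Finset.mem_range] at hi hj
  rcases lt_or_gt_of_ne hij with h | h
  · exact key i j h hj hEq
  · exact key j i h hi hEq.symm

theorem milQ_lift {F : Type*} [Field F] (V : ValuationSubring F) (A : F[X]) (hA : CoV V A) :
    ∃ A' : Polynomial V, A'.map (algebraMap V F) = A := by
  have : A ∈ lifts (algebraMap V F) := by
    rw [lifts_iff_coeff_lifts]
    intro i
    exact ⟨⟨A.coeff i, hA i⟩, rfl⟩
  exact (mem_lifts _).1 this

theorem milQ_res {F : Type u} [Field F] (l e n : ℕ) (hl : l.Prime) (hch : CharP F l) (V : ValuationSubring F)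
    (P : F[X]) (hPm : P.Monic) (hdeg : P.natDegree = n) (hV : Inert V P)
    (hfix : ∀ i, V.valuation (P.coeff i ^ l ^ e - P.coeff i) < 1) (A : F[X]) (hA : A.natDegree < n)
    (hA1 : CoV V A) (T : F[X]) (hT : ∀ i, T.coeff i = A.coeff i ^ l ^ (e * n.factorial)) :
    CoM V (T - (A ^ l ^ (e * n.factorial)) %ₘ P) := by
  have : Fact l.Prime := ⟨hl⟩
  obtain ⟨P', hP', hirr⟩ := hV
  obtain ⟨A', hA'⟩ := milQ_lift V A hA1
  have hT1 : CoV V T := fun i => by rw [hT]; exact V.pow_mem (hA1 i) _
  obtain ⟨T', hT'⟩ := milQ_lift V T hT1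
  have hinj : Function.Injective (algebraMap V F) := Subtype.val_injective
  have hP'm : P'.Monic := by
    apply monic_of_injective hinj
    rw [hP']; exact hPm
  set κ := IsLocalRing.ResidueField V with hκ
  set res : V →+* κ := IsLocalRing.residue V with hres
  have : Fact (Irreducible (P'.map res)) := ⟨hirr⟩
  have hchV : CharP V l := by
    rw [CharP.charP_iff_prime_eq_zero hl]
    apply hinj
    rw [map_natCast, map_zero]
    exact CharP.cast_eq_zero F l
  have hchκ : CharP κ l := by
    rw [CharP.charP_iff_prime_eq_zero hl]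
    have : ((l : V) : V) = 0 := CharP.cast_eq_zero V l
    rw [← map_natCast res, this, map_zero]
  let κ' := AdjoinRoot (P'.map res)
  let c : κ' := AdjoinRoot.root (P'.map res)
  have hchκ' : CharP κ' l := charP_of_injective_algebraMap (algebraMap κ κ').injective l
  have hc : aeval c (P'.map res) = 0 := by
    rw [AdjoinRoot.aeval_eq, AdjoinRoot.mk_self]
  have hcoef : ∀ (B : Polynomial V) (i : ℕ), (B.map (algebraMap V F)).coeff i = (B.coeff i : F) := fun B i => by
    rw [coeff_map]; rfl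
  have hfixκ : ∀ i, (P'.map res).coeff i ^ l ^ e = (P'.map res).coeff i := by
    intro i
    have h := hfix i
    rw [← hP', hcoef] at h
    have h2 : V.valuation ((P'.coeff i ^ l ^ e - P'.coeff i : V) : F) < 1 := by
      push_cast
      exact h
    rw [← ValuationSubring.valuation_lt_one_iff, ← IsLocalRing.residue_eq_zero_iff, map_sub, map_pow, sub_eq_zero] at h2
    rw [coeff_map]
    exact h2
  have hndP : (P'.map res).natDegree = n := by
    rw [hP'm.natDegree_map, ← hdeg, ← hP', hP'm.natDegree_map]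
  have hcQ : c ^ l ^ (e * n.factorial) = c :=
    milQ_period e n (P'.map res) hirr.ne_zero hndP.le hfixκ c hc
  have hTA : ∀ i, (T'.map res).coeff i = (A'.map res).coeff i ^ l ^ (e * n.factorial) := by
    intro i
    rw [coeff_map, coeff_map, ← map_pow]
    congr 1
    apply hinj
    rw [map_pow, ← coeff_map, ← coeff_map, hT', hA', hT]
  have hTc : aeval c (T'.map res) = (aeval c (A'.map res)) ^ l ^ (e * n.factorial) := by
    have := milQ_aeval_pow (e * n.factorial) (A'.map res) (T'.map res) hTA c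
    rw [hcQ] at this
    exact this
  set S' : Polynomial V := (A' ^ l ^ (e * n.factorial)) %ₘ P' with hS'
  have hSc : aeval c (S'.map res) = (aeval c (A'.map res)) ^ l ^ (e * n.factorial) := by
    rw [hS', map_modByMonic _ hP'm, aeval_modByMonic_eq_self_of_root hc, Polynomial.map_pow, map_pow]
  have hzero : T'.map res - S'.map res = 0 := by
    have hdvd : P'.map res ∣ T'.map res - S'.map res := by
      rw [← AdjoinRoot.mk_eq_zero, ← AdjoinRoot.aeval_eq]
      change aeval c _ = 0
      rw [map_sub, hTc, hSc, sub_self]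
    by_contra hne
    have h1 := natDegree_le_of_dvd hdvd hne
    have h2 : (T'.map res).natDegree < n := by
      apply lt_of_le_of_lt _ hA
      have : (T'.map res).natDegree ≤ T'.natDegree := natDegree_map_le
      have h3 : T'.natDegree = T.natDegree := by
        rw [← hT', natDegree_map_eq_of_injective hinj]
      have h4 : T.natDegree ≤ A.natDegree := by
        rw [natDegree_le_iff_coeff_eq_zero]
        intro i hi
        rw [hT, coeff_eq_zero_of_natDegree_lt hi, zero_pow (pow_pos hl.pos _).ne']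
      omega
    have h3 : (S'.map res).natDegree < n := by
      have hn : 0 < n := lt_of_le_of_lt (Nat.zero_le _) hA
      have h4 : S'.natDegree < P'.natDegree := by
        rw [hS']
        apply natDegree_modByMonic_lt _ hP'm
        intro h1
        rw [h1] at hndP
        simp at hndP
        omega
      have h5 : P'.natDegree = n := by rw [← hndP, hP'm.natDegree_map]
      have : (S'.map res).natDegree ≤ S'.natDegree := natDegree_map_le
      omega
    have h4 := natDegree_sub_le (T'.map res) (S'.map res)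
    rw [hndP] at h1
    have := h1.trans h4
    rcases le_max_iff.1 this with h | h <;> omega
  have hSF : (A ^ l ^ (e * n.factorial)) %ₘ P = S'.map (algebraMap V F) := by
    rw [hS', map_modByMonic _ hP'm, Polynomial.map_pow, hA', hP']
  intro i
  rw [hSF, ← hT', ← Polynomial.map_sub, hcoef]
  rw [← ValuationSubring.valuation_lt_one_iff, ← IsLocalRing.residue_eq_zero_iff, coeff_sub, map_sub]
  have := congrArg (fun B => B.coeff i) hzero
  simp only [coeff_sub, coeff_map, coeff_zero] at this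
  exact this

theorem milQ_rep {F L : Type*} [Field F] [Field L] [Algebra F L] (θ : L) (htop : Algebra.adjoin F {θ} = ⊤)
    (hint : IsIntegral F θ) (x : L) : ∃ B : F[X], B.natDegree < (minpoly F θ).natDegree ∧ aeval θ B = x := by
  have hx : x ∈ Algebra.adjoin F {θ} := by rw [htop]; trivial
  rw [Algebra.adjoin_singleton_eq_range_aeval] at hx
  obtain ⟨B, rfl⟩ := hx
  refine ⟨B %ₘ minpoly F θ, ?_, ?_⟩
  · exact natDegree_modByMonic_lt _ (minpoly.monic hint) (minpoly.ne_one F θ)
  · exact aeval_modByMonic_eq_self_of_root (minpoly.aeval F θ)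

theorem milQ_uniq {F L : Type*} [Field F] [Field L] [Algebra F L] (θ : L) (A B : F[X])
    (hA : A.natDegree < (minpoly F θ).natDegree) (hB : B.natDegree < (minpoly F θ).natDegree)
    (h : aeval θ A = aeval θ B) : A = B := by
  by_contra hne
  have h1 : minpoly F θ ∣ A - B := minpoly.dvd F θ (by rw [map_sub, h, sub_self])
  have h2 := natDegree_le_of_dvd h1 (sub_ne_zero.2 hne)
  have h3 := natDegree_sub_le A B
  rcases le_max_iff.1 (h2.trans h3) with h | h <;> omega

theorem milQ_coprime {T : Type*} [AddCommGroup T] {p m : ℕ} (h : Nat.Coprime p m) {t : T} (hp : p • t = 0)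
    (hm : m • t = 0) : t = 0 := by
  rw [← addOrderOf_dvd_iff_nsmul_eq_zero] at hp hm
  have h1 := Nat.dvd_gcd hp hm
  rw [h.gcd_eq_one, Nat.dvd_one, AddMonoid.addOrderOf_eq_one_iff] at h1
  exact h1

section Main

variable {F L : Type u} [Field F] [Field L] [Algebra F L] {l p e n : ℕ} {Z : Set (ValuationSubring F)} {θ : L}
  {T : Type u} [AddCommGroup T] {b : L → L → T}

theorem milQ_ne (hD : SnDat F l p e n Z θ b) {A : F[X]} (hA : A ≠ 0) (hd : A.natDegree < n) :
    aeval θ A ≠ 0 := by
  intro h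
  apply hA
  have hn : 0 < (minpoly F θ).natDegree := minpoly.natDegree_pos hD.int
  apply milQ_uniq θ A 0
  · have := hD.deg
    unfold nn at this
    omega
  · simpa using hn
  · simpa using h

theorem milQ_one_left (hD : SnDat F l p e n Z θ b) {y : L} (hy : y ≠ 0) : b 1 y = 0 := by
  have := hD.mull 1 1 y one_ne_zero one_ne_zero hy
  rw [mul_one] at this
  simpa using this

theorem milQ_one_right (hD : SnDat F l p e n Z θ b) {y : L} (hy : y ≠ 0) : b y 1 = 0 := by
  have := hD.mulr y 1 1 hy one_ne_zero one_ne_zero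
  rw [mul_one] at this
  simpa using this

theorem milQ_pow_left (hD : SnDat F l p e n Z θ b) {x y : L} (hx : x ≠ 0) (hy : y ≠ 0) (m : ℕ) :
    b (x ^ m) y = m • b x y := by
  induction m with
  | zero => rw [pow_zero, zero_smul, milQ_one_left hD hy]
  | succ m ih => rw [pow_succ, hD.mull _ _ _ (pow_ne_zero _ hx) hx hy, ih, succ_nsmul]

theorem milQ_pow_right (hD : SnDat F l p e n Z θ b) {x y : L} (hx : x ≠ 0) (hy : y ≠ 0) (m : ℕ) :
    b y (x ^ m) = m • b y x := by
  induction m with
  | zero => rw [pow_zero, zero_smul, milQ_one_right hD hy]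
  | succ m ih => rw [pow_succ, hD.mulr _ _ _ hy (pow_ne_zero _ hx) hx, ih, succ_nsmul]

theorem milQ_sim (hTw : TwpStatement.{u}) (hPn : PnStatement.{u}) (hInr : InrStatement.{u})
    (hD : SnDat F l p e n Z θ b) {A : F[X]} (hA : A ≠ 0) (hd : A.natDegree < n) :
    ∃ B : F[X], B ≠ 0 ∧ B.natDegree < n ∧
      aeval θ (tw (QQ l e n) A) = aeval θ B * (aeval θ A) ^ QQ l e n ∧ ∀ V ∈ Z, PSim V B 1 := by
  have hdeg : (minpoly F θ).natDegree = n := hD.deg
  obtain ⟨t1, t2, t3, t4, t5, t6, t7⟩ := hTw F l hD.lpr hD.chr hD.perf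
  have hx := milQ_ne hD hA hd
  have hTwne : tw (QQ l e n) A ≠ 0 := fun h => hA (((t3 _ A).2.1).1 h)
  have hTwd : (tw (QQ l e n) A).natDegree < n := by
    have := (t3 (e * n.factorial) A).1
    unfold QQ
    omega
  have hTx := milQ_ne hD hTwne hTwd
  obtain ⟨B, hBd, hB⟩ := milQ_rep θ hD.top hD.int (aeval θ (tw (QQ l e n) A) / (aeval θ A) ^ QQ l e n)
  rw [hdeg] at hBd
  have hBne : B ≠ 0 := by
    rintro rfl
    rw [map_zero] at hB
    exact div_ne_zero hTx (pow_ne_zero _ hx) hB.symm
  refine ⟨B, hBne, hBd, ?_, ?_⟩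
  · rw [hB, div_mul_cancel₀ _ (pow_ne_zero _ hx)]
  intro V hV
  obtain ⟨n1, n2, n3, n4, n5, n6, n7, n8, n9, n10, n11⟩ := hPn F V
  obtain ⟨i, hi⟩ := n3 A hA
  have hpA : pn V A ≠ 0 := fun h => hA ((n1 A).1 h)
  have hc : A.coeff i ≠ 0 := by
    intro h
    rw [h, map_zero] at hi
    exact hpA hi.symm
  set c := A.coeff i with hcdef
  set A1 := C c⁻¹ * A with hA1
  have hAA : A = C c * A1 := by
    rw [hA1, ← mul_assoc, ← C_mul, mul_inv_cancel₀ hc, C_1, one_mul]
  have hA1ne : A1 ≠ 0 := by
    intro h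
    rw [h, mul_zero] at hAA
    exact hA hAA
  have hA1d : A1.natDegree < n := by
    rw [hA1, natDegree_C_mul (inv_ne_zero hc)]
    exact hd
  have hpA1 : pn V A1 = 1 := by
    rw [hA1, n7, map_inv₀, hi, inv_mul_cancel₀ hpA]
  have hPm : (minpoly F θ).Monic := minpoly.monic hD.int
  set Q := QQ l e n with hQ
  have hQ' : Q = l ^ (e * n.factorial) := rfl
  set T1 := tw Q A1 with hT1
  set S1 := (A1 ^ Q) %ₘ minpoly F θ with hS1
  have hres : CoM V (T1 - S1) := by
    apply milQ_res l e n hD.lpr hD.chr V (minpoly F θ) hPm hdeg (hD.inert V hV) _ A1 hA1d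
    · exact (n9 A1).1 hpA1.le
    · intro j
      rw [hT1, hQ', t2]
    · intro j
      have h := hD.fix V hV j
      rw [coeff_sub, t2] at h
      exact h
  have hpT1 : pn V T1 = 1 := by
    rw [hT1, hQ', t5, hpA1, one_pow]
  have hpTS : pn V (T1 - S1) < 1 := (n10 _).2 hres
  have hpS1 : pn V S1 = 1 := by
    have h1 : pn V (-(T1 - S1)) < pn V T1 := by rw [n5, hpT1]; exact hpTS
    have h2 := n6 _ _ h1
    rw [hpT1] at h2
    have h3 : -(T1 - S1) + T1 = S1 := by ring
    rw [h3] at h2
    exact h2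
  have hn0 : 1 ≤ (minpoly F θ).natDegree := minpoly.natDegree_pos hD.int
  have hS1d : S1.natDegree < n := by
    rw [← hdeg]
    exact natDegree_modByMonic_lt _ hPm (minpoly.ne_one F θ)
  have hT1d : T1.natDegree < n := by
    have := (t3 (e * n.factorial) A1).1
    rw [hT1, hQ']
    omega
  have hB1d : (B - 1).natDegree < n := by
    have := natDegree_sub_le B 1
    rw [natDegree_one] at this
    have h2 : 0 < n := by omega
    exact lt_of_le_of_lt this (max_lt hBd h2)
  have hSθ : aeval θ S1 = (aeval θ A1) ^ Q := by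
    rw [hS1, aeval_modByMonic_eq_self_of_root (minpoly.aeval F θ), map_pow]
  have hx1 : aeval θ A1 ≠ 0 := milQ_ne hD hA1ne hA1d
  have htwc : tw Q (C c) = C (c ^ Q) := by
    ext j
    rw [hQ', t2, coeff_C, coeff_C]
    split_ifs
    · rfl
    · rw [zero_pow (pow_pos hD.lpr.pos _).ne']
  have hTθ : aeval θ T1 = aeval θ B * (aeval θ A1) ^ Q := by
    have h1 : aeval θ (tw Q A) = algebraMap F L (c ^ Q) * aeval θ T1 := by
      rw [hAA, hQ', (t1 _ _ _).2.2, ← hQ', htwc, map_mul, aeval_C]
    have h2 : aeval θ A = algebraMap F L c * aeval θ A1 := by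
      rw [hAA, map_mul, aeval_C]
    have h3 : algebraMap F L (c ^ Q) ≠ 0 := by
      rw [Ne, map_eq_zero]; exact pow_ne_zero _ hc
    have h4 : algebraMap F L c ^ Q = algebraMap F L (c ^ Q) := by rw [map_pow]
    rw [hB, h1, h2, mul_pow, h4, mul_div_mul_left _ _ h3, div_mul_cancel₀ _ (pow_ne_zero _ hx1)]
  have hmod : ((B - 1) * S1) %ₘ minpoly F θ = T1 - S1 := by
    apply milQ_uniq θ
    · exact natDegree_modByMonic_lt _ hPm (minpoly.ne_one F θ)
    · rw [hdeg]
      exact lt_of_le_of_lt (natDegree_sub_le _ _) (max_lt hT1d hS1d)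
    · rw [aeval_modByMonic_eq_self_of_root (minpoly.aeval F θ), map_mul, map_sub, map_sub, hTθ, hSθ, map_one]
      ring
  obtain ⟨i1, -, -⟩ := hInr F V (minpoly F θ) hPm hn0 (hD.inert V hV)
  have h5 := i1 (B - 1) S1 (by rw [hdeg]; exact hB1d) (by rw [hdeg]; exact hS1d)
  rw [hmod, hpS1, mul_one] at h5
  refine ⟨1, one_ne_zero, ?_⟩
  have h6 : pn V (1 : F[X]) = 1 := by
    rw [← C_1, n8, map_one]
  rw [C_1, one_mul, h6, ← h5]
  exact hpTS

theorem milQ_wt (hTw : TwpStatement.{u}) (hD : SnDat F l p e n Z θ b) (i : ℕ) :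
    ∀ A B : F[X], A ≠ 0 → B ≠ 0 → A.natDegree < n → B.natDegree < n →
      b (aeval θ (tw (l ^ (e * i)) A)) (aeval θ (tw (l ^ (e * i)) B)) =
        (l ^ (e * i)) • b (aeval θ A) (aeval θ B) := by
  obtain ⟨t1, t2, t3, t4, t5, t6, t7⟩ := hTw F l hD.lpr hD.chr hD.perf
  induction i with
  | zero =>
    intro A B _ _ _ _
    have h : ∀ D : F[X], tw (l ^ (e * 0)) D = D := by
      intro D
      ext j
      rw [t2]
      simp
    rw [h, h]
    simp
  | succ i ih =>
    intro A B hA hB hAd hBd
    have h : ∀ D : F[X], tw (l ^ (e * (i + 1))) D = tw (l ^ e) (tw (l ^ (e * i)) D) := by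
      intro D
      rw [t4]
      congr 2
      ring
    have hne : ∀ D : F[X], D ≠ 0 → tw (l ^ (e * i)) D ≠ 0 := fun D hD' h' => hD' ((t3 _ D).2.1.1 h')
    have hdd : ∀ D : F[X], D.natDegree < n → (tw (l ^ (e * i)) D).natDegree < n := fun D hD' => by
      rw [(t3 _ D).1]; exact hD'
    rw [h, h, hD.wt _ _ (hne A hA) (hne B hB) (hdd A hAd) (hdd B hBd), ih A B hA hB hAd hBd, smul_smul, ← pow_add]
    congr 2
    ring

end Main

/-- Row MilQ. -/
theorem milQ_proof (hTw : TwpStatement.{u}) (hPn : PnStatement.{u}) (hInr : InrStatement.{u}) :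
    MilQStatement.{u} := by
  intro F L _ _ _ _ l p e n Z θ T _ b hD hn
  have key : ∀ (A : F[X]) (y : L), A ≠ 0 → A.natDegree < n → y ≠ 0 →
      b (aeval θ (tw (QQ l e n) A)) y = QQ l e n • b (aeval θ A) y ∧
      b y (aeval θ (tw (QQ l e n) A)) = QQ l e n • b y (aeval θ A) := by
    intro A y hA hd hy
    obtain ⟨B, hB, hBd, hEq, hS⟩ := milQ_sim hTw hPn hInr hD hA hd
    have hx := milQ_ne hD hA hd
    have hBx := milQ_ne hD hB hBd
    obtain ⟨h1, h2⟩ := hD.supp y B hy hB hBd hS
    constructor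
    · rw [hEq, hD.mull _ _ _ hBx (pow_ne_zero _ hx) hy, h2, zero_add, milQ_pow_left hD hx hy]
    · rw [hEq, hD.mulr _ _ _ hy hBx (pow_ne_zero _ hx), h1, zero_add, milQ_pow_right hD hx hy]
  refine ⟨key, ?_⟩
  intro hp x y hx hy
  have hdeg : (minpoly F θ).natDegree = n := hD.deg
  obtain ⟨A, hAd, rfl⟩ := milQ_rep θ hD.top hD.int x
  obtain ⟨B, hBd, rfl⟩ := milQ_rep θ hD.top hD.int y
  rw [hdeg] at hAd hBd
  have hA : A ≠ 0 := by rintro rfl; simp at hx
  have hB : B ≠ 0 := by rintro rfl; simp at hy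
  obtain ⟨t1, t2, t3, t4, t5, t6, t7⟩ := hTw F l hD.lpr hD.chr hD.perf
  have hBtd : (tw (QQ l e n) B).natDegree < n := by
    have := (t3 (e * n.factorial) B).1
    unfold QQ
    omega
  have hBtne : tw (QQ l e n) B ≠ 0 := fun h => hB (((t3 _ B).2.1).1 h)
  have h1 := milQ_wt hTw hD n.factorial A B hA hB hAd hBd
  have h2 : b (aeval θ (tw (QQ l e n) A)) (aeval θ (tw (QQ l e n) B)) =
      QQ l e n • QQ l e n • b (aeval θ A) (aeval θ B) := by
    rw [(key A _ hA hAd (milQ_ne hD hBtne hBtd)).1, (key B _ hB hBd hx).2]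
  have h3 : QQ l e n • QQ l e n • b (aeval θ A) (aeval θ B) = QQ l e n • b (aeval θ A) (aeval θ B) := by
    rw [← h2]; exact h1
  have hQpos : 1 ≤ QQ l e n := Nat.one_le_pow _ _ hD.lpr.pos
  obtain ⟨k, hk⟩ := Nat.exists_eq_add_of_le hQpos
  have h4 : (QQ l e n * (QQ l e n - 1)) • b (aeval θ A) (aeval θ B) = 0 := by
    rw [mul_smul]
    have h5 : QQ l e n - 1 = k := by omega
    rw [h5]
    rw [hk] at h3 ⊢
    have h6 : (1 + k) • b (aeval θ A) (aeval θ B) = b (aeval θ A) (aeval θ B) + k • b (aeval θ A) (aeval θ B) := by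
      rw [add_smul, one_smul]
    rw [h6, smul_add] at h3
    have h7 : (1 + k) • b (aeval θ A) (aeval θ B) + (1 + k) • k • b (aeval θ A) (aeval θ B) =
      (1 + k) • b (aeval θ A) (aeval θ B) + 0 := by rw [h3, h6, add_zero]
    exact add_left_cancel h7
  apply milQ_coprime _ (hD.tors _) h4
  rw [Nat.Prime.coprime_iff_not_dvd hD.ppr, hD.ppr.dvd_mul]
  rintro (h | h)
  · have := (Nat.prime_dvd_prime_iff_eq hD.ppr hD.lpr).1 (hD.ppr.dvd_of_dvd_pow h)
    exact hD.lp this.symm
  · exact hp h

end CL
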