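import Pool.Agent.Lib.MP_defcf3_al.CL.IfaceB
import Pool.Agent.Lib.MP_defcf3_al.CL.MilQ

/-!
Project CL, part (B), row Mil: (4.1) - (4.5) of finding 4324.
-/

open Polynomial

namespace CL

universe u

section Main

variable {F L : Type u} [Field F] [Field L] [Algebra F L] {l p e n : ℕ} {Z : Set (ValuationSubring F)} {θ : L}
  {T : Type u} [AddCommGroup T] {b : L → L → T}

theorem mil_base (hPn : PnStatement.{u}) (hD : SnDat F l p e n Z θ b) (hn : 1 ≤ n) {c : F} (hc : c ≠ 0) {x : L}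
    (hx : x ≠ 0) : b x (algebraMap F L c) = 0 ∧ b (algebraMap F L c) x = 0 := by
  have h := hD.supp x (C c) hx (C_ne_zero.2 hc) (by rw [natDegree_C]; omega) (by
    intro V _
    obtain ⟨n1, n2, n3, n4, n5, n6, n7, n8, n9, n10, n11⟩ := hPn F V
    refine ⟨c, hc, ?_⟩
    rw [mul_one, sub_self, n8, (n1 0).2 rfl]
    exact zero_lt_iff.2 (by rwa [Ne, map_eq_zero]))
  rwa [aeval_C] at h

theorem mil_inv_left (hD : SnDat F l p e n Z θ b) {x y : L} (hx : x ≠ 0) (hy : y ≠ 0) : b x⁻¹ y = - b x y := by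
  have h := hD.mull x⁻¹ x y (inv_ne_zero hx) hx hy
  rw [inv_mul_cancel₀ hx, milQ_one_left hD hy] at h
  exact eq_neg_of_add_eq_zero_left h.symm

theorem mil_inv_right (hD : SnDat F l p e n Z θ b) {x y : L} (hx : x ≠ 0) (hy : y ≠ 0) : b x y⁻¹ = - b x y := by
  have h := hD.mulr x y⁻¹ y hx (inv_ne_zero hy) hy
  rw [inv_mul_cancel₀ hy, milQ_one_right hD hx] at h
  exact eq_neg_of_add_eq_zero_left h.symm

theorem mil_div_left (hD : SnDat F l p e n Z θ b) {x y z : L} (hx : x ≠ 0) (hy : y ≠ 0) (hz : z ≠ 0) :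
    b (x / y) z = b x z - b y z := by
  rw [div_eq_mul_inv, hD.mull _ _ _ hx (inv_ne_zero hy) hz, mil_inv_left hD hy hz, sub_eq_add_neg]

theorem mil_div_right (hD : SnDat F l p e n Z θ b) {x y z : L} (hx : x ≠ 0) (hy : y ≠ 0) (hz : z ≠ 0) :
    b x (y / z) = b x y - b x z := by
  rw [div_eq_mul_inv, hD.mulr _ _ _ hx hy (inv_ne_zero hz), mil_inv_right hD hx hz, sub_eq_add_neg]

theorem mil_neg_right (hPn : PnStatement.{u}) (hD : SnDat F l p e n Z θ b) (hn : 1 ≤ n) {x y : L} (hx : x ≠ 0)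
    (hy : y ≠ 0) : b x (-y) = b x y := by
  have h : -y = algebraMap F L (-1) * y := by rw [map_neg, map_one, neg_one_mul]
  rw [h, hD.mulr _ _ _ hx (by simp) hy, (mil_base hPn hD hn (neg_ne_zero.2 one_ne_zero) hx).1, zero_add]

theorem mil_self (hPn : PnStatement.{u}) (hD : SnDat F l p e n Z θ b) (hn : 1 ≤ n) {x : L} (hx : x ≠ 0) :
    b x x = 0 := by
  by_cases h1 : x = 1
  · rw [h1]; exact milQ_one_left hD one_ne_zero
  have h2 : (1 : L) - x ≠ 0 := sub_ne_zero.2 (Ne.symm h1)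
  have hi1 : x⁻¹ ≠ 1 := by
    intro h
    exact h1 (inv_eq_one.1 h)
  have h3 : (1 : L) - x⁻¹ ≠ 0 := sub_ne_zero.2 (Ne.symm hi1)
  have h4 : -x = (1 - x) / (1 - x⁻¹) := by
    rw [eq_div_iff h3]
    field_simp
    ring
  rw [← mil_neg_right hPn hD hn hx hx, h4, mil_div_right hD hx h2 h3, hD.st x hx h1, zero_sub]
  have h5 := hD.st x⁻¹ (inv_ne_zero hx) hi1
  rw [mil_inv_left hD hx h3] at h5
  exact h5

theorem mil_anti (hPn : PnStatement.{u}) (hD : SnDat F l p e n Z θ b) (hn : 1 ≤ n) {x y : L} (hx : x ≠ 0)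
    (hy : y ≠ 0) : b x y = - b y x := by
  have h := mil_self hPn hD hn (mul_ne_zero hx hy)
  rw [hD.mull _ _ _ hx hy (mul_ne_zero hx hy), hD.mulr _ _ _ hx hx hy, hD.mulr _ _ _ hy hx hy,
    mil_self hPn hD hn hx, mil_self hPn hD hn hy, zero_add, add_zero] at h
  exact eq_neg_of_add_eq_zero_left h

/-- (4.5) -/
theorem mil_pair (hPn : PnStatement.{u}) (hD : SnDat F l p e n Z θ b) (hn : 1 ≤ n) {x y : L} (hx : x ≠ 0)
    (hy : y ≠ 0) (hxy : x ≠ y) : b (x - y) x - b (x - y) y = - b x y := by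
  have hz : x - y ≠ 0 := sub_ne_zero.2 hxy
  have h1 : (1 : L) - x / (x - y) = - y / (x - y) := by
    field_simp
    ring
  have h2 : x / (x - y) ≠ 1 := by
    intro h
    rw [div_eq_one_iff_eq hz] at h
    exact hy (by linear_combination h)
  have h := hD.st (x / (x - y)) (div_ne_zero hx hz) h2
  rw [h1, mil_div_left hD hx hz (div_ne_zero (neg_ne_zero.2 hy) hz), mil_div_right hD hx (neg_ne_zero.2 hy) hz,
    mil_div_right hD hz (neg_ne_zero.2 hy) hz, mil_neg_right hPn hD hn hx hy, mil_neg_right hPn hD hn hz hy,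
    mil_self hPn hD hn hz, sub_zero, mil_anti hPn hD hn hx hz] at h
  have h3 : b (x - y) x - b (x - y) y = (b x y - -b (x - y) x - b (x - y) y) - b x y := by abel
  rw [h3, h, zero_sub]

theorem mil_smul (hD : SnDat F l p e n Z θ b) (hq : p ∣ QQ l e n - 1) (t : T) : QQ l e n • t = t := by
  have h1 : 1 ≤ QQ l e n := Nat.one_le_pow _ _ hD.lpr.pos
  obtain ⟨k, hk⟩ := hq
  have h2 : QQ l e n = k * p + 1 := by rw [mul_comm k p]; omega
  rw [h2, add_smul, mul_smul, hD.tors, smul_zero, one_smul, zero_add]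

/-- (4.4), the product. -/
theorem mil_mul (hPn : PnStatement.{u}) (hD : SnDat F l p e n Z θ b) {r : ℕ} (hr : 1 ≤ r) (hrn : r < n)
    (hS : Stage F θ b r) {P A B : F[X]} (hP : P.Monic) (hPd : P.natDegree = r) (hirr : Irreducible P) (hA : A ≠ 0)
    (hAd : A.natDegree < r) (hB : B ≠ 0) (hBd : B.natDegree < r) :
    b (aeval θ ((A * B) %ₘ P)) (aeval θ P) = b (aeval θ A) (aeval θ P) + b (aeval θ B) (aeval θ P) := by
  have hn : 1 ≤ n := by omega
  have hPθ : aeval θ P ≠ 0 := milQ_ne hD hP.ne_zero (by omega)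
  have hAθ : aeval θ A ≠ 0 := milQ_ne hD hA (by omega)
  have hBθ : aeval θ B ≠ 0 := milQ_ne hD hB (by omega)
  have hP1 : P ≠ 1 := by
    rintro rfl
    rw [natDegree_one] at hPd
    omega
  set D := (A * B) %ₘ P with hDdef
  set R := (A * B) /ₘ P with hRdef
  have hdecomp : D + P * R = A * B := modByMonic_add_div _ P
  have hDd : D.natDegree < r := by
    rw [← hPd]; exact natDegree_modByMonic_lt _ hP hP1
  have hDne : D ≠ 0 := by
    intro h
    rw [hDdef, modByMonic_eq_zero_iff_dvd hP] at h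
    rcases hirr.prime.dvd_or_dvd h with h | h
    · exact absurd (natDegree_le_of_dvd h hA) (by omega)
    · exact absurd (natDegree_le_of_dvd h hB) (by omega)
  have hDθ : aeval θ D ≠ 0 := milQ_ne hD hDne (by omega)
  by_cases hR : R = 0
  · rw [hR, mul_zero, add_zero] at hdecomp
    rw [hdecomp, map_mul, hD.mull _ _ _ hAθ hBθ hPθ]
  have hRd : R.natDegree < r := by
    rw [hRdef, natDegree_divByMonic _ hP, natDegree_mul hA hB]
    omega
  have hRθ : aeval θ R ≠ 0 := milQ_ne hD hR (by omega)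
  have hABθ : aeval θ A * aeval θ B ≠ 0 := mul_ne_zero hAθ hBθ
  have hPRθ : aeval θ P * aeval θ R ≠ 0 := mul_ne_zero hPθ hRθ
  have hrel : aeval θ D + aeval θ P * aeval θ R = aeval θ A * aeval θ B := by
    rw [← map_mul, ← map_add, hdecomp, map_mul]
  have h1 : (1 : L) - aeval θ D / (aeval θ A * aeval θ B) = (aeval θ P * aeval θ R) / (aeval θ A * aeval θ B) := by
    rw [eq_div_iff hABθ, sub_mul, div_mul_cancel₀ _ hABθ, ← hrel]
    ring
  have h2 : aeval θ D / (aeval θ A * aeval θ B) ≠ 1 := by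
    intro h
    rw [h, sub_self, eq_comm, div_eq_zero_iff] at h1
    exact h1.elim hPRθ hABθ
  have h := hD.st _ (div_ne_zero hDθ hABθ) h2
  rw [h1, mil_div_left hD hDθ hABθ (div_ne_zero hPRθ hABθ), mil_div_right hD hDθ hPRθ hABθ,
    mil_div_right hD hABθ hPRθ hABθ, mil_self hPn hD hn hABθ, hD.mulr _ _ _ hDθ hPθ hRθ, hD.mulr _ _ _ hDθ hAθ hBθ,
    hD.mull _ _ _ hAθ hBθ hPRθ, hD.mulr _ _ _ hAθ hPθ hRθ, hD.mulr _ _ _ hBθ hPθ hRθ,
    hS D R hDne hR hDd hRd, hS D A hDne hA hDd hAd, hS D B hDne hB hDd hBd, hS A R hA hR hAd hRd,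
    hS B R hB hR hBd hRd, add_zero, add_zero, add_zero, add_zero, sub_zero, sub_zero, sub_eq_zero] at h
  exact h

theorem mil_red (hD : SnDat F l p e n Z θ b) {r : ℕ} (hr : 1 ≤ r) (hrn : r < n) (hS : Stage F θ b r) {P A : F[X]}
    (hP : P.Monic) (hPd : P.natDegree = r) (hirr : ¬ Irreducible P) (hA : A ≠ 0) (hAd : A.natDegree < r) :
    b (aeval θ A) (aeval θ P) = 0 := by
  have hnu : ¬ IsUnit P := by
    intro h
    have := natDegree_eq_zero_of_isUnit h
    omega
  rw [irreducible_iff] at hirr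
  push Not at hirr
  obtain ⟨f, g, hfg, hf, hg⟩ := hirr hnu
  have hf0 : f ≠ 0 := by rintro rfl; rw [zero_mul] at hfg; exact hP.ne_zero hfg
  have hg0 : g ≠ 0 := by rintro rfl; rw [mul_zero] at hfg; exact hP.ne_zero hfg
  have hd : f.natDegree + g.natDegree = r := by rw [← natDegree_mul hf0 hg0, ← hfg, hPd]
  have hf1 : f.natDegree ≠ 0 := by
    intro h
    apply hf
    rw [natDegree_eq_zero] at h
    obtain ⟨c, rfl⟩ := h
    exact isUnit_C.2 (isUnit_iff_ne_zero.2 (by rintro rfl; simp at hf0))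
  have hg1 : g.natDegree ≠ 0 := by
    intro h
    apply hg
    rw [natDegree_eq_zero] at h
    obtain ⟨c, rfl⟩ := h
    exact isUnit_C.2 (isUnit_iff_ne_zero.2 (by rintro rfl; simp at hg0))
  rw [hfg, map_mul, hD.mulr _ _ _ (milQ_ne hD hA (by omega)) (milQ_ne hD hf0 (by omega))
    (milQ_ne hD hg0 (by omega)), hS A f hA hf0 hAd (by omega), hS A g hA hg0 hAd (by omega), add_zero]

theorem mil_stage (hPn : PnStatement.{u}) (hD : SnDat F l p e n Z θ b) {r : ℕ} (hr : 1 ≤ r) (hrn : r < n)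
    (hS : Stage F θ b r)
    (h : ∀ P A : F[X], P.Monic → P.natDegree = r → Irreducible P → A ≠ 0 → A.natDegree < r →
      b (aeval θ A) (aeval θ P) = 0) : Stage F θ b (r + 1) := by
  have hn : 1 ≤ n := by omega
  have hmon : ∀ A P : F[X], P.Monic → P.natDegree = r → A ≠ 0 → A.natDegree < r → b (aeval θ A) (aeval θ P) = 0 := by
    intro A P hP hPd hA hAd
    by_cases hirr : Irreducible P
    · exact h P A hP hPd hirr hA hAd
    · exact mil_red hD hr hrn hS hP hPd hirr hA hAd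
  have hPP : ∀ P P' : F[X], P.Monic → P.natDegree = r → P'.Monic → P'.natDegree = r →
      b (aeval θ P) (aeval θ P') = 0 := by
    intro P P' hP hPd hP' hPd'
    have hPθ : aeval θ P ≠ 0 := milQ_ne hD hP.ne_zero (by omega)
    have hPθ' : aeval θ P' ≠ 0 := milQ_ne hD hP'.ne_zero (by omega)
    by_cases hEq : P = P'
    · rw [hEq]; exact mil_self hPn hD hn hPθ'
    have hG : P - P' ≠ 0 := sub_ne_zero.2 hEq
    have hGd : (P - P').natDegree < r := by
      have h1 : (P - P').degree < P.degree := by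
        apply degree_sub_lt_left _ hP.ne_zero
        · rw [hP.leadingCoeff, hP'.leadingCoeff]
        · rw [degree_eq_natDegree hP.ne_zero, degree_eq_natDegree hP'.ne_zero, hPd, hPd']
      rw [← hPd]
      exact natDegree_lt_natDegree hG h1
    have hne : aeval θ P ≠ aeval θ P' := by
      intro hh
      exact milQ_ne hD hG (by omega) (by rw [map_sub, hh, sub_self])
    have h1 := mil_pair hPn hD hn hPθ hPθ' hne
    rw [← map_sub, hmon _ P hP hPd hG hGd, hmon _ P' hP' hPd' hG hGd, sub_zero] at h1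
    exact (neg_eq_zero.1 h1.symm)
  have hdec : ∀ A : F[X], A ≠ 0 → A.natDegree = r → ∃ (c : F) (A1 : F[X]), c ≠ 0 ∧ A1.Monic ∧ A1.natDegree = r ∧
      aeval θ A = algebraMap F L c * aeval θ A1 := by
    intro A hA hAd
    refine ⟨A.leadingCoeff, A * C A.leadingCoeff⁻¹, leadingCoeff_ne_zero.2 hA, monic_mul_leadingCoeff_inv hA, ?_, ?_⟩
    · rw [natDegree_mul_leadingCoeff_inv A hA]; exact hAd
    · rw [map_mul, aeval_C, mul_comm, mul_assoc, ← map_mul, inv_mul_cancel₀ (leadingCoeff_ne_zero.2 hA), map_one,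
        mul_one]
  intro A B hA hB hAd hBd
  have hAθ : aeval θ A ≠ 0 := milQ_ne hD hA (by omega)
  have hBθ : aeval θ B ≠ 0 := milQ_ne hD hB (by omega)
  have key : ∀ A B : F[X], A ≠ 0 → B ≠ 0 → A.natDegree < r → B.natDegree = r → b (aeval θ A) (aeval θ B) = 0 := by
    intro A B hA hB hAd hBd
    have hAθ : aeval θ A ≠ 0 := milQ_ne hD hA (by omega)
    obtain ⟨c, B1, hc, hB1, hB1d, hEq⟩ := hdec B hB hBd
    rw [hEq, hD.mulr _ _ _ hAθ (by rwa [Ne, map_eq_zero]) (milQ_ne hD hB1.ne_zero (by omega)),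
      (mil_base hPn hD hn hc hAθ).1, hmon A B1 hB1 hB1d hA hAd, add_zero]
  by_cases h1 : A.natDegree < r
  · by_cases h2 : B.natDegree < r
    · exact hS A B hA hB h1 h2
    · exact key A B hA hB h1 (by omega)
  · by_cases h2 : B.natDegree < r
    · rw [mil_anti hPn hD hn hAθ hBθ, key B A hB hA h2 (by omega), neg_zero]
    · obtain ⟨c, B1, hc, hB1, hB1d, hEq⟩ := hdec B hB (by omega)
      obtain ⟨c', A1, hc', hA1, hA1d, hEq'⟩ := hdec A hA (by omega)
      have hA1θ : aeval θ A1 ≠ 0 := milQ_ne hD hA1.ne_zero (by omega)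
      have hB1θ : aeval θ B1 ≠ 0 := milQ_ne hD hB1.ne_zero (by omega)
      rw [hEq, hD.mulr _ _ _ hAθ (by rwa [Ne, map_eq_zero]) hB1θ, (mil_base hPn hD hn hc hAθ).1, hEq',
        hD.mull _ _ _ (by rwa [Ne, map_eq_zero]) hA1θ hB1θ, (mil_base hPn hD hn hc' hB1θ).2,
        hPP A1 B1 hA1 hA1d hB1 hB1d, add_zero, add_zero]

end Main

/-- Row Mil. -/
theorem mil_proof (hTw : TwpStatement.{u}) (hPn : PnStatement.{u}) (hMilQ : MilQStatement.{u}) :
    MilStatement.{u} := by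
  intro F L _ _ _ _ l p e n r Z θ T _ b hD hr hrn hq hS
  have hn : 1 ≤ n := by omega
  obtain ⟨hQ, -⟩ := hMilQ F L l p e n Z θ T b hD hn
  obtain ⟨t1, t2, t3, t4, t5, t6, t7⟩ := hTw F l hD.lpr hD.chr hD.perf
  have hsm := mil_smul hD hq
  have hPθ : ∀ P : F[X], P.Monic → P.natDegree = r → aeval θ P ≠ 0 := fun P hP hPd =>
    milQ_ne hD hP.ne_zero (by omega)
  have hAθ : ∀ A : F[X], A ≠ 0 → A.natDegree < r → aeval θ A ≠ 0 := fun A hA hAd => milQ_ne hD hA (by omega)
  have htwi : ∀ (y : L), y ≠ 0 → ∀ (P : F[X]), P ≠ 0 → P.natDegree < n → ∀ i : ℕ,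
      b y (aeval θ (tw (QQ l e n ^ i) P)) = b y (aeval θ P) := by
    intro y hy P hP hPd i
    have hQi : ∀ i : ℕ, QQ l e n ^ i = l ^ (e * n.factorial * i) := fun i => by
      unfold QQ; rw [← pow_mul]
    induction i with
    | zero =>
      have : tw (QQ l e n ^ 0) P = P := by
        ext j
        rw [hQi, t2]
        simp
      rw [this]
    | succ i ih =>
      have h1 : tw (QQ l e n ^ (i + 1)) P = tw (QQ l e n) (tw (QQ l e n ^ i) P) := by
        rw [hQi, hQi]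
        unfold QQ
        rw [t4]
        congr 2
        ring
      have h2 : (tw (QQ l e n ^ i) P).natDegree < n := by rw [hQi, (t3 _ P).1]; exact hPd
      have h3 : tw (QQ l e n ^ i) P ≠ 0 := by
        rw [hQi]
        exact fun h => hP ((t3 _ P).2.1.1 h)
      rw [h1, (hQ _ y h3 h2 hy).2, hsm, ih]
  refine ⟨?_, ?_, ?_, ?_, ?_, ?_, ?_, ?_, ?_⟩
  · intro P hP hPd
    rw [map_one]
    exact milQ_one_left hD (hPθ P hP hPd)
  · intro P A B hP hPd hirr hA hAd hB hBd
    exact mil_mul hPn hD hr hrn hS hP hPd hirr hA hAd hB hBd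
  · intro P A c hP hPd hA hAd hc
    rw [map_mul, aeval_C, hD.mull _ _ _ (by rwa [Ne, map_eq_zero]) (hAθ A hA hAd) (hPθ P hP hPd),
      (mil_base hPn hD hn hc (hPθ P hP hPd)).2, zero_add]
  · intro P A hP hPd hA hAd
    rw [(hQ P _ hP.ne_zero (by omega) (hAθ A hA hAd)).2, hsm]
  · intro P A hP hPd hA hAd
    rw [(hQ A _ hA (by omega) (hPθ P hP hPd)).1, hsm]
  · intro P P' i hP hPd hP' hPd' hne hne'
    have hQi : ∀ i : ℕ, QQ l e n ^ i = l ^ (e * n.factorial * i) := fun i => by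
      unfold QQ; rw [← pow_mul]
    set P'' := tw (QQ l e n ^ i) P' with hP''
    have hP''m : P''.Monic := by rw [hP'', hQi]; exact (t3 _ P').2.2 hP'
    have hP''d : P''.natDegree = r := by rw [hP'', hQi, (t3 _ P').1, hPd']
    have hneθ : ∀ P1 P2 : F[X], P1.natDegree = r → P2.natDegree = r → P1 ≠ P2 → aeval θ P1 ≠ aeval θ P2 ∧
        aeval θ (P1 - P2) ≠ 0 := by
      intro P1 P2 h1 h2 h12
      have h3 : aeval θ (P1 - P2) ≠ 0 := by
        apply milQ_ne hD (sub_ne_zero.2 h12)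
        have := natDegree_sub_le P1 P2
        rw [h1, h2, max_self] at this
        omega
      refine ⟨?_, h3⟩
      intro h
      apply h3
      rw [map_sub, h, sub_self]
    have h1 := mil_pair hPn hD hn (hPθ P hP hPd) (hPθ P' hP' hPd') (hneθ P P' hPd hPd' hne).1
    have h2 := mil_pair hPn hD hn (hPθ P hP hPd) (hPθ P'' hP''m hP''d) (hneθ P P'' hPd hP''d hne').1
    rw [← map_sub] at h1 h2
    have h3 := htwi (aeval θ (P - P'')) (hneθ P P'' hPd hP''d hne').2 P' hP'.ne_zero (by omega) i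
    have h4 := htwi (aeval θ P) (hPθ P hP hPd) P' hP'.ne_zero (by omega) i
    rw [← hP''] at h3 h4
    rw [h1, ← h4, ← h2, h3]
  · intro P A hP hPd hA hAd
    exact hD.wt A P hA hP.ne_zero (by omega) (by omega)
  · intro P A hP hPd hirr hA hAd
    exact mil_red hD hr hrn hS hP hPd hirr hA hAd
  · intro h
    exact mil_stage hPn hD hr hrn hS h

end CL
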