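import Pool.Agent.Lib.MP_defcf3_al.CL.IfaceB

/-!
Project CL (MP_defcf3_al), part (B), row Mzp: (4.6) of finding 4324, the use of Theorem (M_Z).
-/

open Polynomial

namespace CL

universe u

namespace MzpH

section Basic

variable {F : Type u} [Field F]

theorem com_tw (hTw : TwpStatement.{u}) {l : ℕ} (hl : l.Prime) (hc : CharP F l) (hp : ∀ x : F, ∃ y : F, y ^ l = x)
    {V : ValuationSubring F} {A : F[X]} (h : CoM V A) (j : ℕ) : CoM V (tw (l ^ j) A) := by
  intro i
  rw [(hTw F l hl hc hp).2.1 j A i, map_pow]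
  exact pow_lt_one₀ zero_le (h i) (pow_ne_zero _ hl.ne_zero)

theorem com_iter (hTw : TwpStatement.{u}) {l e : ℕ} (hl : l.Prime) (hc : CharP F l)
    (hp : ∀ x : F, ∃ y : F, y ^ l = x) {V : ValuationSubring F} {P : F[X]}
    (h : CoM V (tw (l ^ e) P - P)) (k : ℕ) : CoM V (tw (l ^ (e * k)) P - P) := by
  obtain ⟨t1, t2, t3, t4, -⟩ := hTw F l hl hc hp
  induction k with
  | zero =>
    have : tw (l ^ (e * 0)) P - P = 0 := by
      ext i
      rw [coeff_sub, t2]
      simp
    rw [this]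
    intro i
    simp
  | succ k ih =>
    have e1 : tw (l ^ (e * (k + 1))) P - P = tw (l ^ (e * k)) (tw (l ^ e) P - P) + (tw (l ^ (e * k)) P - P) := by
      rw [(t1 (e * k) (tw (l ^ e) P) P).2.1, t4]
      ring_nf
    rw [e1]
    exact (com_tw hTw hl hc hp h (e * k)).add ih

/-- Reduction of PSim V A 1 to a representation. -/
theorem psim_one (hPn : PnStatement.{u}) {V : ValuationSubring F} {A : F[X]} (h : PSim V A 1) :
    ∃ a : F, a ≠ 0 ∧ ∃ B : F[X], CoM V B ∧ A = C a * (1 + B) := by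
  obtain ⟨a, ha, hh⟩ := h
  obtain ⟨q1, q2, q3, q4, q5, q6, q7, q8, q9, q10, q11⟩ := hPn F V
  refine ⟨a, ha, C a⁻¹ * (A - C a), ?_, ?_⟩
  · rw [← q10, q7]
    rw [mul_one, q8] at hh
    have h0 : V.valuation a ≠ 0 := (Valuation.ne_zero_iff _).2 ha
    rw [map_inv₀]
    exact (inv_mul_lt_one₀ (zero_lt_iff.2 h0)).2 hh
  · rw [mul_add, mul_one, ← mul_assoc, ← C_mul, mul_inv_cancel₀ ha, C_1, one_mul]
    ring

end Basic

section Adj

variable {F : Type u} [Field F] {P : F[X]} [hI : Fact (Irreducible P)]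

theorem minpoly_eq (hm : P.Monic) : minpoly F (AdjoinRoot.root P) = P := by
  rw [AdjoinRoot.minpoly_root hm.ne_zero, hm.leadingCoeff]
  simp

theorem nn_eq (hm : P.Monic) : nn F (AdjoinRoot.root P) = P.natDegree := by
  unfold nn
  rw [minpoly_eq hm]

theorem finrank_eq (hm : P.Monic) : Module.finrank F (AdjoinRoot P) = P.natDegree := by
  rw [(AdjoinRoot.powerBasis hm.ne_zero).finrank, AdjoinRoot.powerBasis_dim]

theorem rep_lt (hm : P.Monic) (x : AdjoinRoot P) : (AdjoinRoot.modByMonicHom hm x).natDegree < P.natDegree := by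
  obtain ⟨A, rfl⟩ := AdjoinRoot.mk_surjective x
  rw [AdjoinRoot.modByMonicHom_mk]
  refine natDegree_modByMonic_lt _ hm ?_
  intro h1
  exact hI.out.not_isUnit (by rw [h1]; exact isUnit_one)

omit hI in
theorem mk_rep (hm : P.Monic) (x : AdjoinRoot P) : AdjoinRoot.mk P (AdjoinRoot.modByMonicHom hm x) = x :=
  AdjoinRoot.mk_leftInverse hm x

omit hI in
theorem rep_mk (hm : P.Monic) {A : F[X]} (hA : A.natDegree < P.natDegree) :
    AdjoinRoot.modByMonicHom hm (AdjoinRoot.mk P A) = A := by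
  rw [AdjoinRoot.modByMonicHom_mk, modByMonic_eq_self_iff hm]
  exact degree_lt_degree hA

theorem rep_mul (hm : P.Monic) (x y : AdjoinRoot P) : AdjoinRoot.modByMonicHom hm (x * y) =
    (AdjoinRoot.modByMonicHom hm x * AdjoinRoot.modByMonicHom hm y) %ₘ P := by
  conv_lhs => rw [← mk_rep hm x, ← mk_rep hm y, ← map_mul]
  rw [AdjoinRoot.modByMonicHom_mk]

theorem rep_ne (hm : P.Monic) {x : AdjoinRoot P} (hx : x ≠ 0) : AdjoinRoot.modByMonicHom hm x ≠ 0 := by
  intro h0
  apply hx
  rw [← mk_rep hm x, h0, map_zero]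

theorem mk_ne {A : F[X]} (hA : A ≠ 0) (hd : A.natDegree < P.natDegree) : AdjoinRoot.mk P A ≠ 0 := by
  rw [Ne, AdjoinRoot.mk_eq_zero]
  intro hdv
  exact absurd (natDegree_le_of_dvd hdv hA) (by omega)

/-- The normalised element is near 1. -/
theorem near [FiniteDimensional F (AdjoinRoot P)] (hNorm : NormStatement.{u}) (hPn : PnStatement.{u}) (hm : P.Monic)
    (hg : Gen F (AdjoinRoot.root P)) {V : ValuationSubring F} (hV : CoV V P) {A : F[X]} (h : PSim V A 1) :
    (AdjoinRoot.mk P A) ^ P.natDegree / algebraMap F _ (Algebra.norm F (AdjoinRoot.mk P A)) - 1 ∈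
      MB V (AdjoinRoot.root P) := by
  obtain ⟨a, ha, B, hB, e1⟩ := psim_one hPn h
  have hV' : CoV V (minpoly F (AdjoinRoot.root P)) := by rw [minpoly_eq hm]; exact hV
  set ρ := AdjoinRoot.root P with hρ
  set β : AdjoinRoot P := aeval ρ B with hβ
  have hβ1 : β ∈ MB V ρ := ⟨B, hB, rfl⟩
  have hy : AdjoinRoot.mk P A = algebraMap F _ a * (1 + β) := by
    rw [e1, map_mul, map_add, map_one, ← AdjoinRoot.aeval_eq B]
    rfl
  have hN := (hNorm F (AdjoinRoot P) ρ hg V hV').2.2 β hβ1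
  set δ : F := Algebra.norm F (1 + β) - 1 with hδ
  have hNβ : Algebra.norm F (1 + β) = 1 + δ := by rw [hδ]; ring
  have hu : V.valuation (1 + δ) = 1 := by
    rw [Valuation.map_add_eq_of_lt_left, map_one]
    rw [map_one]
    exact hN
  have hu0 : (1 + δ) ≠ 0 := by
    intro h0
    rw [h0, map_zero] at hu
    exact zero_ne_one hu
  have hai : (1 + δ)⁻¹ ∈ V := by
    rw [← V.valuation_le_one_iff, map_inv₀, hu, inv_one]
  have ha' : algebraMap F (AdjoinRoot P) a ≠ 0 := (_root_.map_ne_zero _).2 ha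
  have hu0' : algebraMap F (AdjoinRoot P) (1 + δ) ≠ 0 := (_root_.map_ne_zero _).2 hu0
  have hx : (AdjoinRoot.mk P A) ^ P.natDegree / algebraMap F _ (Algebra.norm F (AdjoinRoot.mk P A)) - 1 =
      algebraMap F _ (1 + δ)⁻¹ * (((1 + β) ^ P.natDegree - 1) - algebraMap F _ δ) := by
    rw [hy, map_mul, Algebra.norm_algebraMap, finrank_eq hm, hNβ, mul_pow, map_mul, map_pow, map_inv₀]
    field_simp
    rw [map_add, map_one]
    ring
  rw [hx]
  refine BB_mul_MB (alg_mem_BB hai) ((MB V ρ).sub_mem ?_ (alg_mem_MB hN))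
  rw [show (1 + β) ^ P.natDegree - 1 = (∑ i ∈ Finset.range P.natDegree, (1 + β) ^ i) * ((1 + β) - 1) from
    (geom_sum_mul _ _).symm, add_sub_cancel_left]
  refine BB_mul_MB ((BB V ρ).sum_mem fun i _ => (BB V ρ).pow_mem ((BB V ρ).add_mem (BB V ρ).one_mem ?_) _) hβ1
  exact MB_le hβ1

end Adj

section Ker

variable {K T : Type*} [Field K] [AddCommGroup T]

theorem ker (ψ : K → T) (h : ∀ x y, x ≠ 0 → y ≠ 0 → ψ (x * y) = ψ x + ψ y) :
    ψ 1 = 0 ∧ (∀ x, x ≠ 0 → ∀ k : ℕ, ψ (x ^ k) = k • ψ x) ∧ (∀ x y, x ≠ 0 → y ≠ 0 → ψ (x / y) = ψ x - ψ y) ∧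
    ∃ N : Subgroup Kˣ, ∀ x, InN N x ↔ x ≠ 0 ∧ ψ x = 0 := by
  have h1 : ψ 1 = 0 := by
    have := h 1 1 one_ne_zero one_ne_zero
    rw [one_mul] at this
    exact left_eq_add.1 this
  have hi : ∀ x, x ≠ 0 → ψ x⁻¹ = - ψ x := by
    intro x hx
    have := h x x⁻¹ hx (inv_ne_zero hx)
    rw [mul_inv_cancel₀ hx, h1] at this
    exact eq_neg_of_add_eq_zero_right this.symm
  refine ⟨h1, ?_, ?_, ?_⟩
  · intro x hx k
    induction k with
    | zero => rw [pow_zero, h1, zero_smul]
    | succ k ih => rw [pow_succ, h _ _ (pow_ne_zero _ hx) hx, ih, succ_nsmul]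
  · intro x y hx hy
    rw [div_eq_mul_inv, h _ _ hx (inv_ne_zero hy), hi y hy, sub_eq_add_neg]
  · refine ⟨{ carrier := {w | ψ (w : K) = 0}
              mul_mem' := ?_
              one_mem' := ?_
              inv_mem' := ?_ }, ?_⟩
    · intro a c ha hc
      simp only [Set.mem_ofPred_eq, Units.val_mul] at *
      rw [h _ _ a.ne_zero c.ne_zero, ha, hc, add_zero]
    · simpa using h1
    · intro a ha
      simp only [Set.mem_ofPred_eq, Units.val_inv_eq_inv_val] at *
      rw [hi _ a.ne_zero, ha, neg_zero]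
    · intro x
      constructor
      · rintro ⟨w, hw, rfl⟩
        exact ⟨w.ne_zero, hw⟩
      · rintro ⟨hx, hx2⟩
        exact ⟨Units.mk0 x hx, hx2, rfl⟩

end Ker

section Frob

variable {F : Type u} [Field F]

theorem root_pow {l : ℕ} (hp : ∀ x : F, ∃ y : F, y ^ l = x) (k : ℕ) (x : F) : ∃ y : F, y ^ l ^ k = x := by
  induction k generalizing x with
  | zero => exact ⟨x, by simp⟩
  | succ k ih =>
    obtain ⟨y, hy⟩ := ih x
    obtain ⟨z, hz⟩ := hp y
    exact ⟨z, by rw [pow_succ', pow_mul, hz, hy]⟩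

theorem tw_root (hTw : TwpStatement.{u}) {l : ℕ} (hl : l.Prime) (hc : CharP F l) (hp : ∀ x : F, ∃ y : F, y ^ l = x)
    (j : ℕ) (A : F[X]) : ∃ B : F[X], tw (l ^ j) B = A := by
  choose g hg using root_pow hp j
  have hg0 : g 0 = 0 := by
    have := hg 0
    exact (pow_eq_zero_iff (pow_ne_zero _ hl.ne_zero)).1 this
  refine ⟨∑ i ∈ Finset.range (A.natDegree + 1), monomial i (g (A.coeff i)), ?_⟩
  ext i
  rw [(hTw F l hl hc hp).2.1, finsetSum_coeff]
  simp only [coeff_monomial]
  rw [Finset.sum_ite_eq' (Finset.range (A.natDegree + 1)) i]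
  split_ifs with h1
  · exact hg _
  · have h2 : A.coeff i = 0 := coeff_eq_zero_of_natDegree_lt (by simpa using h1)
    rw [h2, zero_pow (pow_ne_zero _ hl.ne_zero)]

theorem aeval_tw (hTw : TwpStatement.{u}) {K : Type*} [Field K] [Algebra F K] {l : ℕ} (hl : l.Prime) (hc : CharP F l)
    (hp : ∀ x : F, ∃ y : F, y ^ l = x) (j : ℕ) (B : F[X]) (x : K) :
    aeval (x ^ l ^ j) (tw (l ^ j) B) = (aeval x B) ^ l ^ j := by
  have : Fact l.Prime := ⟨hl⟩
  have : CharP K l := charP_of_injective_algebraMap (algebraMap F K).injective l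
  obtain ⟨t1, t2, t3, t4, -⟩ := hTw F l hl hc hp
  rw [aeval_eq_sum_range, aeval_eq_sum_range, (t3 j B).1, sum_pow_char_pow]
  refine Finset.sum_congr rfl fun i _ => ?_
  rw [t2, Algebra.smul_def, Algebra.smul_def, mul_pow, map_pow, ← pow_mul, ← pow_mul, mul_comm (l ^ j) i]

end Frob

end MzpH

open MzpH in
theorem mzp_proof (hMZ : ThmMZStatement.{u}) (hCyc : CycStatement.{u}) (hPn : PnStatement.{u})
    (hTw : TwpStatement.{u}) (hSim : SimStatement.{u}) (hMil : MilStatement.{u}) (hNorm : NormStatement.{u}) :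
    MzpStatement.{u} := by
  intro F L _ _ _ _ l p e n r Z θ T _ b hS hr2 hrn hq hst P A hm hd hirr hA hAd hps
  have hmin : (minpoly F θ).natDegree = n := hS.deg
  have hm0 : (minpoly F θ).Monic := minpoly.monic hS.int
  have hθ : ∀ B : F[X], B ≠ 0 → B.natDegree < n → aeval θ B ≠ 0 := by
    intro B hB hBd h0
    exact absurd (natDegree_le_of_dvd (minpoly.dvd F θ h0) hB) (by omega)
  have hPθ : aeval θ P ≠ 0 := hθ P hm.ne_zero (by omega)
  by_cases hZ : Z.Nonempty
  swap
  · exact (hS.supp (aeval θ P) A hPθ hA (hAd.trans hrn)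
      (fun V hV => absurd ⟨V, hV⟩ hZ)).2
  have hI : Fact (Irreducible P) := ⟨hirr⟩
  have hfd : FiniteDimensional F (AdjoinRoot P) := hm.finite_adjoinRoot
  obtain ⟨m1, m2, m3, m4, m5, -⟩ := hMil F L l p e n r Z θ T b hS (by omega) hrn hq hst
  have hc := hS.chr
  -- the homomorphism
  set rp := AdjoinRoot.modByMonicHom hm with hrp
  have hrpd : ∀ x, (rp x).natDegree < r := fun x => hd ▸ rep_lt hm x
  obtain ⟨k1, k2, k3, N, hN⟩ := ker (K := AdjoinRoot P) (fun x => b (aeval θ (rp x)) (aeval θ P)) (by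
    intro x y hx hy
    simp only [hrp]
    rw [rep_mul]
    exact m2 P _ _ hm hd hirr (rep_ne hm hx) (hrpd x) (rep_ne hm hy) (hrpd y))
  beta_reduce at k1 k2 k3 hN
  have hψ : ∀ B : F[X], B.natDegree < r → rp (aeval (AdjoinRoot.root P) B) = B := by
    intro B hB
    rw [AdjoinRoot.aeval_eq]
    exact rep_mk hm (by omega)
  have hρ0 : ∀ B : F[X], B ≠ 0 → B.natDegree < r → aeval (AdjoinRoot.root P) B ≠ 0 := by
    intro B hB hBd
    rw [AdjoinRoot.aeval_eq]
    exact mk_ne hB (by omega)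
  have hbase : ∀ c : F, c ≠ 0 → b (aeval θ (rp (algebraMap F (AdjoinRoot P) c))) (aeval θ P) = 0 := by
    intro c hc0
    have e1 : rp (algebraMap F (AdjoinRoot P) c) = C c * 1 := by
      rw [mul_one]
      have := hψ (C c) (by rw [natDegree_C]; omega)
      rwa [aeval_C] at this
    rw [e1, m3 P 1 c hm hd one_ne_zero (by rw [natDegree_one]; omega) hc0]
    exact m1 P hm hd
  have hnn : nn F (AdjoinRoot.root P) = r := by rw [nn_eq hm, hd]
  have hgen : Gen F (AdjoinRoot.root P) := by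
    refine ⟨AdjoinRoot.adjoinRoot_eq_top, AdjoinRoot.isIntegral_root hm.ne_zero, ?_, by omega⟩
    rw [minpoly_eq hm]
    have : Fact l.Prime := ⟨hS.lpr⟩
    have : ExpChar F l := ExpChar.prime hS.lpr
    have : PerfectRing F l := PerfectRing.ofSurjective F l fun x => by
      obtain ⟨y, hy⟩ := hS.perf x
      exact ⟨y, hy⟩
    have := PerfectRing.toPerfectField F l
    exact PerfectField.separable_of_irreducible hirr
  have hQ : ∀ t : T, (QQ l e n) • t = t := by
    intro t
    obtain ⟨c, hc2⟩ := hq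
    have h1 : 1 ≤ QQ l e n := Nat.one_le_pow _ _ hS.lpr.pos
    have e1 : QQ l e n = p * c + 1 := by omega
    rw [e1, add_smul, one_smul, mul_comm, mul_smul, hS.tors, smul_zero, zero_add]
  have hDat : Dat F l p (e * n.factorial) N (AdjoinRoot.root P) := by
    refine ⟨hS.lpr, hS.ppr, hS.chr, hS.perf, hgen, ?_, hq, ?_, ?_, ?_⟩
    · exact Nat.mul_pos hS.epos (Nat.factorial_pos n)
    · intro c hc0
      exact (hN _).2 ⟨(_root_.map_ne_zero _).2 hc0, hbase c hc0⟩
    · intro z hz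
      exact (hN _).2 ⟨pow_ne_zero _ hz, by rw [k2 z hz, hS.tors]⟩
    · intro B hB hBd
      rw [hnn] at hBd
      obtain ⟨B', hB'⟩ := tw_root hTw hS.lpr hc hS.perf (e * n.factorial) B
      obtain ⟨t1, t2, t3, t4, -⟩ := hTw F l hS.lpr hc hS.perf
      have hB0 : B' ≠ 0 := by
        intro h0
        apply hB
        rw [← hB', (t3 _ B').2.1, h0]
      have hBd' : B'.natDegree < r := by
        rw [← (t3 (e * n.factorial) B').1, hB']
        exact hBd
      have e1 : aeval (AdjoinRoot.root P ^ l ^ (e * n.factorial)) B =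
          (aeval (AdjoinRoot.root P) B') ^ l ^ (e * n.factorial) := by
        rw [← aeval_tw hTw hS.lpr hc hS.perf, hB']
      have n1 := hρ0 B' hB0 hBd'
      have n2 := hρ0 B hB hBd
      refine ⟨by rw [e1]; exact pow_ne_zero _ n1, n2, (hN _).2 ⟨div_ne_zero (by rw [e1]; exact pow_ne_zero _ n1) n2, ?_⟩⟩
      rw [e1, k3 _ _ (pow_ne_zero _ n1) n2, k2 _ n1, hψ B' hBd', hψ B hBd, ← hB']
      have := m5 P B' hm hd hB0 hBd'
      rw [show l ^ (e * n.factorial) = QQ l e n from rfl, hQ, this, sub_self]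
  have hn2 : 2 ≤ n := by omega
  obtain ⟨D, Cp, hAni⟩ := hCyc F l e n hS.lpr hS.chr hS.perf hS.epos hn2
  have hSupp : Supp F (l ^ (e * n.factorial)) N (AdjoinRoot.root P) Z D Cp := by
    refine ⟨?_, hAni.Dpos, ?_⟩
    · intro A1 B1 hA1 hB1 hAB
      rw [hnn] at hA1 hB1
      obtain ⟨V0, hV0⟩ := hZ
      have hpn : ∀ V ∈ Z, pn V B1 < pn V A1 := by
        intro V hV
        obtain ⟨i, hi⟩ := hAB V hV
        obtain ⟨q1, q2, q3, -⟩ := hPn F V
        have h2 : V.valuation (A1.coeff i) ≤ pn V A1 := q2 A1 i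
        by_cases hB0 : B1 = 0
        · rw [(q1 B1).2 hB0]
          exact lt_of_lt_of_le (lt_of_le_of_lt zero_le (hi 0)) h2
        · obtain ⟨j, hj⟩ := q3 B1 hB0
          rw [← hj]
          exact (hi j).trans_le h2
      obtain ⟨q1, q2, q3, q4, q5, q6, -⟩ := hPn F V0
      have hA0 : A1 ≠ 0 := by
        intro h0
        have := hpn V0 hV0
        rw [(q1 A1).2 h0] at this
        exact absurd this (not_lt.2 zero_le)
      have hAB0 : A1 + B1 ≠ 0 := by
        intro h0
        have h2 := q6 B1 A1 (hpn V0 hV0)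
        rw [add_comm, (q1 _).2 h0] at h2
        exact hA0 ((q1 A1).1 h2.symm)
      have hABd : (A1 + B1).natDegree < r := lt_of_le_of_lt (natDegree_add_le _ _) (max_lt hA1 hB1)
      -- the quotient in L
      have hθA : aeval θ A1 ≠ 0 := hθ A1 hA0 (by omega)
      have hθAB : aeval θ (A1 + B1) ≠ 0 := hθ _ hAB0 (by omega)
      obtain ⟨A2, hA2⟩ : ∃ A2 : F[X], aeval θ A2 = aeval θ (A1 + B1) / aeval θ A1 := by
        have h3 : aeval θ (A1 + B1) / aeval θ A1 ∈ Algebra.adjoin F {θ} := by rw [hS.top]; trivial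
        rw [Algebra.adjoin_singleton_eq_range_aeval] at h3
        exact h3
      set A3 := A2 %ₘ minpoly F θ with hA3
      have h31 : minpoly F θ ≠ 1 := by
        intro h1
        rw [h1, natDegree_one] at hmin
        omega
      have hA3d : A3.natDegree < n := by
        rw [hA3, ← hmin]
        exact natDegree_modByMonic_lt _ hm0 h31
      have hA3θ : aeval θ A3 = aeval θ (A1 + B1) / aeval θ A1 := by
        rw [hA3, ← hA2, modByMonic_eq_sub_mul_div A2, map_sub, map_mul, minpoly.aeval, zero_mul, sub_zero]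
      have hA30 : A3 ≠ 0 := by
        intro h0
        rw [h0, map_zero] at hA3θ
        exact div_ne_zero hθAB hθA hA3θ.symm
      have hmul : (A3 * A1) %ₘ minpoly F θ = A1 + B1 := by
        by_contra hne
        have hne' : (A3 * A1) %ₘ minpoly F θ - (A1 + B1) ≠ 0 := sub_ne_zero.2 hne
        refine hθ _ hne' ?_ ?_
        · refine lt_of_le_of_lt (natDegree_sub_le _ _) (max_lt ?_ (by omega))
          rw [← hmin]
          exact natDegree_modByMonic_lt _ hm0 h31
        · rw [map_sub, modByMonic_eq_sub_mul_div, map_sub, map_mul, map_mul, minpoly.aeval, zero_mul,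
            sub_zero, hA3θ, div_mul_cancel₀ _ hθA, sub_self]
      have hone : (1 * A1) %ₘ minpoly F θ = A1 := by
        rw [one_mul, modByMonic_eq_self_iff hm0]
        exact degree_lt_degree (by omega)
      have hps3 : ∀ V ∈ Z, PSim V A3 1 := by
        intro V hV
        obtain ⟨s1, s2, s3, s4, s5, s6, s7, -⟩ := hSim F V
        refine s7 (minpoly F θ) A3 1 A1 hm0 (by omega) (hS.inert V hV) (by omega) (by rw [natDegree_one]; omega)
          (by omega) hA0 ?_
        rw [hmul, hone]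
        refine s4 _ _ ?_
        rw [add_sub_cancel_left]
        exact hpn V hV
      have hb0 := (hS.supp (aeval θ P) A3 hPθ hA30 hA3d hps3).2
      have hbAB : b (aeval θ (A1 + B1)) (aeval θ P) = b (aeval θ A1) (aeval θ P) := by
        have e1 : aeval θ (A1 + B1) = aeval θ A3 * aeval θ A1 := by
          rw [hA3θ, div_mul_cancel₀ _ hθA]
        rw [e1, hS.mull _ _ _ (hθ A3 hA30 hA3d) hθA hPθ, hb0, zero_add]
      have n1 := hρ0 _ hAB0 hABd
      have n2 := hρ0 _ hA0 hA1
      refine ⟨n1, n2, (hN _).2 ⟨div_ne_zero n1 n2, ?_⟩⟩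
      rw [k3 _ _ n1 n2, hψ _ hABd, hψ _ hA1, hbAB, sub_self]
    · intro V hV
      rcases hV with hV | hV
      · refine hAni.an (minpoly F θ) V hm0 (by omega) (by omega) (hS.inert V hV) ?_
        exact com_iter hTw hS.lpr hc hS.perf (hS.fix V hV) n.factorial
      · obtain ⟨P', hP', hirr', hf⟩ := hV
        rw [minpoly_eq hm] at hP'
        refine hAni.an P V hm (by omega) (by omega) ⟨P', hP', hirr'⟩ ?_
        intro i
        obtain ⟨-, t2, -⟩ := hTw F l hS.lpr hc hS.perf
        have h1 := hf i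
        rw [← map_pow, ← sub_eq_zero, ← map_sub, IsLocalRing.residue_eq_zero_iff, V.valuation_lt_one_iff] at h1
        rw [coeff_sub, show QQ l e n = l ^ (e * n.factorial) from rfl, t2, ← hP', coeff_map]
        simpa using h1
  -- the normalised element
  have hy0 : AdjoinRoot.mk P A ≠ 0 := mk_ne hA (by omega)
  have hNy0 : Algebra.norm F (AdjoinRoot.mk P A) ≠ 0 := Algebra.norm_ne_zero_iff.2 hy0
  have hNy : algebraMap F (AdjoinRoot P) (Algebra.norm F (AdjoinRoot.mk P A)) ≠ 0 := (_root_.map_ne_zero _).2 hNy0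
  have hfin := hMZ F (AdjoinRoot P) l p (e * n.factorial) N (AdjoinRoot.root P) hDat (by
      rw [hnn]
      intro h0
      rcases hS.ppr.dvd_mul.1 h0 with h1 | h1
      · exact absurd (Nat.le_of_dvd (by omega) h1) (by have := hS.np; omega)
      · exact hS.l2 h1) Z D Cp hSupp
    ((AdjoinRoot.mk P A) ^ r / algebraMap F _ (Algebra.norm F (AdjoinRoot.mk P A)))
    (div_ne_zero (pow_ne_zero _ hy0) hNy) (by
      intro V hV hJ
      obtain ⟨P', hP', hirr', hf⟩ := hV
      rw [minpoly_eq hm] at hP'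
      have hin : Inert V P := ⟨P', hP', hirr'⟩
      have hCV : CoV V P := by
        intro i
        rw [← hP', coeff_map]
        exact (P'.coeff i).2
      have hmem : V ∈ Bd Z (QQ l e n) P := by
        refine ⟨hJ, hin, ?_⟩
        intro i
        obtain ⟨-, t2, -⟩ := hTw F l hS.lpr hc hS.perf
        have h1 := hf i
        rw [← map_pow, ← sub_eq_zero, ← map_sub, IsLocalRing.residue_eq_zero_iff, V.valuation_lt_one_iff] at h1
        rw [coeff_sub, show QQ l e n = l ^ (e * n.factorial) from rfl, t2, ← hP', coeff_map]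
        simpa using h1
      have := near hNorm hPn hm hgen hCV (hps V hmem)
      rwa [hd] at this)
  obtain ⟨-, h2⟩ := (hN _).1 hfin
  rw [k3 _ _ (pow_ne_zero _ hy0) hNy, k2 _ hy0, hbase _ hNy0, sub_zero] at h2
  have e1 : rp (AdjoinRoot.mk P A) = A := rep_mk hm (by omega)
  rw [e1] at h2
  -- r is prime to p
  have hcop : Nat.Coprime r p := by
    rw [Nat.coprime_comm, hS.ppr.coprime_iff_not_dvd]
    intro h0
    exact absurd (Nat.le_of_dvd (by omega) h0) (by have := hS.np; omega)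
  have := hS.tors (b (aeval θ A) (aeval θ P))
  have h3 : (addOrderOf (b (aeval θ A) (aeval θ P))) ∣ 1 := by
    have d1 := addOrderOf_dvd_of_nsmul_eq_zero h2
    have d2 := addOrderOf_dvd_of_nsmul_eq_zero this
    have := Nat.dvd_gcd d1 d2
    rwa [hcop] at this
  exact AddMonoid.addOrderOf_eq_one_iff.1 (Nat.dvd_one.1 h3)

end CL
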