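import Pool.Agent.Lib.MP_defcf3_al.CL.IfaceB
import Pool.Agent.Lib.MP_defcf3_al.CL.Twist

/-!
Project CL (MP_defcf3_al), part (B), row Pn: the content norm of a polynomial at a valuation ring.
-/

open Polynomial

namespace CL.H88

universe u

variable {F : Type u} [Field F]

variable (V : ValuationSubring F)

theorem le_pn (A : F[X]) (i : ℕ) : V.valuation (A.coeff i) ≤ pn V A := by
  by_cases h : A.coeff i = 0
  · rw [h, map_zero]; exact zero_le
  · exact Finset.le_sup (f := fun i => V.valuation (A.coeff i)) (mem_support_iff.2 h)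

theorem pn_le {A : F[X]} {c : V.ValueGroup} (h : ∀ i, V.valuation (A.coeff i) ≤ c) : pn V A ≤ c :=
  Finset.sup_le fun i _ => h i

theorem pn_le_iff {A : F[X]} {c : V.ValueGroup} : pn V A ≤ c ↔ ∀ i, V.valuation (A.coeff i) ≤ c :=
  ⟨fun h i => (le_pn V A i).trans h, pn_le V⟩

theorem pn_zero : pn V (0 : F[X]) = 0 := le_antisymm (pn_le V fun i => by simp) zero_le

theorem pn_eq_zero {A : F[X]} (h : pn V A = 0) : A = 0 := by
  ext i
  have := le_pn V A i
  rw [h] at this
  have h1 : V.valuation (A.coeff i) = 0 := le_antisymm this zero_le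
  rw [coeff_zero]
  exact (map_eq_zero _).1 h1

theorem pn_ne_zero {A : F[X]} (h : A ≠ 0) : pn V A ≠ 0 := fun h' => h (pn_eq_zero V h')

theorem exists_pn (A : F[X]) : ∃ i, V.valuation (A.coeff i) = pn V A := by
  by_cases h : A = 0
  · subst h; exact ⟨0, by rw [pn_zero]; simp⟩
  · have hs : A.support.Nonempty := by rwa [Finset.nonempty_iff_ne_empty, Ne, support_eq_empty]
    obtain ⟨i, _, hi⟩ := Finset.exists_mem_eq_sup A.support hs (fun i => V.valuation (A.coeff i))
    exact ⟨i, hi.symm⟩

theorem pn_lt_iff {A : F[X]} {c : V.ValueGroup} :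
    pn V A < c ↔ ∀ i, V.valuation (A.coeff i) < c := by
  constructor
  · intro h i; exact (le_pn V A i).trans_lt h
  · intro h
    obtain ⟨i, hi⟩ := exists_pn V A
    rw [← hi]; exact h i

theorem pn_add_le (A B : F[X]) : pn V (A + B) ≤ max (pn V A) (pn V B) := by
  apply pn_le
  intro i
  rw [coeff_add]
  exact (V.valuation.map_add _ _).trans (max_le_max (le_pn V A i) (le_pn V B i))

theorem pn_neg (A : F[X]) : pn V (-A) = pn V A := by
  apply le_antisymm
  · apply pn_le; intro i; rw [coeff_neg, Valuation.map_neg]; exact le_pn V A i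
  · apply pn_le; intro i
    have := le_pn V (-A) i
    rwa [coeff_neg, Valuation.map_neg] at this

theorem pn_sub_le (A B : F[X]) : pn V (A - B) ≤ max (pn V A) (pn V B) := by
  rw [sub_eq_add_neg]
  refine (pn_add_le V _ _).trans ?_
  rw [pn_neg]

theorem pn_sub_comm (A B : F[X]) : pn V (A - B) = pn V (B - A) := by
  rw [← pn_neg, neg_sub]

/-- The dominant summand. -/
theorem pn_add_eq {A B : F[X]} (h : pn V B < pn V A) : pn V (A + B) = pn V A := by
  apply le_antisymm
  · exact (pn_add_le V _ _).trans (max_le le_rfl h.le)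
  · by_contra hc
    push Not at hc
    have h1 : pn V A ≤ max (pn V (A + B)) (pn V B) := by
      have := pn_sub_le V (A + B) B
      rwa [add_sub_cancel_right] at this
    rcases le_max_iff.1 h1 with h2 | h2
    · exact absurd hc (not_lt.2 h2)
    · exact absurd h (not_lt.2 h2)

theorem pn_C (c : F) : pn V (C c) = V.valuation c := by
  apply le_antisymm
  · apply pn_le; intro i; rw [coeff_C]; split_ifs
    · exact le_rfl
    · rw [map_zero]; exact zero_le
  · have := le_pn V (C c) 0
    rwa [coeff_C_zero] at this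

theorem pn_smul (c : F) (A : F[X]) : pn V (c • A) = V.valuation c * pn V A := by
  apply le_antisymm
  · apply pn_le; intro i
    rw [coeff_smul, smul_eq_mul, map_mul]
    gcongr
    exact le_pn V A i
  · obtain ⟨i, hi⟩ := exists_pn V A
    rw [← hi, ← map_mul, ← smul_eq_mul, ← coeff_smul]
    exact le_pn V _ i

theorem pn_C_mul (c : F) (A : F[X]) : pn V (C c * A) = V.valuation c * pn V A := by
  rw [← smul_eq_C_mul, pn_smul]

theorem pn_tw (A : F[X]) {s : ℕ} (hs : s ≠ 0) : pn V (tw s A) = pn V A ^ s := by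
  apply le_antisymm
  · apply pn_le; intro i
    rw [Tws.tw_coeff A s hs i, map_pow]
    gcongr
    exact le_pn V A i
  · obtain ⟨i, hi⟩ := exists_pn V A
    rw [← hi, ← map_pow, ← Tws.tw_coeff A s hs i]
    exact le_pn V _ i

theorem coV_iff (A : F[X]) : CoV V A ↔ pn V A ≤ 1 := by
  rw [pn_le_iff]
  exact forall_congr' fun i => (V.valuation_le_one_iff _).symm

theorem coM_iff (A : F[X]) : CoM V A ↔ pn V A < 1 := by
  rw [pn_lt_iff V]
  rfl

theorem pn_sum_le {ι : Type*} (s : Finset ι) (f : ι → F[X]) (c : V.ValueGroup) (h : ∀ i ∈ s, pn V (f i) ≤ c) :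
    pn V (∑ i ∈ s, f i) ≤ c := by
  classical
  induction s using Finset.induction_on with
  | empty => rw [Finset.sum_empty, pn_zero]; exact zero_le
  | insert a s ha ih =>
    rw [Finset.sum_insert ha]
    exact (pn_add_le V _ _).trans (max_le (h _ (Finset.mem_insert_self _ _))
      (ih fun i hi => h i (Finset.mem_insert_of_mem hi)))

theorem pn_mul_le (A B : F[X]) : pn V (A * B) ≤ pn V A * pn V B := by
  apply pn_le
  intro i
  rw [coeff_mul]
  apply Valuation.map_sum_le
  intro c _
  rw [map_mul]
  gcongr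
  · exact le_pn V A _
  · exact le_pn V B _

theorem pn_monic {A : F[X]} (hA : A.Monic) : 1 ≤ pn V A := by
  have := le_pn V A A.natDegree
  rwa [hA.coeff_natDegree, map_one] at this

end CL.H88

namespace CL

universe u

open H88

theorem pn_proof : PnStatement.{u} := by
  intro F _ V
  refine ⟨fun A => ⟨pn_eq_zero V, ?_⟩, le_pn V, fun A _ => exists_pn V A, pn_add_le V, pn_neg V, ?_, pn_C_mul V,
    pn_C V, fun A => (coV_iff V A).symm, fun A => (coM_iff V A).symm, fun A hA => pn_monic V hA⟩
  · rintro rfl; exact pn_zero V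
  · intro A B h
    rw [add_comm]; exact pn_add_eq V h

end CL
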