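import Pool.Agent.Lib.MP_defcf3_al.CL.IfaceB

/-!
Project CL (MP_defcf3_al), part (B), module Px: the sets B(P_X) and Z_a; P_X is irreducible.
-/

open Polynomial

namespace CL

universe u

section

variable {F : Type u} [Field F]

theorem px_QQ_pow (l e n j : ℕ) : QQ l e n ^ j = l ^ (e * n.factorial * j) := by
  unfold QQ
  rw [← pow_mul]

theorem px_coM_sub {V : ValuationSubring F} {A B : F[X]} (hA : CoM V A) (hB : CoM V B) :
    CoM V (A - B) := by
  rw [sub_eq_add_neg]
  exact hA.add hB.neg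

/-- twists of polynomials in the maximal ideal -/
theorem px_coM_tw (hPn : PnStatement.{u}) (hT : TwpStatement.{u}) {l : ℕ} (hl : l.Prime)
    (hc : CharP F l) (hp : ∀ x : F, ∃ y : F, y ^ l = x) (V : ValuationSubring F) (j : ℕ) (A : F[X]) :
    CoM V (tw (l ^ j) A) ↔ CoM V A := by
  obtain ⟨-, -, -, -, -, -, -, -, -, h10, -⟩ := hPn F V
  obtain ⟨-, -, -, -, h5, -⟩ := hT F l hl hc hp
  rw [← h10, ← h10, h5]
  exact pow_lt_one_iff_of_nonneg (zero_le) (pow_ne_zero _ hl.ne_zero)

/-- the twists of P at the places of B(P) -/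
theorem px_iter (hPn : PnStatement.{u}) (hT : TwpStatement.{u}) {l : ℕ} (hl : l.Prime)
    (hc : CharP F l) (hp : ∀ x : F, ∃ y : F, y ^ l = x) (V : ValuationSubring F) (j : ℕ) (A : F[X])
    (h : CoM V (tw (l ^ j) A - A)) (k : ℕ) : CoM V (tw (l ^ (j * k)) A - A) := by
  obtain ⟨t1, -, -, t4, -⟩ := hT F l hl hc hp
  induction k with
  | zero =>
    intro i
    have e : tw (l ^ (j * 0)) A - A = 0 := by
      obtain ⟨-, t2, -⟩ := hT F l hl hc hp
      ext i
      rw [coeff_sub, t2]
      simp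
    rw [e]
    simp
  | succ k ih =>
    have e : tw (l ^ (j * (k + 1))) A - A = tw (l ^ (j * k)) (tw (l ^ j) A - A) + (tw (l ^ (j * k)) A - A) := by
      rw [(t1 (j * k) (tw (l ^ j) A) A).2.1, t4, mul_add, mul_one]
      ring
    rw [e]
    exact ((px_coM_tw hPn hT hl hc hp V (j * k) _).2 h).add ih

end

theorem px_proof (hPn : PnStatement.{u}) (hT : TwpStatement.{u}) (hI : InrStatement.{u}) :
    PxStatement.{u} := by
  intro F _ l p e n r Z P a f D Cp E cont H K mm hC
  have hl := hC.num.lpr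
  have hc := hC.num.chr
  have hp := hC.num.perf
  obtain ⟨t1, t2, t3, t4, t5, t6, t7⟩ := hT F l hl hc hp
  have hr2 := hC.num.r2
  have hrn := hC.num.rn
  have hza : ∀ V ∈ Za Z l e n a P, V ∈ Bd Z (QQ l e n) P ∧ V.valuation f < 1 ∧ 0 < V.valuation f := by
    intro V hV
    exact ⟨hV.1, (hC.fB V hV.1).2 hV, zero_lt_iff.2 ((Valuation.ne_zero_iff _).2 hC.f0)⟩
  refine ⟨?_, ?_, hza, ?_⟩
  · intro P' hm hd V hV
    exact ⟨hV.1, hC.ani.an P' V hm (by omega) (by omega) hV.2.1 hV.2.2⟩
  · intro P' j hm hd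
    ext V
    have he1 : tw (QQ l e n) (tw (l ^ j) P') - tw (l ^ j) P' = tw (l ^ j) (tw (QQ l e n) P' - P') := by
      unfold QQ
      rw [(t1 j _ _).2.1, t4, t4, add_comm]
    change (Jle Z V ∧ Inert V (tw (l ^ j) P') ∧ CoM V (tw (QQ l e n) (tw (l ^ j) P') - tw (l ^ j) P')) ↔
      (Jle Z V ∧ Inert V P' ∧ CoM V (tw (QQ l e n) P' - P'))
    rw [t7 j V P' hm, he1, px_coM_tw hPn hT hl hc hp]
  · intro X hX
    have hK : QQ l e n ^ K = l ^ (e * n.factorial * K) := px_QQ_pow l e n K
    obtain ⟨u1, u2, u3⟩ := t3 (e * n.factorial * K) P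
    have hdX : X.degree < (tw (QQ l e n ^ K) P).degree := by
      rw [hK, degree_eq_natDegree (u3 hC.mon).ne_zero, u1, hC.deg]
      exact lt_of_le_of_lt degree_le_natDegree (by exact_mod_cast hX.2.1)
    have hmon : (PX l e n K P X).Monic := by
      unfold PX
      refine Monic.add_of_left ?_ hdX
      rw [hK]
      exact u3 hC.mon
    have hdeg : (PX l e n K P X).natDegree = r := by
      unfold PX
      rw [natDegree_add_eq_left_of_degree_lt hdX, hK, u1, hC.deg]
    have hV : ∀ V ∈ Za Z l e n a P, CoM V (PX l e n K P X - P) ∧ V ∈ Bd Z (QQ l e n) (PX l e n K P X) := by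
      intro V hV
      obtain ⟨hB, hf1, hf0⟩ := hza V hV
      obtain ⟨-, -, -, -, -, -, -, -, -, h10, -⟩ := hPn F V
      have c1 : CoM V (tw (QQ l e n ^ K) P - P) := by
        rw [hK]
        exact px_iter hPn hT hl hc hp V (e * n.factorial) P hB.2.2 K
      have c2 : CoM V X := (h10 X).1 (lt_of_le_of_lt (hX.2.2 V hV).2 hf1)
      have c3 : CoM V (PX l e n K P X - P) := by
        have e1 : PX l e n K P X - P = (tw (QQ l e n ^ K) P - P) + X := by
          unfold PX
          ring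
        rw [e1]
        exact c1.add c2
      refine ⟨c3, hB.1, ?_, ?_⟩
      · exact ((hI F V P hC.mon (by rw [hC.deg]; omega) hB.2.1).2.1 (PX l e n K P X) hmon
          (by rw [hdeg, hC.deg]) c3).1
      · have e1 : tw (QQ l e n) (PX l e n K P X) - PX l e n K P X =
            tw (QQ l e n) (PX l e n K P X - P) + ((tw (QQ l e n) P - P) - (PX l e n K P X - P)) := by
          have e2 : tw (QQ l e n) (PX l e n K P X - P) =
              tw (QQ l e n) (PX l e n K P X) - tw (QQ l e n) P := (t1 (e * n.factorial) _ _).2.1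
          rw [e2]
          ring
        rw [e1]
        refine CoM.add ?_ (px_coM_sub hB.2.2 c3)
        exact (px_coM_tw hPn hT hl hc hp V (e * n.factorial) _).2 c3
    refine ⟨hmon, hdeg, hV, ?_⟩
    obtain ⟨V, hVz⟩ := hC.ne
    exact (hI F V (PX l e n K P X) hmon (by rw [hdeg]; omega) (hV V hVz).2.2.1).2.2

end CL
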