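import Pool.Agent.Lib.MP_defcf3_al.CL.Gnr

/-!
Part (B), Sep: (5.1), the separator.
-/

open Polynomial

namespace CL

universe u

theorem sep_proof (hPn : PnStatement.{u}) (hTw : TwpStatement.{u}) (hInr : InrStatement.{u})
    (hPx : PxStatement.{u}) : SepStatement.{u} := by
  intro F _ l p e n r Z P a f D Cp E cont H K mm hc X hX
  obtain ⟨hXX, hBt, hZa, hPX⟩ := hPx F l p e n r Z P a f D Cp E cont H K mm hc
  obtain ⟨hm, hdg, hZB, hirr⟩ := hPX X hX
  have hl := hc.num.lpr
  have hch := hc.num.chr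
  have hperf := hc.num.perf
  have hr : 2 ≤ r := hc.num.r2
  have hD : 1 ≤ D := hc.ani.Dpos
  have hE : 1 ≤ E := hc.cnt.Epos
  obtain ⟨tadd, tcoeff, tdeg, tcomp, tpn, -, -⟩ := hTw F l hl hch hperf
  set Q := QQ l e n with hQ
  have hQl : Q = l ^ (e * n.factorial) := rfl
  have hQ2 : 2 ≤ Q := by
    rw [hQl]
    have h1 : 1 ≤ e * n.factorial := Nat.mul_pos hc.num.epos (Nat.factorial_pos n)
    calc 2 ≤ l := hl.two_le
      _ = l ^ 1 := (pow_one l).symm
      _ ≤ l ^ (e * n.factorial) := Nat.pow_le_pow_right hl.pos h1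
  set G := tw Q (PX l e n K P X) - PX l e n K P X with hG
  have hGdeg : G.natDegree < r := by
    have h1 : (tw Q (PX l e n K P X)).Monic := (tdeg _ _).2.2 hm
    have h2 : (tw Q (PX l e n K P X)).natDegree = r := by rw [hQl, (tdeg _ _).1, hdg]
    have h3 : G.degree < (tw Q (PX l e n K P X)).degree := by
      refine degree_sub_lt_left ?_ h1.ne_zero ?_
      · rw [degree_eq_natDegree h1.ne_zero, degree_eq_natDegree hm.ne_zero, h2, hdg]
      · rw [h1.leadingCoeff, hm.leadingCoeff]
    rw [degree_eq_natDegree h1.ne_zero, h2] at h3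
    by_cases hG0 : G = 0
    · rw [hG0, natDegree_zero]
      omega
    · rwa [degree_eq_natDegree hG0, Nat.cast_lt] at h3
  -- the norm of G on Za
  have hGZ : ∀ V ∈ Za Z l e n a P, pn V G = pn V X := by
    intro V hV
    obtain ⟨n0, nc, nat, nadd, nneg, nlt, nC, nCC, nV, nM, nmon⟩ := hPn F V
    obtain ⟨hf1, hf2⟩ := hX.2.2 V hV
    obtain ⟨-, hflt, hf0⟩ := hZa V hV
    have hX0 : 0 < pn V X := lt_of_lt_of_le (pow_pos hf0 _) hf1
    have hX1 : pn V X < 1 := lt_of_le_of_lt hf2 hflt
    have e1 : G = (tw Q X + -(tw (Q ^ K) P - tw (Q ^ (K + 1)) P)) + -X := by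
      have h1 : tw Q (PX l e n K P X) = tw Q (tw (Q ^ K) P) + tw Q X := (tadd (e * n.factorial) _ _).1
      have h2 : tw Q (tw (Q ^ K) P) = tw (Q ^ (K + 1)) P := by
        have h3 : Q ^ K = l ^ (e * n.factorial * K) := by rw [hQl, ← pow_mul]
        have h4 : Q ^ (K + 1) = l ^ (e * n.factorial + e * n.factorial * K) := by
          rw [hQl, ← pow_mul]
          congr 1
          ring
        rw [h4, h3, hQl, tcomp]
      have h3 : PX l e n K P X = tw (Q ^ K) P + X := rfl
      rw [hG, h1, h2, h3]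
      ring
    have h5 : pn V (tw Q X + -(tw (Q ^ K) P - tw (Q ^ (K + 1)) P)) < pn V (-X) := by
      refine lt_of_le_of_lt (nadd _ _) (max_lt ?_ ?_)
      · have h6 : pn V (tw Q X) = pn V X ^ Q := tpn _ V X
        rw [h6, nneg]
        calc pn V X ^ Q ≤ pn V X ^ 2 := pow_le_pow_right_of_le_one' hX1.le hQ2
          _ = pn V X * pn V X := sq _
          _ < 1 * pn V X := by gcongr
          _ = pn V X := one_mul _
      · rw [nneg, nneg]
        refine lt_of_le_of_lt (hc.deep V hV 1) (lt_of_lt_of_le ?_ hf1)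
        exact pow_lt_pow_right_of_lt_one₀ hf0 hflt (by omega)
    rw [e1, nlt _ _ h5, nneg]
  have hcG : ∀ V : ValuationSubring F, Anis V D Cp → V.valuation (cont G) = pn V G ^ E := fun V hV =>
    hc.cnt.val V hV G hGdeg
  have hcX : ∀ V : ValuationSubring F, Anis V D Cp → V.valuation (cont X) = pn V X ^ E := fun V hV =>
    hc.cnt.val V hV X hX.2.1
  have anB : ∀ V ∈ Bd Z Q (PX l e n K P X), Anis V D Cp := fun V hV => (hXX _ hm hdg V hV).2
  have anZ : ∀ V ∈ Za Z l e n a P, Anis V D Cp := fun V hV => anB V (hZB V hV).2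
  have hcG0 : cont G ≠ 0 := by
    obtain ⟨V, hV⟩ := hc.ne
    obtain ⟨hf1, hf2⟩ := hX.2.2 V hV
    obtain ⟨-, hflt, hf0⟩ := hZa V hV
    intro h0
    have h1 := hcG V (anZ V hV)
    rw [h0, map_zero, hGZ V hV] at h1
    exact absurd h1.symm (pow_ne_zero _ (lt_of_lt_of_le (pow_pos hf0 _) hf1).ne')
  set y := H (f ^ E) (cont X) with hy
  set fX := y ^ D / Cp.eval y with hfX
  set M := mm + 1 + mm * E with hM
  have hvy : ∀ V : ValuationSubring F, Anis V D Cp →
      V.valuation y = max (V.valuation f ^ E) (pn V X ^ E) ^ D := by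
    intro V hV
    rw [hy, hc.cnt.form V hV, map_pow, hcX V hV]
  have hvfX : ∀ V : ValuationSubring F, Anis V D Cp →
      V.valuation fX = V.valuation y ^ D / max 1 (V.valuation y) ^ D := by
    intro V hV
    rw [hfX, map_div₀, map_pow, hV y]
  refine ⟨fX ^ M / cont G, ?_, ?_⟩
  · intro V hV
    have hA := anZ V hV
    obtain ⟨hf1, hf2⟩ := hX.2.2 V hV
    obtain ⟨-, hflt, hf0⟩ := hZa V hV
    have hX0 : 0 < pn V X := lt_of_lt_of_le (pow_pos hf0 _) hf1
    have h1 : max (V.valuation f ^ E) (pn V X ^ E) = V.valuation f ^ E :=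
      max_eq_left (pow_le_pow_left₀ zero_le' hf2 E)
    have h2 : V.valuation y = V.valuation f ^ (E * D) := by rw [hvy V hA, h1, ← pow_mul]
    have h3 : V.valuation y ≤ 1 := by rw [h2]; exact pow_le_one₀ zero_le' hflt.le
    have h4 : V.valuation fX = V.valuation f ^ (E * D * D) := by
      rw [hvfX V hA, max_eq_left h3, one_pow, div_one, h2, ← pow_mul]
    have h5 : V.valuation fX ≤ V.valuation f := by
      rw [h4]
      calc V.valuation f ^ (E * D * D) ≤ V.valuation f ^ 1 :=
            pow_le_pow_right_of_le_one' hflt.le (Nat.mul_pos (Nat.mul_pos hE hD) hD)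
        _ = V.valuation f := pow_one _
    rw [map_div₀, map_pow, hcG V hA, hGZ V hV]
    rw [div_le_iff₀ (pow_pos hX0 _)]
    calc V.valuation fX ^ M ≤ V.valuation f ^ M := pow_le_pow_left₀ zero_le' h5 M
      _ = V.valuation f ^ (mm + 1) * (V.valuation f ^ mm) ^ E := by rw [← pow_mul, ← pow_add, hM]
      _ ≤ V.valuation f ^ (mm + 1) * pn V X ^ E := by
          gcongr
  · intro V hV hVZ
    have hA := anB V hV
    obtain ⟨n0, nc, nat, nadd, nneg, nlt, nC, nCC, nV, nM, nmon⟩ := hPn F V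
    have hf1 : V.valuation f ≤ 1 := hc.fle V (hXX _ hm hdg V hV)
    have hcase : ¬ (V.valuation f < 1 ∧ pn V X < 1) := by
      rintro ⟨h1, h2⟩
      apply hVZ
      have hPKm : (tw (Q ^ K) P).Monic := by
        rw [hQl, ← pow_mul]
        exact (tdeg _ _).2.2 hc.mon
      have hPKd : (tw (Q ^ K) P).natDegree = r := by
        rw [hQl, ← pow_mul, (tdeg _ _).1, hc.deg]
      have h3 : V ∈ Bd Z (QQ l e n) (tw (Q ^ K) P) := by
        refine gnr_bd hPn hTw hInr F l e n hl hch hperf Z V (PX l e n K P X) (tw (Q ^ K) P) hm (by omega) hPKm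
          (by rw [hPKd, hdg]) ?_ hV
        have : tw (Q ^ K) P - PX l e n K P X = -X := by
          have h4 : PX l e n K P X = tw (Q ^ K) P + X := rfl
          rw [h4]
          ring
        rw [this, nneg]
        exact h2
      have h5 : V ∈ Bd Z (QQ l e n) P := by
        have h6 := hBt P (e * n.factorial * K) hc.mon hc.deg
        have h7 : Q ^ K = l ^ (e * n.factorial * K) := by rw [hQl, ← pow_mul]
        rw [h7, h6] at h3
        exact h3
      exact (hc.fB V h5).1 h1
    have h1 : 1 ≤ max (V.valuation f ^ E) (pn V X ^ E) := by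
      by_contra h2
      rw [not_le, max_lt_iff] at h2
      refine hcase ⟨?_, ?_⟩
      · exact lt_of_not_ge fun h3 => absurd h2.1 (not_lt.2 (one_le_pow₀ h3))
      · exact lt_of_not_ge fun h3 => absurd h2.2 (not_lt.2 (one_le_pow₀ h3))
    have h2 : 1 ≤ V.valuation y := by
      rw [hvy V hA]
      exact one_le_pow₀ h1
    have hy0 : V.valuation y ≠ 0 := fun h => by rw [h] at h2; exact absurd h2 (not_le.2 zero_lt_one)
    have h3 : V.valuation fX = 1 := by
      rw [hvfX V hA, max_eq_right h2, div_self (pow_ne_zero _ hy0)]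
    have h4 : pn V G < 1 := (nM G).2 hV.2.2
    have h5 : V.valuation (cont G) < 1 := by
      rw [hcG V hA]
      exact pow_lt_one₀ zero_le' h4 (by omega)
    rw [map_div₀, map_pow, h3, one_pow, one_lt_div₀ (zero_lt_iff.2 ((Valuation.ne_zero_iff _).2 hcG0))]
    exact h5

end CL
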