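import Pool.Agent.Lib.MP_defcf3_al.CL.Cut

/-!
Part (B): the relation PSim.
-/

open Polynomial

namespace CL

universe u

section SimL

variable {F : Type u} [Field F] {V : ValuationSubring F}

theorem sim_ne {A B : F[X]} (h : PSim V A B) : A ≠ 0 ∧ B ≠ 0 := by
  obtain ⟨a, ha, hab⟩ := h
  constructor
  · rintro rfl
    rw [zero_sub, H88.pn_neg] at hab
    exact lt_irrefl _ hab
  · rintro rfl
    rw [mul_zero, sub_zero, H88.pn_zero] at hab
    exact not_lt_zero hab

theorem sim_norm {A B : F[X]} {a : F} (h : pn V (A - C a * B) < pn V (C a * B)) : pn V A = pn V (C a * B) := by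
  have := H88.pn_add_eq V h
  rwa [add_sub_cancel] at this

theorem sim_symm {A B : F[X]} (h : PSim V A B) : PSim V B A := by
  obtain ⟨a, ha, hab⟩ := h
  refine ⟨a⁻¹, inv_ne_zero ha, ?_⟩
  have h1 : B - C a⁻¹ * A = C (-a⁻¹) * (A - C a * B) := by
    have : (C a⁻¹ : F[X]) * C a = 1 := by rw [← C_mul, inv_mul_cancel₀ ha, C_1]
    rw [C_neg]
    linear_combination (-B) * this
  rw [h1, H88.pn_C_mul, H88.pn_C_mul, Valuation.map_neg, sim_norm hab]
  exact (mul_lt_mul_iff_right₀ (zero_lt_iff.2 ((Valuation.ne_zero_iff _).2 (inv_ne_zero ha)))).2 hab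

theorem sim_trans {A B D : F[X]} (h : PSim V A B) (h' : PSim V B D) : PSim V A D := by
  obtain ⟨a, ha, hab⟩ := h
  obtain ⟨c, hc, hcd⟩ := h'
  refine ⟨a * c, mul_ne_zero ha hc, ?_⟩
  have h1 : A - C (a * c) * D = (A - C a * B) + C a * (B - C c * D) := by
    rw [C_mul]; ring
  have h0 : (0 : V.ValueGroup) < V.valuation a := zero_lt_iff.2 ((Valuation.ne_zero_iff _).2 ha)
  have h2 : pn V (C (a * c) * D) = V.valuation a * pn V (C c * D) := by
    rw [C_mul, mul_assoc, H88.pn_C_mul]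
  rw [h1, h2]
  refine lt_of_le_of_lt (H88.pn_add_le V _ _) (max_lt ?_ ?_)
  · rwa [← sim_norm hcd, ← H88.pn_C_mul]
  · rw [H88.pn_C_mul]
    exact (mul_lt_mul_iff_right₀ h0).2 hcd

theorem sim_of_lt {A B : F[X]} (h : pn V (A - B) < pn V B) : PSim V A B := by
  refine ⟨1, one_ne_zero, ?_⟩
  rwa [C_1, one_mul]

theorem sim_mod_sub {P A B : F[X]} : (A - B) %ₘ P = A %ₘ P - B %ₘ P := sub_modByMonic A B P

theorem sim_mod_smul {P A : F[X]} (c : F) : (C c * A) %ₘ P = C c * (A %ₘ P) := by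
  rw [← smul_eq_C_mul, ← smul_eq_C_mul, smul_modByMonic]

end SimL

theorem sim_proof (hInr : InrStatement.{u}) : SimStatement.{u} := by
  intro F _ V
  refine ⟨?_, fun A B h => ⟨(sim_ne h).1, (sim_ne h).2, sim_symm h⟩, fun A B D h h' => sim_trans h h',
    fun A B h => sim_of_lt h, ?_, ?_, ?_, ?_, ?_⟩
  · intro A hA
    refine sim_of_lt ?_
    rw [sub_self, H88.pn_zero]
    exact zero_lt_iff.2 (H88.pn_ne_zero V hA)
  · intro A c hc hA
    refine ⟨c, hc, ?_⟩
    rw [sub_self, H88.pn_zero]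
    exact zero_lt_iff.2 (H88.pn_ne_zero V (mul_ne_zero (C_ne_zero.2 hc) hA))
  · intro P A A' B B' hP hP1 hI dA dA' dB dB' h h'
    obtain ⟨i1, -, -⟩ := hInr F V P hP hP1 hI
    have hA' := (sim_ne h).2
    have hB' := (sim_ne h').2
    obtain ⟨a, ha, hab⟩ := h
    obtain ⟨b, hb, hbb⟩ := h'
    refine ⟨a * b, mul_ne_zero ha hb, ?_⟩
    have d1 : (C a * A').natDegree < P.natDegree := lt_of_le_of_lt (natDegree_C_mul_le _ _) dA'
    have d2 : (C b * B').natDegree < P.natDegree := lt_of_le_of_lt (natDegree_C_mul_le _ _) dB'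
    have d3 : (A - C a * A').natDegree < P.natDegree := lt_of_le_of_lt (natDegree_sub_le _ _) (max_lt dA d1)
    have d4 : (B - C b * B').natDegree < P.natDegree := lt_of_le_of_lt (natDegree_sub_le _ _) (max_lt dB d2)
    have h1 : (A * B) %ₘ P - C (a * b) * ((A' * B') %ₘ P) =
        ((A - C a * A') * B) %ₘ P + ((C a * A') * (B - C b * B')) %ₘ P := by
      rw [← sim_mod_smul, ← sim_mod_sub, ← add_modByMonic, C_mul]
      congr 1
      ring
    have h2 : C (a * b) * ((A' * B') %ₘ P) = ((C a * A') * (C b * B')) %ₘ P := by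
      rw [← sim_mod_smul, C_mul]
      congr 1
      ring
    have n1 := sim_norm hab
    have n2 := sim_norm hbb
    have z1 : 0 < pn V (C a * A') := zero_lt_iff.2 (H88.pn_ne_zero V (mul_ne_zero (C_ne_zero.2 ha) hA'))
    have z2 : 0 < pn V (C b * B') := zero_lt_iff.2 (H88.pn_ne_zero V (mul_ne_zero (C_ne_zero.2 hb) hB'))
    rw [h1, h2, i1 _ _ d1 d2]
    refine lt_of_le_of_lt (H88.pn_add_le V _ _) (max_lt ?_ ?_)
    · rw [i1 _ _ d3 dB, n2]
      exact (mul_lt_mul_iff_left₀ z2).2 hab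
    · rw [i1 _ _ d1 d4]
      exact (mul_lt_mul_iff_right₀ z1).2 hbb
  · intro P A B D hP hP1 hI dA dB dD hD h
    obtain ⟨i1, -, -⟩ := hInr F V P hP hP1 hI
    obtain ⟨a, ha, hab⟩ := h
    refine ⟨a, ha, ?_⟩
    have d1 : (C a * B).natDegree < P.natDegree := lt_of_le_of_lt (natDegree_C_mul_le _ _) dB
    have d3 : (A - C a * B).natDegree < P.natDegree := lt_of_le_of_lt (natDegree_sub_le _ _) (max_lt dA d1)
    have h1 : (A * D) %ₘ P - C a * ((B * D) %ₘ P) = ((A - C a * B) * D) %ₘ P := by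
      rw [← sim_mod_smul, ← sim_mod_sub]
      congr 1
      ring
    have h2 : C a * ((B * D) %ₘ P) = ((C a * B) * D) %ₘ P := by
      rw [← sim_mod_smul]
      congr 1
      ring
    rw [h1, h2, i1 _ _ d3 dD, i1 _ _ d1 dD] at hab
    exact (mul_lt_mul_iff_left₀ (zero_lt_iff.2 (H88.pn_ne_zero V hD))).1 hab
  · intro P P' A B hP hP1 hI hP' hPP hc hA hB dA dB
    obtain ⟨i1, i2, -⟩ := hInr F V P hP hP1 hI
    refine sim_of_lt ?_
    rw [H88.pn_sub_comm, i1 _ _ dA dB]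
    exact (i2 P' hP' hPP hc).2 A B dA dB hA hB
  · intro l j A B hl hch h
    obtain ⟨a, ha, hab⟩ := h
    refine ⟨a ^ l ^ j, pow_ne_zero _ ha, ?_⟩
    have h1 : C (a ^ l ^ j) * tw (l ^ j) B = tw (l ^ j) (C a * B) := by
      rw [H88.tw_mul l hl hch]
      congr 1
      ext i
      have : Fact l.Prime := ⟨hl⟩
      have := hch
      rw [Tws.tw_map, coeff_map, coeff_C, coeff_C]
      split_ifs
      · rfl
      · rw [map_zero]
    rw [h1, ← H88.tw_sub l hl hch, H88.pn_tw V _ (H88.pow_ne l hl j), H88.pn_tw V _ (H88.pow_ne l hl j)]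
    exact pow_lt_pow_left₀ hab zero_le (H88.pow_ne l hl j)

end CL
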