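import Pool.Agent.Lib.MP_defcf3_al.CL.IfaceB
import Pool.Agent.Lib.MP_defcf3_al.CL.Twist
import Pool.Agent.Lib.MP_defcf3_al.CL.Residue

/-!
Project CL (MP_defcf3_al), part (B), module Twp: the coefficientwise Frobenius.
-/

open Polynomial

namespace CL

universe u

namespace H65W

section

variable {F : Type u} [Field F]

theorem pn_map_mono {V : ValuationSubring F} {A B : F[X]} {q : ℕ} (hq : q ≠ 0)
    (h : ∀ i, B.coeff i = A.coeff i ^ q) : pn V B = pn V A ^ q := by
  classical
  have hs : B.support = A.support := by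
    ext i
    rw [mem_support_iff, mem_support_iff, h, pow_ne_zero_iff hq]
  unfold pn
  rw [hs]
  have e := Finset.apply_sup_eq_sup_comp_of_linearOrder (s := A.support)
    (f := fun i => V.valuation (A.coeff i)) (fun x : V.ValueGroup => x ^ q)
    (fun a b hab => pow_le_pow_left' hab q) (zero_pow hq)
  refine Eq.trans ?_ e.symm
  refine Finset.sup_congr rfl fun i _ => ?_
  rw [h, map_pow]
  rfl

variable {V : ValuationSubring F}

/-- the reduction of the Frobenius twist is irreducible iff the reduction is -/
theorem irr_iff {l : ℕ} (hl : l.Prime) (hc : CharP F l) (hp : ∀ x : F, ∃ y : F, y ^ l = x) (j : ℕ)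
    (P Q : Polynomial V) (h : ∀ i, (Q.coeff i : F) = (P.coeff i : F) ^ l ^ j) :
    Irreducible (Q.map (IsLocalRing.residue V)) ↔ Irreducible (P.map (IsLocalRing.residue V)) := by
  have hfl : Fact l.Prime := ⟨hl⟩
  have h0 : ((l : ℕ) : IsLocalRing.ResidueField V) = 0 := by
    have h1 : ((l : ℕ) : V) = 0 := by
      apply Subtype.ext
      have h2 : ((l : ℕ) : F) = 0 := CharP.cast_eq_zero F l
      simpa using h2
    have h2 := congrArg (IsLocalRing.residue V) h1
    rwa [map_natCast, map_zero] at h2
  have hc' : CharP (IsLocalRing.ResidueField V) l := (CharP.charP_iff_prime_eq_zero hl).2 h0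
  have : ExpChar (IsLocalRing.ResidueField V) l := ExpChar.prime hl
  have hpf : PerfectField (IsLocalRing.ResidueField V) := Resid.perfect l hl hc hp
  have hpr : PerfectRing (IsLocalRing.ResidueField V) l := PerfectField.toPerfectRing l
  let φ : IsLocalRing.ResidueField V ≃+* IsLocalRing.ResidueField V :=
    iterateFrobeniusEquiv (IsLocalRing.ResidueField V) l j
  have e : Q.map (IsLocalRing.residue V) = Polynomial.mapEquiv φ (P.map (IsLocalRing.residue V)) := by
    ext i
    rw [Polynomial.mapEquiv_apply, coeff_map, coeff_map, coeff_map]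
    change _ = φ (IsLocalRing.residue V (P.coeff i))
    have e1 : φ (IsLocalRing.residue V (P.coeff i)) = (IsLocalRing.residue V (P.coeff i)) ^ l ^ j :=
      iterateFrobeniusEquiv_def _ _ _ _
    rw [e1, ← map_pow]
    congr 1
    exact Subtype.ext (h i)
  rw [e, MulEquiv.irreducible_iff]

end

end H65W

open H65W in
theorem twp_proof : TwpStatement.{u} := by
  intro F _ l hl hc hp
  have hfl : Fact l.Prime := ⟨hl⟩
  have hq : ∀ j, l ^ j ≠ 0 := fun j => pow_ne_zero _ hl.ne_zero
  have hcoeff : ∀ (j : ℕ) (A : F[X]) (i : ℕ), (tw (l ^ j) A).coeff i = A.coeff i ^ l ^ j :=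
    fun j A i => Tws.tw_coeff A _ (hq j) i
  have hmap : ∀ (j : ℕ) (A : F[X]), tw (l ^ j) A = A.map (iterateFrobenius F l j) :=
    fun j A => Tws.tw_map l j A
  refine ⟨?_, hcoeff, ?_, ?_, ?_, ?_, ?_⟩
  · intro j A B
    simp only [hmap]
    exact ⟨Polynomial.map_add _, Polynomial.map_sub _, Polynomial.map_mul _⟩
  · intro j A
    simp only [hmap]
    refine ⟨natDegree_map _, ?_, fun h => h.map _⟩
    exact Polynomial.map_eq_zero_iff (iterateFrobenius F l j).injective
  · intro j k A
    ext i
    rw [hcoeff, hcoeff, hcoeff, ← pow_mul, ← pow_add, add_comm]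
  · intro j V A
    exact pn_map_mono (hq j) (hcoeff j A)
  · intro j A B P hP
    simp only [hmap]
    rw [map_modByMonic _ hP, Polynomial.map_mul]
  · intro j V P hP
    constructor
    · rintro ⟨Q, hQ, hQi⟩
      have hPV : CoV V P := by
        intro i
        have h1 : P.coeff i ^ l ^ j ∈ V := by
          rw [← hcoeff, ← hQ, coeff_map]
          exact (Q.coeff i).2
        rw [← V.valuation_le_one_iff] at h1 ⊢
        rw [map_pow] at h1
        by_contra hcon
        exact absurd h1 (not_le.2 (one_lt_pow₀ (not_le.1 hcon) (hq j)))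
      obtain ⟨P', hP', -⟩ := Resid.exists_lift hPV hP
      refine ⟨P', hP', ?_⟩
      rw [← irr_iff hl hc hp j P' Q ?_]
      · exact hQi
      · intro i
        have h1 := congrArg (fun A => A.coeff i) hQ
        have h2 := congrArg (fun A => A.coeff i) hP'
        simp only [coeff_map] at h1 h2
        have h3 : ((P'.coeff i : V) : F) = P.coeff i := h2
        have h4 : ((Q.coeff i : V) : F) = (tw (l ^ j) P).coeff i := h1
        rw [h4, hcoeff, h3]
    · rintro ⟨P', hP', hPi⟩
      have hQV : CoV V (tw (l ^ j) P) := by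
        intro i
        rw [hcoeff, ← hP', coeff_map]
        exact pow_mem (P'.coeff i).2 _
      have hQm : (tw (l ^ j) P).Monic := by
        rw [hmap]
        exact hP.map _
      obtain ⟨Q, hQ, -⟩ := Resid.exists_lift hQV hQm
      refine ⟨Q, hQ, ?_⟩
      rw [irr_iff hl hc hp j P' Q ?_]
      · exact hPi
      · intro i
        have h1 := congrArg (fun A => A.coeff i) hQ
        have h2 := congrArg (fun A => A.coeff i) hP'
        simp only [coeff_map] at h1 h2
        have h3 : ((P'.coeff i : V) : F) = P.coeff i := h2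
        have h4 : ((Q.coeff i : V) : F) = (tw (l ^ j) P).coeff i := h1
        rw [h4, hcoeff, h3]

end CL
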