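import Pool.Agent.Lib.MP_defcf3_al.CL.H82.TypeCore

/-!
Part (B): TypeStatement.
-/

open Polynomial

namespace CL

universe u

theorem type_core (hPn : PnStatement.{u}) (hTwp : TwpStatement.{u}) (hSim : SimStatement.{u})
    (hLoc : LocStatement.{u}) (hE3 : E3Statement.{u}) (hE6 : E6Statement.{u}) (hNk : NkStatement.{u})
    (hFam : FamStatement.{u}) (hRep : RepStatement.{u}) (hAlg : AlgStatement.{u})
    (F : Type u) [Field F] (l p e n r : ℕ) (Z : Set (ValuationSubring F)) (P : F[X]) (a : ℕ)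
    (f : F) (D : ℕ) (Cp : F[X]) (E : ℕ) (cont : F[X] → F) (H : F → F → F) (K mm : ℕ) (T : Type u) [AddCommGroup T]
    (h Ef : F[X] → F[X] → T) (hSn : SnStatement.{u} r) (hC : Ctx F l p e n r Z P a f D Cp E cont H K mm)
    (hHF : HF F l p e n r Z h) (hE : EP F l e n r Z P a f K mm h Ef)
    (hmm : 2 * D + 31 + (l ^ e) ^ a + 2 ≤ mm) (X0 : F[X]) (hX0 : PA Z l e n a r P f (mm - 2) X0)
    (A : F[X]) (hA : A ≠ 0) (hd : A.natDegree < r) : Ef A X0 = 0 := by
  have hPm := hC.mon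
  have hPd := hC.deg
  have hr2 := hC.num.r2
  have hrn := hC.num.rn
  have hnp := hC.num.np
  haveI : Fact (Irreducible P) := ⟨hC.irr⟩
  obtain ⟨⟨rp, s1, s2, s3, s4, s5, s6, s7⟩, rT, rA, rM, rTop, rI⟩ := hRep F P hPm (by rw [hPd]; exact hr2)
  have hR : RepD F P rp := ⟨fun x => (s1 x).1, fun x => (s1 x).2, s2, s3, s4, s5, s6, s7⟩
  have hP1 : 1 ≤ P.natDegree := by omega
  haveI hFD : FiniteDimensional F (AdjoinRoot P) := (AdjoinRoot.powerBasis hPm.ne_zero).finite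
  obtain ⟨v, c0, hF, hv⟩ := hFam F P D Cp (Za Z l e n a P) f hPm (by rw [hPd]; exact hr2) hC.f0
    (fun V hV => ⟨hC.inert hV, hC.anis hV.1, hC.ani.coV V, hC.f_lt hV⟩) hC.ani.Dpos hC.ani.mon hC.ani.deg hC.ani.zero
  haveI hNe : Nonempty (Za Z l e n a P) := hC.ne.to_subtype
  -- values
  have hvC : ∀ (V : Za Z l e n a P) (c : F), v V (algebraMap F (AdjoinRoot P) c) = V.1.valuation c := by
    intro V c
    have h1 := hv V (C c) (by rw [natDegree_C]; exact hP1)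
    rw [(hPn F V.1).2.2.2.2.2.2.2.1 c] at h1
    rw [← h1]
    rfl
  have hvr : ∀ (V : Za Z l e n a P) (x : AdjoinRoot P), v V x = pn V.1 (rp x) := by
    intro V x
    have h1 := hv V (rp x) (hR.deg x)
    rwa [hR.mkr] at h1
  have hIn : ∀ (m : ℕ) (X : AdjoinRoot P), InA F v f m X ↔ PA Z l e n a r P f m (rp X) := by
    intro m X
    constructor
    · rintro ⟨h1, h2⟩
      refine ⟨hR.rp_ne h1, by rw [← hPd]; exact hR.deg X, fun V hV => ?_⟩
      have h3 := h2 ⟨V, hV⟩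
      rwa [hvC, hvr] at h3
    · rintro ⟨h1, h2, h3⟩
      refine ⟨fun h0 => h1 ((hR.zero X).2 h0), fun V => ?_⟩
      have h4 := h3 V.1 V.2
      rwa [hvC, hvr]
  have hTr : ∀ (V : Za Z l e n a P) (x : AdjoinRoot P), Triv F (v V) x ↔ PSim V.1 (rp x) 1 := by
    intro V x
    have h1 := rT V.1 (v V) (fun A hA => hv V A hA) (rp x) (hR.deg x)
    rwa [hR.mkr] at h1
  obtain ⟨h56, h57⟩ := hLoc F l p e n r Z P a f D Cp E cont H K mm T h Ef hC hHF hE
  have h3 := hE3 F l p e n r Z P a f D Cp E cont H K mm T h Ef hC hHF hE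
  -- the module structure
  haveI : Fact p.Prime := ⟨hC.num.ppr⟩
  letI : Module (ZMod p) T := AddCommGroup.zmodModule hHF.tors
  have hrk : ((P.natDegree : ℕ) : ZMod p) ≠ 0 := by
    rw [Ne, ZMod.natCast_eq_zero_iff]
    intro hdv
    have := Nat.le_of_dvd (by omega) hdv
    omega
  have h2k : (2 : ZMod p) ≠ 0 := by
    have : ((2 : ℕ) : ZMod p) ≠ 0 := by
      rw [Ne, ZMod.natCast_eq_zero_iff]
      intro hdv
      have := Nat.le_of_dvd (by omega) hdv
      omega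
    exact_mod_cast this
  have hEF : EFun F v f (mm - 1) (fun x X => Ef (rp x) (rp X)) := by
    refine ⟨?_, ?_, ?_⟩
    · intro x y X hx hy hX
      have hX' := ((hIn _ _).1 hX).mono hC (show mm - 1 ≤ mm by omega)
      show Ef (rp (x * y)) (rp X) = _
      rw [hR.mul]
      exact hE.mul _ hX' _ _ (hR.rp_ne hx) (by rw [← hPd]; exact hR.deg x) (hR.rp_ne hy)
        (by rw [← hPd]; exact hR.deg y)
    · intro x X hx hX ht
      have hX' := ((hIn _ _).1 hX).mono hC (show mm - 1 ≤ mm by omega)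
      have h1 : Ef (rp x) (rp X) = Ef 1 (rp X) :=
        hE.cls _ hX' _ _ (hR.rp_ne hx) (by rw [← hPd]; exact hR.deg x) one_ne_zero
          (by rw [natDegree_one]; omega) fun V hV => (hTr ⟨V, hV⟩ x).1 (ht ⟨V, hV⟩)
      have h2 : Ef 1 (rp X) = 0 := by
        have h4 := hE.mul _ hX' 1 1 one_ne_zero (by rw [natDegree_one]; omega) one_ne_zero
          (by rw [natDegree_one]; omega)
        rw [one_mul_mod hPm hP1 (one_ne_deg hP1)] at h4
        simpa using h4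
      exact h1.trans h2
    · intro X Y hX hY hne hXY
      have hX' := (hIn _ _).1 hX
      have hY' := (hIn _ _).1 hY
      have h1 := h57 (rp X) (rp Y) hX' hY' (fun h0 => hne (by rw [← hR.mkr X, ← hR.mkr Y, h0])) fun V hV => by
        have h2 := hXY ⟨V, hV⟩
        rwa [hvC, hvr, hR.sub] at h2
      show Ef (rp (X - Y)) (rp X) - Ef (rp (X - Y)) (rp Y) = _
      rw [hR.sub]
      exact h1
  obtain ⟨g, S, hg, hgt, hS, hES, hSt⟩ := hAlg F (AdjoinRoot P) (Za Z l e n a P) (fun V => V.1.ValueGroup) v c0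
    P.natDegree (AdjoinRoot.root P) f D Cp (ZMod p) T (mm - 1) (fun x X => Ef (rp x) (rp X)) hF hrk h2k (by omega) hEF
  have hmm2 : mm - 1 - 1 = mm - 2 := by omega
  rw [hmm2] at hES
  -- abbreviations
  obtain ⟨t1, t2, t3, t4, t5, t6, t7⟩ := hTwp F l hC.num.lpr hC.num.chr hC.num.perf
  have hqq : (l ^ e) ^ a = l ^ (e * a) := (pow_mul l e a).symm
  have hInert : ∀ V ∈ Za Z l e n a P, Inert V P := fun V hV => hC.inert hV
  have hCoM : ∀ V ∈ Za Z l e n a P, CoM V (tw (l ^ (e * a)) P - P) := by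
    intro V hV
    rw [← hqq]
    exact hV.2.1
  have hdd : ∀ {A : F[X]}, A.natDegree < r → A.natDegree < P.natDegree := by
    intro A hA
    rw [hPd]; exact hA
  have hdd' : ∀ {A : F[X]}, A.natDegree < P.natDegree → A.natDegree < r := by
    intro A hA
    rw [← hPd]; exact hA
  have hrtw : ∀ {A : F[X]}, A ≠ 0 → A.natDegree < P.natDegree → tw (l ^ (e * a)) A ≠ 0 ∧
      (tw (l ^ (e * a)) A).natDegree < P.natDegree := by
    intro A hA hd
    refine ⟨fun h0 => hA ((t3 (e * a) A).2.1.1 h0), ?_⟩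
    rw [(t3 (e * a) A).1]
    exact hd
  have htwS : ∀ {A B : F[X]}, A ≠ 0 → A.natDegree < P.natDegree → B ≠ 0 → B.natDegree < P.natDegree →
      ∀ V ∈ Za Z l e n a P, PSim V (tw (l ^ (e * a)) ((A * B) %ₘ P))
        ((tw (l ^ (e * a)) A * tw (l ^ (e * a)) B) %ₘ P) := by
    intro A B hA hdA hB hdB V hV
    rw [t6 (e * a) A B P hPm]
    obtain ⟨-, -, -, -, -, -, -, s8, -⟩ := hSim F V
    exact s8 P (tw (l ^ (e * a)) P) _ _ hPm hP1 (hInert V hV) ((t3 (e * a) P).2.2 hPm) (t3 (e * a) P).1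
      (hCoM V hV) (hrtw hA hdA).1 (hrtw hB hdB).1 (hrtw hA hdA).2 (hrtw hB hdB).2
  have hscal : ∀ (V : Za Z l e n a P) (c : F), c ≠ 0 → Triv F (v V) (algebraMap F (AdjoinRoot P) c) := by
    intro V c hc
    refine ⟨c, hc, ?_⟩
    rw [sub_self, map_zero, hvC]
    exact zero_lt_iff.2 ((Valuation.ne_zero_iff _).2 hc)
  have hNorm : ∀ A : F[X], A ≠ 0 → A.natDegree < P.natDegree → ∃ c : F, c ≠ 0 ∧ ∀ V ∈ Za Z l e n a P,
      pn V (C c * ((A ^ P.natDegree) %ₘ P)) = 1 := by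
    intro A hA hd
    have hx := hR.mk_ne hA hd
    refine ⟨(Algebra.norm F (AdjoinRoot.mk P A))⁻¹, inv_ne_zero (Algebra.norm_ne_zero_iff.2 hx), fun V hV => ?_⟩
    rw [(hPn F V).2.2.2.2.2.2.1, ← hv ⟨V, hV⟩ _ (hR.pow_ne hPm hP1 hA hd _).2, hR.mk_mod hPm, map_pow, map_pow,
      ← hF.vnm ⟨V, hV⟩, hvC, map_inv₀]
    exact inv_mul_cancel₀ ((Valuation.ne_zero_iff _).2 (Algebra.norm_ne_zero_iff.2 hx))
  -- characters
  have hmkm : ∀ A B : F[X], AdjoinRoot.mk P ((A * B) %ₘ P) = AdjoinRoot.mk P A * AdjoinRoot.mk P B := by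
    intro A B
    rw [hR.mk_mod hPm, map_mul]
  have hgC : Chr P (Za Z l e n a P) (fun A => g (AdjoinRoot.mk P A)) := by
    refine ⟨?_, ?_⟩
    · intro A B hA hdA hB hdB
      show g (AdjoinRoot.mk P ((A * B) %ₘ P)) = _
      rw [hmkm]
      exact hg _ _ (hR.mk_ne hA hdA) (hR.mk_ne hB hdB)
    · intro A hA hdA ht
      exact hgt _ (hR.mk_ne hA hdA) fun V => (hTr V _).2 (by rw [hR.rpm A hdA]; exact ht V.1 V.2)
  have hSl : ∀ y : AdjoinRoot P, y ≠ 0 → Chr P (Za Z l e n a P) (fun A => S (AdjoinRoot.mk P A) y) := by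
    intro y hy
    refine ⟨?_, ?_⟩
    · intro A B hA hdA hB hdB
      show S (AdjoinRoot.mk P ((A * B) %ₘ P)) y = _
      rw [hmkm]
      exact hS.mull _ _ _ (hR.mk_ne hA hdA) (hR.mk_ne hB hdB) hy
    · intro A hA hdA ht
      exact hS.trivl _ _ (hR.mk_ne hA hdA) hy fun V => (hTr V _).2 (by rw [hR.rpm A hdA]; exact ht V.1 V.2)
  have hSr : ∀ x : AdjoinRoot P, x ≠ 0 → Chr P (Za Z l e n a P) (fun A => S x (AdjoinRoot.mk P A)) := by
    intro x hx
    refine ⟨?_, ?_⟩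
    · intro A B hA hdA hB hdB
      show S x (AdjoinRoot.mk P ((A * B) %ₘ P)) = _
      rw [hmkm]
      exact hS.mulr _ _ _ hx (hR.mk_ne hA hdA) (hR.mk_ne hB hdB)
    · intro A hA hdA ht
      exact hS.trivr _ _ hx (hR.mk_ne hA hdA) fun V => (hTr V _).2 (by rw [hR.rpm A hdA]; exact ht V.1 V.2)
  -- composition of a character with the twist
  have htwC : ∀ G : F[X] → T, Chr P (Za Z l e n a P) G → ∀ A B : F[X], A ≠ 0 → A.natDegree < P.natDegree → B ≠ 0 →
      B.natDegree < P.natDegree → G (tw (l ^ (e * a)) ((A * B) %ₘ P)) =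
      G (tw (l ^ (e * a)) A) + G (tw (l ^ (e * a)) B) := by
    intro G hG A B hA hdA hB hdB
    obtain ⟨h1, h2⟩ := hR.mul_ne hPm hP1 hA hdA hB hdB
    obtain ⟨h3, h4⟩ := hR.mul_ne hPm hP1 (hrtw hA hdA).1 (hrtw hA hdA).2 (hrtw hB hdB).1 (hrtw hB hdB).2
    rw [hG.congr hSim hR hPm hP1 hInert (hrtw h1 h2).1 (hrtw h1 h2).2 h3 h4 (htwS hA hdA hB hdB)]
    exact hG.mul _ _ (hrtw hA hdA).1 (hrtw hA hdA).2 (hrtw hB hdB).1 (hrtw hB hdB).2
  have htwc : ∀ c : F, tw (l ^ (e * a)) (C c) = C (c ^ l ^ (e * a)) := by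
    intro c
    ext i
    rw [t2, coeff_C, coeff_C]
    split_ifs with hi
    · rfl
    · exact zero_pow (pow_ne_zero _ hC.num.lpr.ne_zero)
  have hCtr : ∀ (V : ValuationSubring F) (c : F), c ≠ 0 → PSim V (C c) 1 := by
    intro V c hc
    refine ⟨c, hc, ?_⟩
    rw [mul_one, sub_self, (hPn F V).2.2.2.2.2.2.2.1, ((hPn F V).1 0).2 rfl]
    exact zero_lt_iff.2 ((Valuation.ne_zero_iff _).2 hc)
  have hCne : ∀ {c : F}, c ≠ 0 → (C c : F[X]) ≠ 0 := by
    intro c hc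
    simpa using hc
  have hCd : ∀ c : F, (C c : F[X]).natDegree < P.natDegree := by
    intro c
    rw [natDegree_C]; exact hP1
  have hGc : ∀ G : F[X] → T, Chr P (Za Z l e n a P) G → ∀ c : F, c ≠ 0 → G (C c) = 0 := fun G hG c hc =>
    hG.triv _ (hCne hc) (hCd c) fun V _ => hCtr V c hc
  have hGc' : ∀ G : F[X] → T, Chr P (Za Z l e n a P) G → ∀ c : F, c ≠ 0 → G (tw (l ^ (e * a)) (C c)) = 0 := by
    intro G hG c hc
    rw [htwc]
    exact hGc G hG _ (pow_ne_zero _ hc)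
  -- (E3) for units
  have hf0 : f ≠ 0 := hC.f0
  have hunit : ∀ A B : F[X], A ≠ 0 → A.natDegree < P.natDegree → B ≠ 0 → B.natDegree < P.natDegree →
      (∀ V ∈ Za Z l e n a P, pn V B = 1) →
      g (AdjoinRoot.mk P (tw (l ^ (e * a)) A)) + S (AdjoinRoot.mk P (tw (l ^ (e * a)) A))
        (AdjoinRoot.mk P (tw (l ^ (e * a)) B)) =
      (l ^ (e * a)) • (g (AdjoinRoot.mk P A) + S (AdjoinRoot.mk P A) (AdjoinRoot.mk P B)) := by
    intro A B hA hdA hB hdB hBu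
    have hX0 : C f * B ≠ 0 := mul_ne_zero (hCne hf0) hB
    have hXd : (C f * B).natDegree < P.natDegree := lt_of_le_of_lt (natDegree_C_mul_le f B) hdB
    have htwX : tw (l ^ (e * a)) (C f * B) = C (f ^ l ^ (e * a)) * tw (l ^ (e * a)) B := by
      rw [(t1 (e * a) (C f) B).2.2, htwc]
    have hpX : ∀ V ∈ Za Z l e n a P, pn V (C f * B) = V.valuation f := by
      intro V hV
      rw [(hPn F V).2.2.2.2.2.2.1, hBu V hV, mul_one]
    have hmm' : l ^ (e * a) ≤ mm - 2 := by rw [← hqq]; omega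
    have hq1 : 1 ≤ l ^ (e * a) := Nat.one_le_pow _ _ hC.num.lpr.pos
    have hPA : PA Z l e n a r P f 1 (C f * B) := by
      refine ⟨hX0, hdd' hXd, fun V hV => ?_⟩
      rw [hpX V hV, pow_one]
      exact ⟨le_rfl, le_rfl⟩
    have hPA' : PA Z l e n a r P f (l ^ (e * a)) (tw (l ^ (e * a)) (C f * B)) := by
      refine ⟨(hrtw hX0 hXd).1, hdd' (hrtw hX0 hXd).2, fun V hV => ?_⟩
      rw [t5, hpX V hV]
      refine ⟨le_rfl, ?_⟩
      calc V.valuation f ^ l ^ (e * a) ≤ V.valuation f ^ 1 := pow_le_pow_right_of_le_one' (hC.f_lt hV).le hq1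
        _ = V.valuation f := pow_one _
    have h5 := h3 (C f * B) A (hPA.mono hC (show 1 ≤ mm by omega))
      (by rw [hqq]; exact hPA'.mono hC (show l ^ (e * a) ≤ mm - 1 by omega)) hA (hdd' hdA)
    rw [hqq] at h5
    -- translate
    have h6 := hES (AdjoinRoot.mk P A) (AdjoinRoot.mk P (C f * B)) (hR.mk_ne hA hdA)
      ((hIn _ _).2 (by rw [hR.rpm _ hXd]; exact hPA.mono hC (show 1 ≤ mm - 2 by omega)))
    have h7 := hES (AdjoinRoot.mk P (tw (l ^ (e * a)) A)) (AdjoinRoot.mk P (tw (l ^ (e * a)) (C f * B)))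
      (hR.mk_ne (hrtw hA hdA).1 (hrtw hA hdA).2)
      ((hIn _ _).2 (by rw [hR.rpm _ (hrtw hX0 hXd).2]; exact hPA'.mono hC hmm'))
    simp only [hR.rpm _ hdA, hR.rpm _ hXd, hR.rpm _ (hrtw hX0 hXd).2, hR.rpm _ (hrtw hA hdA).2] at h6 h7
    have h8 : S (AdjoinRoot.mk P A) (AdjoinRoot.mk P (C f * B)) = S (AdjoinRoot.mk P A) (AdjoinRoot.mk P B) := by
      have h9 := (hSr (AdjoinRoot.mk P A) (hR.mk_ne hA hdA))
      have h10 := h9.mul (C f) B (hCne hf0) (hCd f) hB hdB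
      rw [sc_mod hPm hP1 f hdB] at h10
      rw [h10]
      have h11 := hGc _ h9 f hf0
      rw [h11, zero_add]
    have h12 : S (AdjoinRoot.mk P (tw (l ^ (e * a)) A)) (AdjoinRoot.mk P (tw (l ^ (e * a)) (C f * B))) =
        S (AdjoinRoot.mk P (tw (l ^ (e * a)) A)) (AdjoinRoot.mk P (tw (l ^ (e * a)) B)) := by
      have h9 := (hSr (AdjoinRoot.mk P (tw (l ^ (e * a)) A)) (hR.mk_ne (hrtw hA hdA).1 (hrtw hA hdA).2))
      have h10 := htwC _ h9 (C f) B (hCne hf0) (hCd f) hB hdB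
      rw [sc_mod hPm hP1 f hdB] at h10
      rw [h10]
      have h11 := hGc' _ h9 f hf0
      rw [h11, zero_add]
    rw [h12] at h7
    rw [h8] at h6
    rw [← h7, h5, h6]
  -- g and the twist, all A
  have hgtw : ∀ A : F[X], A ≠ 0 → A.natDegree < P.natDegree →
      g (AdjoinRoot.mk P (tw (l ^ (e * a)) A)) = (l ^ (e * a)) • g (AdjoinRoot.mk P A) := by
    intro A hA hdA
    have h1 := hunit A 1 hA hdA one_ne_zero (one_ne_deg hP1) (fun V _ => by
      have : (1 : F[X]) = C 1 := (C_1).symm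
      rw [this, (hPn F V).2.2.2.2.2.2.2.1, map_one])
    have h2 : tw (l ^ (e * a)) (1 : F[X]) = 1 := by
      have := htwc 1
      rwa [C_1, one_pow, C_1] at this
    have h3 : ∀ x : AdjoinRoot P, x ≠ 0 → S x (AdjoinRoot.mk P 1) = 0 := by
      intro x hx
      have h4 := hGc _ (hSr x hx) 1 one_ne_zero
      rwa [C_1] at h4
    rw [h2, h3 _ (hR.mk_ne hA hdA), h3 _ (hR.mk_ne (hrtw hA hdA).1 (hrtw hA hdA).2), add_zero, add_zero] at h1
    exact h1
  have hStw1 : ∀ A B : F[X], A ≠ 0 → A.natDegree < P.natDegree → B ≠ 0 → B.natDegree < P.natDegree →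
      (∀ V ∈ Za Z l e n a P, pn V B = 1) →
      S (AdjoinRoot.mk P (tw (l ^ (e * a)) A)) (AdjoinRoot.mk P (tw (l ^ (e * a)) B)) =
      (l ^ (e * a)) • S (AdjoinRoot.mk P A) (AdjoinRoot.mk P B) := by
    intro A B hA hdA hB hdB hBu
    have h1 := hunit A B hA hdA hB hdB hBu
    rw [smul_add, hgtw A hA hdA] at h1
    exact add_left_cancel h1
  have hStw : ∀ A B : F[X], A ≠ 0 → A.natDegree < P.natDegree → B ≠ 0 → B.natDegree < P.natDegree →
      S (AdjoinRoot.mk P (tw (l ^ (e * a)) A)) (AdjoinRoot.mk P (tw (l ^ (e * a)) B)) =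
      (l ^ (e * a)) • S (AdjoinRoot.mk P A) (AdjoinRoot.mk P B) := by
    intro A B hA hdA hB hdB
    have hc1 := hSr (AdjoinRoot.mk P (tw (l ^ (e * a)) A)) (hR.mk_ne (hrtw hA hdA).1 (hrtw hA hdA).2)
    have hc2 := hSr (AdjoinRoot.mk P A) (hR.mk_ne hA hdA)
    have h1 := unit_red (ZZ := Za Z l e n a P) (G := fun B => S (AdjoinRoot.mk P (tw (l ^ (e * a)) A)) (AdjoinRoot.mk P (tw (l ^ (e * a)) B)) -
      (l ^ (e * a)) • S (AdjoinRoot.mk P A) (AdjoinRoot.mk P B)) hR hPm hP1 hC.num.ppr (by omega) hHF.tors ?_ ?_ hNorm ?_ hB hdB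
    · exact sub_eq_zero.1 h1
    · intro B1 B2 hB1 hdB1 hB2 hdB2
      have h2 := htwC _ hc1 B1 B2 hB1 hdB1 hB2 hdB2
      have h3 := hc2.mul B1 B2 hB1 hdB1 hB2 hdB2
      beta_reduce
      rw [h2, h3, smul_add]
      abel
    · intro c hc
      have h2 := hGc' _ hc1 c hc
      have h3 := hGc _ hc2 c hc
      beta_reduce
      rw [h2, h3, smul_zero, sub_zero]
    · intro B hB hdB hBu
      exact sub_eq_zero.2 (hStw1 A B hA hdA hB hdB hBu)
  -- E6
  have h6 := (hE6 F l p e n r Z P a D Cp E cont H hC.num hC.ani hC.cnt hPm hPd hC.apos).1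
  rw [hqq] at h6
  -- S = 0
  have hS0 : ∀ x y : AdjoinRoot P, x ≠ 0 → y ≠ 0 → S x y = 0 := by
    refine hSn F (AdjoinRoot P) l p (e * a) (Za Z l e n a P) (AdjoinRoot.root P) T S ?_
    refine
    { lpr := hC.num.lpr, ppr := hC.num.ppr, two := hC.num.two, lp := hC.num.lp, chr := hC.num.chr,
      perf := hC.num.perf, epos := ?_, np := by omega, l2 := hC.num.l2, top := rTop, int := rI, deg := ?_,
      inert := ?_, fix := ?_, fq := h6, tors := hHF.tors, mull := hS.mull, mulr := hS.mulr, st := hSt, supp := ?_,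
      wt := ?_ }
    · exact Nat.mul_pos hC.num.epos hC.apos
    · rw [nn, rM, hPd]
    · intro V hV
      rw [rM]
      exact hInert V hV
    · intro V hV
      rw [rM]
      exact hCoM V hV
    · intro x A hx hA hdA ht
      rw [rA]
      have ht' : ∀ V : Za Z l e n a P, Triv F (v V) (AdjoinRoot.mk P A) := fun V =>
        (hTr V _).2 (by rw [hR.rpm A (hdd hdA)]; exact ht V.1 V.2)
      exact ⟨hS.trivr _ _ hx (hR.mk_ne hA (hdd hdA)) ht', hS.trivl _ _ (hR.mk_ne hA (hdd hdA)) hx ht'⟩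
    · intro A B hA hB hdA hdB
      rw [rA, rA, rA, rA]
      exact hStw A B hA (hdd hdA) hB (hdd hdB)
  -- g = 0
  have hg0 : ∀ A : F[X], A ≠ 0 → A.natDegree < r → g (AdjoinRoot.mk P A) = 0 := by
    refine hNk F l p r (e * a) (Za Z l e n a P) P T (fun A => g (AdjoinRoot.mk P A)) hC.num.lpr hC.num.ppr hC.num.lp
      hC.num.chr hC.num.perf hr2 (by omega) hHF.tors hPm hPd hC.irr (Nat.mul_pos hC.num.epos hC.apos) ?_ ?_ ?_ ?_
    · intro V hV
      exact ⟨hInert V hV, hCoM V hV, h6 V fun j hj => hj V hV⟩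
    · intro A B hA hdA hB hdB
      exact hgC.mul A B hA (hdd hdA) hB (hdd hdB)
    · intro A hA hdA ht
      exact hgC.triv A hA (hdd hdA) ht
    · intro A hA hdA
      exact hgtw A hA (hdd hdA)
  have h8 := hES (AdjoinRoot.mk P A) (AdjoinRoot.mk P X0) (hR.mk_ne hA (hdd hd))
    ((hIn _ _).2 (by rw [hR.rpm _ (hdd hX0.2.1)]; exact hX0))
  simp only [hR.rpm _ (hdd hd), hR.rpm _ (hdd hX0.2.1)] at h8
  rw [h8, hg0 A hA hd, hS0 _ _ (hR.mk_ne hA (hdd hd)) (hR.mk_ne hX0.1 (hdd hX0.2.1)), add_zero]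

theorem type_proof (hPn : PnStatement.{u}) (hTwp : TwpStatement.{u}) (hSim : SimStatement.{u})
    (hCyc : CycStatement.{u}) (hCont : ContStatement.{u}) (hCtx : CtxStatement.{u}) (hEd : EdStatement.{u})
    (hLoc : LocStatement.{u}) (hE3 : E3Statement.{u}) (hE4 : E4Statement.{u}) (hE6 : E6Statement.{u})
    (hNk : NkStatement.{u}) (hFam : FamStatement.{u}) (hRep : RepStatement.{u}) (hAlg : AlgStatement.{u}) :
    TypeStatement.{u} := by
  intro F _ l p e n r Z P a T _ h hSn hNum hHF hPm hPd hPi ha hne hZa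
  have hr2 := hNum.r2
  have hrn := hNum.rn
  obtain ⟨D, Cp, hAni⟩ := hCyc F l e n hNum.lpr hNum.chr hNum.perf hNum.epos (by omega)
  obtain ⟨E, cont, H, hCnt⟩ := hCont F l e n r D Cp hNum.lpr hNum.chr (by omega) hAni
  obtain ⟨f, hf⟩ := hCtx F l p e n r Z P a D Cp E cont H hNum hAni hCnt hPm hPd hPi ha hne hZa
  obtain ⟨K, mm, k, hmm, hkK, hC, hX0⟩ := hf (2 * D + 31 + (l ^ e) ^ a + 2)
  obtain ⟨Ef, hE⟩ := hEd F l p e n r Z P a f D Cp E cont H K mm T h hC hHF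
  obtain ⟨h4a, h4b⟩ := hE4 F l p e n r Z P a f D Cp E cont H K mm k T h Ef hC hHF hE hkK hX0
  refine ⟨?_, h4b⟩
  intro y hy hyd ht
  rw [h4a y hy hyd ht]
  exact type_core hPn hTwp hSim hLoc hE3 hE6 hNk hFam hRep hAlg F l p e n r Z P a f D Cp E cont H K mm T h Ef hSn hC
    hHF hE hmm _ hX0 y hy hyd

end CL
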