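import Pool.Agent.Lib.MP_defcf3_al.CL.IfaceB

/-!
Project CL (MP_defcf3_al), part (B), row Xp: separation in K_P. The norm of A is the determinant of the
multiplication by A modulo P; its value at an inert V is the r-th power of the content norm of A.
-/

open Polynomial

namespace CL

universe u

namespace H80X

section Mat

variable {R : Type u} [CommRing R]

/-- The matrix of the multiplication by A modulo P. -/
noncomputable def mm (r : ℕ) (P A : R[X]) : Matrix (Fin r) (Fin r) R :=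
  Matrix.of fun i j => ((X ^ (j : ℕ) * A) %ₘ P).coeff i

theorem mm_map {S : Type u} [CommRing S] (φ : R →+* S) (r : ℕ) {P : R[X]} (hP : P.Monic) (A : R[X]) :
    φ.mapMatrix (mm r P A) = mm r (P.map φ) (A.map φ) := by
  ext i j
  simp only [mm, RingHom.mapMatrix_apply, Matrix.map_apply, Matrix.of_apply]
  rw [← coeff_map, map_modByMonic φ hP, Polynomial.map_mul, Polynomial.map_pow, map_X]

theorem mm_smul (r : ℕ) (P A : R[X]) (c : R) : mm r P (c • A) = c • mm r P A := by
  ext i j
  simp only [mm, Matrix.of_apply, Matrix.smul_apply]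
  rw [mul_smul_comm, smul_modByMonic, coeff_smul]

theorem mm_vec (r : ℕ) (P A : R[X]) (v : Fin r → R) (i : Fin r) :
    (mm r P A).mulVec v i = (((∑ j, C (v j) * X ^ (j : ℕ)) * A) %ₘ P).coeff i := by
  have h1 : (∑ j : Fin r, C (v j) * X ^ (j : ℕ)) * A = ∑ j : Fin r, v j • (X ^ (j : ℕ) * A) := by
    rw [Finset.sum_mul]
    exact Finset.sum_congr rfl fun j _ => by rw [smul_eq_C_mul, mul_assoc]
  have h2 : ((∑ j : Fin r, v j • (X ^ (j : ℕ) * A)) %ₘ P) = ∑ j : Fin r, v j • ((X ^ (j : ℕ) * A) %ₘ P) := by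
    have h3 := map_sum (modByMonicHom P) (fun j : Fin r => v j • (X ^ (j : ℕ) * A)) Finset.univ
    simp only [map_smul] at h3
    exact h3
  rw [h1, h2, finsetSum_coeff]
  simp only [Matrix.mulVec, dotProduct, mm, Matrix.of_apply, coeff_smul, smul_eq_mul]
  exact Finset.sum_congr rfl fun j _ => mul_comm _ _

end Mat

/-- Over a field, modulo an irreducible polynomial the determinant is non-zero. -/
theorem det_ne {k : Type u} [Field k] {P A : k[X]} (hP : P.Monic) (hirr : Irreducible P)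
    (hA : A.natDegree < P.natDegree) (hA0 : A ≠ 0) : (mm P.natDegree P A).det ≠ 0 := by
  intro h
  obtain ⟨v, hv, hv1⟩ := Matrix.exists_mulVec_eq_zero_iff.2 h
  set g : k[X] := ∑ j : Fin P.natDegree, C (v j) * X ^ (j : ℕ) with hg
  have hgc : ∀ i : Fin P.natDegree, g.coeff i = v i := by
    intro i
    rw [hg, finsetSum_coeff, Finset.sum_eq_single i]
    · rw [coeff_C_mul_X_pow, if_pos rfl]
    · intro j _ hj
      rw [coeff_C_mul_X_pow, if_neg]
      exact fun h => hj (Fin.ext h.symm)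
    · intro h
      exact absurd (Finset.mem_univ _) h
  have hg0 : g ≠ 0 := by
    intro h
    apply hv
    ext i
    rw [← hgc, h, coeff_zero, Pi.zero_apply]
  have hd0 : 0 < P.natDegree := by omega
  have hgd : g.natDegree < P.natDegree := by
    rw [hg]
    refine lt_of_le_of_lt (natDegree_sum_le_of_forall_le (n := P.natDegree - 1) _ _ ?_) (by omega)
    intro j _
    refine (natDegree_C_mul_X_pow_le _ _).trans ?_
    have := j.2
    omega
  have hmod : (g * A) %ₘ P = 0 := by
    ext i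
    rw [coeff_zero]
    by_cases hi : i < P.natDegree
    · have := mm_vec P.natDegree P A v ⟨i, hi⟩
      rw [hv1, Pi.zero_apply] at this
      exact this.symm
    · apply coeff_eq_zero_of_natDegree_lt
      have := natDegree_modByMonic_lt (g * A) hP (fun h => by rw [h, natDegree_one] at hd0; omega)
      omega
  rw [modByMonic_eq_zero_iff_dvd hP] at hmod
  rcases hirr.prime.dvd_or_dvd hmod with h | h
  · exact absurd (natDegree_le_of_dvd h hg0) (by omega)
  · exact absurd (natDegree_le_of_dvd h hA0) (by omega)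

section Val

variable {F : Type u} [Field F] {V : ValuationSubring F}

theorem res_zero_iff (a : V) : IsLocalRing.residue V a = 0 ↔ V.valuation (a : F) < 1 := by
  rw [IsLocalRing.residue_eq_zero_iff, V.valuation_lt_one_iff]

/-- The value of the determinant at an inert place. -/
theorem val_det (h1 : PnStatement.{u}) {P A : F[X]} (hP : P.Monic) (hin : Inert V P)
    (hA : A.natDegree < P.natDegree) (hA0 : A ≠ 0) :
    V.valuation (mm P.natDegree P A).det = pn V A ^ P.natDegree := by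
  obtain ⟨p1, p2, p3, p4, p5, p6, p7, p8, p9, p10, p11⟩ := h1 F V
  obtain ⟨P', hP', hirr⟩ := hin
  have hinj : Function.Injective (algebraMap V F) := Subtype.coe_injective
  have hm : P'.Monic := monic_of_injective hinj (by rw [hP']; exact hP)
  have hdeg : P'.natDegree = P.natDegree := by rw [← hP', hm.natDegree_map]
  obtain ⟨i, hi⟩ := p3 A hA0
  have hp : pn V A ≠ 0 := fun h => hA0 ((p1 A).1 h)
  have ha : A.coeff i ≠ 0 := by
    intro h
    rw [h, map_zero] at hi
    exact hp hi.symm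
  obtain ⟨c, hc⟩ : ∃ c : F, c = A.coeff i := ⟨_, rfl⟩
  rw [← hc] at ha hi
  have hA1 : A = c • (C c⁻¹ * A) := by
    rw [smul_eq_C_mul, ← mul_assoc, ← C_mul, mul_inv_cancel₀ ha, C_1, one_mul]
  have h2 : pn V (C c⁻¹ * A) = 1 := by
    rw [p7, map_inv₀, hi, inv_mul_cancel₀ hp]
  have hcov : CoV V (C c⁻¹ * A) := (p9 _).1 h2.le
  obtain ⟨B, hB⟩ : ∃ B : Polynomial V, B.map (algebraMap V F) = C c⁻¹ * A := by
    have : C c⁻¹ * A ∈ lifts (algebraMap V F) := by
      rw [lifts_iff_coeff_lifts]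
      intro j
      exact ⟨⟨(C c⁻¹ * A).coeff j, hcov j⟩, rfl⟩
    exact (mem_lifts _).1 this
  have hBd : B.natDegree < P'.natDegree := by
    have h3 : (B.map (algebraMap V F)).natDegree = B.natDegree := natDegree_map_eq_of_injective hinj B
    rw [hB, natDegree_C_mul (inv_ne_zero ha)] at h3
    omega
  have hB0 : B.map (IsLocalRing.residue V) ≠ 0 := by
    intro h
    have h3 : CoM V (C c⁻¹ * A) := by
      intro j
      rw [← hB, coeff_map]
      have h4 := congrArg (fun Q => Q.coeff j) h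
      simp only [coeff_map, coeff_zero] at h4
      exact (res_zero_iff _).1 h4
    exact absurd ((p10 _).2 h3) (by rw [h2]; exact lt_irrefl _)
  have hdet : IsLocalRing.residue V (mm P'.natDegree P' B).det ≠ 0 := by
    rw [RingHom.map_det, mm_map _ _ hm]
    have h5 : (P'.map (IsLocalRing.residue V)).natDegree = P'.natDegree := hm.natDegree_map _
    have h6 := det_ne (hm.map (IsLocalRing.residue V)) hirr
      (A := B.map (IsLocalRing.residue V)) (by rw [h5]; exact lt_of_le_of_lt natDegree_map_le hBd) hB0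
    rw [h5] at h6
    exact h6
  have hval : V.valuation (mm P.natDegree P (C c⁻¹ * A)).det = 1 := by
    rw [← hB, ← hP', ← mm_map _ _ hm, ← RingHom.map_det]
    apply le_antisymm ((V.valuation_le_one_iff _).2 (mm _ P' B).det.2)
    by_contra h
    push Not at h
    rw [hP'] at h
    rw [← hdeg] at h
    exact hdet ((res_zero_iff _).2 h)
  conv_lhs => rw [hA1]
  rw [mm_smul, Matrix.det_smul, Fintype.card_fin, map_mul, map_pow, hval, mul_one, hi]

end Val

end H80X

open H80X

theorem xp_proof (h1 : PnStatement.{u}) (h2 : InrStatement.{u}) (h3 : SimStatement.{u}) : XpStatement.{u} := by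
  intro F _ P D Cp W ZZ s hP hirr hr hc0 hCV hD hW hZW hZne hs1 hs2 A hA0 hA
  set r := P.natDegree with hrdef
  obtain ⟨V0, hV0⟩ := hZne
  set N : F := (mm r P A).det with hN
  have hNv : ∀ V ∈ W, V.valuation N = pn V A ^ r := fun V hV => val_det h1 hP (hW V hV).1 hA hA0
  have hpA : ∀ V : ValuationSubring F, pn V A ≠ 0 := fun V h => hA0 (((h1 F V).1 A).1 h)
  have hN0 : N ≠ 0 := by
    intro h
    have := hNv V0 (hZW hV0)
    rw [h, map_zero] at this
    exact pow_ne_zero _ (hpA V0) this.symm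
  have hr1 : P ≠ 1 := fun h => by
    rw [hrdef, h, natDegree_one] at hr
    omega
  have hpow : ∀ V ∈ W, ∀ i : ℕ, pn V ((A ^ i) %ₘ P) = pn V A ^ i := by
    intro V hV i
    obtain ⟨p1, p2, p3, p4, p5, p6, p7, p8, p9, p10, p11⟩ := h1 F V
    have h4 := (h2 F V P hP (by omega) (hW V hV).1).1
    induction i with
    | zero =>
      rw [pow_zero, pow_zero, (modByMonic_eq_self_iff hP).2, ← C_1, p8, map_one]
      rw [degree_one]
      exact natDegree_pos_iff_degree_pos.1 (by omega)
    | succ i ih =>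
      have h5 : (A ^ (i + 1)) %ₘ P = (((A ^ i) %ₘ P) * A) %ₘ P := by
        rw [pow_succ, mul_modByMonic, mul_modByMonic (A ^ i %ₘ P) A, (modByMonic_eq_self_iff hP).2
          (degree_modByMonic_lt (A ^ i) hP)]
      rw [h5, h4 _ _ (natDegree_modByMonic_lt _ hP hr1) hA, ih, pow_succ]
  obtain ⟨B, hB⟩ : ∃ B : F[X], B = (A ^ r) %ₘ P := ⟨_, rfl⟩
  have hBd : B.natDegree < r := by rw [hB]; exact natDegree_modByMonic_lt _ hP hr1
  have hBv : ∀ V ∈ W, pn V B = pn V A ^ r := fun V hV => by rw [hB]; exact hpow V hV r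
  have hB0 : B ≠ 0 := by
    intro h
    have h4 := hBv V0 (hZW hV0)
    rw [h, ((h1 F V0).1 0).2 rfl] at h4
    exact pow_ne_zero _ (hpA V0) h4.symm
  obtain ⟨w, hw⟩ : ∃ w : F[X], w = C N⁻¹ * B := ⟨_, rfl⟩
  have hwv : ∀ V ∈ W, pn V w = 1 := by
    intro V hV
    obtain ⟨p1, p2, p3, p4, p5, p6, p7, p8, p9, p10, p11⟩ := h1 F V
    rw [hw, p7, map_inv₀, hNv V hV, hBv V hV, inv_mul_cancel₀ (pow_ne_zero _ (hpA V))]
  have hwd : w.natDegree < r := by rw [hw, natDegree_C_mul (inv_ne_zero hN0)]; exact hBd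
  obtain ⟨t, ht⟩ : ∃ t : F, t = Cp.eval s := ⟨_, rfl⟩
  have ht1 : ∀ V ∈ ZZ, V.valuation t = 1 ∧ V.valuation (1 - t⁻¹) < 1 := by
    intro V hV
    have h4 : V.valuation t = 1 := by
      rw [ht, (hW V (hZW hV)).2 s, max_eq_left (hs1 V hV).le, one_pow]
    refine ⟨h4, ?_⟩
    have ht0 : t ≠ 0 := by
      intro h
      rw [h, map_zero] at h4
      exact zero_ne_one h4
    have h5 : t = 1 + s * (divX Cp).eval s := by
      rw [ht]
      conv_lhs => rw [← divX_mul_X_add Cp]
      rw [eval_add, eval_mul, eval_X, eval_C, hc0]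
      ring
    have hsV : s ∈ V := (V.valuation_le_one_iff _).1 (hs1 V hV).le
    have h6 : (divX Cp).eval s ∈ V := by
      rw [eval_eq_sum_range]
      refine V.toSubring.sum_mem fun i _ => V.mul_mem _ _ ?_ (V.toSubring.pow_mem hsV i)
      rw [coeff_divX]
      exact hCV V (hZW hV) (i + 1)
    have h7 : V.valuation (t - 1) < 1 := by
      rw [h5, add_sub_cancel_left, map_mul]
      exact mul_lt_one_of_lt_of_le (hs1 V hV) ((V.valuation_le_one_iff _).2 h6)
    have h8 : (1 : F) - t⁻¹ = (t - 1) * t⁻¹ := by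
      rw [sub_mul, mul_inv_cancel₀ ht0, one_mul]
    rw [h8, map_mul, map_inv₀, h4, inv_one, mul_one]
    exact h7
  have ht2 : ∀ V ∈ W, V ∉ ZZ → V.valuation t⁻¹ < 1 := by
    intro V hV hVZ
    have h4 : 1 < V.valuation t := by
      rw [ht, (hW V hV).2 s, max_eq_right (hs2 V hV hVZ).le]
      exact one_lt_pow₀ (hs2 V hV hVZ) (by omega)
    rw [map_inv₀]
    exact inv_lt_one_of_one_lt₀ h4
  obtain ⟨A', hA'⟩ : ∃ A' : F[X], A' = 1 + C t⁻¹ * (w - 1) := ⟨_, rfl⟩
  have hone : ∀ V : ValuationSubring F, pn V (1 : F[X]) = 1 := by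
    intro V
    obtain ⟨p1, p2, p3, p4, p5, p6, p7, p8, p9, p10, p11⟩ := h1 F V
    rw [← C_1, p8, map_one]
  have hw1 : ∀ V ∈ W, pn V (w - 1) ≤ 1 := by
    intro V hV
    obtain ⟨p1, p2, p3, p4, p5, p6, p7, p8, p9, p10, p11⟩ := h1 F V
    rw [sub_eq_add_neg]
    refine (p4 _ _).trans ?_
    rw [p5, hwv V hV, hone, max_self]
  have hZ : ∀ V ∈ ZZ, PSim V A' B := by
    intro V hV
    obtain ⟨p1, p2, p3, p4, p5, p6, p7, p8, p9, p10, p11⟩ := h1 F V
    obtain ⟨s1, s2, s3, s4, s5, s6, s7, s8, s9⟩ := h3 F V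
    apply s3 A' w B
    · apply s4
      have h4 : A' - w = C (1 - t⁻¹) * (-(w - 1)) := by
        rw [hA', C_sub, C_1]
        ring
      rw [h4, p7, p5, hwv V (hZW hV)]
      exact mul_lt_one_of_lt_of_le (ht1 V hV).2 (hw1 V (hZW hV))
    · rw [hw]
      exact s5 B _ (inv_ne_zero hN0) hB0
  refine ⟨A', ?_, ?_, ?_, ?_⟩
  · exact ((h3 F V0).2.1 A' B (hZ V0 hV0)).1
  · rw [hA']
    refine lt_of_le_of_lt (natDegree_add_le _ _) (max_lt ?_ ?_)
    · rw [natDegree_one]; omega
    · refine lt_of_le_of_lt (natDegree_C_mul_le _ _) (lt_of_le_of_lt (natDegree_sub_le _ _) (max_lt hwd ?_))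
      rw [natDegree_one]; omega
  · intro V hV
    rw [← hB]
    exact hZ V hV
  · intro V hV hVZ
    obtain ⟨p1, p2, p3, p4, p5, p6, p7, p8, p9, p10, p11⟩ := h1 F V
    obtain ⟨s1, s2, s3, s4, s5, s6, s7, s8, s9⟩ := h3 F V
    apply s4
    rw [hA', add_sub_cancel_left, p7, hone]
    exact mul_lt_one_of_lt_of_le (ht2 V hV hVZ) (hw1 V hV)

end CL
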