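import Pool.Agent.Lib.MP_defcf3_al.CL.All
import Pool.Agent.Lib.MP_defcf3_al.CL.Pn
import Pool.Agent.Lib.MP_defcf3_al.CL.Twp
import Pool.Agent.Lib.MP_defcf3_al.CL.Sim
import Pool.Agent.Lib.MP_defcf3_al.CL.E4
import Pool.Agent.Lib.MP_defcf3_al.CL.Xp
import Pool.Agent.Lib.MP_defcf3_al.CL.Sep
import Pool.Agent.Lib.MP_defcf3_al.CL.Inr
import Pool.Agent.Lib.MP_defcf3_al.CL.Cyc
import Pool.Agent.Lib.MP_defcf3_al.CL.Cont
import Pool.Agent.Lib.MP_defcf3_al.CL.Cut
import Pool.Agent.Lib.MP_defcf3_al.CL.Ctx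
import Pool.Agent.Lib.MP_defcf3_al.CL.MilQ
import Pool.Agent.Lib.MP_defcf3_al.CL.Mil
import Pool.Agent.Lib.MP_defcf3_al.CL.Mzp
import Pool.Agent.Lib.MP_defcf3_al.CL.Hf
import Pool.Agent.Lib.MP_defcf3_al.CL.Px
import Pool.Agent.Lib.MP_defcf3_al.CL.Ed
import Pool.Agent.Lib.MP_defcf3_al.CL.Gen
import Pool.Agent.Lib.MP_defcf3_al.CL.Gnr
import Pool.Agent.Lib.MP_defcf3_al.CL.Loc
import Pool.Agent.Lib.MP_defcf3_al.CL.E3
import Pool.Agent.Lib.MP_defcf3_al.CL.E6
import Pool.Agent.Lib.MP_defcf3_al.CL.Nk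
import Pool.Agent.Lib.MP_defcf3_al.CL.Fam
import Pool.Agent.Lib.MP_defcf3_al.CL.Rep
import Pool.Agent.Lib.MP_defcf3_al.CL.Alg
import Pool.Agent.Lib.MP_defcf3_al.CL.EtoS
import Pool.Agent.Lib.MP_defcf3_al.CL.Disj
import Pool.Agent.Lib.MP_defcf3_al.CL.IntSt
import Pool.Agent.Lib.MP_defcf3_al.CL.FullSt
import Pool.Agent.Lib.MP_defcf3_al.CL.TypeB
import Pool.Agent.Lib.MP_defcf3_al.CL.Hp
import Pool.Agent.Lib.MP_defcf3_al.CL.FinB

/-!
Part (B): (S_n) for all n, all modules put together.
-/

namespace CL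

universe u

theorem allB_inr : InrStatement.{u} := inr_proof pn_proof

theorem allB_fam : FamStatement.{u} := fam_proof pn_proof allB_inr

theorem allB_px : PxStatement.{u} := px_proof pn_proof twp_proof allB_inr

theorem allB_milQ : MilQStatement.{u} := milQ_proof twp_proof pn_proof allB_inr

theorem allB_mil : MilStatement.{u} := mil_proof twp_proof pn_proof allB_milQ

theorem allB_alg : AlgStatement.{u} := alg_proof etoS_proof (intSt_proof disj_proof) fullSt_proof

theorem allB_nk : NkStatement.{u} := nk_proof pn_proof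

theorem allB_cont : ContStatement.{u} := cont_proof pn_proof

theorem allB_sim : SimStatement.{u} := sim_proof allB_inr

theorem allB_mzp : MzpStatement.{u} :=
  mzp_proof allM_thmMZ cyc_proof pn_proof twp_proof allB_sim allB_mil norm_proof

theorem allB_hf : HfStatement.{u} := hf_proof allB_mil allB_mzp

theorem allB_gen : GenStatement.{u} := gen_proof pn_proof twp_proof allB_sim allB_px

theorem allB_xp : XpStatement.{u} := xp_proof pn_proof allB_inr allB_sim

theorem allB_sep : SepStatement.{u} := sep_proof pn_proof twp_proof allB_inr allB_px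

theorem allB_ed : EdStatement.{u} := ed_proof pn_proof twp_proof allB_inr allB_sim allB_xp allB_px allB_sep

theorem allB_loc : LocStatement.{u} :=
  loc_proof pn_proof allB_inr allB_sim allB_px allB_gen (gnr_proof pn_proof twp_proof allB_inr allB_px allB_sep)
    allB_fam

theorem allB_e3 : E3Statement.{u} :=
  e3_proof pn_proof twp_proof allB_inr allB_sim allB_xp allB_px allB_sep allB_loc

theorem allB_type : TypeStatement.{u} :=
  type_proof pn_proof twp_proof allB_sim cyc_proof allB_cont ctx_proof allB_ed allB_loc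
    allB_e3 (e4_proof twp_proof allB_xp allB_px allB_sep) e6_proof allB_nk allB_fam rep_proof allB_alg

theorem allB_hp : HpStatement.{u} :=
  hp_proof allB_sim twp_proof cyc_proof allB_cont allB_type e6_proof allB_nk

theorem allB_finB : FinBStatement.{u} :=
  finB_proof allB_sim allB_milQ allB_mil allB_hf allB_hp

end CL
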