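import Pool.Agent.Lib.MP_defcf3_al.CL.IfaceC

/-!
Project CL (MP_defcf3_al), part (C), row Fld (helper68): the Galois group acts on the roots of unity of order prime to the
characteristic through powers of Frobenius; the fixed field of F_c(ζ).
-/

set_option autoImplicit false

open Polynomial

namespace CL

universe u

/-- Every automorphism acts on F_c(ζ) as a power of Frobenius. -/
theorem fld_frob {Ω : Type u} [Field Ω] (c : ℕ) (hc : c.Prime) (hch : CharP Ω c) (ζ : Ω) (n : ℕ) (hζ : ζ ^ n = 1)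
    (hn : 0 < n) : ∃ r : ℕ, 0 < r ∧ ζ ^ c ^ r = ζ ∧
      ∀ g : Ω ≃+* Ω, ∃ i : ℕ, ∀ x : Ω, x ^ c ^ r = x → g x = x ^ c ^ i := by
  classical
  have : Fact c.Prime := ⟨hc⟩
  let _ : Algebra (ZMod c) Ω := ZMod.algebra Ω c
  have hint : IsIntegral (ZMod c) ζ := by
    refine ⟨X ^ n - 1, monic_X_pow_sub_C 1 hn.ne', ?_⟩
    rw [eval₂_sub, eval₂_pow, eval₂_X, eval₂_one, hζ, sub_self]
  obtain ⟨S, hS⟩ : ∃ S : IntermediateField (ZMod c) Ω, S = IntermediateField.adjoin (ZMod c) {ζ} := ⟨_, rfl⟩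
  have hfd : FiniteDimensional (ZMod c) S := by
    rw [hS]
    exact IntermediateField.adjoin.finiteDimensional hint
  have hfin : Finite S := Module.finite_of_finite (ZMod c)
  let _ : Fintype S := Fintype.ofFinite S
  have hζS : ζ ∈ S := by rw [hS]; exact IntermediateField.mem_adjoin_simple_self _ _
  obtain ⟨r, hr⟩ : ∃ r, r = Module.finrank (ZMod c) S := ⟨_, rfl⟩
  have hr0 : 0 < r := by rw [hr]; exact Module.finrank_pos
  have hcard : Fintype.card S = c ^ r := by
    rw [hr, Module.card_eq_pow_finrank (K := ZMod c), ZMod.card]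
  have hmem : ∀ x ∈ S, x ^ c ^ r = x := by
    intro x hx
    have h := FiniteField.pow_card (⟨x, hx⟩ : S)
    rw [hcard] at h
    exact congrArg Subtype.val h
  have hcr : 1 < c ^ r := Nat.one_lt_pow hr0.ne' hc.one_lt
  have hmem' : ∀ x : Ω, x ^ c ^ r = x → x ∈ S := by
    have hne : (X ^ c ^ r - X : Polynomial Ω) ≠ 0 := FiniteField.X_pow_card_sub_X_ne_zero Ω hcr
    have h1 : (Finset.univ : Finset S).map (Function.Embedding.subtype _) ⊆ (X ^ c ^ r - X : Polynomial Ω).roots.toFinset := by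
      intro x hx
      obtain ⟨y, -, rfl⟩ := Finset.mem_map.1 hx
      rw [Multiset.mem_toFinset, mem_roots hne, IsRoot.def, eval_sub, eval_pow, eval_X]
      exact sub_eq_zero.2 (hmem _ y.2)
    have h2 : (X ^ c ^ r - X : Polynomial Ω).roots.toFinset.card ≤
        ((Finset.univ : Finset S).map (Function.Embedding.subtype _)).card := by
      rw [Finset.card_map, Finset.card_univ, hcard]
      refine (Multiset.toFinset_card_le _).trans ((card_roots' _).trans ?_)
      rw [FiniteField.X_pow_card_sub_X_natDegree_eq Ω hcr]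
    have h3 := Finset.eq_of_subset_of_card_le h1 h2
    intro x hx
    have h4 : x ∈ (X ^ c ^ r - X : Polynomial Ω).roots.toFinset := by
      rw [Multiset.mem_toFinset, mem_roots hne, IsRoot.def, eval_sub, eval_pow, eval_X]
      exact sub_eq_zero.2 hx
    rw [← h3] at h4
    obtain ⟨y, -, rfl⟩ := Finset.mem_map.1 h4
    exact y.2
  refine ⟨r, hr0, hmem _ hζS, fun g => ?_⟩
  have hcomm : ∀ (g : Ω ≃+* Ω) (a : ZMod c), g (algebraMap (ZMod c) Ω a) = algebraMap (ZMod c) Ω a := by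
    intro g a
    exact RingHom.congr_fun (Subsingleton.elim ((g : Ω →+* Ω).comp (algebraMap (ZMod c) Ω)) (algebraMap (ZMod c) Ω)) a
  have hgS : ∀ (g : Ω ≃+* Ω) (x : S), g x ∈ S := by
    intro g x
    apply hmem'
    rw [← map_pow, hmem _ x.2]
  let gS : S ≃ₐ[ZMod c] S :=
    { toFun := fun x => ⟨g x, hgS g x⟩
      invFun := fun x => ⟨g.symm x, hgS g.symm x⟩
      left_inv := fun x => Subtype.ext (g.symm_apply_apply _)
      right_inv := fun x => Subtype.ext (g.apply_symm_apply _)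
      map_mul' := fun x y => Subtype.ext (map_mul g _ _)
      map_add' := fun x y => Subtype.ext (map_add g _ _)
      commutes' := fun a => Subtype.ext (hcomm g a) }
  obtain ⟨i, hi⟩ := (FiniteField.bijective_frobeniusAlgEquivOfAlgebraic_pow (ZMod c) S).2 gS
  refine ⟨i, fun x hx => ?_⟩
  have h1 : gS ⟨x, hmem' x hx⟩ = (⟨x, hmem' x hx⟩ : S) ^ c ^ (i : ℕ) := by
    rw [← hi]
    beta_reduce
    rw [AlgEquiv.coe_pow, FiniteField.coe_frobeniusAlgEquivOfAlgebraic_iterate, ZMod.card]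
  exact congrArg Subtype.val h1

/-- Fld. -/
theorem fld_proof : FldStatement.{u} := by
  classical
  intro F Ω _ _ _ _ _ c ℓ ζ hc hF hℓ hcℓ hζ
  have : CharP Ω c := charP_of_injective_algebraMap (algebraMap F Ω).injective c
  have : Fact c.Prime := ⟨hc⟩
  have hz : (ζ : Ω) ^ ℓ = 1 := by
    have h := congrArg Units.val hζ.pow_eq_one
    rwa [Units.val_pow_eq_pow_val] at h
  obtain ⟨r, hr0, hrζ, hr⟩ := fld_frob c hc inferInstance (ζ : Ω) ℓ hz hℓ.pos
  have hval : ∀ (g : Ω ≃ₐ[F] Ω), ((g • ζ : Ωˣ) : Ω) = g (ζ : Ω) := fun g => rfl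
  have hunit : ∀ (g : Ω ≃ₐ[F] Ω) (i : ℕ), g (ζ : Ω) = (ζ : Ω) ^ c ^ i → g • ζ = ζ ^ c ^ i := by
    intro g i h
    apply Units.ext
    rw [hval, h, Units.val_pow_eq_pow_val]
  let J : ℕ → Prop := fun i => ∃ g : Ω ≃ₐ[F] Ω, ∀ x : Ω, x ^ c ^ r = x → g x = x ^ c ^ i
  have hJ : ∀ g : Ω ≃ₐ[F] Ω, ∃ i, J i ∧ ∀ x : Ω, x ^ c ^ r = x → g x = x ^ c ^ i := by
    intro g
    obtain ⟨i, hi⟩ := hr g.toRingEquiv
    exact ⟨i, ⟨g, hi⟩, hi⟩
  have hJr : J r := ⟨1, fun x hx => hx.symm⟩
  have hex : ∃ i, 0 < i ∧ J i := ⟨r, hr0, hJr⟩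
  obtain ⟨e, he⟩ : ∃ e, e = Nat.find hex := ⟨_, rfl⟩
  obtain ⟨he0, g, hg⟩ : 0 < e ∧ J e := by rw [he]; exact Nat.find_spec hex
  have hmin : ∀ i, 0 < i → J i → e ≤ i := by
    intro i h1 h2
    rw [he]
    exact Nat.find_min' hex ⟨h1, h2⟩
  have hdvd : ∀ i, J i → e ∣ i := by
    intro i
    induction i using Nat.strong_induction_on with
    | _ i ih =>
      intro hi
      rcases Nat.eq_zero_or_pos i with h0 | h0
      · rw [h0]; exact dvd_zero _
      · have h1 := hmin i h0 hi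
        have h2 : J (i - e) := by
          obtain ⟨g', hg'⟩ := hi
          refine ⟨g⁻¹ * g', fun x hx => ?_⟩
          show g.symm (g' x) = _
          rw [AlgEquiv.symm_apply_eq, hg' x hx, hg]
          · rw [← pow_mul, ← pow_add, Nat.sub_add_cancel h1]
          · rw [← pow_mul, mul_comm, pow_mul, hx]
        have h3 := ih (i - e) (by omega) h2
        have h4 := Nat.dvd_add h3 (dvd_refl e)
        rwa [Nat.sub_add_cancel h1] at h4
  refine ⟨fun g' => ?_, e, g, he0, hunit g e (hg _ hrζ), ?_⟩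
  · obtain ⟨i, -, hi⟩ := hJ g'
    exact ⟨i, hunit g' i (hi _ hrζ)⟩
  · -- the elements of the finite field
    have hpow : ∀ (x : Ω), x ^ c ^ e = x → ∀ i, e ∣ i → x ^ c ^ i = x := by
      rintro x hx _ ⟨q, rfl⟩
      induction q with
      | zero => rw [mul_zero, pow_zero, pow_one]
      | succ q ih => rw [mul_add, mul_one, pow_add, pow_mul, ih, hx]
    have hfix : ∀ x : Ω, x ^ c ^ e = x → ∃ y : F, algebraMap F Ω y = x := by
      intro x hx
      have h1 : x ∈ Set.range (algebraMap F Ω) := by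
        rw [InfiniteGalois.mem_range_algebraMap_iff_fixed]
        intro g'
        obtain ⟨i, hi, hi'⟩ := hJ g'
        rw [hi' x (hpow x hx r (hdvd r hJr)), hpow x hx i (hdvd i hi)]
      exact h1
    have hce : 1 < c ^ e := Nat.one_lt_pow he0.ne' hc.one_lt
    have hne : (X ^ c ^ e - X : Polynomial Ω) ≠ 0 := FiniteField.X_pow_card_sub_X_ne_zero Ω hce
    have hsep : (X ^ c ^ e - X : Polynomial Ω).Separable := galois_poly_separable c _ (dvd_pow_self c he0.ne')
    have hcardΩ : Nat.card {x : Ω // x ^ c ^ e = x} = c ^ e := by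
      have h1 : Nat.card {x : Ω // x ^ c ^ e = x} = (X ^ c ^ e - X : Polynomial Ω).roots.toFinset.card := by
        rw [Nat.subtype_card]
        intro x
        rw [Multiset.mem_toFinset, mem_roots hne, IsRoot.def, eval_sub, eval_pow, eval_X]
        exact sub_eq_zero
      have h2 : (X ^ c ^ e - X : Polynomial Ω).Splits := IsSepClosed.splits_of_separable _ hsep
      rw [h1, Multiset.toFinset_card_of_nodup (nodup_roots hsep), ← h2.natDegree_eq_card_roots,
        FiniteField.X_pow_card_sub_X_natDegree_eq Ω hce]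
    refine Eq.trans ?_ hcardΩ
    refine Nat.card_congr (Equiv.ofBijective (fun x => ⟨algebraMap F Ω x.1, ?_⟩) ⟨?_, ?_⟩)
    · rw [← map_pow, x.2]
    · intro x y h
      exact Subtype.ext ((algebraMap F Ω).injective (congrArg Subtype.val h))
    · rintro ⟨x, hx⟩
      obtain ⟨y, rfl⟩ := hfix x hx
      refine ⟨⟨y, (algebraMap F Ω).injective ?_⟩, rfl⟩
      rw [map_pow, hx]

end CL
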