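import Pool.Agent.Lib.MP_defcf3_al.CL.IfaceC
import Pool.Agent.Lib.MP_defcf3_al.BRP.H50.Full
import Pool.Agent.Lib.MP_defcf3_al.BRP.H88.Bridge

/-!
Project CL (MP_defcf3_al), part (C), row HeartAll: the heart in characteristic c from Top and Fld.
-/

open Polynomial BR7 BRP BR7.H50 BRP.H50 BRP.H88

namespace CL

universe u

theorem heartAll_top (c ℓ d : ℕ) [Fact ℓ.Prime] [Fact (Odd ℓ)] (hcp : c.Prime) (hcl : c ≠ ℓ) (hc2 : ¬ ℓ ∣ c ^ 2 - 1)
    (hTop : TopStatement.{u}) (hFld : FldStatement.{u}) : HeartPosStatement.{u} c ℓ d := by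
  classical
  intro F Ω _ _ _ _ _ hchar ζ γ k Q _ sym Γ hS a b ha hb
  obtain ⟨-, e, g0, he1, hg0, hcard⟩ := hFld F Ω c ℓ ζ hcp hchar Fact.out hcl hS.prim
  obtain ⟨i0, hi0⟩ := hS.gen g0
  have hki : ζ ^ (k ^ i0) = ζ ^ (c ^ e) := by
    rw [← gamma_pow' hS i0, ← hi0, hg0]
  have hmod : ((k ^ i0 : ℕ) : ZMod ℓ) = ((c ^ e : ℕ) : ZMod ℓ) := by
    rw [ZMod.natCast_eq_natCast_iff]
    have h5 := pow_eq_pow_iff_modEq.1 hki
    rwa [← hS.prim.eq_orderOf] at h5
  set B : Ωˣ → Ωˣ → Q := fun a b => ∑ i ∈ Finset.range d, (Γ ^ i : AddMonoid.End Q) (sym a b) with hB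
  have h : BX ℓ F ζ γ k B := bx_norm hS
  change B a b = 0
  let L : IntermediateField F Ω := IntermediateField.adjoin F {(ζ : Ω)}
  have hL : ∀ x : Ω, x ∈ L ↔ ∀ g : Ω ≃ₐ[F] Ω, g • ζ = ζ → g x = x := mem_L
  have hγL : ∀ x : Ω, x ∈ L → γ x ∈ L := fun x hx => (hL _).2 (fixL hS ((hL _).1 hx))
  have hγd : ∀ x : Ω, x ∈ L → (γ ^ d) x = x := fun x hx => (hL _).1 hx _ (gamma_d hS)
  have hnL : ∀ (x : L) (hx : x ≠ 0), InL F ζ (Units.mk0 (x : Ω) (fun h => hx (Subtype.ext h))) := by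
    intro x hx g hg
    exact Units.ext ((hL _).1 x.2 g hg)
  have hfd : FiniteDimensional F L := IntermediateField.adjoin.finiteDimensional (Algebra.IsIntegral.isIntegral _)
  -- the restriction of γ
  let s0 : L →ₐ[F] L :=
    { toFun := fun x => ⟨γ x, hγL _ x.2⟩
      map_one' := Subtype.ext (map_one γ)
      map_mul' := fun x y => Subtype.ext (map_mul γ _ _)
      map_zero' := Subtype.ext (map_zero γ)
      map_add' := fun x y => Subtype.ext (map_add γ _ _)
      commutes' := fun f => Subtype.ext (γ.commutes f) }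
  have hs0 : ∀ x : L, ((s0 x : L) : Ω) = γ x := fun x => rfl
  have hs0i : ∀ (i : ℕ) (x : L), (((s0 ^ i) x : L) : Ω) = (γ ^ i) (x : Ω) := by
    intro i
    induction i with
    | zero => intro x; rfl
    | succ i ih =>
      intro x
      rw [pow_succ', pow_succ']
      change ((s0 ((s0 ^ i) x) : L) : Ω) = γ ((γ ^ i) (x : Ω))
      rw [hs0, ih]
  have hdpos : 0 < d := by
    rw [← finrank_L hS]
    exact Module.finrank_pos
  have hbij : Function.Bijective s0 := by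
    refine ⟨s0.toRingHom.injective, fun x => ⟨(s0 ^ (d - 1)) x, ?_⟩⟩
    have h1 : s0 ((s0 ^ (d - 1)) x) = (s0 ^ d) x := by
      conv_rhs => rw [show d = (d - 1) + 1 by omega, pow_succ']
      rfl
    rw [h1]
    refine Subtype.ext ?_
    rw [hs0i, hγd _ x.2]
  let s : L ≃ₐ[F] L := AlgEquiv.ofBijective s0 hbij
  have hs : ∀ x : L, ((s x : L) : Ω) = γ x := fun x => rfl
  have hsi : ∀ (i : ℕ) (x : L), (((s ^ i) x : L) : Ω) = (γ ^ i) (x : Ω) := by
    intro i
    induction i with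
    | zero => intro x; rfl
    | succ i ih =>
      intro x
      rw [pow_succ', pow_succ']
      change ((s ((s ^ i) x) : L) : Ω) = γ ((γ ^ i) (x : Ω))
      rw [hs, ih]
  -- the group of values
  let Q' : AddSubgroup Q :=
    { carrier := {x | ℓ • x = 0}
      zero_mem' := smul_zero _
      add_mem' := fun {x y} hx hy => by
        change ℓ • (x + y) = 0
        rw [smul_add, show ℓ • x = 0 from hx, show ℓ • y = 0 from hy, add_zero]
      neg_mem' := fun {x} hx => by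
        change ℓ • (-x) = 0
        rw [smul_neg, show ℓ • x = 0 from hx, neg_zero] }
  have htors : ∀ t : Q', ℓ • t = 0 := fun t => Subtype.ext t.2
  let β : L → L → Q' := fun x y =>
    if hxy : x ≠ 0 ∧ y ≠ 0 then ⟨B (Units.mk0 (x : Ω) (fun h => hxy.1 (Subtype.ext h)))
      (Units.mk0 (y : Ω) (fun h => hxy.2 (Subtype.ext h))), h.tors _ _ (hnL x hxy.1) (hnL y hxy.2)⟩ else 0
  have hβ : ∀ (x y : L) (hx : x ≠ 0) (hy : y ≠ 0), ((β x y : Q') : Q) =
      B (Units.mk0 (x : Ω) (fun h => hx (Subtype.ext h))) (Units.mk0 (y : Ω) (fun h => hy (Subtype.ext h))) := by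
    intro x y hx hy
    simp only [β, dif_pos (And.intro hx hy)]
  have hg : ∀ x y : L, x ≠ 0 → y ≠ 0 → β (s x) (s y) = k • β x y := by
    intro x y hx hy
    have hsx : s x ≠ 0 := fun h => hx ((map_eq_zero_iff s s.injective).1 h)
    have hsy : s y ≠ 0 := fun h => hy ((map_eq_zero_iff s s.injective).1 h)
    refine Subtype.ext ?_
    rw [AddSubgroup.coe_nsmul, hβ _ _ hsx hsy, hβ _ _ hx hy, ← h.gal _ _ (hnL x hx) (hnL y hy)]
    congr 1 <;> exact Units.ext rfl
  have hgi : ∀ (i : ℕ) (x y : L), x ≠ 0 → y ≠ 0 → β ((s ^ i) x) ((s ^ i) y) = k ^ i • β x y := by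
    intro i
    induction i with
    | zero => intro x y _ _; simp
    | succ i ih =>
      intro x y hx hy
      rw [pow_succ']
      change β (s ((s ^ i) x)) (s ((s ^ i) y)) = _
      rw [hg _ _ (fun h => hx ((map_eq_zero_iff (s ^ i) (s ^ i).injective).1 h))
        (fun h => hy ((map_eq_zero_iff (s ^ i) (s ^ i).injective).1 h)), ih x y hx hy, smul_smul, pow_succ']
  have hζ : (ζ : Ω) ∈ L := IntermediateField.mem_adjoin_simple_self F (ζ : Ω)
  let ζL : L := ⟨ζ, hζ⟩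
  have hprim : IsPrimitiveRoot ζL ℓ := by
    refine IsPrimitiveRoot.of_map_of_injective (f := algebraMap L Ω) ?_ (algebraMap L Ω).injective
    exact IsPrimitiveRoot.coe_units_iff.2 hS.prim
  have htop : Algebra.adjoin F {ζL} = ⊤ :=
    (IntermediateField.adjoin.powerBasis (K := F) (x := (ζ : Ω)) (Algebra.IsIntegral.isIntegral _)).adjoin_gen_eq_top
  have hact : (s ^ i0) ζL = ζL ^ c ^ e := by
    refine Subtype.ext ?_
    rw [hsi]
    have h1 : γ ^ i0 • ζ = ζ ^ c ^ e := by rw [← hi0, hg0]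
    exact congrArg Units.val h1
  have hinF : ∀ (f : F) (hf : algebraMap F L f ≠ 0),
      InF F (Units.mk0 ((algebraMap F L f : L) : Ω) (fun h => hf (Subtype.ext h))) :=
    fun f hf g => Units.ext (g.commutes f)
  have hdat : TopDat F c ℓ e ζL (s ^ i0) β := by
    refine ⟨hcp, hchar, Fact.out, ?_, hcl, hc2, he1, hprim, htop, hact, hcard, htors, ?_, ?_, ?_, ?_, ?_⟩
    · intro h2
      have hodd : Odd ℓ := Fact.out
      rw [h2] at hodd
      exact absurd hodd (by decide)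
    · intro x x' y hx hx' hy
      refine Subtype.ext ?_
      rw [AddSubgroup.coe_add, hβ _ _ (mul_ne_zero hx hx') hy, hβ _ _ hx hy, hβ _ _ hx' hy,
        ← h.add_left _ _ _ (hnL x hx) (hnL x' hx') (hnL y hy)]
      congr 1
      exact Units.ext rfl
    · intro x y y' hx hy hy'
      refine Subtype.ext ?_
      rw [AddSubgroup.coe_add, hβ _ _ hx (mul_ne_zero hy hy'), hβ _ _ hx hy, hβ _ _ hx hy',
        ← h.add_right _ _ _ (hnL x hx) (hnL y hy) (hnL y' hy')]
      congr 1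
      exact Units.ext rfl
    · intro x hx hx1
      have hy : 1 - x ≠ 0 := sub_ne_zero.2 (Ne.symm hx1)
      refine Subtype.ext ?_
      rw [hβ _ _ hx hy, h.stein _ _ (hnL x hx) (hnL _ hy)]
      · rfl
      · have h1 : x + (1 - x) = 1 := by ring
        exact congrArg Subtype.val h1
    · intro f x hf hx
      have hfL : algebraMap F L f ≠ 0 := fun h => hf ((map_eq_zero_iff _ (algebraMap F L).injective).1 h)
      constructor
      · refine Subtype.ext ?_
        rw [hβ _ _ hfL hx, h.base _ _ (hinF f hfL) (hnL x hx)]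
        rfl
      · refine Subtype.ext ?_
        rw [hβ _ _ hx hfL, h.anti (hnL x hx) (hnL _ hfL), h.base _ _ (hinF f hfL) (hnL x hx), neg_zero]
        rfl
    · intro x y hx hy
      rw [hgi i0 x y hx hy]
      obtain ⟨m, hm⟩ : ∃ m : ℤ, ((c ^ e : ℕ) : ℤ) = ((k ^ i0 : ℕ) : ℤ) + ℓ * m := by
        have h1 := (ZMod.intCast_eq_intCast_iff_dvd_sub ((k ^ i0 : ℕ) : ℤ) ((c ^ e : ℕ) : ℤ) ℓ).1 (by
          exact_mod_cast hmod)
        obtain ⟨m, hm⟩ := h1
        exact ⟨m, by linarith⟩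
      have h1 : ((c ^ e : ℕ) : ℤ) • β x y = ((k ^ i0 : ℕ) : ℤ) • β x y := by
        rw [hm, add_smul, mul_comm, mul_smul, natCast_zsmul _ ℓ, htors, smul_zero, add_zero]
      rw [natCast_zsmul, natCast_zsmul] at h1
      exact h1.symm
  have haL : (a : Ω) ∈ L := (hL _).2 fun g hg => congrArg Units.val (ha g hg)
  have hbL : (b : Ω) ∈ L := (hL _).2 fun g hg => congrArg Units.val (hb g hg)
  have haL0 : (⟨a, haL⟩ : L) ≠ 0 := fun h => a.ne_zero (congrArg Subtype.val h)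
  have hbL0 : (⟨b, hbL⟩ : L) ≠ 0 := fun h => b.ne_zero (congrArg Subtype.val h)
  have hmain := hTop F L c ℓ e ζL (s ^ i0) Q' β hdat ⟨a, haL⟩ ⟨b, hbL⟩ haL0 hbL0
  have h3 := hβ ⟨a, haL⟩ ⟨b, hbL⟩ haL0 hbL0
  rw [hmain] at h3
  have h4 : Units.mk0 (a : Ω) a.ne_zero = a := Units.ext rfl
  have h5 : Units.mk0 (b : Ω) b.ne_zero = b := Units.ext rfl
  have h6 : B (Units.mk0 (a : Ω) a.ne_zero) (Units.mk0 (b : Ω) b.ne_zero) = 0 := h3.symm
  rwa [h4, h5] at h6

theorem heartAll_proof (hTop : TopStatement.{u}) (hFld : FldStatement.{u}) : HeartAllStatement.{u} := by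
  intro c ℓ d _ _ hcp hcl hd1
  by_cases hc2 : ℓ ∣ c ^ 2 - 1
  · intro F Ω _ _ _ _ _ hchar ζ γ k Q _ sym Γ hS
    obtain ⟨hall, -⟩ := hFld F Ω c ℓ ζ hcp hchar Fact.out hcl hS.prim
    obtain ⟨j, hj⟩ := hall γ
    have hc1 : ((c : ℕ) : ZMod ℓ) ^ 2 = 1 := by
      have h1 : ((c ^ 2 - 1 : ℕ) : ZMod ℓ) = 0 := (ZMod.natCast_eq_zero_iff _ _).2 hc2
      rw [Nat.cast_sub (Nat.one_le_pow _ _ hcp.pos)] at h1
      push_cast at h1
      exact sub_eq_zero.1 h1
    have hk : (k : ZMod ℓ) = (c : ZMod ℓ) ^ j := by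
      have h1 : ζ ^ k = ζ ^ c ^ j := by rw [← hS.act, hj]
      have h5 := pow_eq_pow_iff_modEq.1 h1
      rw [← hS.prim.eq_orderOf] at h5
      have h6 := (ZMod.natCast_eq_natCast_iff _ _ _).2 h5
      push_cast at h6
      exact h6
    have hk2 : (k : ZMod ℓ) ^ 2 = 1 := by
      rw [hk, ← pow_mul, mul_comm, pow_mul, hc1, one_pow]
    have hd2 : d ≤ 2 := by
      rw [← hS.ord]
      exact orderOf_le_of_pow_eq_one (by norm_num) hk2
    exact BRP.H50.Full.heart hd1 (by omega) F Ω ζ γ k Q sym Γ hS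
  · exact heartAll_top c ℓ d hcp hcl hc2 hTop hFld

end CL
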