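import Pool.Agent.Lib.MP_defcf3_al.CL.IfaceB
import Pool.Agent.Lib.MP_defcf3_al.BRP.Base

/-!
Project CL (MP_defcf3_al), part (C): from (S_n) to the Brumer-Rosen alternative for all fields of characteristic c > 0.
c is the characteristic, ℓ the odd prime exponent.
-/

open Polynomial BR7 BRP

namespace CL

universe u

/-- The data of the top level over a field of characteristic c: L = F(ζ), the symbol b of weight c^e for γ. -/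
structure TopDat (F : Type u) {L : Type u} [Field F] [Field L] [Algebra F L] (c ℓ e : ℕ) (ζ : L) (γ : L ≃ₐ[F] L)
    {T : Type u} [AddCommGroup T] (b : L → L → T) : Prop where
  cpr : c.Prime
  chr : CharP F c
  lpr : ℓ.Prime
  two : ℓ ≠ 2
  cl : c ≠ ℓ
  c2 : ¬ ℓ ∣ c ^ 2 - 1
  epos : 1 ≤ e
  prim : IsPrimitiveRoot ζ ℓ
  top : Algebra.adjoin F {ζ} = ⊤
  act : γ ζ = ζ ^ c ^ e
  fq : Nat.card {x : F // x ^ c ^ e = x} = c ^ e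
  tors : ∀ t : T, ℓ • t = 0
  mull : ∀ x y z : L, x ≠ 0 → y ≠ 0 → z ≠ 0 → b (x * y) z = b x z + b y z
  mulr : ∀ x y z : L, x ≠ 0 → y ≠ 0 → z ≠ 0 → b x (y * z) = b x y + b x z
  st : ∀ x : L, x ≠ 0 → x ≠ 1 → b x (1 - x) = 0
  base : ∀ (a : F) (x : L), a ≠ 0 → x ≠ 0 → b (algebraMap F L a) x = 0 ∧ b x (algebraMap F L a) = 0
  wt : ∀ x y : L, x ≠ 0 → y ≠ 0 → b (γ x) (γ y) = (c ^ e) • b x y

/-- The top level over a perfect field (from FinBStatement with Z = {⊤}, θ = ζ, n = nn F ζ). -/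
def TopPerfStatement : Prop := ∀ (F L : Type u) [Field F] [Field L] [Algebra F L] [FiniteDimensional F L]
  (c ℓ e : ℕ) (ζ : L) (γ : L ≃ₐ[F] L) (T : Type u) [AddCommGroup T] (b : L → L → T),
  (∀ x : F, ∃ y : F, y ^ c = x) → TopDat F c ℓ e ζ γ b → ∀ x y : L, x ≠ 0 → y ≠ 0 → b x y = 0

/-- The top level over any field of characteristic c (perfect closure). -/
def TopStatement : Prop := ∀ (F L : Type u) [Field F] [Field L] [Algebra F L] [FiniteDimensional F L]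
  (c ℓ e : ℕ) (ζ : L) (γ : L ≃ₐ[F] L) (T : Type u) [AddCommGroup T] (b : L → L → T),
  TopDat F c ℓ e ζ γ b → ∀ x y : L, x ≠ 0 → y ≠ 0 → b x y = 0

/-- Galois action on the roots of unity in characteristic c: powers of Frobenius. -/
def FldStatement : Prop := ∀ (F Ω : Type u) [Field F] [Field Ω] [Algebra F Ω] [IsGalois F Ω] [IsSepClosed Ω]
  (c ℓ : ℕ) (ζ : Ωˣ), c.Prime → CharP F c → ℓ.Prime → c ≠ ℓ → IsPrimitiveRoot ζ ℓ →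
  (∀ g : Ω ≃ₐ[F] Ω, ∃ j : ℕ, g • ζ = ζ ^ c ^ j) ∧
  ∃ (e : ℕ) (g : Ω ≃ₐ[F] Ω), 1 ≤ e ∧ g • ζ = ζ ^ c ^ e ∧ Nat.card {x : F // x ^ c ^ e = x} = c ^ e

/-- The heart in characteristic c. -/
def HeartPosStatement (c ℓ d : ℕ) [Fact ℓ.Prime] [Fact (Odd ℓ)] : Prop :=
  ∀ (F Ω : Type u) [Field F] [Field Ω] [Algebra F Ω] [IsGalois F Ω] [IsSepClosed Ω] [CharP F c] (ζ : Ωˣ)
    (γ : Ω ≃ₐ[F] Ω) (k : ℕ) (Q : Type u) [AddCommGroup Q] (sym : Ωˣ → Ωˣ → Q) (Γ : AddMonoid.End Q),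
    SymAx ℓ F ζ γ k d sym Γ → NormZero F ζ d sym Γ

/-- The heart in characteristic c, for all d: from Top, Fld and the known heart for d at most 2 (case ℓ | c^2 - 1). -/
def HeartAllStatement : Prop := ∀ (c ℓ d : ℕ) [Fact ℓ.Prime] [Fact (Odd ℓ)], c.Prime → c ≠ ℓ → 1 ≤ d →
  HeartPosStatement.{u} c ℓ d

/-- MainC in characteristic c. -/
def MainCPosStatement (c ℓ d : ℕ) [Fact ℓ.Prime] [Fact (Odd ℓ)] : Prop :=
  ∀ (F Ω : Type u) [Field F] [Field Ω] [Algebra F Ω] [IsGalois F Ω] [IsSepClosed Ω] [CharP F c] (ζ : Ωˣ),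
    IsPrimitiveRoot ζ ℓ → (HZ F ζ).index = d → ∀ x ∈ Z2 (Ω ≃ₐ[F] Ω) Ωˣ,
    cls (HZ F ζ) Ωˣ (fun g h : HZ F ζ => x g h) ∈
      Subgroup.closure {s | ∃ a b : Ωˣ, InL F ζ a ∧ InL F ζ b ∧ s = symb ℓ F ζ a b} →
    cls (HZ F ζ) Ωˣ (fun g h : HZ F ζ => x g h) ∈
      Subgroup.closure {s | ∃ (a : Ωˣ) (χ : (Ω ≃ₐ[F] Ω) → ZMod ℓ), InF F a ∧
        (∀ g h, χ (g * h) = χ g + χ h) ∧ IsLocallyConstant χ ∧
        s = cls (HZ F ζ) Ωˣ (cup ℓ a (fun h : HZ F ζ => χ h))}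

/-- CohS in characteristic c. -/
def CohSPosStatement (c ℓ d : ℕ) [Fact ℓ.Prime] [Fact (Odd ℓ)] : Prop :=
  ∀ (F Ω : Type u) [Field F] [Field Ω] [Algebra F Ω] [IsGalois F Ω] [IsSepClosed Ω] [CharP F c] (ζ : Ωˣ),
    IsPrimitiveRoot ζ ℓ → (HZ F ζ).index = d → ∀ x ∈ Z2 (Ω ≃ₐ[F] Ω) Ωˣ, cls (Ω ≃ₐ[F] Ω) Ωˣ x ^ ℓ = 1 →
    cls (HZ F ζ) Ωˣ (fun g h : HZ F ζ => x g h) ∈
      Subgroup.closure {s | ∃ a b : Ωˣ, InL F ζ a ∧ InL F ζ b ∧ s = symb ℓ F ζ a b} →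
    cls (Ω ≃ₐ[F] Ω) Ωˣ x ∈ Subgroup.closure {s | ∃ (a : Ωˣ) (χ : (Ω ≃ₐ[F] Ω) → ZMod ℓ), InF F a ∧
        (∀ g h, χ (g * h) = χ g + χ h) ∧ IsLocallyConstant χ ∧ s = cls (Ω ≃ₐ[F] Ω) Ωˣ (cup ℓ a χ)}

end CL
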