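import Pool.Agent.Lib.MP_defcf3_al.BRP.H50.Full2
import Pool.Agent.Lib.MP_defcf3_al.CL.IfaceC

/-!
Project CL (MP_defcf3_al), part (C), row MainCPos: the cohomological theorem and the final theorems in characteristic
c > 0, without a bound on the degree d.
-/

open scoped TensorProduct

namespace CL

universe u

namespace H50P

variable {ℓ : ℕ} [Fact ℓ.Prime] [Fact (Odd ℓ)]

open BR7 BR7.H50 BRP BRP.H50

/-- MAINC in characteristic c. -/
theorem mainCPos_aux {c d : ℕ} (hd0 : d ≠ 0) (hAdd : SymAddStatement.{u} ℓ) (hSt : SymSteinStatement.{u} ℓ)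
    (hGa : SymGalStatement.{u} ℓ) (hTr : TrivCStatement.{u} ℓ)
    (hDisc : DiscStatement.{u}) (hConj : ConjCStatement.{u}) (hRes : ConjResStatement.{u})
    (hOne : CupResZ.{u} ℓ) (hHeart : HeartPosStatement.{u} c ℓ d) : MainCPosStatement.{u} c ℓ d := by
  intro F Ω _ _ _ _ _ _ ζ hp hidx x hx hS
  obtain ⟨γ, k, hord, hγ, hgen⟩ := exists_gamma (F := F) hp
  rw [hidx] at hord hgen
  have hC := hConj (Ω ≃ₐ[F] Ω) Ωˣ (hDisc F Ω) (HZ F ζ) γ (HZ_normal hγ)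
  have hΓ := fun f hf => mapH2_cls (HZ F ζ) (conjC (HZ F ζ) γ (HZ_normal hγ)) hC.1 hC.2 (f := f) hf
  generalize mapH2 (HZ F ζ) (conjC (HZ F ζ) γ (HZ_normal hγ)) hC.1 hC.2 = Γ at hΓ
  have hfix : ∀ y ∈ Z2 (Ω ≃ₐ[F] Ω) Ωˣ, Γ (cls (HZ F ζ) Ωˣ (fun g h : HZ F ζ => y g h)) =
      cls (HZ F ζ) Ωˣ (fun g h : HZ F ζ => y g h) := by
    intro y hy
    have hXZ := res_Z2 (HZ F ζ) hy
    rw [hΓ _ hXZ, cls_eq_iff (hC.1 _ hXZ) hXZ]
    exact hRes (Ω ≃ₐ[F] Ω) Ωˣ (hDisc F Ω) (HZ F ζ) γ (HZ_normal hγ) y hy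
  set S : Set (H2 (HZ F ζ) Ωˣ) := {s | ∃ (a : Ωˣ) (χ : (Ω ≃ₐ[F] Ω) → ZMod ℓ), InF F a ∧
        (∀ g h, χ (g * h) = χ g + χ h) ∧ IsLocallyConstant χ ∧
        s = cls (HZ F ζ) Ωˣ (cup ℓ a (fun h : HZ F ζ => χ h))} with hSdef
  have hSfix : ∀ s ∈ S, Γ s = s := by
    rintro s ⟨a, χ, ha, hχ, hχc, rfl⟩
    exact hfix (cup ℓ a χ) (hOne F Ω a χ ha hχ hχc)
  have hCl : ∀ c ∈ Subgroup.closure S, Γ c ∈ Subgroup.closure S := by
    intro c hc
    induction hc using Subgroup.closure_induction with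
    | mem s hs => rw [hSfix s hs]; exact Subgroup.subset_closure hs
    | one => rw [map_one]; exact one_mem _
    | mul a b _ _ iha ihb => rw [map_mul]; exact mul_mem iha ihb
    | inv a _ iha => rw [map_inv]; exact inv_mem iha
  obtain ⟨M', _, π, Γ', hπ, hΓ'⟩ := quot_induced (M := H2 (HZ F ζ) Ωˣ) (Subgroup.closure S) Γ hCl
  have hpowk : ∀ i : ℕ, (γ ^ i) • ζ = ζ ^ (k ^ i) := by
    intro i
    induction i with
    | zero => simp
    | succ i ih => rw [pow_succ', mul_smul, ih, smul_pow', hγ, ← pow_mul, pow_succ']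
  have hH : ∀ i : ℕ, ∀ h ∈ HZ F ζ, (γ ^ i)⁻¹ * h * γ ^ i ∈ HZ F ζ := fun i => HZ_normal (hpowk i)
  have hinj := hinj_of (F := F) hp hγ hord
  have hnorm : ∀ g : Ω ≃ₐ[F] Ω, ∃! i : Fin d, g • ζ = (γ ^ (i : ℕ)) • ζ := by
    intro g
    obtain ⟨i, hi, he⟩ := hgen g
    refine ⟨⟨i, hi⟩, he, ?_⟩
    rintro ⟨j, hj⟩ hj2
    exact Fin.ext (hinj j i hj hi (hj2.symm.trans he))
  obtain ⟨hZ, -, -, ha3⟩ := hAdd F Ω ζ hp
  have hcZ : ∀ c ∈ Z2 (HZ F ζ) Ωˣ, ∀ i : ℕ, conjC (HZ F ζ) (γ ^ i) (hH i) c ∈ Z2 (HZ F ζ) Ωˣ := by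
    intro c hc i
    exact (hConj (Ω ≃ₐ[F] Ω) Ωˣ (hDisc F Ω) (HZ F ζ) (γ ^ i) (hH i)).1 c hc
  have htriv : ∀ f l : Ωˣ, InF F f → InL F ζ l →
      π (cls (HZ F ζ) Ωˣ (∏ i : Fin d, conjC (HZ F ζ) (γ ^ (i : ℕ)) (hH i) (cup ℓ f (kum ℓ F ζ l)))) = 1 := by
    intro f l hf hl
    have hfl : InL F ζ f := fun g _ => hf g
    have hfZ := hZ f l hfl hl
    obtain ⟨χ, hχ, hχc, hB⟩ := hTr F Ω ζ hp γ d hH hnorm f l hf hl
    have hχZ : cup ℓ f (fun h : HZ F ζ => χ h) ∈ Z2 (HZ F ζ) Ωˣ :=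
      res_Z2 (HZ F ζ) (hOne F Ω f χ hf hχ hχc)
    rw [(cls_eq_iff (prod_mem fun i _ => hcZ _ hfZ _) hχZ).mpr hB]
    rw [hπ]
    exact Subgroup.subset_closure ⟨f, χ, hf, hχ, hχc, rfl⟩
  have hsym := symAxQ hAdd hSt hGa hDisc hConj ζ hp γ k d hγ hord hgen Γ hΓ M' π Γ' hΓ' hH htriv
  have hnz : NormZero F ζ d (Q := Additive M')
      (fun a b => Additive.ofMul (π (symb ℓ F ζ a b))) (endA Γ') := by
    exact hHeart F Ω ζ γ k _ _ _ hsym
  have hco : Nat.Coprime d ℓ := coprime_of hord hd0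
  have hfin := kill (M := M')
    (π '' {s | ∃ a b : Ωˣ, InL F ζ a ∧ InL F ζ b ∧ s = symb ℓ F ζ a b})
    d hco Γ' ?_ ?_ (π (cls (HZ F ζ) Ωˣ (fun g h : HZ F ζ => x g h))) ?_ ?_
  · rwa [hπ] at hfin
  · rintro s ⟨_, ⟨a, b, ha, hb, rfl⟩, rfl⟩
    exact hnz a b ha hb
  · rintro s ⟨_, ⟨a, b, ha, hb, rfl⟩, rfl⟩
    rw [← map_pow, ha3 a b ha hb, map_one]
  · rw [← MonoidHom.map_closure]
    exact Subgroup.mem_map_of_mem _ hS
  · rw [hΓ', hfix x hx]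

/-- COHS in characteristic c. -/
theorem cohSPos_aux {c d : ℕ} (hMC : MainCPosStatement.{u} c ℓ d) (hCor : CorResStatement.{u}) (hIdx : IndexStatement.{u} ℓ)
    (hDisc : DiscStatement.{u}) (hGZ : GcupZStatement.{u}) (hTo : GcupTorsStatement.{u}) :
    CohSPosStatement.{u} c ℓ d := by
  intro F Ω _ _ _ _ _ _ ζ hp hd x hx hx7 hS
  have hD := hDisc F Ω
  have h1 := hMC F Ω ζ hp hd x hx hS
  have hlift : ∀ c ∈ Subgroup.closure {s | ∃ (a : Ωˣ) (χ : (Ω ≃ₐ[F] Ω) → ZMod ℓ), InF F a ∧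
        (∀ g h, χ (g * h) = χ g + χ h) ∧ IsLocallyConstant χ ∧
        s = cls (HZ F ζ) Ωˣ (cup ℓ a (fun h : HZ F ζ => χ h))},
      ∃ y ∈ Z2 (Ω ≃ₐ[F] Ω) Ωˣ, cls (Ω ≃ₐ[F] Ω) Ωˣ y ∈
        Subgroup.closure {s | ∃ (a : Ωˣ) (χ : (Ω ≃ₐ[F] Ω) → ZMod ℓ), InF F a ∧
        (∀ g h, χ (g * h) = χ g + χ h) ∧ IsLocallyConstant χ ∧ s = cls (Ω ≃ₐ[F] Ω) Ωˣ (cup ℓ a χ)} ∧
        cls (HZ F ζ) Ωˣ (fun g h : HZ F ζ => y g h) = c := by
    intro c hc
    induction hc using Subgroup.closure_induction with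
    | mem s hs =>
      obtain ⟨a, χ, ha, hχ, hχc, rfl⟩ := hs
      exact ⟨cup ℓ a χ, cupResZ hGZ hDisc F Ω a χ ha hχ hχc,
        Subgroup.subset_closure ⟨a, χ, ha, hχ, hχc, rfl⟩, rfl⟩
    | one =>
      refine ⟨1, one_mem _, ?_, ?_⟩
      · rw [(cls_one_iff (one_mem _)).mpr (one_mem _)]
        exact one_mem _
      · exact (cls_one_iff (one_mem _)).mpr (one_mem _)
    | mul s t _ _ ihs iht =>
      obtain ⟨y, hy, hy2, hy3⟩ := ihs
      obtain ⟨z, hz, hz2, hz3⟩ := iht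
      refine ⟨y * z, mul_mem hy hz, ?_, ?_⟩
      · rw [cls_mul hy hz]
        exact mul_mem hy2 hz2
      · rw [← hy3, ← hz3, ← cls_mul (res_Z2 _ hy) (res_Z2 _ hz)]
        rfl
    | inv s _ ihs =>
      obtain ⟨y, hy, hy2, hy3⟩ := ihs
      refine ⟨y⁻¹, inv_mem hy, ?_, ?_⟩
      · rw [cls_inv hy]
        exact inv_mem hy2
      · rw [← hy3, ← cls_inv (res_Z2 _ hy)]
        rfl
  obtain ⟨y, hy, hy2, hy3⟩ := hlift _ h1
  have hy7 : ∀ c ∈ Subgroup.closure {s | ∃ (a : Ωˣ) (χ : (Ω ≃ₐ[F] Ω) → ZMod ℓ), InF F a ∧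
        (∀ g h, χ (g * h) = χ g + χ h) ∧ IsLocallyConstant χ ∧ s = cls (Ω ≃ₐ[F] Ω) Ωˣ (cup ℓ a χ)},
      c ^ ℓ = 1 := by
    intro c hc
    induction hc using Subgroup.closure_induction with
    | mem s hs =>
      obtain ⟨a, χ, ha, hχ, hχc, rfl⟩ := hs
      have hZ := cupResZ hGZ hDisc F Ω a χ ha hχ hχc
      rw [← cls_pow hZ, cls_one_iff (pow_mem hZ ℓ)]
      exact BRP.H38.cup_tors hTo hD ℓ a ha χ hχ hχc
    | one => exact one_pow ℓ
    | mul s t _ _ ihs iht => exact mul_pow_seven s t ihs iht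
    | inv s _ ihs => exact inv_pow_seven s ihs
  have hres : (fun g h : HZ F ζ => (x * y⁻¹) g h) ∈ B2 (HZ F ζ) Ωˣ := by
    have := (cls_eq_iff (res_Z2 (HZ F ζ) hx) (res_Z2 (HZ F ζ) hy)).mp hy3.symm
    exact this
  obtain ⟨i1, i2, i3⟩ := hIdx F Ω ζ hp ⊤ isOpen_univ
  rw [top_inf_eq] at i1 i2 i3
  rw [Subgroup.relIndex_top_right] at i3
  have hcor := hCor (Ω ≃ₐ[F] Ω) Ωˣ hD (HZ F ζ) i1 i2 (x * y⁻¹) (mul_mem hx (inv_mem hy)) hres
  have e1 : cls (Ω ≃ₐ[F] Ω) Ωˣ (x * y⁻¹) ^ (HZ F ζ).index = 1 := by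
    rw [← cls_pow (mul_mem hx (inv_mem hy)), cls_one_iff (pow_mem (mul_mem hx (inv_mem hy)) _)]
    exact hcor
  have e2 : cls (Ω ≃ₐ[F] Ω) Ωˣ (x * y⁻¹) ^ ℓ = 1 := by
    rw [cls_mul hx (inv_mem hy), cls_inv hy]
    exact mul_pow_seven _ _ hx7 (inv_pow_seven _ (hy7 _ hy2))
  have e4 := gcd_seven _ _ i3 e1 e2
  rw [cls_one_iff (mul_mem hx (inv_mem hy)), ← cls_eq_iff hx hy] at e4
  rw [e4]
  exact hy2

/-- The class over F of an algebra which becomes a product of algebras of degree ℓ over F(ζ). -/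
theorem classGPos_aux {c d : ℕ} (hCohS : CohSPosStatement.{u} c ℓ d) (hCohC1 : CohCStatement.{u} ℓ 1)
    (hDiv : DivSevenStatement.{u} ℓ) (hDet : DetStatement.{u})
    (hBL : BaseLStatement.{u, 0}) (hLT : LTransStatement.{u} ℓ) (hSadd : SymAddStatement.{u} ℓ)
    (hCR : CorResStatement.{u}) (hInd : IndexStatement.{u} ℓ)
    (hRepEx : RepExStatement.{u}) (hRepZ : RepZStatement.{u, 0}) (hOp : RepOpStatement.{u, 0})
    (hOne : RepOneStatement.{u}) (hGZ : GcupZStatement.{u}) (hDisc : DiscStatement.{u})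
    (hPi : PiStatement.{u}) (hDeg : DegSevenStatement.{u} ℓ) (hUniq : UniqStatement.{u}) :
    ∀ (F L : Type u) [Field F] [Field L] [Algebra F L] [CharP F c], ((ℓ : ℕ) : F) ≠ 0 → IsCyclotomicExtension {ℓ} F L →
      Module.finrank F L = d →
      ∀ (A : Type u) [Ring A] [Algebra F A] [Algebra.IsCentral F A] [IsSimpleRing A] (m : ℕ),
      Module.finrank F A = (ℓ ^ 2) ^ m →
      ∀ (k : ℕ) (B : Fin k → Type u) [∀ i, Ring (B i)] [∀ i, Algebra L (B i)],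
      (∀ i, Algebra.IsCentral L (B i) ∧ IsSimpleRing (B i) ∧ Module.finrank L (B i) = ℓ ^ 2) →
      (∃ p q : ℕ, p ≠ 0 ∧ q ≠ 0 ∧
        Nonempty (Matrix (Fin p) (Fin p) (L ⊗[F] A) ≃ₐ[L] Matrix (Fin q) (Fin q) (⨂[L] i, B i))) →
      ∃ (n : ℕ) (f : (SeparableClosure F ≃ₐ[F] SeparableClosure F) →
        (SeparableClosure F ≃ₐ[F] SeparableClosure F) → (SeparableClosure F)ˣ),
        n ≠ 0 ∧ Nonempty (RepData F (SeparableClosure F) A (Fin n) f) ∧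
        cls (SeparableClosure F ≃ₐ[F] SeparableClosure F) (SeparableClosure F)ˣ f ∈
          cycGrp ℓ F (SeparableClosure F) := by
  intro F L _ _ _ _ h7 hL hd A _ _ _ _ m hA k B _ _ hB ⟨p, q, hp, hq, ⟨e⟩⟩
  have hl0 := (Fact.out : Nat.Prime ℓ).ne_zero
  have : NeZero ((ℓ : ℕ) : F) := ⟨h7⟩
  have hfd : FiniteDimensional F A := Module.finite_of_finrank_pos (by rw [hA]; positivity)
  have hfdL : FiniteDimensional F L := IsCyclotomicExtension.finiteDimensional {ℓ} F L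
  have hsep : Algebra.IsSeparable F L := IsCyclotomicExtension.isSeparable {ℓ} F L
  have h7L : ((ℓ : ℕ) : L) ≠ 0 := by
    rw [← map_natCast (algebraMap F L) ℓ]
    exact (map_ne_zero (algebraMap F L)).mpr h7
  -- embed L into the separable closure of F
  let φ : L →ₐ[F] SeparableClosure F := IsSepClosed.lift
  letI : Algebra L (SeparableClosure F) := φ.toRingHom.toAlgebra
  haveI : IsScalarTower F L (SeparableClosure F) := IsScalarTower.of_algebraMap_eq' φ.comp_algebraMap.symm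
  haveI : IsGalois L (SeparableClosure F) := IsGalois.tower_top_of_isGalois F L (SeparableClosure F)
  obtain ⟨n, f, ⟨R⟩⟩ := hRepEx F (SeparableClosure F) A
  have hZ := hRepZ F (SeparableClosure F) A (Fin n) f R
  have hn0 : n ≠ 0 := by
    rintro rfl
    obtain ⟨i⟩ := R.ne
    exact i.elim0
  have hn : n = ℓ ^ m := by
    have h1 := R.dim
    rw [hA, Fintype.card_fin] at h1
    have h2 : n ^ 2 = (ℓ ^ m) ^ 2 := by
      rw [← h1, ← pow_mul, ← pow_mul, mul_comm 2 m]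
    exact deg_eq h2
  obtain ⟨RL⟩ := hBL F L (SeparableClosure F) A (Fin n) f R
  have hζ1 : ∃ ζ : (SeparableClosure F)ˣ, IsPrimitiveRoot ζ ℓ ∧ (HZ F ζ).index = Module.finrank F L := by
    obtain ⟨ζ, hζ⟩ := exists_zeta (ℓ := ℓ) F h7
    exact ⟨ζ, hζ, index_HZ hζ hL φ⟩
  obtain ⟨ζ, hζ, hidx⟩ := hζ1
  have hidxL : (HZ L ζ).index = 1 := index_one hζ hL
  -- the algebras over L
  have hBi : ∀ i, ∃ fi : (SeparableClosure F ≃ₐ[L] SeparableClosure F) →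
      (SeparableClosure F ≃ₐ[L] SeparableClosure F) → (SeparableClosure F)ˣ,
      Nonempty (RepData L (SeparableClosure F) (B i) (Fin ℓ) fi) := by
    intro i
    obtain ⟨b1, b2, b3⟩ := hB i
    haveI : FiniteDimensional L (B i) := Module.finite_of_finrank_pos (by rw [b3]; positivity)
    obtain ⟨ni, fi, ⟨Ri⟩⟩ := hRepEx L (SeparableClosure F) (B i)
    have hni : ni = ℓ := by
      have h1 := Ri.dim
      rw [b3, Fintype.card_fin] at h1
      exact deg_eq h1.symm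
    rw [hni] at Ri
    exact ⟨fi, ⟨Ri⟩⟩
  choose fB hRB using hBi
  have hZB : ∀ i, fB i ∈ Z2 (SeparableClosure F ≃ₐ[L] SeparableClosure F) (SeparableClosure F)ˣ := by
    intro i
    obtain ⟨Ri⟩ := hRB i
    exact hRepZ L (SeparableClosure F) (B i) (Fin ℓ) (fB i) Ri
  have hcB : ∀ i, cls (SeparableClosure F ≃ₐ[L] SeparableClosure F) (SeparableClosure F)ˣ (fB i) ∈
      cycGrp ℓ L (SeparableClosure F) := by
    intro i
    obtain ⟨b1, b2, b3⟩ := hB i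
    obtain ⟨Ri⟩ := hRB i
    exact deg_class hCohC1 hDiv hRepZ hOp hOne hUniq hDeg h7L hζ hidxL (B i) b3 (fB i) Ri
  have hprod : ∀ s : Finset (Fin k), (∏ i ∈ s, fB i) ∈
      Z2 (SeparableClosure F ≃ₐ[L] SeparableClosure F) (SeparableClosure F)ˣ ∧
      cls (SeparableClosure F ≃ₐ[L] SeparableClosure F) (SeparableClosure F)ˣ (∏ i ∈ s, fB i) ∈
      cycGrp ℓ L (SeparableClosure F) := by
    intro s
    induction s using Finset.induction_on with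
    | empty =>
      rw [Finset.prod_empty]
      refine ⟨one_mem _, ?_⟩
      rw [(cls_one_iff (one_mem _)).mpr (one_mem _)]
      exact one_mem _
    | insert i s his ih =>
      rw [Finset.prod_insert his]
      refine ⟨mul_mem (hZB i) ih.1, ?_⟩
      rw [cls_mul (hZB i) ih.1]
      exact mul_mem (hcB i) ih.2
  have hcZL := fun a χ ha hχ hχc => cupResZ (ℓ := ℓ) hGZ hDisc L (SeparableClosure F) a χ ha hχ hχc
  obtain ⟨k', a, χ, c1, c2, c3, -, c5⟩ := list_form hcZL _ (hprod Finset.univ).2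
  have hcupZ : (∏ i, cup ℓ (a i) (χ i)) ∈ Z2 (SeparableClosure F ≃ₐ[L] SeparableClosure F)
      (SeparableClosure F)ˣ := prod_mem fun i _ => hcZL _ _ (c1 i) (c2 i) (c3 i)
  obtain ⟨P⟩ := hPi L (SeparableClosure F) k B (fun _ => ℓ) fB hRB
  obtain ⟨P'⟩ := (hOp L (SeparableClosure F) _ _ _ P).1 (Fin (ℓ ^ k)) (Fintype.equivOfCardEq (by
      rw [Fintype.card_pi, Finset.prod_const, Fintype.card_fin, Fintype.card_fin,
        Finset.card_univ, Fintype.card_fin]))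
  have hU := hUniq L (SeparableClosure F) (L ⊗[F] A) (⨂[L] i, B i) n (ℓ ^ k) _ _ RL P' p q hp hq e
  have hU2 : (fun g h : SeparableClosure F ≃ₐ[L] SeparableClosure F =>
      f (g.restrictScalars F) (h.restrictScalars F)) * (∏ i, cup ℓ (a i) (χ i))⁻¹ ∈
      B2 (SeparableClosure F ≃ₐ[L] SeparableClosure F) (SeparableClosure F)ˣ := by
    have h1 : (∏ i, fB i) * (∏ i, cup ℓ (a i) (χ i))⁻¹ ∈
        B2 (SeparableClosure F ≃ₐ[L] SeparableClosure F) (SeparableClosure F)ˣ :=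
      (cls_eq_iff (hprod Finset.univ).1 hcupZ).mp c5
    have h2 := mul_mem hU h1
    rw [mul_assoc, inv_mul_cancel_left] at h2
    exact h2
  have hS := hLT F L (SeparableClosure F) ζ hζ hL f hZ k' a χ c1 c2 c3 hU2
  -- the class has order dividing ℓ
  obtain ⟨i1, i2, i3⟩ := hInd F (SeparableClosure F) ζ hζ ⊤ isOpen_univ
  rw [top_inf_eq] at i1 i2 i3
  rw [Subgroup.relIndex_top_right] at i3
  have h7L : cls (HZ F ζ) (SeparableClosure F)ˣ (fun g h : HZ F ζ => f g h) ^ ℓ = 1 := by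
    refine Subgroup.closure_induction (p := fun x _ => x ^ ℓ = 1) ?_ ?_ ?_ ?_ hS
    · rintro s ⟨a, b, ha, hb, rfl⟩
      exact (hSadd F (SeparableClosure F) ζ hζ).2.2.2 a b ha hb
    · exact one_pow _
    · intro x y _ _ hx hy
      have hc : Commute x y := by
        obtain ⟨x', rfl⟩ := QuotientGroup.mk_surjective x
        obtain ⟨y', rfl⟩ := QuotientGroup.mk_surjective y
        show (QuotientGroup.mk (x' * y') : H2 (HZ F ζ) (SeparableClosure F)ˣ) = QuotientGroup.mk (y' * x')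
        rw [mul_comm]
      exact BRP.H50.mul_pow_one x y hc ℓ hx hy
    · intro x _ hx
      rw [inv_pow, hx, inv_one]
  have h7c : cls (SeparableClosure F ≃ₐ[F] SeparableClosure F) (SeparableClosure F)ˣ f ^ ℓ = 1 := by
    have r1 : (fun g h : HZ F ζ => (f ^ ℓ) g h) ∈ B2 (HZ F ζ) (SeparableClosure F)ˣ := by
      have h1 : (fun g h : HZ F ζ => (f ^ ℓ) g h) = (fun g h : HZ F ζ => f g h) ^ ℓ := rfl
      rw [h1, ← cls_one_iff (pow_mem (res_Z2 _ hZ) _), cls_pow (res_Z2 _ hZ)]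
      exact h7L
    have r2 := hCR (SeparableClosure F ≃ₐ[F] SeparableClosure F) (SeparableClosure F)ˣ
      (hDisc F (SeparableClosure F)) (HZ F ζ) i1 i2 (f ^ ℓ) (pow_mem hZ ℓ) r1
    rw [← cls_one_iff (pow_mem (pow_mem hZ _) _), cls_pow (pow_mem hZ _), cls_pow hZ] at r2
    have r3 := hDet F (SeparableClosure F) A n f R
    rw [← cls_one_iff (pow_mem hZ _), cls_pow hZ, hn] at r3
    refine BRP.H50.coprime_kill _ _ (ℓ ^ m) (Nat.Coprime.pow_right m i3) r2 ?_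
    rw [← pow_mul, mul_comm, pow_mul, r3, one_pow]
  exact ⟨n, f, hn0, ⟨R⟩, hCohS F (SeparableClosure F) ζ hζ (hidx.trans hd) f hZ h7c hS⟩

end H50P

section

variable {ℓ : ℕ} [Fact ℓ.Prime] [Fact (Odd ℓ)]

open BR7 BRP BRP.H50.Full

/-- MainC in characteristic c. -/
theorem mainCPos_proof {c d : ℕ} (hd1 : 1 ≤ d) (hH : HeartPosStatement.{u} c ℓ d) : MainCPosStatement.{u} c ℓ d :=
  H50P.mainCPos_aux (by omega) sadd sstein sgal trivc H4.disc BR7.H38.conjc (BR7.H38.conjres BR7.H38.bz)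
    (BRP.H50.cupResZ BR7.H38.gz H4.disc) hH

/-- CohS in characteristic c. -/
theorem cohSPos_proof {c d : ℕ} (hd1 : 1 ≤ d) (hH : HeartPosStatement.{u} c ℓ d) : CohSPosStatement.{u} c ℓ d :=
  H50P.cohSPos_aux (mainCPos_proof hd1 hH) BR7.H38.corres BRP.H38.index H4.disc BR7.H38.gz BR7.H38.gtors

/-- The class over F of an algebra which becomes a product of algebras of degree ℓ over F(ζ). -/
theorem classGPos {c d : ℕ} (hd1 : 1 ≤ d) (hH : HeartPosStatement.{u} c ℓ d) :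
    ∀ (F L : Type u) [Field F] [Field L] [Algebra F L] [CharP F c], ((ℓ : ℕ) : F) ≠ 0 →
      IsCyclotomicExtension {ℓ} F L → Module.finrank F L = d →
      ∀ (A : Type u) [Ring A] [Algebra F A] [Algebra.IsCentral F A] [IsSimpleRing A] (m : ℕ),
      Module.finrank F A = (ℓ ^ 2) ^ m →
      ∀ (k : ℕ) (B : Fin k → Type u) [∀ i, Ring (B i)] [∀ i, Algebra L (B i)],
      (∀ i, Algebra.IsCentral L (B i) ∧ IsSimpleRing (B i) ∧ Module.finrank L (B i) = ℓ ^ 2) →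
      (∃ p q : ℕ, p ≠ 0 ∧ q ≠ 0 ∧
        Nonempty (Matrix (Fin p) (Fin p) (L ⊗[F] A) ≃ₐ[L] Matrix (Fin q) (Fin q) (⨂[L] i, B i))) →
      ∃ (n : ℕ) (f : (SeparableClosure F ≃ₐ[F] SeparableClosure F) →
        (SeparableClosure F ≃ₐ[F] SeparableClosure F) → (SeparableClosure F)ˣ),
        n ≠ 0 ∧ Nonempty (RepData F (SeparableClosure F) A (Fin n) f) ∧
        cls (SeparableClosure F ≃ₐ[F] SeparableClosure F) (SeparableClosure F)ˣ f ∈
          BRP.H50.cycGrp ℓ F (SeparableClosure F) :=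
  H50P.classGPos_aux (cohSPos_proof hd1 hH) (cohc le_rfl (by norm_num)) BRP.H79.divseven BR7.H38.det
    BR7.H38.basel (BRP.H62.ltrans BRP.H38.kumsurj kum BR7.H38.gz H4.disc H4.dlog) sadd
    BR7.H38.corres BRP.H38.index BR7.H50.Full.repex BR7.H32.repz BR7.H50.repop BR7.H50.repone
    BR7.H38.gz H4.disc H19.pi BRP.H79.degseven BR7.H50.Full.uniq

end

section

open BR7 BRP BRP.H50.Full

/-- Characteristic c > 0, no bound on the degree: descent of products of algebras of degree p from F(ζ) to products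
of cyclic algebras over F. -/
theorem finalGPos (hAll : HeartAllStatement.{u}) (p : ℕ) (hp : p.Prime) (hodd : Odd p) (c : ℕ) (hc : c.Prime)
    (F L : Type u) [Field F] [Field L] [Algebra F L] [CharP F c]
    (h7 : (p : F) ≠ 0) (hL : IsCyclotomicExtension {p} F L)
    (A : Type u) [Ring A] [Algebra F A] [Algebra.IsCentral F A] [IsSimpleRing A] (m : ℕ)
    (hA : Module.finrank F A = (p ^ 2) ^ m)
    (k : ℕ) (B : Fin k → Type u) [∀ i, Ring (B i)] [∀ i, Algebra L (B i)]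
    (hB : ∀ i, Algebra.IsCentral L (B i) ∧ IsSimpleRing (B i) ∧ Module.finrank L (B i) = p ^ 2)
    (he : ∃ r s : ℕ, r ≠ 0 ∧ s ≠ 0 ∧
      Nonempty (Matrix (Fin r) (Fin r) (L ⊗[F] A) ≃ₐ[L] Matrix (Fin s) (Fin s) (⨂[L] i, B i))) :
    ∃ (l : ℕ) (C : Fin l → Type u) (_ : ∀ i, Ring (C i)) (_ : ∀ i, Algebra F (C i)),
      (∀ i, Algebra.IsCentral F (C i) ∧ Module.finrank F (C i) = p ^ 2 ∧ (∀ b : C i, b ≠ 0 → IsUnit b) ∧
        ∃ (K : Type u) (_ : Field K) (_ : Algebra F K), IsGalois F K ∧ Module.finrank F K = p ∧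
          Nonempty (K →ₐ[F] C i)) ∧
      ∃ r s : ℕ, r ≠ 0 ∧ s ≠ 0 ∧
        Nonempty (Matrix (Fin r) (Fin r) A ≃ₐ[F] Matrix (Fin s) (Fin s) (⨂[F] i, C i)) := by
  have : Fact p.Prime := ⟨hp⟩
  have : Fact (Odd p) := ⟨hodd⟩
  have : NeZero (p : F) := ⟨h7⟩
  have : FiniteDimensional F L := IsCyclotomicExtension.finiteDimensional {p} F L
  have hcp : c ≠ p := by
    rintro rfl
    exact h7 (CharP.cast_eq_zero F c)
  have hd1 : 1 ≤ Module.finrank F L := Module.finrank_pos (R := F) (M := L)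
  obtain ⟨n, f, hn0, ⟨R⟩, hC⟩ := classGPos (ℓ := p) hd1 (hAll c p _ hc hcp hd1) F L h7 hL rfl A m hA k B hB he
  exact BRP.H50.cyc_to_alg BR7.H50.repop BR7.H32.repz BR7.H50.repone BR7.H50.Full.conv BR7.H38.gz H4.disc
    H19.pi cycalg BR7.H79.repcsa BRP.H79.degseven BR7.H50.Full.uniq R hC

/-- Characteristic c > 0, no bound on the degree: the Brumer-Rosen alternative. -/
theorem finalHPos (hAll : HeartAllStatement.{u}) (p : ℕ) (hp : p.Prime) (hodd : Odd p) (c : ℕ) (hc : c.Prime)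
    (F L : Type u) [Field F] [Field L] [Algebra F L] [CharP F c]
    (h7 : (p : F) ≠ 0) (hL : IsCyclotomicExtension {p} F L)
    (A : Type u) [Ring A] [Algebra F A] [Algebra.IsCentral F A] [IsSimpleRing A] (m : ℕ)
    (hA : Module.finrank F A = (p ^ 2) ^ m) (hns : ∀ n : ℕ, IsEmpty (A ≃ₐ[F] Matrix (Fin n) (Fin n) F))
    (k : ℕ) (B : Fin k → Type u) [∀ i, Ring (B i)] [∀ i, Algebra L (B i)]
    (hB : ∀ i, Algebra.IsCentral L (B i) ∧ IsSimpleRing (B i) ∧ Module.finrank L (B i) = p ^ 2)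
    (he : ∃ r s : ℕ, r ≠ 0 ∧ s ≠ 0 ∧
      Nonempty (Matrix (Fin r) (Fin r) (L ⊗[F] A) ≃ₐ[L] Matrix (Fin s) (Fin s) (⨂[L] i, B i))) :
    ∃ (A : ℕ → Type u) (_ : ∀ n, Ring (A n)) (_ : ∀ n, Algebra F (A n)),
      (∀ n, Algebra.IsCentral F (A n) ∧ IsSimpleRing (A n) ∧ FiniteDimensional F (A n)) ∧
      (∀ m : ℕ, IsEmpty (A 0 ≃ₐ[F] Matrix (Fin m) (Fin m) F)) ∧
      (∃ m : ℕ, Nonempty ((⨂[F] (_ : Fin p), A 0) ≃ₐ[F] Matrix (Fin m) (Fin m) F)) ∧
      ∀ n, ∃ r s : ℕ, r ≠ 0 ∧ s ≠ 0 ∧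
        Nonempty (Matrix (Fin r) (Fin r) (⨂[F] (_ : Fin p), A (n + 1)) ≃ₐ[F] Matrix (Fin s) (Fin s) (A n)) := by
  have : Fact p.Prime := ⟨hp⟩
  have : Fact (Odd p) := ⟨hodd⟩
  have : NeZero (p : F) := ⟨h7⟩
  have : FiniteDimensional F L := IsCyclotomicExtension.finiteDimensional {p} F L
  have hcp : c ≠ p := by
    rintro rfl
    exact h7 (CharP.cast_eq_zero F c)
  have hd1 : 1 ≤ Module.finrank F L := Module.finrank_pos (R := F) (M := L)
  obtain ⟨n, f, hn0, ⟨R⟩, hC⟩ := classGPos (ℓ := p) hd1 (hAll c p _ hc hcp hd1) F L h7 hL rfl A m hA k B hB he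
  exact seq F (BRP.H50.split_or_quasi cycdiv BR7.H32.repz BR7.H50.repop BR7.H50.repone BR7.H50.Full.conv
    BR7.H38.gz H4.disc h7 hn0 R hC hns)

end

end CL
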