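import Pool.Agent.Lib.MP_defcf3_al.CL.IfaceC
import Mathlib

/-! Row Top (helper65): the top level over any field of characteristic c, through the perfect closure. -/

open Polynomial

namespace CL

universe u

namespace TopAux

/-- Powers with exponent c ^ m are injective. -/
theorem pow_inj {M : Type*} [Field M] {c : ℕ} [Fact c.Prime] [CharP M c] {m : ℕ} {x y : M}
    (h : x ^ c ^ m = y ^ c ^ m) : x = y := by
  have : ExpChar M c := ExpChar.prime (Fact.out)
  apply iterateFrobenius_inj M c m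
  rw [iterateFrobenius_def, iterateFrobenius_def, h]

/-- The whole argument for abstract perfect extensions. -/
theorem top_abs (hP : TopPerfStatement.{u}) (F L F' L' : Type u) [Field F] [Field L] [Field F'] [Field L']
    [Algebra F L] [Algebra F' L'] [FiniteDimensional F L] (c ℓ e : ℕ) (ζ : L) (γ : L ≃ₐ[F] L)
    (T : Type u) [AddCommGroup T] (b : L → L → T) (hD : TopDat F c ℓ e ζ γ b)
    [CharP F' c] [CharP L' c] (iF : F →+* F') (iL : L →+* L')
    (repF : ∀ X : F', ∃ (m : ℕ) (x : F), X ^ c ^ m = iF x) (rep : ∀ X : L', ∃ (m : ℕ) (x : L), X ^ c ^ m = iL x)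
    (rootF : ∀ (m : ℕ) (a : F), ∃ A : F', A ^ c ^ m = iF a) (rootL : ∀ (m : ℕ) (a : L), ∃ A : L', A ^ c ^ m = iL a)
    (halg : ∀ a : F, algebraMap F' L' (iF a) = iL (algebraMap F L a))
    (γ' : L' ≃ₐ[F'] L') (hγ' : ∀ x : L, γ' (iL x) = iL (γ x)) (hperf : ∀ x : F', ∃ y : F', y ^ c = x)
    (x₀ y₀ : L) (hx₀ : x₀ ≠ 0) (hy₀ : y₀ ≠ 0) : b x₀ y₀ = 0 := by
  classical
  have hcp : Fact c.Prime := ⟨hD.cpr⟩
  have hlp : Fact ℓ.Prime := ⟨hD.lpr⟩
  have hcop : Nat.Coprime c ℓ := (Nat.coprime_primes hD.cpr hD.lpr).2 hD.cl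
  obtain ⟨v, hv⟩ : ∃ v : ℕ, c * v ≡ 1 [MOD ℓ] := by
    obtain ⟨v, -, hv⟩ := Nat.exists_mul_mod_eq_one_of_coprime hcop hD.lpr.one_lt
    refine ⟨v, ?_⟩
    rw [Nat.ModEq, hv, Nat.mod_eq_of_lt hD.lpr.one_lt]
  have hmod : ∀ (m n : ℕ) (t : T), m ≡ n [MOD ℓ] → m • t = n • t := by
    intro m n t hmn
    have key : ∀ k : ℕ, k • t = (k % ℓ) • t := by
      intro k
      conv_lhs => rw [← Nat.mod_add_div k ℓ, add_smul, mul_comm, mul_smul, hD.tors, smul_zero, add_zero]
    rw [key m, key n, hmn]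
  have hvm : ∀ k : ℕ, v ^ k * c ^ k ≡ 1 [MOD ℓ] := by
    intro k
    rw [← mul_pow, mul_comm v c]
    simpa using hv.pow k
  have hvk : ∀ (k : ℕ) (t : T), (v ^ k * c ^ k) • t = t := by
    intro k t
    rw [hmod _ _ t (hvm k), one_smul]
  have hpl : ∀ (n : ℕ) (x y : L), x ≠ 0 → y ≠ 0 → b (x ^ n) y = n • b x y := by
    intro n x y hx hy
    induction n with
    | zero =>
      rw [pow_zero, zero_smul]
      have := hD.mull 1 1 y one_ne_zero one_ne_zero hy
      rw [mul_one] at this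
      simpa using this
    | succ n ih =>
      rw [pow_succ, hD.mull _ _ _ (pow_ne_zero _ hx) hx hy, ih, succ_nsmul]
  have hpr : ∀ (n : ℕ) (x y : L), x ≠ 0 → y ≠ 0 → b x (y ^ n) = n • b x y := by
    intro n x y hx hy
    induction n with
    | zero =>
      rw [pow_zero, zero_smul]
      have := hD.mulr x 1 1 hx one_ne_zero one_ne_zero
      rw [mul_one] at this
      simpa using this
    | succ n ih =>
      rw [pow_succ, hD.mulr _ _ _ hx (pow_ne_zero _ hy) hy, ih, succ_nsmul]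
  have hnz : ∀ (X : L') (m : ℕ) (x : L), X ^ c ^ m = iL x → X ≠ 0 → x ≠ 0 := by
    rintro X m x h hX rfl
    rw [map_zero] at h
    exact pow_ne_zero _ hX h
  have hcross : ∀ (X : L') (m n : ℕ) (x y : L), X ^ c ^ m = iL x →
      X ^ c ^ n = iL y → x ^ c ^ n = y ^ c ^ m := by
    intro X m n x y h1 h2
    apply iL.injective
    rw [map_pow, map_pow, ← h1, ← h2, ← pow_mul, ← pow_mul, mul_comm]
  choose ex rt rt_spec using rep
  obtain ⟨bb, hbb⟩ : ∃ bb : L' → L' → T, ∀ X Y, bb X Y = v ^ (ex X + ex Y) • b (rt X) (rt Y) :=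
    ⟨fun X Y => v ^ (ex X + ex Y) • b (rt X) (rt Y), fun _ _ => rfl⟩
  have hkey : ∀ (X Y : L') (m n : ℕ) (x y : L), X ≠ 0 → Y ≠ 0 →
      X ^ c ^ m = iL x → Y ^ c ^ n = iL y → bb X Y = v ^ (m + n) • b x y := by
    intro X Y m n x y hX hY hx hy
    have hx0 := hnz X m x hx hX
    have hy0 := hnz Y n y hy hY
    have hx1 := hnz X _ _ (rt_spec X) hX
    have hy1 := hnz Y _ _ (rt_spec Y) hY
    have e1 := hcross X m (ex X) x (rt X) hx (rt_spec X)
    have e2 := hcross Y n (ex Y) y (rt Y) hy (rt_spec Y)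
    have e3 : (c ^ ex X * c ^ ex Y) • b x y = (c ^ m * c ^ n) • b (rt X) (rt Y) := by
      have := congrArg₂ b e1 e2
      rw [hpl _ _ _ hx0 (pow_ne_zero _ hy0), hpr _ _ _ hx0 hy0, hpl _ _ _ hx1 (pow_ne_zero _ hy1),
        hpr _ _ _ hx1 hy1] at this
      rw [mul_smul, mul_smul, this]
    have e4 : b (rt X) (rt Y) = (v ^ (m + n) * (c ^ m * c ^ n)) • b (rt X) (rt Y) := by
      rw [← pow_add, hvk]
    have e5 : v ^ (ex X + ex Y) * v ^ (m + n) * (c ^ ex X * c ^ ex Y) =
        (v ^ (ex X + ex Y) * c ^ (ex X + ex Y)) * v ^ (m + n) := by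
      rw [pow_add c]; ring
    rw [hbb, e4, mul_smul, ← e3, smul_smul, smul_smul, e5, mul_smul, hvk]
  have hgp : ∀ (X : L') (m : ℕ) (x : L), X ^ c ^ m = iL x → (γ' X) ^ c ^ m = iL (γ x) := by
    intro X m x h
    rw [← map_pow, h, hγ']
  have hprim : IsPrimitiveRoot (iL ζ) ℓ := hD.prim.map_of_injective iL.injective
  have htop : Algebra.adjoin F' {iL ζ} = ⊤ := by
    rw [eq_top_iff]
    rintro X -
    have hall : ∀ (m : ℕ) (x : L), x ∈ Algebra.adjoin F {ζ} → ∀ X : L', X ^ c ^ m = iL x →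
        X ∈ Algebra.adjoin F' {iL ζ} := by
      intro m x hmem
      induction hmem using Algebra.adjoin_induction with
      | mem z hz =>
        intro X hX
        rw [Set.mem_singleton_iff] at hz
        subst hz
        have : X = (iL z) ^ (v ^ m) := by
          apply pow_inj (c := c) (m := m)
          rw [hX, ← pow_mul]
          have h1 := hvm m
          have h2 : (iL z) ^ (v ^ m * c ^ m) = (iL z) ^ 1 := by
            rw [← Nat.mod_add_div (v ^ m * c ^ m) ℓ, pow_add, pow_mul, hprim.pow_eq_one, one_pow, mul_one, h1,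
              Nat.mod_eq_of_lt hD.lpr.one_lt]
          rw [h2, pow_one]
        rw [this]
        exact Subalgebra.pow_mem _ (Algebra.subset_adjoin (Set.mem_singleton _)) _
      | algebraMap a =>
        intro X hX
        obtain ⟨A, hA⟩ := rootF m a
        have : X = algebraMap _ _ A := by
          apply pow_inj (c := c) (m := m)
          rw [hX, ← map_pow, hA, halg]
        rw [this]
        exact Subalgebra.algebraMap_mem _ _
      | add x y _ _ ihx ihy =>
        intro X hX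
        obtain ⟨Y, hY⟩ := rootL m y
        have hXY : (X - Y) ^ c ^ m = iL x := by
          rw [sub_pow_char_pow, hX, hY, map_add, add_sub_cancel_right]
        have := Subalgebra.add_mem _ (ihx _ hXY) (ihy _ hY)
        rwa [sub_add_cancel] at this
      | mul x y _ _ ihx ihy =>
        intro X hX
        obtain ⟨Y, hY⟩ := rootL m y
        obtain ⟨Z, hZ⟩ := rootL m x
        have : X = Z * Y := by
          apply pow_inj (c := c) (m := m)
          rw [hX, mul_pow, hZ, hY, map_mul]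
        rw [this]
        exact Subalgebra.mul_mem _ (ihx _ hZ) (ihy _ hY)
    exact hall _ _ (by rw [hD.top]; trivial) X (rt_spec X)
  have hfin : FiniteDimensional F' L' := by
    have hint : IsIntegral F' (iL ζ) := (hprim.isIntegral hD.lpr.pos).tower_top
    have := hint.fg_adjoin_singleton
    rw [htop] at this
    exact ⟨by simpa using this⟩
  have hlev : ∀ (X : L') (m : ℕ) (x : L), X ^ c ^ m = iL x → ∀ k, X ^ c ^ (m + k) = iL (x ^ c ^ k) := by
    intro X m x h k
    rw [pow_add, pow_mul, h, map_pow]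
  have hfq : Nat.card {x : F' // x ^ c ^ e = x} = c ^ e := by
    refine Eq.trans (Eq.symm ?_) hD.fq
    refine Nat.card_congr (Equiv.ofBijective
      (fun x : {x : F // x ^ c ^ e = x} => (⟨iF x.1, by
        rw [← map_pow, x.2]⟩ : {x : F' // x ^ c ^ e = x})) ⟨?_, ?_⟩)
    · intro x y hxy
      exact Subtype.ext (iF.injective (congrArg Subtype.val hxy))
    · rintro ⟨X, hX⟩
      obtain ⟨m, x, hx⟩ := repF X
      have hit : ∀ k : ℕ, X ^ c ^ (e * k) = X := by
        intro k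
        induction k with
        | zero => simp
        | succ k ih => rw [Nat.mul_succ, pow_add, pow_mul, ih, hX]
      have hXe : X = iF (x ^ c ^ (e * m - m)) := by
        rw [map_pow, ← hx, ← pow_mul, ← pow_add]
        rw [show m + (e * m - m) = e * m from Nat.add_sub_cancel' (Nat.le_mul_of_pos_left m hD.epos), hit]
      refine ⟨⟨x ^ c ^ (e * m - m), ?_⟩, Subtype.ext hXe.symm⟩
      apply iF.injective
      rw [map_pow, ← hXe, hX]
  have hDat : TopDat F' c ℓ e (iL ζ) γ' bb := by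
    refine ⟨hD.cpr, inferInstance, hD.lpr, hD.two, hD.cl, hD.c2, hD.epos, hprim, htop, ?_, hfq, hD.tors,
      ?_, ?_, ?_, ?_, ?_⟩
    · rw [hγ', hD.act, map_pow]
    · intro X Y Z hX hY hZ
      obtain ⟨m, x, hx⟩ : ∃ (m : ℕ) (x : L), X ^ c ^ m = iL x := ⟨_, _, rt_spec X⟩
      obtain ⟨n, y, hy⟩ : ∃ (m : ℕ) (x : L), Y ^ c ^ m = iL x := ⟨_, _, rt_spec Y⟩
      obtain ⟨k, z, hz⟩ : ∃ (m : ℕ) (x : L), Z ^ c ^ m = iL x := ⟨_, _, rt_spec Z⟩
      have hx' := hlev X m x hx n
      have hy' := hlev Y n y hy m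
      rw [add_comm n m] at hy'
      have hxy : (X * Y) ^ c ^ (m + n) = iL (x ^ c ^ n * y ^ c ^ m) := by
        rw [mul_pow, hx', hy', map_mul]
      rw [hkey _ _ _ _ _ _ (mul_ne_zero hX hY) hZ hxy hz, hkey _ _ _ _ _ _ hX hZ hx' hz,
        hkey _ _ _ _ _ _ hY hZ hy' hz,
        hD.mull _ _ _ (hnz _ _ _ hx' hX) (hnz _ _ _ hy' hY) (hnz _ _ _ hz hZ), smul_add]
    · intro Z X Y hZ hX hY
      obtain ⟨m, x, hx⟩ : ∃ (m : ℕ) (x : L), X ^ c ^ m = iL x := ⟨_, _, rt_spec X⟩
      obtain ⟨n, y, hy⟩ : ∃ (m : ℕ) (x : L), Y ^ c ^ m = iL x := ⟨_, _, rt_spec Y⟩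
      obtain ⟨k, z, hz⟩ : ∃ (m : ℕ) (x : L), Z ^ c ^ m = iL x := ⟨_, _, rt_spec Z⟩
      have hx' := hlev X m x hx n
      have hy' := hlev Y n y hy m
      rw [add_comm n m] at hy'
      have hxy : (X * Y) ^ c ^ (m + n) = iL (x ^ c ^ n * y ^ c ^ m) := by
        rw [mul_pow, hx', hy', map_mul]
      rw [hkey _ _ _ _ _ _ hZ (mul_ne_zero hX hY) hz hxy, hkey _ _ _ _ _ _ hZ hX hz hx',
        hkey _ _ _ _ _ _ hZ hY hz hy',
        hD.mulr _ _ _ (hnz _ _ _ hz hZ) (hnz _ _ _ hx' hX) (hnz _ _ _ hy' hY), smul_add]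
    · intro X hX hX1
      obtain ⟨m, x, hx⟩ : ∃ (m : ℕ) (x : L), X ^ c ^ m = iL x := ⟨_, _, rt_spec X⟩
      have h1 : (1 - X) ^ c ^ m = iL (1 - x) := by
        rw [sub_pow_char_pow, one_pow, hx, map_sub, map_one]
      have hX2 : 1 - X ≠ 0 := sub_ne_zero.2 (Ne.symm hX1)
      have hx1 : x ≠ 1 := by
        rintro rfl
        apply hnz _ _ _ h1 hX2
        rw [sub_self]
      rw [hkey _ _ _ _ _ _ hX hX2 hx h1, hD.st x (hnz _ _ _ hx hX) hx1, smul_zero]
    · intro A X hA hX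
      obtain ⟨m, x, hx⟩ : ∃ (m : ℕ) (x : L), X ^ c ^ m = iL x := ⟨_, _, rt_spec X⟩
      obtain ⟨n, a, ha⟩ := repF A
      have ha' : (algebraMap F' L' A) ^ c ^ n = iL (algebraMap F L a) := by
        rw [← map_pow, ha, halg]
      have hA' : algebraMap F' L' A ≠ 0 := (_root_.map_ne_zero _).2 hA
      have ha0 : a ≠ 0 := by
        rintro rfl
        apply hnz _ _ _ ha' hA'
        rw [map_zero]
      have hb := hD.base a x ha0 (hnz _ _ _ hx hX)
      rw [hkey _ _ _ _ _ _ hA' hX ha' hx, hkey _ _ _ _ _ _ hX hA' hx ha', hb.1, hb.2, smul_zero, smul_zero]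
      exact ⟨rfl, rfl⟩
    · intro X Y hX hY
      obtain ⟨m, x, hx⟩ : ∃ (m : ℕ) (x : L), X ^ c ^ m = iL x := ⟨_, _, rt_spec X⟩
      obtain ⟨n, y, hy⟩ : ∃ (m : ℕ) (x : L), Y ^ c ^ m = iL x := ⟨_, _, rt_spec Y⟩
      have hX' : γ' X ≠ 0 := (_root_.map_ne_zero γ').2 hX
      have hY' : γ' Y ≠ 0 := (_root_.map_ne_zero γ').2 hY
      rw [hkey _ _ _ _ _ _ hX' hY' (hgp X m x hx) (hgp Y n y hy), hkey _ _ _ _ _ _ hX hY hx hy,
        hD.wt x y (hnz _ _ _ hx hX) (hnz _ _ _ hy hY), smul_smul, smul_smul, mul_comm]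
  have hX₀ : iL x₀ ≠ 0 := (_root_.map_ne_zero iL).2 hx₀
  have hY₀ : iL y₀ ≠ 0 := (_root_.map_ne_zero iL).2 hy₀
  have hfinal := hP F' L' c ℓ e (iL ζ) γ' T bb hperf hDat (iL x₀) (iL y₀) hX₀ hY₀
  rw [hkey _ _ 0 0 x₀ y₀ hX₀ hY₀ (by simp) (by simp)] at hfinal
  simpa using hfinal

/-- Every element of the perfect closure has a power in the field. -/
theorem rep (K : Type u) [Field K] (c : ℕ) [Fact c.Prime] [CharP K c] (X : PerfectClosure K c) :
    ∃ (m : ℕ) (x : K), X ^ c ^ m = PerfectClosure.of K c x := by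
  obtain ⟨m, x, h⟩ := (PerfectClosure.isPRadical K c).pow_mem' X
  exact ⟨m, x, h.symm⟩

/-- Roots exist in the perfect closure. -/
theorem root (K : Type u) [Field K] (c : ℕ) [Fact c.Prime] [CharP K c] (m : ℕ) (a : K) :
    ∃ A : PerfectClosure K c, A ^ c ^ m = PerfectClosure.of K c a := by
  refine ⟨PerfectClosure.mk K c (m, a), ?_⟩
  rw [← iterateFrobenius_def, ← PerfectClosure.iterate_frobenius_mk K c m a, coe_iterateFrobenius]

/-- Homomorphisms from the perfect closure are determined on the field. -/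
theorem hom_ext {K M : Type u} [Field K] [Field M] {c : ℕ} [Fact c.Prime] [CharP K c] [CharP M c]
    (f g : PerfectClosure K c →+* M)
    (h : ∀ x, f (PerfectClosure.of K c x) = g (PerfectClosure.of K c x)) (X : PerfectClosure K c) :
    f X = g X := by
  obtain ⟨m, x, hx⟩ := rep K c X
  apply pow_inj (c := c) (m := m)
  rw [← map_pow, ← map_pow, hx, h]

/-- Existence of the lift. -/
theorem ex_lift (K M : Type u) [Field K] [Field M] (c : ℕ) [Fact c.Prime] [CharP K c] [CharP M c]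
    [PerfectRing M c] (f : K →+* M) : ∃ g : PerfectClosure K c →+* M, ∀ x, g (PerfectClosure.of K c x) = f x :=
  ⟨PerfectClosure.lift K c M f, fun x => RingHom.congr_fun ((PerfectClosure.lift K c M).left_inv f) x⟩

end TopAux

open TopAux in
/-- Row Top. -/
theorem top_proof (hP : TopPerfStatement.{u}) : TopStatement.{u} := by
  intro F L _ _ _ _ c ℓ e ζ γ T _ b hD x₀ y₀ hx₀ hy₀
  have hcp : Fact c.Prime := ⟨hD.cpr⟩
  have := hD.chr
  have : CharP L c := charP_of_injective_algebraMap (algebraMap F L).injective c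
  obtain ⟨jj, jj_of⟩ := ex_lift F (PerfectClosure L c) c ((PerfectClosure.of L c).comp (algebraMap F L))
  obtain ⟨g1, g1_of⟩ := ex_lift L (PerfectClosure L c) c ((PerfectClosure.of L c).comp (γ : L →+* L))
  obtain ⟨g2, g2_of⟩ := ex_lift L (PerfectClosure L c) c ((PerfectClosure.of L c).comp (γ.symm : L →+* L))
  let _ : Algebra (PerfectClosure F c) (PerfectClosure L c) := jj.toAlgebra
  have hg1 : ∀ X, g1 (g2 X) = X := by
    intro X
    refine hom_ext (g1.comp g2) (RingHom.id _) (fun x => ?_) X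
    rw [RingHom.comp_apply, g2_of, RingHom.comp_apply, g1_of, RingHom.comp_apply, RingHom.id_apply]
    exact congrArg _ (AlgEquiv.apply_symm_apply γ x)
  have hg2 : ∀ X, g2 (g1 X) = X := by
    intro X
    refine hom_ext (g2.comp g1) (RingHom.id _) (fun x => ?_) X
    rw [RingHom.comp_apply, g1_of, RingHom.comp_apply, g2_of, RingHom.comp_apply, RingHom.id_apply]
    exact congrArg _ (AlgEquiv.symm_apply_apply γ x)
  have hgj : ∀ A, g1 (jj A) = jj A := by
    intro A
    refine hom_ext (g1.comp jj) jj (fun x => ?_) A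
    rw [RingHom.comp_apply, jj_of, RingHom.comp_apply, g1_of, RingHom.comp_apply]
    exact congrArg _ (AlgEquiv.commutes γ x)
  refine top_abs hP F L (PerfectClosure F c) (PerfectClosure L c) c ℓ e ζ γ T b hD
    (PerfectClosure.of F c) (PerfectClosure.of L c) (rep F c) (rep L c) (root F c) (root L c)
    (fun a => jj_of a)
    (AlgEquiv.ofRingEquiv (f := RingEquiv.ofRingHom g1 g2
      (RingHom.ext fun X => hg1 X) (RingHom.ext fun X => hg2 X)) (fun A => hgj A))
    (fun x => g1_of x) (fun x => ?_) x₀ y₀ hx₀ hy₀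
  exact surjective_frobenius (PerfectClosure F c) c x

end CL
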