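import Pool.Agent.Lib.MP_defcf3_al.CL.IfaceC
import Pool.Agent.Lib.MP_defcf3_al.CL.Twist
import Pool.Agent.Lib.MP_defcf3_al.CL.Residue

/-!
Project CL (MP_defcf3_al), part (C), row TopPerf: the top level over a perfect field, from (S_n) with Z the set
containing only the trivial valuation ring.
-/

open Polynomial

namespace CL

universe u

namespace H16TopPerf

section Triv

variable {F : Type u} [Field F]

theorem val_top {x : F} (hx : x ≠ 0) : (⊤ : ValuationSubring F).valuation x = 1 := by
  apply le_antisymm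
  · exact ((⊤ : ValuationSubring F).valuation_le_one_iff x).2 (ValuationSubring.mem_top x)
  · have h := ((⊤ : ValuationSubring F).valuation_le_one_iff x⁻¹).2 (ValuationSubring.mem_top _)
    rw [map_inv₀] at h
    have h0 : (⊤ : ValuationSubring F).valuation x ≠ 0 := (Valuation.ne_zero_iff _).2 hx
    exact (inv_le_one₀ (zero_lt_iff.2 h0)).1 h

theorem val_top_lt {x : F} (hx : (⊤ : ValuationSubring F).valuation x < 1) : x = 0 := by
  by_contra h
  rw [val_top h] at hx
  exact lt_irrefl _ hx

theorem jle_top (V : ValuationSubring F) : Jle {(⊤ : ValuationSubring F)} V := by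
  intro j hj
  have h := val_top_lt (hj ⊤ rfl)
  rw [h, map_zero]
  exact zero_lt_one

theorem inert_top {P : F[X]} (hP : P.Monic) (hi : Irreducible P) : Inert (⊤ : ValuationSubring F) P := by
  have hco : CoV (⊤ : ValuationSubring F) P := fun i => ValuationSubring.mem_top _
  obtain ⟨P', hP', -⟩ := Resid.exists_lift hco hP
  refine ⟨P', hP', ?_⟩
  have b1 : Function.Bijective (algebraMap (⊤ : ValuationSubring F) F) := by
    constructor
    · exact Subtype.val_injective
    · intro x
      exact ⟨⟨x, ValuationSubring.mem_top x⟩, rfl⟩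
  have b2 : Function.Bijective (IsLocalRing.residue (⊤ : ValuationSubring F)) := by
    constructor
    · rw [injective_iff_map_eq_zero]
      intro x hx
      rw [IsLocalRing.residue_eq_zero_iff, ValuationSubring.valuation_lt_one_iff] at hx
      exact Subtype.ext (val_top_lt hx)
    · exact IsLocalRing.residue_surjective
  let e1 := RingEquiv.ofBijective _ b1
  let e2 := RingEquiv.ofBijective _ b2
  have h1 : Polynomial.mapEquiv e1 P' = P := by
    rw [← hP', Polynomial.mapEquiv_apply]
    rfl
  have h2 : Irreducible P' := by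
    rw [← MulEquiv.irreducible_iff (Polynomial.mapEquiv e1), h1]
    exact hi
  have h3 : P'.map (IsLocalRing.residue (⊤ : ValuationSubring F)) = Polynomial.mapEquiv e2 P' := by
    rw [Polynomial.mapEquiv_apply]
    rfl
  rw [h3, MulEquiv.irreducible_iff]
  exact h2

theorem psim_top {A : F[X]} (h : PSim (⊤ : ValuationSubring F) A 1) : ∃ a : F, a ≠ 0 ∧ A = C a := by
  obtain ⟨a, ha, hlt⟩ := h
  refine ⟨a, ha, ?_⟩
  have h1 : pn (⊤ : ValuationSubring F) (C a * 1) ≤ 1 := by
    unfold pn
    refine Finset.sup_le fun i _ => ?_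
    exact ((⊤ : ValuationSubring F).valuation_le_one_iff _).2 (ValuationSubring.mem_top _)
  have h2 : ∀ i, (A - C a * 1).coeff i = 0 := by
    intro i
    by_contra hne
    have h3 : (⊤ : ValuationSubring F).valuation ((A - C a * 1).coeff i) ≤
        pn (⊤ : ValuationSubring F) (A - C a * 1) :=
      Finset.le_sup (f := fun i => (⊤ : ValuationSubring F).valuation ((A - C a * 1).coeff i))
        (mem_support_iff.2 hne)
    rw [val_top hne] at h3
    exact absurd (h3.trans_lt (hlt.trans_le h1)) (lt_irrefl _)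
  have h4 : A - C a * 1 = 0 := by
    ext i
    rw [h2 i, coeff_zero]
  rw [mul_one] at h4
  exact sub_eq_zero.1 h4

theorem card_le {k : Type u} [Field k] {q : ℕ} (hq : 1 < q) :
    Finite {x : k // x ^ q = x} ∧ Nat.card {x : k // x ^ q = x} ≤ q := by
  classical
  have hne : (X ^ q - X : k[X]) ≠ 0 := FiniteField.X_pow_card_sub_X_ne_zero k hq
  have hdeg : (X ^ q - X : k[X]).natDegree = q := FiniteField.X_pow_card_sub_X_natDegree_eq k hq
  let f : {x : k // x ^ q = x} → (X ^ q - X : k[X]).roots.toFinset := fun x => ⟨x.1, by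
    rw [Multiset.mem_toFinset, mem_roots hne, IsRoot, eval_sub, eval_pow, eval_X, x.2, sub_self]⟩
  have hf : Function.Injective f := by
    intro x y hxy
    have := congrArg Subtype.val hxy
    exact Subtype.ext this
  have hfin : Finite {x : k // x ^ q = x} := Finite.of_injective f hf
  refine ⟨hfin, ?_⟩
  have h1 := Nat.card_le_card_of_injective f hf
  have h2 : Nat.card (X ^ q - X : k[X]).roots.toFinset ≤ q := by
    rw [Nat.card_eq_fintype_card, Fintype.card_coe]
    refine (Multiset.toFinset_card_le _).trans ?_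
    refine (card_roots' _).trans ?_
    rw [hdeg]
  exact h1.trans h2

theorem fq_all {c e : ℕ} (hc : c.Prime) (hch : CharP F c) (he : 1 ≤ e)
    (hfq : Nat.card {x : F // x ^ c ^ e = x} = c ^ e) (V : ValuationSubring F) : FQ (c ^ e) V := by
  have hcf : Fact c.Prime := ⟨hc⟩
  have hq : 1 < c ^ e := Nat.one_lt_pow (by omega) hc.one_lt
  obtain ⟨hfin, hle⟩ := card_le (k := IsLocalRing.ResidueField V) hq
  refine le_antisymm hle ?_
  have hmem : ∀ x : F, x ^ c ^ e = x → x ∈ V := by
    intro x hx
    rw [← V.valuation_le_one_iff]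
    by_contra hcon
    have h1 : 1 < V.valuation x := not_le.1 hcon
    have h2 : V.valuation x < V.valuation x ^ c ^ e := by
      calc V.valuation x = V.valuation x ^ 1 := (pow_one _).symm
        _ < V.valuation x ^ c ^ e := pow_lt_pow_right₀ h1 hq
    rw [← map_pow, hx] at h2
    exact lt_irrefl _ h2
  let f : {x : F // x ^ c ^ e = x} → {x : IsLocalRing.ResidueField V // x ^ c ^ e = x} := fun x =>
    ⟨IsLocalRing.residue V ⟨x.1, hmem x.1 x.2⟩, by
      rw [← map_pow]
      congr 1
      exact Subtype.ext x.2⟩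
  have hf : Function.Injective f := by
    rintro ⟨x, hx⟩ ⟨y, hy⟩ hxy
    have h1 : IsLocalRing.residue V ⟨x, hmem x hx⟩ = IsLocalRing.residue V ⟨y, hmem y hy⟩ :=
      congrArg Subtype.val hxy
    have h2 : IsLocalRing.residue V (⟨x, hmem x hx⟩ - ⟨y, hmem y hy⟩) = 0 := by
      rw [map_sub, h1, sub_self]
    rw [IsLocalRing.residue_eq_zero_iff, ValuationSubring.valuation_lt_one_iff] at h2
    have h3 : V.valuation (x - y) < 1 := h2
    apply Subtype.ext
    by_contra hne
    have h4 : x - y ≠ 0 := sub_ne_zero.2 hne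
    have h5 : (x - y) ^ c ^ e = x - y := by
      rw [sub_pow_char_pow, hx, hy]
    have h6 : V.valuation (x - y) ^ c ^ e = V.valuation (x - y) := by
      rw [← map_pow, h5]
    have h7 : V.valuation (x - y) ^ c ^ e < V.valuation (x - y) := by
      calc V.valuation (x - y) ^ c ^ e < V.valuation (x - y) ^ 1 :=
            pow_lt_pow_right_of_lt_one₀ (zero_lt_iff.2 ((Valuation.ne_zero_iff _).2 h4)) h3 hq
        _ = V.valuation (x - y) := pow_one _
    rw [h6] at h7
    exact lt_irrefl _ h7
  have h8 := Nat.card_le_card_of_injective f hf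
  rwa [hfq] at h8

end Triv

section Sym

variable {L : Type u} [Field L] {T : Type u} [AddCommGroup T] {b : L → L → T}

theorem b_one_left (h : ∀ x y z : L, x ≠ 0 → y ≠ 0 → z ≠ 0 → b (x * y) z = b x z + b y z) {z : L} (hz : z ≠ 0) :
    b 1 z = 0 := by
  have := h 1 1 z one_ne_zero one_ne_zero hz
  rw [mul_one] at this
  exact left_eq_add.1 this

theorem b_pow_left (h : ∀ x y z : L, x ≠ 0 → y ≠ 0 → z ≠ 0 → b (x * y) z = b x z + b y z) {x z : L} (hx : x ≠ 0)
    (hz : z ≠ 0) (k : ℕ) : b (x ^ k) z = k • b x z := by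
  induction k with
  | zero => rw [pow_zero, zero_smul, b_one_left h hz]
  | succ k ih => rw [pow_succ, h _ _ _ (pow_ne_zero _ hx) hx hz, ih, succ_nsmul]

theorem b_one_right (h : ∀ x y z : L, x ≠ 0 → y ≠ 0 → z ≠ 0 → b x (y * z) = b x y + b x z) {z : L} (hz : z ≠ 0) :
    b z 1 = 0 := by
  have := h z 1 1 hz one_ne_zero one_ne_zero
  rw [mul_one] at this
  exact left_eq_add.1 this

theorem b_pow_right (h : ∀ x y z : L, x ≠ 0 → y ≠ 0 → z ≠ 0 → b x (y * z) = b x y + b x z) {x z : L} (hx : x ≠ 0)
    (hz : z ≠ 0) (k : ℕ) : b z (x ^ k) = k • b z x := by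
  induction k with
  | zero => rw [pow_zero, zero_smul, b_one_right h hz]
  | succ k ih => rw [pow_succ, h _ _ _ hz (pow_ne_zero _ hx) hx, ih, succ_nsmul]

theorem cancel {q ℓ : ℕ} (hco : Nat.Coprime q ℓ) (htor : ∀ t : T, ℓ • t = 0) {t s : T} (h : q • t = q • s) :
    t = s := by
  have h1 : q • (t - s) = 0 := by rw [smul_sub, h, sub_self]
  have h2 : ℓ • (t - s) = 0 := htor _
  have h3 : addOrderOf (t - s) ∣ Nat.gcd q ℓ :=
    Nat.dvd_gcd (addOrderOf_dvd_of_nsmul_eq_zero h1) (addOrderOf_dvd_of_nsmul_eq_zero h2)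
  rw [hco] at h3
  have h4 : addOrderOf (t - s) = 1 := Nat.dvd_one.1 h3
  rw [AddMonoid.addOrderOf_eq_one_iff] at h4
  exact sub_eq_zero.1 h4

end Sym

end H16TopPerf

open H16TopPerf

theorem topPerf_proof (hB : FinBStatement.{u}) : TopPerfStatement.{u} := by
  intro F L _ _ _ _ c ℓ e ζ γ T _ b hperf hD
  have hcf : Fact c.Prime := ⟨hD.cpr⟩
  have hlf : Fact ℓ.Prime := ⟨hD.lpr⟩
  have hchF : CharP F c := hD.chr
  have hchL : CharP L c := charP_of_injective_algebraMap (algebraMap F L).injective c
  have hint : IsIntegral F ζ := Algebra.IsIntegral.isIntegral ζ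
  have hq0 : c ^ e ≠ 0 := pow_ne_zero _ hD.cpr.ne_zero
  have hmon : (minpoly F ζ).Monic := minpoly.monic hint
  have hpos : 1 ≤ nn F ζ := minpoly.natDegree_pos hint
  -- the key relation
  have hkey : ∀ A : F[X], γ (aeval ζ (tw (c ^ e) A)) = (aeval ζ A) ^ c ^ e := by
    intro A
    rw [← aeval_algHom_apply γ ζ, hD.act, Tws.aeval_tw c e A ζ]
  have hne : ∀ A : F[X], A ≠ 0 → A.natDegree < nn F ζ → aeval ζ A ≠ 0 := by
    intro A hA hdeg h0
    have h1 := natDegree_le_of_dvd (minpoly.dvd F ζ h0) hA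
    unfold nn at hdeg
    omega
  have htwP : tw (c ^ e) (minpoly F ζ) = minpoly F ζ := by
    have h1 : aeval ζ (tw (c ^ e) (minpoly F ζ)) = 0 := by
      have h2 := hkey (minpoly F ζ)
      rw [minpoly.aeval, zero_pow hq0] at h2
      exact (map_eq_zero γ).1 h2
    have hmap : tw (c ^ e) (minpoly F ζ) = (minpoly F ζ).map (iterateFrobenius F c e) := Tws.tw_map c e _
    have hm : (tw (c ^ e) (minpoly F ζ)).Monic := by
      rw [hmap]
      exact hmon.map _
    have hd : (tw (c ^ e) (minpoly F ζ)).natDegree = (minpoly F ζ).natDegree := by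
      rw [hmap]
      exact natDegree_map_eq_of_injective (iterateFrobenius F c e).injective _
    exact eq_of_monic_of_dvd_of_natDegree_le hmon hm (minpoly.dvd F ζ h1) hd.le
  have hnp : nn F ζ < ℓ := by
    have h1 : aeval ζ (cyclotomic ℓ F) = 0 := by
      have h2 : IsRoot (cyclotomic ℓ L) ζ := hD.prim.isRoot_cyclotomic hD.lpr.pos
      rw [← map_cyclotomic ℓ (algebraMap F L), IsRoot, eval_map_algebraMap] at h2
      exact h2
    have h3 := natDegree_le_of_dvd (minpoly.dvd F ζ h1) (cyclotomic_ne_zero ℓ F)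
    rw [natDegree_cyclotomic, Nat.totient_prime hD.lpr] at h3
    have := hD.lpr.pos
    unfold nn
    omega
  have hco : Nat.Coprime (c ^ e) ℓ :=
    Nat.Coprime.pow_left _ ((Nat.coprime_primes hD.cpr hD.lpr).2 hD.cl)
  have hS : SnDat F c ℓ e (nn F ζ) {(⊤ : ValuationSubring F)} ζ b := by
    refine ⟨hD.cpr, hD.lpr, hD.two, hD.cl, hD.chr, hperf, hD.epos, hnp, hD.c2, hD.top, hint, rfl, ?_, ?_, ?_,
      hD.tors, hD.mull, hD.mulr, hD.st, ?_, ?_⟩
    · intro V hV
      rw [Set.mem_singleton_iff] at hV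
      rw [hV]
      exact inert_top hmon (minpoly.irreducible hint)
    · intro V hV i
      rw [htwP, sub_self, coeff_zero, map_zero]
      exact zero_lt_one
    · intro V _
      exact fq_all hD.cpr hD.chr hD.epos hD.fq V
    · intro x A hx hA hdeg hV
      obtain ⟨a, ha, rfl⟩ := psim_top (hV ⊤ rfl)
      rw [aeval_C]
      exact (hD.base a x ha hx).symm
    · intro A B hA hB hdA hdB
      have hA0 := hne A hA hdA
      have hB0 := hne B hB hdB
      have hu : aeval ζ (tw (c ^ e) A) ≠ 0 := by
        intro h0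
        have h1 := hkey A
        rw [h0, map_zero] at h1
        exact pow_ne_zero _ hA0 h1.symm
      have hv : aeval ζ (tw (c ^ e) B) ≠ 0 := by
        intro h0
        have h1 := hkey B
        rw [h0, map_zero] at h1
        exact pow_ne_zero _ hB0 h1.symm
      have h1 := hD.wt _ _ hu hv
      rw [hkey, hkey, b_pow_left hD.mull hA0 (pow_ne_zero _ hB0), b_pow_right hD.mulr hB0 hA0] at h1
      exact (cancel hco hD.tors h1).symm
  exact hB (nn F ζ) hpos F L c ℓ e {⊤} ζ T b hS

end CL
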