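import Pool.Agent.Lib.MP_defcf3_al.CL.AllB
import Pool.Agent.Lib.MP_defcf3_al.CL.TopPerf
import Pool.Agent.Lib.MP_defcf3_al.CL.Top
import Pool.Agent.Lib.MP_defcf3_al.CL.Fld
import Pool.Agent.Lib.MP_defcf3_al.CL.HeartAll
import Pool.Agent.Lib.MP_defcf3_al.CL.MainCPos

/-!
Part (C): the heart in characteristic c, all modules put together.
-/

namespace CL

universe u

theorem allC_top : TopStatement.{u} := top_proof (topPerf_proof allB_finB)

/-- The heart for all fields of positive characteristic. -/
theorem allC_heart : HeartAllStatement.{u} := heartAll_proof allC_top fld_proof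

end CL
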