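import Pool.Agent.Lib.MP_defcf3_al.CL.Iface
import Pool.Agent.Lib.MP_defcf3_al.CL.AR

/-!
(7.1): the gcd estimate (lifting the exponent). The proof for k > 0 is BRCL.ar of CL/AR.lean.
-/

namespace CL

theorem arith_proof : ArithStatement := by
  intro l m n d k hl hm hn hd hk
  rcases Nat.eq_zero_or_pos k with h0 | h0
  · subst h0
    exact dvd_zero _
  · exact BRCL.ar hl (by omega) (by omega) hd (by omega) hk

end CL
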