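import Pool.Agent.Lib.MP_defcf3_al.CL.Base

/-!
Project CL (MP_defcf3_al), part (B), block ALG (findings 4323): definitions and statements. K = F(ρ) of degree r over F,
v i (i in I) valuations of K (those of the rings V[ρ], V inert), c0 = scalar coefficient, f small at all v i, C an anisotropic
polynomial. T is a vector space over a field k in which r and 2 are invertible.
-/

open Polynomial

namespace CL

universe u

section Defs

variable (F : Type u) {K : Type u} [Field F] [Field K] [Algebra F K]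
variable {I : Type u} {Γ : I → Type u} [∀ i, LinearOrderedCommGroupWithZero (Γ i)]

/-- x is trivial: a scalar times 1 + small. -/
def Triv {G : Type u} [LinearOrderedCommGroupWithZero G] (w : Valuation K G) (x : K) : Prop :=
  ∃ a : F, a ≠ 0 ∧ w (x - algebraMap F K a) < w (algebraMap F K a)

/-- x is t-trivial: a scalar times 1 + b, |b| at most t. -/
def TrivK {G : Type u} [LinearOrderedCommGroupWithZero G] (w : Valuation K G) (t : G) (x : K) : Prop :=
  ∃ a : F, a ≠ 0 ∧ w (x - algebraMap F K a) ≤ t * w (algebraMap F K a)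

/-- The data of block ALG. -/
structure Fam (v : ∀ i, Valuation K (Γ i)) (c0 : K →ₗ[F] F) (r : ℕ) (ρ : K) (f : F) (D : ℕ) (C : F[X]) : Prop where
  two : 2 ≤ r
  fin : Module.finrank F K = r
  c1 : c0 1 = 1
  crho : c0 ρ = 0
  vrho : ∀ i, v i ρ = 1
  vmax : ∀ i x, v i x = max (v i (algebraMap F K (c0 x))) (v i (x - algebraMap F K (c0 x)))
  vnm : ∀ i x, v i (algebraMap F K (Algebra.norm F x)) = v i x ^ r
  vn1 : ∀ i x k, 1 ≤ k → v i (x - 1) ≤ v i (algebraMap F K f) ^ k →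
    v i (algebraMap F K (Algebra.norm F x) - 1) ≤ v i (algebraMap F K f) ^ k
  f0 : f ≠ 0
  vf : ∀ i, v i (algebraMap F K f) < 1
  Dpos : 1 ≤ D
  Cmon : C.Monic
  Cdeg : C.natDegree = D
  Czero : C.coeff 0 = 1
  Cint : ∀ i j, v i (algebraMap F K (C.coeff j)) ≤ 1
  anis : ∀ i (s : F), v i (algebraMap F K (C.eval s)) = max 1 (v i (algebraMap F K s)) ^ D

/-- The set AA: between f^m and f. -/
def InA (v : ∀ i, Valuation K (Γ i)) (f : F) (m : ℕ) (X : K) : Prop :=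
  X ≠ 0 ∧ ∀ i, v i (algebraMap F K f) ^ m ≤ v i X ∧ v i X ≤ v i (algebraMap F K f)

/-- (E1), (E2). -/
structure EFun (v : ∀ i, Valuation K (Γ i)) (f : F) (m : ℕ) {T : Type u} [AddCommGroup T] (E : K → K → T) : Prop where
  mul : ∀ x y X, x ≠ 0 → y ≠ 0 → InA F v f m X → E (x * y) X = E x X + E y X
  triv : ∀ x X, x ≠ 0 → InA F v f m X → (∀ i, Triv F (v i) x) → E x X = 0
  rel : ∀ X Y, InA F v f m X → InA F v f m Y → X ≠ Y → (∀ i, v i (algebraMap F K f) ^ m ≤ v i (X - Y)) →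
    E (X - Y) X - E (X - Y) Y = E X X - E X Y

/-- A bimultiplicative alternating symbol supported on the v i. -/
structure Sym (v : ∀ i, Valuation K (Γ i)) {T : Type u} [AddCommGroup T] (S : K → K → T) : Prop where
  mull : ∀ x y z, x ≠ 0 → y ≠ 0 → z ≠ 0 → S (x * y) z = S x z + S y z
  mulr : ∀ x y z, x ≠ 0 → y ≠ 0 → z ≠ 0 → S x (y * z) = S x y + S x z
  self : ∀ x, x ≠ 0 → S x x = 0
  trivl : ∀ x y, x ≠ 0 → y ≠ 0 → (∀ i, Triv F (v i) x) → S x y = 0
  trivr : ∀ x y, x ≠ 0 → y ≠ 0 → (∀ i, Triv F (v i) y) → S x y = 0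

/-- Steinberg relation for the u with |f|^k at most |u|, |1-u| and |u| at most 1. -/
def Good (v : ∀ i, Valuation K (Γ i)) (f : F) (k : ℕ) {T : Type u} [AddCommGroup T] (S : K → K → T) : Prop :=
  ∀ u : K, u ≠ 0 → u ≠ 1 → (∀ i, v i u ≤ 1) → (∀ i, v i (algebraMap F K f) ^ k ≤ v i u) →
    (∀ i, v i (algebraMap F K f) ^ k ≤ v i (1 - u)) → S u (1 - u) = 0

end Defs

/-- Section 1: from E to g and S. -/
def EtoSStatement : Prop := ∀ (F K : Type u) [Field F] [Field K] [Algebra F K] [FiniteDimensional F K]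
  (I : Type u) [Nonempty I] (Γ : I → Type u) [∀ i, LinearOrderedCommGroupWithZero (Γ i)] (v : ∀ i, Valuation K (Γ i))
  (c0 : K →ₗ[F] F) (r : ℕ) (ρ : K) (f : F) (D : ℕ) (C : F[X]) (k : Type) (T : Type u) [Field k] [AddCommGroup T] [Module k T]
  (m : ℕ) (E : K → K → T), Fam F v c0 r ρ f D C → (r : k) ≠ 0 → (2 : k) ≠ 0 → 5 ≤ m → EFun F v f m E →
  ∃ (g : K → T) (S : K → K → T), (∀ x y, x ≠ 0 → y ≠ 0 → g (x * y) = g x + g y) ∧
    (∀ x, x ≠ 0 → (∀ i, Triv F (v i) x) → g x = 0) ∧ Sym F v S ∧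
    (∀ x X, x ≠ 0 → InA F v f (m - 1) X → E x X = g x + S x X) ∧ Good F v f (m - 2) S

/-- (2.1): disjoint supports. -/
def DisjStatement : Prop := ∀ (F K : Type u) [Field F] [Field K] [Algebra F K] [FiniteDimensional F K]
  (I : Type u) [Nonempty I] (Γ : I → Type u) [∀ i, LinearOrderedCommGroupWithZero (Γ i)] (v : ∀ i, Valuation K (Γ i))
  (c0 : K →ₗ[F] F) (r : ℕ) (ρ : K) (f : F) (D : ℕ) (C : F[X]) (k : Type) (T : Type u) [Field k] [AddCommGroup T] [Module k T]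
  (S : K → K → T), Fam F v c0 r ρ f D C → (r : k) ≠ 0 → Sym F v S → Good F v f 2 S →
  ∀ x y : K, x ≠ 0 → y ≠ 0 →
    (∀ i, TrivK F (v i) (v i (algebraMap F K f) ^ 9) x ∨ TrivK F (v i) (v i (algebraMap F K f) ^ 9) y) → S x y = 0

/-- (3.1): the Steinberg relation for integral elements. -/
def IntStStatement : Prop := ∀ (F K : Type u) [Field F] [Field K] [Algebra F K] [FiniteDimensional F K]
  (I : Type u) [Nonempty I] (Γ : I → Type u) [∀ i, LinearOrderedCommGroupWithZero (Γ i)] (v : ∀ i, Valuation K (Γ i))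
  (c0 : K →ₗ[F] F) (r : ℕ) (ρ : K) (f : F) (D : ℕ) (C : F[X]) (k : Type) (T : Type u) [Field k] [AddCommGroup T] [Module k T]
  (S : K → K → T), Fam F v c0 r ρ f D C → (r : k) ≠ 0 → Sym F v S → Good F v f (2 * D + 28) S →
  ∀ u : K, u ≠ 0 → u ≠ 1 → (∀ i, v i u ≤ 1) → S u (1 - u) = 0

/-- (3.2): the Steinberg relation for all elements. -/
def FullStStatement : Prop := ∀ (F K : Type u) [Field F] [Field K] [Algebra F K] [FiniteDimensional F K]
  (I : Type u) [Nonempty I] (Γ : I → Type u) [∀ i, LinearOrderedCommGroupWithZero (Γ i)] (v : ∀ i, Valuation K (Γ i))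
  (c0 : K →ₗ[F] F) (r : ℕ) (ρ : K) (f : F) (D : ℕ) (C : F[X]) (k : Type) (T : Type u) [Field k] [AddCommGroup T] [Module k T]
  (S : K → K → T), Fam F v c0 r ρ f D C → (2 : k) ≠ 0 → Sym F v S →
  (∀ u : K, u ≠ 0 → u ≠ 1 → (∀ i, v i u ≤ 1) → S u (1 - u) = 0) →
  ∀ u : K, u ≠ 0 → u ≠ 1 → S u (1 - u) = 0

/-- (ALG). -/
def AlgStatement : Prop := ∀ (F K : Type u) [Field F] [Field K] [Algebra F K] [FiniteDimensional F K]
  (I : Type u) [Nonempty I] (Γ : I → Type u) [∀ i, LinearOrderedCommGroupWithZero (Γ i)] (v : ∀ i, Valuation K (Γ i))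
  (c0 : K →ₗ[F] F) (r : ℕ) (ρ : K) (f : F) (D : ℕ) (C : F[X]) (k : Type) (T : Type u) [Field k] [AddCommGroup T] [Module k T]
  (m : ℕ) (E : K → K → T), Fam F v c0 r ρ f D C → (r : k) ≠ 0 → (2 : k) ≠ 0 → 2 * D + 30 ≤ m → EFun F v f m E →
  ∃ (g : K → T) (S : K → K → T), (∀ x y, x ≠ 0 → y ≠ 0 → g (x * y) = g x + g y) ∧
    (∀ x, x ≠ 0 → (∀ i, Triv F (v i) x) → g x = 0) ∧ Sym F v S ∧
    (∀ x X, x ≠ 0 → InA F v f (m - 1) X → E x X = g x + S x X) ∧
    (∀ u : K, u ≠ 0 → u ≠ 1 → S u (1 - u) = 0)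

end CL
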