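import Mathlib

/-!
Project CL (MP_defcf3_al): positive characteristic, Theorem (M) of findings 4292 and 4293. Definitions and first lemmas.
-/

open Polynomial

namespace CL

universe u

section InN

variable {K : Type*} [Field K]

/-- x is the value of an element of the subgroup N. -/
def InN (N : Subgroup Kˣ) (x : K) : Prop := ∃ w ∈ N, (w : K) = x

/-- x and y are non-zero and agree modulo N. -/
def Sim (N : Subgroup Kˣ) (x y : K) : Prop := x ≠ 0 ∧ y ≠ 0 ∧ InN N (x / y)

variable {N : Subgroup Kˣ} {x y z w : K}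

theorem InN.ne_zero (h : InN N x) : x ≠ 0 := by
  obtain ⟨w, _, rfl⟩ := h
  exact w.ne_zero

theorem InN.one : InN N (1 : K) := ⟨1, N.one_mem, rfl⟩

theorem InN.mul (hx : InN N x) (hy : InN N y) : InN N (x * y) := by
  obtain ⟨a, ha, rfl⟩ := hx
  obtain ⟨b, hb, rfl⟩ := hy
  exact ⟨a * b, N.mul_mem ha hb, by simp⟩

theorem InN.inv (hx : InN N x) : InN N x⁻¹ := by
  obtain ⟨a, ha, rfl⟩ := hx
  exact ⟨a⁻¹, N.inv_mem ha, by simp⟩

theorem InN.div (hx : InN N x) (hy : InN N y) : InN N (x / y) := by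
  rw [div_eq_mul_inv]
  exact hx.mul hy.inv

theorem InN.pow (hx : InN N x) (m : ℕ) : InN N (x ^ m) := by
  obtain ⟨a, ha, rfl⟩ := hx
  exact ⟨a ^ m, N.pow_mem ha m, by simp⟩

theorem Sim.refl (h : x ≠ 0) : Sim N x x := ⟨h, h, by rw [div_self h]; exact InN.one⟩

theorem Sim.symm (h : Sim N x y) : Sim N y x := ⟨h.2.1, h.1, by rw [← inv_div]; exact h.2.2.inv⟩

theorem Sim.trans (h : Sim N x y) (h' : Sim N y z) : Sim N x z := by
  refine ⟨h.1, h'.2.1, ?_⟩
  have : x / z = (x / y) * (y / z) := by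
    field_simp [h.2.1]
  rw [this]
  exact h.2.2.mul h'.2.2

theorem Sim.mul (h : Sim N x y) (h' : Sim N z w) : Sim N (x * z) (y * w) := by
  refine ⟨mul_ne_zero h.1 h'.1, mul_ne_zero h.2.1 h'.2.1, ?_⟩
  rw [mul_div_mul_comm]
  exact h.2.2.mul h'.2.2

theorem Sim.inv (h : Sim N x y) : Sim N x⁻¹ y⁻¹ := by
  refine ⟨inv_ne_zero h.1, inv_ne_zero h.2.1, ?_⟩
  have : x⁻¹ / y⁻¹ = (x / y)⁻¹ := by
    rw [inv_div, div_eq_mul_inv, inv_inv, mul_comm, div_eq_mul_inv]
  rw [this]
  exact h.2.2.inv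

theorem Sim.div (h : Sim N x y) (h' : Sim N z w) : Sim N (x / z) (y / w) := by
  rw [div_eq_mul_inv, div_eq_mul_inv]
  exact h.mul h'.inv

theorem Sim.mul_left (h : Sim N x y) (hz : z ≠ 0) : Sim N (z * x) (z * y) := (Sim.refl hz).mul h

theorem Sim.of_inN (hx : InN N x) (hy : y ≠ 0) : Sim N (x * y) y := by
  refine ⟨mul_ne_zero hx.ne_zero hy, hy, ?_⟩
  rw [mul_div_assoc, div_self hy, mul_one]
  exact hx

theorem Sim.inN (h : Sim N x y) (hy : InN N y) : InN N x := by
  have := h.2.2.mul hy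
  rwa [div_mul_cancel₀ _ h.2.1] at this

theorem InN.sim (hx : InN N x) (hy : InN N y) : Sim N x y := ⟨hx.ne_zero, hy.ne_zero, hx.div hy⟩

end InN

section Defs

variable (F : Type*) {K : Type*} [Field F] [Field K] [Algebra F K]

/-- The trace of K over F. -/
noncomputable def tr (x : K) : F := Algebra.trace F K x

/-- The transvection z + tr(az). -/
noncomputable def TT (a z : K) : K := z + algebraMap F K (tr F (a * z))

/-- The set Delta plus. -/
def Dp (N : Subgroup Kˣ) : Set K := {a | 1 + tr F a ≠ 0 ∧ ∀ z : K, z ≠ 0 → Sim N (TT F a z) z}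

/-- The set Delta. -/
def Dz (N : Subgroup Kˣ) : Set K := {a | a ∈ Dp F N ∧ tr F a = 0}

/-- The ring M of the multipliers of Delta (as a set). -/
def MM (N : Subgroup Kˣ) : Set F := {c | ∀ a ∈ Dz F N, c • a ∈ Dz F N}

/-- The degree of g. -/
noncomputable def nn (g : K) : ℕ := (minpoly F g).natDegree

/-- delta of a generator. -/
noncomputable def dl (g : K) : K := (aeval g (derivative (minpoly F g)))⁻¹

/-- The polynomials P div X^(i+1). -/
noncomputable def Bq (g : K) (i : ℕ) : F[X] := divX^[i + 1] (minpoly F g)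

variable {F}

/-- Raise the coefficients of a polynomial to the power q. -/
noncomputable def tw (q : ℕ) (A : F[X]) : F[X] :=
  ∑ i ∈ Finset.range (A.natDegree + 1), monomial i (A.coeff i ^ q)

variable (F)

/-- G = P_1 - P. -/
noncomputable def GG (q : ℕ) (ρ : K) : F[X] := tw q (minpoly F ρ) - minpoly F ρ

/-- g is a generator of K over F, separable, of degree at least 2. -/
structure Gen (g : K) : Prop where
  top : Algebra.adjoin F {g} = ⊤
  int : IsIntegral F g
  sep : (minpoly F g).Separable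
  two : 2 ≤ nn F g

/-- The standing hypotheses of Theorem (M). -/
structure Dat (l p e : ℕ) (N : Subgroup Kˣ) (ρ : K) : Prop where
  lpr : l.Prime
  ppr : p.Prime
  chr : CharP F l
  perf : ∀ x : F, ∃ y : F, y ^ l = x
  gen : Gen F ρ
  epos : 1 ≤ e
  qmod : p ∣ l ^ e - 1
  base : ∀ c : F, c ≠ 0 → InN N (algebraMap F K c)
  tors : ∀ z : K, z ≠ 0 → InN N (z ^ p)
  tau : ∀ A : F[X], A ≠ 0 → A.natDegree < nn F ρ → Sim N (aeval (ρ ^ l ^ e) A) (aeval ρ A)

/-- The ring A of section 4. -/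
def AA (N : Subgroup Kˣ) (ρ : K) : Subring F :=
  Subring.closure (MM F N ∪ {c | ∃ s : F, c = ((minpoly F ρ).eval s)⁻¹} ∪
    {c | ∃ s : F, c = s * ((minpoly F ρ).eval s)⁻¹})

/-- The A-submodule Delta_A of Delta. -/
def DA (N : Subgroup Kˣ) (ρ : K) : Set K := {x | ∀ a ∈ AA F N ρ, a • x ∈ Dz F N}

/-- The localised module V Delta_A. -/
def VD (N : Subgroup Kˣ) (ρ : K) (V : ValuationSubring F) : Set K :=
  {x | ∃ b ∈ AA F N ρ, V.valuation b = 1 ∧ b • x ∈ DA F N ρ}

end Defs

section Val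

variable {F : Type*} {K : Type*} [Field F] [Field K] [Algebra F K]

/-- All coefficients of A are in V. -/
def CoV (V : ValuationSubring F) (A : F[X]) : Prop := ∀ i, A.coeff i ∈ V

/-- All coefficients of A are in the maximal ideal of V. -/
def CoM (V : ValuationSubring F) (A : F[X]) : Prop := ∀ i, V.valuation (A.coeff i) < 1

theorem CoM.coV {V : ValuationSubring F} {A : F[X]} (h : CoM V A) : CoV V A := fun i =>
  (V.valuation_le_one_iff _).1 (h i).le

theorem CoV.add {V : ValuationSubring F} {A B : F[X]} (hA : CoV V A) (hB : CoV V B) : CoV V (A + B) := by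
  intro i
  rw [coeff_add]
  exact V.add_mem _ _ (hA i) (hB i)

theorem CoV.neg {V : ValuationSubring F} {A : F[X]} (hA : CoV V A) : CoV V (-A) := by
  intro i
  rw [coeff_neg]
  exact V.neg_mem _ (hA i)

theorem CoV.sub {V : ValuationSubring F} {A B : F[X]} (hA : CoV V A) (hB : CoV V B) : CoV V (A - B) := by
  rw [sub_eq_add_neg]
  exact hA.add hB.neg

theorem CoV.mul {V : ValuationSubring F} {A B : F[X]} (hA : CoV V A) (hB : CoV V B) : CoV V (A * B) := by
  intro i
  rw [coeff_mul]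
  exact V.toSubring.sum_mem fun c _ => V.mul_mem _ _ (hA _) (hB _)

theorem CoV.C {V : ValuationSubring F} {c : F} (hc : c ∈ V) : CoV V (C c) := by
  intro i
  rw [coeff_C]
  split_ifs
  · exact hc
  · exact V.zero_mem

theorem CoV.X {V : ValuationSubring F} : CoV V (X : F[X]) := by
  intro i
  rw [coeff_X]
  split_ifs
  · exact V.one_mem
  · exact V.zero_mem

theorem CoV.pow {V : ValuationSubring F} {A : F[X]} (hA : CoV V A) (m : ℕ) : CoV V (A ^ m) := by
  induction m with
  | zero => rw [pow_zero, ← C_1]; exact CoV.C V.one_mem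
  | succ m ih => rw [pow_succ]; exact ih.mul hA

theorem CoM.add {V : ValuationSubring F} {A B : F[X]} (hA : CoM V A) (hB : CoM V B) : CoM V (A + B) := by
  intro i
  rw [coeff_add]
  exact lt_of_le_of_lt (V.valuation.map_add _ _) (max_lt (hA i) (hB i))

theorem CoM.neg {V : ValuationSubring F} {A : F[X]} (hA : CoM V A) : CoM V (-A) := by
  intro i
  rw [coeff_neg, Valuation.map_neg]
  exact hA i

theorem val_lt_add {V : ValuationSubring F} {x y : F} (hx : V.valuation x < 1) (hy : V.valuation y < 1) :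
    V.valuation (x + y) < 1 := lt_of_le_of_lt (V.valuation.map_add _ _) (max_lt hx hy)

theorem val_lt_mul {V : ValuationSubring F} {x y : F} (hx : x ∈ V) (hy : V.valuation y < 1) :
    V.valuation (x * y) < 1 := by
  rw [Valuation.map_mul]
  have h1 : V.valuation x ≤ 1 := (V.valuation_le_one_iff x).2 hx
  calc V.valuation x * V.valuation y ≤ 1 * V.valuation y := by gcongr
    _ < 1 := by rw [one_mul]; exact hy

theorem val_lt_sum {V : ValuationSubring F} {ι : Type*} (s : Finset ι) (f : ι → F)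
    (h : ∀ i ∈ s, V.valuation (f i) < 1) : V.valuation (∑ i ∈ s, f i) < 1 := by
  classical
  induction s using Finset.induction_on with
  | empty => simp
  | insert a s ha ih =>
    rw [Finset.sum_insert ha]
    exact val_lt_add (h _ (Finset.mem_insert_self _ _)) (ih fun i hi => h i (Finset.mem_insert_of_mem hi))

theorem CoM.mul {V : ValuationSubring F} {A B : F[X]} (hA : CoV V A) (hB : CoM V B) : CoM V (A * B) := by
  intro i
  rw [coeff_mul]
  exact val_lt_sum _ _ fun c _ => val_lt_mul (hA _) (hB _)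

/-- The ring V[g]. -/
def BB (V : ValuationSubring F) (g : K) : Subring K where
  carrier := {x | ∃ A : F[X], CoV V A ∧ aeval g A = x}
  mul_mem' := by
    rintro _ _ ⟨A, hA, rfl⟩ ⟨B, hB, rfl⟩
    exact ⟨A * B, hA.mul hB, by simp⟩
  one_mem' := ⟨C 1, CoV.C V.one_mem, by simp⟩
  add_mem' := by
    rintro _ _ ⟨A, hA, rfl⟩ ⟨B, hB, rfl⟩
    exact ⟨A + B, hA.add hB, by simp⟩
  zero_mem' := ⟨C 0, CoV.C V.zero_mem, by simp⟩
  neg_mem' := by
    rintro _ ⟨A, hA, rfl⟩
    exact ⟨-A, hA.neg, by simp⟩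

/-- The ideal m_V V[g] of V[g]. -/
def MB (V : ValuationSubring F) (g : K) : AddSubgroup K where
  carrier := {x | ∃ A : F[X], CoM V A ∧ aeval g A = x}
  add_mem' := by
    rintro _ _ ⟨A, hA, rfl⟩ ⟨B, hB, rfl⟩
    exact ⟨A + B, hA.add hB, by simp⟩
  zero_mem' := ⟨0, by intro i; simp, by simp⟩
  neg_mem' := by
    rintro _ ⟨A, hA, rfl⟩
    exact ⟨-A, hA.neg, by simp⟩

theorem MB_le {V : ValuationSubring F} {g x : K} (h : x ∈ MB V g) : x ∈ BB V g := by
  obtain ⟨A, hA, rfl⟩ := h
  exact ⟨A, hA.coV, rfl⟩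

theorem BB_mul_MB {V : ValuationSubring F} {g x y : K} (hx : x ∈ BB V g) (hy : y ∈ MB V g) :
    x * y ∈ MB V g := by
  obtain ⟨A, hA, rfl⟩ := hx
  obtain ⟨B, hB, rfl⟩ := hy
  exact ⟨A * B, CoM.mul hA hB, by simp⟩

theorem gen_mem_BB (V : ValuationSubring F) (g : K) : g ∈ BB V g := ⟨X, CoV.X, by simp⟩

theorem alg_mem_BB {V : ValuationSubring F} {g : K} {c : F} (hc : c ∈ V) : algebraMap F K c ∈ BB V g :=
  ⟨C c, CoV.C hc, by simp⟩

theorem alg_mem_MB {V : ValuationSubring F} {g : K} {c : F} (hc : V.valuation c < 1) :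
    algebraMap F K c ∈ MB V g := by
  refine ⟨C c, ?_, by simp⟩
  intro i
  rw [coeff_C]
  split_ifs
  · exact hc
  · simp

/-- Every element of V[g] outside m_V V[g] is a unit of V[g]. -/
def UnitProp (V : ValuationSubring F) (g : K) : Prop := ∀ x ∈ BB V g, x ∉ MB V g → x⁻¹ ∈ BB V g

/-- The places in Bad(P). -/
def Bad (q : ℕ) (ρ : K) (V : ValuationSubring F) : Prop :=
  ∃ P : Polynomial V, P.map (algebraMap V F) = minpoly F ρ ∧
    Irreducible (P.map (IsLocalRing.residue V)) ∧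
    ∀ i, (IsLocalRing.residue V (P.coeff i)) ^ q = IsLocalRing.residue V (P.coeff i)

end Val

end CL
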