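import Pool.Agent.Lib.MP_defcf3_al.CL.Cut

/-!
Project CL (MP_defcf3_al), part (B), row Ctx: the choice of f, k, K, mm.
-/

open Polynomial

namespace CL

universe u

open H88

theorem ctx_proof : CtxStatement.{u} := by
  intro F _ l p e n r Z P a D Cp E cont H hN hA hC hP hd hirr ha h0 hne
  have hl := hN.lpr
  have hc := hN.chr
  obtain ⟨f, c, hf0, hc1, hcut, hiter⟩ := cut_proof F l p e n r Z P a D Cp E cont H hN hA hC hP hd ha h0 hne
  have hr : 1 ≤ r := by have := hN.r2; omega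
  have hN1 : 1 ≤ e * n.factorial := Nat.mul_pos (by have := hN.epos; omega) (Nat.factorial_pos n)
  have hQ2 : 2 ≤ QQ l e n := by
    unfold QQ
    exact Nat.one_lt_pow (by omega) hl.one_lt
  have hQpow : ∀ j, j < QQ l e n ^ j := fun j => Nat.lt_pow_self (by omega)
  have hQe : ∀ j, QQ l e n ^ j = l ^ (e * n.factorial * j) := fun j => by rw [QQ, ← pow_mul]
  set G := tw ((l ^ e) ^ a) P - P with hG
  have hG0 : G ≠ 0 := sub_ne_zero.2 h0
  have hBX : ∀ V ∈ Bd Z (QQ l e n) P, V ∈ XX Z D Cp := fun V hV =>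
    ⟨hV.1, hA.an P V hP (by rw [hd]; exact hN.r2) (by rw [hd]; exact hN.rn.le) hV.2.1 hV.2.2⟩
  have hfB : ∀ V ∈ Bd Z (QQ l e n) P, V.valuation f < 1 ↔ V ∈ Za Z l e n a P := fun V hV =>
    ⟨fun h => ⟨hV, (hcut V (hBX V hV)).2.1.1 h⟩, fun h => (hcut V (hBX V hV)).2.1.2 h.2⟩
  have hG1 : ∀ V ∈ Za Z l e n a P, pn V G < 1 := fun V hV => (coM_iff V _).1 hV.2.1
  have hfV : ∀ V ∈ Za Z l e n a P, V.valuation f = pn V G ^ c := fun V hV =>
    (hcut V (hBX V hV.1)).2.2 ((hfB V hV.1).2 hV)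
  have anti : ∀ V ∈ Za Z l e n a P, ∀ i j : ℕ, i ≤ j → pn V G ^ j ≤ pn V G ^ i := fun V hV i j hij =>
    pow_le_pow_right_of_le_one' (hG1 V hV).le hij
  -- norms of the differences
  have hdiff : ∀ V ∈ Za Z l e n a P, ∀ k i : ℕ, 1 ≤ i →
      pn V (tw (QQ l e n ^ k) P - tw (QQ l e n ^ (k + i)) P) = pn V G ^ QQ l e n ^ k := by
    intro V hV k i hi
    have e1 : tw (QQ l e n ^ k) P - tw (QQ l e n ^ (k + i)) P = -tw (QQ l e n ^ k) (tw (QQ l e n ^ i) P - P) := by
      rw [hQe, hQe, hQe, tw_sub l hl hc, tw_tw l hl, ← mul_add]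
      ring
    rw [e1, pn_neg, hQe k, pn_tw V _ (pow_ne l hl _), hiter V hV i hi]
  refine ⟨f, fun m0 => ?_⟩
  set mm := max m0 (QQ l e n ^ c + 3) with hmm
  have hm1 : QQ l e n ^ c + 3 ≤ mm := le_max_right _ _
  set K := c * (mm + 2) + c + 1 with hK
  have hKk : c < K := by omega
  have hQK : c * (mm + 2) ≤ QQ l e n ^ K := by
    have := hQpow K
    omega
  have hcm : QQ l e n ^ c ≤ c * (mm - 2) := by
    calc QQ l e n ^ c ≤ 1 * (mm - 2) := by omega
      _ ≤ c * (mm - 2) := Nat.mul_le_mul_right _ hc1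
  have hX : ∀ V ∈ Za Z l e n a P, pn V (tw (QQ l e n ^ c) P - tw (QQ l e n ^ K) P) = pn V G ^ QQ l e n ^ c := by
    intro V hV
    have : K = c + (K - c) := by omega
    rw [this]
    exact hdiff V hV c (K - c) (by omega)
  have hfm : ∀ V ∈ Za Z l e n a P, pn V G ^ QQ l e n ^ K ≤ V.valuation f ^ (mm + 2) := by
    intro V hV
    rw [hfV V hV, ← pow_mul]
    exact anti V hV _ _ hQK
  refine ⟨K, mm, c, le_max_left _ _, hKk, ?_, ?_⟩
  · refine ⟨hN, hA, hC, hP, hd, hirr, ha, hne, hf0, fun V hV => (hcut V hV).1, hfB, by omega, ?_, ?_⟩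
    · intro V hV i
      rcases Nat.eq_zero_or_pos i with h | h
      · rw [h, add_zero, sub_self, pn_zero]; exact zero_le
      · rw [hdiff V hV K i h]; exact hfm V hV
    · intro V hV
      rw [hQe K, pn_tw V _ (pow_ne l hl _), ← hQe K]
      exact hfm V hV
  · refine ⟨?_, ?_, ?_⟩
    · obtain ⟨V, hV⟩ := hne
      intro h
      have h1 := hX V hV
      rw [h, pn_zero] at h1
      exact pow_ne_zero _ (pn_ne_zero V hG0) h1.symm
    · rw [hQe, hQe]
      exact monic_sub_natDegree hr (tw_monic l hl hc _ hP) (tw_monic l hl hc _ hP)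
        ((tw_natDegree l hl hc _ P).trans hd) ((tw_natDegree l hl hc _ P).trans hd)
    · intro V hV
      rw [hX V hV, hfV V hV]
      refine ⟨?_, ?_⟩
      · rw [← pow_mul]
        exact anti V hV _ _ hcm
      · exact anti V hV _ _ (hQpow c).le

end CL
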