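import Pool.Agent.Lib.MP_defcf3_al.CL.Iface

/-!
Row Euler of the board CL: the formulas (E1), (E2).
-/

set_option autoImplicit false

open Polynomial

namespace CL

universe u

namespace H59

section

set_option linter.unusedSectionVars false

variable {F K : Type u} [Field F] [Field K] [Algebra F K] [FiniteDimensional F K] {g : K}

/-- The power basis of a generator. -/
noncomputable def pb (h : Gen F g) : PowerBasis F K := PowerBasis.ofAdjoinEqTop h.int h.top

theorem pb_gen (h : Gen F g) : (pb h).gen = g := rfl

theorem pb_dim (h : Gen F g) : (pb h).dim = nn F g := rfl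

theorem sepK (h : Gen F g) : Algebra.IsSeparable F K := by
  have h1 : IntermediateField.adjoin F {g} = ⊤ := IntermediateField.adjoin_eq_top_of_algebra F _ h.top
  have h2 : Algebra.IsSeparable F (IntermediateField.adjoin F {g}) :=
    (IntermediateField.isSeparable_adjoin_simple_iff_isSeparable F K).2 h.sep
  rw [h1] at h2
  exact AlgEquiv.Algebra.isSeparable IntermediateField.topEquiv

theorem dl_ne (h : Gen F g) : aeval g (derivative (minpoly F g)) ≠ 0 :=
  h.sep.aeval_derivative_ne_zero (minpoly.aeval F g)

/-- Euler: the traces of the powers. -/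
theorem tr_pow (h : Gen F g) (j : ℕ) (hj : j < nn F g) :
    tr F (dl F g * g ^ j) = if j = nn F g - 1 then 1 else 0 := by
  have : Algebra.IsSeparable F K := sepK h
  have h2 := h.two
  have hn : nn F g - 1 < (pb h).dim := by rw [pb_dim]; omega
  have h1 := Module.Basis.trace_traceDual_mul (K := F) (L := K) (pb h).basis ⟨nn F g - 1, hn⟩ ⟨j, hj⟩
  have hb : ((pb h).basis ⟨j, hj⟩ : K) = g ^ j := by
    rw [PowerBasis.basis_eq_pow]; rfl
  have hd : (pb h).basis.traceDual ⟨nn F g - 1, hn⟩ = dl F g := by
    rw [Module.Basis.traceDual_powerBasis_eq, pb_gen]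
    have h3 : (minpolyDiv F g).coeff (nn F g - 1) = 1 := by
      have h4 := minpolyDiv_monic h.int
      have h5 := natDegree_minpolyDiv (R := F) (x := g)
      unfold nn
      rw [← h5]
      exact h4
    show (minpolyDiv F g).coeff (nn F g - 1) / _ = _
    rw [h3, one_div]
    rfl
  rw [hd, hb] at h1
  unfold tr
  rw [h1]
  by_cases hjn : j = nn F g - 1
  · rw [if_pos hjn, if_pos (Fin.ext hjn)]
  · rw [if_neg hjn, if_neg fun h => hjn (congrArg Fin.val h)]

/-- (E1). -/
theorem tr_aeval (h : Gen F g) (A : F[X]) (hA : A.natDegree < nn F g) :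
    tr F (dl F g * aeval g A) = A.coeff (nn F g - 1) := by
  rw [aeval_eq_sum_range' hA, Finset.mul_sum]
  unfold tr
  rw [map_sum]
  have h1 : ∀ i ∈ Finset.range (nn F g), Algebra.trace F K (dl F g * A.coeff i • g ^ i) =
      if i = nn F g - 1 then A.coeff i else 0 := by
    intro i hi
    have h2 := tr_pow h i (Finset.mem_range.1 hi)
    unfold tr at h2
    rw [mul_smul_comm, map_smul, h2]
    split_ifs
    · rw [smul_eq_mul, mul_one]
    · rw [smul_zero]
  rw [Finset.sum_congr rfl h1, Finset.sum_ite_eq' (Finset.range (nn F g))]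
  rw [if_pos]
  rw [Finset.mem_range]
  have := h.two
  omega

theorem eval_ne (h : Gen F g) (s : F) : (minpoly F g).eval s ≠ 0 := by
  intro h0
  have h1 := minpoly.irreducible h.int
  have h2 : (minpoly F g).degree = 1 := degree_eq_one_of_irreducible_of_root h1 (x := s) h0
  have h3 : nn F g = 1 := natDegree_eq_of_degree_eq_some h2
  have := h.two
  omega

theorem sub_ne (h : Gen F g) (s : F) : g - algebraMap F K s ≠ 0 := by
  intro h0
  apply eval_ne h s
  have h1 : g = algebraMap F K s := sub_eq_zero.1 h0
  have h2 := minpoly.aeval F g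
  rw [h1, aeval_algebraMap_apply, map_eq_zero] at h2
  rw [h1]
  exact h2

/-- (E2). -/
theorem tr_div (h : Gen F g) (A : F[X]) (hA : A.natDegree < nn F g) (s : F) :
    tr F (dl F g * aeval g A / (g - algebraMap F K s)) = - (A.eval s / (minpoly F g).eval s) := by
  have hs := sub_ne h s
  have he := eval_ne h s
  have h2 := h.two
  have hm := minpoly.monic h.int
  -- division by X - s
  set Q : F[X] := (minpoly F g) /ₘ (X - C s) with hQ
  have hQ1 : minpoly F g = C ((minpoly F g).eval s) + (X - C s) * Q := by
    have := modByMonic_add_div (minpoly F g) (X - C s)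
    rw [modByMonic_X_sub_C_eq_C_eval] at this
    exact this.symm
  have hQd : Q.natDegree = nn F g - 1 := by
    rw [hQ, natDegree_divByMonic _ (monic_X_sub_C s), natDegree_X_sub_C]; rfl
  have hQm : Q.coeff (nn F g - 1) = 1 := by
    rw [← hQd]
    have : Q.leadingCoeff = (minpoly F g).leadingCoeff := leadingCoeff_divByMonic_of_monic (monic_X_sub_C s) (by
      rw [degree_X_sub_C, degree_eq_natDegree hm.ne_zero]
      have : (1 : WithBot ℕ) ≤ ((nn F g : ℕ) : WithBot ℕ) := by exact_mod_cast (by omega : 1 ≤ nn F g)
      exact this)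
    rw [hm.leadingCoeff] at this
    exact this
  set A₁ : F[X] := A /ₘ (X - C s) with hA₁
  have hA1 : A = C (A.eval s) + (X - C s) * A₁ := by
    have := modByMonic_add_div A (X - C s)
    rw [modByMonic_X_sub_C_eq_C_eval] at this
    exact this.symm
  have hAd : A₁.natDegree < nn F g - 1 := by
    rw [hA₁, natDegree_divByMonic _ (monic_X_sub_C s), natDegree_X_sub_C]
    omega
  have hg1 : (g - algebraMap F K s) * aeval g Q = - algebraMap F K ((minpoly F g).eval s) := by
    have h3 := congrArg (aeval g) hQ1
    rw [minpoly.aeval, map_add, map_mul, map_sub, aeval_X, aeval_C, aeval_C] at h3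
    linear_combination -h3
  have hg2 : aeval g A = algebraMap F K (A.eval s) + (g - algebraMap F K s) * aeval g A₁ := by
    have h3 := congrArg (aeval g) hA1
    rw [map_add, map_mul, map_sub, aeval_X, aeval_C, aeval_C] at h3
    exact h3
  have heK : algebraMap F K ((minpoly F g).eval s) ≠ 0 := by rw [Ne, map_eq_zero]; exact he
  have key : dl F g * aeval g A / (g - algebraMap F K s) =
      dl F g * aeval g A₁ - (A.eval s / (minpoly F g).eval s) • (dl F g * aeval g Q) := by
    rw [Algebra.smul_def, map_div₀, hg2]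
    rw [div_eq_iff hs]
    field_simp
    linear_combination (algebraMap F K (A.eval s) * dl F g) * hg1
  rw [key]
  have t1 := tr_aeval h A₁ (by omega)
  have t2 := tr_aeval h Q (by omega)
  rw [coeff_eq_zero_of_natDegree_lt hAd] at t1
  rw [hQm] at t2
  unfold tr at t1 t2 ⊢
  rw [map_sub, map_smul, t1, t2, zero_sub, smul_eq_mul, mul_one]

end

end H59

/-- Euler. -/
theorem euler_proof : EulerStatement.{u} := by
  intro F K _ _ _ _ g h
  refine ⟨H59.tr_aeval h, fun s => ⟨H59.eval_ne h s, H59.sub_ne h s⟩, fun A hA s => H59.tr_div h A hA s, ?_, ?_, ?_, ?_⟩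
  · have := H59.sub_ne h 0
    rwa [map_zero, sub_zero] at this
  · exact inv_ne_zero (H59.dl_ne h)
  · exact (H59.pb h).finrank
  · intro x
    have h2 := h.two
    obtain ⟨A, h3, h4⟩ := (H59.pb h).exists_eq_aeval x
    exact ⟨A, h3, h4.symm⟩

end CL
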