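import Pool.Agent.Lib.MP_defcf3_al.CL.Final
import Pool.Agent.Lib.MP_defcf3_al.CL.SuppZ

/-!
(7.6) - (7.10): the final step.
-/

open Polynomial

namespace CL

universe u


theorem finalZ_proof (hCa : CalcStatement.{u}) (hSZ : ThmSZStatement.{u}) (hEu : EulerStatement.{u}) (hDu : DualStatement.{u}) (hIn : IntegStatement.{u})
    (hTw : TwistStatement.{u}) (hRA : RingAStatement.{u}) (hLo : LocalStatement.{u}) (hDi : DichStatement.{u})
    (hLa : LatticeStatement.{u}) (hUn : UnitStatement.{u}) (hRe : ResidueStatement.{u})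
    (hTr : TransferStatement.{u}) (hS : ThmSStatement.{u}) (hNo : NormStatement.{u}) (hRo : RootStatement.{u})
    (hAl : AlphaStatement.{u}) (hEn : EndStatement.{u}) : FinalZStatement.{u} := by
  intro F K _ _ _ _ l p e N ρ hD Z D f₀ hZ x hx hbad r hr hrF
  have hG := hD.gen
  have hT := hTw F K l p e N ρ hD
  have hE := hEu F K ρ hG
  have hn0 : nn F ρ ≠ 0 := by have := hG.two; omega
  have hl := hD.lpr.two_le
  have hl1 : l ^ 2 - 1 ≠ 0 := by
    have : 2 ^ 2 ≤ l ^ 2 := Nat.pow_le_pow_left hl 2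
    omega
  set k := nn F ρ * (l ^ 2 - 1) with hk
  have hk0 : k ≠ 0 := mul_ne_zero hn0 hl1
  have hnx : Algebra.norm F x ≠ 0 := by
    rw [Ne, Algebra.norm_eq_zero_iff]
    exact hx
  have hnx' : algebraMap F K (Algebra.norm F x) ≠ 0 := by
    rw [Ne, map_eq_zero]
    exact hnx
  set y : K := x ^ nn F ρ / algebraMap F K (Algebra.norm F x) with hy
  have hy0 : y ≠ 0 := div_ne_zero (pow_ne_zero _ hx) hnx'
  have hynorm : Algebra.norm F y = 1 := by
    rw [hy, div_eq_mul_inv, map_mul, H3.norm_inv' hnx', map_pow, Algebra.norm_algebraMap, hE.2.2.2.2.2.1,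
      mul_inv_cancel₀ (pow_ne_zero _ hnx)]
  have hrnorm : Algebra.norm F r = 1 := by rw [hr, map_pow, hynorm, one_pow]
  obtain ⟨A, hAdeg, hA⟩ := hE.2.2.2.2.2.2 r
  obtain ⟨α, hα0, hα⟩ := hAl F K l ρ hG hD.lpr hD.chr hD.perf A hAdeg (by rw [hA]; exact hrnorm)
  refine ⟨α, hα0, ?_⟩
  by_contra hcon
  push Not at hcon
  set z : K := algebraMap F K α / (r - algebraMap F K α) with hz
  have hrα : r - algebraMap F K α ≠ 0 := sub_ne_zero.2 (hrF α)
  have hαK : algebraMap F K α ≠ 0 := by rw [Ne, map_eq_zero]; exact hα0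
  obtain ⟨V, hAV, h0, hadd, hsm, htr, hsq, hqq, hno, hsub⟩ := hLo F K l p e N ρ hD z hcon
  obtain ⟨W, hVW, hAW, h5⟩ := H3.five_of hDi hRA hTw hD hAV h0 hadd hsm htr hsq hqq
  have hcoef := h5.coef
  have hU : UnitProp W ρ := hUn F K (l ^ e) ρ W _ h5
  have hI := hIn F K ρ hG W hcoef
  have hR := hRe F K (l ^ e) l ρ W hG hD.lpr hD.chr hD.perf hcoef hU
  have hDual := hDu F K ρ hG
  have hLat := hLa F K (l ^ e) ρ W _ h5
  have h1M : (1 : K) ∉ MB W ρ := hR.2.2.2.1
  have hmulM := hR.2.2.2.2.1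
  -- y is a unit of V[rho]
  have hyB : y ∈ BB W ρ := by
    obtain ⟨c, hc, x', hx'B, hx'M, hxx⟩ := hR.2.2.1 x hx
    have hx'0 : x' ≠ 0 := by rintro rfl; exact hx'M (MB W ρ).zero_mem
    have hN1 : Algebra.norm F x' ∈ W := (hNo F K ρ hG W hcoef).1 x' hx'B
    have hN2 : (Algebra.norm F x')⁻¹ ∈ W := by
      rw [← H3.norm_inv' hx'0]
      exact (hNo F K ρ hG W hcoef).1 _ (hU x' hx'B hx'M)
    have e1 : y = x' ^ nn F ρ * algebraMap F K (Algebra.norm F x')⁻¹ := by
      rw [hy, hxx, Algebra.smul_def, map_mul (Algebra.norm F), Algebra.norm_algebraMap, hE.2.2.2.2.2.1, mul_pow,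
        map_mul, map_pow, map_inv₀]
      have h1 : algebraMap F K c ^ nn F ρ ≠ 0 := pow_ne_zero _ (by rw [Ne, map_eq_zero]; exact hc)
      rw [mul_div_mul_left _ _ h1, div_eq_mul_inv]
    rw [e1]
    exact (BB W ρ).mul_mem ((BB W ρ).pow_mem hx'B _) (alg_mem_BB hN2)
  have hrB : r ∈ BB W ρ := by rw [hr]; exact (BB W ρ).pow_mem hyB _
  have hCoA : CoV W A := (hI.2.2.2.1 A hAdeg).1 (by rw [hA]; exact hrB)
  obtain ⟨hα1, hα2⟩ := hα W hcoef hU hCoA
  -- (7.7)
  have hzi : ∀ i ≤ nn F ρ - 2, ∀ c : F, c • dl F ρ ∈ VD F N ρ V → c * tr F (dl F ρ * ρ ^ i * z) ≠ 1 := by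
    intro i hi c hc h
    refine hno _ (hLat.1 c hc i hi) ?_
    rw [← h, smul_mul_assoc]
    exact map_smul (Algebra.trace F K) c _
  have hzsum := hDual.1 z
  set f : F := tr F (dl F ρ * ρ ^ (nn F ρ - 1) * z) with hf
  have hzf : z - algebraMap F K f =
      ∑ i ∈ Finset.range (nn F ρ - 1), tr F (dl F ρ * ρ ^ i * z) • aeval ρ (Bq F ρ i) := by
    have e1 : nn F ρ = (nn F ρ - 1) + 1 := by omega
    conv_lhs => rw [hzsum]
    rw [e1, Finset.sum_range_succ, ← e1, hDual.2.2.2.2.1, ← hf, map_one, Algebra.smul_def, mul_one,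
      add_sub_cancel_right]
  have hBqB : ∀ i, aeval ρ (Bq F ρ i) ∈ BB W ρ := fun i => ⟨_, hI.1 i, rfl⟩
  have hzB : z - algebraMap F K f ∈ BB W ρ := by
    rw [hzf]
    refine (BB W ρ).sum_mem fun i hi => ?_
    rw [Finset.mem_range] at hi
    rw [Algebra.smul_def]
    refine (BB W ρ).mul_mem (alg_mem_BB ?_) (hBqB i)
    have h2 := hzi i (by omega)
    by_contra hnot
    have hv : W.valuation (tr F (dl F ρ * ρ ^ i * z))⁻¹ < 1 := by
      have h3 : 1 < W.valuation (tr F (dl F ρ * ρ ^ i * z)) := by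
        rw [← not_le]
        intro h
        exact hnot ((W.valuation_le_one_iff _).1 h)
      rw [map_inv₀]
      exact inv_lt_one_of_one_lt₀ h3
    have hne : tr F (dl F ρ * ρ ^ i * z) ≠ 0 := by
      intro h
      rw [h] at hnot
      exact hnot W.zero_mem
    refine h2 (tr F (dl F ρ * ρ ^ i * z))⁻¹ ?_ (inv_mul_cancel₀ hne)
    rcases h5.alt with ha | ha
    · have : (tr F (dl F ρ * ρ ^ i * z))⁻¹ ∈ {c : F | c • dl F ρ ∈ VD F N ρ V} := by
        rw [ha]
        exact (W.valuation_le_one_iff _).1 hv.le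
      exact this
    · have : (tr F (dl F ρ * ρ ^ i * z))⁻¹ ∈ {c : F | c • dl F ρ ∈ VD F N ρ V} := by
        rw [ha]
        exact hv
      exact this
  -- (7.8)
  have hr1 : r - 1 ∈ MB W ρ := by
    rcases h5.alt with ha | ha
    · -- b = W
      have hzM : z - algebraMap F K f ∈ MB W ρ := by
        rw [hzf]
        refine (MB W ρ).sum_mem fun i hi => ?_
        rw [Finset.mem_range] at hi
        rw [Algebra.smul_def]
        refine H3.MB_mul_BB (alg_mem_MB ?_) (hBqB i)
        have h2 := hzi i (by omega)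
        by_contra hnot
        rw [not_lt] at hnot
        have hne : tr F (dl F ρ * ρ ^ i * z) ≠ 0 := by
          intro h
          rw [h, map_zero] at hnot
          exact absurd hnot (not_le.2 zero_lt_one)
        have hv : W.valuation (tr F (dl F ρ * ρ ^ i * z))⁻¹ ≤ 1 := by
          rw [map_inv₀]
          exact inv_le_one_of_one_le₀ hnot
        refine h2 (tr F (dl F ρ * ρ ^ i * z))⁻¹ ?_ (inv_mul_cancel₀ hne)
        have : (tr F (dl F ρ * ρ ^ i * z))⁻¹ ∈ {c : F | c • dl F ρ ∈ VD F N ρ V} := by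
          rw [ha]
          exact (W.valuation_le_one_iff _).1 hv
        exact this
      have hαW : α ∈ W := (W.valuation_le_one_iff _).1 hα1.le
      have hrz : (r - algebraMap F K α) * z = algebraMap F K α := by
        rw [hz, mul_div_cancel₀ _ hrα]
      -- f is not in m
      have hfm : ¬ W.valuation f < 1 := by
        intro h
        have h3 : z ∈ MB W ρ := by
          have e1 : z = (z - algebraMap F K f) + algebraMap F K f := by ring
          rw [e1]
          exact (MB W ρ).add_mem hzM (alg_mem_MB h)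
        have h4 : algebraMap F K α ∈ MB W ρ := by
          rw [← hrz]
          exact BB_mul_MB ((BB W ρ).sub_mem hrB (alg_mem_BB hαW)) h3
        have h5' := (hI.2.2.2.2.2.2.1 α).1 h4
        rw [hα1] at h5'
        exact lt_irrefl _ h5'
      have hf0 : f ≠ 0 := by rintro h; rw [h, map_zero] at hfm; exact hfm zero_lt_one
      have hfK : algebraMap F K f ≠ 0 := by rw [Ne, map_eq_zero]; exact hf0
      have hfi : f⁻¹ ∈ W := by
        rw [← W.valuation_le_one_iff, map_inv₀]
        exact inv_le_one_of_one_le₀ (not_lt.1 hfm)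
      -- z = f (1 + m), m = (z-f)/f
      set m : K := (z - algebraMap F K f) * algebraMap F K f⁻¹ with hm
      have hmM : m ∈ MB W ρ := H3.MB_mul_BB hzM (alg_mem_BB hfi)
      have hzm : z = algebraMap F K f * (1 + m) := by
        rw [hm, map_inv₀]
        field_simp
        ring
      have h1m : (1 + m) ∉ MB W ρ := by
        intro h
        apply h1M
        have e1 : (1 : K) = (1 + m) - m := by ring
        rw [e1]
        exact (MB W ρ).sub_mem h hmM
      have h1mB : (1 + m)⁻¹ ∈ BB W ρ := hU _ ((BB W ρ).add_mem (BB W ρ).one_mem (MB_le hmM)) h1m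
      have h1m0 : 1 + m ≠ 0 := by intro h; rw [h] at h1m; exact h1m (MB W ρ).zero_mem
      have hc : α * (1 + f⁻¹) ∈ W := W.mul_mem _ _ hαW (W.add_mem _ _ W.one_mem hfi)
      have hkey : r - algebraMap F K (α * (1 + f⁻¹)) ∈ MB W ρ := by
        have e1 : r - algebraMap F K (α * (1 + f⁻¹)) =
            - (algebraMap F K (α * f⁻¹) * (1 + m)⁻¹ * m) := by
          have e2 : r = algebraMap F K α + algebraMap F K α * (algebraMap F K f)⁻¹ * (1 + m)⁻¹ := by
            rw [hzm] at hrz
            have : r - algebraMap F K α = algebraMap F K α * (algebraMap F K f)⁻¹ * (1 + m)⁻¹ := by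
              rw [← mul_right_inj' (mul_ne_zero hfK h1m0)]
              field_simp at hrz ⊢
              linear_combination hrz
            linear_combination this
          rw [e2, map_mul, map_add, map_one, map_mul, map_inv₀]
          field_simp
          ring
        rw [e1]
        refine (MB W ρ).neg_mem (BB_mul_MB ((BB W ρ).mul_mem (alg_mem_BB (W.mul_mem _ _ hαW hfi)) h1mB) hmM)
      rw [hr] at hkey ⊢
      exact hRo F K l k ρ W hG hD.lpr hD.chr hD.perf hcoef hU hk0 dvd_rfl y hyB hynorm ⟨_, hc, hkey⟩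
    · -- b = m_W
      have hGM : CoM W (GG F (l ^ e) ρ) := by
        by_contra hGM
        obtain ⟨w, hw1, hw⟩ := hS F K l p e N ρ W ⟨hD, hAW, hU, ((hTr F K l p e N ρ hD W hAW).2.2).1 hU, hGM⟩
        have h2 : w ∈ {c : F | c • dl F ρ ∈ VD F N ρ V} := hsub hw
        rw [ha] at h2
        simp only [Set.mem_ofPred_eq, hw1] at h2
        exact lt_irrefl _ h2
      have hBad : Bad (l ^ e) ρ W := by
        refine hR.2.2.2.2.2.2 fun i => ?_
        have h2 := hGM i
        have h3 := hT.2.2.2.2.2.2.2.1 (minpoly F ρ) i 1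
        rw [pow_one] at h3
        unfold GG at h2
        rwa [coeff_sub, h3] at h2
      have hx1 := hbad W hBad (H3Z.J_of hEu hCa hSZ hD hZ hAW hU hcoef hBad (by
        intro w hw1 hw
        have h2 : w ∈ {c : F | c • dl F ρ ∈ VD F N ρ V} := hsub hw
        rw [ha] at h2
        simp only [Set.mem_ofPred_eq, hw1] at h2
        exact lt_irrefl _ h2))
      have hxB : x ∈ BB W ρ := H3.mem_BB_of_sub_one hx1
      have hNx : W.valuation (Algebra.norm F x - 1) < 1 := by
        have := (hNo F K ρ hG W hcoef).2.2 (x - 1) hx1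
        rwa [add_sub_cancel] at this
      have hNxW : Algebra.norm F x ∈ W := (hNo F K ρ hG W hcoef).1 x hxB
      have hNxv : W.valuation (Algebra.norm F x) = 1 := by
        by_contra hne
        have hlt : W.valuation (Algebra.norm F x) < 1 := lt_of_le_of_ne ((W.valuation_le_one_iff _).2 hNxW) hne
        have h2 : W.valuation (1 : F) < 1 := by
          have e1 : (1 : F) = Algebra.norm F x + - (Algebra.norm F x - 1) := by ring
          rw [e1]
          exact val_lt_add hlt (by rw [Valuation.map_neg]; exact hNx)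
        rw [map_one] at h2
        exact lt_irrefl _ h2
      have hNxi : (Algebra.norm F x)⁻¹ ∈ W := by
        rw [← W.valuation_le_one_iff, map_inv₀, hNxv, inv_one]
      have hy1 : y - 1 ∈ MB W ρ := by
        have e1 : y - 1 = algebraMap F K (Algebra.norm F x)⁻¹ *
            ((x ^ nn F ρ - 1) - algebraMap F K (Algebra.norm F x - 1)) := by
          rw [hy, map_inv₀, map_sub, map_one]
          field_simp
          ring
        rw [e1]
        exact BB_mul_MB (alg_mem_BB hNxi)
          ((MB W ρ).sub_mem (H3.pow_sub_one_mem hxB hx1 _) (alg_mem_MB hNx))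
      rw [hr]
      exact H3.pow_sub_one_mem hyB hy1 _
  -- (7.9), (7.10)
  have hA1 : CoM W (A - 1) := by
    refine (hI.2.2.2.2.1 (A - 1) ?_).1 ?_
    · exact lt_of_le_of_lt (natDegree_sub_le _ _) (by rw [natDegree_one]; exact max_lt hAdeg (by omega))
    · rw [map_sub, map_one, hA]
      exact hr1
  have hAi : ∀ i, i ≠ 0 → W.valuation (A.coeff i) < 1 := by
    intro i hi
    have := hA1 i
    rwa [coeff_sub, coeff_one, if_neg hi, sub_zero] at this
  have hA0 : W.valuation (A.coeff 0 - 1) < 1 := by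
    have := hA1 0
    rwa [coeff_sub, coeff_one_zero] at this
  have hAne : ∃ i, i ≠ 0 ∧ A.coeff i ≠ 0 := by
    by_contra hnot
    push Not at hnot
    apply hrF (A.coeff 0)
    have e1 : A = C (A.coeff 0) := by
      ext i
      rw [coeff_C]
      split_ifs with h
      · rw [h]
      · exact hnot i h
    rw [← hA]
    conv_lhs => rw [e1]
    rw [aeval_C]
  refine hEn F K ρ W hG hcoef hU A hAdeg hAne α hα1 hAi (hα2 hA0) ⟨f, ?_⟩
  rw [hA]
  exact hzB

end CL
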