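import Pool.Agent.Lib.MP_defcf3_al.CL.Base

/-!
Project CL (MP_defcf3_al), Theorem (M): the statements of the modules. Paper: findings 4292, 4293. In all statements
q = l ^ e is the number Q of the paper, tw (q ^ m) P = P_m, and ρ ^ q = R.
-/

open Polynomial

namespace CL

universe u

/-! ## 0. Euler formulas -/

/-- (E1), (E2). -/
def EulerStatement : Prop := ∀ (F K : Type u) [Field F] [Field K] [Algebra F K] [FiniteDimensional F K] (g : K),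
  Gen F g →
  (∀ A : F[X], A.natDegree < nn F g → tr F (dl F g * aeval g A) = A.coeff (nn F g - 1)) ∧
  (∀ s : F, (minpoly F g).eval s ≠ 0 ∧ g - algebraMap F K s ≠ 0) ∧
  (∀ A : F[X], A.natDegree < nn F g → ∀ s : F,
    tr F (dl F g * aeval g A / (g - algebraMap F K s)) = - (A.eval s / (minpoly F g).eval s)) ∧
  g ≠ 0 ∧ dl F g ≠ 0 ∧ Module.finrank F K = nn F g ∧
  (∀ x : K, ∃ A : F[X], A.natDegree < nn F g ∧ aeval g A = x)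

/-- (E3): the dual basis. -/
def DualStatement : Prop := ∀ (F K : Type u) [Field F] [Field K] [Algebra F K] [FiniteDimensional F K] (g : K),
  Gen F g →
  (∀ x : K, x = ∑ i ∈ Finset.range (nn F g), tr F (dl F g * g ^ i * x) • aeval g (Bq F g i)) ∧
  (∀ x : K, x = ∑ i ∈ Finset.range (nn F g), tr F (x * aeval g (Bq F g i)) • (dl F g * g ^ i)) ∧
  (∀ i < nn F g, ∀ j < nn F g, tr F (g ^ i * (dl F g * aeval g (Bq F g j))) = if i = j then 1 else 0) ∧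
  (∀ i < nn F g, (Bq F g i).Monic ∧ (Bq F g i).natDegree = nn F g - 1 - i) ∧
  Bq F g (nn F g - 1) = 1 ∧
  X * Bq F g 0 = minpoly F g - C ((minpoly F g).eval 0)

/-- Integrality: V[g] and the dual basis, (E3) and (E4). -/
def IntegStatement : Prop := ∀ (F K : Type u) [Field F] [Field K] [Algebra F K] [FiniteDimensional F K] (g : K),
  Gen F g → ∀ V : ValuationSubring F, CoV V (minpoly F g) →
  (∀ i, CoV V (Bq F g i)) ∧
  (∀ x : K, x ∈ BB V g ↔ ∀ i < nn F g, tr F (dl F g * g ^ i * x) ∈ V) ∧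
  (∀ x : K, x ∈ MB V g ↔ ∀ i < nn F g, V.valuation (tr F (dl F g * g ^ i * x)) < 1) ∧
  (∀ A : F[X], A.natDegree < nn F g → (aeval g A ∈ BB V g ↔ CoV V A)) ∧
  (∀ A : F[X], A.natDegree < nn F g → (aeval g A ∈ MB V g ↔ CoM V A)) ∧
  (∀ c : F, algebraMap F K c ∈ BB V g ↔ c ∈ V) ∧
  (∀ c : F, algebraMap F K c ∈ MB V g ↔ V.valuation c < 1) ∧
  (∀ s ∈ V, V.valuation ((minpoly F g).eval s) = 1 → (g - algebraMap F K s)⁻¹ ∈ BB V g) ∧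
  (∀ t : F, V.valuation t < 1 → (1 - algebraMap F K t * g)⁻¹ ∈ BB V g) ∧
  (∀ x ∈ BB V g, tr F x ∈ V) ∧ (∀ x ∈ MB V g, V.valuation (tr F x) < 1)

/-! ## 1. The transvection calculus -/

/-- (1.1) - (1.4). -/
def CalcStatement : Prop := ∀ (F K : Type u) [Field F] [Field K] [Algebra F K] [FiniteDimensional F K]
  (l p e : ℕ) (N : Subgroup Kˣ) (ρ : K), Dat F l p e N ρ →
  (0 : K) ∈ Dz F N ∧ (∀ a ∈ Dz F N, ∀ b ∈ Dz F N, a + b ∈ Dz F N) ∧ (∀ a ∈ Dz F N, -a ∈ Dz F N) ∧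
  (∀ b ∈ Dp F N, ∀ a ∈ Dz F N, (1 + tr F b) • a ∈ Dz F N ∧ (1 + tr F b)⁻¹ • a ∈ Dz F N) ∧
  (∀ a : K, a ∈ Dp F N ↔ a ^ l ^ e ∈ Dp F N) ∧ (∀ a : K, a ∈ Dz F N ↔ a ^ l ^ e ∈ Dz F N) ∧
  (0 : F) ∈ MM F N ∧ (1 : F) ∈ MM F N ∧ (∀ a ∈ MM F N, ∀ b ∈ MM F N, a + b ∈ MM F N) ∧
  (∀ a ∈ MM F N, ∀ b ∈ MM F N, a * b ∈ MM F N) ∧ (∀ a ∈ MM F N, -a ∈ MM F N) ∧
  (∀ b ∈ Dp F N, 1 + tr F b ∈ MM F N ∧ (1 + tr F b)⁻¹ ∈ MM F N) ∧
  (∀ a : F, a ∈ MM F N ↔ a ^ l ^ e ∈ MM F N) ∧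
  (∀ z : K, z ≠ 0 → Sim N (z ^ l ^ e) z)

/-- (1.5) and (1.6). -/
def P2Statement : Prop := ∀ (F K : Type u) [Field F] [Field K] [Algebra F K] [FiniteDimensional F K]
  (l p e : ℕ) (N : Subgroup Kˣ) (ρ : K), Dat F l p e N ρ →
  (∀ x y : K, y ≠ 0 → (∀ z : K, z ≠ 0 → Sim N (z + tr F (x * z) • y) z) → x * y ∈ Dp F N) ∧
  (∀ a ∈ Dp F N, ∀ b ∈ Dp F N, ∀ c : K, c ≠ 0 → tr F c = 0 → tr F (a * b / c) • c ∈ Dz F N)

/-! ## 2. The special elements -/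

/-- The twist: R is a generator with minimal polynomial P_1. -/
def TwistStatement : Prop := ∀ (F K : Type u) [Field F] [Field K] [Algebra F K] [FiniteDimensional F K]
  (l p e : ℕ) (N : Subgroup Kˣ) (ρ : K), Dat F l p e N ρ →
  Gen F (ρ ^ l ^ e) ∧ minpoly F (ρ ^ l ^ e) = tw (l ^ e) (minpoly F ρ) ∧ nn F (ρ ^ l ^ e) = nn F ρ ∧
  dl F (ρ ^ l ^ e) = dl F ρ ^ l ^ e ∧ (GG F (l ^ e) ρ).natDegree < nn F ρ ∧
  (∀ x : K, ∃ y : K, y ^ l ^ e = x) ∧ (∀ x : F, ∃ y : F, y ^ l ^ e = x) ∧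
  (∀ (A : F[X]) (i m : ℕ), (tw ((l ^ e) ^ m) A).coeff i = A.coeff i ^ (l ^ e) ^ m) ∧
  (∀ (A : F[X]) (s : F) (m : ℕ), (tw ((l ^ e) ^ m) A).eval (s ^ (l ^ e) ^ m) = (A.eval s) ^ (l ^ e) ^ m) ∧
  (∀ (A : F[X]) (x : K) (m : ℕ), aeval (x ^ (l ^ e) ^ m) (tw ((l ^ e) ^ m) A) = (aeval x A) ^ (l ^ e) ^ m) ∧
  (∀ (A : F[X]) (k m : ℕ), tw ((l ^ e) ^ k) (tw ((l ^ e) ^ m) A) = tw ((l ^ e) ^ (k + m)) A) ∧
  (∀ x : K, tr F (x ^ l ^ e) = (tr F x) ^ l ^ e)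

/-- (2.1), (2.2), (2.3). -/
def SpecialStatement : Prop := ∀ (F K : Type u) [Field F] [Field K] [Algebra F K] [FiniteDimensional F K]
  (l p e : ℕ) (N : Subgroup Kˣ) (ρ : K), Dat F l p e N ρ →
  (∀ s : F, dl F (ρ ^ l ^ e) * aeval (ρ ^ l ^ e) (GG F (l ^ e) ρ) / (ρ ^ l ^ e - algebraMap F K s) ∈ Dp F N ∧
    1 + tr F (dl F (ρ ^ l ^ e) * aeval (ρ ^ l ^ e) (GG F (l ^ e) ρ) / (ρ ^ l ^ e - algebraMap F K s)) =
      (minpoly F ρ).eval s / (minpoly F (ρ ^ l ^ e)).eval s) ∧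
  (∀ (s : F) (m : ℕ), (tw ((l ^ e) ^ m) (minpoly F ρ)).eval s ≠ 0 ∧
    (minpoly F ρ).eval s / (tw ((l ^ e) ^ m) (minpoly F ρ)).eval s ∈ MM F N ∧
    (tw ((l ^ e) ^ m) (minpoly F ρ)).eval s / (minpoly F ρ).eval s ∈ MM F N) ∧
  (∀ c : F, (c • dl F ρ ∈ Dz F N ↔ c • dl F (ρ ^ l ^ e) ∈ Dz F N) ∧
    (c • dl F ρ ∈ Dz F N ↔ c ^ l ^ e • dl F ρ ∈ Dz F N))

/-! ## 3. The path lemma -/

/-- (3.1). -/
def PathStatement : Prop := ∀ (F K : Type u) [Field F] [Field K] [Algebra F K] [FiniteDimensional F K] (g : K),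
  Gen F g → ∀ V : ValuationSubring F, V.valuation ((minpoly F g).eval 0) = 1 →
  V.valuation ((minpoly F g).eval 1) = 1 → ∀ S : Set K, (∀ a ∈ S, tr F a = 0) →
  (∀ a ∈ S, ∀ b ∈ S, ∀ c : K, c ≠ 0 → tr F c = 0 → tr F (a * b / c) • c ∈ S) →
  (∃ k ≤ nn F g - 2, ∃ w : F, V.valuation w = 1 ∧ w • (dl F g * g ^ k) ∈ S) →
  ∀ k ≤ nn F g - 2, ∃ w : F, V.valuation w = 1 ∧ w • (dl F g * g ^ k) ∈ S

/-! ## 4. The ring A -/

/-- (4.2). -/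
def InterpStatement : Prop := ∀ (F : Type u) [Field F] (V : ValuationSubring F) (d : ℕ) (f : F[X])
  (x : ℕ → F) (b c : V.ValueGroup), f.natDegree ≤ d → (∀ i ≤ d, ∀ j ≤ d, i ≠ j → 1 ≤ V.valuation (x i - x j)) →
  1 ≤ b → (∀ i ≤ d, V.valuation (x i) ≤ b) → (∀ i ≤ d, V.valuation (f.eval (x i)) ≤ c) →
  ∀ i, V.valuation (f.coeff i) ≤ c * b ^ d

/-- (4.3), general form. -/
def CoefStatement : Prop := ∀ (F : Type u) [Field F] (V : ValuationSubring F) (q : ℕ) (P : F[X]),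
  2 ≤ q → (∀ x : F, ∃ y : F, y ^ q = x) → P.Monic → 1 ≤ P.natDegree →
  (∀ s : F, 1 ≤ V.valuation (P.eval s) ∧ V.valuation s ≤ V.valuation (P.eval s)) →
  (∀ (m : ℕ) (s : F), (tw (q ^ m) P).eval (s ^ q ^ m) = (P.eval s) ^ q ^ m) →
  (∀ (m : ℕ) (s : F), V.valuation ((tw (q ^ m) P).eval s) = V.valuation (P.eval s)) → CoV V P

/-- (4.1) and (4.3). -/
def RingAStatement : Prop := ∀ (F K : Type u) [Field F] [Field K] [Algebra F K] [FiniteDimensional F K]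
  (l p e : ℕ) (N : Subgroup Kˣ) (ρ : K), Dat F l p e N ρ →
  (∀ a : F, a ∈ AA F N ρ ↔ a ^ l ^ e ∈ AA F N ρ) ∧
  (∀ V : ValuationSubring F, AA F N ρ ≤ V.toSubring → CoV V (minpoly F ρ) ∧
    (∀ v ∈ V, V.valuation ((minpoly F ρ).eval v) = 1) ∧ CoV V (minpoly F (ρ ^ l ^ e)) ∧
    (∀ v ∈ V, V.valuation ((minpoly F (ρ ^ l ^ e)).eval v) = 1))

/-- (4.4). -/
def PlaceStatement : Prop := ∀ (F K : Type u) [Field F] [Field K] [Algebra F K] [FiniteDimensional F K]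
  (l p e : ℕ) (N : Subgroup Kˣ) (ρ : K), Dat F l p e N ρ → ∀ I : Set F, (0 : F) ∈ I → I ⊆ AA F N ρ →
  (∀ a ∈ I, ∀ b ∈ I, a + b ∈ I) → (∀ a ∈ AA F N ρ, ∀ b ∈ I, a * b ∈ I) → (1 : F) ∉ I →
  ∃ V : ValuationSubring F, AA F N ρ ≤ V.toSubring ∧ (∀ a ∈ I, V.valuation a < 1) ∧
    ∀ v ∈ V, ∃ a ∈ AA F N ρ, ∃ b ∈ AA F N ρ, V.valuation b = 1 ∧ v = a / b

/-- (4.5) and (4.6). -/
def LocalStatement : Prop := ∀ (F K : Type u) [Field F] [Field K] [Algebra F K] [FiniteDimensional F K]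
  (l p e : ℕ) (N : Subgroup Kˣ) (ρ : K), Dat F l p e N ρ → ∀ z : K,
  (∀ x ∈ DA F N ρ, tr F (x * z) ≠ 1) →
  ∃ V : ValuationSubring F, AA F N ρ ≤ V.toSubring ∧
    (0 : K) ∈ VD F N ρ V ∧ (∀ x ∈ VD F N ρ V, ∀ y ∈ VD F N ρ V, x + y ∈ VD F N ρ V) ∧
    (∀ c ∈ V, ∀ x ∈ VD F N ρ V, c • x ∈ VD F N ρ V) ∧ (∀ x ∈ VD F N ρ V, tr F x = 0) ∧
    (∀ a ∈ VD F N ρ V, ∀ b ∈ VD F N ρ V, ∀ c : K, c ≠ 0 → tr F c = 0 →
      tr F (a * b / c) • c ∈ VD F N ρ V) ∧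
    (∀ c : F, c • dl F ρ ∈ VD F N ρ V ↔ c ^ l ^ e • dl F ρ ∈ VD F N ρ V) ∧
    (∀ x ∈ VD F N ρ V, tr F (x * z) ≠ 1) ∧ DA F N ρ ⊆ VD F N ρ V

/-! ## 5. The dichotomy -/

/-- (5.1), (5.2): a perfect V-submodule b of F is W or m_W for a valuation ring W containing V. -/
def DichStatement : Prop := ∀ (F : Type u) [Field F] (V : ValuationSubring F) (q : ℕ) (b : Set F), 2 ≤ q →
  (∀ x : F, ∃ y : F, y ^ q = x) → (0 : F) ∈ b → (∀ x ∈ b, ∀ y ∈ b, x + y ∈ b) →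
  (∀ c ∈ V, ∀ x ∈ b, c * x ∈ b) → (∀ c : F, c ∈ b ↔ c ^ q ∈ b) →
  ∃ W : ValuationSubring F, V ≤ W ∧ (b = (W : Set F) ∨ b = {c | W.valuation c < 1}) ∧
    (∀ c ∈ b, ∃ x ∈ b, ∃ y ∈ b, c = x * y) ∧ (∀ y : F, (∀ c ∈ b, c * y ∈ W) → y ∈ W)

/-- The situation of section 5 (W is V0, b is the set of the c with c delta in D). -/
structure Five (F : Type u) {K : Type u} [Field F] [Field K] [Algebra F K] (q : ℕ) (ρ : K)
    (W : ValuationSubring F) (D : Set K) : Prop where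
  gen : Gen F ρ
  two : 2 ≤ q
  perf : ∀ x : F, ∃ y : F, y ^ q = x
  zero : (0 : K) ∈ D
  add : ∀ x ∈ D, ∀ y ∈ D, x + y ∈ D
  trz : ∀ x ∈ D, tr F x = 0
  sq : ∀ a ∈ D, ∀ b ∈ D, ∀ c : K, c ≠ 0 → tr F c = 0 → tr F (a * b / c) • c ∈ D
  alt : {c : F | c • dl F ρ ∈ D} = (W : Set F) ∨ {c : F | c • dl F ρ ∈ D} = {c | W.valuation c < 1}
  prod : ∀ c : F, c • dl F ρ ∈ D → ∃ x : F, x • dl F ρ ∈ D ∧ ∃ y : F, y • dl F ρ ∈ D ∧ c = x * y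
  cut : ∀ y : F, (∀ c : F, c • dl F ρ ∈ D → c * y ∈ W) → y ∈ W
  coef : CoV W (minpoly F ρ)
  unit : ∀ v ∈ W, W.valuation ((minpoly F ρ).eval v) = 1

/-- (5.3) and (5.4). -/
def LatticeStatement : Prop := ∀ (F K : Type u) [Field F] [Field K] [Algebra F K] [FiniteDimensional F K]
  (q : ℕ) (ρ : K) (W : ValuationSubring F) (D : Set K), Five F q ρ W D →
  (∀ c : F, c • dl F ρ ∈ D → ∀ k ≤ nn F ρ - 2, c • (dl F ρ * ρ ^ k) ∈ D) ∧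
  (∀ c : F, c • dl F ρ ∈ D → ∀ A : F[X], CoV W A → A.natDegree ≤ nn F ρ - 2 → c • (dl F ρ * aeval ρ A) ∈ D) ∧
  (∀ A : F[X], A.natDegree < nn F ρ → dl F ρ * aeval ρ A ∈ D → A.coeff (nn F ρ - 1) = 0 ∧ CoV W A)

/-- (5.5). -/
def UnitStatement : Prop := ∀ (F K : Type u) [Field F] [Field K] [Algebra F K] [FiniteDimensional F K]
  (q : ℕ) (ρ : K) (W : ValuationSubring F) (D : Set K), Five F q ρ W D → UnitProp W ρ

/-- Consequences of the unit property: irreducible reduction, delta is a unit, contents. -/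
def ResidueStatement : Prop := ∀ (F K : Type u) [Field F] [Field K] [Algebra F K] [FiniteDimensional F K]
  (q l : ℕ) (ρ : K) (W : ValuationSubring F), Gen F ρ → l.Prime → CharP F l →
  (∀ x : F, ∃ y : F, y ^ l = x) → CoV W (minpoly F ρ) → UnitProp W ρ →
  dl F ρ ∈ BB W ρ ∧ dl F ρ ∉ MB W ρ ∧
  (∀ x : K, x ≠ 0 → ∃ c : F, c ≠ 0 ∧ ∃ y ∈ BB W ρ, y ∉ MB W ρ ∧ x = c • y) ∧
  (1 : K) ∉ MB W ρ ∧ (∀ x ∈ BB W ρ, ∀ y ∈ BB W ρ, x * y ∈ MB W ρ → x ∈ MB W ρ ∨ y ∈ MB W ρ) ∧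
  (∃ P : Polynomial W, P.map (algebraMap W F) = minpoly F ρ ∧ Irreducible (P.map (IsLocalRing.residue W)) ∧
    ((P.map (IsLocalRing.residue W)).Separable)) ∧
  ((∀ i, W.valuation ((minpoly F ρ).coeff i ^ q - (minpoly F ρ).coeff i) < 1) → Bad q ρ W)

/-- (5.7): the transfer to R. -/
def TransferStatement : Prop := ∀ (F K : Type u) [Field F] [Field K] [Algebra F K] [FiniteDimensional F K]
  (l p e : ℕ) (N : Subgroup Kˣ) (ρ : K), Dat F l p e N ρ → ∀ W : ValuationSubring F, AA F N ρ ≤ W.toSubring →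
  (∀ x : K, x ∈ BB W ρ ↔ x ^ l ^ e ∈ BB W (ρ ^ l ^ e)) ∧ (∀ x : K, x ∈ MB W ρ ↔ x ^ l ^ e ∈ MB W (ρ ^ l ^ e)) ∧
  (UnitProp W ρ ↔ UnitProp W (ρ ^ l ^ e))

/-! ## 6. Theorem (S) -/

/-- The situation of section 6. -/
structure Six (F : Type u) {K : Type u} [Field F] [Field K] [Algebra F K] (l p e : ℕ) (N : Subgroup Kˣ)
    (ρ : K) (V : ValuationSubring F) : Prop where
  dat : Dat F l p e N ρ
  le : AA F N ρ ≤ V.toSubring
  unit : UnitProp V ρ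
  unitR : UnitProp V (ρ ^ l ^ e)
  g : ¬ CoM V (GG F (l ^ e) ρ)

/-- (6.1). -/
def SixOneStatement : Prop := ∀ (F K : Type u) [Field F] [Field K] [Algebra F K] [FiniteDimensional F K]
  (l p e : ℕ) (N : Subgroup Kˣ) (ρ : K) (V : ValuationSubring F), Six F l p e N ρ V →
  ∃ w : F, V.valuation w = 1 ∧ w • dl F ρ ∈ Dz F N

/-- F-linear maps K -> K, trace zero valued, which map Delta to Delta: the functional f(a) = tr(ax) times d. -/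
def Op (F : Type u) {K : Type u} [Field F] [Field K] [Algebra F K] (N : Subgroup Kˣ) (x d : K) : Prop :=
  ∀ a ∈ Dz F N, tr F (a * x) • d ∈ Dz F N

/-- (6.2) (i) - (iii): the operators w psi_j (x) e_i, with psi_j = tr(. ρ^(j-1)), e_i = delta ρ B_i(ρ). -/
def UnitsStatement : Prop := ∀ (F K : Type u) [Field F] [Field K] [Algebra F K] [FiniteDimensional F K]
  (l p e : ℕ) (N : Subgroup Kˣ) (ρ : K) (V : ValuationSubring F), Six F l p e N ρ V → 3 ≤ nn F ρ →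
  (∃ w : F, V.valuation w = 1 ∧ w • dl F ρ ∈ Dz F N) →
  (∀ i < nn F ρ, i ≠ 1 → ∀ j < nn F ρ, j ≠ 1 → ∃ w : F, V.valuation w = 1 ∧
    Op F N (ρ ^ j / ρ) (w • (dl F ρ * ρ * aeval ρ (Bq F ρ i)))) ∧
  (∀ k ≤ nn F ρ - 2, ∃ w : F, V.valuation w = 1 ∧ Op F N ρ⁻¹ (w • (dl F ρ * ρ ^ k))) ∧
  (∃ w : F, V.valuation w = 1 ∧ ∀ s : F, Op F N (ρ - algebraMap F K s)⁻¹ (w • dl F ρ))

/-- (6.2) conclusion for degree at least 3, and (6.3) for degree 2. -/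
def SixTwoStatement : Prop := ∀ (F K : Type u) [Field F] [Field K] [Algebra F K] [FiniteDimensional F K]
  (l p e : ℕ) (N : Subgroup Kˣ) (ρ : K) (V : ValuationSubring F), Six F l p e N ρ V → 3 ≤ nn F ρ →
  (∃ w : F, V.valuation w = 1 ∧ w • dl F ρ ∈ Dz F N) →
  ∃ w0 w1 : F, V.valuation w0 = 1 ∧ V.valuation w1 = 1 ∧
    ∀ s : F, w0 * ((minpoly F ρ).eval s)⁻¹ ∈ MM F N ∧ w1 * (s * ((minpoly F ρ).eval s)⁻¹) ∈ MM F N

/-- (6.3) (i). -/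
def NormRatioStatement : Prop := ∀ (F K : Type u) [Field F] [Field K] [Algebra F K] [FiniteDimensional F K]
  (l p e : ℕ) (N : Subgroup Kˣ) (ρ : K), Dat F l p e N ρ → nn F ρ = 2 →
  ∀ a ∈ Dp F N, ∀ y : K, y ≠ 0 →
    Algebra.norm F (y + algebraMap F K (tr F (a * y))) / Algebra.norm F y ∈ MM F N

/-- (6.3). -/
def SixThreeStatement : Prop := ∀ (F K : Type u) [Field F] [Field K] [Algebra F K] [FiniteDimensional F K]
  (l p e : ℕ) (N : Subgroup Kˣ) (ρ : K) (V : ValuationSubring F), Six F l p e N ρ V → nn F ρ = 2 →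
  (∃ w : F, V.valuation w = 1 ∧ w • dl F ρ ∈ Dz F N) →
  ∃ w0 w1 : F, V.valuation w0 = 1 ∧ V.valuation w1 = 1 ∧
    ∀ s : F, w0 * ((minpoly F ρ).eval s)⁻¹ ∈ MM F N ∧ w1 * (s * ((minpoly F ρ).eval s)⁻¹) ∈ MM F N

/-- (6.4). -/
def CondStatement : Prop := ∀ (F K : Type u) [Field F] [Field K] [Algebra F K] [FiniteDimensional F K]
  (l p e : ℕ) (N : Subgroup Kˣ) (ρ : K) (V : ValuationSubring F), Dat F l p e N ρ → AA F N ρ ≤ V.toSubring →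
  (∃ w0 w1 : F, V.valuation w0 = 1 ∧ V.valuation w1 = 1 ∧
    ∀ s : F, w0 * ((minpoly F ρ).eval s)⁻¹ ∈ MM F N ∧ w1 * (s * ((minpoly F ρ).eval s)⁻¹) ∈ MM F N) →
  ∃ w ∈ MM F N, V.valuation w = 1 ∧ ∀ a ∈ AA F N ρ, w * a ∈ MM F N

/-- Theorem (S). -/
def ThmSStatement : Prop := ∀ (F K : Type u) [Field F] [Field K] [Algebra F K] [FiniteDimensional F K]
  (l p e : ℕ) (N : Subgroup Kˣ) (ρ : K) (V : ValuationSubring F), Six F l p e N ρ V →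
  ∃ w : F, V.valuation w = 1 ∧ w • dl F ρ ∈ DA F N ρ

/-! ## 7. End of the proof -/

/-- (7.1). -/
def ArithStatement : Prop := ∀ l m n d k : ℕ, l.Prime → 1 ≤ m → 1 ≤ n → d ∣ n → n * (l ^ 2 - 1) ∣ k →
  Nat.gcd ((n / d) * ∑ i ∈ Finset.range d, (l ^ m) ^ i) (k * (l ^ m - 1)) ∣ k

/-- (7.2). -/
def ResRootStatement : Prop := ∀ (k C : Type u) [Field k] [Field C] [Algebra k C] [FiniteDimensional k C]
  (l m : ℕ), l.Prime → CharP k l → (∀ x : k, ∃ y : k, y ^ l = x) → m ≠ 0 →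
  Module.finrank k C * (l ^ 2 - 1) ∣ m → ∀ y : C, Algebra.norm k y = 1 → (∃ c : k, y ^ m = algebraMap k C c) →
  y ^ m = 1

/-- Norms and V[g]. -/
def NormStatement : Prop := ∀ (F K : Type u) [Field F] [Field K] [Algebra F K] [FiniteDimensional F K] (g : K),
  Gen F g → ∀ V : ValuationSubring F, CoV V (minpoly F g) →
  (∀ x ∈ BB V g, Algebra.norm F x ∈ V) ∧
  (∀ a ∈ V, ∀ c ∈ V, ∀ x ∈ BB V g, ∃ y ∈ V,
    Algebra.norm F (algebraMap F K a + algebraMap F K c * x) = a ^ nn F g + c * y) ∧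
  (∀ x ∈ MB V g, V.valuation (Algebra.norm F (1 + x) - 1) < 1)

/-- The norm of 1 + b θ as a polynomial in b. -/
def NormPolyStatement : Prop := ∀ (F K : Type u) [Field F] [Field K] [Algebra F K] [FiniteDimensional F K] (g : K),
  Gen F g → ∀ θ : K, ∃ f : F[X],
  (∀ b : F, Algebra.norm F (1 + algebraMap F K b * θ) = 1 + b * tr F θ + b ^ 2 * f.eval b) ∧
  ∀ V : ValuationSubring F, CoV V (minpoly F g) → θ ∈ BB V g → CoV V f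

/-- (7.2) in V[ρ]. -/
def RootStatement : Prop := ∀ (F K : Type u) [Field F] [Field K] [Algebra F K] [FiniteDimensional F K]
  (l m : ℕ) (ρ : K) (W : ValuationSubring F), Gen F ρ → l.Prime → CharP F l →
  (∀ x : F, ∃ y : F, y ^ l = x) → CoV W (minpoly F ρ) → UnitProp W ρ → m ≠ 0 →
  nn F ρ * (l ^ 2 - 1) ∣ m → ∀ y ∈ BB W ρ, Algebra.norm F y = 1 →
  (∃ c ∈ W, y ^ m - algebraMap F K c ∈ MB W ρ) → y ^ m - 1 ∈ MB W ρ

/-- (7.5) and (7.9): the choice of alpha. r is a given element of norm 1 outside F, with constant coefficient a0. -/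
def AlphaStatement : Prop := ∀ (F K : Type u) [Field F] [Field K] [Algebra F K] [FiniteDimensional F K]
  (l : ℕ) (ρ : K), Gen F ρ → l.Prime → CharP F l → (∀ x : F, ∃ y : F, y ^ l = x) →
  ∀ A : F[X], A.natDegree < nn F ρ → Algebra.norm F (aeval ρ A) = 1 →
  ∃ α : F, α ≠ 0 ∧ ∀ W : ValuationSubring F, CoV W (minpoly F ρ) → UnitProp W ρ → CoV W A →
    W.valuation α = 1 ∧
    (W.valuation (A.coeff 0 - 1) < 1 → ∀ c : F, c ≠ 0 → W.valuation c < 1 →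
      (∀ i, i ≠ 0 → W.valuation (A.coeff i) ≤ W.valuation c) → W.valuation (A.coeff 0 - α) ≤ W.valuation c)

/-- (7.10): the final contradiction. -/
def EndStatement : Prop := ∀ (F K : Type u) [Field F] [Field K] [Algebra F K] [FiniteDimensional F K]
  (ρ : K) (W : ValuationSubring F), Gen F ρ → CoV W (minpoly F ρ) → UnitProp W ρ →
  ∀ A : F[X], A.natDegree < nn F ρ → (∃ i, i ≠ 0 ∧ A.coeff i ≠ 0) → ∀ α : F, W.valuation α = 1 →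
  (∀ i, i ≠ 0 → W.valuation (A.coeff i) < 1) →
  (∀ c : F, c ≠ 0 → W.valuation c < 1 →
      (∀ i, i ≠ 0 → W.valuation (A.coeff i) ≤ W.valuation c) → W.valuation (A.coeff 0 - α) ≤ W.valuation c) →
  ¬ ∃ f : F, algebraMap F K α / (aeval ρ A - algebraMap F K α) - algebraMap F K f ∈ BB W ρ

/-- (7.6) - (7.10): under the hypothesis on x, 1 is in tr(Delta_A z). -/
def FinalStatement : Prop := ∀ (F K : Type u) [Field F] [Field K] [Algebra F K] [FiniteDimensional F K]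
  (l p e : ℕ) (N : Subgroup Kˣ) (ρ : K), Dat F l p e N ρ →
  ∀ x : K, x ≠ 0 → (∀ V : ValuationSubring F, Bad (l ^ e) ρ V → x - 1 ∈ MB V ρ) →
  ∀ r : K, r = (x ^ nn F ρ / algebraMap F K (Algebra.norm F x)) ^ (nn F ρ * (l ^ 2 - 1)) →
  (∀ c : F, r ≠ algebraMap F K c) →
  ∃ α : F, α ≠ 0 ∧ ∃ a ∈ DA F N ρ, tr F (a * (algebraMap F K α / (r - algebraMap F K α))) = 1

/-- Theorem (M). -/
def ThmMStatement : Prop := ∀ (F K : Type u) [Field F] [Field K] [Algebra F K] [FiniteDimensional F K]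
  (l p e : ℕ) (N : Subgroup Kˣ) (ρ : K), Dat F l p e N ρ → ¬ p ∣ nn F ρ * (l ^ 2 - 1) →
  ∀ x : K, x ≠ 0 → (∀ V : ValuationSubring F, Bad (l ^ e) ρ V → x - 1 ∈ MB V ρ) → InN N x

end CL
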