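import Pool.Agent.Lib.MP_defcf3_al.CL.IfaceZ
import Pool.Agent.Lib.MP_defcf3_al.CL.BAlg

/-!
Project CL (MP_defcf3_al), part (B): findings 4323 (PaperB1.md) and 4324 (PaperB2.md). Statements of the modules.
q = l ^ e, Q = QQ l e n = l ^ (e * n!), tw s A = coefficients of A to the power s, P_X = PX l e n K P X.
Elements of K_P = F[X]/P are polynomials of degree less than r = deg P; products are taken mod P.
-/

open Polynomial

namespace CL

universe u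

section Defs

variable {F : Type u} [Field F]

/-- The content norm of a polynomial. -/
noncomputable def pn (V : ValuationSubring F) (A : F[X]) : V.ValueGroup :=
  A.support.sup fun i => V.valuation (A.coeff i)

/-- V is inert for P: P has coefficients in V and is irreducible modulo the maximal ideal. -/
def Inert (V : ValuationSubring F) (P : F[X]) : Prop :=
  ∃ P' : Polynomial V, P'.map (algebraMap V F) = P ∧ Irreducible (P'.map (IsLocalRing.residue V))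

/-- A ~ B at V: A is a scalar times B + smaller. -/
def PSim (V : ValuationSubring F) (A B : F[X]) : Prop :=
  ∃ a : F, a ≠ 0 ∧ pn V (A - C a * B) < pn V (C a * B)

/-- The ideal J of Z is contained in the maximal ideal of V. -/
def Jle (Z : Set (ValuationSubring F)) (V : ValuationSubring F) : Prop :=
  ∀ j : F, (∀ V' ∈ Z, V'.valuation j < 1) → V.valuation j < 1

/-- X^q - X splits in the residue field of V. -/
def FQ (q : ℕ) (V : ValuationSubring F) : Prop :=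
  Nat.card {x : IsLocalRing.ResidueField V // x ^ q = x} = q

/-- |C(s)| = max(1,|s|)^D at V. -/
def Anis (V : ValuationSubring F) (D : ℕ) (Cp : F[X]) : Prop :=
  ∀ s : F, V.valuation (Cp.eval s) = max 1 (V.valuation s) ^ D

/-- The number Q. -/
def QQ (l e n : ℕ) : ℕ := l ^ (e * n.factorial)

/-- The places B(P). -/
def Bd (Z : Set (ValuationSubring F)) (Q : ℕ) (P : F[X]) : Set (ValuationSubring F) :=
  {V | Jle Z V ∧ Inert V P ∧ CoM V (tw Q P - P)}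

/-- The condition: type a at V. -/
def TypeA (q a : ℕ) (P : F[X]) (V : ValuationSubring F) : Prop :=
  CoM V (tw (q ^ a) P - P) ∧ ∀ i, 1 ≤ i → i < a → ¬ CoM V (tw (q ^ i) P - P)

/-- The set Z_a. -/
def Za (Z : Set (ValuationSubring F)) (l e n a : ℕ) (P : F[X]) : Set (ValuationSubring F) :=
  {V | V ∈ Bd Z (QQ l e n) P ∧ TypeA (l ^ e) a P V}

/-- The set XX. -/
def XX (Z : Set (ValuationSubring F)) (D : ℕ) (Cp : F[X]) : Set (ValuationSubring F) :=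
  {V | Jle Z V ∧ Anis V D Cp}

/-- The polynomial P_X. -/
noncomputable def PX (l e n K : ℕ) (P X : F[X]) : F[X] := tw (QQ l e n ^ K) P + X

/-- X in AA (with exponent m), as a polynomial of degree less than r. -/
def PA (Z : Set (ValuationSubring F)) (l e n a r : ℕ) (P : F[X]) (f : F) (m : ℕ) (X : F[X]) : Prop :=
  X ≠ 0 ∧ X.natDegree < r ∧ ∀ V ∈ Za Z l e n a P, V.valuation f ^ m ≤ pn V X ∧ pn V X ≤ V.valuation f

/-- The base field and the numbers. -/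
structure Num (F : Type u) [Field F] (l p e n r : ℕ) (Z : Set (ValuationSubring F)) : Prop where
  lpr : l.Prime
  ppr : p.Prime
  two : p ≠ 2
  lp : l ≠ p
  chr : CharP F l
  perf : ∀ x : F, ∃ y : F, y ^ l = x
  epos : 1 ≤ e
  r2 : 2 ≤ r
  rn : r < n
  np : n < p
  l2 : ¬ p ∣ l ^ 2 - 1
  qmod : p ∣ QQ l e n - 1
  fq : ∀ V : ValuationSubring F, Jle Z V → FQ (l ^ e) V

/-- Properties of an anisotropic polynomial over the prime field: it has no root at all bad places. -/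
structure Ani (F : Type u) [Field F] (l e n : ℕ) (D : ℕ) (Cp : F[X]) : Prop where
  Dpos : 1 ≤ D
  mon : Cp.Monic
  deg : Cp.natDegree = D
  zero : Cp.coeff 0 = 1
  pf : ∀ i, ∃ m : ℤ, Cp.coeff i = (m : F)
  an : ∀ (P : F[X]) (V : ValuationSubring F), P.Monic → 2 ≤ P.natDegree → P.natDegree ≤ n → Inert V P →
    CoM V (tw (QQ l e n) P - P) → Anis V D Cp

/-- The content form: a polynomial form over the prime field with |cont A| = |A|^E at anisotropic places, and the form H. -/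
structure Cnt (F : Type u) [Field F] (l r D : ℕ) (Cp : F[X]) (E : ℕ) (cont : F[X] → F) (H : F → F → F) : Prop where
  Epos : 1 ≤ E
  val : ∀ (V : ValuationSubring F), Anis V D Cp → ∀ A : F[X], A.natDegree < r → V.valuation (cont A) = pn V A ^ E
  lip : ∀ (V : ValuationSubring F) (A B : F[X]), A.natDegree < r → B.natDegree < r → pn V A ≤ 1 → pn V B ≤ 1 →
    V.valuation (cont A - cont B) ≤ pn V (A - B)
  zero : cont 0 = 0
  tw : ∀ (j : ℕ) (A : F[X]), A.natDegree < r → cont (CL.tw (l ^ j) A) = cont A ^ l ^ j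
  form : ∀ (V : ValuationSubring F), Anis V D Cp → ∀ s t : F, V.valuation (H s t) = max (V.valuation s) (V.valuation t) ^ D

/-- The function h P A = b(A(θ), P(θ)) at stage r. -/
structure HF (F : Type u) [Field F] (l p e n r : ℕ) (Z : Set (ValuationSubring F)) {T : Type u} [AddCommGroup T]
    (h : F[X] → F[X] → T) : Prop where
  tors : ∀ t : T, p • t = 0
  one : ∀ P : F[X], P.Monic → P.natDegree = r → h P 1 = 0
  mul : ∀ P A B : F[X], P.Monic → P.natDegree = r → Irreducible P → A ≠ 0 → A.natDegree < r → B ≠ 0 →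
    B.natDegree < r → h P ((A * B) %ₘ P) = h P A + h P B
  sc : ∀ (P A : F[X]) (c : F), P.Monic → P.natDegree = r → A ≠ 0 → A.natDegree < r → c ≠ 0 → h P (C c * A) = h P A
  twP : ∀ P A : F[X], P.Monic → P.natDegree = r → A ≠ 0 → A.natDegree < r → h (tw (QQ l e n) P) A = h P A
  twA : ∀ P A : F[X], P.Monic → P.natDegree = r → A ≠ 0 → A.natDegree < r → h P (tw (QQ l e n) A) = h P A
  pair : ∀ (P P' : F[X]) (i : ℕ), P.Monic → P.natDegree = r → P'.Monic → P'.natDegree = r → P ≠ P' →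
    P ≠ tw (QQ l e n ^ i) P' →
    h P (P - P') - h P' (P - P') = h P (P - tw (QQ l e n ^ i) P') - h P' (P - tw (QQ l e n ^ i) P')
  wt : ∀ P A : F[X], P.Monic → P.natDegree = r → A ≠ 0 → A.natDegree < r →
    h (tw (l ^ e) P) (tw (l ^ e) A) = (l ^ e) • h P A
  mz : ∀ P A : F[X], P.Monic → P.natDegree = r → Irreducible P → A ≠ 0 → A.natDegree < r →
    (∀ V ∈ Bd Z (QQ l e n) P, PSim V A 1) → h P A = 0

/-- The context of sections 5 and 6. mm is the exponent m + 1 of the paper. -/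
structure Ctx (F : Type u) [Field F] (l p e n r : ℕ) (Z : Set (ValuationSubring F)) (P : F[X]) (a : ℕ) (f : F)
    (D : ℕ) (Cp : F[X]) (E : ℕ) (cont : F[X] → F) (H : F → F → F) (K mm : ℕ) : Prop where
  num : Num F l p e n r Z
  ani : Ani F l e n D Cp
  cnt : Cnt F l r D Cp E cont H
  mon : P.Monic
  deg : P.natDegree = r
  irr : Irreducible P
  apos : 1 ≤ a
  ne : (Za Z l e n a P).Nonempty
  f0 : f ≠ 0
  fle : ∀ V ∈ XX Z D Cp, V.valuation f ≤ 1
  fB : ∀ V ∈ Bd Z (QQ l e n) P, V.valuation f < 1 ↔ V ∈ Za Z l e n a P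
  m3 : 3 ≤ mm
  deep : ∀ V ∈ Za Z l e n a P, ∀ i, pn V (tw (QQ l e n ^ K) P - tw (QQ l e n ^ (K + i)) P) ≤ V.valuation f ^ (mm + 2)
  deepq : ∀ V ∈ Za Z l e n a P, pn V (tw (QQ l e n ^ K) (tw ((l ^ e) ^ a) P - P)) ≤ V.valuation f ^ (mm + 2)

/-- The function E on polynomials: (5.2), (5.3). -/
structure EP (F : Type u) [Field F] (l e n r : ℕ) (Z : Set (ValuationSubring F)) (P : F[X]) (a : ℕ) (f : F)
    (K mm : ℕ) {T : Type u} [AddCommGroup T] (h : F[X] → F[X] → T) (E : F[X] → F[X] → T) : Prop where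
  e0 : ∀ X, PA Z l e n a r P f mm X → ∀ y : F[X], y ≠ 0 → y.natDegree < r →
    (∀ V ∈ Bd Z (QQ l e n) (PX l e n K P X), V ∉ Za Z l e n a P → PSim V y 1) → h (PX l e n K P X) y = E y X
  cls : ∀ X, PA Z l e n a r P f mm X → ∀ A B : F[X], A ≠ 0 → A.natDegree < r → B ≠ 0 → B.natDegree < r →
    (∀ V ∈ Za Z l e n a P, PSim V A B) → E A X = E B X
  mul : ∀ X, PA Z l e n a r P f mm X → ∀ A B : F[X], A ≠ 0 → A.natDegree < r → B ≠ 0 → B.natDegree < r →
    E ((A * B) %ₘ P) X = E A X + E B X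
  tw : ∀ X, PA Z l e n a r P f mm X → ∀ A : F[X], A ≠ 0 → A.natDegree < r → E (CL.tw (QQ l e n) A) X = E A X

end Defs

/-! ## Content norms -/

/-- Elementary properties of pn and tw. -/
def PnStatement : Prop := ∀ (F : Type u) [Field F] (V : ValuationSubring F),
  (∀ A : F[X], pn V A = 0 ↔ A = 0) ∧ (∀ (A : F[X]) (i : ℕ), V.valuation (A.coeff i) ≤ pn V A) ∧
  (∀ A : F[X], A ≠ 0 → ∃ i, V.valuation (A.coeff i) = pn V A) ∧
  (∀ A B : F[X], pn V (A + B) ≤ max (pn V A) (pn V B)) ∧ (∀ A : F[X], pn V (-A) = pn V A) ∧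
  (∀ A B : F[X], pn V A < pn V B → pn V (A + B) = pn V B) ∧
  (∀ (c : F) (A : F[X]), pn V (C c * A) = V.valuation c * pn V A) ∧ (∀ c : F, pn V (C c) = V.valuation c) ∧
  (∀ A : F[X], pn V A ≤ 1 ↔ CoV V A) ∧ (∀ A : F[X], pn V A < 1 ↔ CoM V A) ∧
  (∀ A : F[X], A.Monic → 1 ≤ pn V A)

/-- Properties of the coefficientwise Frobenius. -/
def TwpStatement : Prop := ∀ (F : Type u) [Field F] (l : ℕ), l.Prime → CharP F l → (∀ x : F, ∃ y : F, y ^ l = x) →
  (∀ (j : ℕ) (A B : F[X]), tw (l ^ j) (A + B) = tw (l ^ j) A + tw (l ^ j) B ∧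
    tw (l ^ j) (A - B) = tw (l ^ j) A - tw (l ^ j) B ∧ tw (l ^ j) (A * B) = tw (l ^ j) A * tw (l ^ j) B) ∧
  (∀ (j : ℕ) (A : F[X]) (i : ℕ), (tw (l ^ j) A).coeff i = A.coeff i ^ l ^ j) ∧
  (∀ (j : ℕ) (A : F[X]), (tw (l ^ j) A).natDegree = A.natDegree ∧ (tw (l ^ j) A = 0 ↔ A = 0) ∧
    (A.Monic → (tw (l ^ j) A).Monic)) ∧
  (∀ (j k : ℕ) (A : F[X]), tw (l ^ j) (tw (l ^ k) A) = tw (l ^ (j + k)) A) ∧
  (∀ (j : ℕ) (V : ValuationSubring F) (A : F[X]), pn V (tw (l ^ j) A) = pn V A ^ l ^ j) ∧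
  (∀ (j : ℕ) (A B P : F[X]), P.Monic → (tw (l ^ j) ((A * B) %ₘ P)) =
    (tw (l ^ j) A * tw (l ^ j) B) %ₘ tw (l ^ j) P) ∧
  (∀ (j : ℕ) (V : ValuationSubring F) (P : F[X]), P.Monic → (Inert V (tw (l ^ j) P) ↔ Inert V P))

/-- Inert places: the content norm is multiplicative modulo P. -/
def InrStatement : Prop := ∀ (F : Type u) [Field F] (V : ValuationSubring F) (P : F[X]), P.Monic → 1 ≤ P.natDegree →
  Inert V P →
  (∀ A B : F[X], A.natDegree < P.natDegree → B.natDegree < P.natDegree → pn V ((A * B) %ₘ P) = pn V A * pn V B) ∧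
  (∀ P' : F[X], P'.Monic → P'.natDegree = P.natDegree → CoM V (P' - P) → Inert V P' ∧
    ∀ A B : F[X], A.natDegree < P.natDegree → B.natDegree < P.natDegree → A ≠ 0 → B ≠ 0 →
      pn V ((A * B) %ₘ P - (A * B) %ₘ P') < pn V A * pn V B) ∧
  Irreducible P

/-- The relation PSim. -/
def SimStatement : Prop := ∀ (F : Type u) [Field F] (V : ValuationSubring F),
  (∀ A : F[X], A ≠ 0 → PSim V A A) ∧ (∀ A B : F[X], PSim V A B → A ≠ 0 ∧ B ≠ 0 ∧ PSim V B A) ∧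
  (∀ A B D : F[X], PSim V A B → PSim V B D → PSim V A D) ∧
  (∀ A B : F[X], pn V (A - B) < pn V B → PSim V A B) ∧
  (∀ (A : F[X]) (c : F), c ≠ 0 → A ≠ 0 → PSim V (C c * A) A) ∧
  (∀ P A A' B B' : F[X], P.Monic → 1 ≤ P.natDegree → Inert V P → A.natDegree < P.natDegree →
    A'.natDegree < P.natDegree → B.natDegree < P.natDegree → B'.natDegree < P.natDegree → PSim V A A' → PSim V B B' →
    PSim V ((A * B) %ₘ P) ((A' * B') %ₘ P)) ∧
  (∀ P A B D : F[X], P.Monic → 1 ≤ P.natDegree → Inert V P → A.natDegree < P.natDegree →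
    B.natDegree < P.natDegree → D.natDegree < P.natDegree → D ≠ 0 → PSim V ((A * D) %ₘ P) ((B * D) %ₘ P) → PSim V A B) ∧
  (∀ P P' A B : F[X], P.Monic → 1 ≤ P.natDegree → Inert V P → P'.Monic → P'.natDegree = P.natDegree → CoM V (P' - P) →
    A ≠ 0 → B ≠ 0 → A.natDegree < P.natDegree → B.natDegree < P.natDegree →
    PSim V ((A * B) %ₘ P') ((A * B) %ₘ P)) ∧
  (∀ (l j : ℕ) (A B : F[X]), l.Prime → CharP F l → PSim V A B → PSim V (tw (l ^ j) A) (tw (l ^ j) B))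

/-! ## Section 4 -/

/-- (4.7): the cyclotomic polynomial. -/
def CycStatement : Prop := ∀ (F : Type u) [Field F] (l e n : ℕ), l.Prime → CharP F l → (∀ x : F, ∃ y : F, y ^ l = x) →
  1 ≤ e → 2 ≤ n → ∃ (D : ℕ) (Cp : F[X]), Ani F l e n D Cp

/-- (4.8): the content form. -/
def ContStatement : Prop := ∀ (F : Type u) [Field F] (l e n r : ℕ) (D : ℕ) (Cp : F[X]), l.Prime → CharP F l →
  1 ≤ r → Ani F l e n D Cp → ∃ (E : ℕ) (cont : F[X] → F) (H : F → F → F), Cnt F l r D Cp E cont H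

/-- (4.9), (4.10). -/
def CutStatement : Prop := ∀ (F : Type u) [Field F] (l p e n r : ℕ) (Z : Set (ValuationSubring F)) (P : F[X]) (a : ℕ)
  (D : ℕ) (Cp : F[X]) (E : ℕ) (cont : F[X] → F) (H : F → F → F), Num F l p e n r Z → Ani F l e n D Cp →
  Cnt F l r D Cp E cont H → P.Monic → P.natDegree = r → 1 ≤ a → tw ((l ^ e) ^ a) P ≠ P →
  (Za Z l e n a P).Nonempty → ∃ (f : F) (c : ℕ), f ≠ 0 ∧ 1 ≤ c ∧
    (∀ V ∈ XX Z D Cp, V.valuation f ≤ 1 ∧ (V.valuation f < 1 ↔ TypeA (l ^ e) a P V) ∧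
      (V.valuation f < 1 → V.valuation f = pn V (tw ((l ^ e) ^ a) P - P) ^ c)) ∧
    (∀ V ∈ Za Z l e n a P, ∀ i, 1 ≤ i → pn V (tw (QQ l e n ^ i) P - P) = pn V (tw ((l ^ e) ^ a) P - P))

/-- Existence of the context: choice of k, K, mm (with mm at least m0), and of X_0 = P_k - P_K. -/
def CtxStatement : Prop := ∀ (F : Type u) [Field F] (l p e n r : ℕ) (Z : Set (ValuationSubring F)) (P : F[X]) (a : ℕ)
  (D : ℕ) (Cp : F[X]) (E : ℕ) (cont : F[X] → F) (H : F → F → F), Num F l p e n r Z → Ani F l e n D Cp →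
  Cnt F l r D Cp E cont H → P.Monic → P.natDegree = r → Irreducible P → 1 ≤ a → tw ((l ^ e) ^ a) P ≠ P →
  (Za Z l e n a P).Nonempty → ∃ f : F, ∀ m0 : ℕ, ∃ (K mm k : ℕ), m0 ≤ mm ∧ k < K ∧
    Ctx F l p e n r Z P a f D Cp E cont H K mm ∧
    PA Z l e n a r P f (mm - 2) (tw (QQ l e n ^ k) P - tw (QQ l e n ^ K) P)

/-! ## Section 4: properties of h -/

/-- The data of the inductive statement. -/
structure SnDat (F : Type u) {L : Type u} [Field F] [Field L] [Algebra F L] (l p e n : ℕ)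
    (Z : Set (ValuationSubring F)) (θ : L) {T : Type u} [AddCommGroup T] (b : L → L → T) : Prop where
  lpr : l.Prime
  ppr : p.Prime
  two : p ≠ 2
  lp : l ≠ p
  chr : CharP F l
  perf : ∀ x : F, ∃ y : F, y ^ l = x
  epos : 1 ≤ e
  np : n < p
  l2 : ¬ p ∣ l ^ 2 - 1
  top : Algebra.adjoin F {θ} = ⊤
  int : IsIntegral F θ
  deg : nn F θ = n
  inert : ∀ V ∈ Z, Inert V (minpoly F θ)
  fix : ∀ V ∈ Z, CoM V (tw (l ^ e) (minpoly F θ) - minpoly F θ)
  fq : ∀ V : ValuationSubring F, Jle Z V → FQ (l ^ e) V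
  tors : ∀ t : T, p • t = 0
  mull : ∀ x y z : L, x ≠ 0 → y ≠ 0 → z ≠ 0 → b (x * y) z = b x z + b y z
  mulr : ∀ x y z : L, x ≠ 0 → y ≠ 0 → z ≠ 0 → b x (y * z) = b x y + b x z
  st : ∀ x : L, x ≠ 0 → x ≠ 1 → b x (1 - x) = 0
  supp : ∀ (x : L) (A : F[X]), x ≠ 0 → A ≠ 0 → A.natDegree < n → (∀ V ∈ Z, PSim V A 1) →
    b x (aeval θ A) = 0 ∧ b (aeval θ A) x = 0
  wt : ∀ A B : F[X], A ≠ 0 → B ≠ 0 → A.natDegree < n → B.natDegree < n →
    b (aeval θ (tw (l ^ e) A)) (aeval θ (tw (l ^ e) B)) = (l ^ e) • b (aeval θ A) (aeval θ B)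

/-- (S_n). -/
def SnStatement (n : ℕ) : Prop := ∀ (F L : Type u) [Field F] [Field L] [Algebra F L] [FiniteDimensional F L]
  (l p e : ℕ) (Z : Set (ValuationSubring F)) (θ : L) (T : Type u) [AddCommGroup T] (b : L → L → T),
  SnDat F l p e n Z θ b → ∀ x y : L, x ≠ 0 → y ≠ 0 → b x y = 0

/-- Stage r. -/
def Stage (F : Type u) {L : Type u} [Field F] [Field L] [Algebra F L] (θ : L) {T : Type u} [AddCommGroup T]
    (b : L → L → T) (r : ℕ) : Prop :=
  ∀ A B : F[X], A ≠ 0 → B ≠ 0 → A.natDegree < r → B.natDegree < r → b (aeval θ A) (aeval θ B) = 0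

/-- (4.2): the twist by Q, and the case Q not 1 mod p. -/
def MilQStatement : Prop := ∀ (F L : Type u) [Field F] [Field L] [Algebra F L] [FiniteDimensional F L]
  (l p e n : ℕ) (Z : Set (ValuationSubring F)) (θ : L) (T : Type u) [AddCommGroup T] (b : L → L → T),
  SnDat F l p e n Z θ b → 1 ≤ n →
  (∀ (A : F[X]) (y : L), A ≠ 0 → A.natDegree < n → y ≠ 0 →
    b (aeval θ (tw (QQ l e n) A)) y = QQ l e n • b (aeval θ A) y ∧
    b y (aeval θ (tw (QQ l e n) A)) = QQ l e n • b y (aeval θ A)) ∧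
  (¬ p ∣ QQ l e n - 1 → ∀ x y : L, x ≠ 0 → y ≠ 0 → b x y = 0)

/-- (4.1) - (4.5): all properties of h except (M_Z). -/
def MilStatement : Prop := ∀ (F L : Type u) [Field F] [Field L] [Algebra F L] [FiniteDimensional F L]
  (l p e n r : ℕ) (Z : Set (ValuationSubring F)) (θ : L) (T : Type u) [AddCommGroup T] (b : L → L → T),
  SnDat F l p e n Z θ b → 1 ≤ r → r < n → p ∣ QQ l e n - 1 → Stage F θ b r →
  (∀ P : F[X], P.Monic → P.natDegree = r → b (aeval θ (1 : F[X])) (aeval θ P) = 0) ∧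
  (∀ P A B : F[X], P.Monic → P.natDegree = r → Irreducible P → A ≠ 0 → A.natDegree < r → B ≠ 0 →
    B.natDegree < r → b (aeval θ ((A * B) %ₘ P)) (aeval θ P) = b (aeval θ A) (aeval θ P) + b (aeval θ B) (aeval θ P)) ∧
  (∀ (P A : F[X]) (c : F), P.Monic → P.natDegree = r → A ≠ 0 → A.natDegree < r → c ≠ 0 →
    b (aeval θ (C c * A)) (aeval θ P) = b (aeval θ A) (aeval θ P)) ∧
  (∀ P A : F[X], P.Monic → P.natDegree = r → A ≠ 0 → A.natDegree < r →
    b (aeval θ A) (aeval θ (tw (QQ l e n) P)) = b (aeval θ A) (aeval θ P)) ∧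
  (∀ P A : F[X], P.Monic → P.natDegree = r → A ≠ 0 → A.natDegree < r →
    b (aeval θ (tw (QQ l e n) A)) (aeval θ P) = b (aeval θ A) (aeval θ P)) ∧
  (∀ (P P' : F[X]) (i : ℕ), P.Monic → P.natDegree = r → P'.Monic → P'.natDegree = r → P ≠ P' →
    P ≠ tw (QQ l e n ^ i) P' →
    b (aeval θ (P - P')) (aeval θ P) - b (aeval θ (P - P')) (aeval θ P') =
      b (aeval θ (P - tw (QQ l e n ^ i) P')) (aeval θ P) - b (aeval θ (P - tw (QQ l e n ^ i) P')) (aeval θ P')) ∧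
  (∀ P A : F[X], P.Monic → P.natDegree = r → A ≠ 0 → A.natDegree < r →
    b (aeval θ (tw (l ^ e) A)) (aeval θ (tw (l ^ e) P)) = (l ^ e) • b (aeval θ A) (aeval θ P)) ∧
  (∀ P A : F[X], P.Monic → P.natDegree = r → ¬ Irreducible P → A ≠ 0 → A.natDegree < r →
    b (aeval θ A) (aeval θ P) = 0) ∧
  ((∀ P A : F[X], P.Monic → P.natDegree = r → Irreducible P → A ≠ 0 → A.natDegree < r →
    b (aeval θ A) (aeval θ P) = 0) → Stage F θ b (r + 1))

/-- (4.6): from (M_Z). -/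
def MzpStatement : Prop := ∀ (F L : Type u) [Field F] [Field L] [Algebra F L] [FiniteDimensional F L]
  (l p e n r : ℕ) (Z : Set (ValuationSubring F)) (θ : L) (T : Type u) [AddCommGroup T] (b : L → L → T),
  SnDat F l p e n Z θ b → 2 ≤ r → r < n → p ∣ QQ l e n - 1 → Stage F θ b r →
  ∀ P A : F[X], P.Monic → P.natDegree = r → Irreducible P → A ≠ 0 → A.natDegree < r →
    (∀ V ∈ Bd Z (QQ l e n) P, PSim V A 1) → b (aeval θ A) (aeval θ P) = 0

/-- (4.1) - (4.6) together. -/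
def HfStatement : Prop := ∀ (F L : Type u) [Field F] [Field L] [Algebra F L] [FiniteDimensional F L]
  (l p e n r : ℕ) (Z : Set (ValuationSubring F)) (θ : L) (T : Type u) [AddCommGroup T] (b : L → L → T),
  SnDat F l p e n Z θ b → 2 ≤ r → r < n → p ∣ QQ l e n - 1 → Stage F θ b r →
  HF F l p e n r Z (fun P A => b (aeval θ A) (aeval θ P))

/-! ## Section 5 -/

/-- Separation in K_P: given h small on ZZ and big on the rest of W. -/
def XpStatement : Prop := ∀ (F : Type u) [Field F] (P : F[X]) (D : ℕ) (Cp : F[X]) (W ZZ : Set (ValuationSubring F))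
  (s : F), P.Monic → Irreducible P → 2 ≤ P.natDegree → Cp.coeff 0 = 1 → (∀ V ∈ W, CoV V Cp) → 1 ≤ D →
  (∀ V ∈ W, Inert V P ∧ Anis V D Cp) → ZZ ⊆ W → ZZ.Nonempty → (∀ V ∈ ZZ, V.valuation s < 1) →
  (∀ V ∈ W, V ∉ ZZ → 1 < V.valuation s) →
  ∀ A : F[X], A ≠ 0 → A.natDegree < P.natDegree → ∃ A' : F[X], A' ≠ 0 ∧ A'.natDegree < P.natDegree ∧
    (∀ V ∈ ZZ, PSim V A' ((A ^ P.natDegree) %ₘ P)) ∧ (∀ V ∈ W, V ∉ ZZ → PSim V A' 1)

/-- The sets B(P_X) and Z_a; P_X is irreducible. -/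
def PxStatement : Prop := ∀ (F : Type u) [Field F] (l p e n r : ℕ) (Z : Set (ValuationSubring F)) (P : F[X]) (a : ℕ)
  (f : F) (D : ℕ) (Cp : F[X]) (E : ℕ) (cont : F[X] → F) (H : F → F → F) (K mm : ℕ),
  Ctx F l p e n r Z P a f D Cp E cont H K mm →
  (∀ P' : F[X], P'.Monic → P'.natDegree = r → ∀ V ∈ Bd Z (QQ l e n) P', V ∈ XX Z D Cp) ∧
  (∀ (P' : F[X]) (j : ℕ), P'.Monic → P'.natDegree = r → Bd Z (QQ l e n) (tw (l ^ j) P') = Bd Z (QQ l e n) P') ∧
  (∀ V ∈ Za Z l e n a P, V ∈ Bd Z (QQ l e n) P ∧ V.valuation f < 1 ∧ 0 < V.valuation f) ∧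
  ∀ X : F[X], PA Z l e n a r P f mm X → (PX l e n K P X).Monic ∧ (PX l e n K P X).natDegree = r ∧
    (∀ V ∈ Za Z l e n a P, CoM V (PX l e n K P X - P) ∧ V ∈ Bd Z (QQ l e n) (PX l e n K P X)) ∧
    Irreducible (PX l e n K P X)

/-- (5.1). -/
def SepStatement : Prop := ∀ (F : Type u) [Field F] (l p e n r : ℕ) (Z : Set (ValuationSubring F)) (P : F[X]) (a : ℕ)
  (f : F) (D : ℕ) (Cp : F[X]) (E : ℕ) (cont : F[X] → F) (H : F → F → F) (K mm : ℕ),
  Ctx F l p e n r Z P a f D Cp E cont H K mm → ∀ X : F[X], PA Z l e n a r P f mm X →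
  ∃ s : F, (∀ V ∈ Za Z l e n a P, V.valuation s ≤ V.valuation f ^ (mm + 1)) ∧
    (∀ V ∈ Bd Z (QQ l e n) (PX l e n K P X), V ∉ Za Z l e n a P → 1 < V.valuation s)

/-- (5.2), (5.3): the function E. -/
def EdStatement : Prop := ∀ (F : Type u) [Field F] (l p e n r : ℕ) (Z : Set (ValuationSubring F)) (P : F[X]) (a : ℕ)
  (f : F) (D : ℕ) (Cp : F[X]) (E : ℕ) (cont : F[X] → F) (H : F → F → F) (K mm : ℕ) (T : Type u) [AddCommGroup T]
  (h : F[X] → F[X] → T), Ctx F l p e n r Z P a f D Cp E cont H K mm → HF F l p e n r Z h →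
  ∃ Ef : F[X] → F[X] → T, EP F l e n r Z P a f K mm h Ef

/-- (5.4). -/
def GenStatement : Prop := ∀ (F : Type u) [Field F] (l p e n r : ℕ) (Z : Set (ValuationSubring F)) (P : F[X]) (a : ℕ)
  (f : F) (D : ℕ) (Cp : F[X]) (E : ℕ) (cont : F[X] → F) (H : F → F → F) (K mm : ℕ) (T : Type u) [AddCommGroup T]
  (h Ef : F[X] → F[X] → T), Ctx F l p e n r Z P a f D Cp E cont H K mm → HF F l p e n r Z h →
  EP F l e n r Z P a f K mm h Ef →
  ∀ X Y : F[X], PA Z l e n a r P f mm X → PA Z l e n a r P f mm Y → X ≠ Y →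
  (∀ V ∈ Bd Z (QQ l e n) (PX l e n K P X), V ∉ Za Z l e n a P → 1 ≤ pn V (X - Y)) →
  (∀ V ∈ Bd Z (QQ l e n) (PX l e n K P Y), V ∉ Za Z l e n a P → 1 ≤ pn V (X - Y)) →
  Ef (X - Y) X - Ef (X - Y) Y = Ef X X - Ef X Y

/-- (5.5). -/
def GnrStatement : Prop := ∀ (F : Type u) [Field F] (l p e n r : ℕ) (Z : Set (ValuationSubring F)) (P : F[X]) (a : ℕ)
  (f : F) (D : ℕ) (Cp : F[X]) (E : ℕ) (cont : F[X] → F) (H : F → F → F) (K mm : ℕ),
  Ctx F l p e n r Z P a f D Cp E cont H K mm → ∀ X1 X2 Y : F[X], PA Z l e n a r P f mm X1 →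
  PA Z l e n a r P f mm X2 → PA Z l e n a r P f mm Y →
  ∃ s : F, (∀ V ∈ Za Z l e n a P, V.valuation s ≤ V.valuation f ^ (mm + 1)) ∧ PA Z l e n a r P f mm (Y + C s) ∧
    ∀ X : F[X], (X = X1 ∨ X = X2) →
      (∀ V ∈ Bd Z (QQ l e n) (PX l e n K P X), V ∉ Za Z l e n a P → 1 ≤ pn V (X - (Y + C s))) ∧
      (∀ V ∈ Bd Z (QQ l e n) (PX l e n K P (Y + C s)), V ∉ Za Z l e n a P → 1 ≤ pn V (X - (Y + C s)))

/-- (5.6) and (5.7). -/
def LocStatement : Prop := ∀ (F : Type u) [Field F] (l p e n r : ℕ) (Z : Set (ValuationSubring F)) (P : F[X]) (a : ℕ)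
  (f : F) (D : ℕ) (Cp : F[X]) (E : ℕ) (cont : F[X] → F) (H : F → F → F) (K mm : ℕ) (T : Type u) [AddCommGroup T]
  (h Ef : F[X] → F[X] → T), Ctx F l p e n r Z P a f D Cp E cont H K mm → HF F l p e n r Z h →
  EP F l e n r Z P a f K mm h Ef →
  (∀ X X' x : F[X], PA Z l e n a r P f (mm - 1) X → PA Z l e n a r P f mm X' →
    (∀ V ∈ Za Z l e n a P, pn V (X - X') < pn V X) → x ≠ 0 → x.natDegree < r → Ef x X = Ef x X') ∧
  (∀ X Y : F[X], PA Z l e n a r P f (mm - 1) X → PA Z l e n a r P f (mm - 1) Y → X ≠ Y →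
    (∀ V ∈ Za Z l e n a P, V.valuation f ^ (mm - 1) ≤ pn V (X - Y)) →
    Ef (X - Y) X - Ef (X - Y) Y = Ef X X - Ef X Y)

/-! ## Section 6 -/

/-- (6.1) = (E3). -/
def E3Statement : Prop := ∀ (F : Type u) [Field F] (l p e n r : ℕ) (Z : Set (ValuationSubring F)) (P : F[X]) (a : ℕ)
  (f : F) (D : ℕ) (Cp : F[X]) (E : ℕ) (cont : F[X] → F) (H : F → F → F) (K mm : ℕ) (T : Type u) [AddCommGroup T]
  (h Ef : F[X] → F[X] → T), Ctx F l p e n r Z P a f D Cp E cont H K mm → HF F l p e n r Z h →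
  EP F l e n r Z P a f K mm h Ef →
  ∀ X x : F[X], PA Z l e n a r P f mm X → PA Z l e n a r P f (mm - 1) (tw ((l ^ e) ^ a) X) → x ≠ 0 →
    x.natDegree < r → Ef (tw ((l ^ e) ^ a) x) (tw ((l ^ e) ^ a) X) = ((l ^ e) ^ a) • Ef x X

/-- (6.2) = (E4), (E5). -/
def E4Statement : Prop := ∀ (F : Type u) [Field F] (l p e n r : ℕ) (Z : Set (ValuationSubring F)) (P : F[X]) (a : ℕ)
  (f : F) (D : ℕ) (Cp : F[X]) (E : ℕ) (cont : F[X] → F) (H : F → F → F) (K mm k : ℕ) (T : Type u) [AddCommGroup T]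
  (h Ef : F[X] → F[X] → T), Ctx F l p e n r Z P a f D Cp E cont H K mm → HF F l p e n r Z h →
  EP F l e n r Z P a f K mm h Ef → k < K →
  PA Z l e n a r P f (mm - 2) (tw (QQ l e n ^ k) P - tw (QQ l e n ^ K) P) →
  (∀ y : F[X], y ≠ 0 → y.natDegree < r → (∀ V ∈ Bd Z (QQ l e n) P, V ∉ Za Z l e n a P → PSim V y 1) →
    h P y = Ef y (tw (QQ l e n ^ k) P - tw (QQ l e n ^ K) P)) ∧
  (∀ A : F[X], A ≠ 0 → A.natDegree < r → ∃ y : F[X], y ≠ 0 ∧ y.natDegree < r ∧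
    (∀ V ∈ Za Z l e n a P, PSim V y ((A ^ r) %ₘ P)) ∧ (∀ V ∈ Bd Z (QQ l e n) P, V ∉ Za Z l e n a P → PSim V y 1))

/-- (6.3) = (E6). -/
def E6Statement : Prop := ∀ (F : Type u) [Field F] (l p e n r : ℕ) (Z : Set (ValuationSubring F)) (P : F[X]) (a : ℕ)
  (D : ℕ) (Cp : F[X]) (E : ℕ) (cont : F[X] → F) (H : F → F → F), Num F l p e n r Z → Ani F l e n D Cp →
  Cnt F l r D Cp E cont H → P.Monic → P.natDegree = r → 1 ≤ a →
  (∀ V : ValuationSubring F, Jle (Za Z l e n a P) V → FQ ((l ^ e) ^ a) V) ∧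
  (tw ((l ^ e) ^ a) P = P → (∀ i, 1 ≤ i → i < a → tw ((l ^ e) ^ i) P ≠ P) →
    ∀ V ∈ Bd Z (QQ l e n) P, V ∈ Za Z l e n a P ∧ FQ ((l ^ e) ^ a) V)

/-! ## Section 7 -/

/-- (NK), on polynomials. -/
def NkStatement : Prop := ∀ (F : Type u) [Field F] (l p r s : ℕ) (ZZ : Set (ValuationSubring F)) (P : F[X]) (T : Type u)
  [AddCommGroup T] (g : F[X] → T), l.Prime → p.Prime → l ≠ p → CharP F l → (∀ x : F, ∃ y : F, y ^ l = x) → 2 ≤ r →
  r < p → (∀ t : T, p • t = 0) → P.Monic → P.natDegree = r → Irreducible P → 1 ≤ s →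
  (∀ V ∈ ZZ, Inert V P ∧ CoM V (tw (l ^ s) P - P) ∧ FQ (l ^ s) V) →
  (∀ A B : F[X], A ≠ 0 → A.natDegree < r → B ≠ 0 → B.natDegree < r → g ((A * B) %ₘ P) = g A + g B) →
  (∀ A : F[X], A ≠ 0 → A.natDegree < r → (∀ V ∈ ZZ, PSim V A 1) → g A = 0) →
  (∀ A : F[X], A ≠ 0 → A.natDegree < r → g (tw (l ^ s) A) = (l ^ s) • g A) →
  ∀ A : F[X], A ≠ 0 → A.natDegree < r → g A = 0

/-! ## Section 8 -/

/-- The family of valuations of AdjoinRoot P: data of block ALG. -/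
def FamStatement : Prop := ∀ (F : Type u) [Field F] (P : F[X]) [Fact (Irreducible P)] (D : ℕ) (Cp : F[X])
  (ZZ : Set (ValuationSubring F)) (f : F), P.Monic → 2 ≤ P.natDegree → f ≠ 0 →
  (∀ V ∈ ZZ, Inert V P ∧ Anis V D Cp ∧ CoV V Cp ∧ V.valuation f < 1) → 1 ≤ D → Cp.Monic → Cp.natDegree = D →
  Cp.coeff 0 = 1 →
  ∃ (v : ∀ V : ZZ, Valuation (AdjoinRoot P) V.1.ValueGroup) (c0 : AdjoinRoot P →ₗ[F] F),
    Fam F v c0 P.natDegree (AdjoinRoot.root P) f D Cp ∧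
    ∀ (V : ZZ) (A : F[X]), A.natDegree < P.natDegree → v V (AdjoinRoot.mk P A) = pn V.1 A

/-- Elements of AdjoinRoot P as polynomials of degree less than r. -/
def RepStatement : Prop := ∀ (F : Type u) [Field F] (P : F[X]) [Fact (Irreducible P)], P.Monic → 2 ≤ P.natDegree →
  (∃ rp : AdjoinRoot P → F[X], (∀ x, AdjoinRoot.mk P (rp x) = x ∧ (rp x).natDegree < P.natDegree) ∧
    (∀ A : F[X], A.natDegree < P.natDegree → rp (AdjoinRoot.mk P A) = A) ∧
    (∀ x y, rp (x * y) = (rp x * rp y) %ₘ P) ∧ (∀ x y, rp (x - y) = rp x - rp y) ∧ (∀ x, rp x = 0 ↔ x = 0) ∧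
    rp 1 = 1 ∧ (∀ c : F, rp (algebraMap F (AdjoinRoot P) c) = C c)) ∧
  (∀ (V : ValuationSubring F) (v : Valuation (AdjoinRoot P) V.ValueGroup),
    (∀ A : F[X], A.natDegree < P.natDegree → v (AdjoinRoot.mk P A) = pn V A) →
    ∀ A : F[X], A.natDegree < P.natDegree → (Triv F v (AdjoinRoot.mk P A) ↔ PSim V A 1)) ∧
  (∀ A : F[X], aeval (AdjoinRoot.root P) A = AdjoinRoot.mk P A) ∧
  minpoly F (AdjoinRoot.root P) = P ∧ Algebra.adjoin F {AdjoinRoot.root P} = ⊤ ∧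
  IsIntegral F (AdjoinRoot.root P)

/-- Sections 5 - 7 for one type a: the contribution of Z_a is zero if (S_r) holds. -/
def TypeStatement : Prop := ∀ (F : Type u) [Field F] (l p e n r : ℕ) (Z : Set (ValuationSubring F)) (P : F[X]) (a : ℕ)
  (T : Type u) [AddCommGroup T] (h : F[X] → F[X] → T), SnStatement.{u} r → Num F l p e n r Z → HF F l p e n r Z h →
  P.Monic → P.natDegree = r → Irreducible P → 1 ≤ a → tw ((l ^ e) ^ a) P ≠ P → (Za Z l e n a P).Nonempty →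
  (∀ y : F[X], y ≠ 0 → y.natDegree < r → (∀ V ∈ Bd Z (QQ l e n) P, V ∉ Za Z l e n a P → PSim V y 1) → h P y = 0) ∧
  (∀ A : F[X], A ≠ 0 → A.natDegree < r → ∃ y : F[X], y ≠ 0 ∧ y.natDegree < r ∧
    (∀ V ∈ Za Z l e n a P, PSim V y ((A ^ r) %ₘ P)) ∧ (∀ V ∈ Bd Z (QQ l e n) P, V ∉ Za Z l e n a P → PSim V y 1))

/-- (8.1) and the end of (8.2): h_P = 0. -/
def HpStatement : Prop := ∀ (F : Type u) [Field F] (l p e n r : ℕ) (Z : Set (ValuationSubring F)) (P : F[X])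
  (T : Type u) [AddCommGroup T] (h : F[X] → F[X] → T), SnStatement.{u} r → Num F l p e n r Z → HF F l p e n r Z h →
  P.Monic → P.natDegree = r → Irreducible P → ∀ A : F[X], A ≠ 0 → A.natDegree < r → h P A = 0

/-- (FIN). -/
def FinBStatement : Prop := ∀ n : ℕ, 1 ≤ n → SnStatement.{u} n

end CL
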