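import Pool.Agent.Lib.MP_defcf3_al.CL.Iface

/-!
Theorem (M) with supports: (M_Z). The set Z of valuation rings supports the class of h; the statement needs x = 1 only at the
V in Bad(P) whose maximal ideal contains every j with |j| < 1 on Z.
-/

open Polynomial

namespace CL

universe u

/-- The situation of section 6 without G. -/
structure Six0 (F : Type u) {K : Type u} [Field F] [Field K] [Algebra F K] (l p e : ℕ) (N : Subgroup Kˣ)
    (ρ : K) (V : ValuationSubring F) : Prop where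
  dat : Dat F l p e N ρ
  le : AA F N ρ ≤ V.toSubring
  unit : UnitProp V ρ

def UnitsZStatement : Prop := ∀ (F K : Type u) [Field F] [Field K] [Algebra F K] [FiniteDimensional F K]
  (l p e : ℕ) (N : Subgroup Kˣ) (ρ : K) (V : ValuationSubring F), Six0 F l p e N ρ V → 3 ≤ nn F ρ →
  (∃ w : F, V.valuation w = 1 ∧ w • dl F ρ ∈ Dz F N) →
  (∀ i < nn F ρ, i ≠ 1 → ∀ j < nn F ρ, j ≠ 1 → ∃ w : F, V.valuation w = 1 ∧
    Op F N (ρ ^ j / ρ) (w • (dl F ρ * ρ * aeval ρ (Bq F ρ i)))) ∧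
  (∀ k ≤ nn F ρ - 2, ∃ w : F, V.valuation w = 1 ∧ Op F N ρ⁻¹ (w • (dl F ρ * ρ ^ k))) ∧
  (∃ w : F, V.valuation w = 1 ∧ ∀ s : F, Op F N (ρ - algebraMap F K s)⁻¹ (w • dl F ρ))

def SixTwoZStatement : Prop := ∀ (F K : Type u) [Field F] [Field K] [Algebra F K] [FiniteDimensional F K]
  (l p e : ℕ) (N : Subgroup Kˣ) (ρ : K) (V : ValuationSubring F), Six0 F l p e N ρ V → 3 ≤ nn F ρ →
  (∃ w : F, V.valuation w = 1 ∧ w • dl F ρ ∈ Dz F N) →
  ∃ w0 w1 : F, V.valuation w0 = 1 ∧ V.valuation w1 = 1 ∧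
    ∀ s : F, w0 * ((minpoly F ρ).eval s)⁻¹ ∈ MM F N ∧ w1 * (s * ((minpoly F ρ).eval s)⁻¹) ∈ MM F N

/-- (6.3) without G. -/
def SixThreeZStatement : Prop := ∀ (F K : Type u) [Field F] [Field K] [Algebra F K] [FiniteDimensional F K]
  (l p e : ℕ) (N : Subgroup Kˣ) (ρ : K) (V : ValuationSubring F), Six0 F l p e N ρ V → nn F ρ = 2 →
  (∃ w : F, V.valuation w = 1 ∧ w • dl F ρ ∈ Dz F N) →
  (l = 2 → (∃ w : F, V.valuation w = 1 ∧ w • dl F ρ ∈ Dz F N ∧ V.valuation (w + (minpoly F ρ).coeff 1) = 1) ∧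
    (∃ a ∈ Dp F N, V.valuation (tr F a) = 1)) →
  ∃ w0 w1 : F, V.valuation w0 = 1 ∧ V.valuation w1 = 1 ∧
    ∀ s : F, w0 * ((minpoly F ρ).eval s)⁻¹ ∈ MM F N ∧ w1 * (s * ((minpoly F ρ).eval s)⁻¹) ∈ MM F N

/-- Theorem (S) without G: a unit multiple of delta in Delta gives one in Delta_A. -/
def ThmSZStatement : Prop := ∀ (F K : Type u) [Field F] [Field K] [Algebra F K] [FiniteDimensional F K]
  (l p e : ℕ) (N : Subgroup Kˣ) (ρ : K) (V : ValuationSubring F), Six0 F l p e N ρ V →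
  (∃ w : F, V.valuation w = 1 ∧ w • dl F ρ ∈ Dz F N) →
  (nn F ρ = 2 → l = 2 →
    (∃ w : F, V.valuation w = 1 ∧ w • dl F ρ ∈ Dz F N ∧ V.valuation (w + (minpoly F ρ).coeff 1) = 1) ∧
    (∃ a ∈ Dp F N, V.valuation (tr F a) = 1)) →
  ∃ w : F, V.valuation w = 1 ∧ w • dl F ρ ∈ DA F N ρ

/-- The support hypothesis: the class of A(ρ) does not change if a polynomial smaller than A at all V in Z is added;
f is an anisotropic polynomial of degree D at the V in Z and at the V in Bad(P). -/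
structure Supp (F : Type u) {K : Type u} [Field F] [Field K] [Algebra F K] (q : ℕ) (N : Subgroup Kˣ) (ρ : K)
    (Z : Set (ValuationSubring F)) (D : ℕ) (f : F[X]) : Prop where
  stab : ∀ A B : F[X], A.natDegree < nn F ρ → B.natDegree < nn F ρ →
    (∀ V ∈ Z, ∃ i, ∀ j, V.valuation (B.coeff j) < V.valuation (A.coeff i)) →
    Sim N (aeval ρ (A + B)) (aeval ρ A)
  pos : 1 ≤ D
  anis : ∀ V : ValuationSubring F, V ∈ Z ∨ Bad q ρ V → ∀ s : F,
    V.valuation (f.eval s) = (max 1 (V.valuation s)) ^ D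

/-- (7.6) - (7.10) with supports. -/
def FinalZStatement : Prop := ∀ (F K : Type u) [Field F] [Field K] [Algebra F K] [FiniteDimensional F K]
  (l p e : ℕ) (N : Subgroup Kˣ) (ρ : K), Dat F l p e N ρ → ∀ (Z : Set (ValuationSubring F)) (D : ℕ) (f : F[X]),
  Supp F (l ^ e) N ρ Z D f →
  ∀ x : K, x ≠ 0 → (∀ V : ValuationSubring F, Bad (l ^ e) ρ V →
    (∀ j : F, (∀ V' ∈ Z, V'.valuation j < 1) → V.valuation j < 1) → x - 1 ∈ MB V ρ) →
  ∀ r : K, r = (x ^ nn F ρ / algebraMap F K (Algebra.norm F x)) ^ (nn F ρ * (l ^ 2 - 1)) →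
  (∀ c : F, r ≠ algebraMap F K c) →
  ∃ α : F, α ≠ 0 ∧ ∃ a ∈ DA F N ρ, tr F (a * (algebraMap F K α / (r - algebraMap F K α))) = 1

/-- Theorem (M_Z). -/
def ThmMZStatement : Prop := ∀ (F K : Type u) [Field F] [Field K] [Algebra F K] [FiniteDimensional F K]
  (l p e : ℕ) (N : Subgroup Kˣ) (ρ : K), Dat F l p e N ρ → ¬ p ∣ nn F ρ * (l ^ 2 - 1) →
  ∀ (Z : Set (ValuationSubring F)) (D : ℕ) (f : F[X]), Supp F (l ^ e) N ρ Z D f →
  ∀ x : K, x ≠ 0 → (∀ V : ValuationSubring F, Bad (l ^ e) ρ V →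
    (∀ j : F, (∀ V' ∈ Z, V'.valuation j < 1) → V.valuation j < 1) → x - 1 ∈ MB V ρ) → InN N x

end CL
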