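import Pool.Agent.Lib.MP_defcf3_al.CL.Iface

set_option autoImplicit false

open Polynomial

namespace CL

universe u

namespace H70

section

variable {F K : Type u} [Field F] [Field K] [Algebra F K]

theorem tr_smul (c : F) (x : K) : tr F (c • x) = c * tr F x := by
  unfold tr
  rw [map_smul, smul_eq_mul]

theorem tr_add (x y : K) : tr F (x + y) = tr F x + tr F y := by
  unfold tr
  rw [map_add]

variable {N : Subgroup Kˣ} {ρ : K}

theorem DA_smul {a : F} (ha : a ∈ AA F N ρ) {x : K} (hx : x ∈ DA F N ρ) : a • x ∈ DA F N ρ := by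
  intro c hc
  rw [smul_smul]
  exact hx _ ((AA F N ρ).mul_mem hc ha)

theorem DA_add (hadd : ∀ a ∈ Dz F N, ∀ b ∈ Dz F N, a + b ∈ Dz F N) {x y : K} (hx : x ∈ DA F N ρ)
    (hy : y ∈ DA F N ρ) : x + y ∈ DA F N ρ := by
  intro c hc
  rw [smul_add]
  exact hadd _ (hx c hc) _ (hy c hc)

theorem DA_zero (h0 : (0 : K) ∈ Dz F N) : (0 : K) ∈ DA F N ρ := by
  intro c _
  rw [smul_zero]
  exact h0

theorem DA_le {x : K} (hx : x ∈ DA F N ρ) : x ∈ Dz F N := by
  have := hx 1 (AA F N ρ).one_mem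
  rwa [one_smul] at this

theorem val_ne_zero {V : ValuationSubring F} {b : F} (h : V.valuation b = 1) : b ≠ 0 := by
  rintro rfl
  rw [map_zero] at h
  exact zero_ne_one h

theorem val_pow_one {V : ValuationSubring F} {b : F} {n : ℕ} (hn : n ≠ 0)
    (h : V.valuation (b ^ n) = 1) : V.valuation b = 1 := by
  rw [map_pow] at h
  exact (pow_eq_one_iff_of_nonneg zero_le hn).1 h

end

end H70

open H70

theorem local_proof (h1 : RingAStatement.{u}) (h2 : PlaceStatement.{u}) (h3 : CalcStatement.{u})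
    (h4 : P2Statement.{u}) (h5 : SpecialStatement.{u}) : LocalStatement.{u} := by
  intro F K _ _ _ _ l p e N ρ hd z hz
  obtain ⟨r1, -⟩ := h1 F K l p e N ρ hd
  obtain ⟨c0, cadd, -, -, -, -, -, -, -, -, -, -, -, -⟩ := h3 F K l p e N ρ hd
  obtain ⟨-, p2⟩ := h4 F K l p e N ρ hd
  obtain ⟨-, -, s3⟩ := h5 F K l p e N ρ hd
  have hq0 : l ^ e ≠ 0 := pow_ne_zero _ hd.lpr.ne_zero
  -- Q-th roots in F
  have hroot : ∀ k : ℕ, ∀ x : F, ∃ y : F, y ^ l ^ k = x := by
    intro k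
    induction k with
    | zero => intro x; exact ⟨x, by simp⟩
    | succ k ih =>
      intro x
      obtain ⟨y, hy⟩ := hd.perf x
      obtain ⟨w, hw⟩ := ih y
      exact ⟨w, by rw [pow_succ, pow_mul, hw, hy]⟩
  have hq : ∀ c : F, c • dl F ρ ∈ DA F N ρ ↔ c ^ l ^ e • dl F ρ ∈ DA F N ρ := by
    intro c
    constructor
    · intro h a ha
      obtain ⟨y, rfl⟩ := hroot e a
      have hy : y ∈ AA F N ρ := (r1 y).2 ha
      have h6 := h y hy
      rw [smul_smul] at h6 ⊢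
      have h7 := (s3 (y * c)).2.1 h6
      rwa [mul_pow] at h7
    · intro h a ha
      have h6 := h _ ((r1 a).1 ha)
      rw [smul_smul] at h6 ⊢
      rw [← mul_pow] at h6
      exact (s3 (a * c)).2.2 h6
  obtain ⟨V, hAV, hI, hfr⟩ := h2 F K l p e N ρ hd
    {t | t ∈ AA F N ρ ∧ ∃ x ∈ DA F N ρ, tr F (x * z) = t}
    ⟨(AA F N ρ).zero_mem, 0, DA_zero c0, by rw [zero_mul]; unfold tr; rw [map_zero]⟩
    (fun t ht => ht.1)
    (by
      rintro a ⟨ha, x, hx, hxa⟩ b ⟨hb, y, hy, hyb⟩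
      refine ⟨(AA F N ρ).add_mem ha hb, x + y, DA_add cadd hx hy, ?_⟩
      rw [add_mul, tr_add, hxa, hyb])
    (by
      rintro a ha b ⟨hb, y, hy, hyb⟩
      refine ⟨(AA F N ρ).mul_mem ha hb, a • y, DA_smul ha hy, ?_⟩
      rw [smul_mul_assoc, tr_smul, hyb])
    (by
      rintro ⟨_, x, hx, hx1⟩
      exact hz x hx hx1)
  refine ⟨V, hAV, ?_, ?_, ?_, ?_, ?_, ?_, ?_, ?_⟩
  · exact ⟨1, (AA F N ρ).one_mem, map_one _, by rw [smul_zero]; exact DA_zero c0⟩
  · rintro x ⟨a, ha, va, hx⟩ y ⟨b, hb, vb, hy⟩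
    refine ⟨a * b, (AA F N ρ).mul_mem ha hb, by rw [map_mul, va, vb, one_mul], ?_⟩
    have : (a * b) • (x + y) = b • (a • x) + a • (b • y) := by
      rw [smul_add, smul_smul, smul_smul, mul_comm b a]
    rw [this]
    exact DA_add cadd (DA_smul hb hx) (DA_smul ha hy)
  · rintro c hc x ⟨b', hb', vb', hx⟩
    obtain ⟨a, ha, b, hb, vb, rfl⟩ := hfr c hc
    refine ⟨b * b', (AA F N ρ).mul_mem hb hb', by rw [map_mul, vb, vb', one_mul], ?_⟩
    have hb0 := val_ne_zero vb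
    have : (b * b') • ((a / b) • x) = a • (b' • x) := by
      rw [smul_smul, smul_smul]
      congr 1
      field_simp
    rw [this]
    exact DA_smul ha hx
  · rintro x ⟨b, hb, vb, hx⟩
    have h6 := (DA_le hx).2
    rw [tr_smul] at h6
    exact (mul_eq_zero.1 h6).resolve_left (val_ne_zero vb)
  · rintro x ⟨a, ha, va, hx⟩ y ⟨b, hb, vb, hy⟩ c hc htc
    refine ⟨a * b, (AA F N ρ).mul_mem ha hb, by rw [map_mul, va, vb, one_mul], ?_⟩
    intro s hs
    have h6 := p2 (s • (a • x)) (hx s hs).1 (b • y) (DA_le hy).1 c hc htc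
    have h7 : tr F (s • (a • x) * (b • y) / c) • c = s • ((a * b) • (tr F (x * y / c) • c)) := by
      have h8 : s • (a • x) * (b • y) / c = (s * (a * b)) • (x * y / c) := by
        rw [smul_smul, smul_mul_assoc, mul_smul_comm, smul_smul, div_eq_mul_inv, smul_mul_assoc,
          ← div_eq_mul_inv, mul_assoc]
      rw [h8, tr_smul, smul_smul, smul_smul]
    rw [← h7]
    exact h6
  · intro c
    constructor
    · rintro ⟨b, hb, vb, h⟩
      refine ⟨b ^ l ^ e, (r1 b).1 hb, by rw [map_pow, vb, one_pow], ?_⟩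
      rw [smul_smul, ← mul_pow]
      rw [smul_smul] at h
      exact (hq _).1 h
    · rintro ⟨b, hb, vb, h⟩
      obtain ⟨y, rfl⟩ := hroot e b
      refine ⟨y, (r1 y).2 hb, val_pow_one hq0 vb, ?_⟩
      rw [smul_smul, ← mul_pow] at h
      rw [smul_smul]
      exact (hq _).2 h
  · rintro x ⟨b, hb, vb, hx⟩ h
    have h6 : tr F ((b • x) * z) = b := by
      rw [smul_mul_assoc, tr_smul, h, mul_one]
    have h7 := hI b ⟨hb, b • x, hx, h6⟩
    rw [vb] at h7
    exact lt_irrefl _ h7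
  · intro x hx
    exact ⟨1, (AA F N ρ).one_mem, map_one _, by rw [one_smul]; exact hx⟩

end CL
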