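import Pool.Agent.Lib.MP_defcf3_al.CL.Twist

/-!
Project CL (MP_defcf3_al), part (B), row NK (4324 section 7): the local core of the norm argument.
-/

open Polynomial

namespace CL

universe u

/-- A root c of P with c^(q^s) = c, s > 0: then deg P <= s. -/
theorem nk_period {κ L : Type u} [Field κ] [Field L] [Algebra κ L] {l e : ℕ} (hl : l.Prime) [CharP κ l] (he : 1 ≤ e)
    (hsp : (X ^ l ^ e - X : κ[X]).Splits) (P : κ[X]) (hP : Irreducible P) (c : L) (hc : aeval c P = 0) {s : ℕ}
    (hs : 1 ≤ s) (hcs : c ^ (l ^ e) ^ s = c) : P.natDegree ≤ s := by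
  classical
  have : Fact l.Prime := ⟨hl⟩
  have : CharP L l := charP_of_injective_algebraMap (algebraMap κ L).injective l
  have hq1 : 1 < l ^ e := Nat.one_lt_pow (by omega) hl.one_lt
  set G : L[X] := ∏ i ∈ Finset.range s, (X - C (c ^ (l ^ e) ^ i)) with hG
  have hGm : G.Monic := monic_prod_of_monic _ _ fun i _ => monic_X_sub_C _
  have hGd : G.natDegree = s := by
    rw [hG, natDegree_prod_of_monic _ _ fun i _ => monic_X_sub_C _]
    simp only [natDegree_X_sub_C, Finset.sum_const, Finset.card_range, smul_eq_mul, mul_one]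
  have hGc : eval c G = 0 := by
    rw [hG, eval_prod]
    apply Finset.prod_eq_zero (Finset.mem_range.2 (show 0 < s by omega))
    simp
  have hGF : G.map (iterateFrobenius L l e) = G := by
    rw [hG, Polynomial.map_prod]
    have h1 : ∀ i, (X - C (c ^ (l ^ e) ^ i) : L[X]).map (iterateFrobenius L l e) = X - C (c ^ (l ^ e) ^ (i + 1)) := by
      intro i
      rw [Polynomial.map_sub, map_X, map_C, iterateFrobenius_def, ← pow_mul, ← pow_succ]
    rw [Finset.prod_congr rfl fun i _ => h1 i]
    obtain ⟨t, rfl⟩ : ∃ t, s = t + 1 := ⟨s - 1, by omega⟩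
    rw [Finset.prod_range_succ, Finset.prod_range_succ' (fun i => (X - C (c ^ (l ^ e) ^ i) : L[X])), hcs, pow_zero,
      pow_one]
  have hsub : (X ^ l ^ e - X : κ[X]) ≠ 0 := FiniteField.X_pow_card_sub_X_ne_zero κ hq1
  have hlift : ∀ i, G.coeff i ∈ (algebraMap κ L).range := by
    intro i
    apply hsp.mem_range_of_isRoot hsub
    rw [IsRoot, Polynomial.map_sub, Polynomial.map_pow, map_X, eval_sub, eval_pow, eval_X, sub_eq_zero]
    have := congrArg (fun H => H.coeff i) hGF
    simp only [coeff_map] at this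
    rw [iterateFrobenius_def] at this
    exact this
  have hGl : G ∈ lifts (algebraMap κ L) := by
    rw [lifts_iff_coeff_lifts]
    intro i
    obtain ⟨a, ha⟩ := hlift i
    exact ⟨a, ha⟩
  obtain ⟨G0, hG0, hG0d, hG0m⟩ := lifts_and_natDegree_eq_and_monic hGl hGm
  have hdvd : P ∣ G0 := by
    have h2 : aeval c G0 = 0 := by
      rw [← eval_map_algebraMap, hG0, hGc]
    have h3 : minpoly κ c ∣ G0 := minpoly.dvd κ c h2
    have h4 : Associated (minpoly κ c) P := by
      have h5 : minpoly κ c ∣ P := minpoly.dvd κ c hc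
      have h6 : IsIntegral κ c := by
        rw [← isAlgebraic_iff_isIntegral]
        exact ⟨P, hP.ne_zero, hc⟩
      exact (minpoly.irreducible h6).associated_of_dvd hP h5
    exact h4.symm.dvd.trans h3
  have := natDegree_le_of_dvd hdvd hG0m.ne_zero
  rw [hG0d, hGd] at this
  exact this

/-- The local core of the norm argument. -/
theorem nk_res (κ : Type u) [Field κ] (l e r : ℕ) (hl : l.Prime) [CharP κ l] (he : 1 ≤ e)
    (hsp : (X ^ l ^ e - X : κ[X]).Splits) (P : κ[X]) (hP : Irreducible P) (hr : P.natDegree = r)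
    (hco : ∀ i, P.coeff i ^ l ^ e = P.coeff i) (A : κ[X]) (hA : ¬ P ∣ A) :
    ∃ c : κ, c ≠ 0 ∧ P ∣ (∏ j ∈ Finset.range r, (tw ((l ^ e) ^ j) A) ^ (l ^ e) ^ (r - j)) - C c := by
  classical
  have : Fact l.Prime := ⟨hl⟩
  have : Fact (Irreducible P) := ⟨hP⟩
  set L := AdjoinRoot P with hL
  set c : L := AdjoinRoot.root P with hc
  have : CharP L l := charP_of_injective_algebraMap (algebraMap κ L).injective l
  have : FiniteDimensional κ L := (AdjoinRoot.powerBasis hP.ne_zero).finite
  have hfr : Module.finrank κ L = r := by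
    rw [(AdjoinRoot.powerBasis hP.ne_zero).finrank, AdjoinRoot.powerBasis_dim, hr]
  have hq1 : 1 < l ^ e := Nat.one_lt_pow (by omega) hl.one_lt
  have hr0 : 1 ≤ r := by
    rw [← hr]
    exact Nat.succ_le_iff.2 hP.natDegree_pos
  have haec : aeval c P = 0 := by
    rw [hc, AdjoinRoot.aeval_eq, AdjoinRoot.mk_self]
  -- twisting P
  have hPF : P.map (iterateFrobenius κ l e) = P := by
    ext i
    rw [coeff_map, iterateFrobenius_def, hco i]
  have htwP : tw (l ^ e) P = P := by rw [Tws.tw_map, hPF]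
  have hroots : ∀ x : L, aeval x P = 0 → aeval (x ^ l ^ e) P = 0 := by
    intro x hx
    have := Tws.aeval_tw l e P x
    rw [htwP, hx, zero_pow (by omega)] at this
    exact this
  have hcroot : ∀ i : ℕ, aeval (c ^ (l ^ e) ^ i) P = 0 := by
    intro i
    induction i with
    | zero => rw [pow_zero, pow_one]; exact haec
    | succ i ih =>
      rw [pow_succ, pow_mul]
      exact hroots _ ih
  have hperiod : ∀ s, 1 ≤ s → c ^ (l ^ e) ^ s = c → r ≤ s := by
    intro s hs h
    rw [← hr]
    exact nk_period hl he hsp P hP c haec hs h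
  -- injectivity of Frobenius powers
  have hFinj : ∀ i : ℕ, Function.Injective fun x : L => x ^ (l ^ e) ^ i := by
    intro i x y hxy
    have h1 : (l ^ e) ^ i = l ^ (e * i) := (pow_mul l e i).symm
    simp only [h1] at hxy
    rw [← iterateFrobenius_def, ← iterateFrobenius_def] at hxy
    exact (iterateFrobenius L l (e * i)).injective hxy
  have hdiff : ∀ i j : ℕ, i < j → c ^ (l ^ e) ^ i = c ^ (l ^ e) ^ j → c ^ (l ^ e) ^ (j - i) = c := by
    intro i j hij h
    have h2 : (l ^ e) ^ j = (l ^ e) ^ (j - i) * (l ^ e) ^ i := by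
      rw [← pow_add]
      congr 1
      omega
    rw [h2, pow_mul] at h
    exact (hFinj i h).symm
  -- pigeonhole: c^(q^r) = c
  have hcr : c ^ (l ^ e) ^ r = c := by
    have hcard : ((P.map (algebraMap κ L)).roots.toFinset).card < (Finset.range (r + 1)).card := by
      rw [Finset.card_range]
      refine lt_of_le_of_lt ((Multiset.toFinset_card_le _).trans (card_roots' _)) ?_
      rw [natDegree_map, hr]
      omega
    have hmaps : ∀ i ∈ Finset.range (r + 1), c ^ (l ^ e) ^ i ∈ (P.map (algebraMap κ L)).roots.toFinset := by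
      intro i _
      rw [Multiset.mem_toFinset, mem_roots (map_ne_zero hP.ne_zero), IsRoot, eval_map_algebraMap]
      exact hcroot i
    obtain ⟨i, hi, j, hj, hij, heq⟩ := Finset.exists_ne_map_eq_of_card_lt_of_maps_to hcard hmaps
    rw [Finset.mem_range] at hi hj
    rcases lt_or_gt_of_ne hij with h | h
    · have h3 := hdiff i j h heq
      have h4 := hperiod _ (by omega) h3
      have h5 : j - i = r := by omega
      rwa [h5] at h3
    · have h3 := hdiff j i h heq.symm
      have h4 := hperiod _ (by omega) h3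
      have h5 : i - j = r := by omega
      rwa [h5] at h3
  -- the automorphism
  let σ0 : L →ₐ[κ] L := AdjoinRoot.liftAlgHom P (Algebra.ofId κ L) (c ^ l ^ e) (by
    have := hcroot 1
    rw [pow_one] at this
    exact this)
  have hσ0 : σ0 c = c ^ l ^ e := AdjoinRoot.liftAlgHom_root _ _ _ _
  have hbij : Function.Bijective σ0 := σ0.bijective
  let σ : L ≃ₐ[κ] L := AlgEquiv.ofBijective σ0 hbij
  have hσ : σ c = c ^ l ^ e := hσ0
  have hσi : ∀ i : ℕ, (σ ^ i) c = c ^ (l ^ e) ^ i := by
    intro i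
    induction i with
    | zero => simp
    | succ i ih =>
      rw [pow_succ', AlgEquiv.mul_apply, ih, map_pow, hσ, ← pow_mul, ← pow_succ']
  have hinj : Function.Injective fun i : Fin r => σ ^ (i : ℕ) := by
    intro i j hij
    have h1 : c ^ (l ^ e) ^ (i : ℕ) = c ^ (l ^ e) ^ (j : ℕ) := by
      rw [← hσi, ← hσi]
      exact congrArg (fun τ : L ≃ₐ[κ] L => τ c) hij
    by_contra hne
    have hne' : (i : ℕ) ≠ j := fun h => hne (Fin.ext h)
    rcases lt_or_gt_of_ne hne' with h | h
    · have h3 := hdiff i j h h1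
      have h4 := hperiod _ (by omega) h3
      have := j.2
      omega
    · have h3 := hdiff j i h h1.symm
      have h4 := hperiod _ (by omega) h3
      have := i.2
      omega
  have hcardle : Fintype.card (L ≃ₐ[κ] L) ≤ r := by
    rw [← hfr]
    exact AlgEquiv.card_le
  have hcard : Fintype.card (Fin r) = Fintype.card (L ≃ₐ[κ] L) := by
    apply le_antisymm
    · exact Fintype.card_le_of_injective _ hinj
    · rw [Fintype.card_fin]
      exact hcardle
  have hbij2 : Function.Bijective fun i : Fin r => σ ^ (i : ℕ) :=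
    (Fintype.bijective_iff_injective_and_card _).2 ⟨hinj, hcard⟩
  have : IsGalois κ L := IsGalois.of_card_aut_eq_finrank κ L (by
    rw [Nat.card_eq_fintype_card, ← hcard, Fintype.card_fin, hfr])
  -- the norm
  set B : κ[X] := tw ((l ^ e) ^ r) A with hB
  have hBc : aeval c B = (aeval c A) ^ (l ^ e) ^ r := by
    have h1 : (l ^ e) ^ r = l ^ (e * r) := (pow_mul l e r).symm
    rw [hB, h1]
    rw [h1] at hcr
    nth_rw 1 [← hcr]
    exact Tws.aeval_tw l (e * r) A c
  have hAc : aeval c A ≠ 0 := by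
    intro h
    rw [hc, AdjoinRoot.aeval_eq, AdjoinRoot.mk_eq_zero] at h
    exact hA h
  have hBc0 : aeval c B ≠ 0 := by
    rw [hBc]
    exact pow_ne_zero _ hAc
  refine ⟨Algebra.norm κ (aeval c B), Algebra.norm_ne_zero_iff.2 hBc0, ?_⟩
  rw [← AdjoinRoot.mk_eq_zero, ← AdjoinRoot.aeval_eq, ← hc, map_sub, aeval_C, sub_eq_zero, map_prod]
  have hnorm : algebraMap κ L (Algebra.norm κ (aeval c B)) = ∏ i : Fin r, aeval (c ^ (l ^ e) ^ (i : ℕ)) B := by
    rw [Algebra.norm_eq_prod_automorphisms, ← Function.Bijective.prod_comp hbij2]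
    apply Finset.prod_congr rfl
    intro i _
    rw [← hσi]
    exact (aeval_algHom_apply ((σ ^ (i : ℕ) : L ≃ₐ[κ] L) : L →ₐ[κ] L) c B).symm
  have hterm : ∀ j ∈ Finset.range r, aeval c (tw ((l ^ e) ^ j) A ^ (l ^ e) ^ (r - j)) =
      aeval (c ^ (l ^ e) ^ (r - j)) B := by
    intro j hj
    rw [Finset.mem_range] at hj
    have h1 : ∀ i, (l ^ e) ^ i = l ^ (e * i) := fun i => (pow_mul l e i).symm
    have h2 : B = tw (l ^ (e * (r - j))) (tw ((l ^ e) ^ j) A) := by
      ext i
      have h5 : (l ^ e) ^ r = (l ^ e) ^ j * l ^ (e * (r - j)) := by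
        rw [← h1 (r - j), ← pow_add]
        congr 1
        omega
      rw [hB, Tws.tw_coeff _ _ (pow_ne_zero _ (by omega)), Tws.tw_coeff _ _ (pow_ne_zero _ hl.ne_zero),
        Tws.tw_coeff _ _ (pow_ne_zero _ (by omega)), h5, pow_mul (A.coeff i)]
    rw [h2, map_pow, h1 (r - j), Tws.aeval_tw]
  rw [Finset.prod_congr rfl hterm, hnorm]
  have h3 : ∏ i : Fin r, aeval (c ^ (l ^ e) ^ (i : ℕ)) B = ∏ i ∈ Finset.range r, aeval (c ^ (l ^ e) ^ i) B :=
    Fin.prod_univ_eq_prod_range (fun i => aeval (c ^ (l ^ e) ^ i) B) r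
  rw [h3]
  obtain ⟨t, ht⟩ : ∃ t, r = t + 1 := ⟨r - 1, by omega⟩
  have h4 : ∏ j ∈ Finset.range r, aeval (c ^ (l ^ e) ^ (r - j)) B = ∏ j ∈ Finset.range r, aeval (c ^ (l ^ e) ^ (j + 1)) B := by
    rw [← Finset.prod_range_reflect]
    apply Finset.prod_congr rfl
    intro j hj
    rw [Finset.mem_range] at hj
    have h6 : r - (r - 1 - j) = j + 1 := by omega
    rw [h6]
  rw [h4, ht, Finset.prod_range_succ, Finset.prod_range_succ' (fun i => aeval (c ^ (l ^ e) ^ i) B), ← ht, hcr, pow_zero,
    pow_one]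

end CL
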