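import Pool.Agent.Lib.MP_defcf3_al.CL.NKres
import Pool.Agent.Lib.MP_defcf3_al.CL.IfaceB

/-!
Project CL (MP_defcf3_al), part (B), row Nk: the norm argument, 4324 section 7.
-/

open Polynomial

namespace CL

universe u

namespace Nk

section G

variable {F : Type u} [Field F] {P : F[X]} {T : Type u} [AddCommGroup T] {g : F[X] → T}

theorem mul_mod (hP : P.Monic) (U W : F[X]) : (U * W) %ₘ P = ((U %ₘ P) * (W %ₘ P)) %ₘ P := by
  have hU := modByMonic_add_div U P
  have hW := modByMonic_add_div W P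
  apply modByMonic_eq_of_dvd_sub hP
  refine ⟨(U %ₘ P) * (W /ₘ P) + (U /ₘ P) * W, ?_⟩
  calc U * W - (U %ₘ P) * (W %ₘ P)
      = (U %ₘ P + P * (U /ₘ P)) * W - (U %ₘ P) * (W %ₘ P) := by rw [hU]
    _ = (U %ₘ P) * (W - W %ₘ P) + P * (U /ₘ P) * W := by ring
    _ = (U %ₘ P) * (P * (W /ₘ P)) + P * (U /ₘ P) * W := by
        congr 2
        linear_combination -hW
    _ = P * ((U %ₘ P) * (W /ₘ P) + (U /ₘ P) * W) := by ring

theorem mod_ne (hP : P.Monic) {U : F[X]} (hU : ¬ P ∣ U) : U %ₘ P ≠ 0 := by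
  intro h
  exact hU ((modByMonic_eq_zero_iff_dvd hP).1 h)

variable (hP : P.Monic) (hi : Irreducible P)
  (hmul : ∀ A B : F[X], A ≠ 0 → A.natDegree < P.natDegree → B ≠ 0 → B.natDegree < P.natDegree →
    g ((A * B) %ₘ P) = g A + g B)
include hP hi hmul

theorem G_mul {U W : F[X]} (hU : ¬ P ∣ U) (hW : ¬ P ∣ W) : g ((U * W) %ₘ P) = g (U %ₘ P) + g (W %ₘ P) := by
  have h1 : P ≠ 1 := fun h => hi.not_isUnit (h ▸ isUnit_one)
  rw [mul_mod hP]
  exact hmul _ _ (mod_ne hP hU) (natDegree_modByMonic_lt _ hP h1) (mod_ne hP hW) (natDegree_modByMonic_lt _ hP h1)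

theorem G_one : g (1 %ₘ P) = 0 := by
  have h1 : ¬ P ∣ 1 := fun h => hi.not_isUnit (isUnit_of_dvd_one h)
  have := G_mul hP hi hmul h1 h1
  rw [mul_one] at this
  exact left_eq_add.1 this

theorem G_pow {U : F[X]} (hU : ¬ P ∣ U) (m : ℕ) : g ((U ^ m) %ₘ P) = m • g (U %ₘ P) := by
  induction m with
  | zero => rw [pow_zero, zero_smul, G_one hP hi hmul]
  | succ m ih =>
    have h1 : ¬ P ∣ U ^ m := fun h => hU (hi.prime.dvd_of_dvd_pow h)
    rw [pow_succ, G_mul hP hi hmul h1 hU, ih, succ_nsmul]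

theorem G_prod {U : ℕ → F[X]} (hU : ∀ j, ¬ P ∣ U j) (m : ℕ) :
    (¬ P ∣ ∏ j ∈ Finset.range m, U j) ∧
    g ((∏ j ∈ Finset.range m, U j) %ₘ P) = ∑ j ∈ Finset.range m, g (U j %ₘ P) := by
  induction m with
  | zero =>
    refine ⟨?_, ?_⟩
    · rw [Finset.prod_range_zero]
      exact fun h => hi.not_isUnit (isUnit_of_dvd_one h)
    · rw [Finset.prod_range_zero, Finset.sum_range_zero, G_one hP hi hmul]
  | succ m ih =>
    rw [Finset.prod_range_succ, Finset.sum_range_succ]
    refine ⟨?_, ?_⟩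
    · intro h
      rcases hi.prime.dvd_or_dvd h with h | h
      · exact ih.1 h
      · exact hU m h
    · rw [G_mul hP hi hmul ih.1 (hU m), ih.2]

end G

section loc

variable {F : Type u} [Field F] (V : ValuationSubring F)

/-- Frobenius twist commutes with ring maps. -/
theorem map_tw {R S : Type u} [CommRing R] [CommRing S] (l m : ℕ) [Fact l.Prime] [CharP R l] [CharP S l]
    (φ : R →+* S) (A : R[X]) :
    (A.map (iterateFrobenius R l m)).map φ = (A.map φ).map (iterateFrobenius S l m) := by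
  ext i
  simp only [coeff_map, iterateFrobenius_def, map_pow]

/-- The product at an inert place. -/
theorem local_triv {l s r : ℕ} (hl : l.Prime) (hch : CharP F l) (hs : 1 ≤ s) {P : F[X]} (hPm : P.Monic)
    (hPr : P.natDegree = r) (hin : Inert V P) (hco : CoM V (tw (l ^ s) P - P)) (hfq : FQ (l ^ s) V) (A : F[X])
    (hA : CoV V A) (hA1 : ¬ CoM V A) (hAr : A.natDegree < r) :
    ∃ c : F, V.valuation c = 1 ∧
      CoM V ((∏ j ∈ Finset.range r, (tw ((l ^ s) ^ j) A) ^ (l ^ s) ^ (r - j)) %ₘ P - C c) := by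
  classical
  have : Fact l.Prime := ⟨hl⟩
  obtain ⟨P', hP', hirr⟩ := hin
  set κ := IsLocalRing.ResidueField V with hκ
  have hinj : Function.Injective (algebraMap V F) := FaithfulSMul.algebraMap_injective V F
  have hchV : CharP V l := (algebraMap V F).charP hinj l
  have hchκ : CharP κ l := by
    rw [CharP.charP_iff_prime_eq_zero hl]
    have : ((l : V) : V) = 0 := CharP.cast_eq_zero V l
    have h2 := congrArg (IsLocalRing.residue V) this
    rw [map_natCast, map_zero] at h2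
    exact h2
  have hP'm : P'.Monic := by
    rw [hinj.monic_map_iff, hP']
    exact hPm
  have hq1 : 1 < l ^ s := Nat.one_lt_pow (by omega) hl.one_lt
  have hval : ∀ x : V, V.valuation (x : F) < 1 ↔ IsLocalRing.residue V x = 0 := by
    intro x
    rw [← ValuationSubring.valuation_lt_one_iff, IsLocalRing.residue_eq_zero_iff]
  -- the residue polynomial
  set Pk : κ[X] := P'.map (IsLocalRing.residue V) with hPk
  have hPkr : Pk.natDegree = r := by
    rw [hPk, hP'm.natDegree_map, ← hPr, ← hP', hP'm.natDegree_map]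
  have hPkm : Pk.Monic := hP'm.map _
  have hPkco : ∀ i, Pk.coeff i ^ l ^ s = Pk.coeff i := by
    intro i
    have h1 := hco i
    rw [coeff_sub, Tws.tw_coeff _ _ (by omega)] at h1
    have h2 : P.coeff i = ((P'.coeff i : V) : F) := by
      rw [← hP', coeff_map]
      rfl
    rw [h2] at h1
    have h3 : IsLocalRing.residue V (P'.coeff i ^ l ^ s - P'.coeff i) = 0 := by
      rw [← hval]
      push_cast
      exact h1
    rw [map_sub, map_pow, sub_eq_zero] at h3
    rw [hPk, coeff_map]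
    exact h3
  have hsplit : (X ^ l ^ s - X : κ[X]).Splits := by
    rw [splits_iff_card_roots, FiniteField.X_pow_card_sub_X_natDegree_eq κ hq1]
    have hne : (X ^ l ^ s - X : κ[X]) ≠ 0 := FiniteField.X_pow_card_sub_X_ne_zero κ hq1
    apply le_antisymm
    · have := card_roots' (X ^ l ^ s - X : κ[X])
      rwa [FiniteField.X_pow_card_sub_X_natDegree_eq κ hq1] at this
    · have h1 : Nat.card {x : κ // x ^ l ^ s = x} = (X ^ l ^ s - X : κ[X]).roots.toFinset.card := by
        have e1 : ∀ x : κ, x ^ l ^ s = x ↔ x ∈ (X ^ l ^ s - X : κ[X]).roots.toFinset := by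
          intro x
          rw [Multiset.mem_toFinset, mem_roots hne, IsRoot, eval_sub, eval_pow, eval_X, sub_eq_zero]
        rw [Nat.card_congr (Equiv.subtypeEquivRight e1), Nat.card_eq_fintype_card, Fintype.card_coe]
      calc l ^ s = Nat.card {x : κ // x ^ l ^ s = x} := hfq.symm
        _ = (X ^ l ^ s - X : κ[X]).roots.toFinset.card := h1
        _ ≤ _ := Multiset.toFinset_card_le _
  -- lift A
  obtain ⟨A', hA'⟩ : ∃ A' : Polynomial V, A'.map (algebraMap V F) = A := by
    have : A ∈ lifts (algebraMap V F) := by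
      rw [lifts_iff_coeff_lifts]
      intro i
      exact ⟨⟨A.coeff i, hA i⟩, rfl⟩
    obtain ⟨A', h⟩ := this
    exact ⟨A', h⟩
  set Ak : κ[X] := A'.map (IsLocalRing.residue V) with hAk
  have hAk0 : Ak ≠ 0 := by
    intro h
    apply hA1
    intro i
    have h1 : A.coeff i = ((A'.coeff i : V) : F) := by
      rw [← hA', coeff_map]
      rfl
    rw [h1, hval]
    have := congrArg (fun B => B.coeff i) h
    rw [hAk] at this
    rw [coeff_map, coeff_zero] at this
    exact this
  have hAkr : Ak.natDegree < r := by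
    refine lt_of_le_of_lt (natDegree_map_le) ?_
    rw [← natDegree_map_eq_of_injective hinj, hA']
    exact hAr
  have hAkd : ¬ Pk ∣ Ak := by
    intro h
    have := natDegree_le_of_dvd h hAk0
    omega
  obtain ⟨c, hc0, hc⟩ := nk_res κ l s r hl hs hsplit Pk hirr hPkr hPkco Ak hAkd
  obtain ⟨c', rfl⟩ := IsLocalRing.residue_surjective c
  -- the product over V
  set Y' : Polynomial V := ∏ j ∈ Finset.range r, (A'.map (iterateFrobenius V l (s * j))) ^ (l ^ s) ^ (r - j) with hY'
  have hYF : Y'.map (algebraMap V F) = ∏ j ∈ Finset.range r, (tw ((l ^ s) ^ j) A) ^ (l ^ s) ^ (r - j) := by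
    rw [hY', Polynomial.map_prod]
    apply Finset.prod_congr rfl
    intro j _
    rw [Polynomial.map_pow, map_tw, hA', ← pow_mul l s j, Tws.tw_map]
  have hYk : Y'.map (IsLocalRing.residue V) = ∏ j ∈ Finset.range r, (tw ((l ^ s) ^ j) Ak) ^ (l ^ s) ^ (r - j) := by
    rw [hY', Polynomial.map_prod]
    apply Finset.prod_congr rfl
    intro j _
    rw [Polynomial.map_pow, map_tw, ← hAk, ← pow_mul l s j, Tws.tw_map]
  refine ⟨c', ?_, ?_⟩
  · have h1 : V.valuation (c' : F) ≤ 1 := (V.valuation_le_one_iff _).2 c'.2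
    refine le_antisymm h1 (not_lt.1 fun h => hc0 ((hval c').1 h))
  · have h1 : ((Y' %ₘ P') - C c').map (algebraMap V F) =
        (∏ j ∈ Finset.range r, (tw ((l ^ s) ^ j) A) ^ (l ^ s) ^ (r - j)) %ₘ P - C (c' : F) := by
      rw [Polynomial.map_sub, map_modByMonic _ hP'm, hYF, hP', map_C]
      rfl
    have h2 : ((Y' %ₘ P') - C c').map (IsLocalRing.residue V) = 0 := by
      rw [Polynomial.map_sub, map_modByMonic _ hP'm, hYk, ← hPk, map_C, sub_eq_zero]
      have h3 : (C (IsLocalRing.residue V c') : κ[X]) %ₘ Pk = C (IsLocalRing.residue V c') := by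
        rw [modByMonic_eq_self_iff hPkm]
        refine lt_of_le_of_lt degree_C_le ?_
        rw [degree_eq_natDegree hPkm.ne_zero, hPkr]
        have : 0 < r := by
          rw [← hPkr]
          exact hirr.natDegree_pos
        exact_mod_cast this
      rw [← h3]
      exact modByMonic_eq_of_dvd_sub hPkm hc
    intro i
    rw [← h1, coeff_map]
    have h4 := congrArg (fun B => B.coeff i) h2
    simp only [coeff_map, coeff_zero] at h4
    exact (hval _).2 h4

end loc

end Nk

theorem nk_proof (hPn : PnStatement.{u}) : NkStatement.{u} := by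
  intro F _ l p r s ZZ P T _ g hl hp hlp hch hperf hr hrp htors hPm hPr hi hs hZ hmul htriv hwt A hA hAr
  have : Fact l.Prime := ⟨hl⟩
  have hq1 : 1 < l ^ s := Nat.one_lt_pow (by omega) hl.one_lt
  subst hPr
  -- tw facts
  have htw : ∀ (j : ℕ) (B : F[X]), B ≠ 0 → tw ((l ^ s) ^ j) B ≠ 0 ∧ (tw ((l ^ s) ^ j) B).natDegree = B.natDegree := by
    intro j B hB
    rw [← pow_mul, Tws.tw_map]
    refine ⟨(Polynomial.map_ne_zero_iff (iterateFrobenius F l (s * j)).injective).2 hB, ?_⟩
    exact natDegree_map_eq_of_injective (iterateFrobenius F l (s * j)).injective B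
  have htw0 : ∀ B : F[X], tw 1 B = B := by
    intro B
    ext i
    rw [Tws.tw_coeff _ _ one_ne_zero, pow_one]
  have hg : ∀ j : ℕ, g (tw ((l ^ s) ^ j) A) = ((l ^ s) ^ j) • g A := by
    intro j
    induction j with
    | zero => rw [pow_zero, htw0, one_smul]
    | succ j ih =>
      have h1 : tw ((l ^ s) ^ (j + 1)) A = tw (l ^ s) (tw ((l ^ s) ^ j) A) := by
        ext i
        rw [Tws.tw_coeff _ _ (pow_ne_zero _ (by omega)), Tws.tw_coeff _ _ (by omega),
          Tws.tw_coeff _ _ (pow_ne_zero _ (by omega)), pow_succ, pow_mul]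
      rw [h1, hwt _ (htw j A hA).1 (by rw [(htw j A hA).2]; exact hAr), ih, smul_smul, ← pow_succ']
  have hnd : ∀ B : F[X], B ≠ 0 → B.natDegree < P.natDegree → ¬ P ∣ B := by
    intro B hB hBr h
    have := natDegree_le_of_dvd h hB
    omega
  have hself : ∀ B : F[X], B.natDegree < P.natDegree → B %ₘ P = B := by
    intro B hB
    rw [modByMonic_eq_self_iff hPm]
    exact degree_lt_degree hB
  have hUd : ∀ j, ¬ P ∣ (tw ((l ^ s) ^ j) A) ^ (l ^ s) ^ (P.natDegree - j) := fun j h =>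
    hnd _ (htw j A hA).1 (by rw [(htw j A hA).2]; exact hAr) (hi.prime.dvd_of_dvd_pow h)
  obtain ⟨hnd2, hsum⟩ := Nk.G_prod hPm hi hmul hUd P.natDegree
  have hsum2 : g ((∏ j ∈ Finset.range P.natDegree, (tw ((l ^ s) ^ j) A) ^ (l ^ s) ^ (P.natDegree - j)) %ₘ P) =
      (P.natDegree * (l ^ s) ^ P.natDegree) • g A := by
    rw [hsum]
    have : ∀ j ∈ Finset.range P.natDegree, g ((tw ((l ^ s) ^ j) A) ^ (l ^ s) ^ (P.natDegree - j) %ₘ P) =
        ((l ^ s) ^ P.natDegree) • g A := by
      intro j hj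
      rw [Finset.mem_range] at hj
      rw [Nk.G_pow hPm hi hmul (hnd _ (htw j A hA).1 (by rw [(htw j A hA).2]; exact hAr)),
        hself _ (by rw [(htw j A hA).2]; exact hAr), hg, smul_smul, ← pow_add]
      congr 2
      omega
    rw [Finset.sum_congr rfl this, Finset.sum_const, Finset.card_range, smul_smul]
  -- the product is trivial
  have hP1 : P ≠ 1 := fun h => hi.not_isUnit (h ▸ isUnit_one)
  have hzero : g ((∏ j ∈ Finset.range P.natDegree, (tw ((l ^ s) ^ j) A) ^ (l ^ s) ^ (P.natDegree - j)) %ₘ P) = 0 := by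
    apply htriv _ (Nk.mod_ne hPm hnd2) (natDegree_modByMonic_lt _ hPm hP1)
    intro V hV
    obtain ⟨hin, hco, hfq⟩ := hZ V hV
    obtain ⟨p1, p2, p3, p4, p5, p6, p7, p8, p9, p10, p11⟩ := hPn F V
    obtain ⟨i, hi1⟩ := p3 A hA
    set lam := A.coeff i with hlam
    have hlam0 : lam ≠ 0 := by
      intro h
      rw [h, map_zero] at hi1
      exact hA ((p1 A).1 hi1.symm)
    set A0 : F[X] := C lam⁻¹ * A with hA0
    have hvl : V.valuation lam ≠ 0 := (Valuation.ne_zero_iff _).2 hlam0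
    have hpn0 : pn V A0 = 1 := by
      rw [hA0, p7, map_inv₀, ← hi1, inv_mul_cancel₀ hvl]
    have hAA : A = C lam * A0 := by
      rw [hA0, ← mul_assoc, ← C_mul, mul_inv_cancel₀ hlam0, C_1, one_mul]
    have hA0r : A0.natDegree < P.natDegree := by
      rw [hA0, natDegree_C_mul (inv_ne_zero hlam0)]
      exact hAr
    obtain ⟨c, hc1, hc2⟩ := Nk.local_triv V hl hch hs hPm rfl hin hco hfq A0 ((p9 A0).1 hpn0.le)
      (fun h => absurd ((p10 A0).2 h) (by rw [hpn0]; exact lt_irrefl _)) hA0r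
    set μ : F := ∏ j ∈ Finset.range P.natDegree, (lam ^ (l ^ s) ^ j) ^ (l ^ s) ^ (P.natDegree - j) with hμ
    have hμ0 : μ ≠ 0 := Finset.prod_ne_zero_iff.2 fun j _ => pow_ne_zero _ (pow_ne_zero _ hlam0)
    have hprod : (∏ j ∈ Finset.range P.natDegree, (tw ((l ^ s) ^ j) A) ^ (l ^ s) ^ (P.natDegree - j)) =
        C μ * ∏ j ∈ Finset.range P.natDegree, (tw ((l ^ s) ^ j) A0) ^ (l ^ s) ^ (P.natDegree - j) := by
      rw [hμ, map_prod, ← Finset.prod_mul_distrib]
      apply Finset.prod_congr rfl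
      intro j _
      have h1 : tw ((l ^ s) ^ j) A = C (lam ^ (l ^ s) ^ j) * tw ((l ^ s) ^ j) A0 := by
        ext i
        rw [coeff_C_mul, Tws.tw_coeff _ _ (pow_ne_zero _ (by omega)), Tws.tw_coeff _ _ (pow_ne_zero _ (by omega)),
          ← mul_pow, ← coeff_C_mul, ← hAA]
      rw [h1, mul_pow, ← C_pow]
    refine ⟨μ * c, mul_ne_zero hμ0 (by rintro rfl; rw [map_zero] at hc1; exact zero_ne_one hc1), ?_⟩
    have h2 : (C μ * ∏ j ∈ Finset.range P.natDegree, (tw ((l ^ s) ^ j) A0) ^ (l ^ s) ^ (P.natDegree - j)) %ₘ P =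
        C μ * ((∏ j ∈ Finset.range P.natDegree, (tw ((l ^ s) ^ j) A0) ^ (l ^ s) ^ (P.natDegree - j)) %ₘ P) := by
      rw [← smul_eq_C_mul, ← smul_eq_C_mul, smul_modByMonic]
    rw [hprod, h2, mul_one, p8, C_mul, ← mul_sub, p7, Valuation.map_mul, hc1, mul_one]
    have hvμ : 0 < V.valuation μ := zero_lt_iff.2 ((Valuation.ne_zero_iff _).2 hμ0)
    calc V.valuation μ * _ < V.valuation μ * 1 := mul_lt_mul_of_pos_left ((p10 _).2 hc2) hvμ
      _ = V.valuation μ := mul_one _
  rw [hsum2] at hzero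
  -- coprimality
  have hcop : Nat.Coprime p (P.natDegree * (l ^ s) ^ P.natDegree) := by
    rw [hp.coprime_iff_not_dvd]
    intro h
    rcases (Nat.Prime.dvd_mul hp).1 h with h | h
    · have := Nat.le_of_dvd (by omega) h
      omega
    · have h1 := hp.dvd_of_dvd_pow (hp.dvd_of_dvd_pow h)
      exact hlp ((Nat.prime_dvd_prime_iff_eq hp hl).1 h1).symm
  have h3 := htors (g A)
  have h4 : (addOrderOf (g A)) ∣ Nat.gcd p (P.natDegree * (l ^ s) ^ P.natDegree) :=
    Nat.dvd_gcd (addOrderOf_dvd_of_nsmul_eq_zero h3) (addOrderOf_dvd_of_nsmul_eq_zero hzero)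
  rw [hcop.gcd_eq_one, Nat.dvd_one, AddMonoid.addOrderOf_eq_one_iff] at h4
  exact h4

end CL
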